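import Pool.Agent.Y486.Base
import Pool.Agent.TH997.CManB
import Pool.Agent.TH997.J115
import Pool.Agent.TH598.KG.Chart

/-!
# The action of the group in the two charts
-/

set_option autoImplicit false

open scoped Manifold ContDiff Topology ComplexConjugate MatrixGroups UpperHalfPlane Matrix
open MeasureTheory Set Filter

namespace Pool.Agent.Y486

open Pool.Agent.W549.CY (Cn dz dzbar HermitianMetric chernRicci chernScalar)
open Pool.Agent.W711.KC (jj nn CG jj_ne im_mob jj_mul nn_mul det_eq)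
open Pool.Agent.TH598.KG (hf Cutoff)
open Pool.Agent.TH997.KG (mob VV mob_mem mob_mul mob_one mob_inv_left mob_inv_right)
open Pool.Agent.TH997.CMan
open Complex (normSq)

theorem two_le_inf : (2 : WithTop ℕ∞) ≤ ∞ := ENat.LEInfty.out

theorem isOpen_UU : IsOpen UU :=
  isOpen_lt continuous_const (Complex.continuous_im.comp (continuous_apply 0))

theorem measurableSet_UU : MeasurableSet UU := isOpen_UU.measurableSet

theorem ins_self (i : Fin 2) (p : Cn 2) : ins i p i = 1 := by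
  fin_cases i <;> rfl

theorem ins_ne (i : Fin 2) (p : Cn 2) : ins i p ≠ 0 := by
  intro h
  have := congrFun h i
  rw [ins_self] at this
  exact one_ne_zero this

theorem ins_outc (j : Fin 2) {x : Cn 2} (hx : x j ≠ 0) (t : ℂ) :
    ins j ![t, outc j x] = (x j)⁻¹ • x := by
  funext k
  fin_cases j <;> fin_cases k <;> simp [ins, outc] at hx ⊢ <;> field_simp

theorem outc_smul (j : Fin 2) (x : Cn 2) {c : ℂ} (hc : c ≠ 0) : outc j (c • x) = outc j x := by
  unfold outc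
  simp only [Pi.smul_apply, smul_eq_mul]
  rw [mul_div_mul_left _ _ hc]

theorem outc_ins (j : Fin 2) (p : Cn 2) : outc j (ins j p) = p 1 := by
  fin_cases j <;> simp [outc, ins]

theorem eta2 (p : Cn 2) : ![p 0, p 1] = p := by
  funext k
  fin_cases k <;> rfl

theorem FF_zero (g : SL(2, ℝ)) (i j : Fin 2) (p : Cn 2) : FF g i j p 0 = mob g (p 0) := rfl

theorem FF_mem (g : SL(2, ℝ)) (i j : Fin 2) {p : Cn 2} (hp : p ∈ UU) : FF g i j p ∈ UU := by
  show 0 < (nn g (p 0) / jj g (p 0)).im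
  exact mob_mem g hp

theorem hom_ne (g : SL(2, ℝ)) (i : Fin 2) {p : Cn 2} (hp : p ∈ UU) :
    ∃ j, hom g i p j ≠ 0 := by
  by_cases h : ins i p 1 = 0
  · refine ⟨0, ?_⟩
    have h0 : ins i p 0 ≠ 0 := by
      intro h0
      apply ins_ne i p
      funext k
      fin_cases k
      · exact h0
      · exact h
    exact mul_ne_zero (jj_ne g hp) h0
  · exact ⟨1, h⟩

theorem ins_FF (g : SL(2, ℝ)) (i j : Fin 2) {p : Cn 2} (h : hom g i p j ≠ 0) :
    ins j (FF g i j p) = (hom g i p j)⁻¹ • hom g i p := ins_outc j h _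

theorem hom_FF (h g : SL(2, ℝ)) (i j : Fin 2) {p : Cn 2} (hp : p ∈ UU) (hh : hom g i p j ≠ 0) :
    hom h j (FF g i j p) = (hom g i p j)⁻¹ • hom (h * g) i p := by
  have h1 := ins_FF g i j hh
  funext k
  fin_cases k
  · show jj h (mob g (p 0)) * ins j (FF g i j p) 0 = _
    rw [h1]
    show jj h (mob g (p 0)) * ((hom g i p j)⁻¹ * (jj g (p 0) * ins i p 0)) =
      (hom g i p j)⁻¹ * (jj (h * g) (p 0) * ins i p 0)
    rw [jj_mul h g hp]
    unfold mob
    ring
  · show ins j (FF g i j p) 1 = _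
    rw [h1]
    rfl

theorem FF_FF (h g : SL(2, ℝ)) (i j l : Fin 2) {p : Cn 2} (hp : p ∈ UU) (hh : hom g i p j ≠ 0) :
    FF h j l (FF g i j p) = FF (h * g) i l p := by
  have h1 : mob h (mob g (p 0)) = mob (h * g) (p 0) := (mob_mul h g hp).symm
  change ![mob h (mob g (p 0)), outc l (hom h j (FF g i j p))] =
    ![mob (h * g) (p 0), outc l (hom (h * g) i p)]
  rw [hom_FF h g i j hp hh, outc_smul l _ (inv_ne_zero hh), h1]

theorem jj_one' (z : ℂ) : jj 1 z = 1 := by simp [jj]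

theorem nn_one' (z : ℂ) : nn 1 z = z := by simp [nn]

theorem hom_one (i : Fin 2) (p : Cn 2) : hom 1 i p = ins i p := by
  funext k
  fin_cases k
  · show jj 1 (p 0) * ins i p 0 = ins i p 0
    rw [jj_one', one_mul]
  · rfl

theorem FF_one_self (i : Fin 2) (p : Cn 2) : FF 1 i i p = p := by
  unfold FF
  rw [hom_one, outc_ins, jj_one', nn_one', div_one]
  exact eta2 p

theorem hom_inv_ne (g : SL(2, ℝ)) (i j : Fin 2) {p : Cn 2} (hp : p ∈ UU) (h : hom g i p j ≠ 0) :
    hom g⁻¹ j (FF g i j p) i ≠ 0 := by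
  rw [hom_FF _ _ _ _ hp h, inv_mul_cancel, hom_one, Pi.smul_apply, ins_self, smul_eq_mul, mul_one]
  exact inv_ne_zero h

theorem FF_inv (g : SL(2, ℝ)) (i j : Fin 2) {p : Cn 2} (hp : p ∈ UU) (h : hom g i p j ≠ 0) :
    FF g⁻¹ j i (FF g i j p) = p := by
  rw [FF_FF _ _ _ _ _ hp h, inv_mul_cancel, FF_one_self]

/-! ### The derivative -/

/-- sign -/
noncomputable def sg (i j : Fin 2) : ℂ := if i = j then 1 else -1

/-- sign -/
noncomputable def sg' (j : Fin 2) : ℂ := ![-1, 1] j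

/-- the entry `∂(FF)₁/∂p₀` -/
noncomputable def ja (g : SL(2, ℝ)) (i j : Fin 2) (p : Cn 2) : ℂ :=
  sg' j * (g 1 0 : ℂ) * ins i p 0 * ins i p 1 / hom g i p j ^ 2

/-- the entry `∂(FF)₁/∂p₁` -/
noncomputable def jb (g : SL(2, ℝ)) (i j : Fin 2) (p : Cn 2) : ℂ :=
  sg i j * jj g (p 0) / hom g i p j ^ 2

/-- the derivative of the action -/
noncomputable def JF (g : SL(2, ℝ)) (i j : Fin 2) (p : Cn 2) : Cn 2 →L[ℂ] Cn 2 :=
  ContinuousLinearMap.pi ![(1 / jj g (p 0) ^ 2) • ContinuousLinearMap.proj (R := ℂ) 0,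
    ja g i j p • ContinuousLinearMap.proj (R := ℂ) 0 + jb g i j p • ContinuousLinearMap.proj (R := ℂ) 1]

theorem JF_apply_zero (g : SL(2, ℝ)) (i j : Fin 2) (p v : Cn 2) :
    JF g i j p v 0 = 1 / jj g (p 0) ^ 2 * v 0 := rfl

theorem JF_apply_one (g : SL(2, ℝ)) (i j : Fin 2) (p v : Cn 2) :
    JF g i j p v 1 = ja g i j p * v 0 + jb g i j p * v 1 := rfl

theorem hasFDerivAt_coord (k : Fin 2) (p : Cn 2) :
    HasFDerivAt (fun q : Cn 2 => q k) (ContinuousLinearMap.proj (R := ℂ) k : Cn 2 →L[ℂ] ℂ) p :=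
  (ContinuousLinearMap.proj (R := ℂ) k : Cn 2 →L[ℂ] ℂ).hasFDerivAt

theorem hasFDerivAt_jj (g : SL(2, ℝ)) (p : Cn 2) :
    HasFDerivAt (fun q : Cn 2 => jj g (q 0))
      ((g 1 0 : ℂ) • (ContinuousLinearMap.proj (R := ℂ) 0 : Cn 2 →L[ℂ] ℂ)) p := by
  unfold jj
  exact ((hasFDerivAt_coord 0 p).const_mul (g 1 0 : ℂ)).add_const _

theorem hasFDerivAt_nn (g : SL(2, ℝ)) (p : Cn 2) :
    HasFDerivAt (fun q : Cn 2 => nn g (q 0))
      ((g 0 0 : ℂ) • (ContinuousLinearMap.proj (R := ℂ) 0 : Cn 2 →L[ℂ] ℂ)) p := by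
  unfold nn
  exact ((hasFDerivAt_coord 0 p).const_mul (g 0 0 : ℂ)).add_const _

theorem deriv_quot {a b : Cn 2 → ℂ} {La Lb : Cn 2 →L[ℂ] ℂ} {p : Cn 2} (ha : HasFDerivAt a La p)
    (hb : HasFDerivAt b Lb p) (h0 : b p ≠ 0) :
    HasFDerivAt (fun q => a q / b q) ((1 / b p ^ 2) • (b p • La - a p • Lb)) p := by
  have h := ha.mul ((hasDerivAt_inv h0).comp_hasFDerivAt p hb)
  have h1 : (fun q => a q / b q) = fun q => a q * (b q)⁻¹ := by
    funext q
    exact div_eq_mul_inv _ _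
  rw [h1]
  refine h.congr_fderiv ?_
  ext v
  simp only [add_apply, smul_apply, sub_apply, smul_eq_mul, Function.comp_apply]
  field_simp
  ring

theorem det_c (g : SL(2, ℝ)) (z : ℂ) : (g 0 0 : ℂ) * jj g z - nn g z * (g 1 0 : ℂ) = 1 := by
  have hd : (g 0 0 : ℂ) * (g 1 1 : ℂ) - (g 0 1 : ℂ) * (g 1 0 : ℂ) = 1 := by
    exact_mod_cast congrArg (fun x : ℝ => (x : ℂ)) (det_eq g)
  simp only [nn, jj]
  linear_combination hd

theorem hasFDerivAt_FF (g : SL(2, ℝ)) (i j : Fin 2) {p : Cn 2} (hp : p ∈ UU)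
    (h : hom g i p j ≠ 0) : HasFDerivAt (FF g i j) (JF g i j p) p := by
  have hj : jj g (p 0) ≠ 0 := jj_ne g hp
  have h0 : HasFDerivAt (fun q : Cn 2 => nn g (q 0) / jj g (q 0))
      ((1 / jj g (p 0) ^ 2) • (ContinuousLinearMap.proj (R := ℂ) 0 : Cn 2 →L[ℂ] ℂ)) p := by
    refine (deriv_quot (hasFDerivAt_nn g p) (hasFDerivAt_jj g p) hj).congr_fderiv ?_
    have h1 := det_c g (p 0)
    ext v
    simp only [smul_apply, sub_apply, smul_eq_mul, ContinuousLinearMap.proj_apply]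
    linear_combination (1 / jj g (p 0) ^ 2 * v 0) * h1
  have hc0 := hasFDerivAt_coord 0 p
  have hc1 := hasFDerivAt_coord 1 p
  have hJ := hasFDerivAt_jj g p
  rw [hasFDerivAt_pi']
  intro k
  fin_cases k
  · exact h0
  · fin_cases i <;> fin_cases j
    · -- u / j
      have e : (fun q : Cn 2 => FF g 0 0 q 1) = fun q => q 1 / jj g (q 0) := by
        funext q
        simp [FF, outc, hom, ins]
      show HasFDerivAt (fun q : Cn 2 => FF g 0 0 q 1) _ p
      rw [e]
      refine (deriv_quot hc1 hJ hj).congr_fderiv ?_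
      ext v
      show _ = ja g 0 0 p * v 0 + jb g 0 0 p * v 1
      simp only [smul_apply, sub_apply, smul_eq_mul, ContinuousLinearMap.proj_apply]
      simp [ja, jb, sg, sg', hom, ins]
      field_simp
      ring
    · -- j / u
      have hu : p 1 ≠ 0 := h
      have e : (fun q : Cn 2 => FF g 0 1 q 1) = fun q => jj g (q 0) / q 1 := by
        funext q
        simp [FF, outc, hom, ins]
      show HasFDerivAt (fun q : Cn 2 => FF g 0 1 q 1) _ p
      rw [e]
      refine (deriv_quot hJ hc1 hu).congr_fderiv ?_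
      ext v
      show _ = ja g 0 1 p * v 0 + jb g 0 1 p * v 1
      simp only [smul_apply, sub_apply, smul_eq_mul, ContinuousLinearMap.proj_apply]
      simp [ja, jb, sg, sg', hom, ins]
      field_simp
      ring
    · -- 1 / (j t)
      have hu : jj g (p 0) * p 1 ≠ 0 := h
      have e : (fun q : Cn 2 => FF g 1 0 q 1) = fun q => 1 / (jj g (q 0) * q 1) := by
        funext q
        simp [FF, outc, hom, ins]
      have hu1 : p 1 ≠ 0 := right_ne_zero_of_mul hu
      show HasFDerivAt (fun q : Cn 2 => FF g 1 0 q 1) _ p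
      rw [e]
      refine (deriv_quot (hasFDerivAt_const (1 : ℂ) p) (hJ.mul hc1) hu).congr_fderiv ?_
      ext v
      show _ = ja g 1 0 p * v 0 + jb g 1 0 p * v 1
      simp only [smul_apply, sub_apply, smul_eq_mul, ContinuousLinearMap.proj_apply, add_apply,
        zero_apply]
      simp [ja, jb, sg, sg', hom, ins]
      field_simp
    · -- j t
      have e : (fun q : Cn 2 => FF g 1 1 q 1) = fun q => jj g (q 0) * q 1 := by
        funext q
        simp [FF, outc, hom, ins]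
      show HasFDerivAt (fun q : Cn 2 => FF g 1 1 q 1) _ p
      rw [e]
      refine (hJ.mul hc1).congr_fderiv ?_
      ext v
      show _ = ja g 1 1 p * v 0 + jb g 1 1 p * v 1
      simp only [smul_apply, add_apply, smul_eq_mul, ContinuousLinearMap.proj_apply]
      simp [ja, jb, sg, sg', hom, ins]
      ring

theorem differentiable_ins (i k : Fin 2) : Differentiable ℂ fun p : Cn 2 => ins i p k := by
  fin_cases i <;> fin_cases k <;> simp [ins] <;> fun_prop

theorem contDiff_ins (i k : Fin 2) {n : WithTop ℕ∞} : ContDiff ℂ n fun p : Cn 2 => ins i p k := by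
  fin_cases i <;> fin_cases k <;> simp [ins] <;> fun_prop

theorem contDiff_jj (g : SL(2, ℝ)) {n : WithTop ℕ∞} : ContDiff ℂ n fun p : Cn 2 => jj g (p 0) := by
  unfold jj
  fun_prop

theorem contDiff_nn (g : SL(2, ℝ)) {n : WithTop ℕ∞} : ContDiff ℂ n fun p : Cn 2 => nn g (p 0) := by
  unfold nn
  fun_prop

theorem contDiff_hom (g : SL(2, ℝ)) (i k : Fin 2) {n : WithTop ℕ∞} :
    ContDiff ℂ n fun p : Cn 2 => hom g i p k := by
  fin_cases k
  · exact (contDiff_jj g).mul (contDiff_ins i 0)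
  · exact contDiff_ins i 1

theorem contDiffAt_FF (g : SL(2, ℝ)) (i j : Fin 2) {p : Cn 2} (hp : p ∈ UU)
    (h : hom g i p j ≠ 0) {n : WithTop ℕ∞} : ContDiffAt ℂ n (FF g i j) p := by
  rw [contDiffAt_pi]
  intro k
  fin_cases k
  · exact (contDiff_nn g).contDiffAt.div (contDiff_jj g).contDiffAt (jj_ne g hp)
  · exact ((contDiff_hom g i (![1, 0] j)).contDiffAt).div (contDiff_hom g i j).contDiffAt h

theorem continuous_hom (g : SL(2, ℝ)) (i k : Fin 2) : Continuous fun p : Cn 2 => hom g i p k :=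
  (contDiff_hom g i k (n := 0)).continuous

theorem fderiv_FF (g : SL(2, ℝ)) (i j : Fin 2) {p : Cn 2} (hp : p ∈ UU)
    (h : hom g i p j ≠ 0) : fderiv ℂ (FF g i j) p = JF g i j p :=
  (hasFDerivAt_FF g i j hp h).fderiv

/-- the absolute value squared of the Jacobian determinant -/
noncomputable def JD (g : SL(2, ℝ)) (i j : Fin 2) (p : Cn 2) : ℝ :=
  1 / (normSq (jj g (p 0)) * normSq (hom g i p j) ^ 2)

theorem normSq_sg (i j : Fin 2) : normSq (sg i j) = 1 := by
  unfold sg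
  split_ifs <;> simp

theorem JD_eq (g : SL(2, ℝ)) (i j : Fin 2) {p : Cn 2} (hp : p ∈ UU) :
    JD g i j p = normSq (1 / jj g (p 0) ^ 2) * normSq (jb g i j p) := by
  have hj : normSq (jj g (p 0)) ≠ 0 := (Complex.normSq_pos.2 (jj_ne g hp)).ne'
  unfold JD jb
  simp only [Complex.normSq_div, map_one, map_pow, map_mul, normSq_sg]
  by_cases h : normSq (hom g i p j) = 0
  · simp [h]
  · field_simp

theorem JD_pos (g : SL(2, ℝ)) (i j : Fin 2) {p : Cn 2} (hp : p ∈ UU) (h : hom g i p j ≠ 0) :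
    0 < JD g i j p := by
  have hj : 0 < normSq (jj g (p 0)) := Complex.normSq_pos.2 (jj_ne g hp)
  have hh : 0 < normSq (hom g i p j) := Complex.normSq_pos.2 h
  unfold JD
  positivity

theorem JD_FF (h g : SL(2, ℝ)) (i j l : Fin 2) {p : Cn 2} (hp : p ∈ UU)
    (h1 : hom g i p j ≠ 0) :
    JD g i j p * JD h j l (FF g i j p) = JD (h * g) i l p := by
  have hj : normSq (jj g (p 0)) ≠ 0 := (Complex.normSq_pos.2 (jj_ne g hp)).ne'
  have hh : normSq (hom g i p j) ≠ 0 := (Complex.normSq_pos.2 h1).ne'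
  unfold JD
  rw [hom_FF h g i j hp h1]
  have h2 : jj (h * g) (p 0) = jj h (mob g (p 0)) * jj g (p 0) := jj_mul h g hp
  rw [h2, FF_zero, Pi.smul_apply, smul_eq_mul]
  simp only [map_mul, map_inv₀]
  by_cases h3 : normSq (hom (h * g) i p l) = 0
  · simp [h3]
  · have h4 : normSq (jj h (mob g (p 0))) ≠ 0 :=
      (Complex.normSq_pos.2 (jj_ne h (mob_mem g hp))).ne'
    field_simp

/-- the determinant of the real derivative -/
theorem det_JF (g : SL(2, ℝ)) (i j : Fin 2) {p : Cn 2} (hp : p ∈ UU) :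
    ((JF g i j p).restrictScalars ℝ : Cn 2 →L[ℝ] Cn 2).det = JD g i j p := by
  have h1 : ((JF g i j p).restrictScalars ℝ : Cn 2 →L[ℝ] Cn 2).det =
      (((JF g i j p : Cn 2 →L[ℂ] Cn 2) : Cn 2 →ₗ[ℂ] Cn 2).restrictScalars ℝ).det := rfl
  rw [h1, LinearMap.det_restrictScalars, Algebra.norm_complex_apply, JD_eq g i j hp, ← map_mul]
  congr 1
  rw [← LinearMap.det_toMatrix']
  rw [Matrix.det_fin_two]
  simp only [LinearMap.toMatrix'_apply, ContinuousLinearMap.coe_coe, JF_apply_zero, JF_apply_one]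
  simp

/-! ### Transformation of the weights -/

section weights

variable {A C : ℝ} {P : Fin 2 → Cn 2 → ℝ}

theorem Wt.contDiffAt (hP : Wt A C P) (i : Fin 2) {p : Cn 2} (hp : p ∈ UU) :
    ContDiffAt ℝ ∞ (P i) p := (hP.smooth i).contDiffAt (isOpen_UU.mem_nhds hp)

theorem Wt.contDiffAtC (hP : Wt A C P) (i : Fin 2) {p : Cn 2} (hp : p ∈ UU) :
    ContDiffAt ℝ ∞ (fun q => ((P i q : ℝ) : ℂ)) p :=
  Complex.ofRealCLM.contDiff.contDiffAt.comp p (hP.contDiffAt i hp)

theorem hom_eventually (g : SL(2, ℝ)) (i j : Fin 2) {p : Cn 2} (h : hom g i p j ≠ 0) :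
    ∀ᶠ q in 𝓝 p, hom g i q j ≠ 0 :=
  (continuous_hom g i j).continuousAt.eventually_ne h

theorem levi_const_mul (c : ℂ) {u : Cn 2 → ℂ} {p : Cn 2} (hu : ContDiffAt ℝ 2 u p) (j k : Fin 2) :
    dz j (dzbar k fun q => c * u q) p = c * dz j (dzbar k u) p := by
  have h1 : (dzbar k fun q => c * u q) =ᶠ[𝓝 p] fun q => c * dzbar k u q := by
    filter_upwards [hu.eventually (by simp)] with q hq
    unfold dzbar
    rw [fderiv_const_mul (hq.differentiableAt (by simp))]
    simp only [smul_apply, smul_eq_mul]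
    ring
  rw [dz_congr h1]
  have h2 : DifferentiableAt ℝ (dzbar k u) p :=
    (contDiffAt_dzbar (m := 1) hu k).differentiableAt (by simp)
  unfold dz
  rw [fderiv_const_mul h2]
  simp only [smul_apply, smul_eq_mul]
  ring

/-- pull-back of a matrix -/
noncomputable def pull (L : Cn 2 →L[ℂ] Cn 2) (a : M2) : M2 :=
  Matrix.of fun j k => ∑ c, ∑ d, L (Pi.single j 1) c * conj (L (Pi.single k 1) d) * a c d

theorem Wt.LL_eq (hP : Wt A C P) {g : SL(2, ℝ)} (hg : g ∈ CG) (i j : Fin 2) {p : Cn 2}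
    (hp : p ∈ UU) (h : hom g i p j ≠ 0) :
    LL (P i) p = pull (JF g i j p) (LL (P j) (FF g i j p)) := by
  have hjne : jj g (p 0) ≠ 0 := jj_ne g hp
  have hev : (fun q => ((P i q : ℝ) : ℂ)) =ᶠ[𝓝 p] fun q => ((P j (FF g i j q) : ℝ) : ℂ) +
      ((A : ℂ) * ((Real.log (normSq (hom g i q j)) : ℝ) : ℂ) +
      ((-C : ℝ) : ℂ) * ((Real.log (normSq (jj g (q 0))) : ℝ) : ℂ)) := by
    filter_upwards [hom_eventually g i j h, isOpen_UU.mem_nhds hp] with q hq hqU
    rw [hP.compat g hg i j q hqU hq]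
    push_cast
    ring
  have hF := contDiffAt_FF g i j hp h (n := 2)
  have hFR : ContDiffAt ℝ 2 (FF g i j) p := hF.restrict_scalars ℝ
  have hPj : ContDiffAt ℝ 2 (fun q => ((P j q : ℝ) : ℂ)) (FF g i j p) :=
    (hP.contDiffAtC j (FF_mem g i j hp)).of_le two_le_inf
  have hlog : ∀ {h : Cn 2 → ℂ}, ContDiffAt ℂ 2 h p → h p ≠ 0 →
      ContDiffAt ℝ 2 (fun q => ((Real.log (normSq (h q)) : ℝ) : ℂ)) p := by
    intro h hh h0
    have h1 : ContDiffAt ℝ 2 (fun q => normSq (h q)) p := by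
      have h2 : ContDiffAt ℝ 2 h p := hh.restrict_scalars ℝ
      have h3 : (fun q => normSq (h q)) = fun q => ‖h q‖ ^ 2 := by
        funext q
        exact Complex.normSq_eq_norm_sq _
      rw [h3]
      exact h2.norm_sq ℝ
    exact Complex.ofRealCLM.contDiff.contDiffAt.comp p
      (h1.log (Complex.normSq_pos.2 h0).ne')
  have c1 := hlog (contDiff_hom g i j).contDiffAt h
  have c2 := hlog (contDiff_jj g).contDiffAt hjne
  ext a b
  show dz a (dzbar b fun q => ((P i q : ℝ) : ℂ)) p = _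
  have e1 := levi_add (hPj.comp p hFR) ((contDiffAt_const (c := (A : ℂ)).mul c1).add
    (contDiffAt_const (c := ((-C : ℝ) : ℂ)).mul c2)) a b
  have e2 := levi_add (contDiffAt_const (c := (A : ℂ)).mul c1)
    (contDiffAt_const (c := ((-C : ℝ) : ℂ)).mul c2) a b
  have e3 := levi_comp (u := fun q => ((P j q : ℝ) : ℂ)) hPj hF a b
  rw [levi_congr hev]
  refine e1.trans ?_
  rw [e2, levi_const_mul _ c1, levi_const_mul _ c2, levi_log (contDiff_hom g i j).contDiffAt h,
    levi_log (contDiff_jj g).contDiffAt hjne]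
  simp only [mul_zero, add_zero]
  refine e3.trans ?_
  rw [fderiv_FF g i j hp h]
  rfl

theorem Wt.dz_eq (hP : Wt 0 0 P) {g : SL(2, ℝ)} (hg : g ∈ CG) (i j : Fin 2) {p : Cn 2}
    (hp : p ∈ UU) (h : hom g i p j ≠ 0) (k : Fin 2) :
    dz k (fun q => ((P i q : ℝ) : ℂ)) p =
      ∑ a, dz a (fun q => ((P j q : ℝ) : ℂ)) (FF g i j p) * JF g i j p (Pi.single k 1) a := by
  have hev : (fun q => ((P i q : ℝ) : ℂ)) =ᶠ[𝓝 p] fun q => ((P j (FF g i j q) : ℝ) : ℂ) := by
    filter_upwards [hom_eventually g i j h, isOpen_UU.mem_nhds hp] with q hq hqU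
    rw [hP.compat g hg i j q hqU hq]
    simp
  rw [dz_congr hev, dz_comp (u := fun q => ((P j q : ℝ) : ℂ))
    ((hP.contDiffAtC j (FF_mem g i j hp)).differentiableAt (by simp))
    ((contDiffAt_FF g i j hp h (n := 2)).differentiableAt (by simp)), fderiv_FF g i j hp h]

theorem Wt.dzbar_eq (hP : Wt 0 0 P) {g : SL(2, ℝ)} (hg : g ∈ CG) (i j : Fin 2) {p : Cn 2}
    (hp : p ∈ UU) (h : hom g i p j ≠ 0) (k : Fin 2) :
    dzbar k (fun q => ((P i q : ℝ) : ℂ)) p =
      ∑ a, dzbar a (fun q => ((P j q : ℝ) : ℂ)) (FF g i j p) *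
        conj (JF g i j p (Pi.single k 1) a) := by
  have hev : (fun q => ((P i q : ℝ) : ℂ)) =ᶠ[𝓝 p] fun q => ((P j (FF g i j q) : ℝ) : ℂ) := by
    filter_upwards [hom_eventually g i j h, isOpen_UU.mem_nhds hp] with q hq hqU
    rw [hP.compat g hg i j q hqU hq]
    simp
  rw [dzbar_congr hev, dzbar_comp (u := fun q => ((P j q : ℝ) : ℂ))
    ((hP.contDiffAtC j (FF_mem g i j hp)).differentiableAt (by simp))
    ((contDiffAt_FF g i j hp h (n := 2)).differentiableAt (by simp)), fderiv_FF g i j hp h]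

/-- the matrix of `∂f ⊗ ∂̄h` -/
noncomputable def DM (f h : Cn 2 → ℝ) (p : Cn 2) : M2 :=
  Matrix.of fun j k => dz j (fun q => ((f q : ℝ) : ℂ)) p * dzbar k (fun q => ((h q : ℝ) : ℂ)) p

theorem Wt.DM_eq {f h : Fin 2 → Cn 2 → ℝ} (hf : Wt 0 0 f) (hh : Wt 0 0 h) {g : SL(2, ℝ)}
    (hg : g ∈ CG) (i j : Fin 2) {p : Cn 2} (hp : p ∈ UU) (h0 : hom g i p j ≠ 0) :
    DM (f i) (h i) p = pull (JF g i j p) (DM (f j) (h j) (FF g i j p)) := by
  ext a b
  show dz a (fun q => ((f i q : ℝ) : ℂ)) p * dzbar b (fun q => ((h i q : ℝ) : ℂ)) p = _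
  rw [hf.dz_eq hg i j hp h0, hh.dzbar_eq hg i j hp h0]
  simp only [pull, DM, Matrix.of_apply, Fin.sum_univ_two]
  ring

theorem pull_apply (g : SL(2, ℝ)) (i j : Fin 2) (p : Cn 2) (a : M2) :
    pull (JF g i j p) a 0 0 =
        (1 / jj g (p 0) ^ 2) * conj (1 / jj g (p 0) ^ 2) * a 0 0 +
        (1 / jj g (p 0) ^ 2) * conj (ja g i j p) * a 0 1 +
        (ja g i j p * conj (1 / jj g (p 0) ^ 2) * a 1 0 + ja g i j p * conj (ja g i j p) * a 1 1) ∧
    pull (JF g i j p) a 0 1 = (1 / jj g (p 0) ^ 2) * conj (jb g i j p) * a 0 1 +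
        ja g i j p * conj (jb g i j p) * a 1 1 ∧
    pull (JF g i j p) a 1 0 = jb g i j p * conj (1 / jj g (p 0) ^ 2) * a 1 0 +
        jb g i j p * conj (ja g i j p) * a 1 1 ∧
    pull (JF g i j p) a 1 1 = jb g i j p * conj (jb g i j p) * a 1 1 := by
  refine ⟨?_, ?_, ?_, ?_⟩
  all_goals
    simp only [pull, Matrix.of_apply, Fin.sum_univ_two, JF_apply_zero, JF_apply_one]
    simp

theorem DD_pull (g : SL(2, ℝ)) (i j : Fin 2) {p : Cn 2} (hp : p ∈ UU) (a b : M2) :
    DD (pull (JF g i j p) a) (pull (JF g i j p) b) = JD g i j p * DD a b := by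
  obtain ⟨a0, a1, a2, a3⟩ := pull_apply g i j p a
  obtain ⟨b0, b1, b2, b3⟩ := pull_apply g i j p b
  unfold DD
  rw [a0, a1, a2, a3, b0, b1, b2, b3, JD_eq g i j hp, ← Complex.re_ofReal_mul]
  congr 1
  push_cast
  rw [← Complex.mul_conj, ← Complex.mul_conj]
  ring

theorem DD_self (a : M2) : DD a a = 2 * a.det.re := by
  unfold DD
  rw [Matrix.det_fin_two, ← Complex.re_ofReal_mul]
  congr 1
  push_cast
  ring

theorem DD_comm (a b : M2) : DD a b = DD b a := by
  unfold DD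
  congr 1
  ring

theorem DD_add_left (a b c : M2) : DD (a + b) c = DD a c + DD b c := by
  unfold DD
  rw [← Complex.add_re]
  congr 1
  simp only [Matrix.add_apply]
  ring

theorem DD_add_right (a b c : M2) : DD a (b + c) = DD a b + DD a c := by
  rw [DD_comm, DD_add_left, DD_comm b, DD_comm c]

theorem DD_smul_left (r : ℝ) (a b : M2) : DD ((r : ℂ) • a) b = r * DD a b := by
  unfold DD
  rw [← Complex.re_ofReal_mul]
  congr 1
  simp only [Matrix.smul_apply, smul_eq_mul]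
  ring

theorem DD_smul_right (r : ℝ) (a b : M2) : DD a ((r : ℂ) • b) = r * DD a b := by
  rw [DD_comm, DD_smul_left, DD_comm]

theorem DD_sub_left (a b c : M2) : DD (a - b) c = DD a c - DD b c := by
  unfold DD
  rw [← Complex.sub_re]
  congr 1
  simp only [Matrix.sub_apply]
  ring

theorem DD_sub_right (a b c : M2) : DD a (b - c) = DD a b - DD a c := by
  rw [DD_comm, DD_sub_left, DD_comm b, DD_comm c]

theorem Wt.DD_eq {A' C' : ℝ} {Q : Fin 2 → Cn 2 → ℝ} (hP : Wt A C P) (hQ : Wt A' C' Q)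
    {g : SL(2, ℝ)} (hg : g ∈ CG) (i j : Fin 2) {p : Cn 2} (hp : p ∈ UU) (h : hom g i p j ≠ 0) :
    DD (LL (P i) p) (LL (Q i) p) =
      JD g i j p * DD (LL (P j) (FF g i j p)) (LL (Q j) (FF g i j p)) := by
  rw [hP.LL_eq hg i j hp h, hQ.LL_eq hg i j hp h, DD_pull g i j hp]

theorem Wt.det_eq (hP : Wt A C P) {g : SL(2, ℝ)} (hg : g ∈ CG) (i j : Fin 2) {p : Cn 2}
    (hp : p ∈ UU) (h : hom g i p j ≠ 0) :
    (LL (P i) p).det.re = JD g i j p * (LL (P j) (FF g i j p)).det.re := by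
  have h1 := hP.DD_eq hP hg i j hp h
  rw [DD_self, DD_self] at h1
  linarith

end weights

end Pool.Agent.Y486
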