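import Mathlib

/-!
# Triangular orthonormalisation
-/

set_option autoImplicit false

open scoped ComplexOrder ComplexConjugate Matrix
open Matrix

namespace Pool.Agent.Y486

theorem chol {N : ℕ} {H : Matrix (Fin N) (Fin N) ℂ} (hH : H.PosDef) :
    ∃ T : Matrix (Fin N) (Fin N) ℂ, (∀ i j, i < j → T i j = 0) ∧ (∀ i, T i i ≠ 0) ∧
      T * H * Tᴴ = 1 := by
  set M := LDL.lowerInv hH with hM
  have hMu : IsUnit M := by
    have := LDL.invertibleLowerInv hH
    exact isUnit_of_invertible _
  have hD : (LDL.diag hH).PosDef := by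
    rw [LDL.diag_eq_lowerInv_conj hH]
    have h1 : Function.Injective (Mᴴ.mulVec) := by
      have h2 : IsUnit Mᴴ := hMu.star
      exact (Matrix.mulVec_injective_iff_isUnit).2 h2
    have h3 := hH.conjTranspose_mul_mul_same h1
    rwa [conjTranspose_conjTranspose] at h3
  have hd : ∀ i, 0 < LDL.diagEntries hH i := by
    intro i
    have h1 := hD.diag_pos (i := i)
    rwa [LDL.diag, diagonal_apply_eq] at h1
  let r : Fin N → ℝ := fun i => √(LDL.diagEntries hH i).re
  have hr : ∀ i, 0 < r i := fun i => Real.sqrt_pos.2 (Complex.pos_iff.1 (hd i)).1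
  have hrr : ∀ i, (r i : ℂ) * (r i : ℂ) = LDL.diagEntries hH i := by
    intro i
    have h1 := Complex.pos_iff.1 (hd i)
    rw [← Complex.ofReal_mul, Real.mul_self_sqrt h1.1.le]
    apply Complex.ext
    · rfl
    · rw [Complex.ofReal_im]
      exact h1.2
  let R : Matrix (Fin N) (Fin N) ℂ := diagonal fun i => ((r i : ℂ))⁻¹
  have hRH : Rᴴ = R := by
    rw [diagonal_conjTranspose]
    congr 1
    funext i
    show conj ((r i : ℂ))⁻¹ = _
    rw [map_inv₀, Complex.conj_ofReal]
  have hTH : (R * M) * H * (R * M)ᴴ = 1 := by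
    rw [conjTranspose_mul, hRH]
    have h1 : R * M * H * (Mᴴ * R) = R * (M * H * Mᴴ) * R := by
      simp only [Matrix.mul_assoc]
    rw [h1, ← LDL.diag_eq_lowerInv_conj hH, LDL.diag, diagonal_mul_diagonal, diagonal_mul_diagonal,
      ← diagonal_one]
    congr 1
    funext i
    have h2 : (r i : ℂ) ≠ 0 := by exact_mod_cast (hr i).ne'
    rw [← hrr i]
    field_simp
  have htri : ∀ i j, i < j → (R * M) i j = 0 := by
    intro i j hij
    have h0 : M i j = 0 := LDL.lowerInv_triangular hH hij
    rw [diagonal_mul, h0, mul_zero]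
  refine ⟨R * M, htri, ?_, hTH⟩
  have hdet : (R * M).det ≠ 0 := by
    intro h0
    have h1 := congrArg Matrix.det hTH
    rw [Matrix.det_mul, Matrix.det_mul, h0, det_one] at h1
    simp at h1
  have htri' : (R * M).IsLowerTriangular := fun i j hij => htri i j (by simpa using hij)
  rw [det_of_isLowerTriangular _ htri'] at hdet
  intro i
  exact Finset.prod_ne_zero_iff.1 hdet i (Finset.mem_univ i)

end Pool.Agent.Y486
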