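import Pool.Agent.Y486.Berg
import Pool.Agent.Y486.Chol

/-!
# The adapted orthonormal basis
-/

set_option autoImplicit false

open scoped Manifold ContDiff Topology ComplexConjugate MatrixGroups UpperHalfPlane Matrix
open scoped ComplexOrder
open MeasureTheory Set Filter

namespace Pool.Agent.Y486

open Pool.Agent.W549.CY (Cn dz dzbar HermitianMetric chernRicci chernScalar)
open Pool.Agent.W711.KC (jj nn CG CG_far NN_pos jj_ne im_mob jj_mul nn_mul det_eq)
open Pool.Agent.TH598.KG (hf Cutoff d1 posDef_iff_hf)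
open Pool.Agent.TH997.KG (mob VV mob_mem mob_mul mob_one mob_inv_left mob_inv_right mob_coe
  hasDerivAt_mob isOpen_VV)
open Pool.Agent.TH997.CMan
open Complex (normSq)

/-! ### Algebra of automorphic forms -/

theorem IsMF.zero (m : ℕ) : IsMF m 0 :=
  ⟨differentiableOn_const 0, fun g _ z _ => by simp⟩

theorem IsMF.add {m : ℕ} {f g : ℂ → ℂ} (hf : IsMF m f) (hg : IsMF m g) : IsMF m (f + g) := by
  refine ⟨hf.hol.add hg.hol, fun γ hγ z hz => ?_⟩
  simp only [Pi.add_apply]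
  rw [hf.auto γ hγ z hz, hg.auto γ hγ z hz]
  ring

theorem IsMF.smul {m : ℕ} {f : ℂ → ℂ} (hf : IsMF m f) (c : ℂ) : IsMF m (c • f) := by
  refine ⟨hf.hol.const_smul c, fun γ hγ z hz => ?_⟩
  simp only [Pi.smul_apply, smul_eq_mul]
  rw [hf.auto γ hγ z hz]
  ring

theorem IsMF.sum {m : ℕ} {ι : Type} {s : Finset ι} {f : ι → ℂ → ℂ} (hf : ∀ i ∈ s, IsMF m (f i)) :
    IsMF m (∑ i ∈ s, f i) := by
  classical
  induction s using Finset.induction_on with
  | empty => simpa using IsMF.zero m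
  | insert a s ha ih =>
    rw [Finset.sum_insert ha]
    exact (hf a (Finset.mem_insert_self a s)).add (ih fun i hi => hf i (Finset.mem_insert_of_mem hi))

/-- a polynomial function which vanishes identically has zero coefficients -/
theorem poly_zero {A : ℕ} {c : ℕ → ℂ} (h : ∀ u : ℂ, ∑ l ∈ Finset.range (A + 1), c l * u ^ l = 0) :
    ∀ l ≤ A, c l = 0 := by
  intro l hl
  set p : Polynomial ℂ := ∑ l ∈ Finset.range (A + 1), Polynomial.monomial l (c l) with hp
  have h1 : p = 0 := by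
    apply Polynomial.funext
    intro u
    rw [hp, Polynomial.eval_finsetSum, Polynomial.eval_zero, ← h u]
    exact Finset.sum_congr rfl fun l _ => Polynomial.eval_monomial
  have h2 : p.coeff l = c l := by
    rw [hp, Polynomial.finsetSum_coeff]
    rw [Finset.sum_eq_single l]
    · exact Polynomial.coeff_monomial_same l (c l)
    · intro b _ hb
      exact Polynomial.coeff_monomial_of_ne (c b) hb.symm
    · intro h3
      exact absurd (Finset.mem_range.2 (Nat.lt_succ_of_le hl)) h3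
  rw [← h2, h1, Polynomial.coeff_zero]

/-! ### The Gram matrix -/

section gram

variable {N A C : ℕ} {v : Fin N → ℕ} {b : Fin N → ℕ → ℂ → ℂ} {φ : ℂ → ℝ}
  {Q G : Fin 2 → Cn 2 → ℝ}

/-- the Gram matrix -/
noncomputable def grm (φ : ℂ → ℝ) (A : ℕ) (b : Fin N → ℕ → ℂ → ℂ) (Q G : Fin 2 → Cn 2 → ℝ) :
    Matrix (Fin N) (Fin N) ℂ :=
  Matrix.of fun i j => ∫ p in UU, ((φ (p 0) * (Real.exp (-Q 0 p) * G 0 p) : ℝ) : ℂ) *
    (Fs A b 0 i p * conj (Fs A b 0 j p))

theorem Sys.grm_int (h : Sys A C v b) (hφ : Cutoff CG φ) (hQ : Wt A C Q) (hG : Dn G)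
    (hG0 : ∀ p ∈ UU, 0 ≤ G 0 p) (i j : Fin N) :
    IntegrableOn (fun p => ((φ (p 0) * (Real.exp (-Q 0 p) * G 0 p) : ℝ) : ℂ) *
      (Fs A b 0 i p * conj (Fs A b 0 j p))) UU := by
  classical
  have hd : ∀ i, IntegrableOn (fun p => φ (p 0) * (normSq (Fs A b 0 i p) * Real.exp (-Q 0 p) *
      G 0 p)) UU := by
    intro i
    have h1 := (Dn.fn_mul (h.fn_cmb (Pi.single i 1) hQ) hG).integrable hφ 0
    have e : cmb A b (Pi.single i 1) 0 = Fs A b 0 i := by
      funext p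
      unfold cmb
      rw [Finset.sum_eq_single i]
      · rw [Pi.single_eq_same, one_mul]
      · intro k _ hk
        rw [Pi.single_eq_of_ne hk, zero_mul]
      · intro hk
        exact absurd (Finset.mem_univ i) hk
    rw [e] at h1
    exact h1
  have hc : ∀ i, ContinuousOn (Fs A b 0 i) UU := fun i => (h.cdC 0 i (n := 0)).continuousOn
  have hcont : ContinuousOn (fun p => ((φ (p 0) * (Real.exp (-Q 0 p) * G 0 p) : ℝ) : ℂ) *
      (Fs A b 0 i p * conj (Fs A b 0 j p))) UU := by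
    refine ContinuousOn.mul (Complex.continuous_ofReal.comp_continuousOn ?_) ?_
    · exact (hφ.smooth.continuous.comp (continuous_apply 0)).continuousOn.mul
        ((Real.continuous_exp.comp_continuousOn (hQ.smooth 0).continuousOn.neg).mul (hG.cont 0))
    · exact (hc i).mul (Complex.continuous_conj.comp_continuousOn (hc j))
  refine Integrable.mono' ((hd i).add (hd j)) (hcont.aestronglyMeasurable measurableSet_UU) ?_
  filter_upwards [ae_restrict_mem measurableSet_UU] with p hp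
  have hw : 0 ≤ φ (p 0) * (Real.exp (-Q 0 p) * G 0 p) :=
    mul_nonneg (hφ.nonneg _) (mul_nonneg (Real.exp_pos _).le (hG0 p hp))
  rw [norm_mul, Complex.norm_real, Real.norm_of_nonneg hw, norm_mul, RCLike.norm_conj]
  show _ ≤ φ (p 0) * (normSq (Fs A b 0 i p) * Real.exp (-Q 0 p) * G 0 p) +
    φ (p 0) * (normSq (Fs A b 0 j p) * Real.exp (-Q 0 p) * G 0 p)
  rw [Complex.normSq_eq_norm_sq, Complex.normSq_eq_norm_sq]
  have h1 : ‖Fs A b 0 i p‖ * ‖Fs A b 0 j p‖ ≤ ‖Fs A b 0 i p‖ ^ 2 + ‖Fs A b 0 j p‖ ^ 2 := by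
    nlinarith [sq_nonneg (‖Fs A b 0 i p‖ - ‖Fs A b 0 j p‖), sq_nonneg (‖Fs A b 0 i p‖),
      sq_nonneg (‖Fs A b 0 j p‖)]
  calc φ (p 0) * (Real.exp (-Q 0 p) * G 0 p) * (‖Fs A b 0 i p‖ * ‖Fs A b 0 j p‖) ≤
        φ (p 0) * (Real.exp (-Q 0 p) * G 0 p) * (‖Fs A b 0 i p‖ ^ 2 + ‖Fs A b 0 j p‖ ^ 2) :=
        mul_le_mul_of_nonneg_left h1 hw
    _ = _ := by ring

theorem Sys.grm_form (h : Sys A C v b) (hφ : Cutoff CG φ) (hQ : Wt A C Q) (hG : Dn G)
    (hG0 : ∀ p ∈ UU, 0 ≤ G 0 p) (y : Fin N → ℂ) :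
    ((II φ (fun i p => normSq (cmb A b y i p) * Real.exp (-Q i p) * G i p) : ℝ) : ℂ) =
      ∑ i, ∑ j, y i * conj (y j) * grm φ A b Q G i j := by
  have h0 : ((II φ (fun i p => normSq (cmb A b y i p) * Real.exp (-Q i p) * G i p) : ℝ) : ℂ) =
      ∫ p in UU, ((φ (p 0) * (normSq (cmb A b y 0 p) * Real.exp (-Q 0 p) * G 0 p) : ℝ) : ℂ) :=
    integral_ofReal.symm
  rw [h0]
  have h1 : ∀ i j, y i * conj (y j) * grm φ A b Q G i j = ∫ p in UU, (y i * conj (y j)) *
      (((φ (p 0) * (Real.exp (-Q 0 p) * G 0 p) : ℝ) : ℂ) *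
        (Fs A b 0 i p * conj (Fs A b 0 j p))) := by
    intro i j
    rw [integral_const_mul]
    rfl
  simp only [h1]
  have h2 : ∀ i, ∑ j, ∫ p in UU, (y i * conj (y j)) *
      (((φ (p 0) * (Real.exp (-Q 0 p) * G 0 p) : ℝ) : ℂ) *
        (Fs A b 0 i p * conj (Fs A b 0 j p))) = ∫ p in UU, ∑ j, (y i * conj (y j)) *
      (((φ (p 0) * (Real.exp (-Q 0 p) * G 0 p) : ℝ) : ℂ) *
        (Fs A b 0 i p * conj (Fs A b 0 j p))) := by
    intro i
    rw [integral_finsetSum]
    exact fun j _ => (h.grm_int hφ hQ hG hG0 i j).const_mul _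
  simp only [h2]
  rw [← integral_finsetSum]
  · refine setIntegral_congr_fun measurableSet_UU fun p _ => ?_
    show ((φ (p 0) * (normSq (cmb A b y 0 p) * Real.exp (-Q 0 p) * G 0 p) : ℝ) : ℂ) = _
    have e : ((normSq (cmb A b y 0 p) : ℝ) : ℂ) =
        ∑ i, ∑ j, (y i * conj (y j)) * (Fs A b 0 i p * conj (Fs A b 0 j p)) := by
      rw [normSq_coe]
      unfold cmb
      rw [map_sum, Finset.sum_mul_sum]
      refine Finset.sum_congr rfl fun i _ => Finset.sum_congr rfl fun j _ => ?_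
      rw [map_mul]
      ring
    have e2 : ((φ (p 0) * (normSq (cmb A b y 0 p) * Real.exp (-Q 0 p) * G 0 p) : ℝ) : ℂ) =
        ((φ (p 0) * (Real.exp (-Q 0 p) * G 0 p) : ℝ) : ℂ) * ((normSq (cmb A b y 0 p) : ℝ) : ℂ) := by
      rw [← Complex.ofReal_mul]
      congr 1
      ring
    rw [e2, e, Finset.mul_sum]
    refine Finset.sum_congr rfl fun i _ => ?_
    rw [Finset.mul_sum]
    refine Finset.sum_congr rfl fun j _ => ?_
    ring
  · intro i _
    exact integrable_finsetSum _ fun j _ => (h.grm_int hφ hQ hG hG0 i j).const_mul _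

theorem grm_herm (φ : ℂ → ℝ) (A : ℕ) (b : Fin N → ℕ → ℂ → ℂ) (Q G : Fin 2 → Cn 2 → ℝ) :
    (grm φ A b Q G).IsHermitian := by
  ext i j
  show conj (∫ p in UU, ((φ (p 0) * (Real.exp (-Q 0 p) * G 0 p) : ℝ) : ℂ) *
    (Fs A b 0 j p * conj (Fs A b 0 i p))) = ∫ p in UU,
      ((φ (p 0) * (Real.exp (-Q 0 p) * G 0 p) : ℝ) : ℂ) * (Fs A b 0 i p * conj (Fs A b 0 j p))
  rw [← integral_conj]
  refine setIntegral_congr_fun measurableSet_UU fun p _ => ?_
  simp only [map_mul, Complex.conj_ofReal, Complex.conj_conj]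
  ring

theorem Sys.grm_posDef (h : Sys A C v b) (hφ : Cutoff CG φ) (hQ : Wt A C Q) (hG : Dn G)
    (hG0 : ∀ i, ∀ p ∈ UU, 0 < G i p)
    (hli : ∀ y : Fin N → ℂ, (∀ p ∈ UU, cmb A b y 0 p = 0) → y = 0) :
    (grm φ A b Q G).PosDef := by
  rw [Matrix.posDef_iff_dotProduct_mulVec]
  refine ⟨grm_herm φ A b Q G, fun x hx => ?_⟩
  have h1 := h.grm_form hφ hQ hG (fun p hp => (hG0 0 p hp).le) (star x)
  have h2 : star x ⬝ᵥ (grm φ A b Q G *ᵥ x) = ((II φ (fun i p => normSq (cmb A b (star x) i p) *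
      Real.exp (-Q i p) * G i p) : ℝ) : ℂ) := by
    rw [h1]
    unfold dotProduct Matrix.mulVec dotProduct
    simp only [Finset.mul_sum]
    refine Finset.sum_congr rfl fun i _ => Finset.sum_congr rfl fun j _ => ?_
    simp only [Pi.star_apply, RCLike.star_def, Complex.conj_conj]
    ring
  rw [h2, Complex.zero_lt_real]
  have hD : Dn fun i p => normSq (cmb A b (star x) i p) * Real.exp (-Q i p) * G i p :=
    Dn.fn_mul (h.fn_cmb (star x) hQ) hG
  have hnn : ∀ i, ∀ p ∈ UU, 0 ≤ normSq (cmb A b (star x) i p) * Real.exp (-Q i p) * G i p :=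
    fun i p hp => mul_nonneg (mul_nonneg (Complex.normSq_nonneg _) (Real.exp_pos _).le)
      (hG0 i p hp).le
  refine lt_of_le_of_ne (II_nonneg hφ (hnn 0)) fun h0 => hx ?_
  have h3 : star x = 0 := by
    refine hli _ fun p hp => ?_
    have h4 := hD.eq_zero hφ hnn h0.symm 0 hp
    have h5 : normSq (cmb A b (star x) 0 p) = 0 := by
      rcases mul_eq_zero.1 h4 with h6 | h6
      · exact (mul_eq_zero.1 h6).resolve_right (Real.exp_pos _).ne'
      · exact absurd h6 (hG0 0 p hp).ne'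
    exact Complex.normSq_eq_zero.1 h5
  simpa using h3

/-- change of basis -/
noncomputable def tr (T : Matrix (Fin N) (Fin N) ℂ) (b : Fin N → ℕ → ℂ → ℂ) :
    Fin N → ℕ → ℂ → ℂ := fun i l => ∑ j, T i j • b j l

theorem Fs_tr (A : ℕ) (T : Matrix (Fin N) (Fin N) ℂ) (b : Fin N → ℕ → ℂ → ℂ) (i : Fin 2)
    (ι : Fin N) (p : Cn 2) : Fs A (tr T b) i ι p = ∑ j, T ι j * Fs A b i j p := by
  show sec A (tr T b ι) i p = ∑ j, T ι j * sec A (b j) i p
  unfold sec tr
  simp only [Finset.sum_apply, Pi.smul_apply, smul_eq_mul, Finset.sum_mul, Finset.mul_sum]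
  rw [Finset.sum_comm]
  refine Finset.sum_congr rfl fun j _ => Finset.sum_congr rfl fun l _ => ?_
  ring

theorem cmb_tr (A : ℕ) (T : Matrix (Fin N) (Fin N) ℂ) (b : Fin N → ℕ → ℂ → ℂ) (x : Fin N → ℂ)
    (i : Fin 2) (p : Cn 2) : cmb A (tr T b) x i p = cmb A b (fun j => ∑ ι, x ι * T ι j) i p := by
  unfold cmb
  simp only [Fs_tr, Finset.mul_sum, Finset.sum_mul]
  rw [Finset.sum_comm]
  refine Finset.sum_congr rfl fun j _ => Finset.sum_congr rfl fun l _ => ?_
  ring

theorem Sys.tr_on (h : Sys A C v b) (hφ : Cutoff CG φ) (hQ : Wt A C Q) (hG : Dn G)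
    (hG0 : ∀ p ∈ UU, 0 ≤ G 0 p) {T : Matrix (Fin N) (Fin N) ℂ}
    (hT : T * grm φ A b Q G * Tᴴ = 1) (x : Fin N → ℂ) :
    II φ (fun i p => normSq (cmb A (tr T b) x i p) * Real.exp (-Q i p) * G i p) =
      ∑ ι, normSq (x ι) := by
  have h1 := h.grm_form hφ hQ hG hG0 (fun j => ∑ ι, x ι * T ι j)
  have h2 : II φ (fun i p => normSq (cmb A (tr T b) x i p) * Real.exp (-Q i p) * G i p) =
      II φ (fun i p => normSq (cmb A b (fun j => ∑ ι, x ι * T ι j) i p) * Real.exp (-Q i p) *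
        G i p) := by
    apply II_congr
    intro p _
    rw [cmb_tr]
  rw [h2]
  apply Complex.ofReal_injective
  rw [h1]
  set H := grm φ A b Q G with hH
  have h3 : ∑ i, ∑ j, (∑ ι, x ι * T ι i) * conj (∑ ι, x ι * T ι j) * H i j =
      ∑ ι, ∑ κ, x ι * conj (x κ) * (T * H * Tᴴ) ι κ := by
    have e1 : ∀ ι κ, (T * H * Tᴴ) ι κ = ∑ i, ∑ j, T ι i * H i j * conj (T κ j) := by
      intro ι κ
      rw [Matrix.mul_apply]
      simp only [Matrix.mul_apply, Finset.sum_mul]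
      rw [Finset.sum_comm]
      rfl
    simp only [e1, map_sum, map_mul, Finset.mul_sum, Finset.sum_mul]
    -- reorder four sums
    have l1 : ∀ i : Fin N, ∑ j : Fin N, ∑ κ : Fin N, ∑ ι : Fin N,
        x ι * T ι i * (conj (x κ) * conj (T κ j)) * H i j =
        ∑ ι : Fin N, ∑ κ : Fin N, ∑ j : Fin N, x ι * T ι i * (conj (x κ) * conj (T κ j)) * H i j := by
      intro i
      rw [Finset.sum_congr rfl fun j _ => Finset.sum_comm, Finset.sum_comm]
      exact Finset.sum_congr rfl fun ι _ => Finset.sum_comm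
    simp only [l1]
    rw [Finset.sum_comm]
    refine Finset.sum_congr rfl fun ι _ => ?_
    rw [Finset.sum_comm]
    refine Finset.sum_congr rfl fun κ _ => Finset.sum_congr rfl fun i _ =>
      Finset.sum_congr rfl fun j _ => ?_
    ring
  rw [h3, hT]
  push_cast
  refine Finset.sum_congr rfl fun ι _ => ?_
  rw [Finset.sum_eq_single ι]
  · rw [Matrix.one_apply_eq, mul_one, normSq_coe]
  · intro κ _ hκ
    rw [Matrix.one_apply_ne hκ.symm, mul_zero]
  · intro hκ
    exact absurd (Finset.mem_univ ι) hκ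

end gram

/-! ### Construction -/

section cons

variable {A C : ℕ}

/-- The data: families of forms of the weights `C - A + l`, without common zeros. -/
structure Fam (A C : ℕ) (n : Fin (A + 1) → ℕ) (F : (l : Fin (A + 1)) → Fin (n l) → ℂ → ℂ) : Prop where
  mf : ∀ (l : Fin (A + 1)) r, IsMF (C - A + (l : ℕ)) (F l r)
  li : ∀ l, LinearIndependent ℂ (fun r => fun z : ℍ => F l r z)
  nz : ∀ l, ∀ z : ℂ, 0 < z.im → ∃ r, F l r z ≠ 0

theorem exists_adapted {φ : ℂ → ℝ} (hφ : Cutoff CG φ) (hA : 1 ≤ A) (hAC : A ≤ C)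
    {n : Fin (A + 1) → ℕ} {F : (l : Fin (A + 1)) → Fin (n l) → ℂ → ℂ} (hF : Fam A C n F)
    {Q G : Fin 2 → Cn 2 → ℝ} (hQ : Wt A C Q) (hG : Dn G) (hG0 : ∀ i, ∀ p ∈ UU, 0 < G i p) :
    ∃ (N : ℕ) (v : Fin N → ℕ) (f : Fin N → ℕ → ℂ → ℂ), Sys2 A C v f ∧
      (∀ x : Fin N → ℂ, II φ (fun i p => normSq (cmb A f x i p) * Real.exp (-Q i p) * G i p) =
        ∑ ι, normSq (x ι)) ∧
      N = ∑ l : Fin (A + 1), n l ∧ ∑ ι, v ι = ∑ l : Fin (A + 1), (l : ℕ) * n l := by
  classical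
  -- the index set
  let I := (l : Fin (A + 1)) × Fin (n l)
  set N := Fintype.card I with hN
  let e : Fin N ≃ I := (Fintype.equivFin I).symm
  let σ : Equiv.Perm (Fin N) := Tuple.sort fun i => A - ((e i).1 : ℕ)
  let ε : Fin N ≃ I := σ.trans e
  let L : Fin N → ℕ := fun i => ((ε i).1 : ℕ)
  have hLA : ∀ i, L i ≤ A := fun i => Nat.lt_succ_iff.1 (ε i).1.2
  have hLanti : ∀ i j, i ≤ j → L j ≤ L i := by
    intro i j hij
    have h1 := Tuple.monotone_sort (fun i => A - ((e i).1 : ℕ)) hij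
    have h2 : A - L i ≤ A - L j := h1
    have := hLA i
    have := hLA j
    omega
  let b : Fin N → ℕ → ℂ → ℂ := fun i l => if l = L i then F (ε i).1 (ε i).2 else 0
  have hbmf : ∀ i l, IsMF (C - A + l) (b i l) := by
    intro i l
    by_cases h : l = L i
    · show IsMF (C - A + l) (if l = L i then F (ε i).1 (ε i).2 else 0)
      rw [if_pos h, h]
      exact hF.mf _ _
    · show IsMF (C - A + l) (if l = L i then F (ε i).1 (ε i).2 else 0)
      rw [if_neg h]
      exact IsMF.zero _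
  have hsecb : ∀ i, IsSec A C (L i) (b i) := by
    intro i
    refine ⟨fun l _ => hbmf i l, fun l hl => ?_⟩
    show (if l = L i then F (ε i).1 (ε i).2 else 0) = 0
    rw [if_neg hl.ne]
  -- existence of non-vanishing members on every level
  have hnz : ∀ l ≤ A, ∀ z : ℂ, 0 < z.im → ∃ i, L i = l ∧ b i l z ≠ 0 := by
    intro l hl z hz
    obtain ⟨r, hr⟩ := hF.nz ⟨l, Nat.lt_succ_iff.2 hl⟩ z hz
    refine ⟨ε.symm ⟨⟨l, Nat.lt_succ_iff.2 hl⟩, r⟩, ?_, ?_⟩
    · show ((ε (ε.symm ⟨⟨l, Nat.lt_succ_iff.2 hl⟩, r⟩)).1 : ℕ) = l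
      rw [Equiv.apply_symm_apply]
    · have hL : l = L (ε.symm ⟨⟨l, Nat.lt_succ_iff.2 hl⟩, r⟩) := by
        show l = ((ε (ε.symm ⟨⟨l, Nat.lt_succ_iff.2 hl⟩, r⟩)).1 : ℕ)
        rw [Equiv.apply_symm_apply]
      show (if l = L (ε.symm ⟨⟨l, Nat.lt_succ_iff.2 hl⟩, r⟩) then
        F (ε (ε.symm ⟨⟨l, Nat.lt_succ_iff.2 hl⟩, r⟩)).1
          (ε (ε.symm ⟨⟨l, Nat.lt_succ_iff.2 hl⟩, r⟩)).2 else 0) z ≠ 0
      rw [if_pos hL, Equiv.apply_symm_apply]
      exact hr
  have hb2 : Sys2 A C L b := ⟨hA, hAC, hLA, hsecb, fun z hz => hnz 0 (Nat.zero_le _) z hz,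
    fun z hz => hnz A le_rfl z hz⟩
  have hbs := hb2.sys
  -- linear independence
  have hli : ∀ y : Fin N → ℂ, (∀ p ∈ UU, cmb A b y 0 p = 0) → y = 0 := by
    intro y hy
    have h1 : ∀ z : ℂ, 0 < z.im → ∀ l ≤ A, ∑ i, y i * b i l z = 0 := by
      intro z hz
      apply poly_zero
      intro u
      have h2 := hy (cz z u) hz
      unfold cmb at h2
      rw [← h2]
      have h3 : ∀ i, y i * Fs A b 0 i (cz z u) =
          ∑ l ∈ Finset.range (A + 1), y i * b i l z * u ^ l := by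
        intro i
        show y i * ∑ l ∈ Finset.range (A + 1), b i l z * ((1 : ℂ) ^ (A - l) * u ^ l) = _
        rw [Finset.mul_sum]
        refine Finset.sum_congr rfl fun l _ => ?_
        rw [one_pow]
        ring
      rw [Finset.sum_congr rfl fun i _ => h3 i, Finset.sum_comm]
      refine Finset.sum_congr rfl fun l _ => ?_
      rw [Finset.sum_mul]
    -- reindex
    have h2 : ∀ l : Fin (A + 1), ∀ z : ℂ, 0 < z.im →
        ∑ r : Fin (n l), y (ε.symm ⟨l, r⟩) * F l r z = 0 := by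
      intro l z hz
      have h3 := h1 z hz l (Nat.lt_succ_iff.1 l.2)
      rw [← ε.symm.sum_comp, Fintype.sum_sigma, Finset.sum_eq_single l] at h3
      · rw [← h3]
        refine Finset.sum_congr rfl fun r _ => ?_
        congr 1
        show _ = (if (l : ℕ) = L (ε.symm ⟨l, r⟩) then F (ε (ε.symm ⟨l, r⟩)).1
          (ε (ε.symm ⟨l, r⟩)).2 else 0) z
        have hL : (l : ℕ) = L (ε.symm ⟨l, r⟩) := by
          show (l : ℕ) = ((ε (ε.symm ⟨l, r⟩)).1 : ℕ)
          rw [Equiv.apply_symm_apply]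
        rw [if_pos hL, Equiv.apply_symm_apply]
      · intro l' _ hl'
        refine Finset.sum_eq_zero fun r _ => ?_
        have hL : ¬ (l : ℕ) = L (ε.symm ⟨l', r⟩) := by
          show ¬ (l : ℕ) = ((ε (ε.symm ⟨l', r⟩)).1 : ℕ)
          rw [Equiv.apply_symm_apply]
          intro h
          exact hl' (Fin.ext h.symm)
        show y (ε.symm ⟨l', r⟩) * (if (l : ℕ) = L (ε.symm ⟨l', r⟩) then
          F (ε (ε.symm ⟨l', r⟩)).1 (ε (ε.symm ⟨l', r⟩)).2 else 0) z = 0
        rw [if_neg hL]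
        simp
      · intro h
        exact absurd (Finset.mem_univ l) h
    funext i
    obtain ⟨⟨l, r⟩, rfl⟩ := ε.symm.surjective i
    have h3 := Fintype.linearIndependent_iff.1 (hF.li l) (fun r => y (ε.symm ⟨l, r⟩)) (by
      funext z
      simp only [Finset.sum_apply, Pi.smul_apply, smul_eq_mul, Pi.zero_apply]
      exact h2 l z z.im_pos) r
    exact h3
  -- orthonormalisation
  obtain ⟨T, hT1, hT2, hT3⟩ := chol (hbs.grm_posDef hφ hQ hG hG0 hli)
  have htr : ∀ i l z, tr T b i l z = ∑ j, T i j * b j l z := by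
    intro i l z
    unfold tr
    simp only [Finset.sum_apply, Pi.smul_apply, smul_eq_mul]
  have hsecf : ∀ i, IsSec A C (L i) (tr T b i) := by
    intro i
    refine ⟨fun l _ => IsMF.sum fun j _ => (hbmf j l).smul _, fun l hl => ?_⟩
    refine Finset.sum_eq_zero fun j _ => ?_
    rcases lt_or_ge i j with hij | hij
    · rw [hT1 i j hij, zero_smul]
    · have h1 := hLanti j i hij
      have h2 : b j l = 0 := by
        show (if l = L j then F (ε j).1 (ε j).2 else 0) = 0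
        rw [if_neg (by omega)]
      rw [h2, smul_zero]
  have hnzf : ∀ l ≤ A, ∀ z : ℂ, 0 < z.im → ∃ i, L i = l ∧ tr T b i l z ≠ 0 := by
    intro l hl z hz
    have hex := hnz l hl z hz
    let S : Finset (Fin N) := Finset.univ.filter fun i => L i = l ∧ b i l z ≠ 0
    have hS : S.Nonempty := by
      obtain ⟨i, hi⟩ := hex
      exact ⟨i, Finset.mem_filter.2 ⟨Finset.mem_univ _, hi⟩⟩
    set j := S.min' hS with hj
    have hjS := (Finset.mem_filter.1 (S.min'_mem hS)).2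
    refine ⟨j, hjS.1, ?_⟩
    rw [htr, Finset.sum_eq_single j]
    · exact mul_ne_zero (hT2 j) hjS.2
    · intro i _ hij
      rcases lt_or_gt_of_ne hij with h | h
      · have h1 : b i l z = 0 := by
          by_contra hne
          have hL : L i = l := by
            by_contra hL
            apply hne
            show (if l = L i then F (ε i).1 (ε i).2 else 0) z = 0
            rw [if_neg (Ne.symm hL)]
            rfl
          have h2 : i ∈ S := Finset.mem_filter.2 ⟨Finset.mem_univ _, hL, hne⟩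
          exact absurd (S.min'_le i h2) (not_le.2 h)
        rw [h1, mul_zero]
      · rw [hT1 j i h, zero_mul]
    · intro h
      exact absurd (Finset.mem_univ j) h
  refine ⟨N, L, tr T b, ⟨hA, hAC, hLA, hsecf, fun z hz => hnzf 0 (Nat.zero_le _) z hz,
    fun z hz => hnzf A le_rfl z hz⟩, ?_, ?_, ?_⟩
  · exact fun x => hbs.tr_on hφ hQ hG (fun p hp => (hG0 0 p hp).le) hT3 x
  · rw [hN, Fintype.card_sigma]
    exact Finset.sum_congr rfl fun l _ => Fintype.card_fin _
  · show ∑ ι, ((ε ι).1 : ℕ) = _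
    rw [ε.sum_comp (fun s : I => (s.1 : ℕ)), Fintype.sum_sigma]
    refine Finset.sum_congr rfl fun l _ => ?_
    simp [mul_comm]

end cons

end Pool.Agent.Y486
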