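import Pool.Agent.TH598.KG.Base
import Pool.Agent.TH598.KG.Stmt

/-!
# Base definitions: the ruled surface `Γ \ (ℍ × ℙ¹)`

A point of `ℍ × ℙ¹` is `(z, [x 0 : x 1])`; the group `Γ = CG` acts by
`(z, [x 0 : x 1]) ↦ (g z, [(c z + d) x 0 : x 1])`. The chart number `i` is `p ↦ (p 0, [ins i p])`.
-/

set_option autoImplicit false

open scoped Manifold ContDiff Topology ComplexConjugate MatrixGroups UpperHalfPlane Matrix
open MeasureTheory Set Filter

namespace Pool.Agent.Y486

open Pool.Agent.W549.CY (Cn dz dzbar HermitianMetric chernRicci chernScalar)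
open Pool.Agent.W711.KC (jj nn CG)
open Pool.Agent.TH598.KG (hf Cutoff)

/-- `2 × 2` complex matrices. -/
abbrev M2 : Type := Matrix (Fin 2) (Fin 2) ℂ

/-- The domain `ℍ × ℂ`. -/
def UU : Set (Cn 2) := {p | 0 < (p 0).im}

/-- Homogeneous coordinates in the chart number `i`. -/
noncomputable def ins (i : Fin 2) (p : Cn 2) : Cn 2 := ![![1, p 1], ![p 1, 1]] i

/-- The action on homogeneous coordinates, starting from the chart number `i`. -/
noncomputable def hom (g : SL(2, ℝ)) (i : Fin 2) (p : Cn 2) : Cn 2 :=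
  ![jj g (p 0) * ins i p 0, ins i p 1]

/-- The affine coordinate in the chart number `j` of the point with homogeneous coordinates `x`. -/
noncomputable def outc (j : Fin 2) (x : Cn 2) : ℂ := x (![1, 0] j) / x j

/-- The action of `g`, from the chart number `i` to the chart number `j`; defined where
`hom g i p j ≠ 0`. -/
noncomputable def FF (g : SL(2, ℝ)) (i j : Fin 2) (p : Cn 2) : Cn 2 :=
  ![nn g (p 0) / jj g (p 0), outc j (hom g i p)]

/-- The complex Hessian `(∂²P/∂z_j ∂z̄_k)`. -/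
noncomputable def LL (P : Cn 2 → ℝ) (p : Cn 2) : M2 :=
  Matrix.of fun j k => dz j (dzbar k fun q => ((P q : ℝ) : ℂ)) p

/-- The mixed discriminant, `DD a a = 2 det a`. -/
noncomputable def DD (a b : M2) : ℝ :=
  (a 0 0 * b 1 1 + a 1 1 * b 0 0 - a 0 1 * b 1 0 - a 1 0 * b 0 1).re

/-- The weights (logarithms of metrics) of type `(A, C)`, given in the two charts. Weights of type
`(0, 0)` are the smooth real functions on the quotient. -/
structure Wt (A C : ℝ) (P : Fin 2 → Cn 2 → ℝ) : Prop where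
  smooth : ∀ i, ContDiffOn ℝ ∞ (P i) UU
  compat : ∀ g ∈ CG, ∀ i j, ∀ p ∈ UU, hom g i p j ≠ 0 →
    P j (FF g i j p) = P i p - A * Real.log (Complex.normSq (hom g i p j)) +
      C * Real.log (Complex.normSq (jj g (p 0)))

/-- `N = y |x 0|² + |x 1|²` in the two charts. -/
noncomputable def Nn (i : Fin 2) (p : Cn 2) : ℝ :=
  (p 0).im * Complex.normSq (ins i p 0) + Complex.normSq (ins i p 1)

/-- The reference weight of type `(A, C)`. -/
noncomputable def Rw (A C : ℝ) (i : Fin 2) (p : Cn 2) : ℝ :=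
  A * Real.log (Nn i p) - C * Real.log (p 0).im

/-- The area of the quotient curve, divided by `4 π`. -/
noncomputable def WW (φ : ℂ → ℝ) : ℝ :=
  (1 / (4 * Real.pi)) * ∫ z in {z : ℂ | 0 < z.im}, φ z / z.im ^ 2

/-- Automorphic forms of weight `m` for the cocompact group `CG`. -/
structure IsMF (m : ℕ) (f : ℂ → ℂ) : Prop where
  hol : DifferentiableOn ℂ f {z : ℂ | 0 < z.im}
  auto : ∀ g ∈ CG, ∀ z : ℂ, 0 < z.im → f (nn g z / jj g z) = jj g z ^ m * f z

/-- The section with coefficients `f l`, `l = 0, …, A`, in the chart number `i`: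
`∑ f l (z) (x 0)^(A-l) (x 1)^l`. -/
noncomputable def sec (A : ℕ) (f : ℕ → ℂ → ℂ) (i : Fin 2) (p : Cn 2) : ℂ :=
  ∑ l ∈ Finset.range (A + 1), f l (p 0) * (ins i p 0 ^ (A - l) * ins i p 1 ^ l)

/-- `f` are the coefficients of a section of type `(A, C)`, vanishing to order at least `v` along
`x 1 = 0`. -/
structure IsSec (A C v : ℕ) (f : ℕ → ℂ → ℂ) : Prop where
  mf : ∀ l, l ≤ A → IsMF (C - A + l) (f l)
  vanish : ∀ l, l < v → f l = 0

end Pool.Agent.Y486
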