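import Pool.Agent.Y486.RefI

/-!
# The energy inequality
-/

set_option autoImplicit false

open scoped Manifold ContDiff Topology ComplexConjugate MatrixGroups UpperHalfPlane Matrix
open scoped ComplexOrder
open MeasureTheory Set Filter

namespace Pool.Agent.Y486

open Pool.Agent.W549.CY (Cn dz dzbar HermitianMetric chernRicci chernScalar)
open Pool.Agent.W711.KC (jj nn CG CG_far NN_pos jj_ne im_mob jj_mul nn_mul det_eq)
open Pool.Agent.TH598.KG (hf Cutoff d1)
open Pool.Agent.TH997.KG (mob VV mob_mem mob_mul mob_one mob_inv_left mob_inv_right mob_coe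
  hasDerivAt_mob isOpen_VV)
open Pool.Agent.TH997.CMan
open Complex (normSq)

variable {N : ℕ} {A C : ℕ} {v : Fin N → ℕ} {f : Fin N → ℕ → ℂ → ℂ}

/-- the system with base point conditions -/
structure Sys2 (A C : ℕ) (v : Fin N → ℕ) (f : Fin N → ℕ → ℂ → ℂ) : Prop where
  hA : 1 ≤ A
  hAC : A ≤ C
  vle : ∀ ι, v ι ≤ A
  isec : ∀ ι, IsSec A C (v ι) (f ι)
  b0 : ∀ z : ℂ, 0 < z.im → ∃ ι, v ι = 0 ∧ f ι 0 z ≠ 0
  bA : ∀ z : ℂ, 0 < z.im → ∃ ι, v ι = A ∧ f ι A z ≠ 0

theorem sec_top {A C : ℕ} {f : ℕ → ℂ → ℂ} (hf : IsSec A C A f) (i : Fin 2) (p : Cn 2) :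
    sec A f i p = f A (p 0) * ins i p 1 ^ A := by
  unfold sec
  rw [Finset.sum_eq_single A]
  · simp
  · intro l hl hne
    have hl' : l < A := lt_of_le_of_ne (Nat.lt_succ_iff.1 (Finset.mem_range.1 hl)) hne
    rw [hf.vanish l hl']
    simp
  · intro h
    exact absurd (Finset.mem_range.2 (Nat.lt_succ_self A)) h

theorem sec_bot {A : ℕ} (f : ℕ → ℂ → ℂ) (i : Fin 2) {p : Cn 2} (h : ins i p 1 = 0) :
    sec A f i p = f 0 (p 0) * ins i p 0 ^ A := by
  unfold sec
  rw [Finset.sum_eq_single 0]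
  · simp
  · intro l _ hne
    rw [h, zero_pow hne]
    simp
  · intro h
    exact absurd (Finset.mem_range.2 (Nat.succ_pos A)) h

theorem ins_zero_ne (i : Fin 2) {p : Cn 2} (h : ins i p 1 = 0) : ins i p 0 ≠ 0 := by
  intro h0
  apply ins_ne i p
  funext k
  fin_cases k
  · exact h0
  · exact h

theorem Sys2.sys (h : Sys2 A C v f) : Sys A C v f := by
  refine ⟨h.hAC, h.vle, h.isec, fun i p hp => ?_⟩
  by_cases h1 : ins i p 1 = 0
  · obtain ⟨ι, hv, hι⟩ := h.b0 (p 0) hp
    refine ⟨ι, ?_⟩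
    rw [sec_bot _ i h1]
    exact mul_ne_zero hι (pow_ne_zero _ (ins_zero_ne i h1))
  · obtain ⟨ι, hv, hι⟩ := h.bA (p 0) hp
    refine ⟨ι, ?_⟩
    have h2 := h.isec ι
    rw [hv] at h2
    rw [sec_top h2 i p]
    exact mul_ne_zero hι (pow_ne_zero _ h1)

theorem holc {f : ℂ → ℂ} (hf : DifferentiableOn ℂ f {z : ℂ | 0 < z.im}) :
    ContinuousOn (fun p : Cn 2 => f (p 0)) UU :=
  hf.continuousOn.comp (continuous_apply 0).continuousOn fun _ hp => hp

/-- the bound from above -/
noncomputable def hiF (A : ℕ) (f : Fin N → ℕ → ℂ → ℂ) (p : Cn 2) : ℝ :=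
  ∑ ι, ((A : ℝ) + 1) * ∑ l ∈ Finset.range (A + 1), normSq (f ι l (p 0)) * ((p 0).im)⁻¹ ^ (A - l)

theorem Sys2.hi (h : Sys2 A C v f) (t : ℝ) (ht : 0 ≤ t) (i : Fin 2) {p : Cn 2} (hp : p ∈ UU) :
    sq (wv v t) (Fs A f i) p ≤ hiF A f p * NT t i p ^ A := by
  have hy : 0 < (p 0).im := hp
  have hN := NT_pos t i hp
  unfold sq hiF
  rw [Finset.sum_mul]
  refine Finset.sum_le_sum fun ι _ => ?_
  have h1 : normSq (Fs A f i ι p) ≤ ((A : ℝ) + 1) * ∑ l ∈ Finset.range (A + 1),
      normSq (f ι l (p 0) * (ins i p 0 ^ (A - l) * ins i p 1 ^ l)) := by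
    have h2 : normSq (Fs A f i ι p) = ‖∑ l ∈ Finset.range (A + 1),
        f ι l (p 0) * (ins i p 0 ^ (A - l) * ins i p 1 ^ l)‖ ^ 2 := Complex.normSq_eq_norm_sq _
    rw [h2]
    have h4 : ‖∑ l ∈ Finset.range (A + 1),
        f ι l (p 0) * (ins i p 0 ^ (A - l) * ins i p 1 ^ l)‖ ≤
        ∑ l ∈ Finset.range (A + 1), ‖f ι l (p 0) * (ins i p 0 ^ (A - l) * ins i p 1 ^ l)‖ :=
      norm_sum_le _ _
    have h5 := sq_sum_le_card_mul_sum_sq (s := Finset.range (A + 1))
      (f := fun l => ‖f ι l (p 0) * (ins i p 0 ^ (A - l) * ins i p 1 ^ l)‖)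
    rw [Finset.card_range] at h5
    push_cast at h5
    simp only [Complex.normSq_eq_norm_sq]
    exact (pow_le_pow_left₀ (norm_nonneg _) h4 2).trans h5
  have h6 : ∀ l ∈ Finset.range (A + 1), wv v t ι *
      normSq (f ι l (p 0) * (ins i p 0 ^ (A - l) * ins i p 1 ^ l)) ≤
      normSq (f ι l (p 0)) * ((p 0).im)⁻¹ ^ (A - l) * NT t i p ^ A := by
    intro l hl
    have hl' : l ≤ A := Nat.lt_succ_iff.1 (Finset.mem_range.1 hl)
    by_cases hlv : l < v ι
    · have h7 : f ι l = 0 := (h.isec ι).vanish l hlv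
      rw [h7]
      simp
    · have hv : v ι ≤ l := not_lt.1 hlv
      have e1 : wv v t ι ≤ Real.exp t ^ l := by
        unfold wv
        rw [← Real.exp_nat_mul]
        apply Real.exp_le_exp.2
        have : (v ι : ℝ) ≤ l := by exact_mod_cast hv
        nlinarith
      have e2 : normSq (ins i p 0) ≤ ((p 0).im)⁻¹ * NT t i p := by
        unfold NT
        have hh : 0 ≤ Real.exp t * normSq (ins i p 1) :=
          mul_nonneg (Real.exp_pos t).le (Complex.normSq_nonneg _)
        rw [inv_mul_eq_div, le_div_iff₀ hy]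
        linarith
      have e3 : Real.exp t * normSq (ins i p 1) ≤ NT t i p := by
        unfold NT
        have hh : 0 ≤ (p 0).im * normSq (ins i p 0) := mul_nonneg hy.le (Complex.normSq_nonneg _)
        linarith
      have e4 : NT t i p ^ A = NT t i p ^ (A - l) * NT t i p ^ l := by
        rw [← pow_add]
        congr 1
        omega
      simp only [map_mul, map_pow]
      have n0 := Complex.normSq_nonneg (ins i p 0)
      have n1 := Complex.normSq_nonneg (ins i p 1)
      have nf := Complex.normSq_nonneg (f ι l (p 0))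
      calc wv v t ι * (normSq (f ι l (p 0)) * (normSq (ins i p 0) ^ (A - l) *
            normSq (ins i p 1) ^ l))
          = normSq (f ι l (p 0)) * (normSq (ins i p 0) ^ (A - l) *
            (wv v t ι * normSq (ins i p 1) ^ l)) := by ring
        _ ≤ normSq (f ι l (p 0)) * ((((p 0).im)⁻¹ * NT t i p) ^ (A - l) * NT t i p ^ l) := by
            refine mul_le_mul_of_nonneg_left ?_ nf
            refine mul_le_mul (pow_le_pow_left₀ n0 e2 _) ?_ (mul_nonneg (wv_pos v t ι).le
              (pow_nonneg n1 _)) (by positivity)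
            calc wv v t ι * normSq (ins i p 1) ^ l ≤ Real.exp t ^ l * normSq (ins i p 1) ^ l :=
                  mul_le_mul_of_nonneg_right e1 (pow_nonneg n1 _)
              _ = (Real.exp t * normSq (ins i p 1)) ^ l := (mul_pow _ _ _).symm
              _ ≤ NT t i p ^ l := pow_le_pow_left₀ (by positivity) e3 _
        _ = normSq (f ι l (p 0)) * ((p 0).im)⁻¹ ^ (A - l) * NT t i p ^ A := by
            rw [e4, mul_pow]
            ring
  calc wv v t ι * normSq (Fs A f i ι p) ≤ wv v t ι * (((A : ℝ) + 1) *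
        ∑ l ∈ Finset.range (A + 1), normSq (f ι l (p 0) * (ins i p 0 ^ (A - l) * ins i p 1 ^ l))) :=
        mul_le_mul_of_nonneg_left h1 (wv_pos v t ι).le
    _ = ((A : ℝ) + 1) * ∑ l ∈ Finset.range (A + 1), wv v t ι *
        normSq (f ι l (p 0) * (ins i p 0 ^ (A - l) * ins i p 1 ^ l)) := by
        rw [← Finset.mul_sum]
        ring
    _ ≤ ((A : ℝ) + 1) * ∑ l ∈ Finset.range (A + 1),
        normSq (f ι l (p 0)) * ((p 0).im)⁻¹ ^ (A - l) * NT t i p ^ A :=
        mul_le_mul_of_nonneg_left (Finset.sum_le_sum h6) (by positivity)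
    _ = _ := by
        rw [← Finset.sum_mul]
        ring

theorem Sys2.hi_cont (h : Sys2 A C v f) : ContinuousOn (hiF A f) UU := by
  unfold hiF
  refine continuousOn_finsetSum _ fun ι _ => continuousOn_const.mul ?_
  refine continuousOn_finsetSum _ fun l hl => ?_
  have hl' : l ≤ A := Nat.lt_succ_iff.1 (Finset.mem_range.1 hl)
  have c1 := holc ((h.isec ι).mf l hl').hol
  have c2 : ContinuousOn (fun p : Cn 2 => (p 0).im) UU :=
    (Complex.continuous_im.comp (continuous_apply 0)).continuousOn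
  exact (Complex.continuous_normSq.comp_continuousOn c1).mul
    ((c2.inv₀ fun p hp => (show 0 < (p 0).im from hp).ne').pow _)

/-- `∑_{v = A} |f A|²` -/
noncomputable def bF (A : ℕ) (v : Fin N → ℕ) (f : Fin N → ℕ → ℂ → ℂ) (p : Cn 2) : ℝ :=
  ∑ ι, if v ι = A then normSq (f ι A (p 0)) else 0

/-- `∑_{v = 0} |F|²` -/
noncomputable def aF (A : ℕ) (v : Fin N → ℕ) (f : Fin N → ℕ → ℂ → ℂ) (i : Fin 2) (p : Cn 2) : ℝ :=
  ∑ ι, if v ι = 0 then normSq (Fs A f i ι p) else 0

theorem Sys2.b_pos (h : Sys2 A C v f) {p : Cn 2} (hp : p ∈ UU) : 0 < bF A v f p := by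
  obtain ⟨ι, hv, hι⟩ := h.bA (p 0) hp
  unfold bF
  refine Finset.sum_pos' (fun ι _ => ?_) ⟨ι, Finset.mem_univ _, ?_⟩
  · split_ifs
    · exact Complex.normSq_nonneg _
    · exact le_rfl
  · rw [if_pos hv]
    exact Complex.normSq_pos.2 hι

theorem Sys2.a_nonneg (A : ℕ) (v : Fin N → ℕ) (f : Fin N → ℕ → ℂ → ℂ) (i : Fin 2) (p : Cn 2) :
    0 ≤ aF A v f i p := by
  unfold aF
  refine Finset.sum_nonneg fun ι _ => ?_
  split_ifs
  · exact Complex.normSq_nonneg _
  · exact le_rfl

theorem Sys2.lower (h : Sys2 A C v f) (t : ℝ) (i : Fin 2) (p : Cn 2) :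
    aF A v f i p + bF A v f p * (Real.exp t * normSq (ins i p 1)) ^ A ≤
      sq (wv v t) (Fs A f i) p := by
  unfold aF bF sq
  rw [Finset.sum_mul, ← Finset.sum_add_distrib]
  refine Finset.sum_le_sum fun ι _ => ?_
  have hA := h.hA
  by_cases h0 : v ι = 0
  · rw [if_pos h0, if_neg (by omega)]
    have : wv v t ι = 1 := by simp [wv, h0]
    rw [this]
    linarith
  · rw [if_neg h0]
    by_cases h1 : v ι = A
    · rw [if_pos h1]
      have h2 := h.isec ι
      rw [h1] at h2
      have e1 : Fs A f i ι p = f ι A (p 0) * ins i p 1 ^ A := sec_top h2 i p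
      have e2 : wv v t ι = Real.exp t ^ A := by
        unfold wv
        rw [h1, ← Real.exp_nat_mul, mul_comm]
      rw [e1, e2, map_mul, map_pow, mul_pow]
      apply le_of_eq
      ring
    · rw [if_neg h1]
      have := wv_pos v t ι
      have := Complex.normSq_nonneg (Fs A f i ι p)
      simp only [zero_add, zero_mul]
      positivity

/-- the lower bound at the point -/
noncomputable def loF (A : ℕ) (v : Fin N → ℕ) (f : Fin N → ℕ → ℂ → ℂ) (i : Fin 2) (p : Cn 2) : ℝ :=
  (2 ^ A)⁻¹ * min ((aF A v f i p + bF A v f p / 2 * normSq (ins i p 1) ^ A) /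
    (1 + ((p 0).im * normSq (ins i p 0)) ^ A)) (bF A v f p / 2)

theorem Sys2.lo_pos (h : Sys2 A C v f) (i : Fin 2) {p : Cn 2} (hp : p ∈ UU) :
    0 < loF A v f i p := by
  have hb := h.b_pos hp
  have hy : 0 < (p 0).im := hp
  have ha := Sys2.a_nonneg A v f i p
  have n0 := Complex.normSq_nonneg (ins i p 0)
  have n1 := Complex.normSq_nonneg (ins i p 1)
  have h1 : 0 < aF A v f i p + bF A v f p / 2 * normSq (ins i p 1) ^ A := by
    by_cases hx : ins i p 1 = 0
    · have : 0 < aF A v f i p := by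
        obtain ⟨ι, hv, hι⟩ := h.b0 (p 0) hp
        unfold aF
        refine Finset.sum_pos' (fun ι _ => ?_) ⟨ι, Finset.mem_univ _, ?_⟩
        · split_ifs
          · exact Complex.normSq_nonneg _
          · exact le_rfl
        · rw [if_pos hv]
          refine Complex.normSq_pos.2 ?_
          show sec A (f ι) i p ≠ 0
          rw [sec_bot _ i hx]
          exact mul_ne_zero hι (pow_ne_zero _ (ins_zero_ne i hx))
      positivity
    · have : 0 < normSq (ins i p 1) := Complex.normSq_pos.2 hx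
      positivity
  unfold loF
  refine mul_pos (by positivity) (lt_min (div_pos h1 ?_) (by positivity))
  positivity

theorem Sys2.lo (h : Sys2 A C v f) (t : ℝ) (ht : 0 ≤ t) (i : Fin 2) {p : Cn 2} (hp : p ∈ UU) :
    loF A v f i p * NT t i p ^ A ≤ sq (wv v t) (Fs A f i) p := by
  refine le_trans ?_ (h.lower t i p)
  have hb := h.b_pos hp
  have hy : 0 < (p 0).im := hp
  have ha := Sys2.a_nonneg A v f i p
  have n0 := Complex.normSq_nonneg (ins i p 0)
  have n1 := Complex.normSq_nonneg (ins i p 1)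
  have hlo := h.lo_pos i hp
  set a := aF A v f i p
  set b := bF A v f p
  set X := (Real.exp t * normSq (ins i p 1)) ^ A with hX
  set Y := ((p 0).im * normSq (ins i p 0)) ^ A with hY
  have hX0 : normSq (ins i p 1) ^ A ≤ X := by
    rw [hX]
    refine pow_le_pow_left₀ n1 ?_ _
    have : 1 ≤ Real.exp t := Real.one_le_exp ht
    nlinarith
  have hYn : 0 ≤ Y := by rw [hY]; positivity
  have hXn : 0 ≤ X := by rw [hX]; positivity
  have hNT : NT t i p ^ A ≤ 2 ^ A * (Y + X) := by
    have h1 : NT t i p ≤ 2 * max ((p 0).im * normSq (ins i p 0)) (Real.exp t * normSq (ins i p 1)) := by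
      unfold NT
      have := le_max_left ((p 0).im * normSq (ins i p 0)) (Real.exp t * normSq (ins i p 1))
      have := le_max_right ((p 0).im * normSq (ins i p 0)) (Real.exp t * normSq (ins i p 1))
      linarith
    have hN := (NT_pos t i hp).le
    refine (pow_le_pow_left₀ hN h1 A).trans ?_
    rw [mul_pow]
    refine mul_le_mul_of_nonneg_left ?_ (by positivity)
    rcases le_total ((p 0).im * normSq (ins i p 0)) (Real.exp t * normSq (ins i p 1)) with h2 | h2
    · rw [max_eq_right h2]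
      linarith
    · rw [max_eq_left h2]
      linarith
  set c1 := (a + b / 2 * normSq (ins i p 1) ^ A) / (1 + Y) with hc1
  have hm : loF A v f i p = (2 ^ A)⁻¹ * min c1 (b / 2) := rfl
  have hmin0 : 0 < min c1 (b / 2) := by
    rw [hm] at hlo
    exact (mul_pos_iff_of_pos_left (by positivity)).1 hlo
  have h3 : loF A v f i p * NT t i p ^ A ≤ min c1 (b / 2) * (Y + X) := by
    rw [hm]
    calc (2 ^ A)⁻¹ * min c1 (b / 2) * NT t i p ^ A ≤ (2 ^ A)⁻¹ * min c1 (b / 2) *
          (2 ^ A * (Y + X)) := mul_le_mul_of_nonneg_left hNT (by positivity)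
      _ = min c1 (b / 2) * (Y + X) := by
          field_simp
  refine h3.trans ?_
  have h4 : min c1 (b / 2) * Y ≤ a + b / 2 * normSq (ins i p 1) ^ A := by
    calc min c1 (b / 2) * Y ≤ c1 * Y := mul_le_mul_of_nonneg_right (min_le_left _ _) hYn
      _ ≤ c1 * (1 + Y) := mul_le_mul_of_nonneg_left (by linarith) (hmin0.le.trans (min_le_left _ _))
      _ = _ := by
          rw [hc1]
          field_simp
  have h5 : min c1 (b / 2) * X ≤ b / 2 * X := mul_le_mul_of_nonneg_right (min_le_right _ _) hXn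
  have h6 : b / 2 * normSq (ins i p 1) ^ A ≤ b / 2 * X := mul_le_mul_of_nonneg_left hX0 (by positivity)
  nlinarith

theorem Sys2.lo_cont (h : Sys2 A C v f) (i : Fin 2) : ContinuousOn (loF A v f i) UU := by
  have cb : ContinuousOn (bF A v f) UU := by
    unfold bF
    refine continuousOn_finsetSum _ fun ι _ => ?_
    split_ifs
    · exact Complex.continuous_normSq.comp_continuousOn (holc ((h.isec ι).mf A le_rfl).hol)
    · exact continuousOn_const
  have ca : ContinuousOn (aF A v f i) UU := by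
    unfold aF
    refine continuousOn_finsetSum _ fun ι _ => ?_
    split_ifs
    · exact Complex.continuous_normSq.comp_continuousOn (h.sys.cdC i ι (n := 0)).continuousOn
    · exact continuousOn_const
  have c0 : ContinuousOn (fun p : Cn 2 => (p 0).im) UU :=
    (Complex.continuous_im.comp (continuous_apply 0)).continuousOn
  have ci : ∀ k, ContinuousOn (fun p : Cn 2 => normSq (ins i p k)) UU := fun k =>
    (contDiff_normSq_ins i k (n := 0)).continuous.continuousOn
  unfold loF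
  refine continuousOn_const.mul (ContinuousOn.inf (ContinuousOn.div ?_ ?_ ?_) (cb.div_const _))
  · exact ca.add ((cb.div_const _).mul ((ci 1).pow _))
  · exact continuousOn_const.add ((c0.mul (ci 0)).pow _)
  · intro p hp
    have hy : 0 < (p 0).im := hp
    have n0 := Complex.normSq_nonneg (ins i p 0)
    positivity

/-- `u - v` is bounded for `t ≥ 0`. -/
theorem Sys2.bdd (h : Sys2 A C v f) : ∃ B : ℝ, 0 ≤ B ∧ ∀ t : ℝ, 0 ≤ t → ∀ i, ∀ p ∈ UU,
    |uu A v f t i p - vv A C t i p| ≤ B := by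
  obtain ⟨K, hK, hKU, hc⟩ := t_cover
  -- formula
  have hform : ∀ t i, ∀ p ∈ UU, uu A v f t i p - vv A C t i p =
      Real.log (sq (wv v t) (Fs A f i) p / NT t i p ^ A) + C * Real.log (p 0).im := by
    intro t i p hp
    have h1 := (h.sys.sq_pos (wv_pos v t) i hp).ne'
    have h2 := NT_pos t i hp
    unfold uu vv
    rw [Real.log_div h1 (pow_ne_zero _ h2.ne'), Real.log_pow]
    ring
  have hbd : ∀ t : ℝ, 0 ≤ t → ∀ i, ∀ p ∈ UU,
      Real.log (loF A v f i p) + C * Real.log (p 0).im ≤ uu A v f t i p - vv A C t i p ∧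
      uu A v f t i p - vv A C t i p ≤ Real.log (hiF A f p) + C * Real.log (p 0).im := by
    intro t ht i p hp
    have h1 := h.sys.sq_pos (wv_pos v t) i hp
    have h2 := pow_pos (NT_pos t i hp) A
    have h3 := h.lo t ht i hp
    have h4 := h.hi t ht i hp
    rw [hform t i p hp]
    constructor
    · have := Real.log_le_log (h.lo_pos i hp) ((le_div_iff₀ h2).2 h3)
      linarith
    · have := Real.log_le_log (div_pos h1 h2) ((div_le_iff₀ h2).2 h4)
      linarith
  have c0 : ContinuousOn (fun p : Cn 2 => (C : ℝ) * Real.log (p 0).im) UU :=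
    continuousOn_const.mul ((Complex.continuous_im.comp (continuous_apply 0)).continuousOn.log
      fun p hp => (show 0 < (p 0).im from hp).ne')
  have hhi0 : ∀ p ∈ UU, 0 < hiF A f p := by
    intro p hp
    have h1 := h.sys.sq_pos (wv_pos v 0) 0 hp
    have h2 := pow_pos (NT_pos 0 0 hp) A
    have h3 := h.hi 0 le_rfl 0 hp
    exact (mul_pos_iff_of_pos_right h2).1 (lt_of_lt_of_le h1 h3)
  have hK1 : ∀ i, ∃ B : ℝ, ∀ p ∈ K, |Real.log (loF A v f i p) + C * Real.log (p 0).im| ≤ B := by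
    intro i
    have c1 : ContinuousOn (fun p => Real.log (loF A v f i p) + C * Real.log (p 0).im) K :=
      (((h.lo_cont i).log fun p hp => (h.lo_pos i hp).ne').add c0).mono hKU
    exact hK.exists_bound_of_continuousOn c1
  have hK2 : ∃ B : ℝ, ∀ p ∈ K, |Real.log (hiF A f p) + C * Real.log (p 0).im| ≤ B := by
    have c1 : ContinuousOn (fun p => Real.log (hiF A f p) + C * Real.log (p 0).im) K :=
      ((h.hi_cont.log fun p hp => (hhi0 p hp).ne').add c0).mono hKU
    exact hK.exists_bound_of_continuousOn c1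
  obtain ⟨B0, hB0⟩ := hK1 0
  obtain ⟨B1, hB1⟩ := hK1 1
  obtain ⟨B2, hB2⟩ := hK2
  refine ⟨|B0| + |B1| + |B2|, by positivity, fun t ht i p hp => ?_⟩
  obtain ⟨g, hg, j, hj, hgK⟩ := hc i p hp
  have hinv := (((h.sys.wf.wt t).sub_same ((wf_vv A C).wt t))).invar hg i j hp hj
  rw [← hinv]
  have hq := hKU hgK
  obtain ⟨h1, h2⟩ := hbd t ht j _ hq
  have h3 := hB2 _ hgK
  have h4 : |Real.log (loF A v f j (FF g i j p)) + C * Real.log (FF g i j p 0).im| ≤
      |B0| + |B1| := by
    rcases (show j = 0 ∨ j = 1 by fin_cases j <;> simp) with rfl | rfl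
    · have := hB0 _ hgK
      have := le_abs_self B0
      have := abs_nonneg B1
      linarith
    · have := hB1 _ hgK
      have := le_abs_self B1
      have := abs_nonneg B0
      linarith
  have h5 := le_abs_self B2
  have h6 := abs_nonneg B2
  have h7 := abs_nonneg B0
  have h8 := abs_nonneg B1
  rw [abs_le] at h3 h4 ⊢
  constructor <;> linarith

/-! ### The energy -/

section energy

variable {φ : ℂ → ℝ}

theorem WF.sub_same {a c : ℝ} {P Q : ℝ → Fin 2 → Cn 2 → ℝ} (hP : WF a c P) (hQ : WF a c Q) :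
    WF 0 0 fun t i p => P t i p - Q t i p := by
  refine ⟨fun i => (hP.smooth i).sub (hQ.smooth i), fun t g hg i j p hp h => ?_⟩
  rw [hP.compat t g hg i j p hp h, hQ.compat t g hg i j p hp h]
  ring

/-- the bracket `∫ f P ∧ Q` -/
noncomputable def br (φ : ℂ → ℝ) (f P Q : Fin 2 → Cn 2 → ℝ) : ℝ :=
  II φ (fun i p => f i p * DD (LL (P i) p) (LL (Q i) p))

theorem br_comm (φ : ℂ → ℝ) (f P Q : Fin 2 → Cn 2 → ℝ) : br φ f P Q = br φ f Q P := by
  apply II_congr
  intro p _
  rw [DD_comm]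

theorem br_sub (hφ : Cutoff CG φ) {a c a' c' : ℝ} {f P P' Q : Fin 2 → Cn 2 → ℝ} (hf : Fn f)
    (hP : Wt a c P) (hP' : Wt a c P') (hQ : Wt a' c' Q) :
    br φ f (fun i p => P i p - P' i p) Q = br φ f P Q - br φ f P' Q := by
  unfold br
  rw [← II_sub hφ (Dn.fn_mul hf (dn_LL hP hQ)) (Dn.fn_mul hf (dn_LL hP' hQ))]
  apply II_congr
  intro p hp
  rw [LL_sub (hP.cd2 0 hp) (hP'.cd2 0 hp), DD_sub_left]
  ring

theorem br_subf (hφ : Cutoff CG φ) {a c a' c' : ℝ} {f g P Q : Fin 2 → Cn 2 → ℝ} (hf : Fn f)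
    (hg : Fn g) (hP : Wt a c P) (hQ : Wt a' c' Q) :
    br φ (fun i p => f i p - g i p) P Q = br φ f P Q - br φ g P Q := by
  unfold br
  rw [← II_sub hφ (Dn.fn_mul hf (dn_LL hP hQ)) (Dn.fn_mul hg (dn_LL hP hQ))]
  apply II_congr
  intro p hp
  ring

theorem deriv_energy (hφ : Cutoff CG φ) {a c : ℝ} {u w : ℝ → Fin 2 → Cn 2 → ℝ} (hu : WF a c u)
    (hw : WF a c w) (t : ℝ) :
    HasDerivAt (fun s => br φ (fun i p => u s i p - w s i p) (u s) (u s) +
      br φ (fun i p => u s i p - w s i p) (u s) (w s) +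
      br φ (fun i p => u s i p - w s i p) (w s) (w s))
      (3 * br φ (dt u t) (u t) (u t) - 3 * br φ (dt w t) (w t) (w t)) t := by
  have hd := hu.sub_same hw
  have d1 := deriv_fDD hφ hd hu hu t
  have d2 := deriv_fDD hφ hd hu hw t
  have d3 := deriv_fDD hφ hd hw hw t
  have key := (d1.add d2).add d3
  refine key.congr_deriv ?_
  have hut := hu.wt t
  have hwt := hw.wt t
  have hdu := hu.dt.wt t
  have hdw := hw.dt.wt t
  have hdt := hd.wt t
  -- derivative of the difference
  have e0 : ∀ {X Y : Fin 2 → Cn 2 → ℝ}, Wt a c X → Wt a c Y →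
      II φ (fun i p => dt (fun t i p => u t i p - w t i p) t i p * DD (LL (X i) p) (LL (Y i) p)) =
      br φ (dt u t) X Y - br φ (dt w t) X Y := by
    intro X Y hX hY
    rw [← br_subf hφ hdu.fn hdw.fn hX hY]
    apply II_congr
    intro p hp
    have : dt (fun t i p => u t i p - w t i p) t 0 p = dt u t 0 p - dt w t 0 p :=
      ((hu.hasDerivAt t 0 hp).sub (hw.hasDerivAt t 0 hp)).deriv
    rw [this]
  -- integration by parts
  have e1 : ∀ {f X : Fin 2 → Cn 2 → ℝ}, Wt 0 0 f → Wt a c X →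
      II φ (fun i p => (u t i p - w t i p) * DD (LL (f i) p) (LL (X i) p)) =
      br φ f (u t) X - br φ f (w t) X := by
    intro f X hf hX
    rw [← br_sub hφ hf.fn hut hwt hX]
    exact II_parts_symm hφ hdt hf hX
  have e2 : ∀ {f X : Fin 2 → Cn 2 → ℝ}, Wt 0 0 f → Wt a c X →
      II φ (fun i p => (u t i p - w t i p) * DD (LL (X i) p) (LL (f i) p)) =
      br φ f (u t) X - br φ f (w t) X := by
    intro f X hf hX
    rw [← e1 hf hX]
    apply II_congr
    intro p _
    rw [DD_comm]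
  rw [e0 hut hut, e0 hut hwt, e0 hwt hwt, e1 hdu hut, e2 hdu hut, e1 hdu hwt, e2 hdw hut,
    e1 hdw hwt, e2 hdw hwt, br_comm φ (dt u t) (w t) (u t), br_comm φ (dt w t) (w t) (u t)]
  ring

theorem Sys.deriv_I (h : Sys A C v f) (hφ : Cutoff CG φ) (t : ℝ) : ∃ d : ℝ, 0 ≤ d ∧
    HasDerivAt (fun s => br φ (dt (uu A v f) s) (uu A v f s) (uu A v f s)) d t := by
  have hu := h.wf
  have d1 := deriv_fDD hφ hu.dt hu hu t
  refine ⟨_, ?_, d1⟩
  have hut := hu.wt t
  have hdu := hu.dt.wt t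
  have hddu := hu.dt.dt.wt t
  have e1 : II φ (fun i p => dt (uu A v f) t i p *
      DD (LL (dt (uu A v f) t i) p) (LL (uu A v f t i) p)) =
      - II φ (fun i p => DD (DM (dt (uu A v f) t i) (dt (uu A v f) t i) p) (LL (uu A v f t i) p)) :=
    II_parts hφ hdu hdu hut
  have e2 : II φ (fun i p => dt (uu A v f) t i p *
      DD (LL (uu A v f t i) p) (LL (dt (uu A v f) t i) p)) =
      - II φ (fun i p => DD (DM (dt (uu A v f) t i) (dt (uu A v f) t i) p) (LL (uu A v f t i) p)) := by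
    rw [← e1]
    apply II_congr
    intro p _
    rw [DD_comm]
  rw [e1, e2]
  have e3 := II_mono hφ ((dn_DM hdu hdu hut).const_mul 2) (Dn.fn_mul hddu.fn (dn_LL hut hut))
    (fun p hp => h.ineq t 0 hp)
  rw [II_const_mul φ (fun i p => DD (DM (dt (uu A v f) t i) (dt (uu A v f) t i) p)
    (LL (uu A v f t i) p))] at e3
  linarith

theorem P2_uu (h : Sys A C v f) (t : ℝ) (i : Fin 2) {p : Cn 2} (hp : p ∈ UU) :
    P2 (LL (uu A v f t i) p) :=
  P2.of_psd (LL_log_psd (fun ι => (wv_pos v t ι).le) (fun ι => h.cdAt i ι hp)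
    (h.sq_pos (wv_pos v t) i hp))

theorem P2_vv {a c : ℝ} (ha : 0 ≤ a) (hac : a ≤ c) (t : ℝ) {p : Cn 2} (hp : p ∈ UU) :
    P2 (LL (vv a c t 0) p) := by
  have hy : 0 < (p 0).im := hp
  have hS := St_pos (Real.exp_pos t).le hp
  have hyS : (p 0).im ≤ St (Real.exp t) p := by
    unfold St
    have := Complex.normSq_nonneg (p 1)
    have := (Real.exp_pos t).le
    nlinarith
  refine ⟨LL_herm (((wf_vv a c).wt t).cd2 0 hp), ?_, ?_, ?_⟩
  · have e : LL (vv a c t 0) p 0 0 =
        ((-(a / (4 * St (Real.exp t) p ^ 2)) + c / (4 * (p 0).im ^ 2) : ℝ) : ℂ) := by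
      rw [LL_vv' a c t hp]
      push_cast
      rfl
    rw [e, Complex.ofReal_re]
    have h1 : a / (4 * St (Real.exp t) p ^ 2) ≤ c / (4 * (p 0).im ^ 2) :=
      div_le_div₀ (ha.trans hac) hac (by positivity)
        (mul_le_mul_of_nonneg_left (pow_le_pow_left₀ hy.le hyS 2) (by norm_num))
    linarith
  · have e : LL (vv a c t 0) p 1 1 =
        ((a * (Real.exp t * (p 0).im / St (Real.exp t) p ^ 2) : ℝ) : ℂ) := by
      rw [LL_vv' a c t hp]
      push_cast
      rfl
    rw [e, Complex.ofReal_re]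
    positivity
  · rw [det_vv a c t hp]
    have h1 : a ^ 2 / (4 * St (Real.exp t) p ^ 3) ≤
        a * c / (4 * (p 0).im * St (Real.exp t) p ^ 2) := by
      rw [div_le_div_iff₀ (by positivity) (by positivity)]
      have h2 : a ^ 2 * (p 0).im ≤ a * c * St (Real.exp t) p := by
        calc a ^ 2 * (p 0).im = a * a * (p 0).im := by ring
          _ ≤ a * c * St (Real.exp t) p :=
            mul_le_mul (mul_le_mul_of_nonneg_left hac ha) hyS hy.le
              (mul_nonneg ha (ha.trans hac))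
      calc a ^ 2 * (4 * (p 0).im * St (Real.exp t) p ^ 2) =
            (a ^ 2 * (p 0).im) * (4 * St (Real.exp t) p ^ 2) := by ring
        _ ≤ (a * c * St (Real.exp t) p) * (4 * St (Real.exp t) p ^ 2) :=
            mul_le_mul_of_nonneg_right h2 (by positivity)
        _ = _ := by ring
    have := Real.exp_pos t
    refine mul_nonneg this.le ?_
    linarith

theorem br_bound (hφ : Cutoff CG φ) {a c a' c' B : ℝ} {f P Q : Fin 2 → Cn 2 → ℝ} (hf : Fn f)
    (hP : Wt a c P) (hQ : Wt a' c' Q) (hB : ∀ p ∈ UU, |f 0 p| ≤ B)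
    (hpos : ∀ p ∈ UU, 0 ≤ DD (LL (P 0) p) (LL (Q 0) p)) :
    |br φ f P Q| ≤ B * (Real.pi ^ 2 * WW φ * (a * c' + a' * c - a * a')) := by
  rw [← II_inter hφ hP hQ, ← II_const_mul]
  have hD := dn_LL hP hQ
  rw [abs_le]
  constructor
  · rw [neg_le]
    have h1 : -br φ f P Q = II φ (fun i p => (-1) * (f i p * DD (LL (P i) p) (LL (Q i) p))) := by
      rw [II_const_mul]
      unfold br
      ring
    rw [h1]
    refine II_mono hφ ((Dn.fn_mul hf hD).const_mul _) (hD.const_mul _) fun p hp => ?_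
    have h2 := (neg_le_abs (f 0 p)).trans (hB p hp)
    have h3 := mul_le_mul_of_nonneg_right h2 (hpos p hp)
    linarith
  · refine II_mono hφ (Dn.fn_mul hf hD) (hD.const_mul _) fun p hp => ?_
    exact mul_le_mul_of_nonneg_right ((le_abs_self _).trans (hB p hp)) (hpos p hp)

theorem Sys2.main (h : Sys2 A C v f) (hφ : Cutoff CG φ) :
    br φ (dt (uu A v f) 0) (uu A v f 0) (uu A v f 0) ≤
      2 * (Real.pi ^ 2 * WW φ * ((A : ℝ) ^ 2 * C / 2 - (A : ℝ) ^ 3 / 6)) := by
  set κ : ℝ := 2 * (Real.pi ^ 2 * WW φ * ((A : ℝ) ^ 2 * C / 2 - (A : ℝ) ^ 3 / 6)) with hκ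
  obtain ⟨B, hB0, hB⟩ := h.bdd
  have hs := h.sys
  have hu := hs.wf
  have hw := wf_vv (A : ℝ) (C : ℝ)
  have hAC : (A : ℝ) ≤ C := by exact_mod_cast h.hAC
  have hA0 : (0 : ℝ) ≤ A := Nat.cast_nonneg _
  set I : ℝ → ℝ := fun s => br φ (dt (uu A v f) s) (uu A v f s) (uu A v f s) with hI
  set E : ℝ → ℝ := fun s => br φ (fun i p => uu A v f s i p - vv A C s i p) (uu A v f s) (uu A v f s) +
      br φ (fun i p => uu A v f s i p - vv A C s i p) (uu A v f s) (vv A C s) +
      br φ (fun i p => uu A v f s i p - vv A C s i p) (vv A C s) (vv A C s) with hE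
  have hIv : ∀ t, br φ (dt (vv A C) t) (vv A C t) (vv A C t) = κ := by
    intro t
    have h1 := II_vdet_vv hφ (A : ℝ) (C : ℝ) t
    have h2 : br φ (dt (vv A C) t) (vv A C t) (vv A C t) =
        II φ (fun i p => 2 * (dt (vv A C) t i p * (LL (vv A C t i) p).det.re)) := by
      apply II_congr
      intro p _
      rw [DD_self]
      ring
    rw [h2, II_const_mul φ (fun i p => dt (vv A C) t i p * (LL (vv A C t i) p).det.re), h1]
  have hEd : ∀ t, HasDerivAt E (3 * I t - 3 * κ) t := by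
    intro t
    have := deriv_energy hφ hu hw t
    rw [hIv t] at this
    exact this
  have hImono : Monotone I := by
    refine monotone_of_deriv_nonneg (fun t => ?_) (fun t => ?_)
    · obtain ⟨d, _, hd⟩ := hs.deriv_I hφ t
      exact hd.differentiableAt
    · obtain ⟨d, hd0, hd⟩ := hs.deriv_I hφ t
      rw [hd.deriv]
      exact hd0
  -- the bound of the energy
  have hEb : ∃ M : ℝ, ∀ t, 0 ≤ t → |E t| ≤ M := by
    refine ⟨B * (Real.pi ^ 2 * WW φ * (A * C + A * C - A * A)) +
      B * (Real.pi ^ 2 * WW φ * (A * C + A * C - A * A)) +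
      B * (Real.pi ^ 2 * WW φ * (A * C + A * C - A * A)), fun t ht => ?_⟩
    have hd := (hu.sub_same hw).wt t
    have b := fun p (hp : p ∈ UU) => hB t ht 0 p hp
    have b1 := br_bound hφ hd.fn (hu.wt t) (hu.wt t) b
      (fun p hp => (P2_uu hs t 0 hp).DD_nonneg (P2_uu hs t 0 hp))
    have b2 := br_bound hφ hd.fn (hu.wt t) (hw.wt t) b
      (fun p hp => (P2_uu hs t 0 hp).DD_nonneg (P2_vv hA0 hAC t hp))
    have b3 := br_bound hφ hd.fn (hw.wt t) (hw.wt t) b
      (fun p hp => (P2_vv hA0 hAC t hp).DD_nonneg (P2_vv hA0 hAC t hp))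
    rw [hE]
    refine (abs_add_le _ _).trans (add_le_add ((abs_add_le _ _).trans (add_le_add b1 b2)) b3)
  obtain ⟨M, hM⟩ := hEb
  by_contra hcon
  have hcon' : κ < I 0 := not_le.1 hcon
  set δ : ℝ := 3 * (I 0 - κ) with hδ
  have hδ0 : 0 < δ := by rw [hδ]; linarith
  have hmono : MonotoneOn (fun t => E t - δ * t) (Ici 0) := by
    have hdd : ∀ t, HasDerivAt (fun t => E t - δ * t) (3 * I t - 3 * κ - δ) t := by
      intro t
      have := (hEd t).sub ((hasDerivAt_id t).const_mul δ)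
      refine this.congr_deriv ?_
      ring
    refine monotoneOn_of_deriv_nonneg (convex_Ici 0) ?_ ?_ ?_
    · exact fun t _ => (hdd t).continuousAt.continuousWithinAt
    · exact fun t _ => (hdd t).differentiableAt.differentiableWithinAt
    · intro t ht
      rw [interior_Ici] at ht
      rw [(hdd t).deriv]
      have := hImono (le_of_lt ht)
      rw [hδ]
      linarith
  have hM0 : 0 ≤ M := (abs_nonneg _).trans (hM 0 le_rfl)
  set T : ℝ := (2 * M + 1) / δ with hT
  have hT0 : 0 ≤ T := by rw [hT]; positivity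
  have h1 := hmono (Set.mem_Ici.2 (le_refl (0 : ℝ))) (Set.mem_Ici.2 hT0) hT0
  simp only [mul_zero, sub_zero] at h1
  have h2 : δ * T = 2 * M + 1 := by
    rw [hT]
    field_simp
  have h3 := abs_le.1 (hM 0 le_rfl)
  have h4 := abs_le.1 (hM T hT0)
  linarith

end energy

theorem t_E : St_E := by
  intro φ hφ A C hA hAC N v f hv hf h0 hA'
  have h : Sys2 A C v f := ⟨hA, hAC, hv, hf, h0, hA'⟩
  have hmain := h.main hφ
  have hs := h.sys
  have hw0 : wv v 0 = fun _ => 1 := by
    funext ι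
    simp [wv]
  have e1 : br φ (dt (uu A v f) 0) (uu A v f 0) (uu A v f 0) =
      2 * ∫ p in UU, φ (p 0) * ((∑ ι, v ι * Complex.normSq (sec A (f ι) 0 p)) /
        (∑ ι, Complex.normSq (sec A (f ι) 0 p)) *
        (LL (fun q => Real.log (∑ ι, Complex.normSq (sec A (f ι) 0 q))) p).det.re) := by
    rw [← integral_const_mul]
    unfold br II
    refine setIntegral_congr_fun measurableSet_UU fun p hp => ?_
    have e2 : sq (wv v 0) (Fs A f 0) = fun q => ∑ ι, Complex.normSq (sec A (f ι) 0 q) := by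
      funext q
      unfold sq
      rw [hw0]
      simp only [one_mul]
      rfl
    have e3 : sq (fun ι => v ι * wv v 0 ι) (Fs A f 0) p =
        ∑ ι, v ι * Complex.normSq (sec A (f ι) 0 p) := by
      unfold sq
      rw [hw0]
      simp only [mul_one]
      rfl
    have e4 : uu A v f 0 0 = fun q => Real.log (∑ ι, Complex.normSq (sec A (f ι) 0 q)) := by
      funext q
      unfold uu
      rw [e2]
    show φ (p 0) * (dt (uu A v f) 0 0 p * DD (LL (uu A v f 0 0) p) (LL (uu A v f 0 0) p)) = _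
    rw [hs.dt_uu 0 0 hp, DD_self]
    unfold u1
    rw [e3, e2, e4]
    ring
  rw [e1] at hmain
  linarith

end Pool.Agent.Y486
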