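import Pool.Agent.Y486.SqSum

/-!
# Pointwise algebra: the two-dimensional inequality
-/

set_option autoImplicit false

open scoped Manifold ContDiff Topology ComplexConjugate MatrixGroups UpperHalfPlane Matrix
open scoped ComplexOrder
open MeasureTheory Set Filter

namespace Pool.Agent.Y486

open Pool.Agent.W549.CY (Cn dz dzbar HermitianMetric chernRicci chernScalar)
open Pool.Agent.TH598.KG (hf)
open Complex (normSq)

theorem hf_two (A : M2) (v : Cn 2) : hf A v =
    A 0 0 * v 0 * conj (v 0) + A 0 1 * v 0 * conj (v 1) +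
    (A 1 0 * v 1 * conj (v 0) + A 1 1 * v 1 * conj (v 1)) := by
  unfold hf
  simp only [Fin.sum_univ_two]

theorem psd_of_hf {A : M2} (h1 : A.IsHermitian) (h2 : ∀ v : Cn 2, 0 ≤ (hf A v).re) :
    A.PosSemidef := by
  have hb : ∀ v : Cn 2, star v ⬝ᵥ (A *ᵥ v) = hf A (star v) := by
    intro v
    unfold hf dotProduct Matrix.mulVec dotProduct
    simp only [Finset.mul_sum]
    refine Finset.sum_congr rfl fun j _ => Finset.sum_congr rfl fun k _ => ?_
    simp only [Pi.star_apply, RCLike.star_def, Complex.conj_conj]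
    ring
  rw [Matrix.posSemidef_iff_dotProduct_mulVec]
  refine ⟨h1, fun v => ?_⟩
  rw [hb, Complex.nonneg_iff]
  refine ⟨h2 _, ?_⟩
  have h4 : conj (hf A (star v)) = hf A (star v) := by
    unfold hf
    simp only [map_sum, map_mul, Complex.conj_conj]
    rw [Finset.sum_comm]
    refine Finset.sum_congr rfl fun j _ => Finset.sum_congr rfl fun k _ => ?_
    have := h1.apply j k
    rw [RCLike.star_def] at this
    rw [this]
    ring
  exact (Complex.conj_eq_iff_im.1 h4).symm

theorem hf_of_psd {A : M2} (h : A.PosSemidef) (v : Cn 2) : 0 ≤ (hf A v).re := by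
  have hb : star (star v) ⬝ᵥ (A *ᵥ (star v)) = hf A v := by
    unfold hf dotProduct Matrix.mulVec dotProduct
    simp only [Finset.mul_sum]
    refine Finset.sum_congr rfl fun j _ => Finset.sum_congr rfl fun k _ => ?_
    simp only [Pi.star_apply, RCLike.star_def, Complex.conj_conj]
    ring
  have h1 := (Matrix.posSemidef_iff_dotProduct_mulVec.1 h).2 (star v)
  rw [hb] at h1
  exact (Complex.nonneg_iff.1 h1).1

/-- the matrix `b b*` -/
noncomputable def bb (b : Cn 2) : M2 := Matrix.of fun j k => b j * conj (b k)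

theorem bb_herm (b : Cn 2) : (bb b).IsHermitian := by
  ext j k
  show conj (b k * conj (b j)) = b j * conj (b k)
  rw [map_mul, Complex.conj_conj]
  ring

theorem hf_bb (b v : Cn 2) : hf (bb b) v = (normSq (b 0 * v 0 + b 1 * v 1) : ℂ) := by
  rw [hf_two, normSq_coe]
  simp only [bb, Matrix.of_apply, map_add, map_mul]
  ring

theorem herm_smul {A : M2} (h : A.IsHermitian) (r : ℝ) : ((r : ℂ) • A).IsHermitian := by
  ext j k
  show conj ((r : ℂ) * A k j) = (r : ℂ) * A j k
  rw [map_mul, Complex.conj_ofReal]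
  congr 1
  exact h.apply j k

theorem hf_smul' (r : ℝ) (A : M2) (v : Cn 2) : (hf ((r : ℂ) • A) v).re = r * (hf A v).re := by
  rw [← Complex.re_ofReal_mul]
  congr 1
  rw [hf_two, hf_two]
  simp only [Matrix.smul_apply, smul_eq_mul]
  ring

theorem hf_add' (A B : M2) (v : Cn 2) : (hf (A + B) v).re = (hf A v).re + (hf B v).re := by
  rw [← Complex.add_re]
  congr 1
  rw [hf_two, hf_two, hf_two]
  simp only [Matrix.add_apply]
  ring

theorem hf_sub' (A B : M2) (v : Cn 2) : (hf (A - B) v).re = (hf A v).re - (hf B v).re := by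
  rw [← Complex.sub_re]
  congr 1
  rw [hf_two, hf_two, hf_two]
  simp only [Matrix.sub_apply]
  ring

theorem det_sub_re (A B : M2) : (A - B).det.re = A.det.re - DD A B + B.det.re := by
  unfold DD
  rw [← Complex.sub_re, ← Complex.add_re]
  congr 1
  rw [Matrix.det_fin_two, Matrix.det_fin_two, Matrix.det_fin_two]
  simp only [Matrix.sub_apply]
  ring

theorem det_smul_re (r : ℝ) (A : M2) : ((r : ℂ) • A).det.re = r ^ 2 * A.det.re := by
  rw [Matrix.det_smul, Fintype.card_fin, ← Complex.ofReal_pow, Complex.re_ofReal_mul]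

theorem det_bb (b : Cn 2) : (bb b).det = 0 := by
  rw [Matrix.det_fin_two]
  simp only [bb, Matrix.of_apply]
  ring

/-- The pointwise inequality. -/
theorem pt_main {g L : M2} {b : Cn 2} {B β k : ℝ} (hg : g.PosDef) (hL : L.PosSemidef)
    (hB : 0 < B) (hk : 0 < k)
    (hform : ∀ (α : ℂ) (v : Cn 2), B * normSq α + 2 * (conj α * (b 0 * v 0 + b 1 * v 1)).re +
      (B * (hf L v).re + normSq (b 0 * v 0 + b 1 * v 1) / B) ≤ β * (normSq α + k * (hf g v).re)) :
    B ≤ β ∧
    0 ≤ 3 * (β - B) * g.det.re -
      DD ((B : ℂ) • (L - (k : ℂ) • g) + ((B⁻¹ : ℝ) : ℂ) • bb b) g / k ∧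
    g.det.re - L.det.re / k ^ 2 ≤ (3 * (β - B) * g.det.re -
      DD ((B : ℂ) • (L - (k : ℂ) • g) + ((B⁻¹ : ℝ) : ℂ) • bb b) g / k) / β := by
  have hD : 0 < g.det.re := (Complex.pos_iff.1 hg.det_pos).1
  have hgp : g.PosSemidef := hg.posSemidef
  have hB1 : B ≤ β := by
    have h := hform 1 0
    have e1 : hf L 0 = 0 := by simp [hf]
    have e2 : hf g 0 = 0 := by simp [hf]
    simp only [e1, e2, Pi.zero_apply, mul_zero, add_zero, Complex.zero_re, map_zero, zero_div,
      map_one, mul_one] at h
    exact h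
  have hβ : 0 < β := lt_of_lt_of_le hB hB1
  set D := g.det.re with hDdef
  set X := DD g L with hX
  set Q := DD g (bb b) with hQ
  -- the estimate of `b`
  have hb : ∀ v : Cn 2, normSq (b 0 * v 0 + b 1 * v 1) ≤ k * B * (β - B) * (hf g v).re := by
    intro v
    set x := b 0 * v 0 + b 1 * v 1 with hx
    set G := (hf g v).re with hG
    have hG0 : 0 ≤ G := hf_of_psd hgp v
    have hLv : 0 ≤ (hf L v).re := hf_of_psd hL v
    have hn := Complex.normSq_nonneg x
    rcases hB1.lt_or_eq with hlt | heq
    · have hd : 0 < β - B := sub_pos.2 hlt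
      have h := hform (-(x / ((β - B : ℝ) : ℂ))) v
      rw [← hx, ← hG] at h
      -- optimal choice
      have h' := hform (x / ((β - B : ℝ) : ℂ)) v
      rw [← hx, ← hG] at h'
      have e1 : normSq (x / ((β - B : ℝ) : ℂ)) = normSq x / (β - B) ^ 2 := by
        rw [Complex.normSq_div, Complex.normSq_ofReal]
        ring
      have e2 : (conj (x / ((β - B : ℝ) : ℂ)) * x).re = normSq x / (β - B) := by
        rw [map_div₀, Complex.conj_ofReal, div_mul_eq_mul_div, mul_comm, Complex.mul_conj,
          ← Complex.ofReal_div, Complex.ofReal_re]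
      rw [e1, e2] at h'
      have h1 : normSq x / B ≤ β * (k * G) - normSq x / (β - B) := by
        have h2 : B * (normSq x / (β - B) ^ 2) + 2 * (normSq x / (β - B)) + normSq x / B ≤
            β * (normSq x / (β - B) ^ 2 + k * G) := by
          have := mul_nonneg hB.le hLv
          linarith
        have h3 : (β - B) * (normSq x / (β - B) ^ 2) = normSq x / (β - B) := by
          field_simp
        nlinarith
      have h4 : normSq x * β / (B * (β - B)) ≤ β * (k * G) := by
        have h5 : normSq x * β / (B * (β - B)) = normSq x / B + normSq x / (β - B) := by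
          field_simp
          ring
        rw [h5]
        linarith
      rw [div_le_iff₀ (mul_pos hB hd)] at h4
      have h6 : normSq x * β ≤ (k * B * (β - B) * G) * β := by
        calc normSq x * β ≤ β * (k * G) * (B * (β - B)) := h4
          _ = _ := by ring
      exact le_of_mul_le_mul_right h6 hβ
    · -- `β = B`
      rw [← heq, sub_self, mul_zero, zero_mul]
      by_contra hcon
      have hpos : 0 < normSq x := not_le.1 hcon
      set t : ℝ := (β * k * G + 1) / (2 * normSq x) with ht
      have h := hform ((t : ℂ) * x) v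
      rw [← hx, ← hG] at h
      have e2 : (conj ((t : ℂ) * x) * x).re = t * normSq x := by
        rw [map_mul, Complex.conj_ofReal, mul_assoc, mul_comm (conj x), Complex.mul_conj,
          ← Complex.ofReal_mul, Complex.ofReal_re]
      rw [e2, heq] at h
      have h3 : 2 * (t * normSq x) = β * k * G + 1 := by
        rw [ht]
        field_simp
      have h4 := mul_nonneg hβ.le hLv
      have h5 : 0 ≤ normSq x / β := by positivity
      nlinarith
  -- `DD g (b b*) ≤ k B (β - B) D`
  have hQ1 : Q ≤ k * B * (β - B) * D := by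
    have hκ : 0 ≤ k * B * (β - B) := by
      have : 0 ≤ β - B := sub_nonneg.2 hB1
      positivity
    have hpsd : (((k * B * (β - B) : ℝ) : ℂ) • g - bb b).PosSemidef := by
      refine psd_of_hf ((herm_smul hg.isHermitian _).sub (bb_herm b)) fun v => ?_
      rw [hf_sub', hf_smul', hf_bb, Complex.ofReal_re]
      linarith [hb v]
    have h1 := det_re_nonneg hpsd
    rw [det_sub_re, det_smul_re, DD_smul_left, det_bb, Complex.zero_re, add_zero, ← hQ, ← hDdef] at h1
    rcases hκ.lt_or_eq with hlt | heq
    · have h2 : 0 ≤ k * B * (β - B) * (k * B * (β - B) * D - Q) := by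
        calc (0 : ℝ) ≤ _ := h1
          _ = _ := by ring
      have := nonneg_of_mul_nonneg_right h2 hlt
      linarith
    · have h0 : ∀ v : Cn 2, b 0 * v 0 + b 1 * v 1 = 0 := by
        intro v
        have h2 := hb v
        rw [← heq, zero_mul] at h2
        exact Complex.normSq_eq_zero.1 (le_antisymm h2 (Complex.normSq_nonneg _))
      have b0 : b 0 = 0 := by simpa using h0 ![1, 0]
      have b1 : b 1 = 0 := by simpa using h0 ![0, 1]
      have hz : bb b = 0 := by
        ext j k
        fin_cases j <;> simp [bb, b0, b1]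
      rw [hQ, hz]
      have : DD g 0 = 0 := by simp [DD]
      rw [this]
      positivity
  have hQ0 : 0 ≤ Q := by
    have hbp : (bb b).PosSemidef := psd_of_hf (bb_herm b) fun v => by
      rw [hf_bb, Complex.ofReal_re]
      exact Complex.normSq_nonneg _
    exact DD_nonneg hgp hbp
  -- `B L ≤ k β g`
  have hpsd2 : (((k * β : ℝ) : ℂ) • g - ((B : ℝ) : ℂ) • L).PosSemidef := by
    refine psd_of_hf ((herm_smul hg.isHermitian _).sub (herm_smul hL.isHermitian _)) fun v => ?_
    rw [hf_sub', hf_smul', hf_smul']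
    have h := hform 0 v
    simp only [map_zero, mul_zero, zero_mul, Complex.zero_re, zero_add, add_zero] at h
    have h2 : 0 ≤ normSq (b 0 * v 0 + b 1 * v 1) / B :=
      div_nonneg (Complex.normSq_nonneg _) hB.le
    linarith
  have hdet := det_re_nonneg hpsd2
  rw [det_sub_re, det_smul_re, det_smul_re, DD_smul_left, DD_smul_right, ← hX, ← hDdef] at hdet
  -- `T ≤ k β g`
  have hDT : B * X + Q / B ≤ 2 * β * k * D := by
    have hpsd3 : (((k * β : ℝ) : ℂ) • g - (((B : ℝ) : ℂ) • L + ((B⁻¹ : ℝ) : ℂ) • bb b)).PosSemidef := by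
      refine psd_of_hf ((herm_smul hg.isHermitian _).sub ((herm_smul hL.isHermitian _).add
        (herm_smul (bb_herm b) _))) fun v => ?_
      rw [hf_sub', hf_add', hf_smul', hf_smul', hf_smul', hf_bb, Complex.ofReal_re]
      have h := hform 0 v
      simp only [map_zero, mul_zero, zero_mul, Complex.zero_re, zero_add, add_zero] at h
      rw [inv_mul_eq_div]
      linarith
    have h1 := DD_nonneg hgp hpsd3
    rw [DD_sub_right, DD_add_right, DD_smul_right, DD_smul_right, DD_smul_right, DD_self, ← hX,
      ← hQ, ← hDdef, inv_mul_eq_div] at h1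
    linarith
  -- the expression
  have hexp : DD ((B : ℂ) • (L - (k : ℂ) • g) + ((B⁻¹ : ℝ) : ℂ) • bb b) g =
      B * X + Q / B - 2 * k * B * D := by
    rw [DD_add_left, DD_smul_left, DD_smul_left, DD_sub_left, DD_smul_left, DD_self, DD_comm L g,
      DD_comm (bb b) g, ← hX, ← hQ, ← hDdef]
    field_simp
    ring
  rw [hexp]
  have hLd : 0 ≤ L.det.re := det_re_nonneg hL
  set l := L.det.re with hl
  refine ⟨hB1, ?_, ?_⟩
  · have h1 : (B * X + Q / B - 2 * k * B * D) / k ≤ 2 * (β - B) * D := by
      rw [div_le_iff₀ hk]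
      nlinarith
    have h2 : 0 ≤ (β - B) * D := mul_nonneg (sub_nonneg.2 hB1) hD.le
    linarith
  · -- `Z = k² (D - R / β)`
    set R := 3 * (β - B) * D - (B * X + Q / B - 2 * k * B * D) / k with hR
    have hZ : β ^ 2 * (k ^ 2 * (D - R / β)) ≤ B ^ 2 * l := by
      have h1 : β ^ 2 * (k ^ 2 * (D - R / β)) =
          k * β * (B * X + Q / B - 2 * k * B * D + 3 * k * B * D) - 2 * k ^ 2 * β ^ 2 * D := by
        rw [hR]
        field_simp
        ring
      have h2 : Q / B ≤ k * (β - B) * D := by
        rw [div_le_iff₀ hB]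
        linarith
      have h3 : k * β * (Q / B) ≤ k * β * (k * (β - B) * D) :=
        mul_le_mul_of_nonneg_left h2 (by positivity)
      rw [h1]
      nlinarith
    have hfin : k ^ 2 * (D - R / β) ≤ l := by
      rcases le_or_gt (k ^ 2 * (D - R / β)) 0 with h | h
      · exact h.trans hLd
      · have h1 : B ^ 2 ≤ β ^ 2 := pow_le_pow_left₀ hB.le hB1 2
        have h2 : β ^ 2 * (k ^ 2 * (D - R / β)) ≤ β ^ 2 * l :=
          hZ.trans (mul_le_mul_of_nonneg_right h1 hLd)
        exact le_of_mul_le_mul_left h2 (by positivity)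
    have h4 : l / k ^ 2 ≥ D - R / β := by
      rw [ge_iff_le, le_div_iff₀ (by positivity)]
      linarith
    linarith

end Pool.Agent.Y486
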