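import Pool.Agent.Y486.Scal
import Pool.Agent.Y486.Pt
import Pool.Agent.Y486.Energy

/-!
# The upper bound of the Bergman function on a compact set
-/

set_option autoImplicit false

open scoped Manifold ContDiff Topology ComplexConjugate MatrixGroups UpperHalfPlane Matrix
open scoped ComplexOrder
open MeasureTheory Set Filter

namespace Pool.Agent.Y486

open Pool.Agent.W549.CY (Cn dz dzbar HermitianMetric chernRicci chernScalar)
open Pool.Agent.W711.KC (jj nn CG CG_far NN_pos jj_ne im_mob jj_mul nn_mul det_eq)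
open Pool.Agent.TH598.KG (hf Cutoff d1 posDef_iff_hf)
open Pool.Agent.TH997.KG (mob VV mob_mem mob_mul mob_one mob_inv_left mob_inv_right mob_coe
  hasDerivAt_mob isOpen_VV)
open Pool.Agent.TH997.CMan
open Complex (normSq)

/-- A uniform radius for a compact set. -/
theorem exists_radius {K : Set (Cn 2)} (hK : IsCompact K) (hKU : K ⊆ UU) : ∃ r > 0,
    (∀ x ∈ K, Metric.closedBall x r ⊆ UU) ∧
    ∀ x ∈ K, ∀ p ∈ Metric.ball x r, ∀ q ∈ Metric.ball x r, ∀ g ∈ CG, mob g (p 0) = q 0 → g = 1 := by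
  rcases K.eq_empty_or_nonempty with rfl | hne
  · exact ⟨1, one_pos, by simp, by simp⟩
  obtain ⟨x0, hx0, hmin⟩ := hK.exists_isMinOn hne (f := fun p : Cn 2 => (p 0).im)
    (Complex.continuous_im.comp (continuous_apply 0)).continuousOn
  set y : ℝ := (x0 0).im with hy
  have hy0 : 0 < y := hKU hx0
  have him : ∀ x ∈ K, ∀ p : Cn 2, dist p x ≤ y / 4 → 3 * y / 4 ≤ (p 0).im := by
    intro x hx p hp
    have h1 : dist (p 0) (x 0) ≤ y / 4 := (dist_le_pi_dist p x 0).trans hp
    have h2 : |(p 0).im - (x 0).im| ≤ y / 4 := by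
      rw [← Complex.sub_im]
      refine (Complex.abs_im_le_norm _).trans ?_
      rwa [← dist_eq_norm]
    have h3 : y ≤ (x 0).im := hmin hx
    have := (abs_le.1 h2).1
    linarith
  refine ⟨y / 4, by positivity, ?_, ?_⟩
  · intro x hx p hp
    have := him x hx p (Metric.mem_closedBall.1 hp)
    show 0 < (p 0).im
    linarith
  · intro x hx p hp q hq g hg h
    have hp1 := him x hx p (Metric.mem_ball.1 hp).le
    have hq1 := him x hx q (Metric.mem_ball.1 hq).le
    have hp0 : 0 < (p 0).im := by linarith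
    have hq0 : 0 < (q 0).im := by linarith
    refine CG_far.eq_of_dist_lt hg CG.one_mem (z := ⟨p 0, hp0⟩) ?_
    rw [one_smul]
    have e : (g • (⟨p 0, hp0⟩ : ℍ) : ℍ) = ⟨q 0, hq0⟩ := by
      apply UpperHalfPlane.ext
      rw [mob_coe]
      exact h
    rw [e]
    have hdist : dist (q 0) (p 0) ≤ y / 2 := by
      have h1 : dist (p 0) (x 0) ≤ y / 4 := (dist_le_pi_dist p x 0).trans (Metric.mem_ball.1 hp).le
      have h2 : dist (q 0) (x 0) ≤ y / 4 := (dist_le_pi_dist q x 0).trans (Metric.mem_ball.1 hq).le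
      have := dist_triangle_right (q 0) (p 0) (x 0)
      linarith
    have hs := UpperHalfPlane.sinh_half_dist (⟨q 0, hq0⟩ : ℍ) ⟨p 0, hp0⟩
    have h3 : dist (((⟨q 0, hq0⟩ : ℍ)) : ℂ) ((⟨p 0, hp0⟩ : ℍ) : ℂ) = dist (q 0) (p 0) := rfl
    have h4 : 3 * y / 4 ≤ √((⟨q 0, hq0⟩ : ℍ).im * (⟨p 0, hp0⟩ : ℍ).im) := by
      apply Real.le_sqrt_of_sq_le
      show (3 * y / 4) ^ 2 ≤ (q 0).im * (p 0).im
      nlinarith
    have h5 : Real.sinh (dist (⟨q 0, hq0⟩ : ℍ) ⟨p 0, hp0⟩ / 2) ≤ 1 / 3 := by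
      rw [hs, h3, div_le_iff₀ (by linarith)]
      linarith
    have h6 : dist (⟨q 0, hq0⟩ : ℍ) ⟨p 0, hp0⟩ / 2 ≤
        Real.sinh (dist (⟨q 0, hq0⟩ : ℍ) ⟨p 0, hp0⟩ / 2) :=
      Real.self_le_sinh_iff.2 (by positivity)
    linarith

/-! ### Linear combinations of sections -/

section comb

variable {N : ℕ} {A C : ℕ} {v : Fin N → ℕ} {f : Fin N → ℕ → ℂ → ℂ}

/-- `∑ x F` -/
noncomputable def cmb (A : ℕ) (f : Fin N → ℕ → ℂ → ℂ) (x : Fin N → ℂ) (i : Fin 2) (p : Cn 2) : ℂ :=
  ∑ ι, x ι * Fs A f i ι p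

theorem Sys.cmb_FF (h : Sys A C v f) (x : Fin N → ℂ) {g : SL(2, ℝ)} (hg : g ∈ CG) (i j : Fin 2)
    {p : Cn 2} (hp : p ∈ UU) (h0 : hom g i p j ≠ 0) :
    cmb A f x j (FF g i j p) = (hom g i p j)⁻¹ ^ A * jj g (p 0) ^ C * cmb A f x i p := by
  unfold cmb
  rw [Finset.mul_sum]
  refine Finset.sum_congr rfl fun ι _ => ?_
  show x ι * sec A (f ι) j (FF g i j p) = _ * (x ι * sec A (f ι) i p)
  rw [sec_FF h.hAC (h.isec ι) hg i j hp h0]
  ring

theorem Sys.fn_cmb (h : Sys A C v f) (x : Fin N → ℂ) {Q : Fin 2 → Cn 2 → ℝ} (hQ : Wt A C Q) :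
    Fn fun i p => normSq (cmb A f x i p) * Real.exp (-Q i p) := by
  refine ⟨fun i => ?_, fun g hg i j p hp h0 => ?_⟩
  · have h1 : ContinuousOn (cmb A f x i) UU := by
      unfold cmb
      exact continuousOn_finsetSum _ fun ι _ => continuousOn_const.mul (h.cdC i ι (n := 0)).continuousOn
    exact (Complex.continuous_normSq.comp_continuousOn h1).mul
      (Real.continuous_exp.comp_continuousOn (hQ.smooth i).continuousOn.neg)
  · have hj : 0 < normSq (jj g (p 0)) := Complex.normSq_pos.2 (jj_ne g hp)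
    have hh : 0 < normSq (hom g i p j) := Complex.normSq_pos.2 h0
    rw [h.cmb_FF x hg i j hp h0, hQ.compat g hg i j p hp h0]
    simp only [map_mul, map_pow, map_inv₀]
    have e1 : Real.exp (-(Q i p - A * Real.log (normSq (hom g i p j)) +
        C * Real.log (normSq (jj g (p 0))))) = Real.exp (-Q i p) *
        (normSq (hom g i p j) ^ A * (normSq (jj g (p 0)) ^ C)⁻¹) := by
      rw [show -(Q i p - A * Real.log (normSq (hom g i p j)) + C * Real.log (normSq (jj g (p 0)))) =
        -Q i p + (A * Real.log (normSq (hom g i p j)) + -(C * Real.log (normSq (jj g (p 0))))) by ring,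
        Real.exp_add, Real.exp_add, Real.exp_neg (C * _), Real.exp_nat_mul, Real.exp_nat_mul,
        Real.exp_log hh, Real.exp_log hj]
    rw [e1, inv_pow]
    field_simp

theorem Sys.cmb_hol (h : Sys A C v f) (x : Fin N → ℂ) (i : Fin 2) :
    DifferentiableOn ℂ (cmb A f x i) UU := by
  unfold cmb
  exact DifferentiableOn.fun_sum fun ι _ =>
    ((h.cdC i ι (n := 1)).differentiableOn (by simp)).const_mul (x ι)

theorem Sys.dz_cmb (h : Sys A C v f) (x : Fin N → ℂ) (i j : Fin 2) {p : Cn 2} (hp : p ∈ UU) :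
    dz j (cmb A f x i) p = ∑ ι, x ι * dz j (Fs A f i ι) p := by
  have hd : ∀ ι, DifferentiableAt ℝ (Fs A f i ι) p := fun ι =>
    ((h.cdR i ι (n := 1)).contDiffAt (isOpen_UU.mem_nhds hp)).differentiableAt (by simp)
  have h1 : dz j (fun q => ∑ ι, x ι * Fs A f i ι q) p = ∑ ι, dz j (fun q => x ι * Fs A f i ι q) p :=
    dz_sum (fun ι _ => (hd ι).const_mul (x ι)) j
  show dz j (fun q => ∑ ι, x ι * Fs A f i ι q) p = _
  rw [h1]
  exact Finset.sum_congr rfl fun ι _ => dz_const_mul' _ (hd ι) j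

end comb

/-! ### The bound -/

/-- orthonormality of a system -/
def ON {N : ℕ} (φ : ℂ → ℝ) (k A : ℕ) (P : Fin 2 → Cn 2 → ℝ) (f : Fin N → ℕ → ℂ → ℂ) : Prop :=
  ∀ x : Fin N → ℂ, II φ (fun i p => normSq (cmb A f x i p) * Real.exp (-(k * P i p)) *
    (LL (P i) p).det.re) = ∑ ι, normSq (x ι)

/-- the bound of the Bergman function -/
noncomputable def bet (C : ℝ) (P : Fin 2 → Cn 2 → ℝ) (k : ℕ) (i : Fin 2) (p : Cn 2) : ℝ :=
  (k / Real.pi) ^ 2 * (1 + sc P i p / (2 * k) + C / (k * √k))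

theorem berg (hloc : St_loc) {φ : ℂ → ℝ} (hφ : Cutoff CG φ) {a c : ℕ} {P : Fin 2 → Cn 2 → ℝ}
    (hP : Wt a c P) (hpd : PD P) {K : Set (Cn 2)} (hK : IsCompact K) (hKU : K ⊆ UU) :
    ∃ C k₀ : ℝ, 0 ≤ C ∧ 1 ≤ k₀ ∧ ∀ k : ℕ, k₀ ≤ k → ∀ (N : ℕ) (v : Fin N → ℕ) (f : Fin N → ℕ → ℂ → ℂ),
      Sys (k * a) (k * c) v f → ON φ k (k * a) P f → ∀ i, ∀ p ∈ K, ∀ (α : ℂ) (w : Cn 2),
        (∑ ι, normSq (α * Fs (k * a) f i ι p + ∑ j, w j * (dz j (Fs (k * a) f i ι) p -
          k * dz j (fun q => ((P i q : ℝ) : ℂ)) p * Fs (k * a) f i ι p))) *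
          Real.exp (-(k * P i p)) ≤ bet C P k i p * (normSq α + k * (hf (LL (P i) p) w).re) := by
  obtain ⟨r, hr, hr1, hr2⟩ := exists_radius hK hKU
  have hl := fun i => hloc UU (P i) isOpen_UU (hP.smooth i) (hpd i) K hK r hr hr1
  obtain ⟨C0, k0, hk0, h0⟩ := hl 0
  obtain ⟨C1, k1, hk1, h1⟩ := hl 1
  refine ⟨max 0 (max C0 C1), max k0 k1, le_max_left _ _, hk0.trans (le_max_left _ _),
    fun k hk N v f hs hON i p hp α w => ?_⟩
  have hpU := hKU hp
  have hk1' : (1 : ℝ) ≤ k := hk0.trans ((le_max_left _ _).trans hk)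
  have hkpos : (0 : ℝ) < k := by linarith
  have hWk : Wt ((k * a : ℕ) : ℝ) ((k * c : ℕ) : ℝ) (fun i p => k * P i p) := by
    have := hP.const_mul (k : ℝ)
    push_cast
    exact this
  -- LOC with a common constant
  set C := max 0 (max C0 C1) with hC
  have hcomb : ∃ C' ≤ C, ∀ F : Cn 2 → ℂ, DifferentiableOn ℂ F UU → ∀ (α : ℂ) (v : Cn 2),
      Complex.normSq (α * F p + ∑ j, v j * (dz j F p - (k : ℝ) *
        dz j (fun q => ((P i q : ℝ) : ℂ)) p * F p)) * Real.exp (-((k : ℝ) * P i p)) ≤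
      ((k : ℝ) / Real.pi) ^ 2 * (1 + (chernScalar (LL (P i)) p).re / (2 * k) + C' / (k * √k)) *
        (Complex.normSq α + k * (hf (LL (P i) p) v).re) *
        ∫ q in Metric.ball p r,
          Complex.normSq (F q) * Real.exp (-((k : ℝ) * P i q)) * (LL (P i) q).det.re := by
    rcases (show i = 0 ∨ i = 1 by fin_cases i <;> simp) with rfl | rfl
    · exact ⟨C0, (le_max_left _ _).trans (le_max_right _ _), h0 p hp k ((le_max_left _ _).trans hk)⟩
    · exact ⟨C1, (le_max_right _ _).trans (le_max_right _ _), h1 p hp k ((le_max_right _ _).trans hk)⟩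
  obtain ⟨C', hC', hF⟩ := hcomb
  -- the vector
  set y : Fin N → ℂ := fun ι => α * Fs (k * a) f i ι p + ∑ j, w j * (dz j (Fs (k * a) f i ι) p -
    k * dz j (fun q => ((P i q : ℝ) : ℂ)) p * Fs (k * a) f i ι p) with hy
  set Λ : ℝ := ∑ ι, normSq (y ι) with hΛ
  have hΛ0 : 0 ≤ Λ := Finset.sum_nonneg fun ι _ => Complex.normSq_nonneg _
  set x : Fin N → ℂ := fun ι => conj (y ι) with hx
  have h2 := hF (cmb (k * a) f x i) (hs.cmb_hol x i) α w
  have e1 : α * cmb (k * a) f x i p + ∑ j, w j * (dz j (cmb (k * a) f x i) p - (k : ℝ) *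
      dz j (fun q => ((P i q : ℝ) : ℂ)) p * cmb (k * a) f x i p) = (Λ : ℂ) := by
    have e2 : ∀ j, w j * (dz j (cmb (k * a) f x i) p - (k : ℝ) *
        dz j (fun q => ((P i q : ℝ) : ℂ)) p * cmb (k * a) f x i p) =
        ∑ ι, x ι * (w j * (dz j (Fs (k * a) f i ι) p -
          k * dz j (fun q => ((P i q : ℝ) : ℂ)) p * Fs (k * a) f i ι p)) := by
      intro j
      rw [hs.dz_cmb x i j hpU]
      unfold cmb
      rw [Finset.mul_sum, ← Finset.sum_sub_distrib, Finset.mul_sum]
      refine Finset.sum_congr rfl fun ι _ => ?_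
      push_cast
      ring
    rw [Finset.sum_congr rfl fun j _ => e2 j, Finset.sum_comm]
    unfold cmb
    rw [Finset.mul_sum, ← Finset.sum_add_distrib, hΛ]
    push_cast
    refine Finset.sum_congr rfl fun ι _ => ?_
    rw [normSq_coe, ← Finset.mul_sum]
    show α * (conj (y ι) * Fs (k * a) f i ι p) + conj (y ι) * _ = y ι * conj (y ι)
    rw [hy]
    ring
  rw [e1] at h2
  have e3 : normSq (Λ : ℂ) = Λ * Λ := Complex.normSq_ofReal _
  rw [e3] at h2
  -- the integral over the ball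
  have hG : Dn fun i p => normSq (cmb (k * a) f x i p) * Real.exp (-(k * P i p)) *
      (LL (P i) p).det.re := Dn.fn_mul (hs.fn_cmb x hWk) (dn_det hP)
  have hG0 : ∀ i, ∀ p ∈ UU, 0 ≤ normSq (cmb (k * a) f x i p) * Real.exp (-(k * P i p)) *
      (LL (P i) p).det.re := fun i p hp =>
    mul_nonneg (mul_nonneg (Complex.normSq_nonneg _) (Real.exp_pos _).le) (hpd.det_pos hP i hp).le
  have hball : Metric.ball p r ⊆ UU := Metric.ball_subset_closedBall.trans (hr1 p hp)
  have hle := unfold_le hφ hG hG0 i Metric.isOpen_ball.measurableSet hball (hr2 p hp)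
  have hint : ∫ q in Metric.ball p r,
      Complex.normSq (cmb (k * a) f x i q) * Real.exp (-((k : ℝ) * P i q)) * (LL (P i) q).det.re ≤ Λ := by
    have hm : AEStronglyMeasurable (fun q => Complex.normSq (cmb (k * a) f x i q) *
        Real.exp (-((k : ℝ) * P i q)) * (LL (P i) q).det.re) (volume.restrict (Metric.ball p r)) :=
      ((hG.cont i).mono hball).aestronglyMeasurable Metric.isOpen_ball.measurableSet
    rw [integral_eq_lintegral_of_nonneg_ae ?_ hm]
    · have hII : II φ (fun i p => normSq (cmb (k * a) f x i p) * Real.exp (-(k * P i p)) *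
          (LL (P i) p).det.re) = Λ := by
        rw [hON x, hΛ]
        refine Finset.sum_congr rfl fun ι _ => ?_
        rw [hx]
        exact Complex.normSq_conj _
      have h3 := ENNReal.toReal_mono ENNReal.ofReal_ne_top hle
      rw [ENNReal.toReal_ofReal (by
        have : 0 ≤ II φ (fun i p => normSq (cmb (k * a) f x i p) * Real.exp (-(k * P i p)) *
          (LL (P i) p).det.re) := by rw [hII]; exact hΛ0
        exact this)] at h3
      refine h3.trans (le_of_eq ?_)
      exact hII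
    · filter_upwards [ae_restrict_mem Metric.isOpen_ball.measurableSet] with q hq
      exact hG0 i q (hball hq)
  -- the factor
  have hb0 : 0 ≤ (hf (LL (P i) p) w).re := hf_of_psd (hpd.posDef hP i hpU).posSemidef w
  have hM : 0 ≤ normSq α + k * (hf (LL (P i) p) w).re :=
    add_nonneg (Complex.normSq_nonneg _) (mul_nonneg hkpos.le hb0)
  set β' : ℝ := ((k : ℝ) / Real.pi) ^ 2 *
    (1 + (chernScalar (LL (P i)) p).re / (2 * k) + C' / (k * √k)) with hβ'
  have hβle : β' ≤ bet C P k i p := by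
    rw [hβ']
    unfold bet sc
    refine mul_le_mul_of_nonneg_left ?_ (sq_nonneg _)
    have : C' / (k * √k) ≤ C / (k * √k) := div_le_div_of_nonneg_right hC' (by positivity)
    linarith
  rcases hΛ0.lt_or_eq with hpos | hzero
  · -- divide by `Λ`
    have hβ0 : 0 ≤ β' * (normSq α + k * (hf (LL (P i) p) w).re) := by
      by_contra hneg
      have hneg' := not_le.1 hneg
      have h4 : 0 ≤ ∫ q in Metric.ball p r, Complex.normSq (cmb (k * a) f x i q) *
          Real.exp (-((k : ℝ) * P i q)) * (LL (P i) q).det.re :=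
        setIntegral_nonneg Metric.isOpen_ball.measurableSet fun q hq => hG0 i q (hball hq)
      have h5 : 0 < Λ * Λ * Real.exp (-((k : ℝ) * P i p)) := by positivity
      have h6 := mul_nonpos_of_nonpos_of_nonneg hneg'.le h4
      linarith
    have h4 : Λ * Λ * Real.exp (-((k : ℝ) * P i p)) ≤
        β' * (normSq α + k * (hf (LL (P i) p) w).re) * Λ :=
      h2.trans (mul_le_mul_of_nonneg_left hint hβ0)
    have h5 : Λ * Real.exp (-((k : ℝ) * P i p)) ≤ β' * (normSq α + k * (hf (LL (P i) p) w).re) := by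
      have : Λ * (Λ * Real.exp (-((k : ℝ) * P i p))) ≤
          Λ * (β' * (normSq α + k * (hf (LL (P i) p) w).re)) := by
        calc _ = Λ * Λ * Real.exp (-((k : ℝ) * P i p)) := by ring
          _ ≤ _ := h4
          _ = _ := by ring
      exact le_of_mul_le_mul_left this hpos
    exact h5.trans (mul_le_mul_of_nonneg_right hβle hM)
  · -- `Λ = 0`
    have hβnn : 0 ≤ bet C P k i p * (normSq α + k * (hf (LL (P i) p) w).re) := by
      by_cases hM0 : normSq α + k * (hf (LL (P i) p) w).re = 0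
      · rw [hM0, mul_zero]
      · -- test LOC with the constant function one
        have h7 := hF (fun _ => 1) (differentiableOn_const _) 1 0
        have hv : (hf (LL (P i) p) (0 : Cn 2)) = 0 := by simp [hf]
        have h8 : 0 ≤ ∫ q in Metric.ball p r, Complex.normSq ((fun _ : Cn 2 => (1 : ℂ)) q) *
            Real.exp (-((k : ℝ) * P i q)) * (LL (P i) q).det.re := by
          refine setIntegral_nonneg Metric.isOpen_ball.measurableSet fun q hq => ?_
          exact mul_nonneg (mul_nonneg (Complex.normSq_nonneg _) (Real.exp_pos _).le)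
            (hpd.det_pos hP i (hball hq)).le
        rw [hv] at h7
        simp only [Pi.zero_apply, zero_mul, Finset.sum_const_zero, add_zero, one_mul, map_one,
          Complex.zero_re, mul_zero, mul_one] at h7 h8
        have h9 : 0 < β' := by
          by_contra hneg
          have h10 := mul_nonpos_of_nonpos_of_nonneg (not_lt.1 hneg) h8
          have := Real.exp_pos (-((k : ℝ) * P i p))
          linarith
        exact mul_nonneg (h9.le.trans hβle) hM
    rw [← hzero, zero_mul]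
    exact hβnn

end Pool.Agent.Y486
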