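import Pool.Agent.Helper358.Compl

/-!
For an uncountable `Γ`, an arbitrary discrete `Δ` and an arbitrary set `I`, the space `C(B(Γ))` is
not isomorphic to a complemented subspace of `C(A(Δ)^I)`.  This extends the argument of
`Pool.Agent.Helper358.Compl` (the case `Δ = Γ`, `I = ℕ`) to all powers of all `A(Δ)`.
-/

set_option autoImplicit false

namespace Pool.Agent.Y486.ComplGen

open Topology Pool.Agent.Helper358.LOne

open Pool.Agent.Helper358.Compl (onePoint_ext rd rd_eq_coe isClopen_coe continuous_rd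
  exists_countable_support exists_supportB exists_inner pigeonN uf uf_apply abs_apply_le_norm
  sum_abs_le_norm)

universe u v w

section red

variable {Δ : Type v} {I : Type w}

open Classical in
/-- reduction of an element of `A(Δ)^I` -/
noncomputable def red (P : Finset Δ) (M : Finset I) (ξ : I → OnePoint Δ) : I → OnePoint Δ :=
  fun n => if n ∈ M then rd P (ξ n) else OnePoint.infty

lemma red_eq_coe {P : Finset Δ} {M : Finset I} {ξ : I → OnePoint Δ} {n : I} {i : Δ} :
    red P M ξ n = (i : OnePoint Δ) ↔ n ∈ M ∧ i ∈ P ∧ ξ n = (i : OnePoint Δ) := by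
  unfold red
  split_ifs with h
  · rw [rd_eq_coe]
    simp [h]
  · simp [h]

lemma red_eq_iff {P : Finset Δ} {M : Finset I} {ξ ξ' : I → OnePoint Δ} :
    red P M ξ = red P M ξ' ↔
      ∀ n ∈ M, ∀ i ∈ P, (ξ n = (i : OnePoint Δ) ↔ ξ' n = (i : OnePoint Δ)) := by
  constructor
  · intro h n hn i hi
    have h1 : ∀ ζ : I → OnePoint Δ, red P M ζ n = (i : OnePoint Δ) ↔ ζ n = (i : OnePoint Δ) := by
      intro ζ
      rw [red_eq_coe]
      simp [hn, hi]
    rw [← h1 ξ, ← h1 ξ', h]
  · intro h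
    funext n
    refine onePoint_ext fun i => ?_
    rw [red_eq_coe, red_eq_coe]
    constructor
    · rintro ⟨h1, h2, h3⟩
      exact ⟨h1, h2, (h n h1 i h2).mp h3⟩
    · rintro ⟨h1, h2, h3⟩
      exact ⟨h1, h2, (h n h1 i h2).mpr h3⟩

lemma red_red {P P' : Finset Δ} {M M' : Finset I} (hP : P ⊆ P') (hM : M ⊆ M') (ξ : I → OnePoint Δ) :
    red P M (red P' M' ξ) = red P M ξ := by
  rw [red_eq_iff]
  intro n hn i hi
  rw [red_eq_coe]
  simp [hM hn, hP hi]

lemma red_mono {P P' : Finset Δ} {M M' : Finset I} (hP : P ⊆ P') (hM : M ⊆ M') {ξ ξ' : I → OnePoint Δ}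
    (h : red P' M' ξ = red P' M' ξ') : red P M ξ = red P M ξ' := by
  rw [← red_red hP hM ξ, ← red_red hP hM ξ', h]

lemma finite_range_red (P : Finset Δ) (M : Finset I) : (Set.range (red P M)).Finite := by
  classical
  let X := {x : OnePoint Δ // x ∈ insert OnePoint.infty (P.image fun i : Δ => (i : OnePoint Δ))}
  let φ : (M → X) → (I → OnePoint Δ) := fun f n =>
    if h : n ∈ M then (f ⟨n, h⟩).1 else OnePoint.infty
  refine Set.Finite.subset (Set.finite_range φ) ?_
  rintro _ ⟨ξ, rfl⟩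
  refine ⟨fun n => ⟨rd P (ξ n.1), ?_⟩, ?_⟩
  · rw [Finset.mem_insert]
    unfold rd
    split_ifs with h
    · right
      obtain ⟨i, hi, hx⟩ := h
      rw [hx]
      exact Finset.mem_image_of_mem _ hi
    · left; rfl
  · funext n
    simp only [φ, red]
    split_ifs <;> rfl

/-- The finite set of patterns. -/
noncomputable def Pat (P : Finset Δ) (M : Finset I) : Finset (I → OnePoint Δ) :=
  (finite_range_red P M).toFinset

lemma red_mem (P : Finset Δ) (M : Finset I) (ξ : I → OnePoint Δ) : red P M ξ ∈ Pat P M :=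
  (finite_range_red P M).mem_toFinset.mpr ⟨ξ, rfl⟩

lemma mem_Pat {P : Finset Δ} {M : Finset I} {w : I → OnePoint Δ} : w ∈ Pat P M ↔ red P M w = w := by
  constructor
  · intro h
    obtain ⟨ξ, rfl⟩ := (finite_range_red P M).mem_toFinset.mp h
    exact red_red (Finset.Subset.refl _) (Finset.Subset.refl _) ξ
  · intro h
    rw [← h]
    exact red_mem P M w

lemma mem_of_mem_Pat {P : Finset Δ} {M : Finset I} {w : I → OnePoint Δ} (hw : w ∈ Pat P M) {n : I} {i : Δ}
    (h : w n = (i : OnePoint Δ)) : i ∈ P := by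
  rw [mem_Pat] at hw
  rw [← hw, red_eq_coe] at h
  exact h.2.1

variable [TopologicalSpace Δ] [DiscreteTopology Δ]

lemma continuous_red (P : Finset Δ) (M : Finset I) : Continuous (red P M) := by
  refine continuous_pi fun n => ?_
  unfold red
  split_ifs with h
  · exact (continuous_rd P).comp (continuous_apply n)
  · exact continuous_const

lemma isClopen_red (P : Finset Δ) (M : Finset I) (w : I → OnePoint Δ) :
    IsClopen {ξ | red P M ξ = w} := by
  constructor
  · exact isClosed_eq (continuous_red P M) continuous_const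
  · rw [← isClosed_compl_iff]
    have : {ξ | red P M ξ = w}ᶜ = ⋃ v ∈ {v | v ∈ Pat P M ∧ v ≠ w}, {ξ | red P M ξ = v} := by
      ext ξ
      simp only [Set.mem_compl_iff, Set.mem_ofPred_eq, Set.mem_iUnion, exists_prop,
        exists_eq_right']
      exact ⟨fun h => ⟨red_mem P M ξ, h⟩, fun h => h.2⟩
    rw [this]
    refine Set.Finite.isClosed_biUnion ?_ fun v _ =>
      isClosed_eq (continuous_red P M) continuous_const
    exact Set.Finite.subset (Pat P M).finite_toSet fun v hv => hv.1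

open Classical in
/-- indicator of a pattern -/
noncomputable def ind (P : Finset Δ) (M : Finset I) (w : I → OnePoint Δ) : C(I → OnePoint Δ, ℝ) where
  toFun ξ := if red P M ξ = w then 1 else 0
  continuous_toFun := by
    refine continuous_const.if ?_ continuous_const
    intro x hx
    rw [(isClopen_red P M w).frontier_eq] at hx
    exact absurd hx (Set.notMem_empty x)

open Classical in
lemma ind_apply (P : Finset Δ) (M : Finset I) (w ξ : I → OnePoint Δ) :
    ind P M w ξ = if red P M ξ = w then 1 else 0 := rfl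

lemma sum_ind (P : Finset Δ) (M : Finset I) (a : (I → OnePoint Δ) → ℝ) (ξ : I → OnePoint Δ) :
    (∑ w ∈ Pat P M, a w • ind P M w) ξ = a (red P M ξ) := by
  classical
  rw [ContinuousMap.sum_apply, Finset.sum_eq_single (red P M ξ)]
  · rw [ContinuousMap.smul_apply, ind_apply, if_pos rfl, smul_eq_mul, mul_one]
  · intro w _ hw
    rw [ContinuousMap.smul_apply, ind_apply, if_neg hw.symm, smul_zero]
  · intro h
    exact absurd (red_mem P M ξ) h

open Classical in
lemma ind_eq_sum {P P' : Finset Δ} {M M' : Finset I} (hP : P ⊆ P') (hM : M ⊆ M')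
    (v : I → OnePoint Δ) :
    ind P M v = ∑ w ∈ Pat P' M' with red P M w = v, ind P' M' w := by
  ext ξ
  rw [Finset.sum_filter]
  have h1 : ∑ w ∈ Pat P' M', (if red P M w = v then ind P' M' w else 0) =
      ∑ w ∈ Pat P' M', (if red P M w = v then (1 : ℝ) else 0) • ind P' M' w := by
    refine Finset.sum_congr rfl fun w _ => ?_
    split_ifs
    · rw [one_smul]
    · rw [zero_smul]
  rw [h1, sum_ind, ind_apply, red_red hP hM]

/-- Up to `ε` a continuous function on `A(Δ)^I` depends on finitely many slots and labels. -/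
lemma exists_suppA (g : C(I → OnePoint Δ, ℝ)) {ε : ℝ} (hε : 0 < ε) :
    ∃ (P : Finset Δ) (M : Finset I), ∀ ξ ξ', red P M ξ = red P M ξ' → |g ξ - g ξ'| ≤ ε := by
  classical
  by_contra hcon
  push Not at hcon
  let t : Finset Δ × Finset I → Set ((I → OnePoint Δ) × (I → OnePoint Δ)) := fun q =>
    {p | red q.1 q.2 p.1 = red q.1 q.2 p.2 ∧ ε ≤ |g p.1 - g p.2|}
  have hcl : ∀ q, IsClosed (t q) := by
    intro q
    refine IsClosed.inter ?_ ?_
    · exact isClosed_eq ((continuous_red q.1 q.2).comp continuous_fst)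
        ((continuous_red q.1 q.2).comp continuous_snd)
    · exact isClosed_le continuous_const
        ((g.continuous.comp continuous_fst).sub (g.continuous.comp continuous_snd)).abs
  have hne : (⋂ q, t q).Nonempty := by
    refine IsCompact.nonempty_iInter_of_directed_nonempty_isCompact_isClosed t ?_ ?_
      (fun q => (hcl q).isCompact) hcl
    · intro q q'
      refine ⟨(q.1 ∪ q'.1, q.2 ∪ q'.2), ?_, ?_⟩
      · rintro p ⟨h1, h2⟩
        exact ⟨red_mono Finset.subset_union_left Finset.subset_union_left h1, h2⟩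
      · rintro p ⟨h1, h2⟩
        exact ⟨red_mono Finset.subset_union_right Finset.subset_union_right h1, h2⟩
    · intro q
      obtain ⟨z, z', h1, h2⟩ := hcon q.1 q.2
      exact ⟨(z, z'), h1, h2.le⟩
  obtain ⟨p, hp⟩ := hne
  rw [Set.mem_iInter] at hp
  have heq : p.1 = p.2 := by
    funext n
    refine onePoint_ext fun i => ?_
    exact red_eq_iff.mp (hp ({i}, {n})).1 n (Finset.mem_singleton_self n) i (Finset.mem_singleton_self i)
  have := (hp (∅, ∅)).2
  rw [heq, sub_self, abs_zero] at this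
  linarith

end red

/-- Maximal root, for labels in an arbitrary type. -/
lemma exists_root' {Γ : Type u} {Y : Type v} {p : ℕ} (e : Γ → Fin p → Y) {I : Set Γ}
    (hI : ¬ I.Countable) :
    ∃ (J : Finset (Fin p)) (g : Fin p → Y), ¬ {i ∈ I | ∀ a ∈ J, e i a = g a}.Countable ∧
      ∀ a ∉ J, ∀ γ, {i ∈ I | (∀ b ∈ J, e i b = g b) ∧ e i a = γ}.Countable := by
  classical
  let 𝒥 : Finset (Finset (Fin p)) := Finset.univ.filter fun J =>
    ∃ g : Fin p → Y, ¬ {i ∈ I | ∀ a ∈ J, e i a = g a}.Countable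
  have hIne : I.Nonempty := by
    by_contra h
    rw [Set.not_nonempty_iff_eq_empty] at h
    exact hI (h ▸ Set.countable_empty)
  obtain ⟨i0, _⟩ := hIne
  have hne : 𝒥.Nonempty := by
    refine ⟨∅, ?_⟩
    simp only [𝒥, Finset.mem_filter, Finset.mem_univ, true_and]
    refine ⟨e i0, ?_⟩
    simpa using hI
  obtain ⟨J, hJ⟩ := 𝒥.exists_maximal hne
  have hJm := hJ.prop
  simp only [𝒥, Finset.mem_filter, Finset.mem_univ, true_and] at hJm
  obtain ⟨g, hg⟩ := hJm
  refine ⟨J, g, hg, fun a ha γ => ?_⟩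
  by_contra hcon
  have hmem : insert a J ∈ 𝒥 := by
    simp only [𝒥, Finset.mem_filter, Finset.mem_univ, true_and]
    refine ⟨Function.update g a γ, ?_⟩
    intro hc
    apply hcon
    refine hc.mono ?_
    rintro i ⟨hi, h1, h2⟩
    refine ⟨hi, fun b hb => ?_⟩
    rcases Finset.mem_insert.mp hb with rfl | hb
    · simp [h2]
    · have hba : b ≠ a := fun h => ha (h ▸ hb)
      rw [Function.update_of_ne hba]
      exact h1 b hb
  have hle : J ≤ insert a J := Finset.subset_insert a J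
  have := hJ.le_of_ge hmem hle
  exact ha (this (Finset.mem_insert_self a J))

section nf

variable {Γ : Type u} {Δ : Type v} {I : Type w} [TopologicalSpace Δ] [DiscreteTopology Δ]

/-- Normal form of a family of functions on `A(Δ)^I`. -/
structure NFA (g : Γ → C(I → OnePoint Δ, ℝ)) (ε : ℝ) where
  /-- root: labels and slots -/
  Z : Finset (Δ ⊕ I)
  /-- subfamily -/
  G : Set Γ
  /-- new labels and slots -/
  V : Γ → Finset (Δ ⊕ I)
  supp : ∀ γ ∈ G, ∀ P' : Finset Δ, Z.toLeft ⊆ P' → (V γ).toLeft ⊆ P' → ∀ M' : Finset I,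
    Z.toRight ⊆ M' → (V γ).toRight ⊆ M' → ∀ ξ ξ',
    red P' M' ξ = red P' M' ξ' → |g γ ξ - g γ ξ'| ≤ ε
  free : ∀ Q : Set Γ, Q.Countable → ∀ Q' : Set (Δ ⊕ I), Q'.Countable →
    ∃ γ ∈ G, γ ∉ Q ∧ ∀ i ∈ V γ, i ∉ Q'

lemma exists_NFA [Uncountable Γ] (g : Γ → C(I → OnePoint Δ, ℝ)) {ε : ℝ} (hε : 0 < ε) :
    Nonempty (NFA g ε) := by
  classical
  choose P0 M0 hPM using fun i => exists_suppA (g i) hε
  let D : Γ → Finset (Δ ⊕ I) := fun i => (P0 i).disjSum (M0 i)
  have h0 : ¬ (Set.univ : Set Γ).Countable := by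
    rw [Set.countable_univ_iff]
    exact not_countable
  obtain ⟨p, hI1⟩ := pigeonN h0 (fun i => (D i).card)
  set I1 : Set Γ := {i ∈ Set.univ | (D i).card = p} with hI1def
  have hI1p : ∀ i ∈ I1, (D i).card = p := fun i hi => hi.2
  have hI1ne : I1.Nonempty := by
    by_contra h
    rw [Set.not_nonempty_iff_eq_empty] at h
    exact hI1 (h ▸ Set.countable_empty)
  have hex : ∀ i, ∃ e : Fin p → Option (Δ ⊕ I), i ∈ I1 → (∀ γ, γ ∈ D i ↔ ∃ a, e a = some γ) := by
    intro i
    by_cases hi : i ∈ I1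
    · let E := (D i).equivFinOfCardEq (hI1p i hi)
      refine ⟨fun a => some (E.symm a).1, fun _ γ => ⟨fun hγ => ?_, ?_⟩⟩
      · exact ⟨E ⟨γ, hγ⟩, by simp⟩
      · rintro ⟨a, ha⟩
        have := Option.some_injective _ ha
        exact this ▸ (E.symm a).2
    · exact ⟨fun _ => none, fun h => absurd h hi⟩
  choose e he using hex
  obtain ⟨J, r, hJ1, hJ2⟩ := exists_root' e hI1
  refine ⟨{ Z := (J.image r).eraseNone
            G := {i ∈ I1 | ∀ a ∈ J, e i a = r a}
            V := fun i => (Jᶜ.image (e i)).eraseNone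
            supp := fun i hi P' hR hP M' hM hF ξ ξ' h => ?_
            free := fun Q hQ Q' hQ' => ?_ }⟩
  · have hD : ∀ y ∈ D i, y ∈ (J.image r).eraseNone ∨ y ∈ (Jᶜ.image (e i)).eraseNone := by
      intro y hy
      obtain ⟨a, ha⟩ := (he i hi.1 y).mp hy
      by_cases haJ : a ∈ J
      · left
        rw [Finset.mem_eraseNone]
        rw [← ha, hi.2 a haJ]
        exact Finset.mem_image_of_mem _ haJ
      · right
        rw [Finset.mem_eraseNone, ← ha]
        exact Finset.mem_image_of_mem _ (Finset.mem_compl.mpr haJ)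
    refine hPM i ξ ξ' (red_mono ?_ ?_ h)
    · intro γ hγ
      rcases hD (Sum.inl γ) (Finset.inl_mem_disjSum.mpr hγ) with h | h
      · exact hR (Finset.mem_toLeft.mpr h)
      · exact hP (Finset.mem_toLeft.mpr h)
    · intro γ hγ
      rcases hD (Sum.inr γ) (Finset.inr_mem_disjSum.mpr hγ) with h | h
      · exact hM (Finset.mem_toRight.mpr h)
      · exact hF (Finset.mem_toRight.mpr h)
  · have hcount : {i ∈ {i ∈ I1 | ∀ a ∈ J, e i a = r a} |
        i ∈ Q ∨ ∃ a ∉ J, ∃ y ∈ Q', e i a = some y}.Countable := by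
      have hsub : {i ∈ {i ∈ I1 | ∀ a ∈ J, e i a = r a} |
          i ∈ Q ∨ ∃ a ∉ J, ∃ y ∈ Q', e i a = some y} ⊆
          Q ∪ ⋃ a ∈ {a | a ∉ J}, ⋃ γ ∈ Q',
            {i ∈ I1 | (∀ b ∈ J, e i b = r b) ∧ e i a = some γ} := by
        rintro i ⟨⟨hi1, hi2⟩, hi3 | ⟨a, ha, y, hy, hay⟩⟩
        · exact Or.inl hi3
        · refine Or.inr ?_
          exact Set.mem_iUnion₂.mpr ⟨a, ha, Set.mem_iUnion₂.mpr ⟨y, hy, hi1, hi2, hay⟩⟩
      refine Set.Countable.mono hsub ?_
      refine hQ.union ?_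
      refine (Set.to_countable _).biUnion fun a ha => ?_
      exact hQ'.biUnion fun γ _ => hJ2 a ha (some γ)
    by_contra hcon
    push Not at hcon
    apply hJ1
    refine hcount.mono ?_
    intro i hi
    refine ⟨hi, ?_⟩
    by_cases hQ : i ∈ Q
    · exact Or.inl hQ
    · obtain ⟨j, hj, hjQ⟩ := hcon i hi hQ
      rw [Finset.mem_eraseNone] at hj
      obtain ⟨a, ha, haj⟩ := Finset.mem_image.mp hj
      exact Or.inr ⟨a, Finset.mem_compl.mp ha, j, hjQ, haj⟩

end nf

lemma greedyF {Γ : Type u} {Y : Type v} {ι : Type w} (I : ι → Set Γ) (P : ι → Γ → Finset Y)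
    (hfree : ∀ a, ∀ Q : Set Γ, Q.Countable → ∀ Q' : Set Y, Q'.Countable →
      ∃ γ ∈ I a, γ ∉ Q ∧ ∀ i ∈ P a γ, i ∉ Q')
    {Q0 : Set Γ} (hQ0 : Q0.Countable) {Q1 : Set Y} (hQ1 : Q1.Countable) (E : Finset ι) :
    ∃ s : ι → Γ, (∀ a ∈ E, s a ∈ I a ∧ s a ∉ Q0 ∧ ∀ i ∈ P a (s a), i ∉ Q1) ∧
      (∀ a ∈ E, ∀ b ∈ E, a ≠ b → s a ≠ s b ∧ Disjoint (P a (s a)) (P b (s b))) := by
  classical
  induction E using Finset.induction_on with
  | empty =>
    exact ⟨fun a => (hfree a ∅ Set.countable_empty ∅ Set.countable_empty).choose, by simp, by simp⟩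
  | insert a E ha ih =>
    obtain ⟨s, hs1, hs2⟩ := ih
    let W : Finset Γ := E.image s
    let W' : Finset Y := E.biUnion fun b => P b (s b)
    obtain ⟨γ, hγI, hγQ, hγP⟩ := hfree a (Q0 ∪ (W : Set Γ)) (hQ0.union W.countable_toSet)
      (Q1 ∪ (W' : Set Y)) (hQ1.union W'.countable_toSet)
    have hne : ∀ b ∈ E, b ≠ a := fun b hb h => ha (h ▸ hb)
    have hold : ∀ b ∈ E, Function.update s a γ b = s b := fun b hb =>
      Function.update_of_ne (hne b hb) _ _
    have hW : ∀ b ∈ E, γ ≠ s b ∧ Disjoint (P a γ) (P b (s b)) := by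
      intro b hb
      constructor
      · rintro rfl
        refine hγQ (Or.inr ?_)
        exact Finset.mem_coe.mpr (Finset.mem_image_of_mem _ hb)
      · rw [Finset.disjoint_left]
        intro i hi hi'
        refine hγP i hi (Or.inr ?_)
        exact Finset.mem_coe.mpr (Finset.mem_biUnion.mpr ⟨b, hb, hi'⟩)
    refine ⟨Function.update s a γ, ?_, ?_⟩
    · intro b hb
      rcases Finset.mem_insert.mp hb with rfl | hb
      · rw [Function.update_self]
        exact ⟨hγI, fun h => hγQ (Or.inl h), fun i hi h => hγP i hi (Or.inl h)⟩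
      · rw [hold b hb]
        exact hs1 b hb
    · intro b hb c hc hbc
      rcases Finset.mem_insert.mp hb with hb' | hb' <;>
        rcases Finset.mem_insert.mp hc with hc' | hc'
      · exact absurd (hb'.trans hc'.symm) hbc
      · rw [hb', Function.update_self, hold c hc']
        exact hW c hc'
      · rw [hc', Function.update_self, hold b hb']
        exact ⟨(hW b hb').1.symm, (hW b hb').2.symm⟩
      · rw [hold b hb', hold c hc']
        exact hs2 b hb' c hc' hbc

section main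

variable {Γ : Type u} {Δ : Type v} {I : Type w} [TopologicalSpace Δ] [DiscreteTopology Δ]

/-- total variation of the patterns -/
noncomputable def Np (T : C(I → OnePoint Δ, ℝ) →L[ℝ] C(Ball Γ, ℝ)) (P : Finset Δ) (M : Finset I)
    (x : Ball Γ) : ℝ := ∑ w ∈ Pat P M, |T (ind P M w) x|

lemma Np_le (T : C(I → OnePoint Δ, ℝ) →L[ℝ] C(Ball Γ, ℝ)) (P : Finset Δ) (M : Finset I)
    (x : Ball Γ) : Np T P M x ≤ ‖T‖ := by
  have := sum_abs_le_norm T (Pat P M) (ind P M) (c := 1) (fun s hs => by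
    refine (ContinuousMap.norm_le _ zero_le_one).mpr fun ξ => ?_
    rw [sum_ind, Real.norm_eq_abs]
    exact hs _) x
  rwa [mul_one] at this

open Classical in
lemma T_ind (T : C(I → OnePoint Δ, ℝ) →L[ℝ] C(Ball Γ, ℝ)) {P P' : Finset Δ} {M M' : Finset I}
    (hP : P ⊆ P') (hM : M ⊆ M') (v : I → OnePoint Δ) (x : Ball Γ) :
    T (ind P M v) x = ∑ w ∈ Pat P' M' with red P M w = v, T (ind P' M' w) x := by
  rw [ind_eq_sum hP hM, map_sum, ContinuousMap.sum_apply]

lemma Np_mono (T : C(I → OnePoint Δ, ℝ) →L[ℝ] C(Ball Γ, ℝ)) {P P' : Finset Δ} {M M' : Finset I}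
    (hP : P ⊆ P') (hM : M ⊆ M') (x : Ball Γ) : Np T P M x ≤ Np T P' M' x := by
  classical
  unfold Np
  rw [← Finset.sum_fiberwise_of_maps_to (s := Pat P' M') (t := Pat P M)
    (g := fun w => red P M w) (fun w _ => red_mem P M w)]
  refine Finset.sum_le_sum fun v _ => ?_
  rw [T_ind T hP hM]
  exact Finset.abs_sum_le_sum_abs _ _

lemma exists_near_max (T : C(I → OnePoint Δ, ℝ) →L[ℝ] C(Ball Γ, ℝ)) {δ : ℝ} (hδ : 0 < δ) :
    ∃ (P : Finset Δ) (M : Finset I) (x₀ : Ball Γ) (F : Finset Γ), (∀ γ ∉ F, x₀.1 γ = 0) ∧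
      ∑ γ ∈ F, |x₀.1 γ| < 1 ∧ ∀ P' M' x, Np T P' M' x ≤ Np T P M x₀ + δ := by
  let V : Set ℝ := {r | ∃ P M x, Np T P M x = r}
  have hVne : V.Nonempty := ⟨_, ∅, ∅, ⟨fun _ => 0, fun F => by simp⟩, rfl⟩
  have hVb : BddAbove V := ⟨‖T‖, by
    rintro r ⟨P, M, x, rfl⟩
    exact Np_le T P M x⟩
  obtain ⟨r, ⟨P, M, x, rfl⟩, hr⟩ := exists_lt_of_lt_csSup hVne (sub_lt_self (sSup V) hδ)
  let h : C(Ball Γ, ℝ) := ⟨fun x => Np T P M x, by
    unfold Np
    exact continuous_finsetSum _ fun w _ => (T (ind P M w)).continuous.abs⟩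
  obtain ⟨x₀, F, h1, h2, h3⟩ := exists_inner h x (c := sSup V - δ) hr
  refine ⟨P, M, x₀, F, h1, h2, fun P' M' x' => ?_⟩
  have h4 : Np T P' M' x' ≤ sSup V := le_csSup hVb ⟨P', M', x', rfl⟩
  have h5 : sSup V - δ < Np T P M x₀ := h3
  linarith

lemma key (T : C(I → OnePoint Δ, ℝ) →L[ℝ] C(Ball Γ, ℝ)) {P₀ P : Finset Δ} (hP : P₀ ⊆ P)
    {M₀ M : Finset I} (hM : M₀ ⊆ M)
    {x₀ x : Ball Γ} {δ θ c ρ : ℝ} (f : C(I → OnePoint Δ, ℝ))
    (hx : ∀ v ∈ Pat P₀ M₀, T (ind P₀ M₀ v) x = T (ind P₀ M₀ v) x₀)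
    (hf : ∀ ξ, |f ξ - f (red P M ξ)| ≤ θ) (hTf : T f x = ρ)
    (U : (I → OnePoint Δ) → ℝ) (hU : ∀ w ∈ Pat P M, |f w| ≤ U (red P₀ M₀ w))
    (hUc : ∀ v ∈ Pat P₀ M₀, U v ≤ c) (hc : 0 ≤ c)
    (hN : Np T P M x ≤ Np T P₀ M₀ x₀ + δ) :
    ρ - ‖T‖ * θ - c * δ ≤ ∑ v ∈ Pat P₀ M₀, U v * |T (ind P₀ M₀ v) x₀| := by
  classical
  have hθ : 0 ≤ θ := (abs_nonneg _).trans (hf (fun _ => OnePoint.infty))
  let f' : C(I → OnePoint Δ, ℝ) := ∑ w ∈ Pat P M, f w • ind P M w
  have h1 : ‖f - f'‖ ≤ θ := by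
    refine (ContinuousMap.norm_le _ hθ).mpr fun ξ => ?_
    rw [ContinuousMap.sub_apply, Real.norm_eq_abs]
    simp only [f']
    rw [sum_ind P M (fun w => f w)]
    exact hf ξ
  have h2 : |T (f - f') x| ≤ ‖T‖ * θ := abs_apply_le_norm T _ x h1
  have h3 : T f' x = ∑ w ∈ Pat P M, f w * T (ind P M w) x := by
    simp only [f']
    rw [map_sum, ContinuousMap.sum_apply]
    refine Finset.sum_congr rfl fun w _ => ?_
    rw [map_smul, ContinuousMap.smul_apply, smul_eq_mul]
  have h4 : T f' x ≤ ∑ w ∈ Pat P M, U (red P₀ M₀ w) * |T (ind P M w) x| := by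
    rw [h3]
    refine Finset.sum_le_sum fun w hw => ?_
    calc f w * T (ind P M w) x ≤ |f w * T (ind P M w) x| := le_abs_self _
      _ = |f w| * |T (ind P M w) x| := abs_mul _ _
      _ ≤ U (red P₀ M₀ w) * |T (ind P M w) x| :=
        mul_le_mul_of_nonneg_right (hU w hw) (abs_nonneg _)
  have h5 : ∑ w ∈ Pat P M, U (red P₀ M₀ w) * |T (ind P M w) x| =
      ∑ v ∈ Pat P₀ M₀, U v * ∑ w ∈ Pat P M with red P₀ M₀ w = v, |T (ind P M w) x| := by
    rw [← Finset.sum_fiberwise_of_maps_to (t := Pat P₀ M₀) (fun w _ => red_mem P₀ M₀ w)]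
    refine Finset.sum_congr rfl fun v _ => ?_
    rw [Finset.mul_sum]
    refine Finset.sum_congr rfl fun w hw => ?_
    rw [(Finset.mem_filter.mp hw).2]
  have h6 : ∑ v ∈ Pat P₀ M₀, (∑ w ∈ Pat P M with red P₀ M₀ w = v, |T (ind P M w) x|) =
      Np T P M x := by
    unfold Np
    exact Finset.sum_fiberwise_of_maps_to (fun w _ => red_mem P₀ M₀ w) _
  have h7 : ∀ v ∈ Pat P₀ M₀, |T (ind P₀ M₀ v) x₀| ≤
      ∑ w ∈ Pat P M with red P₀ M₀ w = v, |T (ind P M w) x| := by
    intro v hv
    rw [← hx v hv, T_ind T hP hM]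
    exact Finset.abs_sum_le_sum_abs _ _
  have h8 : ∑ v ∈ Pat P₀ M₀, U v * (∑ w ∈ Pat P M with red P₀ M₀ w = v, |T (ind P M w) x|) ≤
      ∑ v ∈ Pat P₀ M₀, U v * |T (ind P₀ M₀ v) x₀| + c * δ := by
    have h9 : ∑ v ∈ Pat P₀ M₀, U v * (∑ w ∈ Pat P M with red P₀ M₀ w = v, |T (ind P M w) x|) ≤
        ∑ v ∈ Pat P₀ M₀, (U v * |T (ind P₀ M₀ v) x₀| +
          c * ((∑ w ∈ Pat P M with red P₀ M₀ w = v, |T (ind P M w) x|) -
            |T (ind P₀ M₀ v) x₀|)) := by
      refine Finset.sum_le_sum fun v hv => ?_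
      have h10 := h7 v hv
      have h11 := hUc v hv
      nlinarith
    rw [Finset.sum_add_distrib, ← Finset.mul_sum, Finset.sum_sub_distrib, h6] at h9
    have h12 : Np T P M x - ∑ v ∈ Pat P₀ M₀, |T (ind P₀ M₀ v) x₀| ≤ δ := by
      have : Np T P₀ M₀ x₀ = ∑ v ∈ Pat P₀ M₀, |T (ind P₀ M₀ v) x₀| := rfl
      linarith
    have h13 := mul_le_mul_of_nonneg_left h12 hc
    linarith
  have h14 : T (f - f') x = ρ - T f' x := by
    rw [map_sub, ContinuousMap.sub_apply, hTf]
  rw [h14, abs_le] at h2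
  linarith [h2.2]

/-- `C(B(Γ))` is not isomorphic to a complemented subspace of `C(A(Δ)^I)`. -/
theorem no_compl [Uncountable Γ] (S : C(Ball Γ, ℝ) →L[ℝ] C(I → OnePoint Δ, ℝ))
    (T : C(I → OnePoint Δ, ℝ) →L[ℝ] C(Ball Γ, ℝ)) (hTS : ∀ f, T (S f) = f) : False := by
  classical
  set KT := ‖T‖ + 1 with hKTdef
  set KS := ‖S‖ + 1 with hKSdef
  have hT0 : 0 ≤ ‖T‖ := T.opNorm_nonneg
  have hS0 : 0 ≤ ‖S‖ := S.opNorm_nonneg
  have hKT : 0 < KT := by linarith
  have hKS : 0 < KS := by linarith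
  set δ := 1 / (4 * KS) with hδdef
  have hδ : 0 < δ := by positivity
  obtain ⟨P1, M1, x0, F0, hx0F, hx0s, hmax⟩ := exists_near_max T hδ
  set ρ := 1 - ∑ γ ∈ F0, |x0.1 γ| with hρdef
  have hρ : 0 < ρ := by linarith
  set θ := ρ / (16 * KT) with hθdef
  have hθ : 0 < θ := by positivity
  have hn : ∀ m : ℕ, ∃ n : ℕ, 0 < n ∧ 2 * ‖S‖ * ρ * m ≤ θ * n := by
    intro m
    obtain ⟨n, hn⟩ := exists_nat_gt (2 * ‖S‖ * ρ * m / θ)
    rw [div_lt_iff₀ hθ] at hn
    refine ⟨n + 1, Nat.succ_pos n, ?_⟩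
    push_cast
    nlinarith
  choose n hn0 hn using hn
  have hd : ∀ m : Finset I,
      Nonempty (NFA (fun γ => S (uf (ρ / n m.card) γ)) (θ / n m.card)) := fun m =>
    exists_NFA _ (div_pos hθ (by exact_mod_cast hn0 m.card))
  let d := fun m => Classical.choice (hd m)
  let Ms : ℕ → Finset I := fun l => Nat.rec ∅ (fun _ m => (d m).Z.toRight ∪ m) l
  have hMs : ∀ l, Ms (l + 1) = (d (Ms l)).Z.toRight ∪ Ms l := fun l => rfl
  have hMsmono : Monotone Ms := monotone_nat_of_le_succ fun l => by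
    rw [hMs]; exact Finset.subset_union_right
  obtain ⟨L, hL⟩ := exists_nat_gt (8 * KT * KS / (3 * ρ))
  have hL0 : (0 : ℝ) < L := lt_trans (by positivity) hL
  let P0 : Finset Δ := P1 ∪ (Finset.range L).biUnion fun l => (d (Ms l)).Z.toLeft
  let M : Finset I := M1 ∪ Ms L
  let N : ℕ → ℕ := fun l => n (Ms l).card
  have hN0 : ∀ l, (0 : ℝ) < N l := fun l => by exact_mod_cast hn0 (Ms l).card
  let K := (Finset.range L).sup N
  have hK : ∀ l < L, N l ≤ K := fun l hl => Finset.le_sup (f := N) (Finset.mem_range.mpr hl)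
  choose Qv hQvc hQv using fun v => exists_countable_support (T (ind P0 M v))
  let Q0 : Set Γ := (F0 : Set Γ) ∪ ⋃ v ∈ (Pat P0 M : Set (I → OnePoint Δ)), Qv v
  have hQ0 : Q0.Countable := (Finset.countable_toSet _).union
    ((Pat P0 M).countable_toSet.biUnion fun v _ => hQvc v)
  let Q1 : Set (Δ ⊕ I) := ((P0.disjSum M : Finset (Δ ⊕ I)) : Set (Δ ⊕ I))
  have hQ1 : Q1.Countable := Finset.countable_toSet _
  obtain ⟨s, hs1, hs2⟩ := greedyF (ι := ℕ × ℕ) (fun a => (d (Ms a.1)).G) (fun a => (d (Ms a.1)).V)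
    (fun a => (d (Ms a.1)).free) hQ0 hQ1 (Finset.range L ×ˢ Finset.range K)
  have hmemE : ∀ l < L, ∀ j < N l, (l, j) ∈ Finset.range L ×ˢ Finset.range K := fun l hl j hj =>
    Finset.mem_product.mpr ⟨Finset.mem_range.mpr hl, Finset.mem_range.mpr (hj.trans_le (hK l hl))⟩
  have hsI : ∀ l < L, ∀ j < N l, s (l, j) ∈ (d (Ms l)).G := fun l hl j hj =>
    (hs1 _ (hmemE l hl j hj)).1
  have hsQ : ∀ l < L, ∀ j < N l, s (l, j) ∉ Q0 := fun l hl j hj =>
    (hs1 _ (hmemE l hl j hj)).2.1
  have hsM : ∀ l < L, ∀ j < N l, ∀ k ∈ ((d (Ms l)).V (s (l, j))).toRight, k ∉ M :=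
    fun l hl j hj k hk hk' => (hs1 _ (hmemE l hl j hj)).2.2 (Sum.inr k)
      (Finset.mem_toRight.mp hk) (Finset.mem_coe.mpr (Finset.inr_mem_disjSum.mpr hk'))
  have hsne : ∀ l < L, ∀ j < N l, ∀ l' < L, ∀ j' < N l', (l, j) ≠ (l', j') →
      s (l, j) ≠ s (l', j') ∧
        Disjoint ((d (Ms l)).V (s (l, j))) ((d (Ms l')).V (s (l', j'))) :=
    fun l hl j hj l' hl' j' hj' hne => hs2 _ (hmemE l hl j hj) _ (hmemE l' hl' j' hj') hne
  let D : ℕ → Finset Γ := fun l => (Finset.range (N l)).image fun j => s (l, j)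
  have hsinj : ∀ l < L, Set.InjOn (fun j => s (l, j)) (Finset.range (N l)) := by
    intro l hl j hj j' hj' h
    by_contra hne
    exact (hsne l hl j (Finset.mem_range.mp hj) l hl j' (Finset.mem_range.mp hj')
      (fun h => hne (Prod.ext_iff.mp h).2)).1 h
  have hDQ : ∀ l < L, ∀ γ ∈ D l, γ ∉ Q0 := by
    intro l hl γ hγ
    obtain ⟨j, hj, rfl⟩ := Finset.mem_image.mp hγ
    exact hsQ l hl j (Finset.mem_range.mp hj)
  have hDcard : ∀ l < L, (D l).card = N l := by
    intro l hl
    rw [Finset.card_image_of_injOn (hsinj l hl), Finset.card_range]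
  have hDdisj : Set.PairwiseDisjoint (↑(Finset.range L) : Set ℕ) D := by
    intro l hl l' hl' hne
    have hlL : l < L := by simpa using hl
    have hlL' : l' < L := by simpa using hl'
    rw [Function.onFun, Finset.disjoint_left]
    intro γ hγ hγ'
    obtain ⟨j, hj, rfl⟩ := Finset.mem_image.mp hγ
    obtain ⟨j', hj', h⟩ := Finset.mem_image.mp hγ'
    exact (hsne l hlL j (Finset.mem_range.mp hj) l' hlL' j' (Finset.mem_range.mp hj')
      (fun h => hne (Prod.ext_iff.mp h).1)).1 h.symm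
  let e : ℕ → C(Ball Γ, ℝ) := fun l => ∑ j ∈ Finset.range (N l), uf (ρ / N l) (s (l, j))
  let f : ℕ → C(I → OnePoint Δ, ℝ) := fun l => S (e l)
  let Pl : ℕ → Finset Δ := fun l =>
    P0 ∪ (Finset.range (N l)).biUnion fun j => ((d (Ms l)).V (s (l, j))).toLeft
  let Ml : ℕ → Finset I := fun l =>
    M ∪ (Finset.range (N l)).biUnion fun j => ((d (Ms l)).V (s (l, j))).toRight
  have hP0Pl : ∀ l, P0 ⊆ Pl l := fun l => Finset.subset_union_left
  have hMMl : ∀ l, M ⊆ Ml l := fun l => Finset.subset_union_left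
  have hfsum : ∀ l ξ, f l ξ = ∑ j ∈ Finset.range (N l), S (uf (ρ / N l) (s (l, j))) ξ := by
    intro l ξ
    simp only [f, e]
    rw [map_sum, ContinuousMap.sum_apply]
  have hufn : ∀ l (γ : Γ), ‖uf (ρ / N l) γ‖ ≤ ρ / N l := by
    intro l γ
    have h0 : 0 ≤ ρ / N l := (div_pos hρ (hN0 l)).le
    refine (ContinuousMap.norm_le _ h0).mpr fun x => ?_
    rw [uf_apply, Real.norm_eq_abs, abs_of_nonneg (le_min (abs_nonneg _) h0)]
    exact min_le_right _ _
  have hSuf : ∀ l γ ξ, |S (uf (ρ / N l) γ) ξ| ≤ ‖S‖ * (ρ / N l) := fun l γ ξ =>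
    abs_apply_le_norm S _ ξ (hufn l γ)
  -- F4
  have hfb : ∀ l ξ, |f l ξ| ≤ KS * ρ := by
    intro l ξ
    rw [hfsum]
    calc |∑ j ∈ Finset.range (N l), S (uf (ρ / N l) (s (l, j))) ξ|
        ≤ ∑ j ∈ Finset.range (N l), |S (uf (ρ / N l) (s (l, j))) ξ| :=
          Finset.abs_sum_le_sum_abs _ _
      _ ≤ ∑ _j ∈ Finset.range (N l), ‖S‖ * (ρ / N l) :=
          Finset.sum_le_sum fun j _ => hSuf l _ ξ
      _ = ‖S‖ * ρ := by
          rw [Finset.sum_const, Finset.card_range, nsmul_eq_mul]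
          have := (hN0 l).ne'
          field_simp
      _ ≤ KS * ρ := mul_le_mul_of_nonneg_right (by linarith) hρ.le
  -- F5
  have hesum : ∀ x : Ball Γ, ∑ l ∈ Finset.range L, |e l x| ≤ 1 := by
    intro x
    calc ∑ l ∈ Finset.range L, |e l x| ≤ ∑ l ∈ Finset.range L, ∑ γ ∈ D l, |x.1 γ| := by
          refine Finset.sum_le_sum fun l hl => ?_
          have hlL := Finset.mem_range.mp hl
          simp only [e, D]
          rw [ContinuousMap.sum_apply, Finset.sum_image (hsinj l hlL)]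
          refine (Finset.abs_sum_le_sum_abs _ _).trans (Finset.sum_le_sum fun j _ => ?_)
          rw [uf_apply, abs_of_nonneg (le_min (abs_nonneg _) (div_pos hρ (hN0 l)).le)]
          exact min_le_left _ _
      _ = ∑ γ ∈ (Finset.range L).biUnion D, |x.1 γ| := (Finset.sum_biUnion hDdisj).symm
      _ ≤ 1 := x.2 _
  have hfL : ∀ ξ, ∑ l ∈ Finset.range L, |f l ξ| ≤ ‖S‖ := by
    intro ξ
    have := sum_abs_le_norm S (Finset.range L) e (c := 1) (fun r hr => by
      refine (ContinuousMap.norm_le _ zero_le_one).mpr fun x => ?_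
      rw [ContinuousMap.sum_apply, Real.norm_eq_abs]
      refine (Finset.abs_sum_le_sum_abs _ _).trans (le_trans ?_ (hesum x))
      refine Finset.sum_le_sum fun l _ => ?_
      rw [ContinuousMap.smul_apply, smul_eq_mul, abs_mul]
      exact mul_le_of_le_one_left (abs_nonneg _) (hr l)) ξ
    rwa [mul_one] at this
  -- F3
  have hfsupp : ∀ l < L, ∀ ξ ξ', red (Pl l) (Ml l) ξ = red (Pl l) (Ml l) ξ' →
      |f l ξ - f l ξ'| ≤ θ := by
    intro l hl ξ ξ' h
    rw [hfsum, hfsum, ← Finset.sum_sub_distrib]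
    calc |∑ j ∈ Finset.range (N l), (S (uf (ρ / N l) (s (l, j))) ξ -
          S (uf (ρ / N l) (s (l, j))) ξ')|
        ≤ ∑ j ∈ Finset.range (N l), |S (uf (ρ / N l) (s (l, j))) ξ -
          S (uf (ρ / N l) (s (l, j))) ξ'| := Finset.abs_sum_le_sum_abs _ _
      _ ≤ ∑ _j ∈ Finset.range (N l), θ / N l := by
          refine Finset.sum_le_sum fun j hj => ?_
          refine (d (Ms l)).supp _ (hsI l hl j (Finset.mem_range.mp hj)) (Pl l) ?_ ?_ (Ml l) ?_ ?_
            ξ ξ' h
          · refine Finset.Subset.trans ?_ (hP0Pl l)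
            refine Finset.Subset.trans ?_ Finset.subset_union_right
            exact Finset.subset_biUnion_of_mem (fun l => (d (Ms l)).Z.toLeft)
              (Finset.mem_range.mpr hl)
          · refine Finset.Subset.trans ?_ Finset.subset_union_right
            exact Finset.subset_biUnion_of_mem (fun j => ((d (Ms l)).V (s (l, j))).toLeft) hj
          · refine Finset.Subset.trans ?_ (hMMl l)
            refine Finset.Subset.trans ?_ Finset.subset_union_right
            refine Finset.Subset.trans ?_ (hMsmono (Nat.succ_le_of_lt hl))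
            rw [hMs]
            exact Finset.subset_union_left
          · refine Finset.Subset.trans ?_ Finset.subset_union_right
            exact Finset.subset_biUnion_of_mem (fun j => ((d (Ms l)).V (s (l, j))).toRight) hj
      _ = θ := by
          rw [Finset.sum_const, Finset.card_range, nsmul_eq_mul]
          have := (hN0 l).ne'
          field_simp
  -- the points
  have hx0D : ∀ l < L, ∀ γ ∈ D l, x0.1 γ = 0 := by
    intro l hl γ hγ
    refine hx0F γ fun h => hDQ l hl γ hγ (Or.inl ?_)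
    exact Finset.mem_coe.mpr h
  have hx0sum : ∀ F : Finset Γ, ∑ γ ∈ F, |x0.1 γ| ≤ 1 - ρ := by
    intro F
    have h1 : ∑ γ ∈ F, |x0.1 γ| ≤ ∑ γ ∈ F ∪ F0, |x0.1 γ| :=
      Finset.sum_le_sum_of_subset_of_nonneg Finset.subset_union_left fun _ _ _ => abs_nonneg _
    have h2 : ∑ γ ∈ F0, |x0.1 γ| = ∑ γ ∈ F ∪ F0, |x0.1 γ| := by
      refine Finset.sum_subset Finset.subset_union_right fun γ _ hγ => ?_
      rw [hx0F γ hγ, abs_zero]
    rw [hρdef]
    linarith
  have hxmem : ∀ l, l < L → (fun γ => if γ ∈ D l then ρ / N l else x0.1 γ) ∈ Ball Γ := by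
    intro l hl F
    have h1 : ∀ γ ∈ F, |if γ ∈ D l then ρ / N l else x0.1 γ| =
        (if γ ∈ D l then ρ / N l else 0) + |x0.1 γ| := by
      intro γ _
      split_ifs with h
      · rw [hx0D l hl γ h, abs_zero, add_zero, abs_of_nonneg (div_pos hρ (hN0 l)).le]
      · rw [zero_add]
    rw [Finset.sum_congr rfl h1, Finset.sum_add_distrib]
    have h2 : ∑ γ ∈ F, (if γ ∈ D l then ρ / N l else 0) ≤ ρ := by
      rw [← Finset.sum_filter]
      calc ∑ γ ∈ F with γ ∈ D l, ρ / N l ≤ ∑ γ ∈ D l, ρ / N l := by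
            refine Finset.sum_le_sum_of_subset_of_nonneg ?_ fun _ _ _ =>
              (div_pos hρ (hN0 l)).le
            intro γ hγ
            exact (Finset.mem_filter.mp hγ).2
        _ = ρ := by
            rw [Finset.sum_const, hDcard l hl, nsmul_eq_mul]
            have := (hN0 l).ne'
            field_simp
    have h3 := hx0sum F
    linarith
  -- the maximal patterns
  have hW : ∀ l v, ∃ w, v ∈ Pat P0 M → (w ∈ Pat (Pl l) (Ml l) ∧ red P0 M w = v ∧
      ∀ w' ∈ Pat (Pl l) (Ml l), red P0 M w' = v → |f l w'| ≤ |f l w|) := by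
    intro l v
    by_cases hv : v ∈ Pat P0 M
    · have hne : ((Pat (Pl l) (Ml l)).filter fun w => red P0 M w = v).Nonempty := by
        refine ⟨red (Pl l) (Ml l) v, ?_⟩
        rw [Finset.mem_filter]
        refine ⟨red_mem _ _ _, ?_⟩
        rw [red_red (hP0Pl l) (hMMl l)]
        exact mem_Pat.mp hv
      obtain ⟨w, hw, hwm⟩ := Finset.exists_max_image _ (fun w => |f l w|) hne
      rw [Finset.mem_filter] at hw
      exact ⟨w, fun _ => ⟨hw.1, hw.2, fun w' h1 h2 => hwm w' (Finset.mem_filter.mpr ⟨h1, h2⟩)⟩⟩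
    · exact ⟨v, fun h => absurd h hv⟩
  choose W hW using hW
  have hkey : ∀ l < L, ρ / 2 ≤ ∑ v ∈ Pat P0 M, |f l (W l v)| * |T (ind P0 M v) x0| := by
    intro l hl
    have h1 := key T (hP0Pl l) (hMMl l) (x₀ := x0) (x := ⟨_, hxmem l hl⟩) (δ := δ) (θ := θ)
      (c := KS * ρ) (ρ := ρ) (f l)
      (fun v hv => by
        refine hQv v _ _ fun γ hγ => ?_
        have h2 : γ ∉ D l := fun h => hDQ l hl γ h
          (Or.inr (Set.mem_iUnion₂.mpr ⟨v, Finset.mem_coe.mpr hv, hγ⟩))
        simp only [if_neg h2])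
      (fun ξ => hfsupp l hl ξ _ (red_red (Finset.Subset.refl _) (Finset.Subset.refl _) ξ).symm)
      (by
        simp only [f]
        rw [hTS]
        simp only [e]
        rw [ContinuousMap.sum_apply]
        calc ∑ j ∈ Finset.range (N l), uf (ρ / N l) (s (l, j)) ⟨_, hxmem l hl⟩
            = ∑ _j ∈ Finset.range (N l), ρ / N l := by
              refine Finset.sum_congr rfl fun j hj => ?_
              have h2 : s (l, j) ∈ D l := Finset.mem_image_of_mem (fun j => s (l, j)) hj
              rw [uf_apply]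
              simp only [if_pos h2]
              rw [abs_of_nonneg (div_pos hρ (hN0 l)).le, min_self]
          _ = ρ := by
              rw [Finset.sum_const, Finset.card_range, nsmul_eq_mul]
              have := (hN0 l).ne'
              field_simp)
      (fun v => |f l (W l v)|)
      (fun w hw => (hW l _ (red_mem P0 M w)).2.2 w hw rfl)
      (fun v _ => hfb l _)
      (by positivity)
      (by
        refine (hmax _ _ _).trans ?_
        have := Np_mono T (P := P1) (P' := P0) (M := M1) (M' := M) Finset.subset_union_left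
          Finset.subset_union_left x0
        linarith)
    have h2 : ‖T‖ * θ ≤ ρ / 16 := by
      calc ‖T‖ * θ ≤ KT * θ := mul_le_mul_of_nonneg_right (by linarith) hθ.le
        _ = ρ / 16 := by rw [hθdef]; field_simp
    have h3 : KS * ρ * δ = ρ / 4 := by rw [hδdef]; field_simp
    linarith
  -- choose v
  have hv : ∃ v ∈ Pat P0 M, L * ρ / (2 * KT) ≤ ∑ l ∈ Finset.range L, |f l (W l v)| := by
    by_contra hcon
    push Not at hcon
    have h1 : L * (ρ / 2) ≤ ∑ l ∈ Finset.range L, ∑ v ∈ Pat P0 M,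
        |f l (W l v)| * |T (ind P0 M v) x0| := by
      calc (L : ℝ) * (ρ / 2) = ∑ _l ∈ Finset.range L, ρ / 2 := by
            rw [Finset.sum_const, Finset.card_range, nsmul_eq_mul]
        _ ≤ _ := Finset.sum_le_sum fun l hl => hkey l (Finset.mem_range.mp hl)
    rw [Finset.sum_comm] at h1
    have h2 : ∑ v ∈ Pat P0 M, ∑ l ∈ Finset.range L, |f l (W l v)| * |T (ind P0 M v) x0| ≤
        L * ρ / (2 * KT) * ‖T‖ := by
      calc ∑ v ∈ Pat P0 M, ∑ l ∈ Finset.range L, |f l (W l v)| * |T (ind P0 M v) x0|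
          ≤ ∑ v ∈ Pat P0 M, L * ρ / (2 * KT) * |T (ind P0 M v) x0| := by
            refine Finset.sum_le_sum fun v hv => ?_
            rw [← Finset.sum_mul]
            exact mul_le_mul_of_nonneg_right (hcon v hv).le (abs_nonneg _)
        _ = L * ρ / (2 * KT) * Np T P0 M x0 := by rw [← Finset.mul_sum]; rfl
        _ ≤ L * ρ / (2 * KT) * ‖T‖ :=
            mul_le_mul_of_nonneg_left (Np_le T _ _ _) (by positivity)
    have h3 : L * ρ / (2 * KT) * ‖T‖ < L * (ρ / 2) := by
      calc L * ρ / (2 * KT) * ‖T‖ < L * ρ / (2 * KT) * KT :=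
            mul_lt_mul_of_pos_left (by linarith) (by positivity)
        _ = L * (ρ / 2) := by field_simp
    linarith
  obtain ⟨v, hvP, hv⟩ := hv
  -- the merged point
  let ξ : I → OnePoint Δ := fun k =>
    if h : ∃ l, l < L ∧ k ∈ Ms (l + 1) then W (Nat.find h) v k
    else if h : ∃ a : ℕ × ℕ, a.1 < L ∧ a.2 < N a.1 ∧ k ∈ ((d (Ms a.1)).V (s a)).toRight then
      W (Classical.choose h).1 v k else OnePoint.infty
  have hmerge : ∀ l < L, |f l (W l v)| ≤ |f l ξ| + 2 * θ := by
    intro l hl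
    obtain ⟨hw1, hw2, -⟩ := hW l v hvP
    have hMsM : ∀ l' < L, Ms (l' + 1) ⊆ M := fun l' hl' =>
      (hMsmono (Nat.succ_le_of_lt hl')).trans Finset.subset_union_right
    -- disturbed indices
    let Dist : Finset ℕ := (Finset.range (N l)).filter fun j =>
      ∃ k ∈ Ms l, ∃ i ∈ ((d (Ms l)).V (s (l, j))).toLeft, W l v k = (i : OnePoint Δ)
    have hcard : Dist.card ≤ (Ms l).card := by
      have hsub : Dist ⊆ (Ms l).biUnion fun k => (Finset.range (N l)).filter fun j =>
          ∃ i ∈ ((d (Ms l)).V (s (l, j))).toLeft, W l v k = (i : OnePoint Δ) := by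
        intro j hj
        obtain ⟨hj1, k, hk, hk2⟩ := Finset.mem_filter.mp hj
        exact Finset.mem_biUnion.mpr ⟨k, hk, Finset.mem_filter.mpr ⟨hj1, hk2⟩⟩
      refine (Finset.card_le_card hsub).trans ?_
      refine (Finset.card_biUnion_le_card_mul _ _ 1 fun k _ => ?_).trans (by simp)
      refine Finset.card_le_one.mpr fun j hj j' hj' => ?_
      obtain ⟨hj1, i, hi, hki⟩ := Finset.mem_filter.mp hj
      obtain ⟨hj1', i', hi', hki'⟩ := Finset.mem_filter.mp hj'
      have hii : i = i' := OnePoint.coe_injective (hki.symm.trans hki')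
      by_contra hne
      have := (hsne l hl j (Finset.mem_range.mp hj1) l hl j' (Finset.mem_range.mp hj1')
        (fun h => hne (Prod.ext_iff.mp h).2)).2
      rw [Finset.disjoint_left] at this
      exact this (Finset.mem_toLeft.mp hi) (Finset.mem_toLeft.mp (hii ▸ hi'))
    have hgood : ∀ j ∈ Finset.range (N l), j ∉ Dist →
        |S (uf (ρ / N l) (s (l, j))) ξ - S (uf (ρ / N l) (s (l, j))) (W l v)| ≤ θ / N l := by
      intro j hj hjD
      have hjN := Finset.mem_range.mp hj
      refine (d (Ms l)).supp _ (hsI l hl j hjN)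
        ((d (Ms l)).Z.toLeft ∪ ((d (Ms l)).V (s (l, j))).toLeft)
        Finset.subset_union_left Finset.subset_union_right
        (Ms (l + 1) ∪ ((d (Ms l)).V (s (l, j))).toRight) ?_ Finset.subset_union_right ξ (W l v) ?_
      · rw [hMs]; exact Finset.subset_union_left.trans Finset.subset_union_left
      rw [red_eq_iff]
      intro k hk i hi
      by_cases hkM : k ∈ Ms (l + 1)
      · have hex : ∃ l, l < L ∧ k ∈ Ms (l + 1) := ⟨l, hl, hkM⟩
        have hξk : ξ k = W (Nat.find hex) v k := dif_pos hex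
        have hfind1 : Nat.find hex ≤ l := Nat.find_min' hex ⟨hl, hkM⟩
        have hfind2 : k ∈ Ms (Nat.find hex + 1) := (Nat.find_spec hex).2
        rw [hξk]
        rcases hfind1.eq_or_lt with heq | hlt
        · rw [heq]
        · have hl0L : Nat.find hex < L := hlt.trans hl
          obtain ⟨hw1', hw2', -⟩ := hW (Nat.find hex) v hvP
          have hkMsl : k ∈ Ms l := (hMsmono (Nat.succ_le_of_lt hlt)) hfind2
          by_cases hiP0 : i ∈ P0
          · have h1 : red P0 M (W (Nat.find hex) v) = red P0 M (W l v) := by rw [hw2, hw2']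
            exact red_eq_iff.mp h1 k (hMsM l hl hkM) i hiP0
          · have hiP : i ∈ ((d (Ms l)).V (s (l, j))).toLeft := by
              rcases Finset.mem_union.mp hi with h | h
              · exfalso
                apply hiP0
                refine Finset.mem_union_right _ ?_
                exact Finset.mem_biUnion.mpr ⟨l, Finset.mem_range.mpr hl, h⟩
              · exact h
            constructor
            · intro h
              exfalso
              have h1 : i ∈ Pl (Nat.find hex) := mem_of_mem_Pat hw1' h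
              rcases Finset.mem_union.mp h1 with h2 | h2
              · exact hiP0 h2
              · obtain ⟨j', hj', hij'⟩ := Finset.mem_biUnion.mp h2
                have h3 := (hsne l hl j hjN (Nat.find hex) hl0L j' (Finset.mem_range.mp hj')
                  (fun h => hlt.ne' (Prod.ext_iff.mp h).1)).2
                rw [Finset.disjoint_left] at h3
                exact h3 (Finset.mem_toLeft.mp hiP) (Finset.mem_toLeft.mp hij')
            · intro h
              exfalso
              exact hjD (Finset.mem_filter.mpr ⟨hj, k, hkMsl, i, hiP, h⟩)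
      · have hkV : k ∈ ((d (Ms l)).V (s (l, j))).toRight := by
          rcases Finset.mem_union.mp hk with h | h
          · exact absurd h hkM
          · exact h
        have hnex : ¬ ∃ l, l < L ∧ k ∈ Ms (l + 1) := by
          rintro ⟨l', hl', hk'⟩
          exact hsM l hl j hjN k hkV (hMsM l' hl' hk')
        have hex : ∃ a : ℕ × ℕ, a.1 < L ∧ a.2 < N a.1 ∧
            k ∈ ((d (Ms a.1)).V (s a)).toRight := ⟨(l, j), hl, hjN, hkV⟩
        have hξk : ξ k = W (Classical.choose hex).1 v k := (dif_neg hnex).trans (dif_pos hex)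
        have hc := Classical.choose_spec hex
        have hceq : Classical.choose hex = (l, j) := by
          by_contra hne
          have h3 := (hsne l hl j hjN (Classical.choose hex).1 hc.1 (Classical.choose hex).2
            hc.2.1 (fun h => hne h.symm)).2
          rw [Finset.disjoint_left] at h3
          exact h3 (Finset.mem_toRight.mp hkV) (Finset.mem_toRight.mp hc.2.2)
        rw [hξk, hceq]
    have hdiff : |f l ξ - f l (W l v)| ≤ 2 * θ := by
      rw [hfsum, hfsum, ← Finset.sum_sub_distrib]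
      calc |∑ j ∈ Finset.range (N l), (S (uf (ρ / N l) (s (l, j))) ξ -
            S (uf (ρ / N l) (s (l, j))) (W l v))|
          ≤ ∑ j ∈ Finset.range (N l), |S (uf (ρ / N l) (s (l, j))) ξ -
            S (uf (ρ / N l) (s (l, j))) (W l v)| := Finset.abs_sum_le_sum_abs _ _
        _ ≤ ∑ j ∈ Finset.range (N l), (θ / N l + if j ∈ Dist then 2 * (‖S‖ * (ρ / N l)) else 0) := by
            refine Finset.sum_le_sum fun j hj => ?_
            split_ifs with h
            · have h1 := hSuf l (s (l, j)) ξ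
              have h2 := hSuf l (s (l, j)) (W l v)
              have h3 := abs_sub (S (uf (ρ / N l) (s (l, j))) ξ)
                (S (uf (ρ / N l) (s (l, j))) (W l v))
              have h4 : 0 ≤ θ / N l := (div_pos hθ (hN0 l)).le
              linarith
            · rw [add_zero]
              exact hgood j hj h
        _ = θ + Dist.card * (2 * (‖S‖ * (ρ / N l))) := by
            rw [Finset.sum_add_distrib, Finset.sum_const, Finset.card_range, nsmul_eq_mul,
              ← Finset.sum_filter, Finset.sum_const, nsmul_eq_mul]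
            congr 1
            · have := (hN0 l).ne'
              field_simp
            · congr 3
              ext j
              simp only [Dist, Finset.mem_filter]
              tauto
        _ ≤ θ + θ := by
            have h1 : (Dist.card : ℝ) ≤ (Ms l).card := by exact_mod_cast hcard
            have h2 : (Dist.card : ℝ) * (2 * (‖S‖ * (ρ / N l))) ≤
                (Ms l).card * (2 * (‖S‖ * (ρ / N l))) :=
              mul_le_mul_of_nonneg_right h1 (by positivity)
            have h3 : (Ms l).card * (2 * (‖S‖ * (ρ / N l))) ≤ θ := by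
              have h4 := hn (Ms l).card
              have h5 : (Ms l).card * (2 * (‖S‖ * (ρ / N l))) =
                2 * ‖S‖ * ρ * (Ms l).card / N l := by ring
              rw [h5, div_le_iff₀ (hN0 l)]
              exact h4
            linarith
        _ = 2 * θ := by ring
    have h1 := abs_sub_abs_le_abs_sub (f l (W l v)) (f l ξ)
    rw [abs_sub_comm] at hdiff
    linarith
  -- conclusion
  have h1 := hfL ξ
  have h2 : L * ρ / (2 * KT) ≤ ∑ l ∈ Finset.range L, (|f l ξ| + 2 * θ) :=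
    hv.trans (Finset.sum_le_sum fun l hl => hmerge l (Finset.mem_range.mp hl))
  rw [Finset.sum_add_distrib, Finset.sum_const, Finset.card_range, nsmul_eq_mul] at h2
  have h3 : (L : ℝ) * (2 * θ) = L * ρ / (8 * KT) := by rw [hθdef]; field_simp; ring
  have h4 : L * ρ / (2 * KT) - L * ρ / (8 * KT) = 3 * (L * ρ) / (8 * KT) := by field_simp; ring
  have h5 : KS < 3 * (L * ρ) / (8 * KT) := by
    rw [lt_div_iff₀ (by positivity)]
    rw [div_lt_iff₀ (by positivity)] at hL
    linarith
  linarith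

end main
end Pool.Agent.Y486.ComplGen
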