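import Pool.Agent.Y486.Core4

/-!
# The core theorem
-/

set_option autoImplicit false

open scoped Manifold ContDiff Topology ComplexConjugate MatrixGroups UpperHalfPlane Matrix
open scoped ComplexOrder
open MeasureTheory Set Filter

namespace Pool.Agent.Y486

open Pool.Agent.W549.CY (Cn dz dzbar HermitianMetric chernRicci chernScalar)
open Pool.Agent.W711.KC (jj nn CG CG_far NN_pos jj_ne im_mob jj_mul nn_mul det_eq)
open Pool.Agent.TH598.KG (hf Cutoff d1 posDef_iff_hf)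
open Pool.Agent.TH997.KG (mob VV mob_mem mob_mul mob_one mob_inv_left mob_inv_right mob_coe
  hasDerivAt_mob isOpen_VV)
open Pool.Agent.TH997.CMan
open Complex (normSq)

theorem key (hloc : St_loc) (hMF : St_MF) {φ : ℂ → ℝ} (hφ : Cutoff CG φ) {a c : ℕ} (ha : 1 ≤ a)
    (hac : a < c) {P : Fin 2 → Cn 2 → ℝ} (hP : Wt a c P) (hpd : PD P) :
    ∃ M k₀ : ℝ, 1 ≤ k₀ ∧ ∀ k : ℕ, k₀ ≤ k → ∃ H : Fin 2 → Cn 2 → ℝ, Fn H ∧
      (∀ i, ∀ p ∈ UU, 0 ≤ H i p ∧ H i p ≤ a) ∧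
      Real.pi ^ 2 * WW φ * (a * (c - a)) - M / √k ≤
        II φ (fun i p => H i p * (sc P i p * (LL (P i) p).det.re)) := by
  obtain ⟨Kq, q, hKq, hq0, hq1, m₀, hfam⟩ := exists_fam hMF hφ
  obtain ⟨Cb, k₁, hCb, hk₁, hptw⟩ := ptw hloc hφ hP hpd
  set W := WW φ with hWdef
  have hW : 0 < W := WW_pos hφ
  have haR : (1 : ℝ) ≤ a := by exact_mod_cast ha
  have hacR : (a : ℝ) ≤ c := by exact_mod_cast hac.le
  have hac1 : (a : ℝ) + 1 ≤ c := by exact_mod_cast hac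
  set M1 : ℝ := 3 * (Cb * (W * (a * c - a ^ 2 / 2)) + W + Kq / (1 - q)) with hM1
  set M2 : ℝ := W * (a / 3) + a * (Kq / (1 - q)) with hM2
  have hq' : 0 < 1 - q := by linarith
  have hKq' : 0 ≤ Kq / (1 - q) := div_nonneg hKq hq'.le
  have hvol : (0 : ℝ) ≤ a * c - a ^ 2 / 2 := by nlinarith
  have hM10 : 0 ≤ M1 := by positivity
  have hM20 : 0 ≤ M2 := by positivity
  refine ⟨2 * Real.pi ^ 2 * M2 + 2 * (Cb * (Real.pi ^ 2 * W *
      ((a : ℝ) ^ 2 * c / 2 - (a : ℝ) ^ 3 / 6)) + (2 * Real.pi ^ 2 * a * M1) +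
      Cb * (2 * Real.pi ^ 2 * a * M1)), max k₁ m₀, hk₁.trans (le_max_left _ _), fun k hk => ?_⟩
  have hkk₁ : k₁ ≤ k := (le_max_left _ _).trans hk
  have hkm : m₀ ≤ k := by exact_mod_cast (le_max_right _ _).trans hk
  have hk1R : (1 : ℝ) ≤ k := hk₁.trans hkk₁
  have hk1 : 1 ≤ k := by exact_mod_cast hk1R
  have hk0 : (0 : ℝ) < k := by linarith
  have hAC : k * a ≤ k * c := Nat.mul_le_mul_left k hac.le
  have hm : m₀ ≤ k * c - k * a := by
    rw [← Nat.mul_sub]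
    refine hkm.trans ?_
    exact Nat.le_mul_of_pos_right k (Nat.sub_pos_of_lt hac)
  obtain ⟨n, F, hF, hn⟩ := hfam (k * a) (k * c) hAC hm
  have hA1 : 1 ≤ k * a := Nat.mul_pos hk1 ha
  obtain ⟨N, v, f, hs2, hon, hN, hv⟩ := exists_adapted hφ hA1 hAC hF (wt_k hP k) (dn_det hP)
    (fun i p hp => hpd.det_pos hP i hp)
  have hON : ON φ k (k * a) P f := hon
  have hs := hs2.sys
  obtain ⟨hB, hR, hD⟩ := hptw k hkk₁ N v f hs hON
  refine ⟨Hm k (k * a) v f, hs.fn_Hm, fun i p hp => hs.Hm_bds hk1 i hp, ?_⟩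
  -- numbers
  set r : ℝ := √k with hr
  have hr2 : r ^ 2 = k := Real.sq_sqrt hk0.le
  have hr1 : 1 ≤ r := by
    rw [hr]
    exact Real.one_le_sqrt.2 hk1R
  have hr0 : 0 < r := by linarith
  have hdD := dn_det hP
  have hfH := hs.fn_Hm
  have hHD := Dn.fn_mul hfH hdD
  have hHL := Dn.fn_mul hfH (dn_det (hs.wf.wt 0))
  have hdR := hs.dn_RR hP hpd Cb
  have hds := Dn.fn_mul (fn_sc hP hpd) hdD
  -- N and the sum of the orders
  have hNR : ((N : ℕ) : ℝ) = ∑ l : Fin (k * a + 1), (n l : ℝ) := by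
    rw [hN]
    push_cast
    rfl
  have hvR : ∑ ι, (v ι : ℝ) = ∑ l : Fin (k * a + 1), ((l : ℕ) : ℝ) * n l := by
    have h1 : ((∑ ι, v ι : ℕ) : ℝ) = ((∑ l : Fin (k * a + 1), (l : ℕ) * n l : ℕ) : ℝ) := by rw [hv]
    push_cast at h1
    exact h1
  have hNle := sum_N hKq hq0 hq1 hn
  have hvle := sum_v hKq hq0 hq1 hn
  rw [← hNR] at hNle
  rw [← hvR] at hvle
  push_cast at hNle hvle
  -- the first inequality
  have h1 : II φ (fun i p => Hm k (k * a) v f i p * (LL (P i) p).det.re) ≤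
      1 / (r ^ 2) ^ 2 * II φ (fun i p => Hm k (k * a) v f i p *
        (LL (uu (k * a) v f 0 i) p).det.re) +
      2 * Real.pi ^ 2 / (r ^ 2) ^ 2 * (a * II φ (RR Cb P k (k * a) v f)) := by
    rw [hr2]
    have e1 : 1 / (k : ℝ) ^ 2 * II φ (fun i p => Hm k (k * a) v f i p *
        (LL (uu (k * a) v f 0 i) p).det.re) +
      2 * Real.pi ^ 2 / (k : ℝ) ^ 2 * (a * II φ (RR Cb P k (k * a) v f)) =
      II φ (fun i p => 1 / (k : ℝ) ^ 2 * (Hm k (k * a) v f i p *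
        (LL (uu (k * a) v f 0 i) p).det.re) +
        2 * Real.pi ^ 2 / (k : ℝ) ^ 2 * a * RR Cb P k (k * a) v f i p) := by
      rw [II_add hφ (hHL.const_mul _) (hdR.const_mul _),
        II_const_mul φ (fun i p => Hm k (k * a) v f i p * (LL (uu (k * a) v f 0 i) p).det.re),
        II_const_mul]
      ring
    rw [e1]
    refine II_mono hφ hHD ((hHL.const_mul _).add (hdR.const_mul _)) fun p hp => ?_
    obtain ⟨hH0, hHa⟩ := hs.Hm_bds hk1 0 hp
    have h2 := mul_le_mul_of_nonneg_left (hD 0 p hp) hH0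
    have h3 : Hm k (k * a) v f 0 p * (2 * Real.pi ^ 2 / (k : ℝ) ^ 2 *
        RR Cb P k (k * a) v f 0 p) ≤ a * (2 * Real.pi ^ 2 / (k : ℝ) ^ 2 *
        RR Cb P k (k * a) v f 0 p) :=
      mul_le_mul_of_nonneg_right hHa (mul_nonneg (by positivity) (hR 0 p hp))
    calc Hm k (k * a) v f 0 p * (LL (P 0) p).det.re ≤
          Hm k (k * a) v f 0 p * (1 / (k : ℝ) ^ 2 * (LL (uu (k * a) v f 0 0) p).det.re +
          2 * Real.pi ^ 2 / (k : ℝ) ^ 2 * RR Cb P k (k * a) v f 0 p) := h2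
      _ = 1 / (k : ℝ) ^ 2 * (Hm k (k * a) v f 0 p * (LL (uu (k * a) v f 0 0) p).det.re) +
          Hm k (k * a) v f 0 p * (2 * Real.pi ^ 2 / (k : ℝ) ^ 2 *
            RR Cb P k (k * a) v f 0 p) := by ring
      _ ≤ 1 / (k : ℝ) ^ 2 * (Hm k (k * a) v f 0 p * (LL (uu (k * a) v f 0 0) p).det.re) +
          a * (2 * Real.pi ^ 2 / (k : ℝ) ^ 2 * RR Cb P k (k * a) v f 0 p) := by linarith
      _ = _ := by ring
  have h2 : II φ (fun i p => Hm k (k * a) v f i p * (LL (uu (k * a) v f 0 i) p).det.re) ≤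
      Real.pi ^ 2 * W * ((r ^ 2) ^ 2 * ((a : ℝ) ^ 2 * c / 2 - (a : ℝ) ^ 3 / 6)) := by
    refine (Sys.II_HL hs2 hφ).trans (le_of_eq ?_)
    rw [hr2]
    push_cast
    field_simp
    ring
  have h3 : II φ (RR Cb P k (k * a) v f) ≤ M1 * r := by
    rw [hs.II_RR hφ hP hpd hON Cb, ← hr]
    have e1 : ((k : ℝ) / Real.pi) ^ 2 * ((1 + Cb / (k * r)) * (Real.pi ^ 2 * WW φ *
        (a * c - a ^ 2 / 2)) + 1 / (2 * k) * (Real.pi ^ 2 * WW φ * (2 * c - 3 * a))) =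
        W * ((k : ℝ) ^ 2 * (a * c - a ^ 2 / 2) + k * (c - 3 * a / 2)) +
          r * (Cb * (W * (a * c - a ^ 2 / 2))) := by
      rw [← hWdef, ← hr2]
      have := Real.pi_pos
      field_simp
      ring
    rw [e1]
    have e2 : W * ((k : ℝ) ^ 2 * (a * c - a ^ 2 / 2) + k * (c - 3 * a / 2)) - W -
        Kq / (1 - q) ≤ N := by
      refine le_trans (le_of_eq ?_) hNle
      ring
    have e3 : W + Kq / (1 - q) ≤ (W + Kq / (1 - q)) * r := by
      have : 0 ≤ W + Kq / (1 - q) := by positivity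
      nlinarith
    rw [hM1]
    linarith
  have h4 : 1 / (k : ℝ) * ∑ ι, (v ι : ℝ) ≤ (r ^ 2 / Real.pi) ^ 2 * ((1 + Cb / (r ^ 2 * r)) *
      II φ (fun i p => Hm k (k * a) v f i p * (LL (P i) p).det.re) +
      1 / (2 * r ^ 2) * II φ (fun i p => Hm k (k * a) v f i p *
        (sc P i p * (LL (P i) p).det.re))) := by
    rw [← hs.II_HB hφ hP hON]
    have e1 : (r ^ 2 / Real.pi) ^ 2 * ((1 + Cb / (r ^ 2 * r)) *
      II φ (fun i p => Hm k (k * a) v f i p * (LL (P i) p).det.re) +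
      1 / (2 * r ^ 2) * II φ (fun i p => Hm k (k * a) v f i p *
        (sc P i p * (LL (P i) p).det.re))) =
        II φ (fun i p => ((k : ℝ) / Real.pi) ^ 2 * (1 + Cb / (k * √k)) *
          (Hm k (k * a) v f i p * (LL (P i) p).det.re) +
          ((k : ℝ) / Real.pi) ^ 2 * (1 / (2 * k)) * (Hm k (k * a) v f i p *
          (sc P i p * (LL (P i) p).det.re))) := by
      rw [II_add hφ (hHD.const_mul _) ((Dn.fn_mul hfH hds).const_mul _),
        II_const_mul φ (fun i p => Hm k (k * a) v f i p * (LL (P i) p).det.re),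
        II_const_mul φ (fun i p => Hm k (k * a) v f i p * (sc P i p * (LL (P i) p).det.re)),
        hr2, ← hr]
      ring
    rw [e1]
    refine II_mono hφ (Dn.fn_mul hfH (Dn.fn_mul (hs.wt_BB hP).fn hdD))
      ((hHD.const_mul _).add ((Dn.fn_mul hfH hds).const_mul _)) fun p hp => ?_
    obtain ⟨hH0, _⟩ := hs.Hm_bds hk1 0 hp
    have t1 := mul_le_mul_of_nonneg_right (hB 0 p hp) (hpd.det_pos hP 0 hp).le
    have t2 := mul_le_mul_of_nonneg_left t1 hH0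
    refine t2.trans (le_of_eq ?_)
    unfold bet
    ring
  have h5 : W * ((r ^ 2) ^ 2 * ((a : ℝ) ^ 2 * c / 2 - (a : ℝ) ^ 3 / 6) +
      r ^ 2 * (a * (c - a) / 2)) - M2 ≤ 1 / (k : ℝ) * ∑ ι, (v ι : ℝ) := by
    rw [hr2, one_div, ← div_eq_inv_mul, le_div_iff₀ hk0]
    refine le_trans (le_of_eq ?_) hvle
    rw [hM2]
    ring
  exact numeric hW (by linarith) hacR hCb hM10 hM20 hr1 h1 h2 h3 h4 h5

end Pool.Agent.Y486
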