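import Pool.Agent.Y486.Bas

/-!
# Preparations for the assembly
-/

set_option autoImplicit false

open scoped Manifold ContDiff Topology ComplexConjugate MatrixGroups UpperHalfPlane Matrix
open scoped ComplexOrder
open MeasureTheory Set Filter

namespace Pool.Agent.Y486

open Pool.Agent.W549.CY (Cn dz dzbar HermitianMetric chernRicci chernScalar)
open Pool.Agent.W711.KC (jj nn CG CG_far NN_pos jj_ne im_mob jj_mul nn_mul det_eq)
open Pool.Agent.TH598.KG (hf Cutoff d1 posDef_iff_hf)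
open Pool.Agent.TH997.KG (mob VV mob_mem mob_mul mob_one mob_inv_left mob_inv_right mob_coe
  hasDerivAt_mob isOpen_VV)
open Pool.Agent.TH997.CMan
open Complex (normSq)

/-! ### Families of automorphic forms -/

theorem exists_fam (hMF : St_MF) {φ : ℂ → ℝ} (hφ : Cutoff CG φ) :
    ∃ K q : ℝ, 0 ≤ K ∧ 0 ≤ q ∧ q < 1 ∧ ∃ m₀ : ℕ, ∀ A C : ℕ, A ≤ C → m₀ ≤ C - A →
      ∃ (n : Fin (A + 1) → ℕ) (F : (l : Fin (A + 1)) → Fin (n l) → ℂ → ℂ),
        Fam A C n F ∧ ∀ l : Fin (A + 1),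
          ((C : ℝ) - A + (l : ℕ) - 1) * WW φ - K * q ^ (l : ℕ) ≤ n l := by
  obtain ⟨K, q, hq0, hq1, m₀, h⟩ := hMF φ hφ
  refine ⟨|K|, q, abs_nonneg K, hq0, hq1, m₀, fun A C hAC hm => ?_⟩
  have h1 := fun l : Fin (A + 1) => h (C - A + (l : ℕ)) (hm.trans (Nat.le_add_right _ _))
  choose n F hmf hli hn hnz using h1
  refine ⟨n, F, ⟨hmf, hli, hnz⟩, fun l => ?_⟩
  refine le_trans ?_ (hn l)
  have e : ((C - A + (l : ℕ) : ℕ) : ℝ) = (C : ℝ) - A + (l : ℕ) := by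
    push_cast [Nat.cast_sub hAC]
    ring
  rw [e]
  have h2 : K * q ^ (C - A + (l : ℕ)) ≤ |K| * q ^ (l : ℕ) := by
    refine mul_le_mul (le_abs_self K) ?_ (pow_nonneg hq0 _) (abs_nonneg K)
    exact pow_le_pow_of_le_one hq0 hq1.le (Nat.le_add_left _ _)
  linarith

theorem sum_aux1 (x : ℝ) (n : ℕ) : ∑ l ∈ Finset.range n, (x + (l : ℝ) - 1) =
    n * (x - 1) + n * (n - 1) / 2 := by
  induction n with
  | zero => simp
  | succ n ih =>
    rw [Finset.sum_range_succ, ih]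
    push_cast
    ring

theorem sum_aux2 (x : ℝ) (n : ℕ) : ∑ l ∈ Finset.range n, (l : ℝ) * (x + (l : ℝ) - 1) =
    (x - 1) * (n * (n - 1) / 2) + (n - 1) * n * (2 * n - 1) / 6 := by
  induction n with
  | zero => simp
  | succ n ih =>
    rw [Finset.sum_range_succ, ih]
    push_cast
    ring

theorem geom_le {q : ℝ} (hq0 : 0 ≤ q) (hq1 : q < 1) (n : ℕ) :
    ∑ l ∈ Finset.range n, q ^ l ≤ 1 / (1 - q) := by
  have h1 := (summable_geometric_of_lt_one hq0 hq1).sum_le_tsum (Finset.range n)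
    (fun l _ => pow_nonneg hq0 l)
  rw [tsum_geometric_of_lt_one hq0 hq1] at h1
  rwa [one_div]

theorem sum_N {A : ℕ} {x W K q : ℝ} {n : Fin (A + 1) → ℕ} (hK : 0 ≤ K) (hq0 : 0 ≤ q) (hq1 : q < 1)
    (h : ∀ l : Fin (A + 1), (x + (l : ℕ) - 1) * W - K * q ^ (l : ℕ) ≤ n l) :
    ((A + 1) * (x - 1) + (A + 1) * A / 2) * W - K / (1 - q) ≤ ∑ l : Fin (A + 1), (n l : ℝ) := by
  have h1 : ∑ l : Fin (A + 1), ((x + (l : ℕ) - 1) * W - K * q ^ (l : ℕ)) ≤
      ∑ l : Fin (A + 1), (n l : ℝ) := Finset.sum_le_sum fun l _ => h l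
  refine le_trans ?_ h1
  rw [Fin.sum_univ_eq_sum_range (fun l : ℕ => (x + (l : ℝ) - 1) * W - K * q ^ l) (A + 1),
    Finset.sum_sub_distrib, ← Finset.sum_mul, ← Finset.mul_sum, sum_aux1]
  have h2 := mul_le_mul_of_nonneg_left (geom_le hq0 hq1 (A + 1)) hK
  push_cast
  have e : K / (1 - q) = K * (1 / (1 - q)) := by ring
  rw [e]
  have e2 : ((A : ℝ) + 1) * (A + 1 - 1) / 2 = (A + 1) * A / 2 := by ring
  rw [e2]
  linarith

theorem sum_v {A : ℕ} {x W K q : ℝ} {n : Fin (A + 1) → ℕ} (hK : 0 ≤ K) (hq0 : 0 ≤ q) (hq1 : q < 1)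
    (h : ∀ l : Fin (A + 1), (x + (l : ℕ) - 1) * W - K * q ^ (l : ℕ) ≤ n l) :
    ((x - 1) * ((A + 1) * A / 2) + A * (A + 1) * (2 * A + 1) / 6) * W - A * (K / (1 - q)) ≤
      ∑ l : Fin (A + 1), ((l : ℕ) : ℝ) * n l := by
  have h1 : ∑ l : Fin (A + 1), (((l : ℕ) : ℝ) * (x + (l : ℕ) - 1) * W - A * (K * q ^ (l : ℕ))) ≤
      ∑ l : Fin (A + 1), ((l : ℕ) : ℝ) * n l := by
    refine Finset.sum_le_sum fun l _ => ?_
    have h2 := mul_le_mul_of_nonneg_left (h l) (Nat.cast_nonneg (α := ℝ) (l : ℕ))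
    have h3 : ((l : ℕ) : ℝ) ≤ A := by exact_mod_cast Nat.lt_succ_iff.1 l.2
    have h4 : ((l : ℕ) : ℝ) * (K * q ^ (l : ℕ)) ≤ A * (K * q ^ (l : ℕ)) :=
      mul_le_mul_of_nonneg_right h3 (mul_nonneg hK (pow_nonneg hq0 _))
    linarith
  refine le_trans ?_ h1
  rw [Fin.sum_univ_eq_sum_range (fun l : ℕ => (l : ℝ) * (x + (l : ℝ) - 1) * W - A * (K * q ^ l))
    (A + 1), Finset.sum_sub_distrib, ← Finset.sum_mul, ← Finset.mul_sum, ← Finset.mul_sum, sum_aux2]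
  have h2 := mul_le_mul_of_nonneg_left (geom_le hq0 hq1 (A + 1)) hK
  have h3 := mul_le_mul_of_nonneg_left h2 (Nat.cast_nonneg (α := ℝ) A)
  push_cast
  have e : (A : ℝ) * (K / (1 - q)) = A * (K * (1 / (1 - q))) := by ring
  rw [e]
  have e2 : (x - 1) * (((A : ℝ) + 1) * (A + 1 - 1) / 2) + (A + 1 - 1) * (A + 1) *
      (2 * (A + 1) - 1) / 6 = (x - 1) * ((A + 1) * A / 2) + A * (A + 1) * (2 * A + 1) / 6 := by ring
  rw [e2]
  linarith

/-! ### The complex Hessian of an exponential -/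

theorem dzbar_real (h : Cn 2 → ℝ) (j : Fin 2) (p : Cn 2) :
    dzbar j (fun q => ((h q : ℝ) : ℂ)) p = conj (dz j (fun q => ((h q : ℝ) : ℂ)) p) := by
  rw [← Pool.Agent.TH598.KG.dzbar_conj]
  simp only [Complex.conj_ofReal]

theorem LL_exp {w : Cn 2 → ℝ} {p : Cn 2} (hw : ContDiffAt ℝ 2 w p) :
    LL (fun q => Real.exp (w q)) p = ((Real.exp (w p) : ℝ) : ℂ) • LL w p +
      (((Real.exp (w p))⁻¹ : ℝ) : ℂ) •
        bb (fun j => dz j (fun q => ((Real.exp (w q) : ℝ) : ℂ)) p) := by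
  have hS : ContDiffAt ℝ 2 (fun q => Real.exp (w q)) p := hw.exp
  have h0 : 0 < Real.exp (w p) := Real.exp_pos _
  have hne : ((Real.exp (w p) : ℝ) : ℂ) ≠ 0 := by exact_mod_cast h0.ne'
  ext j k
  have h1 := LL_log hS h0 j k
  have e : (fun q => Real.log (Real.exp (w q))) = w := by
    funext q
    exact Real.log_exp _
  rw [e, dzbar_real] at h1
  rw [Matrix.add_apply, Matrix.smul_apply, Matrix.smul_apply, h1]
  show _ = _ + _ • (dz j (fun q => ((Real.exp (w q) : ℝ) : ℂ)) p *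
    conj (dz k (fun q => ((Real.exp (w q) : ℝ) : ℂ)) p))
  rw [smul_eq_mul, smul_eq_mul, Complex.ofReal_inv]
  field_simp
  ring

theorem wt_exp {w : Fin 2 → Cn 2 → ℝ} (hw : Wt 0 0 w) : Wt 0 0 fun i p => Real.exp (w i p) := by
  refine ⟨fun i => (hw.smooth i).exp, fun g hg i j p hp h => ?_⟩
  rw [hw.invar hg i j hp h]
  ring

/-! ### The quadratic form -/

theorem sum_expand {N : ℕ} (w : Fin N → ℝ) (F : Fin N → Cn 2 → ℂ) (p : Cn 2) (c : ℂ) (x : Cn 2) :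
    ((∑ ι, w ι * normSq (c * F ι p + (x 0 * dz 0 (F ι) p + x 1 * dz 1 (F ι) p)) : ℝ) : ℂ) =
      c * conj c * (sq w F p : ℂ) + conj c * (x 0 * sj w F 0 p + x 1 * sj w F 1 p) +
      c * (conj (x 0) * conj (sj w F 0 p) + conj (x 1) * conj (sj w F 1 p)) +
      (x 0 * conj (x 0) * sjk w F 0 0 p + x 0 * conj (x 1) * sjk w F 0 1 p +
        x 1 * conj (x 0) * sjk w F 1 0 p + x 1 * conj (x 1) * sjk w F 1 1 p) := by
  rw [sq_coe, conj_sj, conj_sj]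
  unfold sj sjk
  push_cast
  simp only [Finset.mul_sum, ← Finset.sum_add_distrib]
  refine Finset.sum_congr rfl fun ι _ => ?_
  rw [normSq_coe]
  simp only [map_add, map_mul]
  ring

end Pool.Agent.Y486
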