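import Pool.Agent.Y486.Core1

/-!
# The quadratic form of the Bergman function
-/

set_option autoImplicit false

open scoped Manifold ContDiff Topology ComplexConjugate MatrixGroups UpperHalfPlane Matrix
open scoped ComplexOrder
open MeasureTheory Set Filter

namespace Pool.Agent.Y486

open Pool.Agent.W549.CY (Cn dz dzbar HermitianMetric chernRicci chernScalar)
open Pool.Agent.W711.KC (jj nn CG CG_far NN_pos jj_ne im_mob jj_mul nn_mul det_eq)
open Pool.Agent.TH598.KG (hf Cutoff d1 posDef_iff_hf)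
open Pool.Agent.TH997.KG (mob VV mob_mem mob_mul mob_one mob_inv_left mob_inv_right mob_coe
  hasDerivAt_mob isOpen_VV)
open Pool.Agent.TH997.CMan
open Complex (normSq)

section form

variable {N A C : ℕ} {v : Fin N → ℕ} {f : Fin N → ℕ → ℂ → ℂ}

/-- the Bergman function -/
noncomputable def BB (A : ℕ) (v : Fin N → ℕ) (f : Fin N → ℕ → ℂ → ℂ) (k : ℝ)
    (P : Fin 2 → Cn 2 → ℝ) (i : Fin 2) (p : Cn 2) : ℝ := Real.exp (uu A v f 0 i p - k * P i p)

theorem wv_zero (v : Fin N → ℕ) (ι : Fin N) : wv v 0 ι = 1 := by simp [wv]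

theorem Sys.BB_eq (h : Sys A C v f) (k : ℝ) (P : Fin 2 → Cn 2 → ℝ) (i : Fin 2) {p : Cn 2}
    (hp : p ∈ UU) : BB A v f k P i p = sq (wv v 0) (Fs A f i) p * Real.exp (-(k * P i p)) := by
  unfold BB uu
  rw [sub_eq_add_neg, Real.exp_add, Real.exp_log (h.sq_pos (wv_pos v 0) i hp)]

theorem Sys.dz_BB (h : Sys A C v f) {P : Fin 2 → Cn 2 → ℝ} (k : ℝ) (i j : Fin 2) {p : Cn 2}
    (hp : p ∈ UU) (hP : DifferentiableAt ℝ (P i) p) :
    dz j (fun q => ((BB A v f k P i q : ℝ) : ℂ)) p = (BB A v f k P i p : ℂ) *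
      (sj (wv v 0) (Fs A f i) j p / (sq (wv v 0) (Fs A f i) p : ℂ) -
        k * dz j (fun q => ((P i q : ℝ) : ℂ)) p) := by
  have hF1 : ∀ ι, DifferentiableAt ℂ (Fs A f i ι) p := fun ι =>
    (h.cdAt i ι hp (n := 2)).differentiableAt (by simp)
  have hS := h.sq_pos (wv_pos v 0) i hp
  have dS : DifferentiableAt ℝ (sq (wv v 0) (Fs A f i)) p :=
    (contDiffAt_sq (n := 2) _ fun ι => ((h.cdR i ι).contDiffAt
      (isOpen_UU.mem_nhds hp))).differentiableAt (by simp)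
  have du : DifferentiableAt ℝ (uu A v f 0 i) p := dS.log hS.ne'
  have d1 : DifferentiableAt ℝ (fun q => uu A v f 0 i q - k * P i q) p := du.sub (hP.const_mul k)
  have h1 := (dz_real_comp (Real.hasDerivAt_exp _) d1 j).1
  have h2 := (dz_real_comp (Real.hasDerivAt_log hS.ne') dS j).1
  rw [dz_sq _ hF1] at h2
  have duC : DifferentiableAt ℝ (fun q => ((uu A v f 0 i q : ℝ) : ℂ)) p :=
    Complex.ofRealCLM.differentiableAt.comp p du
  have dPC : DifferentiableAt ℝ (fun q => ((P i q : ℝ) : ℂ)) p :=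
    Complex.ofRealCLM.differentiableAt.comp p hP
  have h3 : dz j (fun q => ((uu A v f 0 i q - k * P i q : ℝ) : ℂ)) p =
      dz j (fun q => ((uu A v f 0 i q : ℝ) : ℂ)) p - k * dz j (fun q => ((P i q : ℝ) : ℂ)) p := by
    have e : (fun q => ((uu A v f 0 i q - k * P i q : ℝ) : ℂ)) =
        fun q => ((uu A v f 0 i q : ℝ) : ℂ) - (k : ℂ) * ((P i q : ℝ) : ℂ) := by
      funext q
      push_cast
      ring
    rw [e, dz_sub' duC (dPC.const_mul _), dz_const_mul' _ dPC]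
  have h4 : dz j (fun q => ((uu A v f 0 i q : ℝ) : ℂ)) p =
      sj (wv v 0) (Fs A f i) j p / (sq (wv v 0) (Fs A f i) p : ℂ) := by
    have h5 : dz j (fun q => ((uu A v f 0 i q : ℝ) : ℂ)) p = _ := h2
    rw [h5]
    push_cast
    ring
  rw [h3, h4] at h1
  exact h1

theorem Sys.form (h : Sys A C v f) {P : Fin 2 → Cn 2 → ℝ} (k : ℝ) (i : Fin 2) {p : Cn 2}
    (hp : p ∈ UU) (hP : DifferentiableAt ℝ (P i) p) (α : ℂ) (x : Cn 2) :
    (∑ ι, normSq (α * Fs A f i ι p + ∑ j, x j * (dz j (Fs A f i ι) p -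
      k * dz j (fun q => ((P i q : ℝ) : ℂ)) p * Fs A f i ι p))) * Real.exp (-(k * P i p)) =
    BB A v f k P i p * normSq α +
      2 * (conj α * (dz 0 (fun q => ((BB A v f k P i q : ℝ) : ℂ)) p * x 0 +
        dz 1 (fun q => ((BB A v f k P i q : ℝ) : ℂ)) p * x 1)).re +
      (BB A v f k P i p * (hf (LL (uu A v f 0 i) p) x).re +
        normSq (dz 0 (fun q => ((BB A v f k P i q : ℝ) : ℂ)) p * x 0 +
          dz 1 (fun q => ((BB A v f k P i q : ℝ) : ℂ)) p * x 1) / BB A v f k P i p) := by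
  have hSpos := h.sq_pos (wv_pos v 0) i hp
  have hcd : ∀ ι, ContDiffAt ℂ 2 (Fs A f i ι) p := fun ι => h.cdAt i ι hp
  have hL : ∀ j k, LL (uu A v f 0 i) p j k = ((sq (wv v 0) (Fs A f i) p : ℂ) *
      sjk (wv v 0) (Fs A f i) j k p - sj (wv v 0) (Fs A f i) j p *
      conj (sj (wv v 0) (Fs A f i) k p)) / (sq (wv v 0) (Fs A f i) p : ℂ) ^ 2 :=
    LL_log_sq hcd hSpos
  have hBB := h.BB_eq k P i hp
  have hb0 := h.dz_BB k i 0 hp hP
  have hb1 := h.dz_BB k i 1 hp hP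
  set c : ℂ := α - k * (x 0 * dz 0 (fun q => ((P i q : ℝ) : ℂ)) p +
    x 1 * dz 1 (fun q => ((P i q : ℝ) : ℂ)) p) with hc
  have hsum : ∑ ι, normSq (α * Fs A f i ι p + ∑ j, x j * (dz j (Fs A f i ι) p -
      k * dz j (fun q => ((P i q : ℝ) : ℂ)) p * Fs A f i ι p)) =
      ∑ ι, wv v 0 ι * normSq (c * Fs A f i ι p + (x 0 * dz 0 (Fs A f i ι) p +
        x 1 * dz 1 (Fs A f i ι) p)) := by
    refine Finset.sum_congr rfl fun ι _ => ?_
    rw [wv_zero, one_mul, Fin.sum_univ_two, hc]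
    congr 1
    ring
  have hexp := sum_expand (wv v 0) (Fs A f i) p c x
  rw [← hsum] at hexp
  rw [hBB] at hb0 hb1 ⊢
  set b0 := dz 0 (fun q => ((BB A v f k P i q : ℝ) : ℂ)) p with hb0d
  set b1 := dz 1 (fun q => ((BB A v f k P i q : ℝ) : ℂ)) p with hb1d
  set T : ℝ := ∑ ι, normSq (α * Fs A f i ι p + ∑ j, x j * (dz j (Fs A f i ι) p -
      k * dz j (fun q => ((P i q : ℝ) : ℂ)) p * Fs A f i ι p)) with hT
  set S : ℝ := sq (wv v 0) (Fs A f i) p with hSd
  set E : ℝ := Real.exp (-(k * P i p)) with hE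
  set s0 := sj (wv v 0) (Fs A f i) 0 p with hs0
  set s1 := sj (wv v 0) (Fs A f i) 1 p with hs1
  set P0 := dz 0 (fun q => ((P i q : ℝ) : ℂ)) p with hP0
  set P1 := dz 1 (fun q => ((P i q : ℝ) : ℂ)) p with hP1
  have hE0 : 0 < E := Real.exp_pos _
  have hSc : (S : ℂ) ≠ 0 := by exact_mod_cast hSpos.ne'
  have hEc : (E : ℂ) ≠ 0 := by exact_mod_cast hE0.ne'
  set z : ℂ := b0 * x 0 + b1 * x 1 with hz
  have key : ((T * E : ℝ) : ℂ) = ((S * E * normSq α : ℝ) : ℂ) + (conj α * z + α * conj z) +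
      (((S * E : ℝ) : ℂ) * hf (LL (uu A v f 0 i) p) x + ((normSq z / (S * E) : ℝ) : ℂ)) := by
    rw [Complex.ofReal_mul T E, hexp, hf_two, hL, hL, hL, hL, Complex.ofReal_div, normSq_coe,
      hz, hb0, hb1, hc]
    push_cast
    rw [normSq_coe]
    simp only [map_add, map_sub, map_mul, map_div₀, Complex.conj_ofReal]
    rw [← hs0, ← hs1]
    field_simp
    ring
  have h1 := congrArg Complex.re key
  simp only [Complex.add_re, Complex.ofReal_re, Complex.re_ofReal_mul] at h1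
  have h2 : (α * conj z).re = (conj α * z).re := by
    rw [← Complex.conj_re, map_mul, Complex.conj_conj]
  rw [h2] at h1
  rw [h1]
  ring

end form

end Pool.Agent.Y486
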