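import Pool.Agent.Y486.Core2

/-!
# The pointwise estimates on the quotient
-/

set_option autoImplicit false

open scoped Manifold ContDiff Topology ComplexConjugate MatrixGroups UpperHalfPlane Matrix
open scoped ComplexOrder
open MeasureTheory Set Filter

namespace Pool.Agent.Y486

open Pool.Agent.W549.CY (Cn dz dzbar HermitianMetric chernRicci chernScalar)
open Pool.Agent.W711.KC (jj nn CG CG_far NN_pos jj_ne im_mob jj_mul nn_mul det_eq)
open Pool.Agent.TH598.KG (hf Cutoff d1 posDef_iff_hf)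
open Pool.Agent.TH997.KG (mob VV mob_mem mob_mul mob_one mob_inv_left mob_inv_right mob_coe
  hasDerivAt_mob isOpen_VV)
open Pool.Agent.TH997.CMan
open Complex (normSq)

/-! ### Transfer from a compact set -/

theorem Dn.nonneg {G : Fin 2 → Cn 2 → ℝ} (hG : Dn G) {K : Set (Cn 2)}
    (hc : ∀ i, ∀ p ∈ UU, ∃ g ∈ CG, ∃ j, hom g i p j ≠ 0 ∧ FF g i j p ∈ K)
    (h : ∀ i, ∀ p ∈ K, 0 ≤ G i p) (i : Fin 2) {p : Cn 2} (hp : p ∈ UU) : 0 ≤ G i p := by
  obtain ⟨g, hg, j, hj, hK⟩ := hc i p hp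
  rw [hG.compat g hg i j p hp hj]
  exact mul_nonneg (JD_pos g i j hp hj).le (h j _ hK)

theorem Fn.nonneg {G : Fin 2 → Cn 2 → ℝ} (hG : Fn G) {K : Set (Cn 2)}
    (hc : ∀ i, ∀ p ∈ UU, ∃ g ∈ CG, ∃ j, hom g i p j ≠ 0 ∧ FF g i j p ∈ K)
    (h : ∀ i, ∀ p ∈ K, 0 ≤ G i p) (i : Fin 2) {p : Cn 2} (hp : p ∈ UU) : 0 ≤ G i p := by
  obtain ⟨g, hg, j, hj, hK⟩ := hc i p hp
  rw [← hG.invar g hg i j p hp hj]
  exact h j _ hK

theorem fn_bet {a c : ℝ} {P : Fin 2 → Cn 2 → ℝ} (hP : Wt a c P) (hpd : PD P) (Cb : ℝ) (k : ℕ) :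
    Fn (bet Cb P k) := by
  have h1 := ((Fn.const ((k / Real.pi) ^ 2)).mul ((Fn.const (1 + Cb / (k * √k))).add
    ((Fn.const (1 / (2 * k))).mul (fn_sc hP hpd))))
  have e : bet Cb P k = fun i p => ((k : ℝ) / Real.pi) ^ 2 * ((1 + Cb / (k * √k)) +
      1 / (2 * k) * sc P i p) := by
    funext i p
    unfold bet
    ring
  rw [e]
  exact h1

section ptw

variable {N A C : ℕ} {v : Fin N → ℕ} {f : Fin N → ℕ → ℂ → ℂ} {a c : ℕ} {P : Fin 2 → Cn 2 → ℝ}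
  {k : ℕ}

theorem wt_k (hP : Wt a c P) (k : ℕ) :
    Wt ((k * a : ℕ) : ℝ) ((k * c : ℕ) : ℝ) (fun i p => (k : ℝ) * P i p) := by
  have := hP.const_mul (k : ℝ)
  push_cast
  exact this

theorem Sys.wt_BB (h : Sys (k * a) (k * c) v f) (hP : Wt a c P) :
    Wt 0 0 (BB (k * a) v f k P) :=
  wt_exp ((h.wf.wt 0).sub_same (wt_k hP k))

theorem Sys.LL_BB (h : Sys (k * a) (k * c) v f) (hP : Wt a c P) (i : Fin 2) {p : Cn 2}
    (hp : p ∈ UU) : LL (BB (k * a) v f k P i) p =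
      ((BB (k * a) v f k P i p : ℝ) : ℂ) • (LL (uu (k * a) v f 0 i) p - ((k : ℝ) : ℂ) • LL (P i) p) +
      (((BB (k * a) v f k P i p)⁻¹ : ℝ) : ℂ) •
        bb (fun j => dz j (fun q => ((BB (k * a) v f k P i q : ℝ) : ℂ)) p) := by
  have h1 := LL_exp (((h.wf.wt 0).sub_same (wt_k hP k)).cd2 i hp)
  rw [LL_sub ((h.wf.wt 0).cd2 i hp) ((wt_k hP k).cd2 i hp), LL_const_mul _ (hP.cd2 i hp)] at h1
  exact h1

/-- the remainder -/
noncomputable def RR (Cb : ℝ) (P : Fin 2 → Cn 2 → ℝ) (k A : ℕ) (v : Fin N → ℕ)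
    (f : Fin N → ℕ → ℂ → ℂ) (i : Fin 2) (p : Cn 2) : ℝ :=
  3 * ((bet Cb P k i p - BB A v f k P i p) * (LL (P i) p).det.re) -
    1 / k * DD (LL (BB A v f k P i) p) (LL (P i) p)

theorem Sys.dn_RR (h : Sys (k * a) (k * c) v f) (hP : Wt a c P) (hpd : PD P) (Cb : ℝ) :
    Dn (RR Cb P k (k * a) v f) := by
  have h1 := (fn_bet hP hpd Cb k).add ((Fn.const (-1)).mul (h.wt_BB hP).fn)
  have h2 := ((Dn.fn_mul h1 (dn_det hP)).const_mul 3).sub
    ((dn_LL (h.wt_BB hP) hP).const_mul (1 / k))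
  have e : RR Cb P k (k * a) v f = fun i p => 3 * ((bet Cb P k i p +
      -1 * BB (k * a) v f k P i p) * (LL (P i) p).det.re) -
      1 / k * DD (LL (BB (k * a) v f k P i) p) (LL (P i) p) := by
    funext i p
    unfold RR
    ring
  rw [e]
  exact h2

theorem ptw (hloc : St_loc) {φ : ℂ → ℝ} (hφ : Cutoff CG φ) (hP : Wt a c P) (hpd : PD P) :
    ∃ Cb k₀ : ℝ, 0 ≤ Cb ∧ 1 ≤ k₀ ∧ ∀ k : ℕ, k₀ ≤ k → ∀ (N : ℕ) (v : Fin N → ℕ)
      (f : Fin N → ℕ → ℂ → ℂ), Sys (k * a) (k * c) v f → ON φ k (k * a) P f →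
      (∀ i, ∀ p ∈ UU, BB (k * a) v f k P i p ≤ bet Cb P k i p) ∧
      (∀ i, ∀ p ∈ UU, 0 ≤ RR Cb P k (k * a) v f i p) ∧
      ∀ i, ∀ p ∈ UU, (LL (P i) p).det.re ≤ 1 / (k : ℝ) ^ 2 * (LL (uu (k * a) v f 0 i) p).det.re +
        2 * Real.pi ^ 2 / (k : ℝ) ^ 2 * RR Cb P k (k * a) v f i p := by
  obtain ⟨K, hK, hKU, hc⟩ := t_cover
  obtain ⟨Cb, k₁, hCb, hk₁, hberg⟩ := berg hloc hφ hP hpd hK hKU
  obtain ⟨s0, hs0, hs⟩ := (fn_sc hP hpd).bdd
  refine ⟨Cb, max k₁ (s0 + 1), hCb, hk₁.trans (le_max_left _ _), fun k hk N v f hsys hON => ?_⟩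
  have hkk₁ : k₁ ≤ k := (le_max_left _ _).trans hk
  have hks : s0 + 1 ≤ k := (le_max_right _ _).trans hk
  have hk1 : (1 : ℝ) ≤ k := hk₁.trans hkk₁
  have hk0 : (0 : ℝ) < k := by linarith
  have hpi := Real.pi_pos
  -- lower bound for `β`
  have hβmin : ∀ i, ∀ p ∈ UU, ((k : ℝ) / Real.pi) ^ 2 / 2 ≤ bet Cb P k i p := by
    intro i p hp
    unfold bet
    have h1 := (abs_le.1 (hs i p hp)).1
    have h2 : -(1 / 2) ≤ sc P i p / (2 * k) := by
      rw [le_div_iff₀ (by positivity)]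
      linarith
    have h3 : 0 ≤ Cb / (k * √k) := by positivity
    have h4 : 0 ≤ ((k : ℝ) / Real.pi) ^ 2 := sq_nonneg _
    nlinarith
  -- the estimates on `K`
  have hpt : ∀ i, ∀ p ∈ K, BB (k * a) v f k P i p ≤ bet Cb P k i p ∧
      0 ≤ RR Cb P k (k * a) v f i p ∧
      (LL (P i) p).det.re - (LL (uu (k * a) v f 0 i) p).det.re / (k : ℝ) ^ 2 ≤
        RR Cb P k (k * a) v f i p / bet Cb P k i p := by
    intro i p hp
    have hpU := hKU hp
    have hPd : DifferentiableAt ℝ (P i) p := (hP.cd2 i hpU).differentiableAt (by simp)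
    have h1 := pt_main (g := LL (P i) p) (L := LL (uu (k * a) v f 0 i) p)
      (b := fun j => dz j (fun q => ((BB (k * a) v f k P i q : ℝ) : ℂ)) p)
      (B := BB (k * a) v f k P i p) (β := bet Cb P k i p) (k := k) (hpd.posDef hP i hpU)
      (LL_log_psd (fun ι => (wv_pos v 0 ι).le) (fun ι => hsys.cdAt i ι hpU)
        (hsys.sq_pos (wv_pos v 0) i hpU)) (Real.exp_pos _) hk0
      (fun α w => by
        rw [← hsys.form k i hpU hPd α w]
        exact hberg k hkk₁ N v f hsys hON i p hp α w)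
    rw [← hsys.LL_BB hP i hpU] at h1
    have e : RR Cb P k (k * a) v f i p = 3 * (bet Cb P k i p - BB (k * a) v f k P i p) *
        (LL (P i) p).det.re - DD (LL (BB (k * a) v f k P i) p) (LL (P i) p) / k := by
      unfold RR
      ring
    rw [e]
    exact h1
  have hR : ∀ i, ∀ p ∈ UU, 0 ≤ RR Cb P k (k * a) v f i p := fun i p hp =>
    (hsys.dn_RR hP hpd Cb).nonneg hc (fun i p hp => (hpt i p hp).2.1) i hp
  refine ⟨fun i p hp => ?_, hR, fun i p hp => ?_⟩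
  · have h1 := ((fn_bet hP hpd Cb k).add ((Fn.const (-1)).mul (hsys.wt_BB hP).fn)).nonneg hc
      (fun i p hp => by
        have := (hpt i p hp).1
        linarith) i hp
    linarith
  · have h1 : Dn fun i p => (1 / (k : ℝ) ^ 2 * (LL (uu (k * a) v f 0 i) p).det.re +
        2 * Real.pi ^ 2 / (k : ℝ) ^ 2 * RR Cb P k (k * a) v f i p) - (LL (P i) p).det.re :=
      (((dn_det (hsys.wf.wt 0)).const_mul _).add ((hsys.dn_RR hP hpd Cb).const_mul _)).sub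
        (dn_det hP)
    have h2 := h1.nonneg hc (fun i p hp => by
      have h3 := (hpt i p hp).2.2
      have h4 := hR i p (hKU hp)
      have h5 := hβmin i p (hKU hp)
      have h6 : RR Cb P k (k * a) v f i p / bet Cb P k i p ≤
          RR Cb P k (k * a) v f i p / (((k : ℝ) / Real.pi) ^ 2 / 2) :=
        div_le_div_of_nonneg_left h4 (by positivity) h5
      have h7 : RR Cb P k (k * a) v f i p / (((k : ℝ) / Real.pi) ^ 2 / 2) =
          2 * Real.pi ^ 2 / (k : ℝ) ^ 2 * RR Cb P k (k * a) v f i p := by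
        field_simp
      have h8 : (LL (uu (k * a) v f 0 i) p).det.re / (k : ℝ) ^ 2 =
          1 / (k : ℝ) ^ 2 * (LL (uu (k * a) v f 0 i) p).det.re := by ring
      linarith) i hp
    linarith

end ptw

end Pool.Agent.Y486
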