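import Pool.Agent.Y486.Core3

/-!
# The assembly
-/

set_option autoImplicit false

open scoped Manifold ContDiff Topology ComplexConjugate MatrixGroups UpperHalfPlane Matrix
open scoped ComplexOrder
open MeasureTheory Set Filter

namespace Pool.Agent.Y486

open Pool.Agent.W549.CY (Cn dz dzbar HermitianMetric chernRicci chernScalar)
open Pool.Agent.W711.KC (jj nn CG CG_far NN_pos jj_ne im_mob jj_mul nn_mul det_eq)
open Pool.Agent.TH598.KG (hf Cutoff d1 posDef_iff_hf)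
open Pool.Agent.TH997.KG (mob VV mob_mem mob_mul mob_one mob_inv_left mob_inv_right mob_coe
  hasDerivAt_mob isOpen_VV)
open Pool.Agent.TH997.CMan
open Complex (normSq)

/-! ### Sums of densities -/

theorem II_sum {φ : ℂ → ℝ} (hφ : Cutoff CG φ) {ι : Type} {s : Finset ι}
    {G : ι → Fin 2 → Cn 2 → ℝ} (h : ∀ a ∈ s, Dn (G a)) :
    II φ (fun i p => ∑ a ∈ s, G a i p) = ∑ a ∈ s, II φ (G a) := by
  unfold II
  rw [← integral_finsetSum s fun a ha => (h a ha).integrable hφ 0]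
  refine setIntegral_congr_fun measurableSet_UU fun p _ => ?_
  show φ (p 0) * ∑ a ∈ s, G a 0 p = ∑ a ∈ s, φ (p 0) * G a 0 p
  rw [Finset.mul_sum]

section intg

variable {N : ℕ} {v : Fin N → ℕ} {f : Fin N → ℕ → ℂ → ℂ} {a c : ℕ} {P : Fin 2 → Cn 2 → ℝ}
  {k : ℕ} {φ : ℂ → ℝ}

theorem cmb_single {A : ℕ} (ι : Fin N) (i : Fin 2) (p : Cn 2) :
    cmb A f (Pi.single ι 1) i p = Fs A f i ι p := by
  unfold cmb
  rw [Finset.sum_eq_single ι]
  · rw [Pi.single_eq_same, one_mul]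
  · intro k _ hk
    rw [Pi.single_eq_of_ne hk, zero_mul]
  · intro hk
    exact absurd (Finset.mem_univ ι) hk

/-- the density of one section -/
noncomputable def dF (k A : ℕ) (P : Fin 2 → Cn 2 → ℝ) (f : Fin N → ℕ → ℂ → ℂ) (ι : Fin N)
    (i : Fin 2) (p : Cn 2) : ℝ :=
  normSq (Fs A f i ι p) * Real.exp (-(k * P i p)) * (LL (P i) p).det.re

theorem Sys.dn_dF (h : Sys (k * a) (k * c) v f) (hP : Wt a c P) (ι : Fin N) :
    Dn (dF k (k * a) P f ι) := by
  have h1 := Dn.fn_mul (h.fn_cmb (Pi.single ι 1) (wt_k hP k)) (dn_det hP)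
  have e : dF k (k * a) P f ι = fun i p => normSq (cmb (k * a) f (Pi.single ι 1) i p) *
      Real.exp (-(k * P i p)) * (LL (P i) p).det.re := by
    funext i p
    rw [cmb_single]
    rfl
  rw [e]
  exact h1

theorem II_dF (hON : ON φ k (k * a) P f) (ι : Fin N) : II φ (dF k (k * a) P f ι) = 1 := by
  have h1 := hON (Pi.single ι 1)
  have e : dF k (k * a) P f ι = fun i p => normSq (cmb (k * a) f (Pi.single ι 1) i p) *
      Real.exp (-(k * P i p)) * (LL (P i) p).det.re := by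
    funext i p
    rw [cmb_single]
    rfl
  rw [e, h1, Finset.sum_eq_single ι]
  · rw [Pi.single_eq_same, map_one]
  · intro k _ hk
    rw [Pi.single_eq_of_ne hk, map_zero]
  · intro hk
    exact absurd (Finset.mem_univ ι) hk

theorem Sys.BB_sum (h : Sys (k * a) (k * c) v f) (i : Fin 2) {p : Cn 2} (hp : p ∈ UU) :
    BB (k * a) v f k P i p * (LL (P i) p).det.re = ∑ ι, dF k (k * a) P f ι i p := by
  rw [h.BB_eq k P i hp]
  unfold sq dF
  rw [Finset.sum_mul, Finset.sum_mul]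
  refine Finset.sum_congr rfl fun ι _ => ?_
  rw [wv_zero]
  ring

/-- the normalised Hamiltonian -/
noncomputable def Hm (k A : ℕ) (v : Fin N → ℕ) (f : Fin N → ℕ → ℂ → ℂ) (i : Fin 2) (p : Cn 2) : ℝ :=
  1 / k * dt (uu A v f) 0 i p

theorem Sys.fn_Hm (h : Sys (k * a) (k * c) v f) : Fn (Hm k (k * a) v f) :=
  (Fn.const (1 / (k : ℝ))).mul (h.wf.dt.wt 0).fn

theorem Sys.HB_sum (h : Sys (k * a) (k * c) v f) (i : Fin 2) {p : Cn 2} (hp : p ∈ UU) :
    Hm k (k * a) v f i p * (BB (k * a) v f k P i p * (LL (P i) p).det.re) =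
      ∑ ι, 1 / (k : ℝ) * v ι * dF k (k * a) P f ι i p := by
  have hS := h.sq_pos (wv_pos v 0) i hp
  unfold Hm
  rw [h.dt_uu 0 i hp, h.BB_eq k P i hp]
  unfold u1
  have e : 1 / (k : ℝ) * (sq (fun ι => v ι * wv v 0 ι) (Fs (k * a) f i) p /
      sq (wv v 0) (Fs (k * a) f i) p) * (sq (wv v 0) (Fs (k * a) f i) p *
      Real.exp (-(k * P i p)) * (LL (P i) p).det.re) =
      1 / (k : ℝ) * (sq (fun ι => v ι * wv v 0 ι) (Fs (k * a) f i) p *
      Real.exp (-(k * P i p)) * (LL (P i) p).det.re) := by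
    field_simp
  rw [e]
  unfold sq dF
  rw [Finset.sum_mul, Finset.sum_mul, Finset.mul_sum]
  refine Finset.sum_congr rfl fun ι _ => ?_
  simp only [wv_zero]
  ring

theorem Sys.Hm_bds (h : Sys (k * a) (k * c) v f) (hk : 1 ≤ k) (i : Fin 2) {p : Cn 2} (hp : p ∈ UU) :
    0 ≤ Hm k (k * a) v f i p ∧ Hm k (k * a) v f i p ≤ a := by
  have hS := h.sq_pos (wv_pos v 0) i hp
  have hk0 : (0 : ℝ) < k := by exact_mod_cast hk
  unfold Hm
  rw [h.dt_uu 0 i hp]
  unfold u1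
  constructor
  · refine mul_nonneg (by positivity) (div_nonneg ?_ hS.le)
    exact Finset.sum_nonneg fun ι _ => mul_nonneg (mul_nonneg (Nat.cast_nonneg _)
      (wv_pos v 0 ι).le) (Complex.normSq_nonneg _)
  · have h1 : sq (fun ι => v ι * wv v 0 ι) (Fs (k * a) f i) p ≤
        (k * a) * sq (wv v 0) (Fs (k * a) f i) p := by
      unfold sq
      rw [Finset.mul_sum]
      refine Finset.sum_le_sum fun ι _ => ?_
      have h2 : (v ι : ℝ) ≤ k * a := by exact_mod_cast h.vle ι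
      have h3 : 0 ≤ wv v 0 ι * normSq (Fs (k * a) f i ι p) :=
        mul_nonneg (wv_pos v 0 ι).le (Complex.normSq_nonneg _)
      have h4 := mul_le_mul_of_nonneg_right h2 h3
      linarith
    rw [one_div, inv_mul_le_iff₀ hk0, div_le_iff₀ hS]
    exact h1

theorem Sys.II_BB (h : Sys (k * a) (k * c) v f) (hφ : Cutoff CG φ) (hP : Wt a c P)
    (hON : ON φ k (k * a) P f) :
    II φ (fun i p => BB (k * a) v f k P i p * (LL (P i) p).det.re) = N := by
  have h1 : II φ (fun i p => BB (k * a) v f k P i p * (LL (P i) p).det.re) =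
      II φ (fun i p => ∑ ι, dF k (k * a) P f ι i p) := II_congr fun p hp => h.BB_sum 0 hp
  rw [h1, II_sum hφ fun ι _ => h.dn_dF hP ι, Finset.sum_congr rfl fun ι _ => II_dF hON ι]
  simp

theorem Sys.II_HB (h : Sys (k * a) (k * c) v f) (hφ : Cutoff CG φ) (hP : Wt a c P)
    (hON : ON φ k (k * a) P f) :
    II φ (fun i p => Hm k (k * a) v f i p * (BB (k * a) v f k P i p * (LL (P i) p).det.re)) =
      1 / k * ∑ ι, (v ι : ℝ) := by
  have h1 : II φ (fun i p => Hm k (k * a) v f i p * (BB (k * a) v f k P i p *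
      (LL (P i) p).det.re)) =
      II φ (fun i p => ∑ ι, 1 / (k : ℝ) * v ι * dF k (k * a) P f ι i p) :=
    II_congr fun p hp => h.HB_sum 0 hp
  rw [h1, II_sum hφ fun ι _ => (h.dn_dF hP ι).const_mul _, Finset.mul_sum]
  refine Finset.sum_congr rfl fun ι _ => ?_
  rw [II_const_mul, II_dF hON ι, mul_one]

theorem Sys.II_RR (h : Sys (k * a) (k * c) v f) (hφ : Cutoff CG φ) (hP : Wt a c P) (hpd : PD P)
    (hON : ON φ k (k * a) P f) (Cb : ℝ) :
    II φ (RR Cb P k (k * a) v f) = 3 * (((k : ℝ) / Real.pi) ^ 2 *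
      ((1 + Cb / (k * √k)) * (Real.pi ^ 2 * WW φ * (a * c - a ^ 2 / 2)) +
        1 / (2 * k) * (Real.pi ^ 2 * WW φ * (2 * c - 3 * a))) - N) := by
  have hD := dn_det hP
  have h1 : II φ (RR Cb P k (k * a) v f) = II φ (fun i p =>
      (3 * ((k : ℝ) / Real.pi) ^ 2 * (1 + Cb / (k * √k))) * (LL (P i) p).det.re +
      (3 * ((k : ℝ) / Real.pi) ^ 2 * (1 / (2 * k))) * (sc P i p * (LL (P i) p).det.re) -
      3 * (BB (k * a) v f k P i p * (LL (P i) p).det.re) -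
      1 / k * DD (LL (BB (k * a) v f k P i) p) (LL (P i) p)) := by
    apply II_congr
    intro p _
    unfold RR bet
    ring
  have hd1 := hD.const_mul (3 * ((k : ℝ) / Real.pi) ^ 2 * (1 + Cb / (k * √k)))
  have hd2 := (Dn.fn_mul (fn_sc hP hpd) hD).const_mul (3 * ((k : ℝ) / Real.pi) ^ 2 * (1 / (2 * k)))
  have hd3 := (Dn.fn_mul (h.wt_BB hP).fn hD).const_mul 3
  have hd4 := (dn_LL (h.wt_BB hP) hP).const_mul (1 / (k : ℝ))
  rw [h1, II_sub hφ ((hd1.add hd2).sub hd3) hd4, II_sub hφ (hd1.add hd2) hd3, II_add hφ hd1 hd2,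
    II_const_mul, II_const_mul φ (fun i p => sc P i p * (LL (P i) p).det.re),
    II_const_mul φ (fun i p => BB (k * a) v f k P i p * (LL (P i) p).det.re),
    II_const_mul φ (fun i p => DD (LL (BB (k * a) v f k P i) p) (LL (P i) p)),
    II_det hφ hP, II_sc hφ hP hpd, h.II_BB hφ hP hON, II_exact hφ (h.wt_BB hP) hP]
  ring

theorem Sys.II_HL (h : Sys2 (k * a) (k * c) v f) (hφ : Cutoff CG φ) :
    II φ (fun i p => Hm k (k * a) v f i p * (LL (uu (k * a) v f 0 i) p).det.re) ≤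
      1 / k * (Real.pi ^ 2 * WW φ * (((k * a : ℕ) : ℝ) ^ 2 * ((k * c : ℕ) : ℝ) / 2 -
        ((k * a : ℕ) : ℝ) ^ 3 / 6)) := by
  have h1 := h.main hφ
  have h2 : br φ (dt (uu (k * a) v f) 0) (uu (k * a) v f 0) (uu (k * a) v f 0) =
      II φ (fun i p => 2 * (dt (uu (k * a) v f) 0 i p * (LL (uu (k * a) v f 0 i) p).det.re)) := by
    apply II_congr
    intro p _
    rw [DD_self]
    ring
  rw [h2, II_const_mul φ (fun i p => dt (uu (k * a) v f) 0 i p *
    (LL (uu (k * a) v f 0 i) p).det.re)] at h1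
  have h3 : II φ (fun i p => Hm k (k * a) v f i p * (LL (uu (k * a) v f 0 i) p).det.re) =
      II φ (fun i p => 1 / k * (dt (uu (k * a) v f) 0 i p *
        (LL (uu (k * a) v f 0 i) p).det.re)) := by
    apply II_congr
    intro p _
    unfold Hm
    ring
  rw [h3, II_const_mul φ (fun i p => dt (uu (k * a) v f) 0 i p *
    (LL (uu (k * a) v f 0 i) p).det.re)]
  exact mul_le_mul_of_nonneg_left (by linarith) (by positivity)

end intg

/-! ### The numerical part -/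

theorem numeric {W a c Cb M1 M2 r IHD IHL IHs IR Sv : ℝ} (hW : 0 < W) (ha : 0 ≤ a) (hac : a ≤ c)
    (hCb : 0 ≤ Cb) (hM1 : 0 ≤ M1) (hM2 : 0 ≤ M2) (hr : 1 ≤ r)
    (h1 : IHD ≤ 1 / (r ^ 2) ^ 2 * IHL + 2 * Real.pi ^ 2 / (r ^ 2) ^ 2 * (a * IR))
    (h2 : IHL ≤ Real.pi ^ 2 * W * ((r ^ 2) ^ 2 * (a ^ 2 * c / 2 - a ^ 3 / 6)))
    (h3 : IR ≤ M1 * r)
    (h4 : Sv ≤ (r ^ 2 / Real.pi) ^ 2 * ((1 + Cb / (r ^ 2 * r)) * IHD + 1 / (2 * r ^ 2) * IHs))
    (h5 : W * ((r ^ 2) ^ 2 * (a ^ 2 * c / 2 - a ^ 3 / 6) + r ^ 2 * (a * (c - a) / 2)) - M2 ≤ Sv) :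
    Real.pi ^ 2 * W * (a * (c - a)) - (2 * Real.pi ^ 2 * M2 + 2 * (Cb * (Real.pi ^ 2 * W *
      (a ^ 2 * c / 2 - a ^ 3 / 6)) + (2 * Real.pi ^ 2 * a * M1) +
      Cb * (2 * Real.pi ^ 2 * a * M1))) / r ≤ IHs := by
  have hpi : 0 < Real.pi := Real.pi_pos
  have hr0 : 0 < r := by linarith
  set e : ℝ := a ^ 2 * c / 2 - a ^ 3 / 6 with he
  have he0 : 0 ≤ e := by
    have : e = a ^ 2 * (3 * c - a) / 6 := by rw [he]; ring
    rw [this]
    have : 0 ≤ 3 * c - a := by linarith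
    positivity
  set M3 : ℝ := 2 * Real.pi ^ 2 * a * M1 with hM3
  have hM30 : 0 ≤ M3 := by positivity
  -- first step
  have s1 : IHD ≤ Real.pi ^ 2 * W * e + M3 / r ^ 3 := by
    refine h1.trans ?_
    have t1 : 1 / (r ^ 2) ^ 2 * IHL ≤ Real.pi ^ 2 * W * e := by
      refine (mul_le_mul_of_nonneg_left h2 (by positivity)).trans (le_of_eq ?_)
      field_simp
    have t2 : 2 * Real.pi ^ 2 / (r ^ 2) ^ 2 * (a * IR) ≤ M3 / r ^ 3 := by
      have t3 : a * IR ≤ a * (M1 * r) := mul_le_mul_of_nonneg_left h3 ha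
      refine (mul_le_mul_of_nonneg_left t3 (by positivity)).trans (le_of_eq ?_)
      rw [hM3]
      field_simp
    linarith
  have s2 : (1 + Cb / (r ^ 2 * r)) * IHD ≤ Real.pi ^ 2 * W * e +
      (Cb * (Real.pi ^ 2 * W * e) + M3 + Cb * M3) / r ^ 3 := by
    have t1 : 0 ≤ 1 + Cb / (r ^ 2 * r) := by positivity
    refine (mul_le_mul_of_nonneg_left s1 t1).trans ?_
    have t2 : (1 + Cb / (r ^ 2 * r)) * (Real.pi ^ 2 * W * e + M3 / r ^ 3) =
        Real.pi ^ 2 * W * e + (Cb * (Real.pi ^ 2 * W * e) + M3 + Cb * M3 / r ^ 3) / r ^ 3 := by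
      field_simp
      ring
    rw [t2]
    have t3 : Cb * M3 / r ^ 3 ≤ Cb * M3 := by
      rw [div_le_iff₀ (by positivity)]
      have : 1 ≤ r ^ 3 := one_le_pow₀ hr
      nlinarith [mul_nonneg hCb hM30]
    have t4 : (Cb * (Real.pi ^ 2 * W * e) + M3 + Cb * M3 / r ^ 3) / r ^ 3 ≤
        (Cb * (Real.pi ^ 2 * W * e) + M3 + Cb * M3) / r ^ 3 :=
      div_le_div_of_nonneg_right (by linarith) (by positivity)
    linarith
  set M4 : ℝ := Cb * (Real.pi ^ 2 * W * e) + M3 + Cb * M3 with hM4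
  have hM40 : 0 ≤ M4 := by positivity
  have s3 : W * ((r ^ 2) ^ 2 * e + r ^ 2 * (a * (c - a) / 2)) - M2 ≤
      (r ^ 2 / Real.pi) ^ 2 * (Real.pi ^ 2 * W * e + M4 / r ^ 3 + 1 / (2 * r ^ 2) * IHs) := by
    refine h5.trans (h4.trans ?_)
    refine mul_le_mul_of_nonneg_left ?_ (by positivity)
    linarith
  have s4 : (r ^ 2 / Real.pi) ^ 2 * (Real.pi ^ 2 * W * e + M4 / r ^ 3 + 1 / (2 * r ^ 2) * IHs) =
      W * ((r ^ 2) ^ 2 * e) + M4 * r / Real.pi ^ 2 + r ^ 2 * IHs / (2 * Real.pi ^ 2) := by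
    field_simp
  rw [s4] at s3
  have s5 : W * (r ^ 2 * (a * (c - a) / 2)) - M2 ≤
      M4 * r / Real.pi ^ 2 + r ^ 2 * IHs / (2 * Real.pi ^ 2) := by linarith
  have s6 : (2 * Real.pi ^ 2) * (W * (r ^ 2 * (a * (c - a) / 2)) - M2) ≤
      2 * M4 * r + r ^ 2 * IHs := by
    refine (mul_le_mul_of_nonneg_left s5 (by positivity)).trans (le_of_eq ?_)
    field_simp
  have s7 : r ^ 2 * (Real.pi ^ 2 * W * (a * (c - a)) - (2 * Real.pi ^ 2 * M2 + 2 * M4) / r) ≤
      r ^ 2 * IHs := by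
    have t1 : r ^ 2 * (Real.pi ^ 2 * W * (a * (c - a)) - (2 * Real.pi ^ 2 * M2 + 2 * M4) / r) =
        (2 * Real.pi ^ 2) * (W * (r ^ 2 * (a * (c - a) / 2))) - (2 * Real.pi ^ 2 * M2) * r -
          2 * M4 * r := by
      field_simp
      ring
    rw [t1]
    have t2 : 2 * Real.pi ^ 2 * M2 ≤ (2 * Real.pi ^ 2 * M2) * r := by
      have : 0 ≤ 2 * Real.pi ^ 2 * M2 := by positivity
      nlinarith
    linarith
  exact le_of_mul_le_mul_left s7 (by positivity)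

end Pool.Agent.Y486
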