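import Pool.Agent.Y486.Core
import Pool.Agent.TH997.J115

/-!
# The core theorem: conclusion
-/

set_option autoImplicit false

open scoped Manifold ContDiff Topology ComplexConjugate MatrixGroups UpperHalfPlane Matrix
open scoped ComplexOrder
open MeasureTheory Set Filter

namespace Pool.Agent.Y486

open Pool.Agent.W549.CY (Cn dz dzbar HermitianMetric chernRicci chernScalar)
open Pool.Agent.W711.KC (jj nn CG)
open Pool.Agent.TH598.KG (hf Cutoff)

theorem lim_aux (M : ℝ) : Tendsto (fun k : ℕ => M / √(k : ℝ)) atTop (𝓝 0) := by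
  have h1 : Tendsto (fun k : ℕ => √(k : ℝ)) atTop atTop :=
    Real.tendsto_sqrt_atTop.comp tendsto_natCast_atTop_atTop
  exact h1.const_div_atTop M

theorem t_core (hloc : St_loc) (hMF : St_MF) : St_core := by
  intro a c ha hac P hP hpd'
  have hpd : PD P := hpd'
  obtain ⟨φ, hφ⟩ := Pool.Agent.TH997.KG.exists_cutoff
  obtain ⟨M, k₀, hk₀, hkey⟩ := key hloc hMF hφ ha hac hP hpd
  have hW := WW_pos hφ
  have hpi := Real.pi_pos
  have ha0 : (0 : ℝ) < a := by exact_mod_cast ha
  have hac' : (0 : ℝ) < (c : ℝ) - a := by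
    have : (a : ℝ) < c := by exact_mod_cast hac
    linarith
  have hdD := dn_det hP
  have hds := Dn.fn_mul (fn_sc hP hpd) hdD
  have hev : ∀ᶠ k : ℕ in atTop, k₀ ≤ (k : ℝ) :=
    tendsto_natCast_atTop_atTop.eventually (eventually_ge_atTop k₀)
  constructor
  · intro hneg
    have h1 : ∀ᶠ k : ℕ in atTop, Real.pi ^ 2 * WW φ * (a * (c - a)) ≤ M / √(k : ℝ) := by
      filter_upwards [hev] with k hk
      obtain ⟨H, hH, hb, hI⟩ := hkey k hk
      have h2 := II_nonneg (G := fun i p => (-1) * (H i p * (sc P i p * (LL (P i) p).det.re))) hφ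
        (fun p hp => by
          have h3 : sc P 0 p < 0 := hneg 0 p hp
          have h4 := mul_nonneg (hb 0 p hp).1 (mul_nonneg (neg_nonneg.2 h3.le)
            (hpd.det_pos hP 0 hp).le)
          show 0 ≤ (-1) * (H 0 p * (sc P 0 p * (LL (P 0) p).det.re))
          linarith)
      rw [II_const_mul φ (fun i p => H i p * (sc P i p * (LL (P i) p).det.re))] at h2
      linarith
    have h2 := ge_of_tendsto (lim_aux M) h1
    have h3 : 0 < Real.pi ^ 2 * WW φ * (a * (c - a)) := by positivity
    linarith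
  · intro hc2 hpos
    have h1 : ∀ᶠ k : ℕ in atTop, Real.pi ^ 2 * WW φ * (a * (c - a)) -
        a * (Real.pi ^ 2 * WW φ * (2 * c - 3 * a)) ≤ M / √(k : ℝ) := by
      filter_upwards [hev] with k hk
      obtain ⟨H, hH, hb, hI⟩ := hkey k hk
      have h2 : II φ (fun i p => H i p * (sc P i p * (LL (P i) p).det.re)) ≤
          II φ (fun i p => (a : ℝ) * (sc P i p * (LL (P i) p).det.re)) := by
        refine II_mono hφ (Dn.fn_mul hH hds) (hds.const_mul _) fun p hp => ?_
        have h3 : 0 < sc P 0 p := hpos 0 p hp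
        exact mul_le_mul_of_nonneg_right (hb 0 p hp).2 (mul_nonneg h3.le (hpd.det_pos hP 0 hp).le)
      rw [II_const_mul φ (fun i p => sc P i p * (LL (P i) p).det.re), II_sc hφ hP hpd] at h2
      linarith
    have h2 := ge_of_tendsto (lim_aux M) h1
    have h3 : (c : ℝ) < 2 * a := by exact_mod_cast hc2
    have h4 : Real.pi ^ 2 * WW φ * (a * (c - a)) - a * (Real.pi ^ 2 * WW φ * (2 * c - 3 * a)) =
        Real.pi ^ 2 * WW φ * (a * (2 * a - c)) := by ring
    have h5 : 0 < Real.pi ^ 2 * WW φ * (a * (2 * a - c)) := by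
      have : (0 : ℝ) < 2 * a - c := by linarith
      positivity
    linarith

end Pool.Agent.Y486
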