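import Pool.Agent.Y486.Base

/-!
# Statements of the parts (project: scalar curvature in a Kähler class, `MP_8e561c_gt`)

Every `def St_… : Prop` is the statement of one part; a proof of it is a theorem `t_… : St_…` in a
file of its own. The proposed proofs are sketched in the comments.
-/

set_option autoImplicit false

open scoped Manifold ContDiff Topology ComplexConjugate MatrixGroups UpperHalfPlane Matrix
open MeasureTheory Set Filter

namespace Pool.Agent.Y486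

open Pool.Agent.W549.CY (Cn dz dzbar HermitianMetric chernRicci chernScalar)
open Pool.Agent.W711.KC (jj nn CG)
open Pool.Agent.TH598.KG (hf Cutoff)
open Pool.Agent.TH598 (IsKahler scal HasTotalScalar)

/-- The metric `h'` lies in the Kähler class of `h`: `ω' = ω + i∂∂̄ψ` for a smooth real function
`ψ`. -/
def SameClass {n : ℕ} {X : Type} [TopologicalSpace X] [ChartedSpace (Cn n) X]
    (h h' : HermitianMetric n X) : Prop :=
  ∃ ψ : X → ℝ, ContMDiff 𝓘(ℝ, Cn n) 𝓘(ℝ, ℝ) ∞ ψ ∧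
    ∀ e ∈ atlas (Cn n) X, ∀ z ∈ e.target, ∀ j k : Fin n,
      h'.g e z j k = h.g e z j k + dz j (dzbar k fun w => ((ψ (e.symm w) : ℝ) : ℂ)) z

/-- **Part LOC** (pure analysis in `ℂ²`, Mathlib only). The upper bound of the Bergman function with
the sharp second term, uniformly on compact sets.
`LL P = (∂²P/∂z_j∂z̄_k)` is the Kähler metric `g`, `det g · Lebesgue` its volume, `k P` the weight,
`dz j F - k dz j P F` the covariant derivative of the section `F`, `hf g v = ∑ g_{jk} v_j conj v_k`. -/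
def St_loc : Prop :=
  ∀ (U : Set (Cn 2)) (P : Cn 2 → ℝ), IsOpen U → ContDiffOn ℝ ∞ P U →
    (∀ x ∈ U, ∀ v : Cn 2, v ≠ 0 → 0 < (hf (LL P x) v).re) →
    ∀ K : Set (Cn 2), IsCompact K → ∀ r > 0, (∀ x ∈ K, Metric.closedBall x r ⊆ U) →
      ∃ C k₀ : ℝ, 1 ≤ k₀ ∧ ∀ x ∈ K, ∀ k : ℝ, k₀ ≤ k → ∀ F : Cn 2 → ℂ, DifferentiableOn ℂ F U →
        ∀ (α : ℂ) (v : Cn 2),
          Complex.normSq (α * F x +
              ∑ j, v j * (dz j F x - k * dz j (fun q => ((P q : ℝ) : ℂ)) x * F x)) *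
              Real.exp (-(k * P x)) ≤
            (k / Real.pi) ^ 2 * (1 + (chernScalar (LL P) x).re / (2 * k) + C / (k * √k)) *
              (Complex.normSq α + k * (hf (LL P x) v).re) *
              ∫ p in Metric.ball x r,
                Complex.normSq (F p) * Real.exp (-(k * P p)) * (LL P p).det.re

/-- **Part MF**. Automorphic forms of large weight on the cocompact group `CG`: sharp lower bound for
the dimension (`WW φ` is the area of `Γ \ ℍ` divided by `4 π`) and no common zeros. -/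
def St_MF : Prop :=
  ∀ φ : ℂ → ℝ, Cutoff CG φ → ∃ K q : ℝ, 0 ≤ q ∧ q < 1 ∧ ∃ m₀ : ℕ, ∀ m : ℕ, m₀ ≤ m →
    ∃ (N : ℕ) (f : Fin N → ℂ → ℂ), (∀ i, IsMF m (f i)) ∧
      LinearIndependent ℂ (fun i => fun z : ℍ => f i z) ∧
      ((m : ℝ) - 1) * WW φ - K * q ^ m ≤ N ∧ ∀ z : ℂ, 0 < z.im → ∃ i, f i z ≠ 0

/-- **Part X**. The manifold, the reference metrics and the transfer to the charts. -/
def St_X : Prop :=
  ∃ (X : Type) (_ : TopologicalSpace X) (_ : CompactSpace X) (_ : T2Space X)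
    (_ : ConnectedSpace X) (_ : ChartedSpace (Cn 2) X) (_ : IsManifold 𝓘(ℂ, Cn 2) ω X)
    (_ : MeasurableSpace X) (_ : BorelSpace X), ∀ A C : ℝ, 0 < A → A < C →
    ∃ h₀ : HermitianMetric 2 X, IsKahler h₀ ∧
      (∀ φ : ℂ → ℝ, Cutoff CG φ → HasTotalScalar h₀ (∫ p in UU, φ (p 0) *
        (4 * ((LL (Rw A C 0) p).det.re * (chernScalar (LL (Rw A C 0)) p).re)))) ∧
      ∀ h : HermitianMetric 2 X, IsKahler h → SameClass h₀ h →
        ∃ P : Fin 2 → Cn 2 → ℝ, Wt A C P ∧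
          (∀ i, ∀ p ∈ UU, ∀ v : Cn 2, v ≠ 0 → 0 < (hf (LL (P i) p) v).re) ∧
          ∀ i, ∀ p ∈ UU, ∃ x : X, scal h x = (chernScalar (LL (P i)) p).re

/-- **Part COV**. A compact set meeting all orbits. -/
def St_cover : Prop :=
  ∃ K : Set (Cn 2), IsCompact K ∧ K ⊆ UU ∧
    ∀ i, ∀ p ∈ UU, ∃ g ∈ CG, ∃ j, hom g i p j ≠ 0 ∧ FF g i j p ∈ K

/-- **Part STO**. Stokes' theorem on the quotient: `∫ (f i∂∂̄h + i∂f ∧ ∂̄h) ∧ i∂∂̄P = 0`. -/
def St_stokes : Prop :=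
  ∀ φ : ℂ → ℝ, Cutoff CG φ → ∀ f h : Fin 2 → Cn 2 → ℝ, Wt 0 0 f → Wt 0 0 h →
    ∀ (A C : ℝ) (P : Fin 2 → Cn 2 → ℝ), Wt A C P →
      ∫ p in UU, φ (p 0) * (f 0 p * DD (LL (h 0) p) (LL (P 0) p) +
        DD (Matrix.of fun j k => dz j (fun q => ((f 0 q : ℝ) : ℂ)) p *
          dzbar k (fun q => ((h 0 q : ℝ) : ℂ)) p) (LL (P 0) p)) = 0

/-- **Part EN**. The energy inequality along a one-parameter group: if `F ι` are sections of type
`(A, C)`, `F ι` vanishing to order at least `v ι` along `x 1 = 0`, and the sections with `v = 0`,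
resp. `v = A`, do not vanish simultaneously on `x 1 = 0`, resp. `x 0 = 0`, then
`∫ (∑ v |F|² / S) det (∂∂̄ log S) ≤ π² W (A² C / 2 - A³ / 6)`, `S = ∑ |F|²`. -/
def St_E : Prop :=
  ∀ φ : ℂ → ℝ, Cutoff CG φ → ∀ A C : ℕ, 1 ≤ A → A ≤ C → ∀ (N : ℕ) (v : Fin N → ℕ)
    (f : Fin N → ℕ → ℂ → ℂ), (∀ ι, v ι ≤ A) → (∀ ι, IsSec A C (v ι) (f ι)) →
    (∀ z : ℂ, 0 < z.im → ∃ ι, v ι = 0 ∧ f ι 0 z ≠ 0) →
    (∀ z : ℂ, 0 < z.im → ∃ ι, v ι = A ∧ f ι A z ≠ 0) →
    ∫ p in UU, φ (p 0) * ((∑ ι, v ι * Complex.normSq (sec A (f ι) 0 p)) /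
        (∑ ι, Complex.normSq (sec A (f ι) 0 p)) *
        (LL (fun q => Real.log (∑ ι, Complex.normSq (sec A (f ι) 0 q))) p).det.re) ≤
      Real.pi ^ 2 * WW φ * ((A : ℝ) ^ 2 * C / 2 - (A : ℝ) ^ 3 / 6)

/-- **Part CORE** (the assembly). There is no metric of negative scalar curvature in the class
`(a, c)`, and none of positive scalar curvature if `c < 2 a`. -/
def St_core : Prop :=
  ∀ a c : ℕ, 1 ≤ a → a < c → ∀ P : Fin 2 → Cn 2 → ℝ, Wt a c P →
    (∀ i, ∀ p ∈ UU, ∀ v : Cn 2, v ≠ 0 → 0 < (hf (LL (P i) p) v).re) →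
    (¬ ∀ i, ∀ p ∈ UU, (chernScalar (LL (P i)) p).re < 0) ∧
    (c < 2 * a → ¬ ∀ i, ∀ p ∈ UU, 0 < (chernScalar (LL (P i)) p).re)

/-- The final statement. -/
def St_final : Prop :=
  ∃ (X : Type) (_ : TopologicalSpace X) (_ : CompactSpace X) (_ : T2Space X)
    (_ : ConnectedSpace X) (_ : ChartedSpace (Cn 2) X) (_ : IsManifold 𝓘(ℂ, Cn 2) ω X)
    (_ : MeasurableSpace X) (_ : BorelSpace X),
    (∃ h₀ : HermitianMetric 2 X, IsKahler h₀ ∧ (∃ T > 0, HasTotalScalar h₀ T) ∧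
      ∀ h : HermitianMetric 2 X, IsKahler h → SameClass h₀ h → ∃ x, scal h x ≤ 0) ∧
    (∃ h₀ : HermitianMetric 2 X, IsKahler h₀ ∧ (∃ T < 0, HasTotalScalar h₀ T) ∧
      ∀ h : HermitianMetric 2 X, IsKahler h → SameClass h₀ h → ∃ x, 0 ≤ scal h x)

end Pool.Agent.Y486
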