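import Pool.Agent.Y486.Act
import Pool.Agent.Y486.Stm
import Pool.Agent.TH997.J262

/-!
# Densities on the quotient: integrability, change of charts, unfolding
-/

set_option autoImplicit false

open scoped Manifold ContDiff Topology ComplexConjugate MatrixGroups UpperHalfPlane Matrix
open MeasureTheory Set Filter

namespace Pool.Agent.Y486

open Pool.Agent.W549.CY (Cn dz dzbar HermitianMetric chernRicci chernScalar)
open Pool.Agent.W711.KC (jj nn CG CG_far NN_pos jj_ne im_mob jj_mul nn_mul det_eq)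
open Pool.Agent.TH598.KG (hf Cutoff)
open Pool.Agent.TH997.KG (mob VV mob_mem mob_mul mob_one mob_inv_left mob_inv_right mob_coe
  hasDerivAt_mob isOpen_VV)
open Pool.Agent.TH997.KGO (free_mob meas_inter tsum_ofReal)
open Pool.Agent.TH997.CMan
open Complex (normSq)

/-! ### Cover -/

theorem t_cover : St_cover := by
  obtain ⟨K0, hK0, hc⟩ := Pool.Agent.H85R3.HS.cocompact NN_pos
  have hK1 : IsCompact ((↑) '' K0 : Set ℂ) := hK0.image UpperHalfPlane.continuous_coe
  refine ⟨Set.pi univ ![((↑) '' K0 : Set ℂ), Metric.closedBall 0 1], ?_, ?_, ?_⟩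
  · refine isCompact_univ_pi fun k => ?_
    fin_cases k
    · exact hK1
    · exact isCompact_closedBall _ _
  · intro p hp
    obtain ⟨z, _, hz⟩ := hp 0 (mem_univ _)
    show 0 < (p 0).im
    rw [← hz]
    exact z.im_pos
  · intro i p hp
    obtain ⟨g, hg, hgK⟩ := hc ⟨p 0, hp⟩
    have hj : ∃ j : Fin 2, hom g i p j ≠ 0 ∧ ‖outc j (hom g i p)‖ ≤ 1 := by
      by_cases h : ‖hom g i p 0‖ ≤ ‖hom g i p 1‖
      · have h1 : hom g i p 1 ≠ 0 := by
          intro h0
          rw [h0, norm_zero] at h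
          have h00 : hom g i p 0 = 0 := norm_eq_zero.1 (le_antisymm h (norm_nonneg _))
          obtain ⟨j, hj⟩ := hom_ne g i hp
          fin_cases j
          · exact hj h00
          · exact hj h0
        refine ⟨1, h1, ?_⟩
        show ‖hom g i p 0 / hom g i p 1‖ ≤ 1
        rw [norm_div]
        exact (div_le_one (norm_pos_iff.2 h1)).2 h
      · have h2 := not_le.1 h
        have h1 : hom g i p 0 ≠ 0 := norm_pos_iff.1 (lt_of_le_of_lt (norm_nonneg _) h2)
        refine ⟨0, h1, ?_⟩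
        show ‖hom g i p 1 / hom g i p 0‖ ≤ 1
        rw [norm_div]
        exact (div_le_one (norm_pos_iff.2 h1)).2 h2.le
    obtain ⟨j, hj, hj'⟩ := hj
    refine ⟨g, hg, j, hj, ?_⟩
    intro k _
    fin_cases k
    · exact ⟨_, hgK, mob_coe g ⟨p 0, hp⟩⟩
    · show outc j (hom g i p) ∈ Metric.closedBall (0 : ℂ) 1
      rw [mem_closedBall_zero_iff]
      exact hj'

/-! ### Densities -/

/-- continuous densities on the quotient -/
structure Dn (G : Fin 2 → Cn 2 → ℝ) : Prop where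
  cont : ∀ i, ContinuousOn (G i) UU
  compat : ∀ g ∈ CG, ∀ i j, ∀ p ∈ UU, hom g i p j ≠ 0 → G i p = JD g i j p * G j (FF g i j p)

theorem Wt.invar {f : Fin 2 → Cn 2 → ℝ} (hf : Wt 0 0 f) {g : SL(2, ℝ)} (hg : g ∈ CG) (i j : Fin 2)
    {p : Cn 2} (hp : p ∈ UU) (h : hom g i p j ≠ 0) : f j (FF g i j p) = f i p := by
  rw [hf.compat g hg i j p hp h]
  simp

theorem Dn.add {G H : Fin 2 → Cn 2 → ℝ} (hG : Dn G) (hH : Dn H) :
    Dn fun i p => G i p + H i p := by
  refine ⟨fun i => (hG.cont i).add (hH.cont i), fun g hg i j p hp h => ?_⟩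
  rw [hG.compat g hg i j p hp h, hH.compat g hg i j p hp h]
  ring

theorem Dn.sub {G H : Fin 2 → Cn 2 → ℝ} (hG : Dn G) (hH : Dn H) :
    Dn fun i p => G i p - H i p := by
  refine ⟨fun i => (hG.cont i).sub (hH.cont i), fun g hg i j p hp h => ?_⟩
  rw [hG.compat g hg i j p hp h, hH.compat g hg i j p hp h]
  ring

theorem Dn.const_mul {G : Fin 2 → Cn 2 → ℝ} (hG : Dn G) (c : ℝ) :
    Dn fun i p => c * G i p := by
  refine ⟨fun i => continuousOn_const.mul (hG.cont i), fun g hg i j p hp h => ?_⟩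
  rw [hG.compat g hg i j p hp h]
  ring

/-- Continuous functions on the quotient. -/
structure Fn (f : Fin 2 → Cn 2 → ℝ) : Prop where
  cont : ∀ i, ContinuousOn (f i) UU
  invar : ∀ g ∈ CG, ∀ i j, ∀ p ∈ UU, hom g i p j ≠ 0 → f j (FF g i j p) = f i p

theorem Wt.fn {f : Fin 2 → Cn 2 → ℝ} (hf : Wt 0 0 f) : Fn f :=
  ⟨fun i => (hf.smooth i).continuousOn, fun _ hg i j _ hp h => hf.invar hg i j hp h⟩

theorem Dn.fn_mul {f G : Fin 2 → Cn 2 → ℝ} (hf : Fn f) (hG : Dn G) :
    Dn fun i p => f i p * G i p := by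
  refine ⟨fun i => (hf.cont i).mul (hG.cont i), fun g hg i j p hp h => ?_⟩
  rw [hG.compat g hg i j p hp h, hf.invar g hg i j p hp h]
  ring

theorem Fn.mul {f G : Fin 2 → Cn 2 → ℝ} (hf : Fn f) (hG : Fn G) :
    Fn fun i p => f i p * G i p := by
  refine ⟨fun i => (hf.cont i).mul (hG.cont i), fun g hg i j p hp h => ?_⟩
  rw [hG.invar g hg i j p hp h, hf.invar g hg i j p hp h]

theorem Fn.add {f G : Fin 2 → Cn 2 → ℝ} (hf : Fn f) (hG : Fn G) :
    Fn fun i p => f i p + G i p := by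
  refine ⟨fun i => (hf.cont i).add (hG.cont i), fun g hg i j p hp h => ?_⟩
  rw [hG.invar g hg i j p hp h, hf.invar g hg i j p hp h]

theorem Fn.const (c : ℝ) : Fn fun _ _ => c :=
  ⟨fun _ => continuousOn_const, fun _ _ _ _ _ _ _ => rfl⟩

theorem Fn.abs {f : Fin 2 → Cn 2 → ℝ} (hf : Fn f) : Fn fun i p => |f i p| := by
  refine ⟨fun i => (hf.cont i).abs, fun g hg i j p hp h => ?_⟩
  rw [hf.invar g hg i j p hp h]

/-- A continuous function on the quotient is bounded. -/
theorem Fn.bdd {f : Fin 2 → Cn 2 → ℝ} (hf : Fn f) : ∃ C : ℝ, 0 ≤ C ∧ ∀ i, ∀ p ∈ UU, |f i p| ≤ C := by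
  obtain ⟨K, hK, hKU, hc⟩ := t_cover
  have h1 : ∀ j, ∃ C : ℝ, ∀ p ∈ K, |f j p| ≤ C := by
    intro j
    obtain ⟨C, hC⟩ := hK.exists_bound_of_continuousOn ((hf.cont j).mono hKU)
    exact ⟨C, hC⟩
  obtain ⟨C0, h0⟩ := h1 0
  obtain ⟨C1, h1⟩ := h1 1
  refine ⟨max 0 (max C0 C1), le_max_left _ _, fun i p hp => ?_⟩
  obtain ⟨g, hg, j, hj, hK⟩ := hc i p hp
  rw [← hf.invar g hg i j p hp hj]
  fin_cases j
  · exact (h0 _ hK).trans ((le_max_left _ _).trans (le_max_right _ _))
  · exact (h1 _ hK).trans ((le_max_right _ _).trans (le_max_right _ _))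

/-! ### The partition -/

theorem Nn_pos (i : Fin 2) {p : Cn 2} (hp : p ∈ UU) : 0 < Nn i p := by
  have h0 := Complex.normSq_nonneg (ins i p 0)
  have h1 := Complex.normSq_nonneg (ins i p 1)
  have hy : 0 < (p 0).im := hp
  unfold Nn
  fin_cases i
  · have : normSq (ins 0 p 0) = 1 := by simp [ins]
    change 0 < (p 0).im * normSq (ins 0 p 0) + normSq (ins 0 p 1)
    rw [this, mul_one]
    exact add_pos_of_pos_of_nonneg hy h1
  · have : normSq (ins 1 p 1) = 1 := by simp [ins]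
    change 0 < (p 0).im * normSq (ins 1 p 0) + normSq (ins 1 p 1)
    rw [this]
    exact add_pos_of_nonneg_of_pos (mul_nonneg hy.le h0) one_pos

theorem Nn_FF (g : SL(2, ℝ)) (i j : Fin 2) {p : Cn 2} (hp : p ∈ UU) (h : hom g i p j ≠ 0) :
    Nn j (FF g i j p) = Nn i p / normSq (hom g i p j) := by
  have hj : normSq (jj g (p 0)) ≠ 0 := (Complex.normSq_pos.2 (jj_ne g hp)).ne'
  have hh : normSq (hom g i p j) ≠ 0 := (Complex.normSq_pos.2 h).ne'
  unfold Nn
  rw [ins_FF g i j h]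
  have h1 : ((FF g i j p) 0).im = (p 0).im / normSq (jj g (p 0)) := im_mob g hp
  rw [h1]
  simp only [Pi.smul_apply, smul_eq_mul, map_mul, map_inv₀]
  have h2 : normSq (hom g i p 0) = normSq (jj g (p 0)) * normSq (ins i p 0) := map_mul _ _ _
  have h3 : normSq (hom g i p 1) = normSq (ins i p 1) := rfl
  rw [h2, h3]
  field_simp

/-- The invariant function `σ = |x 1|² / N`. -/
noncomputable def sgm (i : Fin 2) (p : Cn 2) : ℝ := normSq (ins i p 1) / Nn i p

theorem sgm_FF (g : SL(2, ℝ)) (i j : Fin 2) {p : Cn 2} (hp : p ∈ UU) (h : hom g i p j ≠ 0) :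
    sgm j (FF g i j p) = sgm i p := by
  have hh : normSq (hom g i p j) ≠ 0 := (Complex.normSq_pos.2 h).ne'
  unfold sgm
  rw [Nn_FF g i j hp h, ins_FF g i j h]
  simp only [Pi.smul_apply, smul_eq_mul, map_mul, map_inv₀]
  have h3 : normSq (hom g i p 1) = normSq (ins i p 1) := rfl
  rw [h3]
  have := (Nn_pos i hp).ne'
  field_simp

theorem contDiff_normSq_ins (i k : Fin 2) {n : WithTop ℕ∞} :
    ContDiff ℝ n fun p : Cn 2 => normSq (ins i p k) := by
  have h3 : (fun p : Cn 2 => normSq (ins i p k)) = fun q => ‖ins i q k‖ ^ 2 := by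
    funext q
    exact Complex.normSq_eq_norm_sq _
  rw [h3]
  exact ((contDiff_ins i k).restrict_scalars ℝ).norm_sq ℝ

theorem contDiff_im {n : WithTop ℕ∞} : ContDiff ℝ n fun p : Cn 2 => (p 0).im :=
  Complex.imCLM.contDiff.comp (contDiff_apply ℝ ℂ (0 : Fin 2))

theorem contDiff_Nn (i : Fin 2) {n : WithTop ℕ∞} : ContDiff ℝ n (Nn i) :=
  (contDiff_im.mul (contDiff_normSq_ins i 0)).add (contDiff_normSq_ins i 1)

theorem contDiffOn_sgm (i : Fin 2) {n : WithTop ℕ∞} : ContDiffOn ℝ n (sgm i) UU :=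
  (contDiff_normSq_ins i 1).contDiffOn.div (contDiff_Nn i).contDiffOn fun p hp => (Nn_pos i hp).ne'

theorem wt_sgm {η : ℝ → ℝ} (hη : ContDiff ℝ ∞ η) : Wt 0 0 fun i p => η (sgm i p) := by
  refine ⟨fun i => hη.comp_contDiffOn (contDiffOn_sgm i), fun g _ i j p hp h => ?_⟩
  simp only [sgm_FF g i j hp h]
  ring

/-- a smooth step -/
noncomputable def eta (x : ℝ) : ℝ := Real.smoothTransition (2 * x - 1 / 2)

theorem contDiff_eta : ContDiff ℝ ∞ eta := by
  unfold eta
  exact Real.smoothTransition.contDiff.comp (by fun_prop)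

/-- the partition of unity -/
noncomputable def tht (k i : Fin 2) (p : Cn 2) : ℝ := ![1 - eta (sgm i p), eta (sgm i p)] k

theorem wt_tht (k : Fin 2) : Wt 0 0 (tht k) := by
  fin_cases k
  · exact wt_sgm (η := fun x => 1 - eta x) (contDiff_const.sub contDiff_eta)
  · exact wt_sgm contDiff_eta

theorem tht_add (i : Fin 2) (p : Cn 2) : tht 0 i p + tht 1 i p = 1 := by
  show 1 - eta (sgm i p) + eta (sgm i p) = 1
  ring

theorem tht_supp (k : Fin 2) {p : Cn 2} (hp : p ∈ UU) (h : tht k k p ≠ 0) :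
    normSq (p 1) ≤ 3 * max (p 0).im (1 / (p 0).im) := by
  have hy : 0 < (p 0).im := hp
  have hN := Nn_pos k hp
  fin_cases k
  · have h1 : sgm 0 p < 3 / 4 := by
      by_contra hc
      apply h
      show 1 - eta (sgm 0 p) = 0
      unfold eta
      rw [Real.smoothTransition.one_of_one_le (by linarith [not_lt.1 hc])]
      ring
    have e1 : Nn 0 p = (p 0).im + normSq (p 1) := by
      simp [Nn, ins]
    unfold sgm at h1
    rw [div_lt_iff₀ (Nn_pos 0 hp), e1] at h1
    have e2 : normSq (ins 0 p 1) = normSq (p 1) := by simp [ins]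
    rw [e2] at h1
    have := le_max_left (p 0).im (1 / (p 0).im)
    linarith
  · have h1 : 1 / 4 < sgm 1 p := by
      by_contra hc
      apply h
      show eta (sgm 1 p) = 0
      unfold eta
      exact Real.smoothTransition.zero_of_nonpos (by linarith [not_lt.1 hc])
    have e1 : Nn 1 p = (p 0).im * normSq (p 1) + 1 := by
      simp [Nn, ins]
    unfold sgm at h1
    rw [lt_div_iff₀ (Nn_pos 1 hp), e1] at h1
    have e2 : normSq (ins 1 p 1) = 1 := by simp [ins]
    rw [e2] at h1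
    have h3 := le_max_right (p 0).im (1 / (p 0).im)
    have h4 : normSq (p 1) ≤ 3 * (1 / (p 0).im) := by
      rw [mul_one_div, le_div_iff₀ hy]
      linarith
    linarith

/-- `φ (p 0) G p` is continuous with compact support if `G` vanishes for large `p 1`. -/
theorem cs_aux {E : Type} [NormedAddCommGroup E] [NormedSpace ℝ E] {φ : ℂ → ℝ} (hφc : Continuous φ)
    (hφs : HasCompactSupport φ)
    (hφU : tsupport φ ⊆ {z | 0 < z.im}) {G : Cn 2 → E} (hG : ContinuousOn G UU)
    (h0 : ∀ p ∈ UU, G p ≠ 0 → normSq (p 1) ≤ 3 * max (p 0).im (1 / (p 0).im)) :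
    Continuous (fun p : Cn 2 => φ (p 0) • G p) ∧
      HasCompactSupport (fun p : Cn 2 => φ (p 0) • G p) := by
  refine ⟨?_, ?_⟩
  · rw [continuous_iff_continuousAt]
    intro p
    by_cases hp : p 0 ∈ tsupport φ
    · have hpU : p ∈ UU := hφU hp
      exact (hφc.continuousAt.comp (continuous_apply (0 : Fin 2)).continuousAt).smul
        (hG.continuousAt (isOpen_UU.mem_nhds hpU))
    · have h1 := notMem_tsupport_iff_eventuallyEq.1 hp
      have h2 : ∀ᶠ q : Cn 2 in 𝓝 p, φ (q 0) = 0 :=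
        (continuous_apply (0 : Fin 2)).continuousAt.eventually h1
      refine (continuousAt_const (y := (0 : E))).congr ?_
      filter_upwards [h2] with q hq
      rw [hq, zero_smul]
  · have hK := hφs.isCompact
    obtain ⟨M, hM⟩ : ∃ M : ℝ, ∀ z ∈ tsupport φ, max z.im (1 / z.im) ≤ M := by
      have hc : ContinuousOn (fun z : ℂ => max z.im (1 / z.im)) (tsupport φ) := by
        refine ContinuousOn.sup Complex.continuous_im.continuousOn ?_
        exact continuousOn_const.div Complex.continuous_im.continuousOn fun z hz =>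
          (hφU hz : 0 < z.im).ne'
      obtain ⟨M, hM⟩ := hK.exists_bound_of_continuousOn hc
      exact ⟨M, fun z hz => (le_abs_self _).trans (hM z hz)⟩
    have hcomp : IsCompact (Set.pi univ (![tsupport φ, Metric.closedBall 0 (3 * M + 1)] :
        Fin 2 → Set ℂ)) := by
      refine isCompact_univ_pi fun k => ?_
      fin_cases k
      · exact hK
      · exact isCompact_closedBall _ _
    refine HasCompactSupport.of_support_subset_isCompact hcomp ?_
    intro p hp
    have h1 : φ (p 0) ≠ 0 := by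
      intro h
      apply hp
      simp only [h, zero_smul]
    have h2 : G p ≠ 0 := by
      intro h
      apply hp
      simp only [h, smul_zero]
    have h3 := subset_tsupport _ h1
    have h4 := h0 p (hφU h3) h2
    have h5 := hM _ h3
    intro k _
    fin_cases k
    · exact h3
    · show p 1 ∈ Metric.closedBall (0 : ℂ) (3 * M + 1)
      rw [mem_closedBall_zero_iff]
      rw [Complex.normSq_eq_norm_sq] at h4
      nlinarith [norm_nonneg (p 1), sq_nonneg (‖p 1‖ - 1)]

/-! ### Change of charts -/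

/-- the overlap of the two charts -/
def OV : Set (Cn 2) := {p | p ∈ UU ∧ p 1 ≠ 0}

theorem isOpen_OV : IsOpen OV :=
  isOpen_UU.inter ((continuous_apply (1 : Fin 2)).isOpen_preimage _ isOpen_compl_singleton)

theorem null_coord : volume {b : Cn 2 | b 1 = 0} = 0 := by
  rw [volume_pi]
  exact Measure.pi_hyperplane (μ := fun _ : Fin 2 => (volume : Measure ℂ)) (1 : Fin 2) 0

theorem OV_ae : OV =ᵐ[volume] UU := by
  have h : OV = UU \ {b : Cn 2 | b 1 = 0} := by
    ext p
    rfl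
  rw [h]
  exact sdiff_null_ae_eq_self null_coord

theorem hom_one_ne {i j : Fin 2} {p : Cn 2} (hp : p 1 ≠ 0) : hom 1 i p j ≠ 0 := by
  rw [hom_one]
  fin_cases i <;> fin_cases j <;> simp [ins, hp]

theorem FF_one_OV {i j : Fin 2} (hij : i ≠ j) (p : Cn 2) : FF 1 i j p = ![p 0, (p 1)⁻¹] := by
  unfold FF
  rw [hom_one, jj_one', nn_one', div_one]
  fin_cases i <;> fin_cases j <;> simp [outc, ins] at hij ⊢

theorem image_OV {i j : Fin 2} (hij : i ≠ j) : FF 1 i j '' OV = OV := by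
  apply Set.Subset.antisymm
  · rintro _ ⟨p, hp, rfl⟩
    rw [FF_one_OV hij]
    exact ⟨hp.1, inv_ne_zero hp.2⟩
  · rintro p hp
    refine ⟨![p 0, (p 1)⁻¹], ⟨hp.1, inv_ne_zero hp.2⟩, ?_⟩
    rw [FF_one_OV hij]
    funext k
    fin_cases k
    · rfl
    · exact inv_inv _

theorem injOn_OV {i j : Fin 2} (hij : i ≠ j) : InjOn (FF 1 i j) OV := by
  intro p _ q _ h
  rw [FF_one_OV hij, FF_one_OV hij] at h
  funext k
  fin_cases k
  · exact congrFun h 0
  · exact inv_injective (congrFun h 1)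

section change

variable {φ : ℂ → ℝ} {G : Fin 2 → Cn 2 → ℝ}

theorem change_fun (hG : Dn G) (i j : Fin 2) {p : Cn 2} (hp : p ∈ OV) :
    |((JF 1 i j p).restrictScalars ℝ : Cn 2 →L[ℝ] Cn 2).det| •
      (φ ((FF 1 i j p) 0) * G j (FF 1 i j p)) = φ (p 0) * G i p := by
  rw [det_JF 1 i j hp.1, abs_of_pos (JD_pos 1 i j hp.1 (hom_one_ne hp.2)),
    hG.compat 1 CG.one_mem i j p hp.1 (hom_one_ne hp.2), FF_zero, mob_one, smul_eq_mul]
  ring

theorem chart_change_integrable (hG : Dn G) {i j : Fin 2} (hij : i ≠ j) :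
    IntegrableOn (fun p : Cn 2 => φ (p 0) * G j p) UU ↔
      IntegrableOn (fun p : Cn 2 => φ (p 0) * G i p) UU := by
  rw [← integrableOn_congr_set_ae OV_ae, ← integrableOn_congr_set_ae OV_ae]
  have h := integrableOn_image_iff_integrableOn_abs_det_fderiv_smul volume isOpen_OV.measurableSet
    (f := FF 1 i j) (f' := fun p => (JF 1 i j p).restrictScalars ℝ)
    (fun p hp => ((hasFDerivAt_FF 1 i j hp.1 (hom_one_ne hp.2)).restrictScalars
      ℝ).hasFDerivWithinAt) (injOn_OV hij) (fun p : Cn 2 => φ (p 0) * G j p)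
  rw [image_OV hij] at h
  rw [h]
  exact integrableOn_congr_fun (fun p hp => change_fun hG i j hp) isOpen_OV.measurableSet

theorem chart_change (hG : Dn G) {i j : Fin 2} (hij : i ≠ j) :
    ∫ p in UU, φ (p 0) * G j p = ∫ p in UU, φ (p 0) * G i p := by
  rw [← setIntegral_congr_set OV_ae, ← setIntegral_congr_set OV_ae]
  have h := integral_image_eq_integral_abs_det_fderiv_smul volume isOpen_OV.measurableSet
    (f := FF 1 i j) (f' := fun p => (JF 1 i j p).restrictScalars ℝ)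
    (fun p hp => ((hasFDerivAt_FF 1 i j hp.1 (hom_one_ne hp.2)).restrictScalars
      ℝ).hasFDerivWithinAt) (injOn_OV hij) (fun p : Cn 2 => φ (p 0) * G j p)
  rw [image_OV hij] at h
  rw [h]
  exact setIntegral_congr_fun isOpen_OV.measurableSet fun p hp => change_fun hG i j hp

theorem Dn.cs (hφ : Cutoff CG φ) (hG : Dn G) (k : Fin 2) :
    Continuous (fun p : Cn 2 => φ (p 0) * (tht k k p * G k p)) ∧
      HasCompactSupport (fun p : Cn 2 => φ (p 0) * (tht k k p * G k p)) := by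
  have h := cs_aux hφ.smooth.continuous hφ.compact hφ.supp
    (G := fun p => tht k k p * G k p) (((wt_tht k).smooth k).continuousOn.mul (hG.cont k))
    (fun p hp h => tht_supp k hp (left_ne_zero_of_mul h))
  simpa using h

theorem Dn.cs_int (hφ : Cutoff CG φ) (hG : Dn G) (k : Fin 2) :
    IntegrableOn (fun p : Cn 2 => φ (p 0) * (tht k k p * G k p)) UU :=
  ((hG.cs hφ k).1.integrable_of_hasCompactSupport (hG.cs hφ k).2).integrableOn

theorem Dn.int_tht (hφ : Cutoff CG φ) (hG : Dn G) (k i : Fin 2) :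
    IntegrableOn (fun p : Cn 2 => φ (p 0) * (tht k i p * G i p)) UU := by
  by_cases h : k = i
  · subst h
    exact hG.cs_int hφ k
  · exact (chart_change_integrable (Dn.fn_mul (wt_tht k).fn hG) (Ne.symm h)).1
      (hG.cs_int hφ k)

/-- densities are integrable -/
theorem Dn.integrable (hφ : Cutoff CG φ) (hG : Dn G) (i : Fin 2) :
    IntegrableOn (fun p : Cn 2 => φ (p 0) * G i p) UU := by
  refine ((hG.int_tht hφ 0 i).add (hG.int_tht hφ 1 i)).congr_fun (fun p _ => ?_) measurableSet_UU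
  show φ (p 0) * (tht 0 i p * G i p) + φ (p 0) * (tht 1 i p * G i p) = _
  have := tht_add i p
  linear_combination (φ (p 0) * G i p) * this

/-- the integral of a density is the sum of two integrals of functions with compact support -/
theorem Dn.split (hφ : Cutoff CG φ) (hG : Dn G) :
    ∫ p in UU, φ (p 0) * G 0 p = (∫ p in UU, φ (p 0) * (tht 0 0 p * G 0 p)) +
      ∫ p in UU, φ (p 0) * (tht 1 1 p * G 1 p) := by
  rw [chart_change (Dn.fn_mul (wt_tht 1).fn hG) (show (0 : Fin 2) ≠ 1 by decide),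
    ← integral_add (hG.int_tht hφ 0 0) (hG.int_tht hφ 1 0)]
  refine setIntegral_congr_fun measurableSet_UU fun p _ => ?_
  show φ (p 0) * G 0 p = φ (p 0) * (tht 0 0 p * G 0 p) + φ (p 0) * (tht 1 0 p * G 0 p)
  have := tht_add 0 p
  linear_combination (-φ (p 0) * G 0 p) * this

/-! ### Unfolding -/

/-- The integral of a non-negative density over a set injecting into the quotient is at most the
total integral. -/
theorem unfold_le (hφ : Cutoff CG φ) (hG : Dn G) (hG0 : ∀ i, ∀ p ∈ UU, 0 ≤ G i p) (i : Fin 2)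
    {E : Set (Cn 2)} (hE : MeasurableSet E) (hEU : E ⊆ UU)
    (hinj : ∀ p ∈ E, ∀ q ∈ E, ∀ g ∈ CG, mob g (p 0) = q 0 → g = 1) :
    ∫⁻ p in E, ENNReal.ofReal (G i p) ≤ ENNReal.ofReal (∫ p in UU, φ (p 0) * G 0 p) := by
  have : Countable CG := CG_far.countable one_pos
  let V : CG → Set (Cn 2) := fun g => {p | p ∈ UU ∧ hom g i p 0 ≠ 0}
  have hVo : ∀ g, IsOpen (V g) := fun g =>
    isOpen_UU.inter ((continuous_hom g i 0).isOpen_preimage _ isOpen_compl_singleton)
  have hVae : ∀ g : CG, (E ∩ V g : Set (Cn 2)) =ᵐ[volume] E := by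
    intro g
    have h1 : E ∩ V g = E \ {b : Cn 2 | b ∈ UU ∧ hom g i b 0 = 0} := by
      ext p
      constructor
      · rintro ⟨h1, h2, h3⟩
        exact ⟨h1, fun h => h3 h.2⟩
      · rintro ⟨h1, h2⟩
        exact ⟨h1, hEU h1, fun h => h2 ⟨hEU h1, h⟩⟩
    rw [h1]
    refine sdiff_null_ae_eq_self (measure_mono_null (t := {b : Cn 2 | b 1 = 0}) ?_ null_coord)
    rintro b ⟨hb, h⟩
    have h1 : jj g (b 0) * ins i b 0 = 0 := h
    have h2 := (mul_eq_zero.1 h1).resolve_left (jj_ne g hb)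
    fin_cases i
    · simp [ins] at h2
    · exact h2
  -- expand with the cutoff
  have s1 : ∫⁻ p in E, ENNReal.ofReal (G i p) =
      ∑' g : CG, ∫⁻ p in E, ENNReal.ofReal (φ (mob g (p 0)) * G i p) := by
    rw [← lintegral_tsum]
    · refine setLIntegral_congr_fun hE fun p hp => ?_
      have hpU := hEU hp
      have h1 := tsum_ofReal hφ (show 0 < (p 0).im from hpU)
      have h2 : ∑' g : CG, ENNReal.ofReal (φ (mob g (p 0))) = 1 := by
        rw [← h1, ← (Equiv.inv CG).tsum_eq (fun g : CG => ENNReal.ofReal (φ (mob g (p 0))))]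
        rfl
      have h3 : ∀ g : CG, ENNReal.ofReal (φ (mob g (p 0)) * G i p) =
          ENNReal.ofReal (φ (mob g (p 0))) * ENNReal.ofReal (G i p) := fun g =>
        ENNReal.ofReal_mul (hφ.nonneg _)
      show ENNReal.ofReal (G i p) = ∑' g : CG, ENNReal.ofReal (φ (mob g (p 0)) * G i p)
      rw [tsum_congr h3, ENNReal.tsum_mul_right, h2, one_mul]
    · intro g
      have h2 : ContinuousOn (fun b : Cn 2 => φ (mob g (b 0))) UU := by
        refine hφ.smooth.continuous.comp_continuousOn ?_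
        intro b hb
        exact (ContinuousAt.comp (f := fun b : Cn 2 => b 0)
          (hasDerivAt_mob g hb).continuousAt
          (continuous_apply (0 : Fin 2)).continuousAt).continuousWithinAt
      exact ((((h2.mul (hG.cont i)).mono hEU).aemeasurable hE)).ennreal_ofReal
  have hfd : ∀ (g : CG) (p) (_ : p ∈ V g), HasFDerivAt (FF g i 0)
      ((JF g i 0 p).restrictScalars ℝ) p := fun g p hp =>
    (hasFDerivAt_FF g i 0 hp.1 hp.2).restrictScalars ℝ
  have hm : ∀ g : CG, MeasurableSet (E ∩ V g) := fun g => hE.inter (hVo g).measurableSet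
  have hin : ∀ g : CG, InjOn (FF g i 0) (E ∩ V g) := by
    rintro g p ⟨_, hp⟩ q ⟨_, hq⟩ h
    rw [← FF_inv g i 0 hp.1 hp.2, h, FF_inv g i 0 hq.1 hq.2]
  have s2 : ∀ g : CG, ∫⁻ p in E, ENNReal.ofReal (φ (mob g (p 0)) * G i p) =
      ∫⁻ p in FF g i 0 '' (E ∩ V g), ENNReal.ofReal (φ (p 0) * G 0 p) := by
    intro g
    rw [← setLIntegral_congr (hVae g), lintegral_image_eq_lintegral_abs_det_fderiv_mul volume
      (hm g) (fun p hp => (hfd g p hp.2).hasFDerivWithinAt) (hin g)]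
    refine setLIntegral_congr_fun (hm g) fun p hp => ?_
    have hpU := hp.2.1
    have hpos := JD_pos (g : SL(2, ℝ)) i 0 hpU hp.2.2
    show ENNReal.ofReal (φ (mob g (p 0)) * G i p) =
      ENNReal.ofReal |((JF g i 0 p).restrictScalars ℝ : Cn 2 →L[ℝ] Cn 2).det| *
        ENNReal.ofReal (φ (FF g i 0 p 0) * G 0 (FF g i 0 p))
    rw [det_JF g i 0 hpU, abs_of_pos hpos, ← ENNReal.ofReal_mul hpos.le,
      hG.compat g g.2 i 0 p hpU hp.2.2, FF_zero]
    congr 1
    ring
  have hm' : ∀ g : CG, MeasurableSet (FF g i 0 '' (E ∩ V g)) := fun g =>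
    measurable_image_of_fderivWithin (hm g) (fun p hp => (hfd g p hp.2).hasFDerivWithinAt) (hin g)
  have hdis : Pairwise (Function.onFun Disjoint fun g : CG => FF g i 0 '' (E ∩ V g)) := by
    intro g g' hgg
    rw [Function.onFun, Set.disjoint_left]
    rintro _ ⟨p, ⟨hpE, hp⟩, rfl⟩ ⟨q, ⟨hqE, hq⟩, hqq⟩
    apply hgg
    have e4 : mob g' (q 0) = mob g (p 0) := congrFun hqq 0
    have e5 : mob ((g' : SL(2, ℝ))⁻¹ * g) (p 0) = q 0 := by
      rw [mob_mul _ _ hp.1, ← e4]
      exact mob_inv_left _ hq.1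
    have e6 := hinj p hpE q hqE _ (mul_mem (inv_mem g'.2) g.2) e5
    apply Subtype.ext
    exact (inv_mul_eq_one.1 e6).symm
  rw [s1, tsum_congr s2, ← lintegral_iUnion hm' hdis, ofReal_integral_eq_lintegral_ofReal
    (hG.integrable hφ 0)]
  · refine lintegral_mono_set ?_
    intro p hp
    obtain ⟨g, q, hq, rfl⟩ := Set.mem_iUnion.1 hp
    exact FF_mem _ _ _ hq.2.1
  · filter_upwards [ae_restrict_mem measurableSet_UU] with p hp
    exact mul_nonneg (hφ.nonneg _) (hG0 0 p hp)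

end change

/-! ### Standard densities -/

theorem contDiffOn_dz {f : Cn 2 → ℂ} (hf : ContDiffOn ℝ ∞ f UU) (j : Fin 2) :
    ContDiffOn ℝ ∞ (dz j f) UU := by
  have h1 : ContDiffOn ℝ ∞ (fderiv ℝ f) UU := hf.fderiv_of_isOpen isOpen_UU (by simp)
  unfold dz
  exact contDiffOn_const.mul ((h1.clm_apply contDiffOn_const).sub
    (contDiffOn_const.mul (h1.clm_apply contDiffOn_const)))

theorem contDiffOn_dzbar {f : Cn 2 → ℂ} (hf : ContDiffOn ℝ ∞ f UU) (j : Fin 2) :
    ContDiffOn ℝ ∞ (dzbar j f) UU := by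
  have h1 : ContDiffOn ℝ ∞ (fderiv ℝ f) UU := hf.fderiv_of_isOpen isOpen_UU (by simp)
  unfold dzbar
  exact contDiffOn_const.mul ((h1.clm_apply contDiffOn_const).add
    (contDiffOn_const.mul (h1.clm_apply contDiffOn_const)))

theorem contDiffOn_coe {f : Cn 2 → ℝ} (hf : ContDiffOn ℝ ∞ f UU) :
    ContDiffOn ℝ ∞ (fun p => ((f p : ℝ) : ℂ)) UU :=
  Complex.ofRealCLM.contDiff.comp_contDiffOn hf

theorem contDiffOn_LL {f : Cn 2 → ℝ} (hf : ContDiffOn ℝ ∞ f UU) (j k : Fin 2) :
    ContDiffOn ℝ ∞ (fun p => LL f p j k) UU :=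
  contDiffOn_dz (contDiffOn_dzbar (contDiffOn_coe hf) k) j

theorem contDiffOn_DD {a b : Cn 2 → M2} (ha : ∀ j k, ContDiffOn ℝ ∞ (fun p => a p j k) UU)
    (hb : ∀ j k, ContDiffOn ℝ ∞ (fun p => b p j k) UU) :
    ContDiffOn ℝ ∞ (fun p => DD (a p) (b p)) UU := by
  unfold DD
  exact Complex.reCLM.contDiff.comp_contDiffOn (((((ha 0 0).mul (hb 1 1)).add
    ((ha 1 1).mul (hb 0 0))).sub ((ha 0 1).mul (hb 1 0))).sub ((ha 1 0).mul (hb 0 1)))

theorem contDiffOn_DM {f h : Cn 2 → ℝ} (hf : ContDiffOn ℝ ∞ f UU) (hh : ContDiffOn ℝ ∞ h UU)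
    (j k : Fin 2) : ContDiffOn ℝ ∞ (fun p => DM f h p j k) UU :=
  (contDiffOn_dz (contDiffOn_coe hf) j).mul (contDiffOn_dzbar (contDiffOn_coe hh) k)

theorem dn_LL {A C A' C' : ℝ} {P Q : Fin 2 → Cn 2 → ℝ} (hP : Wt A C P) (hQ : Wt A' C' Q) :
    Dn fun i p => DD (LL (P i) p) (LL (Q i) p) :=
  ⟨fun i => (contDiffOn_DD (contDiffOn_LL (hP.smooth i)) (contDiffOn_LL (hQ.smooth i))).continuousOn,
    fun _ hg i j _ hp h => hP.DD_eq hQ hg i j hp h⟩

theorem dn_det {A C : ℝ} {P : Fin 2 → Cn 2 → ℝ} (hP : Wt A C P) :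
    Dn fun i p => (LL (P i) p).det.re := by
  have h := (dn_LL hP hP).const_mul (1 / 2)
  have e : (fun (i : Fin 2) (p : Cn 2) => 1 / 2 * DD (LL (P i) p) (LL (P i) p)) =
      fun i p => (LL (P i) p).det.re := by
    funext i p
    rw [DD_self]
    ring
  rwa [e] at h

theorem dn_DM {A C : ℝ} {f h P : Fin 2 → Cn 2 → ℝ} (hf : Wt 0 0 f) (hh : Wt 0 0 h)
    (hP : Wt A C P) : Dn fun i p => DD (DM (f i) (h i) p) (LL (P i) p) := by
  refine ⟨fun i => (contDiffOn_DD (contDiffOn_DM (hf.smooth i) (hh.smooth i))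
    (contDiffOn_LL (hP.smooth i))).continuousOn, fun g hg i j p hp h0 => ?_⟩
  rw [hf.DM_eq hh hg i j hp h0, hP.LL_eq hg i j hp h0, DD_pull g i j hp]

end Pool.Agent.Y486
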