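import Pool.Agent.Y486.Stokes

/-!
# One-parameter families of weights, differentiation under the integral sign
-/

set_option autoImplicit false

open scoped Manifold ContDiff Topology ComplexConjugate MatrixGroups UpperHalfPlane Matrix
open MeasureTheory Set Filter

namespace Pool.Agent.Y486

open Pool.Agent.W549.CY (Cn dz dzbar HermitianMetric chernRicci chernScalar)
open Pool.Agent.W711.KC (jj nn CG CG_far NN_pos jj_ne im_mob jj_mul nn_mul det_eq)
open Pool.Agent.TH598.KG (hf Cutoff d1)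
open Pool.Agent.TH997.KG (mob VV mob_mem mob_mul mob_one mob_inv_left mob_inv_right mob_coe
  hasDerivAt_mob isOpen_VV)
open Pool.Agent.TH997.CMan
open Complex (normSq)

/-- the parameter domain -/
def TU : Set (ℝ × Cn 2) := univ ×ˢ UU

theorem isOpen_TU : IsOpen TU := isOpen_univ.prod isOpen_UU

/-! ### Calculus with a parameter -/

/-- the inclusion of the slice -/
noncomputable def slL : Cn 2 →L[ℝ] ℝ × Cn 2 := ContinuousLinearMap.inr ℝ ℝ (Cn 2)

theorem slice_fderiv {F : ℝ × Cn 2 → ℂ} {t : ℝ} {p : Cn 2} (hF : DifferentiableAt ℝ F (t, p)) :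
    HasFDerivAt (fun q => F (t, q)) ((fderiv ℝ F (t, p)).comp slL) p := by
  have h1 : HasFDerivAt (fun q : Cn 2 => ((t, q) : ℝ × Cn 2)) slL p := by
    have := (hasFDerivAt_const t p).prodMk (hasFDerivAt_id (𝕜 := ℝ) p)
    exact this
  exact hF.hasFDerivAt.comp p h1

theorem slice_deriv {F : ℝ × Cn 2 → ℂ} {t : ℝ} {p : Cn 2} (hF : DifferentiableAt ℝ F (t, p)) :
    HasDerivAt (fun s => F (s, p)) (fderiv ℝ F (t, p) (1, 0)) t := by
  have h1 : HasDerivAt (fun s : ℝ => ((s, p) : ℝ × Cn 2)) (1, 0) t :=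
    (hasDerivAt_id t).prodMk (hasDerivAt_const t p)
  exact hF.hasFDerivAt.comp_hasDerivAt t h1

theorem slice_dz {F : ℝ × Cn 2 → ℂ} {t : ℝ} {p : Cn 2} (hF : DifferentiableAt ℝ F (t, p))
    (j : Fin 2) : dz j (fun q => F (t, q)) p = (1 / 2) * (fderiv ℝ F (t, p) (0, Pi.single j 1) -
      Complex.I * fderiv ℝ F (t, p) (0, Pi.single j Complex.I)) := by
  unfold dz
  rw [(slice_fderiv hF).fderiv]
  rfl

theorem slice_dzbar {F : ℝ × Cn 2 → ℂ} {t : ℝ} {p : Cn 2} (hF : DifferentiableAt ℝ F (t, p))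
    (j : Fin 2) : dzbar j (fun q => F (t, q)) p = (1 / 2) *
      (fderiv ℝ F (t, p) (0, Pi.single j 1) +
      Complex.I * fderiv ℝ F (t, p) (0, Pi.single j Complex.I)) := by
  unfold dzbar
  rw [(slice_fderiv hF).fderiv]
  rfl

theorem mem_TU {x : ℝ × Cn 2} : x ∈ TU ↔ x.2 ∈ UU := by
  unfold TU
  simp

theorem cdTU {F : ℝ × Cn 2 → ℂ} (hF : ContDiffOn ℝ ∞ F TU) {x : ℝ × Cn 2} (hx : x.2 ∈ UU) :
    ContDiffAt ℝ ∞ F x := hF.contDiffAt (isOpen_TU.mem_nhds (mem_TU.2 hx))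

theorem ddTU {F : ℝ × Cn 2 → ℂ} (hF : ContDiffOn ℝ ∞ F TU) {t : ℝ} {p : Cn 2} (hp : p ∈ UU) :
    DifferentiableAt ℝ F (t, p) :=
  (cdTU hF (x := (t, p)) hp).differentiableAt (by simp)

theorem smooth_fderiv {F : ℝ × Cn 2 → ℂ} (hF : ContDiffOn ℝ ∞ F TU) (w : ℝ × Cn 2) :
    ContDiffOn ℝ ∞ (fun x => fderiv ℝ F x w) TU :=
  (hF.fderiv_of_isOpen isOpen_TU (by simp)).clm_apply contDiffOn_const

/-- derivative with respect to `z_j` -/
noncomputable def pz (j : Fin 2) (F : ℝ × Cn 2 → ℂ) (x : ℝ × Cn 2) : ℂ :=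
  dz j (fun q => F (x.1, q)) x.2

/-- derivative with respect to `z̄_j` -/
noncomputable def pzb (j : Fin 2) (F : ℝ × Cn 2 → ℂ) (x : ℝ × Cn 2) : ℂ :=
  dzbar j (fun q => F (x.1, q)) x.2

/-- derivative with respect to `t` -/
noncomputable def pt (F : ℝ × Cn 2 → ℂ) (x : ℝ × Cn 2) : ℂ := deriv (fun s => F (s, x.2)) x.1

theorem pz_eq {F : ℝ × Cn 2 → ℂ} (hF : ContDiffOn ℝ ∞ F TU) {x : ℝ × Cn 2} (hx : x ∈ TU)
    (j : Fin 2) : pz j F x = (1 / 2) * (fderiv ℝ F x (0, Pi.single j 1) -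
      Complex.I * fderiv ℝ F x (0, Pi.single j Complex.I)) :=
  slice_dz (ddTU hF (mem_TU.1 hx)) j

theorem pzb_eq {F : ℝ × Cn 2 → ℂ} (hF : ContDiffOn ℝ ∞ F TU) {x : ℝ × Cn 2} (hx : x ∈ TU)
    (j : Fin 2) : pzb j F x = (1 / 2) * (fderiv ℝ F x (0, Pi.single j 1) +
      Complex.I * fderiv ℝ F x (0, Pi.single j Complex.I)) :=
  slice_dzbar (ddTU hF (mem_TU.1 hx)) j

theorem pt_eq {F : ℝ × Cn 2 → ℂ} (hF : ContDiffOn ℝ ∞ F TU) {x : ℝ × Cn 2} (hx : x ∈ TU) :
    pt F x = fderiv ℝ F x (1, 0) :=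
  (slice_deriv (ddTU hF (mem_TU.1 hx))).deriv

theorem smooth_pz {F : ℝ × Cn 2 → ℂ} (hF : ContDiffOn ℝ ∞ F TU) (j : Fin 2) :
    ContDiffOn ℝ ∞ (pz j F) TU := by
  have h1 := smooth_fderiv hF
  refine ContDiffOn.congr (f := fun x => (1 / 2) * (fderiv ℝ F x (0, Pi.single j 1) -
      Complex.I * fderiv ℝ F x (0, Pi.single j Complex.I))) ?_ fun x hx => pz_eq hF hx j
  exact contDiffOn_const.mul ((h1 _).sub (contDiffOn_const.mul (h1 _)))

theorem smooth_pzb {F : ℝ × Cn 2 → ℂ} (hF : ContDiffOn ℝ ∞ F TU) (j : Fin 2) :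
    ContDiffOn ℝ ∞ (pzb j F) TU := by
  have h1 := smooth_fderiv hF
  refine ContDiffOn.congr (f := fun x => (1 / 2) * (fderiv ℝ F x (0, Pi.single j 1) +
      Complex.I * fderiv ℝ F x (0, Pi.single j Complex.I))) ?_ fun x hx => pzb_eq hF hx j
  exact contDiffOn_const.mul ((h1 _).add (contDiffOn_const.mul (h1 _)))

theorem smooth_pt {F : ℝ × Cn 2 → ℂ} (hF : ContDiffOn ℝ ∞ F TU) :
    ContDiffOn ℝ ∞ (pt F) TU :=
  (smooth_fderiv hF _).congr fun _ hx => pt_eq hF hx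

theorem D2E {E : Type} [NormedAddCommGroup E] [NormedSpace ℝ E] {u : E → ℂ} {p : E}
    (hu : ContDiffAt ℝ 2 u p) (v w : E) :
    fderiv ℝ (fun q => fderiv ℝ u q w) p v = fderiv ℝ (fderiv ℝ u) p v w := by
  have h1 : DifferentiableAt ℝ (fderiv ℝ u) p :=
    (hu.fderiv_right (m := 1) (by norm_num)).differentiableAt (by simp)
  have h2 := h1.hasFDerivAt.clm_apply (hasFDerivAt_const w p)
  rw [h2.fderiv]
  simp

theorem D2E_symm {E : Type} [NormedAddCommGroup E] [NormedSpace ℝ E] {u : E → ℂ} {p : E}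
    (hu : ContDiffAt ℝ 2 u p) (v w : E) :
    fderiv ℝ (fun q => fderiv ℝ u q w) p v = fderiv ℝ (fun q => fderiv ℝ u q v) p w := by
  rw [D2E hu, D2E hu]
  exact (hu.isSymmSndFDerivAt (by simp)) v w

theorem pt_pz {F : ℝ × Cn 2 → ℂ} (hF : ContDiffOn ℝ ∞ F TU) {x : ℝ × Cn 2} (hx : x ∈ TU)
    (j : Fin 2) : pt (pz j F) x = pz j (pt F) x := by
  have hcd : ContDiffAt ℝ 2 F x := (cdTU hF (mem_TU.1 hx)).of_le two_le_inf
  have hd : ∀ w, DifferentiableAt ℝ (fun y => fderiv ℝ F y w) x := fun w =>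
    ((smooth_fderiv hF w).contDiffAt (isOpen_TU.mem_nhds hx)).differentiableAt (by simp)
  rw [pt_eq (smooth_pz hF j) hx, pz_eq (smooth_pt hF) hx]
  have e1 : pz j F =ᶠ[𝓝 x] fun x => (1 / 2) * (fderiv ℝ F x (0, Pi.single j 1) -
      Complex.I * fderiv ℝ F x (0, Pi.single j Complex.I)) := by
    filter_upwards [isOpen_TU.mem_nhds hx] with y hy using pz_eq hF hy j
  have e2 : pt F =ᶠ[𝓝 x] fun x => fderiv ℝ F x (1, 0) := by
    filter_upwards [isOpen_TU.mem_nhds hx] with y hy using pt_eq hF hy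
  rw [e1.fderiv_eq, e2.fderiv_eq]
  have h3 := (((hd (0, Pi.single j 1)).hasFDerivAt).sub
    (((hd (0, Pi.single j Complex.I)).hasFDerivAt).const_mul Complex.I)).const_mul (1 / 2 : ℂ)
  have h4 : fderiv ℝ (fun x => (1 / 2) * (fderiv ℝ F x (0, Pi.single j 1) -
      Complex.I * fderiv ℝ F x (0, Pi.single j Complex.I))) x = _ := h3.fderiv
  rw [h4]
  simp only [smul_apply, sub_apply, smul_eq_mul]
  rw [D2E_symm hcd, D2E_symm hcd (1, 0) (0, Pi.single j Complex.I)]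

theorem pt_pzb {F : ℝ × Cn 2 → ℂ} (hF : ContDiffOn ℝ ∞ F TU) {x : ℝ × Cn 2} (hx : x ∈ TU)
    (j : Fin 2) : pt (pzb j F) x = pzb j (pt F) x := by
  have hcd : ContDiffAt ℝ 2 F x := (cdTU hF (mem_TU.1 hx)).of_le two_le_inf
  have hd : ∀ w, DifferentiableAt ℝ (fun y => fderiv ℝ F y w) x := fun w =>
    ((smooth_fderiv hF w).contDiffAt (isOpen_TU.mem_nhds hx)).differentiableAt (by simp)
  rw [pt_eq (smooth_pzb hF j) hx, pzb_eq (smooth_pt hF) hx]
  have e1 : pzb j F =ᶠ[𝓝 x] fun x => (1 / 2) * (fderiv ℝ F x (0, Pi.single j 1) +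
      Complex.I * fderiv ℝ F x (0, Pi.single j Complex.I)) := by
    filter_upwards [isOpen_TU.mem_nhds hx] with y hy using pzb_eq hF hy j
  have e2 : pt F =ᶠ[𝓝 x] fun x => fderiv ℝ F x (1, 0) := by
    filter_upwards [isOpen_TU.mem_nhds hx] with y hy using pt_eq hF hy
  rw [e1.fderiv_eq, e2.fderiv_eq]
  have h3 := (((hd (0, Pi.single j 1)).hasFDerivAt).add
    (((hd (0, Pi.single j Complex.I)).hasFDerivAt).const_mul Complex.I)).const_mul (1 / 2 : ℂ)
  have h4 : fderiv ℝ (fun x => (1 / 2) * (fderiv ℝ F x (0, Pi.single j 1) +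
      Complex.I * fderiv ℝ F x (0, Pi.single j Complex.I))) x = _ := h3.fderiv
  rw [h4]
  simp only [smul_apply, add_apply, smul_eq_mul]
  rw [D2E_symm hcd, D2E_symm hcd (1, 0) (0, Pi.single j Complex.I)]

theorem hasDerivAt_pt {F : ℝ × Cn 2 → ℂ} (hF : ContDiffOn ℝ ∞ F TU) (t : ℝ) {p : Cn 2}
    (hp : p ∈ UU) : HasDerivAt (fun s => F (s, p)) (pt F (t, p)) t := by
  rw [pt_eq hF (mem_TU.2 hp)]
  exact slice_deriv (ddTU hF hp)

/-! ### Families of weights -/

/-- smooth families of weights -/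
structure WF (A C : ℝ) (P : ℝ → Fin 2 → Cn 2 → ℝ) : Prop where
  smooth : ∀ i, ContDiffOn ℝ ∞ (fun x : ℝ × Cn 2 => P x.1 i x.2) TU
  compat : ∀ t, ∀ g ∈ CG, ∀ i j, ∀ p ∈ UU, hom g i p j ≠ 0 →
    P t j (FF g i j p) = P t i p - A * Real.log (normSq (hom g i p j)) +
      C * Real.log (normSq (jj g (p 0)))

/-- the derivative of a family -/
noncomputable def dt (P : ℝ → Fin 2 → Cn 2 → ℝ) (t : ℝ) (i : Fin 2) (p : Cn 2) : ℝ :=
  deriv (fun s => P s i p) t

section fam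

variable {A C : ℝ} {P : ℝ → Fin 2 → Cn 2 → ℝ}

theorem WF.wt (hP : WF A C P) (t : ℝ) : Wt A C (P t) := by
  refine ⟨fun i => ?_, hP.compat t⟩
  have h : (P t i) = (fun x : ℝ × Cn 2 => P x.1 i x.2) ∘ fun p => (t, p) := rfl
  rw [h]
  exact (hP.smooth i).comp (contDiff_const.prodMk contDiff_id).contDiffOn
    fun p hp => mem_TU.2 hp

theorem WF.smoothC (hP : WF A C P) (i : Fin 2) :
    ContDiffOn ℝ ∞ (fun x : ℝ × Cn 2 => ((P x.1 i x.2 : ℝ) : ℂ)) TU :=
  Complex.ofRealCLM.contDiff.comp_contDiffOn (hP.smooth i)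

theorem WF.hasDerivAt (hP : WF A C P) (t : ℝ) (i : Fin 2) {p : Cn 2} (hp : p ∈ UU) :
    HasDerivAt (fun s => P s i p) (dt P t i p) t := by
  have h1 : ContDiffAt ℝ ∞ (fun x : ℝ × Cn 2 => P x.1 i x.2) (t, p) :=
    (hP.smooth i).contDiffAt (isOpen_TU.mem_nhds (mem_TU.2 hp))
  have h2 : ContDiffAt ℝ ∞ (fun s : ℝ => P s i p) t :=
    ContDiffAt.comp (g := fun x : ℝ × Cn 2 => P x.1 i x.2) (f := fun s : ℝ => (s, p)) t h1
      (contDiff_id.prodMk contDiff_const).contDiffAt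
  exact (h2.differentiableAt (by simp)).hasDerivAt

theorem WF.dt_coe (hP : WF A C P) (t : ℝ) (i : Fin 2) {p : Cn 2} (hp : p ∈ UU) :
    ((dt P t i p : ℝ) : ℂ) = pt (fun x : ℝ × Cn 2 => ((P x.1 i x.2 : ℝ) : ℂ)) (t, p) :=
  ((hP.hasDerivAt t i hp).ofReal_comp.deriv).symm

theorem WF.dt (hP : WF A C P) : WF 0 0 (dt P) := by
  refine ⟨fun i => ?_, fun t g hg i j p hp h => ?_⟩
  · have h1 := smooth_pt (hP.smoothC i)
    have h2 : ContDiffOn ℝ ∞ (fun x => (pt (fun x : ℝ × Cn 2 => ((P x.1 i x.2 : ℝ) : ℂ)) x).re) TU :=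
      Complex.reCLM.contDiff.comp_contDiffOn h1
    refine h2.congr fun x hx => ?_
    have := hP.dt_coe x.1 i (mem_TU.1 hx)
    rw [← this]
    rfl
  · have h1 := hP.hasDerivAt t j (FF_mem g i j hp)
    have h2 := ((hP.hasDerivAt t i hp).sub_const (A * Real.log (normSq (hom g i p j)))).add_const
      (C * Real.log (normSq (jj g (p 0))))
    have h3 : (fun s => P s j (FF g i j p)) = fun s => P s i p - A * Real.log (normSq (hom g i p j)) +
      C * Real.log (normSq (jj g (p 0))) := by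
      funext s
      exact hP.compat s g hg i j p hp h
    rw [h3] at h1
    rw [h1.unique h2]
    ring

theorem WF.smooth_LL (hP : WF A C P) (i j k : Fin 2) :
    ContDiffOn ℝ ∞ (fun x : ℝ × Cn 2 => LL (P x.1 i) x.2 j k) TU :=
  smooth_pz (smooth_pzb (hP.smoothC i) k) j

theorem WF.hasDerivAt_LL (hP : WF A C P) (t : ℝ) (i j k : Fin 2) {p : Cn 2} (hp : p ∈ UU) :
    HasDerivAt (fun s => LL (P s i) p j k) (LL (Pool.Agent.Y486.dt P t i) p j k) t := by
  have h1 := hasDerivAt_pt (hP.smooth_LL i j k) t hp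
  have h2 : pt (fun x : ℝ × Cn 2 => LL (P x.1 i) x.2 j k) (t, p) =
      LL (Pool.Agent.Y486.dt P t i) p j k := by
    have e1 : pt (fun x : ℝ × Cn 2 => LL (P x.1 i) x.2 j k) (t, p) =
        pz j (pt (pzb k fun x : ℝ × Cn 2 => ((P x.1 i x.2 : ℝ) : ℂ))) (t, p) :=
      pt_pz (smooth_pzb (hP.smoothC i) k) (mem_TU.2 hp) j
    rw [e1]
    show dz j (fun q => pt (pzb k fun x : ℝ × Cn 2 => ((P x.1 i x.2 : ℝ) : ℂ)) (t, q)) p =
      dz j (dzbar k fun q => ((Pool.Agent.Y486.dt P t i q : ℝ) : ℂ)) p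
    apply dz_congr
    filter_upwards [isOpen_UU.mem_nhds hp] with q hq
    rw [pt_pzb (hP.smoothC i) (mem_TU.2 hq) k]
    show dzbar k (fun q => pt (fun x : ℝ × Cn 2 => ((P x.1 i x.2 : ℝ) : ℂ)) (t, q)) q = _
    apply dzbar_congr
    filter_upwards [isOpen_UU.mem_nhds hq] with q' hq'
    exact (hP.dt_coe t i hq').symm
  rw [h2] at h1
  exact h1

theorem WF.hasDerivAt_DD {A' C' : ℝ} {Q : ℝ → Fin 2 → Cn 2 → ℝ} (hP : WF A C P) (hQ : WF A' C' Q)
    (t : ℝ) (i : Fin 2) {p : Cn 2} (hp : p ∈ UU) :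
    HasDerivAt (fun s => DD (LL (P s i) p) (LL (Q s i) p))
      (DD (LL (Pool.Agent.Y486.dt P t i) p) (LL (Q t i) p) +
        DD (LL (P t i) p) (LL (Pool.Agent.Y486.dt Q t i) p)) t := by
  have a := fun j k => hP.hasDerivAt_LL t i j k hp
  have b := fun j k => hQ.hasDerivAt_LL t i j k hp
  have h1 := (((a 0 0).mul (b 1 1)).add ((a 1 1).mul (b 0 0))).sub ((a 0 1).mul (b 1 0))
  have h2 := h1.sub ((a 1 0).mul (b 0 1))
  have h3 : HasDerivAt (fun s => (LL (P s i) p 0 0 * LL (Q s i) p 1 1 +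
      LL (P s i) p 1 1 * LL (Q s i) p 0 0 - LL (P s i) p 0 1 * LL (Q s i) p 1 0 -
      LL (P s i) p 1 0 * LL (Q s i) p 0 1).re) _ t :=
    (Complex.reCLM.hasFDerivAt.comp_hasDerivAt t h2)
  refine h3.congr_deriv ?_
  unfold DD
  rw [← Complex.add_re, Complex.reCLM_apply]
  congr 1
  ring

theorem continuousOn_DD_fam {A' C' : ℝ} {Q : ℝ → Fin 2 → Cn 2 → ℝ} (hP : WF A C P)
    (hQ : WF A' C' Q) (i : Fin 2) :
    ContinuousOn (fun x : ℝ × Cn 2 => DD (LL (P x.1 i) x.2) (LL (Q x.1 i) x.2)) TU := by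
  have a := fun j k => (hP.smooth_LL i j k).continuousOn
  have b := fun j k => (hQ.smooth_LL i j k).continuousOn
  unfold DD
  exact Complex.continuous_re.comp_continuousOn (((((a 0 0).mul (b 1 1)).add
    ((a 1 1).mul (b 0 0))).sub ((a 0 1).mul (b 1 0))).sub ((a 1 0).mul (b 0 1)))

theorem WF.cont (hP : WF A C P) (i : Fin 2) :
    ContinuousOn (fun x : ℝ × Cn 2 => P x.1 i x.2) TU := (hP.smooth i).continuousOn

end fam

/-! ### Integrals of densities -/

/-- the integral of a density over the quotient -/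
noncomputable def II (φ : ℂ → ℝ) (G : Fin 2 → Cn 2 → ℝ) : ℝ := ∫ p in UU, φ (p 0) * G 0 p

section II

variable {φ : ℂ → ℝ} {G H : Fin 2 → Cn 2 → ℝ}

theorem II_congr (h : ∀ p ∈ UU, G 0 p = H 0 p) : II φ G = II φ H := by
  unfold II
  refine setIntegral_congr_fun measurableSet_UU fun p hp => ?_
  show φ (p 0) * G 0 p = φ (p 0) * H 0 p
  rw [h p hp]

theorem II_add (hφ : Cutoff CG φ) (hG : Dn G) (hH : Dn H) :
    II φ (fun i p => G i p + H i p) = II φ G + II φ H := by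
  unfold II
  rw [← integral_add (hG.integrable hφ 0) (hH.integrable hφ 0)]
  refine setIntegral_congr_fun measurableSet_UU fun p _ => ?_
  show φ (p 0) * (G 0 p + H 0 p) = φ (p 0) * G 0 p + φ (p 0) * H 0 p
  ring

theorem II_sub (hφ : Cutoff CG φ) (hG : Dn G) (hH : Dn H) :
    II φ (fun i p => G i p - H i p) = II φ G - II φ H := by
  unfold II
  rw [← integral_sub (hG.integrable hφ 0) (hH.integrable hφ 0)]
  refine setIntegral_congr_fun measurableSet_UU fun p _ => ?_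
  show φ (p 0) * (G 0 p - H 0 p) = φ (p 0) * G 0 p - φ (p 0) * H 0 p
  ring

theorem II_const_mul (φ : ℂ → ℝ) (G : Fin 2 → Cn 2 → ℝ) (c : ℝ) :
    II φ (fun i p => c * G i p) = c * II φ G := by
  unfold II
  rw [← integral_const_mul]
  refine setIntegral_congr_fun measurableSet_UU fun p _ => ?_
  show φ (p 0) * (c * G 0 p) = c * (φ (p 0) * G 0 p)
  ring

theorem II_nonneg (hφ : Cutoff CG φ) (h : ∀ p ∈ UU, 0 ≤ G 0 p) : 0 ≤ II φ G :=
  setIntegral_nonneg measurableSet_UU fun p hp => mul_nonneg (hφ.nonneg _) (h p hp)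

theorem II_mono (hφ : Cutoff CG φ) (hG : Dn G) (hH : Dn H) (h : ∀ p ∈ UU, G 0 p ≤ H 0 p) :
    II φ G ≤ II φ H := by
  have h1 := II_sub hφ hH hG
  have h2 := II_nonneg (G := fun i p => H i p - G i p) hφ fun p hp => sub_nonneg.2 (h p hp)
  linarith

end II

/-! ### Differentiation under the integral sign -/

theorem deriv_cs {φ : ℂ → ℝ} (hφ : Cutoff CG φ) {G G' : ℝ → Cn 2 → ℝ}
    (hG : ∀ t, ContinuousOn (G t) UU)
    (hd : ∀ t, ∀ p ∈ UU, HasDerivAt (fun s => G s p) (G' t p) t)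
    (hc : ContinuousOn (fun x : ℝ × Cn 2 => G' x.1 x.2) TU)
    (hs : ∀ t, ∀ p ∈ UU, G t p ≠ 0 → Small p) (t : ℝ) :
    HasDerivAt (fun s => ∫ p in UU, φ (p 0) * G s p) (∫ p in UU, φ (p 0) * G' t p) t := by
  -- the compact set carrying everything
  obtain ⟨M, hM⟩ : ∃ M : ℝ, ∀ z ∈ tsupport φ, max z.im (1 / z.im) ≤ M := by
    have hc : ContinuousOn (fun z : ℂ => max z.im (1 / z.im)) (tsupport φ) := by
      refine ContinuousOn.sup Complex.continuous_im.continuousOn ?_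
      exact continuousOn_const.div Complex.continuous_im.continuousOn fun z hz =>
        (hφ.supp hz : 0 < z.im).ne'
    obtain ⟨M, hM⟩ := hφ.compact.isCompact.exists_bound_of_continuousOn hc
    exact ⟨M, fun z hz => (le_abs_self _).trans (hM z hz)⟩
  set K : Set (Cn 2) := Set.pi univ (![tsupport φ, Metric.closedBall 0 (3 * M + 1)] :
    Fin 2 → Set ℂ) with hK
  have hKc : IsCompact K := by
    refine isCompact_univ_pi fun k => ?_
    fin_cases k
    · exact hφ.compact.isCompact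
    · exact isCompact_closedBall _ _
  have hKU : K ⊆ UU := fun p hp => hφ.supp (hp 0 (mem_univ _))
  have hmem : ∀ p ∈ UU, φ (p 0) ≠ 0 → Small p → p ∈ K := by
    intro p hp h1 h2
    have h3 := subset_tsupport _ h1
    have h4 : normSq (p 1) ≤ 3 * max (p 0).im (1 / (p 0).im) := h2
    have h5 := hM _ h3
    intro k _
    fin_cases k
    · exact h3
    · show p 1 ∈ Metric.closedBall (0 : ℂ) (3 * M + 1)
      rw [mem_closedBall_zero_iff]
      rw [Complex.normSq_eq_norm_sq] at h4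
      nlinarith [norm_nonneg (p 1), sq_nonneg (‖p 1‖ - 1)]
  have hs' : ∀ t, ∀ p ∈ UU, ¬ Small p → G' t p = 0 := by
    intro t p hp h
    have h1 : (fun s => G s p) = fun _ => 0 := by
      funext s
      by_contra hc
      exact h (hs s p hp hc)
    have h2 := hd t p hp
    rw [h1] at h2
    exact h2.unique (hasDerivAt_const t 0)
  have hK1 : IsCompact (Icc (t - 1) (t + 1) ×ˢ K) := isCompact_Icc.prod hKc
  obtain ⟨B, hB⟩ := hK1.exists_bound_of_continuousOn
    (hc.mono fun x hx => mem_TU.2 (hKU hx.2))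
  have hB0 : 0 ≤ max B 0 := le_max_right _ _
  obtain ⟨D, hD⟩ := hφ.compact.exists_bound_of_continuous hφ.smooth.continuous
  have key := hasDerivAt_integral_of_dominated_loc_of_deriv_le (μ := volume.restrict UU)
    (F := fun s p => φ (p 0) * G s p) (F' := fun s p => φ (p 0) * G' s p) (x₀ := t)
    (s := Metric.ball t 1) (bound := K.indicator fun _ => |D| * max B 0)
    (Metric.ball_mem_nhds t one_pos) ?_ ?_ ?_ ?_ ?_ ?_
  · exact key.2
  · refine Filter.Eventually.of_forall fun s => ?_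
    have h1 : ContinuousOn (fun p : Cn 2 => φ (p 0) * G s p) UU :=
      (hφ.smooth.continuous.comp (continuous_apply 0)).continuousOn.mul (hG s)
    exact h1.aestronglyMeasurable measurableSet_UU
  · have h := cs_aux hφ.smooth.continuous hφ.compact hφ.supp (hG t) (hs t)
    exact (h.1.integrable_of_hasCompactSupport h.2).integrableOn
  · have hc' : ContinuousOn (G' t) UU := by
      have h : (G' t) = (fun x : ℝ × Cn 2 => G' x.1 x.2) ∘ fun p => (t, p) := rfl
      rw [h]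
      exact hc.comp (continuous_const.prodMk continuous_id).continuousOn
        fun p hp => mem_TU.2 hp
    have h1 : ContinuousOn (fun p : Cn 2 => φ (p 0) * G' t p) UU :=
      (hφ.smooth.continuous.comp (continuous_apply 0)).continuousOn.mul hc'
    exact h1.aestronglyMeasurable measurableSet_UU
  · filter_upwards [ae_restrict_mem measurableSet_UU] with p hp s hs1
    by_cases h : φ (p 0) * G' s p = 0
    · rw [h, norm_zero]
      exact Set.indicator_nonneg (fun _ _ => mul_nonneg (abs_nonneg _) hB0) _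
    · have hpK : p ∈ K := by
        refine hmem p hp (left_ne_zero_of_mul h) ?_
        by_contra hsm
        exact right_ne_zero_of_mul h (hs' s p hp hsm)
      rw [Set.indicator_of_mem hpK, norm_mul]
      refine mul_le_mul ((hD _).trans (le_abs_self _)) ?_ (norm_nonneg _) (abs_nonneg _)
      refine (hB (s, p) ⟨?_, hpK⟩).trans (le_max_left _ _)
      rw [Metric.mem_ball, Real.dist_eq, abs_lt] at hs1
      constructor <;> linarith
  · have h2 : Integrable (K.indicator fun _ : Cn 2 => |D| * max B 0) :=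
      (integrable_indicator_iff hKc.measurableSet).2
        (integrableOn_const (hs := hKc.measure_lt_top.ne))
    exact h2.integrableOn
  · filter_upwards [ae_restrict_mem measurableSet_UU] with p hp s _
    exact (hd s p hp).const_mul _

theorem deriv_dn {φ : ℂ → ℝ} (hφ : Cutoff CG φ) {G G' : ℝ → Fin 2 → Cn 2 → ℝ}
    (hG : ∀ t, Dn (G t)) (hG' : ∀ t, Dn (G' t))
    (hd : ∀ t i, ∀ p ∈ UU, HasDerivAt (fun s => G s i p) (G' t i p) t)
    (hc : ∀ i, ContinuousOn (fun x : ℝ × Cn 2 => G' x.1 i x.2) TU) (t : ℝ) :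
    HasDerivAt (fun s => II φ (G s)) (II φ (G' t)) t := by
  unfold II
  have h1 : (fun s => ∫ p in UU, φ (p 0) * G s 0 p) = fun s =>
      (∫ p in UU, φ (p 0) * (tht 0 0 p * G s 0 p)) + ∫ p in UU, φ (p 0) * (tht 1 1 p * G s 1 p) := by
    funext s
    exact (hG s).split hφ
  rw [h1, (hG' t).split hφ]
  have hk : ∀ k : Fin 2, HasDerivAt (fun s => ∫ p in UU, φ (p 0) * (tht k k p * G s k p))
      (∫ p in UU, φ (p 0) * (tht k k p * G' t k p)) t := by
    intro k
    refine deriv_cs hφ (G := fun s p => tht k k p * G s k p)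
      (G' := fun s p => tht k k p * G' s k p) (fun s => ?_) (fun s p hp => ?_) ?_ ?_ t
    · exact ((wt_tht k).smooth k).continuousOn.mul ((hG s).cont k)
    · exact (hd s k p hp).const_mul _
    · refine ContinuousOn.mul ?_ (hc k)
      exact ((wt_tht k).smooth k).continuousOn.comp continuous_snd.continuousOn
        fun x hx => mem_TU.1 hx
    · intro s p hp h
      exact tht_supp k hp (left_ne_zero_of_mul h)
  exact (hk 0).add (hk 1)

/-- The derivative of `∫ f DD P Q`. -/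
theorem deriv_fDD {φ : ℂ → ℝ} (hφ : Cutoff CG φ) {A C A' C' : ℝ}
    {f P Q : ℝ → Fin 2 → Cn 2 → ℝ} (hf : WF 0 0 f) (hP : WF A C P) (hQ : WF A' C' Q) (t : ℝ) :
    HasDerivAt (fun s => II φ (fun i p => f s i p * DD (LL (P s i) p) (LL (Q s i) p)))
      (II φ (fun i p => dt f t i p * DD (LL (P t i) p) (LL (Q t i) p)) +
        II φ (fun i p => f t i p * DD (LL (dt P t i) p) (LL (Q t i) p)) +
        II φ (fun i p => f t i p * DD (LL (P t i) p) (LL (dt Q t i) p))) t := by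
  have h1 : ∀ t, Dn fun i p => dt f t i p * DD (LL (P t i) p) (LL (Q t i) p) := fun t =>
    Dn.fn_mul (hf.dt.wt t).fn (dn_LL (hP.wt t) (hQ.wt t))
  have h2 : ∀ t, Dn fun i p => f t i p * DD (LL (dt P t i) p) (LL (Q t i) p) := fun t =>
    Dn.fn_mul (hf.wt t).fn (dn_LL (hP.dt.wt t) (hQ.wt t))
  have h3 : ∀ t, Dn fun i p => f t i p * DD (LL (P t i) p) (LL (dt Q t i) p) := fun t =>
    Dn.fn_mul (hf.wt t).fn (dn_LL (hP.wt t) (hQ.dt.wt t))
  have key := deriv_dn hφ (G := fun s i p => f s i p * DD (LL (P s i) p) (LL (Q s i) p))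
    (G' := fun s i p => dt f s i p * DD (LL (P s i) p) (LL (Q s i) p) +
      f s i p * DD (LL (dt P s i) p) (LL (Q s i) p) +
      f s i p * DD (LL (P s i) p) (LL (dt Q s i) p))
    (fun t => Dn.fn_mul (hf.wt t).fn (dn_LL (hP.wt t) (hQ.wt t)))
    (fun t => ((h1 t).add (h2 t)).add (h3 t)) ?_ ?_ t
  · rw [II_add hφ ((h1 t).add (h2 t)) (h3 t), II_add hφ (h1 t) (h2 t)] at key
    exact key
  · intro s i p hp
    refine ((hf.hasDerivAt s i hp).mul (hP.hasDerivAt_DD hQ s i hp)).congr_deriv ?_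
    ring
  · intro i
    exact (((hf.dt.cont i).mul (continuousOn_DD_fam hP hQ i)).add
      ((hf.cont i).mul (continuousOn_DD_fam hP.dt hQ i))).add
      ((hf.cont i).mul (continuousOn_DD_fam hP hQ.dt i))

end Pool.Agent.Y486
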