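import Pool.Agent.Y486.LCov
import Pool.Agent.Y486.Chol

/-!
# Part LOC
-/

set_option autoImplicit false

open scoped Manifold ContDiff Topology ComplexConjugate Matrix ComplexOrder
open MeasureTheory Set Filter

namespace Pool.Agent.Y486

open Pool.Agent.W549.CY (Cn dz dzbar chernRicci chernScalar)
open Pool.Agent.TH598.KG (hf posDef_iff_hf)
open Pool.Agent.TH997.CMan
open Complex (normSq)

/-- smooth extension of a potential -/
theorem exists_ext {U : Set (Cn 2)} {P : Cn 2 → ℝ} (hU : IsOpen U) (hP : ContDiffOn ℝ ∞ P U)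
    {K : Set (Cn 2)} (hK : IsCompact K) {r : ℝ} (hr : 0 < r)
    (hKU : ∀ x ∈ K, Metric.closedBall x r ⊆ U) :
    ∃ Q : Cn 2 → ℝ, ContDiff ℝ ∞ Q ∧ ∀ x ∈ K, ∀ p ∈ Metric.ball x (r / 2), Q =ᶠ[𝓝 p] P := by
  have hd : Disjoint (Metric.thickening (3 * r / 4) K)ᶜ (Metric.cthickening (r / 2) K) := by
    rw [Set.disjoint_left]
    intro p hp hp'
    exact hp (Metric.cthickening_subset_thickening' (by linarith) (by linarith) K hp')
  obtain ⟨χ, h0, h1, -⟩ := exists_contMDiffMap_zero_one_of_isClosed (n := ⊤) 𝓘(ℝ, Cn 2)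
    (Metric.isOpen_thickening.isClosed_compl) Metric.isClosed_cthickening hd
  have hχ : ContDiff ℝ ∞ (χ : Cn 2 → ℝ) := χ.contMDiff.contDiff
  refine ⟨fun p => χ p * P p, ?_, fun x hx p hp => ?_⟩
  · rw [contDiff_iff_contDiffAt]
    intro p
    by_cases hp : p ∈ U
    · exact hχ.contDiffAt.mul (hP.contDiffAt (hU.mem_nhds hp))
    · have hp2 : p ∉ Metric.cthickening (3 * r / 4) K := by
        intro h
        rw [hK.cthickening_eq_biUnion_closedBall (by linarith)] at h
        obtain ⟨x, hx, hpx⟩ := Set.mem_iUnion₂.1 h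
        exact hp (hKU x hx (Metric.closedBall_subset_closedBall (by linarith) hpx))
      have h2 : (fun p => χ p * P p) =ᶠ[𝓝 p] fun _ => 0 := by
        filter_upwards [Metric.isClosed_cthickening.isOpen_compl.mem_nhds hp2] with q hq
        have : χ q = 0 := h0 fun h => hq (Metric.thickening_subset_cthickening _ _ h)
        rw [this, zero_mul]
      exact contDiffAt_const.congr_of_eventuallyEq h2
  · filter_upwards [Metric.isOpen_ball.mem_nhds hp] with q hq
    have : χ q = 1 := h1 (by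
      rw [hK.cthickening_eq_biUnion_closedBall (by linarith)]
      exact Set.mem_iUnion₂.2 ⟨x, hx, Metric.ball_subset_closedBall hq⟩)
    rw [this, one_mul]

theorem hf_smul2 (A : M2) (r : ℝ) (v : Cn 2) : (hf A (r • v)).re = r ^ 2 * (hf A v).re := by
  have h1 : hf A (r • v) = ((r ^ 2 : ℝ) : ℂ) * hf A v := by
    unfold hf
    rw [Finset.mul_sum]
    refine Finset.sum_congr rfl fun j _ => ?_
    rw [Finset.mul_sum]
    refine Finset.sum_congr rfl fun k _ => ?_
    simp only [Pi.smul_apply, Complex.real_smul, map_mul, Complex.conj_ofReal]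
    push_cast
    ring
  rw [h1, Complex.re_ofReal_mul]

theorem hf_one_re {A g : M2} (h : A * g * Aᴴ = 1) (j : Fin 2) : (hf g (A j)).re = 1 := by
  have h1 := congrFun (congrFun h j) j
  rw [Matrix.one_apply_eq, Matrix.mul_apply] at h1
  have h2 : hf g (A j) = 1 := by
    rw [← h1]
    unfold hf
    simp only [Fin.sum_univ_two, Matrix.mul_apply, Matrix.conjTranspose_apply]
    show g 0 0 * A j 0 * conj (A j 0) + g 0 1 * A j 0 * conj (A j 1) +
      (g 1 0 * A j 1 * conj (A j 0) + g 1 1 * A j 1 * conj (A j 1)) =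
      (A j 0 * g 0 0 + A j 1 * g 1 0) * conj (A j 0) + (A j 0 * g 0 1 + A j 1 * g 1 1) * conj (A j 1)
    ring
  rw [h2, Complex.one_re]

/-- uniform frames -/
theorem exists_frames {P : Cn 2 → ℝ} (hP : ContDiff ℝ ∞ P) {K : Set (Cn 2)} (hK : IsCompact K)
    (hpos : ∀ x ∈ K, ∀ v : Cn 2, v ≠ 0 → 0 < (hf (LL P x) v).re) :
    ∃ R : ℝ, 0 ≤ R ∧ ∀ x ∈ K, ∃ A : Fin 2 → Cn 2, ONf P (x, A) ∧ ∀ j, ‖A j‖ ≤ R := by
  -- lower bound
  have hc : Continuous fun q : Cn 2 × Cn 2 => (hf (LL P q.1) q.2).re := by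
    have hL : ∀ j k, Continuous fun q : Cn 2 × Cn 2 => LL P q.1 j k := by
      intro j k
      have h1 : ContDiff ℝ ∞ fun q => ((P q : ℝ) : ℂ) := Complex.ofRealCLM.contDiff.comp hP
      have h2 := smooth_Wd (smooth_Wd h1 true k) false j
      have e : (fun q => LL P q j k) = Wd false j (Wd true k fun q => ((P q : ℝ) : ℂ)) :=
        funext fun q => LL_eq_Wd P q j k
      have h3 : Continuous fun q => LL P q j k := by
        rw [e]
        exact h2.continuous
      exact h3.comp continuous_fst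
    unfold hf
    fun_prop
  have hS : IsCompact (K ×ˢ Metric.sphere (0 : Cn 2) 1) := hK.prod (isCompact_sphere _ _)
  by_cases hne : (K ×ˢ Metric.sphere (0 : Cn 2) 1).Nonempty
  · obtain ⟨q, hq, hmin⟩ := hS.exists_isMinOn hne hc.continuousOn
    set m := (hf (LL P q.1) q.2).re with hm
    have hq2 : ‖q.2‖ = 1 := mem_sphere_zero_iff_norm.1 hq.2
    have hm0 : 0 < m := hpos q.1 hq.1 q.2 (by
      intro h
      rw [h] at hq2
      simp at hq2)
    refine ⟨1 / √m, by positivity, fun x hx => ?_⟩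
    have hH : (LL P x).PosDef := posDef_iff_hf.2
      ⟨LL_herm (hP.of_le two_le_inf).contDiffAt, hpos x hx⟩
    obtain ⟨T, -, -, hT⟩ := chol hH
    refine ⟨fun j => T j, ?_, fun j => ?_⟩
    · exact hT
    · have h1 : (hf (LL P x) (T j)).re = 1 := hf_one_re hT j
      have hTj : T j ≠ 0 := by
        intro h
        rw [h] at h1
        unfold hf at h1
        simp at h1
      have hn : 0 < ‖T j‖ := norm_pos_iff.2 hTj
      have h2 : m ≤ (hf (LL P x) ((‖T j‖⁻¹ : ℝ) • (T j : Cn 2))).re := by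
        refine hmin (a := (x, (‖T j‖⁻¹ : ℝ) • (T j : Cn 2))) ⟨hx, mem_sphere_zero_iff_norm.2 ?_⟩
        rw [norm_smul, norm_inv, norm_norm, inv_mul_cancel₀ hn.ne']
      rw [hf_smul2, h1, mul_one] at h2
      have h3 : ‖T j‖ ^ 2 ≤ 1 / m := by
        rw [le_div_iff₀ hm0]
        have h4 : m * ‖T j‖ ^ 2 ≤ ‖T j‖⁻¹ ^ 2 * ‖T j‖ ^ 2 :=
          mul_le_mul_of_nonneg_right h2 (by positivity)
        rw [← mul_pow, inv_mul_cancel₀ hn.ne', one_pow] at h4
        linarith
      have h5 : ‖T j‖ ≤ √(1 / m) := Real.le_sqrt_of_sq_le h3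
      rwa [Real.sqrt_div zero_le_one, Real.sqrt_one] at h5
  · refine ⟨0, le_rfl, fun x hx => ?_⟩
    exfalso
    apply hne
    refine ⟨(x, Pi.single 0 1), hx, mem_sphere_zero_iff_norm.2 ?_⟩
    show ‖(Pi.single 0 1 : Cn 2)‖ = 1
    rw [Pi.norm_single, norm_one]

theorem Lp2_le {M : ℝ} {u : Cn 2 → ℂ} (hu : Adm M 5 u) : |(Lp (Lp u) 0).re| ≤ 4 * M := by
  refine (Complex.abs_re_le_norm _).trans ?_
  rw [Lp_Lp hu.smooth]
  have t := fun i j => ((((hu.Wd true i).Wd false i).Wd true j).Wd false j).bd 0 (by norm_num) 0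
  have t00 := t 0 0
  have t01 := t 0 1
  have t10 := t 1 0
  have t11 := t 1 1
  refine (norm_add_le _ _).trans ((add_le_add (norm_add_le _ _) (norm_add_le _ _)).trans ?_)
  linarith

theorem det_continuousOn {U : Set (Cn 2)} {P : Cn 2 → ℝ} (hU : IsOpen U)
    (hP : ContDiffOn ℝ ∞ P U) : ContinuousOn (fun q => (LL P q).det.re) U := by
  intro q hq
  have h1 : ContDiffAt ℝ 2 (fun q => ((P q : ℝ) : ℂ)) q :=
    cdC_of ((hP.contDiffAt (hU.mem_nhds hq)).of_le two_le_inf)
  have h2 : ∀ j k, ContDiffAt ℝ (0 : ℕ) (fun q => LL P q j k) q := fun j k =>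
    contDiffAt_dz (m := 0) (contDiffAt_dzbar (m := 1) h1 k) j
  have h3 := contDiffAt_det h2
  exact (Complex.continuous_re.continuousAt.comp h3.continuousAt).continuousWithinAt

theorem t_loc : St_loc := by
  intro U P hU hP hpos K hK r hr hKU
  obtain ⟨Q, hQ, hQP⟩ := exists_ext hU hP hK hr hKU
  have hself : ∀ x ∈ K, Q =ᶠ[𝓝 x] P := fun x hx =>
    hQP x hx x (Metric.mem_ball_self (by linarith))
  have hKU' : ∀ x ∈ K, x ∈ U := fun x hx => hKU x hx (Metric.mem_closedBall_self hr.le)
  have hposQ : ∀ x ∈ K, ∀ v : Cn 2, v ≠ 0 → 0 < (hf (LL Q x) v).re := by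
    intro x hx v hv
    rw [LL_congr (hself x hx)]
    exact hpos x (hKU' x hx) v hv
  obtain ⟨R, hR0, hR⟩ := exists_frames hQ hK hposQ
  -- compact set of parameters
  set L : Set Pm := K ×ˢ Metric.closedBall (0 : Fin 2 → Cn 2) R with hL
  have hLc : IsCompact L := hK.prod (isCompact_closedBall _ _)
  obtain ⟨M, hM1, hM⟩ := unif_uN hQ hLc 5
  have hTc : Continuous fun l : Pm => T3 Q l := by
    refine continuous_pi fun a => continuous_pi fun b => continuous_pi fun c => ?_
    exact (smooth_T3 hQ a b c).continuous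
  obtain ⟨B', hB'⟩ := hLc.exists_bound_of_continuousOn hTc.continuousOn
  set B := max B' 0 with hB
  have hB0 : 0 ≤ B := le_max_right _ _
  have hBT : ∀ l ∈ L, ∀ a b c, ‖T3 Q l a b c‖ ≤ B := by
    intro l hl a b c
    exact ((norm_le_pi_norm _ c).trans ((norm_le_pi_norm _ b).trans
      ((norm_le_pi_norm _ a).trans (hB' l hl)))).trans (le_max_left _ _)
  have hM0 : 0 < M := by linarith
  set δ : ℝ := min (1 / (32 * M)) (min (1 / (8 * (B + 1))) (r / (32 * (R + 1)))) with hδ
  have hδ0 : 0 < δ := by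
    refine lt_min (by positivity) (lt_min (by positivity) (by positivity))
  have hδ1 : δ ≤ 1 / (32 * M) := min_le_left _ _
  have hδ2 : δ ≤ 1 / (8 * (B + 1)) := (min_le_right _ _).trans (min_le_left _ _)
  have hδ3 : δ ≤ r / (32 * (R + 1)) := (min_le_right _ _).trans (min_le_right _ _)
  have hδB : 8 * B * δ ≤ 1 := by
    rw [le_div_iff₀ (by positivity)] at hδ2
    nlinarith
  have hδR : 8 * R * δ < r / 2 := by
    rw [le_div_iff₀ (by positivity)] at hδ3
    nlinarith
  have hδ4 : δ ≤ 1 := hδ1.trans ((div_le_one (by positivity)).2 (by linarith))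
  obtain ⟨C, k₀, hC0, hk0, hmod⟩ := model hM1 hδ0 hδ1
  refine ⟨C, k₀ + 4 * M, by linarith, fun x hx k hk F hF α v => ?_⟩
  obtain ⟨A, hON, hA⟩ := hR x hx
  have hl : (x, A) ∈ L := ⟨hx, by
    rw [mem_closedBall_zero_iff]
    exact (pi_norm_le_iff_of_nonneg hR0).2 hA⟩
  have hkk : k₀ ≤ k := by linarith
  have hk1 : 1 ≤ k := by linarith
  have hk00 : 0 < k := by linarith
  have hdet : 0 < (LL Q x).det.re := by
    have hH : (LL Q x).PosDef := posDef_iff_hf.2
      ⟨LL_herm (hQ.of_le two_le_inf).contDiffAt, hposQ x hx⟩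
    exact (Complex.pos_iff.1 hH.det_pos).1
  have hadm := hM (x, A) hl
  have hfl := Fl_uN hQ hON
  have hballU : Metric.ball x r ⊆ U := Metric.ball_subset_closedBall.trans (hKU x hx)
  have hball2 : Metric.ball x (r / 2) ⊆ Metric.ball x r := Metric.ball_subset_ball (by linarith)
  have hone := one_pt (l := (x, A)) hQ hB0 (hBT (x, A) hl) hA hON hδB hδR hδ4 (by linarith) hdet
    (hF.mono (hball2.trans hballU)) (hmod (uN Q (x, A)) hadm hfl k hkk) α v
  -- rewriting in terms of `P`
  have e1 : Q x = P x := (hself x hx).eq_of_nhds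
  have e2 : LL Q x = LL P x := LL_congr (hself x hx)
  have e3 : chernScalar (LL Q) x = chernScalar (LL P) x := chernScalar_congr (LL_congr' (hself x hx))
  have e4 : ∀ j, dz j (fun q => ((Q q : ℝ) : ℂ)) x = dz j (fun q => ((P q : ℝ) : ℂ)) x := by
    intro j
    refine dz_congr ?_ j
    filter_upwards [hself x hx] with q hq
    rw [hq]
  simp only at hone
  have hsc := scal_uN hQ hON hdet
  simp only at hsc
  have hsb := Lp2_le hadm
  rw [e3] at hsc
  rw [e1, e2, e3] at hone
  simp only [e4] at hone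
  refine hone.trans (mul_le_mul_of_nonneg_left ?_ ?_)
  · -- the integrals
    have hsub : Ps Q (x, A) '' Metric.ball 0 δ ⊆ Metric.ball x (r / 2) := by
      rintro _ ⟨w, hw, rfl⟩
      have hw' := mem_ball_zero_iff.1 hw
      exact Ps_mem hB0 (hBT (x, A) hl) hA hδB hδR (by linarith)
    have hms : MeasurableSet (Ps Q (x, A) '' Metric.ball 0 δ) := by
      have hd : ∀ w, HasFDerivAt (Ps Q (x, A)) (fderiv ℂ (Ps Q (x, A)) w) w := fun w =>
        (((cdC_Ps (P := Q) (x, A)).of_le two_le_inf).contDiffAt.differentiableAt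
          (by simp)).hasFDerivAt
      exact measurable_image_of_fderivWithin measurableSet_ball
        (fun w _ => ((hd w).restrictScalars ℝ).hasFDerivWithinAt)
        (Ps_inj hB0 (hBT (x, A) hl) hON hδB)
    have e5 : ∫ p in Ps Q (x, A) '' Metric.ball 0 δ, Hk Q k F p =
        ∫ p in Ps Q (x, A) '' Metric.ball 0 δ, Hk P k F p := by
      refine setIntegral_congr_fun hms fun p hp => ?_
      have h5 := hQP x hx p (hsub hp)
      show normSq (F p) * Real.exp (-(k * Q p)) * (LL Q p).det.re =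
        normSq (F p) * Real.exp (-(k * P p)) * (LL P p).det.re
      rw [h5.eq_of_nhds, LL_congr h5]
    rw [e5]
    have hcont : ContinuousOn (Hk P k F) U := by
      have c1 : ContinuousOn (fun p => normSq (F p)) U :=
        Complex.continuous_normSq.comp_continuousOn hF.continuousOn
      have c2 : ContinuousOn (fun p => Real.exp (-(k * P p))) U :=
        Real.continuous_exp.comp_continuousOn (hP.continuousOn.const_smul k).neg
      exact (c1.mul c2).mul (det_continuousOn hU hP)
    have hint : IntegrableOn (Hk P k F) (Metric.ball x r) :=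
      ((hcont.mono (hKU x hx)).integrableOn_compact (isCompact_closedBall x r)).mono_set
        Metric.ball_subset_closedBall
    have hnn : ∀ p ∈ Metric.ball x r, 0 ≤ Hk P k F p := by
      intro p hp
      have hH : (LL P p).PosDef := posDef_iff_hf.2
        ⟨LL_herm ((hP.contDiffAt (hU.mem_nhds (hballU hp))).of_le two_le_inf), hpos p (hballU hp)⟩
      exact mul_nonneg (mul_nonneg (Complex.normSq_nonneg _) (Real.exp_pos _).le)
        (Complex.pos_iff.1 hH.det_pos).1.le
    exact setIntegral_mono_set hint (ae_restrict_of_forall_mem measurableSet_ball hnn)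
      (hsub.trans hball2).eventuallyLE
  · -- the coefficient
    have hS : |(chernScalar (LL P) x).re| ≤ 4 * M := by
      rw [hsc, abs_neg]
      exact hsb
    have hS2 : |(chernScalar (LL P) x).re / (2 * k)| ≤ 1 / 2 := by
      rw [abs_div, abs_of_pos (by positivity : 0 < 2 * k), div_le_iff₀ (by positivity)]
      linarith
    have hS3 := abs_le.1 hS2
    have hCk : 0 ≤ C / (k * √k) := by positivity
    have hv : 0 ≤ (hf (LL P x) v).re := by
      by_cases h0 : v = 0
      · rw [h0]
        unfold hf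
        simp
      · exact (hpos x (hKU' x hx) v h0).le
    have hn := Complex.normSq_nonneg α
    have h1 : 0 ≤ 1 + (chernScalar (LL P) x).re / (2 * k) + C / (k * √k) := by linarith [hS3.1]
    have h2 : 0 ≤ normSq α + k * (hf (LL P x) v).re := by positivity
    exact mul_nonneg (mul_nonneg (by positivity) h1) h2

end Pool.Agent.Y486
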