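import Pool.Agent.Y486.CoreT
import Pool.Agent.Y486.Loc
import Pool.Agent.Y574.KX.Main
import Pool.Agent.Y789.MF.Fin

/-!
# The final theorem
-/

set_option autoImplicit false

open scoped Manifold ContDiff Topology ComplexConjugate Matrix
open MeasureTheory Set Filter

namespace Pool.Agent.Y486

open Pool.Agent.W549.CY (Cn dz dzbar HermitianMetric chernRicci chernScalar)
open Pool.Agent.W711.KC (CG)
open Pool.Agent.TH598.KG (hf Cutoff)
open Pool.Agent.TH598 (IsKahler scal HasTotalScalar)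

theorem t_core' : St_core := t_core t_loc Pool.Agent.Y789.MF.t_MF

/-- the total scalar curvature of the reference metrics -/
theorem total_Rw {φ : ℂ → ℝ} (hφ : Cutoff CG φ) {A C : ℝ} (hA : 0 < A) (hAC : A < C) :
    ∫ p in UU, φ (p 0) * (4 * ((LL (Rw A C 0) p).det.re * (chernScalar (LL (Rw A C 0)) p).re)) =
      4 * (Real.pi ^ 2 * WW φ * (2 * C - 3 * A)) := by
  rw [← II_sc hφ (wt_Rw A C) (Pool.Agent.Y574.KX.pd_Rw hA hAC)]
  unfold II
  rw [← integral_const_mul]
  congr 1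
  funext p
  unfold sc
  ring

theorem t_final : St_final := by
  obtain ⟨X, i1, i2, i3, i4, i5, i6, i7, i8, hX⟩ := Pool.Agent.Y574.KX.t_X
  obtain ⟨φ, hφ⟩ := Pool.Agent.TH997.KG.exists_cutoff
  have hW := WW_pos hφ
  have hpi := Real.pi_pos
  have hcore := t_core'
  refine ⟨X, i1, i2, i3, i4, i5, i6, i7, i8, ?_, ?_⟩
  · obtain ⟨h₀, hk, hT, hh⟩ := hX 3 5 (by norm_num) (by norm_num)
    refine ⟨h₀, hk, ⟨_, ?_, hT φ hφ⟩, fun h hkh hs => ?_⟩
    · rw [total_Rw hφ (by norm_num) (by norm_num)]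
      have : 0 < Real.pi ^ 2 * WW φ := by positivity
      nlinarith
    · obtain ⟨P, hP, hpd, hval⟩ := hh h hkh hs
      have h3 := (hcore 3 5 (by norm_num) (by norm_num) P (by exact_mod_cast hP) hpd).2 (by norm_num)
      push Not at h3
      obtain ⟨i, p, hp, hle⟩ := h3
      obtain ⟨x, hx⟩ := hval i p hp
      exact ⟨x, hx ▸ hle⟩
  · obtain ⟨h₀, hk, hT, hh⟩ := hX 3 4 (by norm_num) (by norm_num)
    refine ⟨h₀, hk, ⟨_, ?_, hT φ hφ⟩, fun h hkh hs => ?_⟩
    · rw [total_Rw hφ (by norm_num) (by norm_num)]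
      have : 0 < Real.pi ^ 2 * WW φ := by positivity
      nlinarith
    · obtain ⟨P, hP, hpd, hval⟩ := hh h hkh hs
      have h3 := (hcore 3 4 (by norm_num) (by norm_num) P (by exact_mod_cast hP) hpd).1
      push Not at h3
      obtain ⟨i, p, hp, hle⟩ := h3
      obtain ⟨x, hx⟩ := hval i p hp
      exact ⟨x, hx ▸ hle⟩

end Pool.Agent.Y486
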