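import Pool.Agent.H799R2.Grid

/-!
An explicit bound for the `L₁` distortion of the space of uniform `s`-point measures on the grid:
the construction of `Pool.Agent.H799R2` with the size of the new function controlled by
`n (n - 1) / 2` on configurations of `n` points, and with separate constants for the upper and for
the lower estimate.
-/

set_option autoImplicit false
set_option linter.unusedSectionVars false

namespace Pool.Agent.Y486.L1Exp

open Finset Pool.Agent.H799R2.Cuts

/-- The size function `n (n - 1) / 2`. -/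
noncomputable def gam (n : ℕ) : ℝ := (n : ℝ) * ((n : ℝ) - 1) / 2

theorem gam_nonneg (n : ℕ) : 0 ≤ gam n := by
  unfold gam
  rcases Nat.eq_zero_or_pos n with rfl | h
  · simp
  · have : (1 : ℝ) ≤ n := by exact_mod_cast h
    have : 0 ≤ (n : ℝ) * ((n : ℝ) - 1) := mul_nonneg (by linarith) (by linarith)
    linarith

theorem gam_mono {m n : ℕ} (h : m ≤ n) : gam m ≤ gam n := by
  unfold gam
  rcases Nat.eq_zero_or_pos m with rfl | hm
  · have := gam_nonneg n
    unfold gam at this
    simpa using this
  · have h1 : (1 : ℝ) ≤ m := by exact_mod_cast hm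
    have h2 : (m : ℝ) ≤ n := by exact_mod_cast h
    nlinarith

theorem gam_add (a b : ℕ) : (a : ℝ) * b + gam a + gam b = gam (a + b) := by
  unfold gam; push_cast; ring

variable {M K : Type} [Fintype K]

theorem abs_D_le' (c : K → M → Bool) (k l : K) (X : Multiset M) :
    |D c k l X| ≤ ((X1 c k X).card : ℝ) * (X0 c k X).card := by
  have h3 : (N c l (X1 c k X) : ℝ) ≤ (X1 c k X).card := by exact_mod_cast N_le c l (X1 c k X)
  have h4 : (N c l (X0 c k X) : ℝ) ≤ (X0 c k X).card := by exact_mod_cast N_le c l (X0 c k X)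
  have h7 : (0 : ℝ) ≤ (X1 c k X).card := Nat.cast_nonneg _
  have h8 : (0 : ℝ) ≤ (X0 c k X).card := Nat.cast_nonneg _
  have h9 : (0 : ℝ) ≤ N c l (X1 c k X) := Nat.cast_nonneg _
  have h10 : (0 : ℝ) ≤ N c l (X0 c k X) := Nat.cast_nonneg _
  unfold D
  rw [abs_le]
  constructor
  · nlinarith [mul_le_mul_of_nonneg_left h4 h7, mul_nonneg h8 h9]
  · nlinarith [mul_le_mul_of_nonneg_left h3 h8, mul_nonneg h7 h10]

section step

variable {ι : Type} [Fintype ι] (c : K → M → Bool) (w : K → ℝ) (G : Multiset M → ι → ℝ)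
variable (hw : ∀ k, 0 ≤ w k)
include hw

/-- Size of the terms. -/
theorem T_size0 {s : ℕ}
    (hG : ∀ X : Multiset M, X.card ≤ s → l1 (G X) ≤ gam X.card * R c w X)
    {k : K} {X : Multiset M} (hX : X.card ≤ s + 1) (hk : Sep c k X) :
    l1 (T c w G k X) ≤ gam X.card * R c w X := by
  rw [l1_T]
  have h1 : ∑ l, |w l * D c k l X| ≤
      (((X1 c k X).card : ℝ) * (X0 c k X).card) * R c w X := by
    unfold R
    rw [Finset.mul_sum]
    refine Finset.sum_le_sum fun l _ => ?_
    by_cases hl : Sep c l X
    · rw [if_pos hl, abs_mul, abs_of_nonneg (hw l), mul_comm]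
      exact mul_le_mul_of_nonneg_right (abs_D_le' c k l X) (hw l)
    · rw [if_neg hl, D_eq_zero c k l X hl]; simp
  have hc := card_X1_add c k X
  obtain ⟨hk1, hk2⟩ := hk
  rw [← card_X1] at hk1 hk2
  have h2 : l1 (G (X1 c k X)) ≤ gam (X1 c k X).card * R c w X :=
    (hG _ (by omega)).trans (mul_le_mul_of_nonneg_left (R_X1_le c w hw k X) (gam_nonneg _))
  have h3 : l1 (G (X0 c k X)) ≤ gam (X0 c k X).card * R c w X :=
    (hG _ (by omega)).trans (mul_le_mul_of_nonneg_left (R_X0_le c w hw k X) (gam_nonneg _))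
  have h4 := gam_add (X1 c k X).card (X0 c k X).card
  rw [hc] at h4
  rw [← h4]
  nlinarith

theorem T_size' {s : ℕ}
    (hG : ∀ X : Multiset M, X.card ≤ s → l1 (G X) ≤ gam X.card * R c w X)
    {k : K} {X : Multiset M} (hX : X.card ≤ s + 1) (hk : Sep c k X) :
    l1 (T c w G k X) ≤ gam (s + 1) * R c w X :=
  (T_size0 c w G hw hG hX hk).trans
    (mul_le_mul_of_nonneg_right (gam_mono hX) (R_nonneg c w hw X))

theorem l1_a_T0 {s : ℕ}
    (hG : ∀ X : Multiset M, X.card ≤ s → l1 (G X) ≤ gam X.card * R c w X)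
    (k : K) {X : Multiset M} (hX : X.card ≤ s + 1) :
    l1 (a c w k X • T c w G k X) ≤ gam X.card * (if Sep c k X then w k else 0) := by
  rw [l1_smul, abs_of_nonneg (a_nonneg c w hw k X)]
  unfold a
  by_cases hk : Sep c k X
  · rw [if_pos hk, if_pos hk]
    have hR := R_nonneg c w hw X
    have h1 := T_size0 c w G hw hG hX hk
    have hB : 0 ≤ gam X.card := gam_nonneg _
    calc w k / R c w X * l1 (T c w G k X)
        ≤ w k / R c w X * (gam X.card * R c w X) :=
          mul_le_mul_of_nonneg_left h1 (div_nonneg (hw k) hR)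
      _ = gam X.card * (w k * (R c w X / R c w X)) := by ring
      _ ≤ gam X.card * (w k * 1) :=
          mul_le_mul_of_nonneg_left (mul_le_mul_of_nonneg_left (div_self_le_one _) (hw k)) hB
      _ = _ := by ring
  · rw [if_neg hk, if_neg hk]; simp

theorem l1_a_T' {s : ℕ}
    (hG : ∀ X : Multiset M, X.card ≤ s → l1 (G X) ≤ gam X.card * R c w X)
    (k : K) {X : Multiset M} (hX : X.card ≤ s + 1) :
    l1 (a c w k X • T c w G k X) ≤ gam (s + 1) * (if Sep c k X then w k else 0) := by
  refine (l1_a_T0 c w G hw hG k hX).trans (mul_le_mul_of_nonneg_right (gam_mono hX) ?_)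
  split_ifs
  · exact hw k
  · exact le_rfl

theorem G'_size' {s : ℕ}
    (hG : ∀ X : Multiset M, X.card ≤ s → l1 (G X) ≤ gam X.card * R c w X)
    {X : Multiset M} (hX : X.card ≤ s + 1) :
    l1 (G' c w G X) ≤ gam X.card * R c w X := by
  rw [l1_G', R, Finset.mul_sum]
  exact Finset.sum_le_sum fun k _ => l1_a_T0 c w G hw hG k hX

/-- The new function is Lipschitz. -/
theorem G'_lip' {s : ℕ} {C : ℝ} (hC : 0 ≤ C)
    (hG : ∀ X : Multiset M, X.card ≤ s → l1 (G X) ≤ gam X.card * R c w X)
    (hL : ∀ P : Multiset (M × M), P.card ≤ s →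
      l1 (G (P.map Prod.fst) - G (P.map Prod.snd)) ≤ C * cost c w P)
    {P : Multiset (M × M)} (hP : P.card ≤ s + 1) :
    l1 (G' c w G (P.map Prod.fst) - G' c w G (P.map Prod.snd)) ≤
      ((((s + 1 : ℕ) : ℝ) + C) + 3 * gam (s + 1)) * cost c w P := by
  set X := P.map Prod.fst with hX
  set Y := P.map Prod.snd with hY
  set B : ℝ := gam (s + 1) with hB
  set B' : ℝ := ((s + 1 : ℕ) : ℝ) + C with hB'
  set t := cost c w P with ht
  have ht0 : 0 ≤ t := cost_nonneg c w hw P
  have hB0 : 0 ≤ B := gam_nonneg _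
  have hB'0 : 0 ≤ B' := by positivity
  have hXc : X.card = P.card := Multiset.card_map _ _
  have hYc : Y.card = P.card := Multiset.card_map _ _
  have hXY : X.card = Y.card := by rw [hXc, hYc]
  have hR : |R c w X - R c w Y| ≤ t := (abs_R_sub_le c w hw hXY).trans (A_le_cost c w hw P)
  rw [l1_G'_sub]
  have key : ∀ k, l1 (a c w k X • T c w G k X - a c w k Y • T c w G k Y) ≤
      a c w k X * ((B' + B) * t) + 2 * B * (w k * (S c k P : ℝ)) := by
    intro k
    by_cases hS : S c k P = 0
    · have hgood := (S_zero_iff c k P).1 hS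
      have hN : N c k X = N c k Y := by
        have := abs_N_sub_le c k P
        rw [hS] at this
        have h0 : (N c k X : ℝ) - N c k Y = 0 := abs_nonpos_iff.1 (by simpa using this)
        have h1 : (N c k X : ℝ) = N c k Y := by linarith
        exact_mod_cast h1
      have hsep := sep_congr c hXY hN
      rw [hS]
      simp only [CharP.cast_eq_zero, mul_zero, add_zero]
      by_cases hk : Sep c k X
      · have hk' : Sep c k Y := hsep.1 hk
        have hwX := w_le_R c w hw hk
        have hwY := w_le_R c w hw hk'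
        rcases (hw k).eq_or_lt with h0 | hpos
        · have e1 : a c w k X = 0 := by unfold a; rw [← h0]; simp
          have e2 : a c w k Y = 0 := by unfold a; rw [← h0]; simp
          rw [e1, e2]; simp [l1_zero]
        · have hRX : 0 < R c w X := hpos.trans_le hwX
          have hRY : 0 < R c w Y := hpos.trans_le hwY
          have haX : a c w k X = w k / R c w X := by unfold a; rw [if_pos hk]
          have haY : a c w k Y = w k / R c w Y := by unfold a; rw [if_pos hk']
          have hTY : l1 (T c w G k Y) ≤ B * R c w Y :=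
            T_size' c w G hw hG (by rw [hYc]; exact hP) hk'
          have hTXY : l1 (T c w G k X - T c w G k Y) ≤ B' * t :=
            T_lip c w G hw hC hL hP hk hgood
          have hdec : a c w k X • T c w G k X - a c w k Y • T c w G k Y =
              a c w k X • (T c w G k X - T c w G k Y) +
                (a c w k X - a c w k Y) • T c w G k Y := by
            rw [smul_sub, sub_smul]; abel
          rw [hdec]
          refine (l1_add_le _ _).trans ?_
          rw [l1_smul, l1_smul, abs_of_nonneg (a_nonneg c w hw k X)]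
          have h1 : a c w k X * l1 (T c w G k X - T c w G k Y) ≤ a c w k X * (B' * t) :=
            mul_le_mul_of_nonneg_left hTXY (a_nonneg c w hw k X)
          have h2 : |a c w k X - a c w k Y| * l1 (T c w G k Y) ≤ a c w k X * (B * t) := by
            have h3 : a c w k X - a c w k Y = (a c w k X / R c w Y) * (R c w Y - R c w X) := by
              rw [haX, haY]
              field_simp
            have h4 : |a c w k X - a c w k Y| ≤ (a c w k X / R c w Y) * t := by
              rw [h3, abs_mul, abs_of_nonneg (div_nonneg (a_nonneg c w hw k X) hRY.le),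
                abs_sub_comm]
              exact mul_le_mul_of_nonneg_left hR (div_nonneg (a_nonneg c w hw k X) hRY.le)
            calc |a c w k X - a c w k Y| * l1 (T c w G k Y)
                ≤ ((a c w k X / R c w Y) * t) * (B * R c w Y) :=
                  mul_le_mul h4 hTY (l1_nonneg _)
                    (mul_nonneg (div_nonneg (a_nonneg c w hw k X) hRY.le) ht0)
              _ = a c w k X * (B * t) := by field_simp
          nlinarith
      · have hk' : ¬ Sep c k Y := fun h => hk (hsep.2 h)
        have e1 : a c w k X = 0 := by unfold a; rw [if_neg hk]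
        have e2 : a c w k Y = 0 := by unfold a; rw [if_neg hk']
        rw [e1, e2]; simp [l1_zero]
    · have hS1 : (1 : ℝ) ≤ S c k P := by exact_mod_cast Nat.one_le_iff_ne_zero.2 hS
      have h1 := l1_a_T' c w G hw hG k (X := X) (by rw [hXc]; exact hP)
      have h2 := l1_a_T' c w G hw hG k (X := Y) (by rw [hYc]; exact hP)
      have h3 : (if Sep c k X then w k else 0) ≤ w k := by
        split_ifs
        · exact le_rfl
        · exact hw k
      have h4 : (if Sep c k Y then w k else 0) ≤ w k := by
        split_ifs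
        · exact le_rfl
        · exact hw k
      have h5 := mul_le_mul_of_nonneg_left h3 hB0
      have h6 := mul_le_mul_of_nonneg_left h4 hB0
      have h7 : 0 ≤ a c w k X * ((B' + B) * t) :=
        mul_nonneg (a_nonneg c w hw k X) (by positivity)
      have h8 : B * w k ≤ B * (w k * (S c k P : ℝ)) := by
        refine mul_le_mul_of_nonneg_left ?_ hB0
        calc w k = w k * 1 := (mul_one _).symm
          _ ≤ _ := mul_le_mul_of_nonneg_left hS1 (hw k)
      have h9 := l1_sub_le (a c w k X • T c w G k X) (a c w k Y • T c w G k Y)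
      linarith
  refine (Finset.sum_le_sum fun k _ => key k).trans ?_
  rw [Finset.sum_add_distrib, ← Finset.sum_mul, ← Finset.mul_sum, ← cost_eq, ← ht]
  have h1 : (∑ k, a c w k X) * ((B' + B) * t) ≤ 1 * ((B' + B) * t) :=
    mul_le_mul_of_nonneg_right (sum_a_le c w hw X) (by positivity)
  linarith

/-- The lower bound for the new function. -/
theorem G'_lower' {s : ℕ} {C : ℝ} (hC : 0 ≤ C)
    (hG : ∀ X : Multiset M, X.card ≤ s → l1 (G X) ≤ gam X.card * R c w X)
    (hM : ∀ X Y : Multiset M, X.card = Y.card → X.card ≤ s →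
      ∃ P : Multiset (M × M), P.map Prod.fst = X ∧ P.map Prod.snd = Y ∧
        cost c w P ≤ C * (A c w X Y + l1 (G X - G Y)))
    {X Y : Multiset M} (hXY : X.card = Y.card) (hX : X.card ≤ s + 1) :
    ∃ P : Multiset (M × M), P.map Prod.fst = X ∧ P.map Prod.snd = Y ∧
      cost c w P ≤ (10 * ((s + 1 : ℕ) : ℝ) +
        C * (6 + 4 * gam (s + 1))) *
          (A c w X Y + l1 (G' c w G X - G' c w G Y)) := by
  set B : ℝ := gam (s + 1) with hB
  have hB0 : 0 ≤ B := gam_nonneg _
  set E : ℝ := A c w X Y + l1 (G' c w G X - G' c w G Y) with hE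
  have hA0 := A_nonneg c w hw X Y
  have hl0 : 0 ≤ l1 (G' c w G X - G' c w G Y) := l1_nonneg _
  have hE0 : 0 ≤ E := by positivity
  have hRX0 := R_nonneg c w hw X
  have hRY0 := R_nonneg c w hw Y
  have hRR := abs_R_sub_le c w hw hXY
  rw [abs_le] at hRR
  by_cases hcase : R c w X ≤ 4 * A c w X Y
  · -- crude matching
    obtain ⟨P, hP1, hP2⟩ := exists_matching X Y hXY
    refine ⟨P, hP1, hP2, ?_⟩
    have h1 : cost c w P ≤ P.card * (R c w X + R c w Y + A c w X Y) := by
      refine cost_le_card c w hw fun p hp => ?_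
      refine rho_le c w hw hXY ?_ ?_
      · rw [← hP1]; exact Multiset.mem_map_of_mem _ hp
      · rw [← hP2]; exact Multiset.mem_map_of_mem _ hp
    have hcard : P.card = X.card := by rw [← hP1, Multiset.card_map]
    have h2 : (P.card : ℝ) ≤ ((s + 1 : ℕ) : ℝ) := by
      rw [hcard]; exact_mod_cast hX
    have h3 : R c w X + R c w Y + A c w X Y ≤ 10 * E := by linarith [hRR.1]
    calc cost c w P ≤ P.card * (R c w X + R c w Y + A c w X Y) := h1
      _ ≤ ((s + 1 : ℕ) : ℝ) * (10 * E) := mul_le_mul h2 h3 (by positivity) (Nat.cast_nonneg _)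
      _ ≤ _ := by
        have : 0 ≤ C * (6 + 4 * B) * E := by positivity
        nlinarith
  · push Not at hcase
    have hRX : 0 < R c w X := by linarith
    have hRY : 0 < R c w Y := by linarith [hRR.2]
    -- good cuts
    set Gd : Finset K := Finset.univ.filter fun k => Sep c k X ∧ N c k X = N c k Y with hGd
    have hGdw : R c w X - A c w X Y ≤ ∑ k ∈ Gd, w k := by
      have : R c w X ≤ (∑ k ∈ Gd, w k) + A c w X Y := by
        rw [hGd, Finset.sum_filter]
        unfold R A
        rw [← Finset.sum_add_distrib]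
        refine Finset.sum_le_sum fun k _ => ?_
        have hwk := hw k
        by_cases hs : Sep c k X
        · rw [if_pos hs]
          by_cases hN : N c k X = N c k Y
          · rw [if_pos ⟨hs, hN⟩]
            have : 0 ≤ w k * |(N c k X : ℝ) - N c k Y| := mul_nonneg hwk (abs_nonneg _)
            linarith
          · rw [if_neg (fun h => hN h.2)]
            have h1 : (1 : ℝ) ≤ |(N c k X : ℝ) - N c k Y| := by
              have : (N c k X : ℤ) - N c k Y ≠ 0 := by
                intro h; apply hN; omega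
              have h2 : (1 : ℤ) ≤ |(N c k X : ℤ) - N c k Y| := Int.one_le_abs this
              exact_mod_cast h2
            have h2 : w k * 1 ≤ w k * |(N c k X : ℝ) - N c k Y| :=
              mul_le_mul_of_nonneg_left h1 hwk
            linarith
        · rw [if_neg hs, if_neg (fun h => hs h.1)]
          have : 0 ≤ w k * |(N c k X : ℝ) - N c k Y| := mul_nonneg hwk (abs_nonneg _)
          linarith
      linarith
    have hGpos : 3 / 4 * R c w X < ∑ k ∈ Gd, w k := by linarith
    -- lower bound of the good terms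
    have hterm : ∀ k ∈ Gd, w k * (l1 (T c w G k X - T c w G k Y) - B * A c w X Y) ≤
        R c w X * l1 (a c w k X • T c w G k X - a c w k Y • T c w G k Y) := by
      intro k hk
      obtain ⟨-, hs, hN⟩ := Finset.mem_filter.1 hk
      have hs' : Sep c k Y := (sep_congr c hXY hN).1 hs
      have haX : a c w k X = w k / R c w X := by unfold a; rw [if_pos hs]
      have haY : a c w k Y = w k / R c w Y := by unfold a; rw [if_pos hs']
      have hTY : l1 (T c w G k Y) ≤ B * R c w Y :=
        T_size' c w G hw hG (by rw [← hXY]; exact hX) hs'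
      have hdec : a c w k X • (T c w G k X - T c w G k Y) =
          (a c w k X • T c w G k X - a c w k Y • T c w G k Y) +
            (a c w k Y - a c w k X) • T c w G k Y := by
        rw [smul_sub, sub_smul]; abel
      have h1 : a c w k X * l1 (T c w G k X - T c w G k Y) ≤
          l1 (a c w k X • T c w G k X - a c w k Y • T c w G k Y) +
            |a c w k Y - a c w k X| * l1 (T c w G k Y) := by
        have h2 := l1_add_le (a c w k X • T c w G k X - a c w k Y • T c w G k Y)
          ((a c w k Y - a c w k X) • T c w G k Y)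
        rw [← hdec, l1_smul, l1_smul, abs_of_nonneg (a_nonneg c w hw k X)] at h2
        exact h2
      have h3 : a c w k Y - a c w k X = (a c w k X / R c w Y) * (R c w X - R c w Y) := by
        rw [haX, haY]
        field_simp
      have h4 : |a c w k Y - a c w k X| ≤ (a c w k X / R c w Y) * A c w X Y := by
        rw [h3, abs_mul, abs_of_nonneg (div_nonneg (a_nonneg c w hw k X) hRY.le)]
        exact mul_le_mul_of_nonneg_left (abs_le.2 hRR) (div_nonneg (a_nonneg c w hw k X) hRY.le)
      have h5 : |a c w k Y - a c w k X| * l1 (T c w G k Y) ≤ a c w k X * (B * A c w X Y) :=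
        calc |a c w k Y - a c w k X| * l1 (T c w G k Y)
            ≤ ((a c w k X / R c w Y) * A c w X Y) * (B * R c w Y) :=
              mul_le_mul h4 hTY (l1_nonneg _)
                (mul_nonneg (div_nonneg (a_nonneg c w hw k X) hRY.le) hA0)
          _ = a c w k X * (B * A c w X Y) := by field_simp
      have h6 : a c w k X * (l1 (T c w G k X - T c w G k Y) - B * A c w X Y) ≤
          l1 (a c w k X • T c w G k X - a c w k Y • T c w G k Y) := by nlinarith
      have h7 := mul_le_mul_of_nonneg_left h6 hRX.le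
      have h8 : R c w X * (a c w k X * (l1 (T c w G k X - T c w G k Y) - B * A c w X Y)) =
          w k * (l1 (T c w G k X - T c w G k Y) - B * A c w X Y) := by
        rw [haX]; field_simp
      rwa [h8] at h7
    have hsum : ∑ k ∈ Gd, w k * (l1 (T c w G k X - T c w G k Y) - B * A c w X Y) ≤
        R c w X * E := by
      calc _ ≤ ∑ k ∈ Gd, R c w X * l1 (a c w k X • T c w G k X - a c w k Y • T c w G k Y) :=
            Finset.sum_le_sum hterm
        _ ≤ ∑ k, R c w X * l1 (a c w k X • T c w G k X - a c w k Y • T c w G k Y) :=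
            Finset.sum_le_sum_of_subset_of_nonneg (Finset.subset_univ _)
              fun k _ _ => mul_nonneg hRX0 (l1_nonneg _)
        _ = R c w X * l1 (G' c w G X - G' c w G Y) := by rw [← Finset.mul_sum, l1_G'_sub]
        _ ≤ R c w X * E := mul_le_mul_of_nonneg_left (by linarith) hRX0
    obtain ⟨k, hk, hτ⟩ : ∃ k ∈ Gd, l1 (T c w G k X - T c w G k Y) ≤ 4 / 3 * (1 + B) * E := by
      by_contra hcon
      push Not at hcon
      have hAE : A c w X Y ≤ E := by linarith
      have h1 : ∑ k ∈ Gd, w k * (4 / 3 * (1 + B) * E - B * E) ≤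
          ∑ k ∈ Gd, w k * (l1 (T c w G k X - T c w G k Y) - B * A c w X Y) := by
        refine Finset.sum_le_sum fun k hk => mul_le_mul_of_nonneg_left ?_ (hw k)
        have := hcon k hk
        nlinarith
      rw [← Finset.sum_mul] at h1
      have h2 : (∑ k ∈ Gd, w k) * (4 / 3 * (1 + B) * E - B * E) ≤ R c w X * E := h1.trans hsum
      -- need strictness
      obtain ⟨k0, hk0, hk0pos⟩ : ∃ k ∈ Gd, 0 < w k := by
        by_contra hno
        push Not at hno
        have : ∑ k ∈ Gd, w k ≤ 0 := Finset.sum_nonpos hno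
        linarith
      rcases hE0.eq_or_lt with hE1 | hE1
      · -- `E = 0`
        have h3 : A c w X Y = 0 := by linarith
        have h4 := hterm k0 hk0
        have h5 := hcon k0 hk0
        have h6 : R c w X * l1 (a c w k0 X • T c w G k0 X - a c w k0 Y • T c w G k0 Y) ≤ 0 := by
          have h7 : l1 (a c w k0 X • T c w G k0 X - a c w k0 Y • T c w G k0 Y) ≤
              l1 (G' c w G X - G' c w G Y) := by
            rw [l1_G'_sub]
            exact Finset.single_le_sum
              (f := fun k => l1 (a c w k X • T c w G k X - a c w k Y • T c w G k Y))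
              (fun i _ => l1_nonneg _) (Finset.mem_univ k0)
          have h8 : l1 (G' c w G X - G' c w G Y) ≤ 0 := by linarith
          exact mul_nonpos_of_nonneg_of_nonpos hRX0 (h7.trans h8)
        rw [h3, ← hE1] at *
        rw [mul_zero, sub_zero] at h4
        rw [mul_zero] at h5
        have h9 : 0 < w k0 * l1 (T c w G k0 X - T c w G k0 Y) := mul_pos hk0pos h5
        linarith
      · have h3 : 4 / 3 * (1 + B) * E - B * E = (4 / 3 + B / 3) * E := by ring
        rw [h3] at h2
        have h4 : 3 / 4 * R c w X * ((4 / 3 + B / 3) * E) <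
            (∑ k ∈ Gd, w k) * ((4 / 3 + B / 3) * E) :=
          mul_lt_mul_of_pos_right hGpos (by positivity)
        have h5 : 3 / 4 * R c w X * ((4 / 3 + B / 3) * E) = R c w X * E + R c w X * B * E / 4 := by
          ring
        have h6 : 0 ≤ R c w X * B * E / 4 := by positivity
        linarith
    obtain ⟨-, hs, hN⟩ := Finset.mem_filter.1 hk
    have hcX := card_X1_add c k X
    have hcY := card_X1_add c k Y
    have e1 : (X1 c k X).card = (X1 c k Y).card := by rw [card_X1, card_X1, hN]
    have e0 : (X0 c k X).card = (X0 c k Y).card := by omega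
    have hs1 := hs.1
    have hs2 := hs.2
    rw [← card_X1] at hs1 hs2
    obtain ⟨P1, hP1a, hP1b, hP1c⟩ := hM (X1 c k X) (X1 c k Y) e1 (by omega)
    obtain ⟨P0, hP0a, hP0b, hP0c⟩ := hM (X0 c k X) (X0 c k Y) e0 (by omega)
    refine ⟨P1 + P0, ?_, ?_, ?_⟩
    · rw [Multiset.map_add, hP1a, hP0a, X1_add_X0]
    · rw [Multiset.map_add, hP1b, hP0b, X1_add_X0]
    · rw [cost_add]
      obtain ⟨hA1, hA2⟩ := A_parts c w hw hXY hX hN hs
      rw [l1_T_sub] at hτ
      have hg1 : 0 ≤ l1 (G (X1 c k X) - G (X1 c k Y)) := l1_nonneg _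
      have hg0 : 0 ≤ l1 (G (X0 c k X) - G (X0 c k Y)) := l1_nonneg _
      have hd : 0 ≤ ∑ l, |w l * D c k l X - w l * D c k l Y| :=
        Finset.sum_nonneg fun l _ => abs_nonneg _
      have hAE : A c w X Y ≤ E := by linarith
      have h1 : (A c w (X1 c k X) (X1 c k Y) + l1 (G (X1 c k X) - G (X1 c k Y))) +
          (A c w (X0 c k X) (X0 c k Y) + l1 (G (X0 c k X) - G (X0 c k Y))) ≤
          (6 + 4 * B) * E := by
        have : 0 ≤ B * E := by positivity
        nlinarith
      calc cost c w P1 + cost c w P0 ≤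
          C * ((A c w (X1 c k X) (X1 c k Y) + l1 (G (X1 c k X) - G (X1 c k Y))) +
          (A c w (X0 c k X) (X0 c k Y) + l1 (G (X0 c k X) - G (X0 c k Y)))) := by
            rw [mul_add]; exact add_le_add hP1c hP0c
        _ ≤ C * ((6 + 4 * B) * E) := mul_le_mul_of_nonneg_left h1 hC
        _ ≤ _ := by
          have : 0 ≤ 10 * ((s + 1 : ℕ) : ℝ) * E := by positivity
          nlinarith

end step

/-- The Lipschitz constant `n² (n + 1) / 2`. -/
noncomputable def lipc (n : ℕ) : ℝ := (n : ℝ) ^ 2 * ((n : ℝ) + 1) / 2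

/-- The constant of the lower estimate, `16ⁿ (n!)²`. -/
noncomputable def lowc (n : ℕ) : ℝ := 16 ^ n * (n.factorial : ℝ) ^ 2

theorem lipc_nonneg (n : ℕ) : 0 ≤ lipc n := by unfold lipc; positivity

theorem lowc_pos (n : ℕ) : 0 < lowc n := by unfold lowc; positivity

theorem lipc_succ (s : ℕ) :
    (((s + 1 : ℕ) : ℝ) + lipc s) + 3 * gam (s + 1) ≤ lipc (s + 1) := by
  unfold lipc gam
  push_cast
  have : (0 : ℝ) ≤ s := Nat.cast_nonneg _
  nlinarith

theorem lowc_succ (s : ℕ) :
    10 * ((s + 1 : ℕ) : ℝ) + lowc s * (6 + 4 * gam (s + 1)) ≤ lowc (s + 1) := by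
  have h1 : lowc (s + 1) = lowc s * (16 * ((s : ℝ) + 1) ^ 2) := by
    unfold lowc
    rw [Nat.factorial_succ, pow_succ]
    push_cast
    ring
  have h2 : (1 : ℝ) ≤ lowc s := by
    unfold lowc
    have h3 : (1 : ℝ) ≤ (s.factorial : ℝ) := by exact_mod_cast s.factorial_pos
    have h4 : (1 : ℝ) ≤ 16 ^ s := one_le_pow₀ (by norm_num)
    calc (1 : ℝ) = 1 * 1 ^ 2 := by norm_num
      _ ≤ _ := mul_le_mul h4 (pow_le_pow_left₀ zero_le_one h3 2) (by norm_num) (by positivity)
  rw [h1]
  unfold gam
  push_cast
  have hs : (0 : ℝ) ≤ s := Nat.cast_nonneg _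
  nlinarith [mul_nonneg hs hs, mul_le_mul_of_nonneg_right h2 hs,
    mul_le_mul_of_nonneg_right h2 (mul_nonneg hs hs)]

/-- **Core theorem**, with explicit constants. -/
theorem exists_good' (s : ℕ) : ∀ (M K : Type) (_ : Fintype K)
    (c : K → M → Bool) (w : K → ℝ), (∀ k, 0 ≤ w k) →
    ∃ (ι : Type) (_ : Fintype ι) (G : Multiset M → ι → ℝ),
      (∀ X : Multiset M, X.card ≤ s → l1 (G X) ≤ gam X.card * R c w X) ∧
      (∀ P : Multiset (M × M), P.card ≤ s →
        l1 (G (P.map Prod.fst) - G (P.map Prod.snd)) ≤ lipc s * cost c w P) ∧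
      (∀ X Y : Multiset M, X.card = Y.card → X.card ≤ s →
        ∃ P : Multiset (M × M), P.map Prod.fst = X ∧ P.map Prod.snd = Y ∧
          cost c w P ≤ lowc s * (A c w X Y + l1 (G X - G Y))) := by
  induction s with
  | zero =>
    intro M K _ c w hw
    refine ⟨Unit, inferInstance, fun _ => 0, ?_, ?_, ?_⟩
    · intro X _
      rw [l1_zero]
      exact mul_nonneg (gam_nonneg _) (R_nonneg c w hw X)
    · intro P _
      rw [sub_self, l1_zero]
      exact mul_nonneg (lipc_nonneg _) (cost_nonneg c w hw P)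
    · intro X Y hXY hX
      have hX0 : X = 0 := Multiset.card_eq_zero.1 (by omega)
      have hY0 : Y = 0 := Multiset.card_eq_zero.1 (by omega)
      refine ⟨0, ?_, ?_, ?_⟩
      · rw [hX0]; rfl
      · rw [hY0]; rfl
      · have h1 : cost c w (0 : Multiset (M × M)) = 0 := by simp [cost]
        rw [h1]
        exact mul_nonneg (lowc_pos _).le (add_nonneg (A_nonneg c w hw _ _) (l1_nonneg _))
  | succ s ih =>
    intro M K _ c w hw
    obtain ⟨ι, _, G, h1, h2, h3⟩ := ih M K inferInstance c w hw
    refine ⟨K × (K ⊕ (ι ⊕ ι)), inferInstance, G' c w G, ?_, ?_, ?_⟩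
    · intro X hX
      exact G'_size' c w G hw h1 hX
    · intro P hP
      exact (G'_lip' c w G hw (lipc_nonneg s) h1 h2 hP).trans
        (mul_le_mul_of_nonneg_right (lipc_succ s) (cost_nonneg c w hw P))
    · intro X Y hXY hX
      obtain ⟨P, hP1, hP2, hP3⟩ := G'_lower' c w G hw (lowc_pos s).le h1 h3 hXY hX
      exact ⟨P, hP1, hP2, hP3.trans (mul_le_mul_of_nonneg_right (lowc_succ s)
        (add_nonneg (A_nonneg c w hw _ _) (l1_nonneg _)))⟩

section emb

open MeasureTheory Pool.Agent.H799R2.Wass Pool.Agent.H799R2.Emb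

/-- The main embedding theorem for uniform `s`-point measures over a ground metric with a cut
representation up to bounded factors. -/
theorem main' (s : ℕ) : ∀ (M K : Type) (_ : Fintype M) (_ : DecidableEq M)
    (_ : Fintype K) (c : K → M → Bool) (w : K → ℝ), (∀ k, 0 ≤ w k) → 0 < s →
    ∀ (ρ : M → M → ℝ) (α β : ℝ), 0 < α → 0 < β →
    (∀ x y, 0 ≤ ρ x y) → (∀ x y, α * ρ x y ≤ rho c w x y) → (∀ x y, rho c w x y ≤ β * ρ x y) →
    Embeds (Y := {S : Finset M // S.card = s})
      (fun S T => W1 ρ (unif S.1) (unif T.1)) ((1 + lipc s) * lowc s * (β / α)) := by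
  intro M K _ _ _ c w hw hs ρ α β hα hβ hρ hα' hβ'
  have hmain := exists_good' s
  set C := 1 + lipc s with hC
  set C3 := lowc s with hC3
  have hC1 : 1 ≤ C := by have := lipc_nonneg s; linarith
  have hC30 : 0 < C3 := lowc_pos s
  have hs' : (0 : ℝ) < s := by exact_mod_cast hs
  obtain ⟨ι, _, G, -, hL, hM⟩ := hmain M K inferInstance c w hw
  let F : {S : Finset M // S.card = s} → K ⊕ ι → ℝ := fun S =>
    Sum.elim (fun k => w k * N c k S.1.val) (G S.1.val)
  have hF : ∀ S T, l1 (F S - F T) = A c w S.1.val T.1.val + l1 (G S.1.val - G T.1.val) := by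
    intro S T
    rw [l1_sumType]
    congr 1
    unfold l1 A
    refine Finset.sum_congr rfl fun k _ => ?_
    simp only [F, Pi.sub_apply, Sum.elim_inl]
    rw [← mul_sub, abs_mul, abs_of_nonneg (hw k)]
  have hcostα : ∀ P : Multiset (M × M), α * (P.map fun p => ρ p.1 p.2).sum ≤ cost c w P := by
    intro P
    induction P using Multiset.induction_on with
    | empty => simp [cost]
    | cons p P ih =>
      unfold cost at ih ⊢
      rw [Multiset.map_cons, Multiset.sum_cons, Multiset.map_cons, Multiset.sum_cons, mul_add]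
      exact add_le_add (hα' _ _) ih
  have hcostβ : ∀ P : Multiset (M × M), cost c w P ≤ β * (P.map fun p => ρ p.1 p.2).sum := by
    intro P
    induction P using Multiset.induction_on with
    | empty => simp [cost]
    | cons p P ih =>
      unfold cost at ih ⊢
      rw [Multiset.map_cons, Multiset.sum_cons, Multiset.map_cons, Multiset.sum_cons, mul_add]
      exact add_le_add (hβ' _ _) ih
  have hWnn : ∀ S T : {S : Finset M // S.card = s}, 0 ≤ W1 ρ (unif S.1) (unif T.1) := by
    intro S T
    have h1 := le_W1 (ρ := ρ) hs S.2 T.2 (b := 0) (fun P _ _ => by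
      refine Multiset.sum_nonneg fun x hx => ?_
      obtain ⟨p, -, rfl⟩ := Multiset.mem_map.1 hx
      exact hρ _ _)
    exact nonneg_of_mul_nonneg_right h1 hs'
  refine embeds_of_l1 (r := α * s / C3) (by positivity) hWnn (by positivity) F fun S T => ?_
  rw [hF]
  have hcS : S.1.val.card = s := S.2
  have hcT : T.1.val.card = s := T.2
  have hAnn := A_nonneg c w hw S.1.val T.1.val
  have hlnn : 0 ≤ l1 (G S.1.val - G T.1.val) := l1_nonneg _
  constructor
  · obtain ⟨P, hP1, hP2, hP3⟩ := hM S.1.val T.1.val (by rw [hcS, hcT]) hcS.le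
    have h1 := W1_le hρ hs S.2 T.2 hP1 hP2
    have h2 := hcostα P
    have h4 : α * (s * W1 ρ (unif S.1) (unif T.1)) ≤
        C3 * (A c w S.1.val T.1.val + l1 (G S.1.val - G T.1.val)) :=
      (mul_le_mul_of_nonneg_left h1 hα.le).trans (h2.trans hP3)
    have h5 : α * s / C3 * W1 ρ (unif S.1) (unif T.1) =
        α * (s * W1 ρ (unif S.1) (unif T.1)) / C3 := by ring
    rw [h5, div_le_iff₀ (by positivity), mul_comm]
    linarith
  · have h1 : (A c w S.1.val T.1.val + l1 (G S.1.val - G T.1.val)) / (C * β) ≤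
        s * W1 ρ (unif S.1) (unif T.1) := by
      refine le_W1 hs S.2 T.2 fun P hP1 hP2 => ?_
      rw [div_le_iff₀ (by positivity)]
      have hcP : P.card = s := by rw [← hcS, ← hP1, Multiset.card_map]
      have h2 := A_le_cost c w hw P
      have h3 := hL P hcP.le
      rw [hP1, hP2] at h2 h3
      have h4 := hcostβ P
      calc A c w S.1.val T.1.val + l1 (G S.1.val - G T.1.val) ≤ C * cost c w P := by
            rw [hC]; linarith
        _ ≤ C * (β * (P.map fun p => ρ p.1 p.2).sum) :=
            mul_le_mul_of_nonneg_left h4 (by positivity)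
        _ = _ := by ring
    rw [div_le_iff₀ (by positivity)] at h1
    have h5 : C * C3 * (β / α) * (α * s / C3) * W1 ρ (unif S.1) (unif T.1) =
        s * W1 ρ (unif S.1) (unif T.1) * (C * β) := by field_simp
    rw [h5]
    exact h1

end emb

section grid

open Pool.Agent.H799R2.Wass Pool.Agent.H799R2.Emb Pool.Agent.H799R2.Grid

theorem final' (s Δ d : ℕ) (hs : 0 < s) :
    Embeds (Y := {S : Finset (Fin d → Fin Δ) // S.card = s})
      (fun S T => W1 dist1 (unif S.1) (unif T.1)) ((1 + lipc s) * lowc s * (1 / (4 / 9))) ∧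
    Embeds (Y := {S : Finset (Fin d → Fin Δ) // S.card = s})
      (fun S T => W1 dist2 (unif S.1) (unif T.1)) ((1 + lipc s) * lowc s * (1 / (4 / 9))) := by
  refine ⟨?_, ?_⟩
  · -- for `ℓ₁` the factors are weaker than needed
    refine main' s (Fin d → Fin Δ) (Fin d × Fin Δ) inferInstance inferInstance inferInstance
      c1 (fun _ => 1) (fun _ => zero_le_one) hs dist1 (4 / 9) 1 (by norm_num) (by norm_num)
      dist1_nonneg ?_ ?_
    · intro x y; rw [rho1]; have := dist1_nonneg x y; linarith
    · intro x y; rw [rho1, one_mul]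
  · refine main' s (Fin d → Fin Δ) ((Fin d → Bool) × Fin (d * (2 * Δ))) inferInstance inferInstance
      inferInstance c2 (fun _ => 1 / 2 ^ d) (fun _ => by positivity) hs dist2 (4 / 9) 1
      (by norm_num) (by norm_num) dist2_nonneg ?_ ?_
    · intro x y; rw [rho2]; exact (khintchine _).1
    · intro x y; rw [rho2, one_mul]; exact (khintchine _).2

theorem const_le (s : ℕ) (hs : 0 < s) :
    (1 + lipc s) * lowc s * (1 / (4 / 9)) ≤ 5 * (s : ℝ) ^ 3 * 16 ^ s * (s.factorial : ℝ) ^ 2 := by
  have h1 : (1 : ℝ) ≤ s := by exact_mod_cast hs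
  have h2 : 1 + lipc s ≤ 2 * (s : ℝ) ^ 3 := by
    unfold lipc
    nlinarith [mul_nonneg (sub_nonneg.2 h1) (sub_nonneg.2 h1),
      mul_nonneg (mul_nonneg (sub_nonneg.2 h1) (sub_nonneg.2 h1)) (sub_nonneg.2 h1)]
  have h3 := lowc_pos s
  have h4 : (1 + lipc s) * lowc s ≤ 2 * (s : ℝ) ^ 3 * lowc s :=
    mul_le_mul_of_nonneg_right h2 h3.le
  have h5 : 5 * (s : ℝ) ^ 3 * 16 ^ s * (s.factorial : ℝ) ^ 2 = 5 * ((s : ℝ) ^ 3 * lowc s) := by
    unfold lowc; ring
  have h6 : 0 ≤ (s : ℝ) ^ 3 * lowc s := by positivity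
  rw [h5]
  nlinarith

end grid

end Pool.Agent.Y486.L1Exp
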