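import Pool.Agent.Y486.LNorm3
import Pool.Agent.TH997.J262

/-!
# The change of variables
-/

set_option autoImplicit false

open scoped Manifold ContDiff Topology ComplexConjugate Matrix
open MeasureTheory Set Filter

namespace Pool.Agent.Y486

open Pool.Agent.W549.CY (Cn dz dzbar chernRicci chernScalar)
open Pool.Agent.TH598.KG (hf)
open Pool.Agent.TH997.CMan
open Complex (normSq)

theorem det_JJ (Ψ : Cn 2 → Cn 2) (w : Cn 2) :
    (JJ Ψ w).det = LinearMap.det (fderiv ℂ Ψ w : Cn 2 →ₗ[ℂ] Cn 2) := by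
  rw [← LinearMap.det_toMatrix', ← Matrix.det_transpose]
  congr 1

theorem cov {Ψ : Cn 2 → Cn 2} (hΨ : ContDiff ℂ ∞ Ψ) {δ : ℝ}
    (hinj : InjOn Ψ (Metric.ball 0 δ)) (g : Cn 2 → ℝ) :
    ∫ p in Ψ '' Metric.ball 0 δ, g p =
      ∫ w in Metric.ball (0 : Cn 2) δ, normSq (JJ Ψ w).det * g (Ψ w) := by
  have hd : ∀ w, HasFDerivAt Ψ (fderiv ℂ Ψ w) w := fun w =>
    ((hΨ.of_le two_le_inf).contDiffAt.differentiableAt (by simp)).hasFDerivAt
  have h := integral_image_eq_integral_abs_det_fderiv_smul volume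
    (measurableSet_ball (x := (0 : Cn 2)) (ε := δ))
    (f := Ψ) (f' := fun w => (fderiv ℂ Ψ w).restrictScalars ℝ)
    (fun w _ => ((hd w).restrictScalars ℝ).hasFDerivWithinAt) hinj g
  rw [h]
  refine setIntegral_congr_fun measurableSet_ball fun w _ => ?_
  show |((fderiv ℂ Ψ w).restrictScalars ℝ : Cn 2 →L[ℝ] Cn 2).det| • g (Ψ w) = _
  rw [Pool.Agent.TH997.KGO.det_restrict, det_JJ, abs_of_nonneg (Complex.normSq_nonneg _), smul_eq_mul]

theorem Th_diff {T : Fin 2 → Fin 2 → Fin 2 → ℂ} {B δ : ℝ} (hB : 0 ≤ B)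
    (hT : ∀ a b c, ‖T a b c‖ ≤ B) {w w' : Cn 2} (hw : ‖w‖ ≤ δ) (hw' : ‖w'‖ ≤ δ) :
    ‖(Th T w - w) - (Th T w' - w')‖ ≤ 4 * B * δ * ‖w - w'‖ := by
  have hδ : 0 ≤ δ := (norm_nonneg w).trans hw
  refine (pi_norm_le_iff_of_nonneg (by positivity)).2 fun c => ?_
  have n0 : ‖w 0 - w' 0‖ ≤ ‖w - w'‖ := norm_le_pi_norm (w - w') 0
  have n1 : ‖w 1 - w' 1‖ ≤ ‖w - w'‖ := norm_le_pi_norm (w - w') 1
  have m : ∀ i, ‖w i‖ ≤ δ := fun i => (norm_le_pi_norm w i).trans hw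
  have m' : ∀ i, ‖w' i‖ ≤ δ := fun i => (norm_le_pi_norm w' i).trans hw'
  set N := ‖w - w'‖ with hN
  have hN0 : 0 ≤ N := norm_nonneg _
  have e : ((Th T w - w) - (Th T w' - w')) c = -(1 / 2) * (T 0 0 c * ((w 0 - w' 0) * (w 0 + w' 0)) +
      2 * T 0 1 c * ((w 0 - w' 0) * w 1 + w' 0 * (w 1 - w' 1)) +
      T 1 1 c * ((w 1 - w' 1) * (w 1 + w' 1))) := by
    show (hol3 0 (Pi.single c 1) (fun a b => -T a b c) 0 w - w c) -
      (hol3 0 (Pi.single c 1) (fun a b => -T a b c) 0 w' - w' c) = _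
    unfold hol3
    rcases (show c = 0 ∨ c = 1 by fin_cases c <;> simp) with rfl | rfl <;> simp <;> ring
  rw [e]
  have a1 : ‖T 0 0 c * ((w 0 - w' 0) * (w 0 + w' 0))‖ ≤ B * (N * (δ + δ)) := by
    rw [norm_mul, norm_mul]
    exact mul_le_mul (hT _ _ _) (mul_le_mul n0 ((norm_add_le _ _).trans (add_le_add (m 0) (m' 0)))
      (norm_nonneg _) hN0) (by positivity) hB
  have a3 : ‖T 1 1 c * ((w 1 - w' 1) * (w 1 + w' 1))‖ ≤ B * (N * (δ + δ)) := by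
    rw [norm_mul, norm_mul]
    exact mul_le_mul (hT _ _ _) (mul_le_mul n1 ((norm_add_le _ _).trans (add_le_add (m 1) (m' 1)))
      (norm_nonneg _) hN0) (by positivity) hB
  have a2 : ‖2 * T 0 1 c * ((w 0 - w' 0) * w 1 + w' 0 * (w 1 - w' 1))‖ ≤
      2 * B * (N * δ + δ * N) := by
    rw [norm_mul, norm_mul, Complex.norm_ofNat]
    refine mul_le_mul (mul_le_mul_of_nonneg_left (hT _ _ _) (by norm_num)) ?_ (norm_nonneg _)
      (by positivity)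
    refine (norm_add_le _ _).trans ?_
    rw [norm_mul, norm_mul]
    exact add_le_add (mul_le_mul n0 (m 1) (norm_nonneg _) hN0)
      (mul_le_mul (m' 0) n1 (norm_nonneg _) hδ)
  rw [norm_mul]
  have h12 : ‖(-(1 / 2) : ℂ)‖ = 1 / 2 := by norm_num
  rw [h12]
  have h3 := (norm_add₃_le (a := T 0 0 c * ((w 0 - w' 0) * (w 0 + w' 0)))
    (b := 2 * T 0 1 c * ((w 0 - w' 0) * w 1 + w' 0 * (w 1 - w' 1)))
    (c := T 1 1 c * ((w 1 - w' 1) * (w 1 + w' 1))))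
  nlinarith

theorem injOn_Th {T : Fin 2 → Fin 2 → Fin 2 → ℂ} {B δ : ℝ} (hB : 0 ≤ B)
    (hT : ∀ a b c, ‖T a b c‖ ≤ B) (hs : 4 * B * δ < 1) : InjOn (Th T) (Metric.ball 0 δ) := by
  intro w hw w' hw' h
  have hw := (mem_ball_zero_iff.1 hw).le
  have hw' := (mem_ball_zero_iff.1 hw').le
  have h1 := Th_diff hB hT hw hw'
  rw [h] at h1
  have e : (Th T w' - w) - (Th T w' - w') = -(w - w') := by abel
  rw [e, norm_neg] at h1
  have h2 : ‖w - w'‖ ≤ 0 := by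
    by_contra hc
    have hc' : 0 < ‖w - w'‖ := not_le.1 hc
    nlinarith
  exact sub_eq_zero.1 (norm_le_zero_iff.1 h2)

theorem norm_Th {T : Fin 2 → Fin 2 → Fin 2 → ℂ} {B δ : ℝ} (hB : 0 ≤ B)
    (hT : ∀ a b c, ‖T a b c‖ ≤ B) (hs : 4 * B * δ ≤ 1) {w : Cn 2} (hw : ‖w‖ ≤ δ) :
    ‖Th T w‖ ≤ 2 * ‖w‖ := by
  have hδ : 0 ≤ δ := (norm_nonneg w).trans hw
  have h1 := Th_diff (w' := 0) hB hT hw (by simpa using hδ)
  rw [Th_zero, sub_zero, sub_zero, sub_zero] at h1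
  have h2 : ‖Th T w‖ ≤ ‖Th T w - w‖ + ‖w‖ := by
    have := norm_add_le (Th T w - w) w
    rwa [sub_add_cancel] at this
  nlinarith [norm_nonneg w]

theorem af_sub {l : Pm} {R : ℝ} (hR : ∀ j, ‖l.2 j‖ ≤ R) (u : Cn 2) :
    ‖af l u - l.1‖ ≤ 2 * R * ‖u‖ := by
  have e : af l u - l.1 = u 0 • l.2 0 + u 1 • l.2 1 := by
    unfold af
    abel
  rw [e]
  refine (norm_add_le _ _).trans ?_
  rw [norm_smul, norm_smul]
  have h0 := mul_le_mul (norm_le_pi_norm u 0) (hR 0) (norm_nonneg _) (norm_nonneg u)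
  have h1 := mul_le_mul (norm_le_pi_norm u 1) (hR 1) (norm_nonneg _) (norm_nonneg u)
  linarith

theorem inj_af {l : Pm} (h : (Matrix.of l.2).det ≠ 0) : Function.Injective (af l) := by
  intro u u' he
  have h1 : (u - u') ᵥ* Matrix.of l.2 = 0 := by
    funext c
    have h2 := congrFun he c
    have h3 : l.1 c + (u 0 * l.2 0 c + u 1 * l.2 1 c) = l.1 c + (u' 0 * l.2 0 c + u' 1 * l.2 1 c) := h2
    show ∑ j, (u - u') j * l.2 j c = 0
    rw [Fin.sum_univ_two, Pi.sub_apply, Pi.sub_apply]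
    linear_combination h3
  exact sub_eq_zero.1 (Matrix.eq_zero_of_vecMul_eq_zero h h1)

section pt

variable {P : Cn 2 → ℝ} {l : Pm} {B R δ r' : ℝ}

theorem Ps_mem (hB : 0 ≤ B) (hT : ∀ a b c, ‖T3 P l a b c‖ ≤ B) (hR : ∀ j, ‖l.2 j‖ ≤ R)
    (h1 : 8 * B * δ ≤ 1) (h2 : 8 * R * δ < r') {w : Cn 2} (hw : ‖w‖ < 2 * δ) :
    Ps P l w ∈ Metric.ball l.1 r' := by
  have hR0 : 0 ≤ R := (norm_nonneg _).trans (hR 0)
  have k1 := norm_Th (δ := 2 * δ) hB hT (by linarith) hw.le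
  have k2 := af_sub hR (Th (T3 P l) w)
  rw [Metric.mem_ball, dist_eq_norm]
  have k3 : 2 * R * ‖Th (T3 P l) w‖ ≤ 2 * R * (2 * ‖w‖) :=
    mul_le_mul_of_nonneg_left k1 (by positivity)
  have k4 : 4 * R * ‖w‖ ≤ 4 * R * (2 * δ) := mul_le_mul_of_nonneg_left hw.le (by positivity)
  show ‖af l (Th (T3 P l) w) - l.1‖ < r'
  linarith

theorem Ps_inj (hB : 0 ≤ B) (hT : ∀ a b c, ‖T3 P l a b c‖ ≤ B) (hON : ONf P l)
    (h1 : 8 * B * δ ≤ 1) : InjOn (Ps P l) (Metric.ball 0 δ) := by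
  intro w hw w' hw' h
  have h3 : 4 * B * δ < 1 := by
    by_cases h0 : B * δ ≤ 0
    · nlinarith
    · nlinarith
  exact injOn_Th hB hT h3 hw hw' (inj_af hON.det_ne h)

/-- the local section -/
noncomputable def fs (P : Cn 2 → ℝ) (l : Pm) (k : ℝ) (F : Cn 2 → ℂ) (w : Cn 2) : ℂ :=
  F (Ps P l w) * Complex.exp (-(k * hH (fun w => Ph P (l, w)) w))

theorem hol_fs (hB : 0 ≤ B) (hT : ∀ a b c, ‖T3 P l a b c‖ ≤ B) (hR : ∀ j, ‖l.2 j‖ ≤ R)
    (h1 : 8 * B * δ ≤ 1) (h2 : 8 * R * δ < r') {F : Cn 2 → ℂ}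
    (hF : DifferentiableOn ℂ F (Metric.ball l.1 r')) (k : ℝ) :
    DifferentiableOn ℂ (fs P l k F) (Metric.ball 0 (2 * δ)) := by
  intro w hw
  have hm := Ps_mem hB hT hR h1 h2 (mem_ball_zero_iff.1 hw)
  have e1 : DifferentiableAt ℂ F (Ps P l w) := hF.differentiableAt (Metric.isOpen_ball.mem_nhds hm)
  have e2 : DifferentiableAt ℂ (Ps P l) w :=
    ((cdC_Ps l).of_le two_le_inf).contDiffAt.differentiableAt (by simp)
  have e3 : DifferentiableAt ℂ (hH fun w => Ph P (l, w)) w := holDiff_hol3 _ _ _ _ w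
  exact ((e1.comp w e2).mul ((e3.const_mul (k : ℂ)).neg.cexp)).differentiableWithinAt

theorem hH_zero : hH (fun w => Ph P (l, w)) 0 = ((P l.1 : ℝ) : ℂ) / 2 := by
  unfold hH
  rw [hol3_zero]
  show ((P (Ps P l 0) : ℝ) : ℂ) / 2 = _
  rw [Ps_zero]

theorem dz_hH (hP : ContDiff ℝ ∞ P) (j : Fin 2) : dz j (hH fun w => Ph P (l, w)) 0 =
    ∑ a, dz a (fun q => ((P q : ℝ) : ℂ)) l.1 * l.2 j a := by
  have h1 : dz j (hH fun w => Ph P (l, w)) 0 = dz j (fun w => Ph P (l, w)) 0 := by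
    rw [← Wd_false]
    unfold hH
    rw [(Wd_hol (hasFDerivAt_hol3 _ _ _ _ 0) j).1]
    rcases (show j = 0 ∨ j = 1 by fin_cases j <;> simp) with rfl | rfl <;> simp [Wd_false]
  rw [h1]
  have h2 : (fun w => Ph P (l, w)) = fun w => (fun q => ((P q : ℝ) : ℂ)) (Ps P l w) := rfl
  have hPC : ContDiff ℝ ∞ fun q => ((P q : ℝ) : ℂ) := Complex.ofRealCLM.contDiff.comp hP
  rw [h2, dz_comp (smooth_diff hPC _)
    (((cdC_Ps l).of_le two_le_inf).contDiffAt.differentiableAt (by simp)), Ps_zero]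
  simp only [fderiv_Ps hP]

theorem dz_fsec (hP : ContDiff ℝ ∞ P) {F : Cn 2 → ℂ} (hF : DifferentiableAt ℂ F l.1) (k : ℝ)
    (j : Fin 2) : dz j (fs P l k F) 0 = Complex.exp (-(k * (((P l.1 : ℝ) : ℂ) / 2))) *
      ∑ a, l.2 j a * (dz a F l.1 - k * dz a (fun q => ((P q : ℝ) : ℂ)) l.1 * F l.1) := by
  have e2 : DifferentiableAt ℂ (Ps P l) 0 :=
    ((cdC_Ps l).of_le two_le_inf).contDiffAt.differentiableAt (by simp)
  have e3 : DifferentiableAt ℂ (hH fun w => Ph P (l, w)) 0 := holDiff_hol3 _ _ _ _ 0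
  have hF0 : DifferentiableAt ℂ F (Ps P l 0) := by rw [Ps_zero]; exact hF
  have d1 : DifferentiableAt ℝ (fun w => F (Ps P l w)) 0 := (hF0.comp 0 e2).restrictScalars ℝ
  have hE : HasFDerivAt (fun w => Complex.exp (-(k * hH (fun w => Ph P (l, w)) w)))
      (Complex.exp (-(k * hH (fun w => Ph P (l, w)) 0)) •
        (-((k : ℂ) • fderiv ℂ (hH fun w => Ph P (l, w)) 0))) 0 :=
    (e3.hasFDerivAt.const_mul (k : ℂ)).neg.cexp
  have d2 : DifferentiableAt ℝ (fun w => Complex.exp (-(k * hH (fun w => Ph P (l, w)) w))) 0 :=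
    hE.differentiableAt.restrictScalars ℝ
  have e5 : dz j (hH fun w => Ph P (l, w)) 0 =
      fderiv ℂ (hH fun w => Ph P (l, w)) 0 (Pi.single j 1) := by
    rw [← Wd_false]
    exact (Wd_hol e3.hasFDerivAt j).1
  have e6 : dz j (fun w => Complex.exp (-(k * hH (fun w => Ph P (l, w)) w))) 0 =
      Complex.exp (-(k * hH (fun w => Ph P (l, w)) 0)) *
        (-(k * dz j (hH fun w => Ph P (l, w)) 0)) := by
    rw [e5, ← Wd_false, (Wd_hol hE j).1]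
    rfl
  have e7 : dz j (fs P l k F) 0 = dz j (fun w => F (Ps P l w)) 0 *
      Complex.exp (-(k * hH (fun w => Ph P (l, w)) 0)) + F (Ps P l 0) *
      dz j (fun w => Complex.exp (-(k * hH (fun w => Ph P (l, w)) w))) 0 := dz_mul d1 d2 j
  rw [e7, e6, dz_hH hP, hH_zero, dz_comp (hF0.restrictScalars ℝ) e2, Ps_zero]
  simp only [fderiv_Ps hP, Fin.sum_univ_two]
  ring

theorem normSq_exp (z : ℂ) : normSq (Complex.exp z) = Real.exp (2 * z.re) := by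
  rw [Complex.normSq_eq_norm_sq, Complex.norm_exp, ← Real.exp_nat_mul]
  norm_num

/-- the integrand -/
noncomputable def Hk (P : Cn 2 → ℝ) (k : ℝ) (F : Cn 2 → ℂ) (p : Cn 2) : ℝ :=
  normSq (F p) * Real.exp (-(k * P p)) * (LL P p).det.re

theorem int_fs (hP : ContDiff ℝ ∞ P) (hB : 0 ≤ B) (hT : ∀ a b c, ‖T3 P l a b c‖ ≤ B)
    (hON : ONf P l) (h1 : 8 * B * δ ≤ 1) (hδ : δ ≤ 1) (k : ℝ) (F : Cn 2 → ℂ) :
    ∫ w in Metric.ball (0 : Cn 2) δ, normSq (fs P l k F w) *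
      (Real.exp (-(k * (NN2 w + uN P l w))) * rr (uN P l) w) =
      ∫ p in Ps P l '' Metric.ball 0 δ, Hk P k F p := by
  rw [cov (cdC_Ps l) (Ps_inj hB hT hON h1)]
  refine setIntegral_congr_fun measurableSet_ball fun w hw => ?_
  have hw1 : ‖w‖ < 1 := (mem_ball_zero_iff.1 hw).trans_le hδ
  show normSq (F (Ps P l w) * Complex.exp (-(k * hH (fun w => Ph P (l, w)) w))) *
    (Real.exp (-(k * (NN2 w + uN P l w))) * rr (uN P l) w) = normSq (JJ (Ps P l) w).det *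
    (normSq (F (Ps P l w)) * Real.exp (-(k * P (Ps P l w))) * (LL P (Ps P l w)).det.re)
  rw [rr_uN hP l hw1, pot_re l hw1.le, Complex.normSq_mul, normSq_exp]
  have e : (-((k : ℂ) * hH (fun w => Ph P (l, w)) w)).re = -(k * (hH (fun w => Ph P (l, w)) w).re) := by
    rw [Complex.neg_re, Complex.re_ofReal_mul]
  rw [e]
  have e2 : Real.exp (2 * -(k * (hH (fun w => Ph P (l, w)) w).re)) *
      Real.exp (-(k * (P (Ps P l w) - 2 * (hH (fun w => Ph P (l, w)) w).re))) =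
      Real.exp (-(k * P (Ps P l w))) := by
    rw [← Real.exp_add]
    congr 1
    ring
  rw [← e2]
  ring

/-- the estimate at one point -/
theorem one_pt (hP : ContDiff ℝ ∞ P) (hB : 0 ≤ B) (hT : ∀ a b c, ‖T3 P l a b c‖ ≤ B)
    (hR : ∀ j, ‖l.2 j‖ ≤ R) (hON : ONf P l) (h1 : 8 * B * δ ≤ 1) (h2 : 8 * R * δ < r') (hδ : δ ≤ 1)
    (hr' : 0 < r') (hpos : 0 < (LL P l.1).det.re) {k C : ℝ} {F : Cn 2 → ℂ}
    (hF : DifferentiableOn ℂ F (Metric.ball l.1 r'))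
    (hm : ∀ f : Cn 2 → ℂ, DifferentiableOn ℂ f (Metric.ball 0 (2 * δ)) → ∀ (α : ℂ) (b : Fin 2 → ℂ),
        normSq (α * f 0 + (b 0 * dz 0 f 0 + b 1 * dz 1 f 0)) ≤
          (k / Real.pi) ^ 2 * (1 - (Lp (Lp fun w => (uN P l w : ℂ)) 0).re / (2 * k) + C / (k * √k)) *
            TT k α b * ∫ w in Metric.ball (0 : Cn 2) δ,
              normSq (f w) * (Real.exp (-(k * (NN2 w + uN P l w))) * rr (uN P l) w))
    (α : ℂ) (v : Cn 2) :
    normSq (α * F l.1 + ∑ j, v j * (dz j F l.1 - k * dz j (fun q => ((P q : ℝ) : ℂ)) l.1 * F l.1)) *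
        Real.exp (-(k * P l.1)) ≤
      (k / Real.pi) ^ 2 * (1 + (chernScalar (LL P) l.1).re / (2 * k) + C / (k * √k)) *
        (normSq α + k * (hf (LL P l.1) v).re) *
          ∫ p in Ps P l '' Metric.ball 0 δ, Hk P k F p := by
  set A : M2 := Matrix.of l.2 with hA
  have hAd : A.det ≠ 0 := hON.det_ne
  have hATu : IsUnit (Aᵀ).det := by
    rw [Matrix.det_transpose]
    exact hAd.isUnit
  set b : Cn 2 := (Aᵀ)⁻¹.mulVec v with hb
  have hv : (Aᵀ).mulVec b = v := by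
    rw [hb, Matrix.mulVec_mulVec, Matrix.mul_nonsing_inv _ hATu, Matrix.one_mulVec]
  have hvc : ∀ c, v c = b 0 * l.2 0 c + b 1 * l.2 1 c := by
    intro c
    rw [← hv]
    show ∑ j, (Aᵀ) c j * b j = _
    rw [Fin.sum_univ_two]
    show l.2 0 c * b 0 + l.2 1 c * b 1 = _
    ring
  -- the length of `v`
  have hlen : (hf (LL P l.1) v).re = normSq (b 0) + normSq (b 1) := by
    rw [← hv, Pool.Agent.TH997.KGO.hf_mulVec, Matrix.transpose_transpose]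
    have e : (Aᵀ).map conj = Aᴴ := rfl
    rw [e]
    have e2 : A * LL P l.1 * Aᴴ = 1 := hON
    rw [e2]
    unfold hf
    simp only [Fin.sum_univ_two, Matrix.one_apply_eq,
      Matrix.one_apply_ne (show (0 : Fin 2) ≠ 1 by decide),
      Matrix.one_apply_ne (show (1 : Fin 2) ≠ 0 by decide), one_mul, zero_mul, add_zero, zero_add,
      Complex.mul_conj, Complex.add_re, Complex.ofReal_re]
  have hx : l.1 ∈ Metric.ball l.1 r' := Metric.mem_ball_self hr'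
  have hF0 : DifferentiableAt ℂ F l.1 := hF.differentiableAt (Metric.isOpen_ball.mem_nhds hx)
  have h := hm (fs P l k F) (hol_fs hB hT hR h1 h2 hF k) α b
  rw [int_fs hP hB hT hON h1 hδ] at h
  have hTT : TT k α b = normSq α + k * (hf (LL P l.1) v).re := by
    unfold TT
    rw [hlen]
  rw [hTT] at h
  have hs := scal_uN hP hON hpos
  have hs' : 1 - (Lp (Lp fun w => (uN P l w : ℂ)) 0).re / (2 * k) + C / (k * √k) =
      1 + (chernScalar (LL P) l.1).re / (2 * k) + C / (k * √k) := by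
    rw [hs]
    ring
  rw [hs'] at h
  refine le_trans (le_of_eq ?_) h
  have f0 : fs P l k F 0 = F l.1 * Complex.exp (-(k * (((P l.1 : ℝ) : ℂ) / 2))) := by
    unfold fs
    rw [Ps_zero, hH_zero]
  rw [f0, dz_fsec hP hF0, dz_fsec hP hF0]
  have e1 : α * (F l.1 * Complex.exp (-(k * (((P l.1 : ℝ) : ℂ) / 2)))) +
      (b 0 * (Complex.exp (-(k * (((P l.1 : ℝ) : ℂ) / 2))) *
        ∑ a, l.2 0 a * (dz a F l.1 - k * dz a (fun q => ((P q : ℝ) : ℂ)) l.1 * F l.1)) +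
      b 1 * (Complex.exp (-(k * (((P l.1 : ℝ) : ℂ) / 2))) *
        ∑ a, l.2 1 a * (dz a F l.1 - k * dz a (fun q => ((P q : ℝ) : ℂ)) l.1 * F l.1))) =
      (α * F l.1 + ∑ j, v j * (dz j F l.1 - k * dz j (fun q => ((P q : ℝ) : ℂ)) l.1 * F l.1)) *
        Complex.exp (-(k * (((P l.1 : ℝ) : ℂ) / 2))) := by
    simp only [Fin.sum_univ_two, hvc]
    ring
  rw [e1, Complex.normSq_mul, normSq_exp]
  congr 2
  have e2 : (-((k : ℂ) * (((P l.1 : ℝ) : ℂ) / 2))).re = -(k * (P l.1 / 2)) := by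
    rw [Complex.neg_re, Complex.re_ofReal_mul]
    congr 2
    have : ((P l.1 : ℝ) : ℂ) / 2 = ((P l.1 / 2 : ℝ) : ℂ) := by push_cast; rfl
    rw [this, Complex.ofReal_re]
  rw [e2]
  ring

end pt

end Pool.Agent.Y486
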