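import Pool.Agent.Y486.Dens

/-!
# Stokes' theorem on the quotient
-/

set_option autoImplicit false

open scoped Manifold ContDiff Topology ComplexConjugate MatrixGroups UpperHalfPlane Matrix
open MeasureTheory Set Filter

namespace Pool.Agent.Y486

open Pool.Agent.W549.CY (Cn dz dzbar HermitianMetric chernRicci chernScalar)
open Pool.Agent.W711.KC (jj nn CG CG_far NN_pos jj_ne im_mob jj_mul nn_mul det_eq)
open Pool.Agent.TH598.KG (hf Cutoff d1)
open Pool.Agent.TH997.KG (mob VV mob_mem mob_mul mob_one mob_inv_left mob_inv_right mob_coe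
  hasDerivAt_mob isOpen_VV)
open Pool.Agent.TH997.CMan
open Complex (normSq)

/-! ### Second derivatives -/

theorem D2 {u : Cn 2 → ℂ} {p : Cn 2} (hu : ContDiffAt ℝ 2 u p) (v w : Cn 2) :
    fderiv ℝ (fun q => fderiv ℝ u q w) p v = fderiv ℝ (fderiv ℝ u) p v w := by
  have h1 : DifferentiableAt ℝ (fderiv ℝ u) p :=
    (hu.fderiv_right (m := 1) (by norm_num)).differentiableAt (by simp)
  have h2 := h1.hasFDerivAt.clm_apply (hasFDerivAt_const w p)
  rw [h2.fderiv]
  simp

theorem D2_symm {u : Cn 2 → ℂ} {p : Cn 2} (hu : ContDiffAt ℝ 2 u p) (v w : Cn 2) :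
    fderiv ℝ (fderiv ℝ u) p v w = fderiv ℝ (fderiv ℝ u) p w v :=
  (hu.isSymmSndFDerivAt (by simp)) v w

theorem fderiv_dz {u : Cn 2 → ℂ} {p : Cn 2} (hu : ContDiffAt ℝ 2 u p) (j : Fin 2) (v : Cn 2) :
    fderiv ℝ (dz j u) p v = (1 / 2) * (fderiv ℝ (fderiv ℝ u) p v (Pi.single j 1) -
      Complex.I * fderiv ℝ (fderiv ℝ u) p v (Pi.single j Complex.I)) := by
  have h1 : DifferentiableAt ℝ (fderiv ℝ u) p :=
    (hu.fderiv_right (m := 1) (by norm_num)).differentiableAt (by simp)
  have h2 := fun w : Cn 2 => h1.hasFDerivAt.clm_apply (hasFDerivAt_const w p)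
  have h3 := ((h2 (Pi.single j 1)).sub ((h2 (Pi.single j Complex.I)).const_mul Complex.I)).const_mul
    (1 / 2 : ℂ)
  have h4 : fderiv ℝ (dz j u) p = _ := h3.fderiv
  rw [h4]
  simp

theorem fderiv_dzbar {u : Cn 2 → ℂ} {p : Cn 2} (hu : ContDiffAt ℝ 2 u p) (j : Fin 2) (v : Cn 2) :
    fderiv ℝ (dzbar j u) p v = (1 / 2) * (fderiv ℝ (fderiv ℝ u) p v (Pi.single j 1) +
      Complex.I * fderiv ℝ (fderiv ℝ u) p v (Pi.single j Complex.I)) := by
  have h1 : DifferentiableAt ℝ (fderiv ℝ u) p :=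
    (hu.fderiv_right (m := 1) (by norm_num)).differentiableAt (by simp)
  have h2 := fun w : Cn 2 => h1.hasFDerivAt.clm_apply (hasFDerivAt_const w p)
  have h3 := ((h2 (Pi.single j 1)).add ((h2 (Pi.single j Complex.I)).const_mul Complex.I)).const_mul
    (1 / 2 : ℂ)
  have h4 : fderiv ℝ (dzbar j u) p = _ := h3.fderiv
  rw [h4]
  simp
  ring

theorem dz_dz {u : Cn 2 → ℂ} {p : Cn 2} (hu : ContDiffAt ℝ 2 u p) (j k : Fin 2) :
    dz j (dz k u) p = dz k (dz j u) p := by
  have h : ∀ j k : Fin 2, dz j (dz k u) p = (1 / 2) * (fderiv ℝ (dz k u) p (Pi.single j 1) -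
      Complex.I * fderiv ℝ (dz k u) p (Pi.single j Complex.I)) := fun _ _ => rfl
  rw [h, h, fderiv_dz hu, fderiv_dz hu, fderiv_dz hu, fderiv_dz hu,
    D2_symm hu (Pi.single k 1) (Pi.single j 1), D2_symm hu (Pi.single k Complex.I) (Pi.single j 1),
    D2_symm hu (Pi.single k 1) (Pi.single j Complex.I),
    D2_symm hu (Pi.single k Complex.I) (Pi.single j Complex.I)]
  ring

theorem dz_dzbar {u : Cn 2 → ℂ} {p : Cn 2} (hu : ContDiffAt ℝ 2 u p) (j k : Fin 2) :
    dz j (dzbar k u) p = dzbar k (dz j u) p := by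
  have h : dz j (dzbar k u) p = (1 / 2) * (fderiv ℝ (dzbar k u) p (Pi.single j 1) -
      Complex.I * fderiv ℝ (dzbar k u) p (Pi.single j Complex.I)) := rfl
  have h' : dzbar k (dz j u) p = (1 / 2) * (fderiv ℝ (dz j u) p (Pi.single k 1) +
      Complex.I * fderiv ℝ (dz j u) p (Pi.single k Complex.I)) := rfl
  rw [h, h', fderiv_dz hu, fderiv_dz hu, fderiv_dzbar hu, fderiv_dzbar hu,
    D2_symm hu (Pi.single k 1) (Pi.single j 1), D2_symm hu (Pi.single k Complex.I) (Pi.single j 1),
    D2_symm hu (Pi.single k 1) (Pi.single j Complex.I),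
    D2_symm hu (Pi.single k Complex.I) (Pi.single j Complex.I)]
  ring

/-! ### Integrals of derivatives -/

theorem fderiv_cs {f : Cn 2 → ℂ} (hf : ContDiff ℝ 1 f) (hc : HasCompactSupport f) (v : Cn 2) :
    Continuous (fun x => fderiv ℝ f x v) ∧ HasCompactSupport (fun x => fderiv ℝ f x v) ∧
      ∫ x, fderiv ℝ f x v = 0 := by
  have hcont : Continuous fun x => fderiv ℝ f x v :=
    (hf.continuous_fderiv (by simp)).clm_apply continuous_const
  have hcs : HasCompactSupport fun x => fderiv ℝ f x v := by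
    refine (hc.fderiv (𝕜 := ℝ)).mono' ?_
    intro x hx
    apply subset_closure
    simp only [Function.mem_support, ne_eq] at hx ⊢
    intro h0
    apply hx
    simp [h0]
  refine ⟨hcont, hcs, ?_⟩
  have := integral_mul_fderiv_eq_neg_fderiv_mul_of_integrable (μ := (volume : Measure (Cn 2)))
    (f := fun _ => (1 : ℂ)) (g := f) (v := v) (by simp)
    (by simpa using hcont.integrable_of_hasCompactSupport hcs)
    (by simpa using hf.continuous.integrable_of_hasCompactSupport hc)
    (by intro x _; exact differentiableAt_const _)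
    (by intro x _; exact (hf.differentiable (by simp)).differentiableAt)
  simpa using this

theorem dz_cs {f : Cn 2 → ℂ} (hf : ContDiff ℝ 1 f) (hc : HasCompactSupport f) (j : Fin 2) :
    Integrable (dz j f) ∧ ∫ x, dz j f x = 0 := by
  obtain ⟨h1, h2, h3⟩ := fderiv_cs hf hc (Pi.single j 1)
  obtain ⟨g1, g2, g3⟩ := fderiv_cs hf hc (Pi.single j Complex.I)
  have i1 := h1.integrable_of_hasCompactSupport (μ := volume) h2
  have i2 := g1.integrable_of_hasCompactSupport (μ := volume) g2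
  unfold dz
  refine ⟨(i1.sub (i2.const_mul _)).const_mul _, ?_⟩
  rw [integral_const_mul, integral_sub i1 (i2.const_mul _), integral_const_mul, h3, g3]
  simp

theorem dz_pull {f : ℂ → ℂ} {p : Cn 2} (hf : DifferentiableAt ℝ f (p 0)) (j : Fin 2) :
    dz j (fun q : Cn 2 => f (q 0)) p = if j = 0 then d1 f (p 0) else 0 := by
  have h1 : HasFDerivAt (fun q : Cn 2 => f (q 0))
      ((fderiv ℝ f (p 0)).comp (ContinuousLinearMap.proj (R := ℝ) (φ := fun _ : Fin 2 => ℂ) 0)) p :=
    hf.hasFDerivAt.comp p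
      ((ContinuousLinearMap.proj (R := ℝ) (φ := fun _ : Fin 2 => ℂ) 0).hasFDerivAt)
  unfold dz d1
  rw [h1.fderiv]
  split_ifs with h
  · subst h
    simp
  · simp [Ne.symm h]

/-- the point `(z, u)` -/
def cz (z : ℂ) (u : ℂ) : Cn 2 := ![z, u]

theorem fubini {E : Type} [NormedAddCommGroup E] [NormedSpace ℝ E] (G : Cn 2 → E)
    (hG : Integrable G) :
    ∫ p, G p = ∫ z : ℂ, ∫ u : ℂ, G (cz z u) := by
  have h2 := (volume_preserving_finTwoArrow ℂ).symm
  rw [← h2.integral_comp' G]
  have h3 : Integrable (fun x : ℂ × ℂ => G (MeasurableEquiv.finTwoArrow.symm x)) :=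
    h2.integrable_comp_emb (MeasurableEquiv.measurableEmbedding _) |>.2 hG
  exact integral_prod _ h3

theorem scale {E : Type} [NormedAddCommGroup E] [NormedSpace ℝ E] (c : ℂ) (hc : c ≠ 0)
    (F : ℂ → E) : ∫ u, F u = ∫ u, normSq c • F (c * u) := by
  have h := integral_image_eq_integral_abs_det_fderiv_smul (volume : Measure ℂ)
    MeasurableSet.univ (f := fun u : ℂ => c * u)
    (f' := fun _ => (ContinuousLinearMap.toSpanSingleton ℂ c).restrictScalars ℝ)
    (fun u _ => by
      have h1 : HasFDerivAt (𝕜 := ℂ) (fun u : ℂ => c * u)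
        (ContinuousLinearMap.toSpanSingleton ℂ c) u := by
        have h0 := ((hasDerivAt_id u).const_mul c).hasFDerivAt
        simpa using h0
      exact (h1.restrictScalars ℝ).hasFDerivWithinAt)
    (fun u _ v _ huv => mul_left_cancel₀ hc huv) F
  have h3 : (fun u : ℂ => c * u) '' univ = univ := by
    rw [image_univ]
    exact (Equiv.mulLeft₀ c hc).surjective.range_eq
  rw [h3, Measure.restrict_univ] at h
  rw [h]
  refine integral_congr_ae (Filter.Eventually.of_forall fun u => ?_)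
  simp only [Pool.Agent.TH997.KG.det_mul]
  rw [abs_of_nonneg (Complex.normSq_nonneg _)]

/-- The condition of the support in the fibre. -/
def Small (p : Cn 2) : Prop := normSq (p 1) ≤ 3 * max (p 0).im (1 / (p 0).im)

theorem isClosed_small : ∀ p ∈ UU, ¬ Small p → ∀ᶠ q in 𝓝 p, ¬ Small q := by
  intro p hp h
  have h1 : ContinuousAt (fun q : Cn 2 => 3 * max (q 0).im (1 / (q 0).im)) p := by
    have c0 : ContinuousAt (fun q : Cn 2 => (q 0).im) p :=
      (Complex.continuous_im.comp (continuous_apply 0)).continuousAt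
    have hne : (p 0).im ≠ 0 := (show 0 < (p 0).im from hp).ne'
    exact continuousAt_const.mul (c0.max (continuousAt_const.div c0 hne))
  have h2 : ContinuousAt (fun q : Cn 2 => normSq (q 1)) p :=
    (Complex.continuous_normSq.comp (continuous_apply 1)).continuousAt
  have h3 : (fun q : Cn 2 => 3 * max (q 0).im (1 / (q 0).im)) p < (fun q : Cn 2 => normSq (q 1)) p :=
    not_le.1 h
  filter_upwards [h1.eventually_lt h2 h3] with q hq
  exact not_le.2 hq

theorem ext_smooth {φ : ℂ → ℝ} (hφ : Cutoff CG φ)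
    {V : Cn 2 → ℂ} (hV : ContDiffOn ℝ 1 V UU) (hR : ∀ p ∈ UU, V p ≠ 0 → Small p) :
    ContDiff ℝ 1 (fun p => (φ (p 0) : ℂ) * V p) ∧
      HasCompactSupport (fun p : Cn 2 => (φ (p 0) : ℂ) * V p) := by
  have hφc : ContDiff ℝ 1 (fun p : Cn 2 => (φ (p 0) : ℂ)) := by
    have h1 : ContDiff ℝ 1 φ := hφ.smooth.of_le (by exact_mod_cast le_top)
    exact Complex.ofRealCLM.contDiff.comp (h1.comp (contDiff_apply ℝ ℂ (0 : Fin 2)))
  refine ⟨?_, ?_⟩
  · rw [contDiff_iff_contDiffAt]
    intro p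
    by_cases hp : p 0 ∈ tsupport φ
    · have hpU : p ∈ UU := hφ.supp hp
      exact hφc.contDiffAt.mul (hV.contDiffAt (isOpen_UU.mem_nhds hpU))
    · have h1 := notMem_tsupport_iff_eventuallyEq.1 hp
      have h2 : ∀ᶠ q : Cn 2 in 𝓝 p, φ (q 0) = 0 :=
        (continuous_apply (0 : Fin 2)).continuousAt.eventually h1
      refine (contDiffAt_const (c := (0 : ℂ))).congr_of_eventuallyEq ?_
      filter_upwards [h2] with q hq
      rw [hq]
      simp
  · have h := (cs_aux hφ.smooth.continuous hφ.compact hφ.supp hV.continuousOn hR).2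
    simpa [Complex.real_smul] using h

/-- Stokes' theorem in one chart, with supports which are compact in the fibres. -/
theorem stokes_chart {φ : ℂ → ℝ} (hφ : Cutoff CG φ) (i : Fin 2)
    {V : Fin 2 → Cn 2 → ℂ} (hV : ∀ j, ContDiffOn ℝ 1 (V j) UU)
    (h0 : ∀ g ∈ CG, ∀ p ∈ UU, (normSq (jb g i i p) : ℂ) * V 0 (FF g i i p) =
      conj (jj g (p 0)) ^ 2 * V 0 p)
    (hR : ∀ p ∈ UU, ∀ j, V j p ≠ 0 → Small p) :
    ∫ p in UU, (φ (p 0) : ℂ) * ∑ j, dz j (V j) p = 0 := by
  classical
  haveI := CG_far.properlyDiscontinuous one_pos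
  haveI : Countable CG := CG_far.countable one_pos
  let f : ℂ → ℂ := fun w => (φ w : ℂ)
  have hfs : ContDiff ℝ ∞ f := Complex.ofRealCLM.contDiff.comp hφ.smooth
  have hfd : Differentiable ℝ f := hfs.differentiable (by simp)
  have hUm : MeasurableSet UU := isOpen_UU.measurableSet
  have hd1 : ∀ z, z ∉ tsupport φ → d1 f z = 0 := by
    intro z hz
    have h1 := notMem_tsupport_iff_eventuallyEq.1 hz
    have h2 : f =ᶠ[𝓝 z] fun _ => 0 := by
      filter_upwards [h1] with w hw
      change (φ w : ℂ) = 0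
      rw [hw]
      simp
    unfold d1
    rw [h2.fderiv_eq]
    simp
  have hd1c : Continuous (d1 f) := by
    unfold d1
    have h1 : Continuous (fderiv ℝ f) := hfs.continuous_fderiv (by simp)
    fun_prop
  -- derivatives of the products
  have hW := fun j => ext_smooth hφ (hV j) (fun p hp h => hR p hp j h)
  have hWi := fun j => dz_cs (hW j).1 (hW j).2 j
  have hdW : ∀ j, ∀ p ∈ UU, dz j (fun p => (φ (p 0) : ℂ) * V j p) p =
      (φ (p 0) : ℂ) * dz j (V j) p + V j p * (if j = 0 then d1 f (p 0) else 0) := by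
    intro j p hp
    have h1 : DifferentiableAt ℝ (fun p : Cn 2 => f (p 0)) p :=
      (hfd _).comp p (differentiableAt_apply 0 p)
    have h2 : DifferentiableAt ℝ (V j) p :=
      ((hV j).contDiffAt (isOpen_UU.mem_nhds hp)).differentiableAt (by simp)
    have h3 := dz_mul h1 h2 j
    rw [dz_pull (hfd _)] at h3
    rw [h3]
    ring
  have hdW0 : ∀ j, ∀ p, p ∉ UU → dz j (fun p => (φ (p 0) : ℂ) * V j p) p = 0 := by
    intro j p hp
    have hp' : p 0 ∉ tsupport φ := fun h => hp (hφ.supp h)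
    have h1 := notMem_tsupport_iff_eventuallyEq.1 hp'
    have h2 : ∀ᶠ q : Cn 2 in 𝓝 p, φ (q 0) = 0 :=
      (continuous_apply (0 : Fin 2)).continuousAt.eventually h1
    have h3 : (fun p => (φ (p 0) : ℂ) * V j p) =ᶠ[𝓝 p] fun _ => 0 := by
      filter_upwards [h2] with q hq
      rw [hq]
      simp
    unfold dz
    rw [h3.fderiv_eq]
    simp
  -- the boundary term
  let G : Cn 2 → ℂ := fun p => V 0 p * d1 f (p 0)
  obtain ⟨M, hM⟩ : ∃ M : ℝ, ∀ z ∈ tsupport φ, max z.im (1 / z.im) ≤ M := by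
    have hc : ContinuousOn (fun z : ℂ => max z.im (1 / z.im)) (tsupport φ) := by
      refine ContinuousOn.sup Complex.continuous_im.continuousOn ?_
      exact continuousOn_const.div Complex.continuous_im.continuousOn fun z hz =>
        (hφ.supp hz : 0 < z.im).ne'
    obtain ⟨M, hM⟩ := hφ.compact.isCompact.exists_bound_of_continuousOn hc
    exact ⟨M, fun z hz => (le_abs_self _).trans (hM z hz)⟩
  have hGcs : Continuous G ∧ HasCompactSupport G := by
    refine ⟨?_, ?_⟩
    · rw [continuous_iff_continuousAt]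
      intro p
      by_cases hp : p 0 ∈ tsupport φ
      · have hpU : p ∈ UU := hφ.supp hp
        exact ((hV 0).continuousOn.continuousAt (isOpen_UU.mem_nhds hpU)).mul
          (hd1c.continuousAt.comp (continuous_apply (0 : Fin 2)).continuousAt)
      · have h2 : ∀ᶠ q : Cn 2 in 𝓝 p, q 0 ∉ tsupport φ :=
          (continuous_apply (0 : Fin 2)).continuousAt.eventually
            ((isClosed_tsupport φ).isOpen_compl.mem_nhds hp)
        refine (continuousAt_const (y := (0 : ℂ))).congr ?_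
        filter_upwards [h2] with q hq
        change 0 = V 0 q * d1 f (q 0)
        rw [hd1 _ hq, mul_zero]
    · have hcomp : IsCompact (Set.pi univ (![tsupport φ, Metric.closedBall 0 (3 * M + 1)] :
          Fin 2 → Set ℂ)) := by
        refine isCompact_univ_pi fun k => ?_
        fin_cases k
        · exact hφ.compact.isCompact
        · exact isCompact_closedBall _ _
      refine HasCompactSupport.of_support_subset_isCompact hcomp ?_
      intro p hp
      have h1 : p 0 ∈ tsupport φ := by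
        by_contra h
        apply hp
        change V 0 p * d1 f (p 0) = 0
        rw [hd1 _ h, mul_zero]
      have hpU : p ∈ UU := hφ.supp h1
      have h4 : normSq (p 1) ≤ 3 * max (p 0).im (1 / (p 0).im) :=
        hR p hpU 0 (left_ne_zero_of_mul hp)
      have h5 := hM _ h1
      intro k _
      fin_cases k
      · exact h1
      · show p 1 ∈ Metric.closedBall (0 : ℂ) (3 * M + 1)
        rw [mem_closedBall_zero_iff]
        rw [Complex.normSq_eq_norm_sq] at h4
        nlinarith [norm_nonneg (p 1), sq_nonneg (‖p 1‖ - 1)]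
  have hGi : Integrable G := hGcs.1.integrable_of_hasCompactSupport hGcs.2
  have hG0 : ∀ p, p ∉ UU → G p = 0 := by
    intro p hp
    change V 0 p * d1 f (p 0) = 0
    rw [hd1 _ (fun h => hp (hφ.supp h)), mul_zero]
  -- sum up
  have key : ∫ p in UU, (φ (p 0) : ℂ) * ∑ j, dz j (V j) p = - ∫ p, G p := by
    have h1 : ∫ p, ∑ j, dz j (fun p => (φ (p 0) : ℂ) * V j p) p = 0 := by
      rw [integral_finsetSum _ fun j _ => (hWi j).1]
      exact Finset.sum_eq_zero fun j _ => (hWi j).2
    have h2 : ∫ p in UU, ∑ j, dz j (fun p => (φ (p 0) : ℂ) * V j p) p = 0 := by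
      rw [setIntegral_eq_integral_of_forall_compl_eq_zero, h1]
      intro p hp
      exact Finset.sum_eq_zero fun j _ => hdW0 j p hp
    have h3 : ∫ p in UU, G p = ∫ p, G p :=
      setIntegral_eq_integral_of_forall_compl_eq_zero fun p hp => hG0 p hp
    have h4 : ∫ p in UU, (φ (p 0) : ℂ) * ∑ j, dz j (V j) p =
        ∫ p in UU, (∑ j, dz j (fun p => (φ (p 0) : ℂ) * V j p) p - G p) := by
      refine setIntegral_congr_fun hUm fun p hp => ?_
      change (φ (p 0) : ℂ) * ∑ j, dz j (V j) p =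
        ∑ j, dz j (fun p => (φ (p 0) : ℂ) * V j p) p - V 0 p * d1 f (p 0)
      rw [Finset.sum_congr rfl fun j _ => hdW j p hp, Finset.sum_add_distrib, ← Finset.mul_sum]
      simp
    rw [h4, integral_sub, h2, h3, zero_sub]
    · exact (integrable_finsetSum _ fun j _ => (hWi j).1).integrableOn
    · exact hGi.integrableOn
  rw [key, fubini G hGi, neg_eq_zero]
  let β : ℂ → ℂ := fun z => ∫ u : ℂ, V 0 (cz z u)
  have h5 : ∀ z, ∫ u : ℂ, G (cz z u) = β z * d1 f z := by
    intro z
    change ∫ u : ℂ, V 0 (cz z u) * d1 f z = _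
    rw [integral_mul_const]
  simp only [h5]
  have h6 : ∫ z in {z : ℂ | 0 < z.im}, β z * d1 f z = ∫ z, β z * d1 f z :=
    setIntegral_eq_integral_of_forall_compl_eq_zero fun z hz => by
      rw [hd1 _ (fun h => hz (hφ.supp h)), mul_zero]
  rw [← h6]
  apply Pool.Agent.TH997.KG.base_stokes hφ
  · -- continuity
    intro z hz
    obtain ⟨C, hCn, hCV, hC⟩ := local_compact_nhds (isOpen_VV.mem_nhds hz)
    obtain ⟨M', hM'⟩ : ∃ M : ℝ, ∀ z ∈ C, max z.im (1 / z.im) ≤ M := by
      have hc : ContinuousOn (fun z : ℂ => max z.im (1 / z.im)) C := by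
        refine ContinuousOn.sup Complex.continuous_im.continuousOn ?_
        exact continuousOn_const.div Complex.continuous_im.continuousOn fun z hz =>
          (hCV hz : 0 < z.im).ne'
      obtain ⟨M, hM⟩ := hC.exists_bound_of_continuousOn hc
      exact ⟨M, fun z hz => (le_abs_self _).trans (hM z hz)⟩
    have h8 : ContinuousOn β C := by
      refine continuousOn_integral_of_compact_support (f := fun z u => V 0 (cz z u))
        (isCompact_closedBall (0 : ℂ) (3 * M' + 1)) ?_ ?_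
      · have h9 : Continuous fun x : ℂ × ℂ => cz x.1 x.2 := by
          unfold cz
          refine continuous_pi fun i => ?_
          fin_cases i
          · exact continuous_fst
          · exact continuous_snd
        refine (hV 0).continuousOn.comp h9.continuousOn ?_
        rintro ⟨z, u⟩ ⟨hz, -⟩
        exact hCV hz
      · intro z u hz hu
        have hU : cz z u ∈ UU := hCV hz
        by_contra h
        apply hu
        have h4 : normSq u ≤ 3 * max z.im (1 / z.im) := hR _ hU 0 h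
        have h5 := hM' _ hz
        rw [mem_closedBall_zero_iff]
        rw [Complex.normSq_eq_norm_sq] at h4
        nlinarith [norm_nonneg u, sq_nonneg (‖u‖ - 1)]
    exact (h8.continuousAt hCn).continuousWithinAt
  · -- equivariance
    intro g hg z hz
    have hne : ∀ u, hom g i (cz z u) i ≠ 0 := by
      intro u
      fin_cases i
      · show jj g z * 1 ≠ 0
        rw [mul_one]
        exact jj_ne g hz
      · show (1 : ℂ) ≠ 0
        exact one_ne_zero
    have hjb : ∀ u, jb g i i (cz z u) = jb g i i (cz z 0) := by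
      intro u
      fin_cases i
      · simp [jb, hom, ins, cz]
      · simp [jb, hom, ins, cz]
    have hb0 : jb g i i (cz z 0) ≠ 0 := by
      unfold jb
      have hj : jj g z ≠ 0 := jj_ne g hz
      have : sg i i = 1 := by simp [sg]
      rw [this, one_mul]
      exact div_ne_zero hj (pow_ne_zero 2 (hne 0))
    change ∫ u : ℂ, V 0 (cz (nn g z / jj g z) u) = conj (jj g z) ^ 2 * ∫ u : ℂ, V 0 (cz z u)
    rw [scale (jb g i i (cz z 0)) hb0, ← integral_const_mul]
    refine integral_congr_ae (Filter.Eventually.of_forall fun u => ?_)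
    have h7 : cz (nn g z / jj g z) (jb g i i (cz z 0) * u) = FF g i i (cz z u) := by
      have hj : jj g z ≠ 0 := jj_ne g hz
      funext k
      fin_cases k
      · rfl
      · show jb g i i (cz z 0) * u = outc i (hom g i (cz z u))
        fin_cases i
        · simp [jb, hom, ins, cz, outc, sg]
          field_simp
        · simp [jb, hom, ins, cz, outc, sg]
    show normSq (jb g i i (cz z 0)) • V 0 (cz (nn g z / jj g z) (jb g i i (cz z 0) * u)) =
      conj (jj g z) ^ 2 * V 0 (cz z u)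
    have h8 := h0 g hg (cz z u) hz
    rw [hjb u] at h8
    rw [h7, Complex.real_smul]
    exact h8

/-! ### The three-form -/

/-- the mixed discriminant before taking real parts -/
noncomputable def DC (a b : M2) : ℂ :=
  a 0 0 * b 1 1 + a 1 1 * b 0 0 - a 0 1 * b 1 0 - a 1 0 * b 0 1

theorem DC_re (a b : M2) : (DC a b).re = DD a b := rfl

/-- the components of `f ∂̄h ∧ ∂∂̄P` -/
noncomputable def VF (f h : Cn 2 → ℝ) (P : Cn 2 → ℝ) (j : Fin 2) (p : Cn 2) : ℂ :=
  ![(f p : ℂ) * (dzbar 0 (fun q => ((h q : ℝ) : ℂ)) p * LL P p 1 1 -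
      dzbar 1 (fun q => ((h q : ℝ) : ℂ)) p * LL P p 1 0),
    (f p : ℂ) * (dzbar 1 (fun q => ((h q : ℝ) : ℂ)) p * LL P p 0 0 -
      dzbar 0 (fun q => ((h q : ℝ) : ℂ)) p * LL P p 0 1)] j

theorem cd_VF {f h P : Cn 2 → ℝ} (hf : ContDiffOn ℝ ∞ f UU) (hh : ContDiffOn ℝ ∞ h UU)
    (hP : ContDiffOn ℝ ∞ P UU) (j : Fin 2) : ContDiffOn ℝ ∞ (VF f h P j) UU := by
  have h1 := contDiffOn_coe hf
  have h2 := contDiffOn_dzbar (contDiffOn_coe hh)
  have h3 := contDiffOn_LL hP
  fin_cases j
  · exact h1.mul (((h2 0).mul (h3 1 1)).sub ((h2 1).mul (h3 1 0)))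
  · exact h1.mul (((h2 1).mul (h3 0 0)).sub ((h2 0).mul (h3 0 1)))

theorem dz_sub' {u v : Cn 2 → ℂ} {z : Cn 2} (hu : DifferentiableAt ℝ u z)
    (hv : DifferentiableAt ℝ v z) (j : Fin 2) :
    dz j (fun w => u w - v w) z = dz j u z - dz j v z := by
  unfold dz
  rw [fderiv_fun_sub hu hv]
  simp only [sub_apply]
  ring

theorem dz_fs {f a b c d : Cn 2 → ℂ} {p : Cn 2} (hf : DifferentiableAt ℝ f p)
    (ha : DifferentiableAt ℝ a p) (hb : DifferentiableAt ℝ b p) (hc : DifferentiableAt ℝ c p)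
    (hd : DifferentiableAt ℝ d p) (j : Fin 2) :
    dz j (fun w => f w * (a w * b w - c w * d w)) p = dz j f p * (a p * b p - c p * d p) +
      f p * (dz j a p * b p + a p * dz j b p - (dz j c p * d p + c p * dz j d p)) := by
  have h1 : dz j (fun w => f w * (a w * b w - c w * d w)) p = dz j f p * (a p * b p - c p * d p) +
      f p * dz j (fun w => a w * b w - c w * d w) p := dz_mul hf ((ha.mul hb).sub (hc.mul hd)) j
  have h2 : dz j (fun w => a w * b w - c w * d w) p = dz j (fun w => a w * b w) p -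
      dz j (fun w => c w * d w) p := dz_sub' (ha.mul hb) (hc.mul hd) j
  rw [h1, h2, dz_mul ha hb, dz_mul hc hd]

theorem div_VF {f h P : Cn 2 → ℝ} (hf : ContDiffOn ℝ ∞ f UU) (hh : ContDiffOn ℝ ∞ h UU)
    (hP : ContDiffOn ℝ ∞ P UU) {p : Cn 2} (hp : p ∈ UU) :
    ∑ j, dz j (VF f h P j) p = f p * DC (LL h p) (LL P p) + DC (DM f h p) (LL P p) := by
  have hd : ∀ {u : Cn 2 → ℂ}, ContDiffOn ℝ ∞ u UU → DifferentiableAt ℝ u p := fun hu =>
    (hu.contDiffAt (isOpen_UU.mem_nhds hp)).differentiableAt (by simp)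
  have h1 := hd (contDiffOn_coe hf)
  have h2 := fun k => hd (contDiffOn_dzbar (contDiffOn_coe hh) k)
  have h3 := fun j k => hd (contDiffOn_LL hP j k)
  have hcl : ∀ k, dz 0 (fun q => LL P q 1 k) p = dz 1 (fun q => LL P q 0 k) p := by
    intro k
    have hu : ContDiffAt ℝ 2 (dzbar k fun q => ((P q : ℝ) : ℂ)) p :=
      ((contDiffOn_dzbar (contDiffOn_coe hP) k).contDiffAt (isOpen_UU.mem_nhds hp)).of_le two_le_inf
    exact dz_dz hu 0 1
  rw [Fin.sum_univ_two]
  have e0 : dz 0 (VF f h P 0) p = _ := dz_fs (f := fun p => ((f p : ℝ) : ℂ))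
    (a := dzbar 0 fun q => ((h q : ℝ) : ℂ)) (b := fun p => LL P p 1 1)
    (c := dzbar 1 fun q => ((h q : ℝ) : ℂ)) (d := fun p => LL P p 1 0)
    h1 (h2 0) (h3 1 1) (h2 1) (h3 1 0) 0
  have e1 : dz 1 (VF f h P 1) p = _ := dz_fs (f := fun p => ((f p : ℝ) : ℂ))
    (a := dzbar 1 fun q => ((h q : ℝ) : ℂ)) (b := fun p => LL P p 0 0)
    (c := dzbar 0 fun q => ((h q : ℝ) : ℂ)) (d := fun p => LL P p 0 1)
    h1 (h2 1) (h3 0 0) (h2 0) (h3 0 1) 1
  rw [e0, e1, hcl 0, hcl 1]
  simp only [DC, DM, Matrix.of_apply]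
  have l : ∀ j k, dz j (dzbar k fun q => ((h q : ℝ) : ℂ)) p = LL h p j k := fun _ _ => rfl
  rw [l, l, l, l]
  ring

theorem VF_equi {A C : ℝ} {f h P : Fin 2 → Cn 2 → ℝ} (hf : Wt 0 0 f) (hh : Wt 0 0 h)
    (hP : Wt A C P) (i : Fin 2) {g : SL(2, ℝ)} (hg : g ∈ CG) {p : Cn 2} (hp : p ∈ UU) :
    (normSq (jb g i i p) : ℂ) * VF (f i) (h i) (P i) 0 (FF g i i p) =
      conj (jj g (p 0)) ^ 2 * VF (f i) (h i) (P i) 0 p := by
  have hj : jj g (p 0) ≠ 0 := jj_ne g hp
  have hcj : conj (jj g (p 0)) ≠ 0 := by simpa using hj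
  have hne : hom g i p i ≠ 0 := by
    fin_cases i
    · show jj g (p 0) * 1 ≠ 0
      rwa [mul_one]
    · show (1 : ℂ) ≠ 0
      exact one_ne_zero
  have e1 := hP.LL_eq hg i i hp hne
  obtain ⟨-, -, a2, a3⟩ := pull_apply g i i p (LL (P i) (FF g i i p))
  have b0 := hh.dzbar_eq hg i i hp hne 0
  have b1 := hh.dzbar_eq hg i i hp hne 1
  rw [Fin.sum_univ_two] at b0 b1
  simp only [JF_apply_zero, JF_apply_one] at b0 b1
  have v0 : VF (f i) (h i) (P i) 0 p = (f i p : ℂ) *
      (dzbar 0 (fun q => ((h i q : ℝ) : ℂ)) p * LL (P i) p 1 1 -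
      dzbar 1 (fun q => ((h i q : ℝ) : ℂ)) p * LL (P i) p 1 0) := rfl
  have v1 : VF (f i) (h i) (P i) 0 (FF g i i p) = (f i (FF g i i p) : ℂ) *
      (dzbar 0 (fun q => ((h i q : ℝ) : ℂ)) (FF g i i p) * LL (P i) (FF g i i p) 1 1 -
      dzbar 1 (fun q => ((h i q : ℝ) : ℂ)) (FF g i i p) * LL (P i) (FF g i i p) 1 0) := rfl
  rw [v0, v1, hf.invar hg i i hp hne, b0, b1, e1, a2, a3, ← Complex.mul_conj]
  simp only [Pi.single_eq_same, map_div₀, map_one, map_pow, map_add, map_mul, mul_one, mul_zero,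
    add_zero, zero_add, ne_eq, one_ne_zero, not_false_eq_true, Pi.single_eq_of_ne, map_zero,
    zero_ne_one]
  field_simp
  ring

theorem stokes_one {φ : ℂ → ℝ} (hφ : Cutoff CG φ) {A C : ℝ} {f h P : Fin 2 → Cn 2 → ℝ}
    (hf : Wt 0 0 f) (hh : Wt 0 0 h) (hP : Wt A C P) (i : Fin 2)
    (hs : ∀ p ∈ UU, f i p ≠ 0 → Small p) :
    ∫ p in UU, φ (p 0) * (f i p * DD (LL (h i) p) (LL (P i) p) +
      DD (DM (f i) (h i) p) (LL (P i) p)) = 0 := by
  have h1 := stokes_chart hφ i (V := VF (f i) (h i) (P i))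
    (fun j => (cd_VF (hf.smooth i) (hh.smooth i) (hP.smooth i) j).of_le (by simp))
    (fun g hg p hp => VF_equi hf hh hP i hg hp)
    (fun p hp j hne => hs p hp fun h0 => hne (by
      fin_cases j
      · show (f i p : ℂ) * _ = 0
        rw [h0]
        simp
      · show (f i p : ℂ) * _ = 0
        rw [h0]
        simp))
  have hG : Dn fun i p => f i p * DD (LL (h i) p) (LL (P i) p) +
      DD (DM (f i) (h i) p) (LL (P i) p) :=
    (Dn.fn_mul hf.fn (dn_LL hh hP)).add (dn_DM hf hh hP)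
  -- the complex integrand is integrable
  have hcont : ContinuousOn (fun p => ∑ j, dz j (VF (f i) (h i) (P i) j) p) UU := by
    refine continuousOn_finsetSum _ fun j _ => ?_
    exact (contDiffOn_dz (cd_VF (hf.smooth i) (hh.smooth i) (hP.smooth i) j) j).continuousOn
  have hzero : ∀ p ∈ UU, (∑ j, dz j (VF (f i) (h i) (P i) j) p) ≠ 0 → Small p := by
    intro p hp hne
    by_contra hsm
    apply hne
    refine Finset.sum_eq_zero fun j _ => ?_
    have hev : VF (f i) (h i) (P i) j =ᶠ[𝓝 p] fun _ => 0 := by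
      filter_upwards [isClosed_small p hp hsm, isOpen_UU.mem_nhds hp] with q hq hqU
      have hq0 : f i q = 0 := by
        by_contra hc
        exact hq (hs q hqU hc)
      fin_cases j
      · show (f i q : ℂ) * _ = 0
        rw [hq0]
        simp
      · show (f i q : ℂ) * _ = 0
        rw [hq0]
        simp
    unfold dz
    rw [hev.fderiv_eq]
    simp
  have hcs := cs_aux hφ.smooth.continuous hφ.compact hφ.supp hcont hzero
  have hint : IntegrableOn (fun p : Cn 2 => (φ (p 0) : ℂ) * ∑ j, dz j (VF (f i) (h i) (P i) j) p)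
      UU := by
    have := (hcs.1.integrable_of_hasCompactSupport (μ := volume) hcs.2).integrableOn (s := UU)
    simp only [Complex.real_smul] at this
    exact this
  have h2 := integral_re hint
  rw [h1] at h2
  have h3 : ∫ p in UU, φ (p 0) * (f i p * DD (LL (h i) p) (LL (P i) p) +
      DD (DM (f i) (h i) p) (LL (P i) p)) =
      ∫ p in UU, RCLike.re ((φ (p 0) : ℂ) * ∑ j, dz j (VF (f i) (h i) (P i) j) p) := by
    refine setIntegral_congr_fun measurableSet_UU fun p hp => ?_
    show _ = ((φ (p 0) : ℂ) * ∑ j, dz j (VF (f i) (h i) (P i) j) p).re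
    rw [div_VF (hf.smooth i) (hh.smooth i) (hP.smooth i) hp, Complex.re_ofReal_mul,
      Complex.add_re, Complex.re_ofReal_mul]
    rfl
  rw [h3, h2]
  simp

theorem t_stokes : St_stokes := by
  intro φ hφ f h hf hh A C P hP
  -- split `f`
  have hfk : ∀ k, Wt 0 0 fun i p => tht k i p * f i p := by
    intro k
    refine ⟨fun i => ((wt_tht k).smooth i).mul (hf.smooth i), fun g hg i j p hp h0 => ?_⟩
    rw [(wt_tht k).invar hg i j hp h0, hf.invar hg i j hp h0]
    ring
  have hG : ∀ k, Dn fun i p => (tht k i p * f i p) * DD (LL (h i) p) (LL (P i) p) +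
      DD (DM (fun p => tht k i p * f i p) (h i) p) (LL (P i) p) := fun k =>
    (Dn.fn_mul (hfk k).fn (dn_LL hh hP)).add (dn_DM (hfk k) hh hP)
  have h0 := stokes_one hφ (hfk 0) hh hP 0 (fun p hp h => tht_supp 0 hp (left_ne_zero_of_mul h))
  have h1 := stokes_one hφ (hfk 1) hh hP 1 (fun p hp h => tht_supp 1 hp (left_ne_zero_of_mul h))
  rw [chart_change (hG 1) (show (0 : Fin 2) ≠ 1 by decide)] at h1
  have h2 : ∫ p in UU, φ (p 0) * (f 0 p * DD (LL (h 0) p) (LL (P 0) p) +
      DD (DM (f 0) (h 0) p) (LL (P 0) p)) = 0 := by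
    have hadd := integral_add ((hG 0).integrable hφ 0) ((hG 1).integrable hφ 0)
    rw [h0, h1, add_zero] at hadd
    rw [← hadd]
    refine setIntegral_congr_fun measurableSet_UU fun p hp => ?_
    have hd : ∀ k, DifferentiableAt ℝ (fun q => ((tht k 0 q * f 0 q : ℝ) : ℂ)) p := fun k =>
      ((hfk k).contDiffAtC 0 hp).differentiableAt (by simp)
    have hsum : DM (f 0) (h 0) p = DM (fun p => tht 0 0 p * f 0 p) (h 0) p +
        DM (fun p => tht 1 0 p * f 0 p) (h 0) p := by
      ext a b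
      show dz a (fun q => ((f 0 q : ℝ) : ℂ)) p * dzbar b (fun q => ((h 0 q : ℝ) : ℂ)) p =
        dz a (fun q => ((tht 0 0 q * f 0 q : ℝ) : ℂ)) p * dzbar b (fun q => ((h 0 q : ℝ) : ℂ)) p +
        dz a (fun q => ((tht 1 0 q * f 0 q : ℝ) : ℂ)) p * dzbar b (fun q => ((h 0 q : ℝ) : ℂ)) p
      have e : (fun q => ((f 0 q : ℝ) : ℂ)) = fun q => ((tht 0 0 q * f 0 q : ℝ) : ℂ) +
          ((tht 1 0 q * f 0 q : ℝ) : ℂ) := by
        funext q
        have := tht_add 0 q
        rw [← Complex.ofReal_add, ← add_mul, this, one_mul]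
      rw [e, dz_add (hd 0) (hd 1)]
      ring
    show φ (p 0) * (f 0 p * DD (LL (h 0) p) (LL (P 0) p) + DD (DM (f 0) (h 0) p) (LL (P 0) p)) =
      φ (p 0) * ((tht 0 0 p * f 0 p) * DD (LL (h 0) p) (LL (P 0) p) +
        DD (DM (fun p => tht 0 0 p * f 0 p) (h 0) p) (LL (P 0) p)) +
      φ (p 0) * ((tht 1 0 p * f 0 p) * DD (LL (h 0) p) (LL (P 0) p) +
        DD (DM (fun p => tht 1 0 p * f 0 p) (h 0) p) (LL (P 0) p))
    rw [hsum, DD_add_left]
    have := tht_add 0 p
    linear_combination (-φ (p 0) * f 0 p * DD (LL (h 0) p) (LL (P 0) p)) * this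
  exact h2

end Pool.Agent.Y486
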