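import Pool.Agent.Y486.Stm
import Pool.Agent.Y486.Stokes

/-!
# Functions which are flat at the origin
-/

set_option autoImplicit false

open scoped Manifold ContDiff Topology ComplexConjugate Matrix
open MeasureTheory Set Filter

namespace Pool.Agent.Y486

open Pool.Agent.W549.CY (Cn dz dzbar)
open Pool.Agent.TH997.CMan
open Complex (normSq)

/-! ### Wirtinger derivatives of both types -/

/-- `i` or `-i` -/
noncomputable def cI (τ : Bool) : ℂ := cond τ Complex.I (-Complex.I)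

/-- The Wirtinger derivatives, `dz` for `τ = false` and `dzbar` for `τ = true`. -/
noncomputable def Wd (τ : Bool) (j : Fin 2) (u : Cn 2 → ℂ) (p : Cn 2) : ℂ :=
  (1 / 2) * (fderiv ℝ u p (Pi.single j 1) + cI τ * fderiv ℝ u p (Pi.single j Complex.I))

theorem Wd_false (j : Fin 2) (u : Cn 2 → ℂ) : Wd false j u = dz j u := by
  funext p
  unfold Wd dz cI
  simp only [cond_false]
  ring

theorem Wd_true (j : Fin 2) (u : Cn 2 → ℂ) : Wd true j u = dzbar j u := by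
  funext p
  unfold Wd dzbar cI
  simp only [cond_true]

/-- the coordinates -/
noncomputable def co (τ : Bool) (j : Fin 2) (w : Cn 2) : ℂ := cond τ (conj (w j)) (w j)

theorem norm_co (τ : Bool) (j : Fin 2) (w : Cn 2) : ‖co τ j w‖ ≤ ‖w‖ := by
  cases τ
  · exact norm_le_pi_norm w j
  · show ‖conj (w j)‖ ≤ ‖w‖
    rw [RCLike.norm_conj]
    exact norm_le_pi_norm w j

theorem fderiv_Wd_sum (u : Cn 2 → ℂ) (p v : Cn 2) :
    fderiv ℝ u p v = ∑ j, (Wd false j u p * co false j v + Wd true j u p * co true j v) := by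
  rw [Finset.sum_add_distrib]
  have h := pl_add_pb (fderiv ℝ u p) v
  rw [pl_sum, pb_sum] at h
  rw [← h]
  congr 1
  · refine Finset.sum_congr rfl fun a _ => ?_
    rw [Wd_false, dz_eq]
    rfl
  · refine Finset.sum_congr rfl fun a _ => ?_
    rw [Wd_true, dzbar_eq]
    rfl

theorem norm_fderiv_le {u : Cn 2 → ℂ} {p : Cn 2} {B : ℝ} (hB : 0 ≤ B)
    (h : ∀ τ j, ‖Wd τ j u p‖ ≤ B) : ‖fderiv ℝ u p‖ ≤ 4 * B := by
  refine ContinuousLinearMap.opNorm_le_bound _ (by positivity) fun v => ?_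
  rw [fderiv_Wd_sum, Fin.sum_univ_two]
  have h1 : ∀ τ j, ‖Wd τ j u p * co τ j v‖ ≤ B * ‖v‖ := fun τ j => by
    rw [norm_mul]
    exact mul_le_mul (h τ j) (norm_co τ j v) (norm_nonneg _) hB
  calc ‖Wd false 0 u p * co false 0 v + Wd true 0 u p * co true 0 v +
        (Wd false 1 u p * co false 1 v + Wd true 1 u p * co true 1 v)‖ ≤
        (‖Wd false 0 u p * co false 0 v‖ + ‖Wd true 0 u p * co true 0 v‖) +
        (‖Wd false 1 u p * co false 1 v‖ + ‖Wd true 1 u p * co true 1 v‖) :=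
        (norm_add_le _ _).trans (add_le_add (norm_add_le _ _) (norm_add_le _ _))
    _ ≤ (B * ‖v‖ + B * ‖v‖) + (B * ‖v‖ + B * ‖v‖) :=
        add_le_add (add_le_add (h1 _ _) (h1 _ _)) (add_le_add (h1 _ _) (h1 _ _))
    _ = 4 * B * ‖v‖ := by ring

theorem Wd_bound (u : Cn 2 → ℂ) (p : Cn 2) (τ : Bool) (j : Fin 2) :
    ‖Wd τ j u p‖ ≤ ‖fderiv ℝ u p‖ := by
  have h1 : ‖fderiv ℝ u p (Pi.single j 1)‖ ≤ ‖fderiv ℝ u p‖ := by
    have := (fderiv ℝ u p).le_opNorm (Pi.single j 1)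
    rw [Pi.norm_single, norm_one, mul_one] at this
    exact this
  have h2 : ‖fderiv ℝ u p (Pi.single j Complex.I)‖ ≤ ‖fderiv ℝ u p‖ := by
    have := (fderiv ℝ u p).le_opNorm (Pi.single j Complex.I)
    rw [Pi.norm_single, Complex.norm_I, mul_one] at this
    exact this
  have h3 : ‖cI τ‖ = 1 := by cases τ <;> simp [cI]
  unfold Wd
  rw [norm_mul]
  have h4 : ‖(1 / 2 : ℂ)‖ = 1 / 2 := by norm_num
  rw [h4]
  have h5 : ‖fderiv ℝ u p (Pi.single j 1) + cI τ * fderiv ℝ u p (Pi.single j Complex.I)‖ ≤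
      ‖fderiv ℝ u p‖ + ‖fderiv ℝ u p‖ := by
    refine (norm_add_le _ _).trans (add_le_add h1 ?_)
    rw [norm_mul, h3, one_mul]
    exact h2
  linarith

theorem smooth_Wd {u : Cn 2 → ℂ} (hu : ContDiff ℝ ∞ u) (τ : Bool) (j : Fin 2) :
    ContDiff ℝ ∞ (Wd τ j u) := by
  have h1 : ContDiff ℝ ∞ (fderiv ℝ u) := hu.fderiv_right (by simp)
  unfold Wd
  fun_prop

theorem smooth_cd2 {u : Cn 2 → ℂ} (hu : ContDiff ℝ ∞ u) (p : Cn 2) : ContDiffAt ℝ 2 u p :=
  (hu.of_le two_le_inf).contDiffAt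

theorem smooth_diff {u : Cn 2 → ℂ} (hu : ContDiff ℝ ∞ u) (p : Cn 2) : DifferentiableAt ℝ u p :=
  (smooth_cd2 hu p).differentiableAt (by simp)

theorem fderiv_Wd {u : Cn 2 → ℂ} {p : Cn 2} (hu : ContDiffAt ℝ 2 u p) (τ : Bool) (j : Fin 2)
    (v : Cn 2) : fderiv ℝ (Wd τ j u) p v = (1 / 2) * (fderiv ℝ (fderiv ℝ u) p v (Pi.single j 1) +
      cI τ * fderiv ℝ (fderiv ℝ u) p v (Pi.single j Complex.I)) := by
  cases τ
  · rw [Wd_false, fderiv_dz hu]
    simp only [cI, cond_false]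
    ring
  · rw [Wd_true, fderiv_dzbar hu]
    simp only [cI, cond_true]

theorem Wd_comm {u : Cn 2 → ℂ} {p : Cn 2} (hu : ContDiffAt ℝ 2 u p) (τ τ' : Bool) (j k : Fin 2) :
    Wd τ j (Wd τ' k u) p = Wd τ' k (Wd τ j u) p := by
  have h : ∀ τ τ' (j k : Fin 2), Wd τ j (Wd τ' k u) p = (1 / 2) *
      (fderiv ℝ (Wd τ' k u) p (Pi.single j 1) +
      cI τ * fderiv ℝ (Wd τ' k u) p (Pi.single j Complex.I)) := fun _ _ _ _ => rfl
  rw [h, h, fderiv_Wd hu, fderiv_Wd hu, fderiv_Wd hu, fderiv_Wd hu,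
    D2_symm hu (Pi.single k 1) (Pi.single j 1), D2_symm hu (Pi.single k Complex.I) (Pi.single j 1),
    D2_symm hu (Pi.single k 1) (Pi.single j Complex.I),
    D2_symm hu (Pi.single k Complex.I) (Pi.single j Complex.I)]
  ring

/-- the radial derivative -/
noncomputable def Ro (u : Cn 2 → ℂ) (w : Cn 2) : ℂ := fderiv ℝ u w w

theorem smooth_Ro {u : Cn 2 → ℂ} (hu : ContDiff ℝ ∞ u) : ContDiff ℝ ∞ (Ro u) := by
  have h1 : ContDiff ℝ ∞ (fderiv ℝ u) := hu.fderiv_right (by simp)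
  unfold Ro
  exact h1.clm_apply contDiff_id

theorem Wd_Ro {u : Cn 2 → ℂ} (hu : ContDiff ℝ ∞ u) (τ : Bool) (j : Fin 2) (p : Cn 2) :
    Wd τ j (Ro u) p = Ro (Wd τ j u) p + Wd τ j u p := by
  have hc := smooth_cd2 hu p
  have h1 : DifferentiableAt ℝ (fderiv ℝ u) p :=
    (hc.fderiv_right (m := 1) (by norm_num)).differentiableAt (by simp)
  have h2 : ∀ v : Cn 2, fderiv ℝ (Ro u) p v = fderiv ℝ (fderiv ℝ u) p v p + fderiv ℝ u p v := by
    intro v
    have h3 := h1.hasFDerivAt.clm_apply (hasFDerivAt_id p)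
    have h4 : fderiv ℝ (Ro u) p = _ := h3.fderiv
    rw [h4]
    simp [add_comm]
  have h5 : Ro (Wd τ j u) p = (1 / 2) * (fderiv ℝ (fderiv ℝ u) p p (Pi.single j 1) +
      cI τ * fderiv ℝ (fderiv ℝ u) p p (Pi.single j Complex.I)) := fderiv_Wd hc τ j p
  rw [h5]
  unfold Wd
  rw [h2, h2, D2_symm hc _ p, D2_symm hc _ p]
  ring

/-! ### Flat and bounded functions -/

/-- All derivatives of order less than `m` vanish at the origin. -/
def Fl : ℕ → (Cn 2 → ℂ) → Prop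
  | 0, _ => True
  | m + 1, f => f 0 = 0 ∧ ∀ τ j, Fl m (Wd τ j f)

/-- All derivatives of order `m` are bounded by `M`. -/
def Bd (M : ℝ) : ℕ → (Cn 2 → ℂ) → Prop
  | 0, f => ∀ w, ‖f w‖ ≤ M
  | m + 1, f => ∀ τ j, Bd M m (Wd τ j f)

theorem mvt_aux {f : Cn 2 → ℂ} (hf : ContDiff ℝ ∞ f) {B : ℝ} {m : ℕ} (hB : 0 ≤ B)
    (h : ∀ τ j w, ‖Wd τ j f w‖ ≤ B * ‖w‖ ^ m) (w : Cn 2) :
    ‖f w - f 0‖ ≤ 4 * B * ‖w‖ ^ (m + 1) := by
  have h1 : ∀ x ∈ Metric.closedBall (0 : Cn 2) ‖w‖, ‖fderiv ℝ f x‖ ≤ 4 * (B * ‖w‖ ^ m) := by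
    intro x hx
    refine norm_fderiv_le (by positivity) fun τ j => (h τ j x).trans ?_
    have : ‖x‖ ≤ ‖w‖ := mem_closedBall_zero_iff.1 hx
    gcongr
  have h2 := (convex_closedBall (0 : Cn 2) ‖w‖).norm_image_sub_le_of_norm_fderiv_le
    (fun x _ => smooth_diff hf x) h1 (Metric.mem_closedBall_self (norm_nonneg w))
    (mem_closedBall_zero_iff.2 le_rfl)
  rw [sub_zero] at h2
  refine h2.trans (le_of_eq ?_)
  ring

theorem flat_bound {M : ℝ} (hM : 0 ≤ M) : ∀ (m : ℕ) {f : Cn 2 → ℂ}, ContDiff ℝ ∞ f → Fl m f →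
    Bd M m f → ∀ w, ‖f w‖ ≤ 4 ^ m * M * ‖w‖ ^ m
  | 0, f, _, _, hb, w => by simpa using hb w
  | m + 1, f, hf, hl, hb, w => by
    have h1 := mvt_aux (B := 4 ^ m * M) (m := m) hf (by positivity)
      (fun τ j w => flat_bound hM m (smooth_Wd hf τ j) (hl.2 τ j) (hb τ j) w) w
    rw [hl.1, sub_zero] at h1
    refine h1.trans (le_of_eq ?_)
    ring

theorem Wd_sub_const_mul {u v : Cn 2 → ℂ} {p : Cn 2} (hu : DifferentiableAt ℝ u p)
    (hv : DifferentiableAt ℝ v p) (c : ℂ) (τ : Bool) (j : Fin 2) :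
    Wd τ j (fun w => u w - c * v w) p = Wd τ j u p - c * Wd τ j v p := by
  unfold Wd
  rw [fderiv_fun_sub hu (hv.const_mul c), fderiv_const_mul hv]
  simp only [sub_apply, smul_apply, smul_eq_mul]
  ring

theorem Ro_bound {M : ℝ} (hM : 0 ≤ M) : ∀ (m : ℕ) {f : Cn 2 → ℂ}, ContDiff ℝ ∞ f → Fl m f →
    Bd M (m + 1) f → ∀ w, ‖Ro f w - m * f w‖ ≤ 4 ^ (m + 1) * M * ‖w‖ ^ (m + 1)
  | 0, f, _, _, hb, w => by
    have h1 : ‖fderiv ℝ f w‖ ≤ 4 * M := norm_fderiv_le hM fun τ j => hb τ j w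
    have h2 := (fderiv ℝ f w).le_opNorm w
    have h3 : ‖Ro f w‖ ≤ 4 * M * ‖w‖ :=
      h2.trans (mul_le_mul_of_nonneg_right h1 (norm_nonneg _))
    simpa using h3
  | m + 1, f, hf, hl, hb, w => by
    have hH : ContDiff ℝ ∞ (fun w => Ro f w - ((m + 1 : ℕ) : ℂ) * f w) :=
      (smooth_Ro hf).sub (contDiff_const.mul hf)
    have h1 := mvt_aux (B := 4 ^ (m + 1) * M) (m := m + 1) hH (by positivity)
      (fun τ j w => by
        rw [Wd_sub_const_mul (smooth_diff (smooth_Ro hf) w) (smooth_diff hf w), Wd_Ro hf]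
        have h2 := Ro_bound hM m (smooth_Wd hf τ j) (hl.2 τ j) (hb τ j) w
        have e : Ro (Wd τ j f) w + Wd τ j f w - ((m + 1 : ℕ) : ℂ) * Wd τ j f w =
            Ro (Wd τ j f) w - m * Wd τ j f w := by
          push_cast
          ring
        rw [e]
        exact h2) w
    have h0 : Ro f 0 - ((m + 1 : ℕ) : ℂ) * f 0 = 0 := by
      rw [hl.1]
      unfold Ro
      simp
    simp only [h0, sub_zero] at h1
    refine h1.trans (le_of_eq ?_)
    ring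

end Pool.Agent.Y486
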