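import Pool.Agent.Y486.LFlat

/-!
# Gaussian integrals on `ℂ²`
-/

set_option autoImplicit false

open scoped Manifold ContDiff Topology ComplexConjugate Matrix
open MeasureTheory Set Filter

namespace Pool.Agent.Y486

open Pool.Agent.W549.CY (Cn dz dzbar)
open Pool.Agent.TH997.CMan
open Complex (normSq)

/-- the Euclidean norm squared -/
noncomputable def NN2 (w : Cn 2) : ℝ := normSq (w 0) + normSq (w 1)

theorem NN2_nonneg (w : Cn 2) : 0 ≤ NN2 w := add_nonneg (Complex.normSq_nonneg _) (Complex.normSq_nonneg _)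

theorem norm_sq_le (w : Cn 2) : ‖w‖ ^ 2 ≤ NN2 w := by
  have h1 : ‖w‖ ≤ √(NN2 w) := by
    rw [pi_norm_le_iff_of_nonneg (Real.sqrt_nonneg _)]
    intro i
    apply Real.le_sqrt_of_sq_le
    rw [← Complex.normSq_eq_norm_sq]
    unfold NN2
    have h0 := Complex.normSq_nonneg (w 0)
    have h1 := Complex.normSq_nonneg (w 1)
    rcases (show i = 0 ∨ i = 1 by fin_cases i <;> simp) with rfl | rfl <;> linarith
  have h2 := pow_le_pow_left₀ (norm_nonneg w) h1 2
  rwa [Real.sq_sqrt (NN2_nonneg w)] at h2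

theorem NN2_le (w : Cn 2) : NN2 w ≤ 2 * ‖w‖ ^ 2 := by
  unfold NN2
  rw [Complex.normSq_eq_norm_sq, Complex.normSq_eq_norm_sq]
  have h0 := pow_le_pow_left₀ (norm_nonneg _) (norm_le_pi_norm w 0) 2
  have h1 := pow_le_pow_left₀ (norm_nonneg _) (norm_le_pi_norm w 1) 2
  linarith

theorem smooth_NN2 : ContDiff ℝ ∞ NN2 := by
  have h : NN2 = fun w : Cn 2 => ‖w 0‖ ^ 2 + ‖w 1‖ ^ 2 := by
    funext w
    unfold NN2
    rw [Complex.normSq_eq_norm_sq, Complex.normSq_eq_norm_sq]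
  rw [h]
  exact ((contDiff_apply ℝ ℂ (0 : Fin 2)).norm_sq ℝ).add ((contDiff_apply ℝ ℂ (1 : Fin 2)).norm_sq ℝ)

/-- the Gaussian weight -/
noncomputable def gk (k : ℝ) (w : Cn 2) : ℝ := Real.exp (-(k * NN2 w))

theorem gk_pos (k : ℝ) (w : Cn 2) : 0 < gk k w := Real.exp_pos _

theorem smooth_gk (k : ℝ) : ContDiff ℝ ∞ (gk k) :=
  Real.contDiff_exp.comp (contDiff_const.mul smooth_NN2).neg

theorem gk_prod (k : ℝ) (w : Cn 2) : gk k w = ∏ i : Fin 2, Real.exp (-k * ‖w i‖ ^ 2) := by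
  rw [Fin.prod_univ_two, ← Real.exp_add]
  unfold gk NN2
  congr 1
  rw [Complex.normSq_eq_norm_sq, Complex.normSq_eq_norm_sq]
  ring

theorem int_one {k : ℝ} (hk : 0 < k) : ∫ z : ℂ, Real.exp (-k * ‖z‖ ^ 2) = Real.pi / k := by
  rw [GaussianFourier.integral_rexp_neg_mul_sq_norm hk, Complex.finrank_real_complex]
  norm_num

theorem integrable_one {k : ℝ} (hk : 0 < k) : Integrable fun z : ℂ => Real.exp (-k * ‖z‖ ^ 2) := by
  refine Integrable.of_integral_ne_zero ?_
  rw [int_one hk]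
  have := Real.pi_pos
  positivity

theorem integrable_gk {k : ℝ} (hk : 0 < k) : Integrable (gk k) := by
  have h : gk k = fun w => ∏ i : Fin 2, Real.exp (-k * ‖w i‖ ^ 2) := by
    funext w
    exact gk_prod k w
  rw [h]
  exact Integrable.fintype_prod (f := fun (_ : Fin 2) (z : ℂ) => Real.exp (-k * ‖z‖ ^ 2))
    fun _ => integrable_one hk

theorem int_gk {k : ℝ} (hk : 0 < k) : ∫ w, gk k w = (Real.pi / k) ^ 2 := by
  have h : gk k = fun w => ∏ i : Fin 2, Real.exp (-k * ‖w i‖ ^ 2) := by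
    funext w
    exact gk_prod k w
  rw [h, integral_fintype_prod_volume_eq_prod (fun (_ : Fin 2) (z : ℂ) => Real.exp (-k * ‖z‖ ^ 2)),
    Fin.prod_univ_two, int_one hk]
  ring

/-- polynomial growth against the Gaussian -/
theorem growth (k : ℝ) (hk : 0 < k) (m : ℕ) : ∃ C : ℝ, 0 ≤ C ∧ ∀ w : Cn 2,
    (1 + ‖w‖) ^ m * gk k w ≤ C * gk (k / 2) w := by
  refine ⟨m.factorial * Real.exp (1 + 1 / (2 * k)), by positivity, fun w => ?_⟩
  have h1 : (1 + ‖w‖) ^ m ≤ m.factorial * Real.exp (1 + ‖w‖) := by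
    have := Real.pow_div_factorial_le_exp (1 + ‖w‖) (by positivity) m
    rw [div_le_iff₀ (by positivity)] at this
    linarith
  have h2 : 1 + ‖w‖ ≤ (1 + 1 / (2 * k)) + k / 2 * ‖w‖ ^ 2 := by
    have h3 : 0 ≤ (1 - k * ‖w‖) ^ 2 / (2 * k) := by positivity
    have h4 : (1 - k * ‖w‖) ^ 2 / (2 * k) = 1 / (2 * k) + k / 2 * ‖w‖ ^ 2 - ‖w‖ := by
      field_simp
      ring
    linarith
  have h3 : Real.exp (1 + ‖w‖) ≤ Real.exp (1 + 1 / (2 * k)) * Real.exp (k / 2 * NN2 w) := by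
    rw [← Real.exp_add]
    apply Real.exp_le_exp.2
    have := mul_le_mul_of_nonneg_left (norm_sq_le w) (by positivity : 0 ≤ k / 2)
    linarith
  have h4 : gk (k / 2) w = Real.exp (k / 2 * NN2 w) * gk k w := by
    unfold gk
    rw [← Real.exp_add]
    congr 1
    ring
  rw [h4]
  have h5 := gk_pos k w
  calc (1 + ‖w‖) ^ m * gk k w ≤ (m.factorial * Real.exp (1 + ‖w‖)) * gk k w :=
        mul_le_mul_of_nonneg_right h1 h5.le
    _ ≤ (m.factorial * (Real.exp (1 + 1 / (2 * k)) * Real.exp (k / 2 * NN2 w))) * gk k w := by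
        gcongr
    _ = _ := by ring

/-- functions of polynomial growth -/
def PG (G : Cn 2 → ℂ) : Prop := Continuous G ∧ ∃ C : ℝ, ∃ m : ℕ, 0 ≤ C ∧ ∀ w, ‖G w‖ ≤ C * (1 + ‖w‖) ^ m

theorem PG.integrable {G : Cn 2 → ℂ} (hG : PG G) {k : ℝ} (hk : 0 < k) :
    Integrable fun w => G w * (gk k w : ℂ) := by
  obtain ⟨hc, C, m, hC, hb⟩ := hG
  obtain ⟨C', hC', h'⟩ := growth k hk m
  refine Integrable.mono' (((integrable_gk (k := k / 2) (by positivity))).const_mul (C * C')) ?_ ?_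
  · exact (hc.mul (Complex.continuous_ofReal.comp (smooth_gk k).continuous)).aestronglyMeasurable
  · refine Filter.Eventually.of_forall fun w => ?_
    rw [norm_mul, Complex.norm_real, Real.norm_of_nonneg (gk_pos k w).le]
    calc ‖G w‖ * gk k w ≤ C * (1 + ‖w‖) ^ m * gk k w :=
          mul_le_mul_of_nonneg_right (hb w) (gk_pos k w).le
      _ = C * ((1 + ‖w‖) ^ m * gk k w) := by ring
      _ ≤ C * (C' * gk (k / 2) w) := mul_le_mul_of_nonneg_left (h' w) hC
      _ = _ := by ring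

theorem PG.bounded {G : Cn 2 → ℂ} (hc : Continuous G) {M : ℝ} (h : ∀ w, ‖G w‖ ≤ M) : PG G := by
  refine ⟨hc, |M|, 0, abs_nonneg _, fun w => ?_⟩
  rw [pow_zero, mul_one]
  exact (h w).trans (le_abs_self M)

theorem PG.add {G H : Cn 2 → ℂ} (hG : PG G) (hH : PG H) : PG fun w => G w + H w := by
  obtain ⟨hc, C, m, hC, hb⟩ := hG
  obtain ⟨hc', C', m', hC', hb'⟩ := hH
  refine ⟨hc.add hc', C + C', m + m', add_nonneg hC hC', fun w => ?_⟩
  have h1 : (1 : ℝ) ≤ 1 + ‖w‖ := by linarith [norm_nonneg w]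
  have h2 : (1 + ‖w‖) ^ m ≤ (1 + ‖w‖) ^ (m + m') := pow_le_pow_right₀ h1 (Nat.le_add_right _ _)
  have h3 : (1 + ‖w‖) ^ m' ≤ (1 + ‖w‖) ^ (m + m') := pow_le_pow_right₀ h1 (Nat.le_add_left _ _)
  calc ‖G w + H w‖ ≤ ‖G w‖ + ‖H w‖ := norm_add_le _ _
    _ ≤ C * (1 + ‖w‖) ^ m + C' * (1 + ‖w‖) ^ m' := add_le_add (hb w) (hb' w)
    _ ≤ C * (1 + ‖w‖) ^ (m + m') + C' * (1 + ‖w‖) ^ (m + m') := by gcongr
    _ = _ := by ring

theorem PG.mul {G H : Cn 2 → ℂ} (hG : PG G) (hH : PG H) : PG fun w => G w * H w := by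
  obtain ⟨hc, C, m, hC, hb⟩ := hG
  obtain ⟨hc', C', m', hC', hb'⟩ := hH
  refine ⟨hc.mul hc', C * C', m + m', mul_nonneg hC hC', fun w => ?_⟩
  rw [norm_mul]
  calc ‖G w‖ * ‖H w‖ ≤ (C * (1 + ‖w‖) ^ m) * (C' * (1 + ‖w‖) ^ m') :=
        mul_le_mul (hb w) (hb' w) (norm_nonneg _) (by positivity)
    _ = _ := by ring

theorem PG.const (c : ℂ) : PG fun _ => c := PG.bounded continuous_const (M := ‖c‖) fun _ => le_rfl

theorem PG_co (τ : Bool) (j : Fin 2) : PG (co τ j) := by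
  refine ⟨?_, 1, 1, zero_le_one, fun w => ?_⟩
  · cases τ
    · exact continuous_apply j
    · exact Complex.continuous_conj.comp (continuous_apply j)
  · have := norm_co τ j w
    rw [pow_one, one_mul]
    linarith

theorem PG.const_mul {G : Cn 2 → ℂ} (hG : PG G) (c : ℂ) : PG fun w => c * G w := (PG.const c).mul hG

theorem PG.sub {G H : Cn 2 → ℂ} (hG : PG G) (hH : PG H) : PG fun w => G w - H w := by
  have h := hG.add (hH.const_mul (-1))
  have e : (fun w => G w - H w) = fun w => G w + -1 * H w := by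
    funext w
    ring
  rw [e]
  exact h

/-! ### The normalised integral -/

/-- expectation -/
noncomputable def EE (k : ℝ) (G : Cn 2 → ℂ) : ℂ := ((k / Real.pi) ^ 2 : ℝ) * ∫ w, G w * (gk k w : ℂ)

section EE

variable {k : ℝ} {G H : Cn 2 → ℂ}

theorem EE_add (hk : 0 < k) (hG : PG G) (hH : PG H) : EE k (fun w => G w + H w) = EE k G + EE k H := by
  unfold EE
  rw [← mul_add, ← integral_add (hG.integrable hk) (hH.integrable hk)]
  congr 2
  funext w
  ring

theorem EE_const_mul (k : ℝ) (G : Cn 2 → ℂ) (c : ℂ) : EE k (fun w => c * G w) = c * EE k G := by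
  unfold EE
  have e : (fun w => c * G w * (gk k w : ℂ)) = fun w => c * (G w * (gk k w : ℂ)) := by
    funext w
    ring
  rw [e, integral_const_mul]
  ring

theorem EE_sub (hk : 0 < k) (hG : PG G) (hH : PG H) : EE k (fun w => G w - H w) = EE k G - EE k H := by
  have e : (fun w => G w - H w) = fun w => G w + -1 * H w := by
    funext w
    ring
  rw [e, EE_add hk hG (hH.const_mul _), EE_const_mul]
  ring

theorem EE_one (hk : 0 < k) : EE k (fun _ => 1) = 1 := by
  unfold EE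
  simp only [one_mul]
  rw [show (∫ w : Cn 2, (gk k w : ℂ)) = ((∫ w : Cn 2, gk k w : ℝ) : ℂ) from integral_ofReal,
    int_gk hk, ← Complex.ofReal_mul]
  have h := Real.pi_pos
  have : (k / Real.pi) ^ 2 * (Real.pi / k) ^ 2 = 1 := by
    field_simp
  rw [this, Complex.ofReal_one]

theorem EE_const (hk : 0 < k) (c : ℂ) : EE k (fun _ => c) = c := by
  have := EE_const_mul k (fun _ => 1) c
  rw [EE_one hk] at this
  simpa using this

end EE

/-! ### Moments -/

/-- the moments -/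
noncomputable def mom (j : ℕ) : ℝ := ∫ w : Cn 2, ‖w‖ ^ j * gk (1 / 2) w

theorem integrable_pow {k : ℝ} (hk : 0 < k) (j : ℕ) :
    Integrable fun w : Cn 2 => ‖w‖ ^ j * gk k w := by
  have h : PG fun w : Cn 2 => ((‖w‖ ^ j : ℝ) : ℂ) := by
    refine ⟨by fun_prop, 1, j, zero_le_one, fun w => ?_⟩
    rw [Complex.norm_real, Real.norm_of_nonneg (by positivity), one_mul]
    exact pow_le_pow_left₀ (norm_nonneg _) (by linarith [norm_nonneg w]) _
  have h1 := (h.integrable hk).re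
  refine h1.congr (Filter.Eventually.of_forall fun w => ?_)
  show (((‖w‖ ^ j : ℝ) : ℂ) * (gk k w : ℂ)).re = ‖w‖ ^ j * gk k w
  rw [← Complex.ofReal_mul, Complex.ofReal_re]

theorem mom_nonneg (j : ℕ) : 0 ≤ mom j := integral_nonneg fun w => by
  have := (gk_pos (1 / 2) w).le
  positivity

theorem mom_scale {k : ℝ} (hk : 0 < k) (j : ℕ) :
    (k / Real.pi) ^ 2 * ∫ w : Cn 2, ‖w‖ ^ j * gk (k / 2) w = mom j / Real.pi ^ 2 / √k ^ j := by
  have hs : 0 < √k := Real.sqrt_pos.2 hk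
  have hs2 : √k ^ 2 = k := Real.sq_sqrt hk.le
  have h := Measure.integral_comp_smul (volume : Measure (Cn 2))
    (fun w : Cn 2 => ‖w‖ ^ j * gk (1 / 2) w) (√k)
  have hfin : Module.finrank ℝ (Cn 2) = 4 := by
    rw [Module.finrank_pi_fintype]
    simp [Complex.finrank_real_complex]
  rw [hfin] at h
  have e1 : ∀ w : Cn 2, ‖√k • w‖ ^ j * gk (1 / 2) (√k • w) = √k ^ j * (‖w‖ ^ j * gk (k / 2) w) := by
    intro w
    rw [norm_smul, Real.norm_of_nonneg hs.le, mul_pow]
    have e2 : gk (1 / 2) (√k • w) = gk (k / 2) w := by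
      unfold gk NN2
      congr 2
      simp only [Pi.smul_apply, Complex.real_smul, map_mul, Complex.normSq_ofReal]
      have : √k * √k = k := by rw [← sq, hs2]
      rw [this]
      ring
    rw [e2]
    ring
  simp only [e1] at h
  rw [integral_const_mul] at h
  have h4 : |(√k ^ 4)⁻¹| = (k ^ 2)⁻¹ := by
    rw [abs_of_nonneg (by positivity)]
    congr 1
    calc √k ^ 4 = (√k ^ 2) ^ 2 := by ring
      _ = k ^ 2 := by rw [hs2]
  rw [h4, smul_eq_mul] at h
  have hpi := Real.pi_pos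
  have h5 : ∫ w : Cn 2, ‖w‖ ^ j * gk (k / 2) w = (k ^ 2)⁻¹ * mom j / √k ^ j := by
    rw [eq_div_iff (by positivity), mul_comm]
    exact h
  rw [h5]
  field_simp

/-- the bound of an expectation -/
theorem EE_bound {k : ℝ} (hk : 0 < k) {G : Cn 2 → ℂ} {c : ℝ} (hc : 0 ≤ c) (j : ℕ)
    (h : ∀ w, ‖G w‖ ≤ c * ‖w‖ ^ j) : ‖EE k G‖ ≤ c * (mom j / Real.pi ^ 2) / √k ^ j := by
  unfold EE
  rw [norm_mul, Complex.norm_real, Real.norm_of_nonneg (sq_nonneg _)]
  have h1 : ‖∫ w, G w * (gk k w : ℂ)‖ ≤ ∫ w : Cn 2, c * (‖w‖ ^ j * gk (k / 2) w) := by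
    refine norm_integral_le_of_norm_le ((integrable_pow (by positivity) j).const_mul c)
      (Filter.Eventually.of_forall fun w => ?_)
    rw [norm_mul, Complex.norm_real, Real.norm_of_nonneg (gk_pos k w).le]
    have h2 : gk k w ≤ gk (k / 2) w := by
      unfold gk
      apply Real.exp_le_exp.2
      have := NN2_nonneg w
      nlinarith
    calc ‖G w‖ * gk k w ≤ (c * ‖w‖ ^ j) * gk (k / 2) w :=
          mul_le_mul (h w) h2 (gk_pos k w).le (by positivity)
      _ = _ := by ring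
  rw [integral_const_mul] at h1
  have h2 := mom_scale hk j
  calc (k / Real.pi) ^ 2 * ‖∫ w, G w * (gk k w : ℂ)‖ ≤
        (k / Real.pi) ^ 2 * (c * ∫ w : Cn 2, ‖w‖ ^ j * gk (k / 2) w) :=
        mul_le_mul_of_nonneg_left h1 (sq_nonneg _)
    _ = c * ((k / Real.pi) ^ 2 * ∫ w : Cn 2, ‖w‖ ^ j * gk (k / 2) w) := by ring
    _ = _ := by rw [h2]; ring

/-! ### Integration by parts -/

theorem fderiv_gk (k : ℝ) (w v : Cn 2) : fderiv ℝ (fun w => (gk k w : ℂ)) w v =
    (gk k w : ℂ) * (-(k : ℂ) * (∑ j, (conj (w j) * v j + w j * conj (v j)))) := by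
  have h0 : ∀ j : Fin 2, HasFDerivAt (fun w : Cn 2 => w j * conj (w j))
      ((w j) • ((Complex.conjCLE : ℂ →L[ℝ] ℂ).comp (ContinuousLinearMap.proj j : Cn 2 →L[ℝ] ℂ)) +
        (conj (w j)) • (ContinuousLinearMap.proj j : Cn 2 →L[ℝ] ℂ)) w := by
    intro j
    have h1 : HasFDerivAt (fun w : Cn 2 => w j) (ContinuousLinearMap.proj j : Cn 2 →L[ℝ] ℂ) w :=
      (ContinuousLinearMap.proj j : Cn 2 →L[ℝ] ℂ).hasFDerivAt
    have h2 : HasFDerivAt (fun w : Cn 2 => conj (w j))
        ((Complex.conjCLE : ℂ →L[ℝ] ℂ).comp (ContinuousLinearMap.proj j : Cn 2 →L[ℝ] ℂ)) w :=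
      (Complex.conjCLE : ℂ →L[ℝ] ℂ).hasFDerivAt.comp w h1
    exact h1.mul h2
  have h3 : HasFDerivAt (fun w : Cn 2 => -((k : ℂ) * (w 0 * conj (w 0) + w 1 * conj (w 1)))) _ w :=
    (((h0 0).add (h0 1)).const_mul (k : ℂ)).neg
  have h4 := h3.cexp
  have e : (fun w : Cn 2 => Complex.exp (-((k : ℂ) * (w 0 * conj (w 0) + w 1 * conj (w 1))))) =
      fun w => (gk k w : ℂ) := by
    funext w
    unfold gk NN2
    rw [Complex.ofReal_exp]
    congr 1
    push_cast
    rw [← Complex.mul_conj, ← Complex.mul_conj]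
  rw [e] at h4
  rw [h4.fderiv]
  have e2 : Complex.exp (-((k : ℂ) * (w 0 * conj (w 0) + w 1 * conj (w 1)))) = (gk k w : ℂ) :=
    congrFun e w
  rw [e2, Fin.sum_univ_two]
  simp only [smul_apply, neg_apply, add_apply, ContinuousLinearMap.comp_apply,
    ContinuousLinearMap.proj_apply, ContinuousLinearEquiv.coe_coe, Complex.conjCLE_apply, smul_eq_mul]
  ring

theorem Wd_gk (k : ℝ) (τ : Bool) (j : Fin 2) (w : Cn 2) :
    Wd τ j (fun w => (gk k w : ℂ)) w = -(k : ℂ) * (co (!τ) j w * (gk k w : ℂ)) := by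
  unfold Wd
  rw [fderiv_gk, fderiv_gk]
  cases τ <;> (rcases (show j = 0 ∨ j = 1 by fin_cases j <;> simp) with rfl | rfl) <;>
    simp [cI, co, Fin.sum_univ_two, Pi.single_apply] <;> ring_nf <;> simp [Complex.I_sq] <;> ring

theorem PG_fderiv {G : Cn 2 → ℂ} (hd : ∀ τ j, PG (Wd τ j G)) (v : Cn 2) :
    PG fun w => _root_.fderiv ℝ G w v := by
  have e : (fun w => _root_.fderiv ℝ G w v) = fun w =>
      (co false 0 v * Wd false 0 G w + co true 0 v * Wd true 0 G w) +
      (co false 1 v * Wd false 1 G w + co true 1 v * Wd true 1 G w) := by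
    funext w
    rw [fderiv_Wd_sum, Fin.sum_univ_two]
    ring
  rw [e]
  exact (((hd _ _).const_mul _).add ((hd _ _).const_mul _)).add
    (((hd _ _).const_mul _).add ((hd _ _).const_mul _))

theorem ibp {k : ℝ} (hk : 0 < k) {G : Cn 2 → ℂ} (hG : ContDiff ℝ ∞ G) (hp : PG G)
    (hd : ∀ τ j, PG (Wd τ j G)) (τ : Bool) (j : Fin 2) :
    EE k (fun w => co (!τ) j w * G w) = (1 / k : ℝ) * EE k (Wd τ j G) := by
  have hgs : ContDiff ℝ ∞ fun w => (gk k w : ℂ) := Complex.ofRealCLM.contDiff.comp (smooth_gk k)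
  have hdir : ∀ v : Cn 2, ∫ w, G w * _root_.fderiv ℝ (fun w => (gk k w : ℂ)) w v =
      -∫ w, _root_.fderiv ℝ G w v * (gk k w : ℂ) := by
    intro v
    refine integral_mul_fderiv_eq_neg_fderiv_mul_of_integrable
      ((PG_fderiv hd v).integrable hk) ?_ (hp.integrable hk)
      (fun w _ => smooth_diff hG w) (fun w _ => smooth_diff hgs w)
    have h1 : PG fun w => G w * (-(k : ℂ) * (∑ j, (co true j w * v j + co false j w * conj (v j)))) := by
      refine hp.mul (PG.const_mul ?_ _)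
      simp only [Fin.sum_univ_two]
      exact (((PG_co _ _).mul (PG.const _)).add ((PG_co _ _).mul (PG.const _))).add
        (((PG_co _ _).mul (PG.const _)).add ((PG_co _ _).mul (PG.const _)))
    refine (h1.integrable hk).congr (Filter.Eventually.of_forall fun w => ?_)
    show G w * (-(k : ℂ) * (∑ j, (co true j w * v j + co false j w * conj (v j)))) * (gk k w : ℂ) =
      G w * _root_.fderiv ℝ (fun w => (gk k w : ℂ)) w v
    rw [fderiv_gk]
    have e : ∑ j, (co true j w * v j + co false j w * conj (v j)) =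
        ∑ j, (conj (w j) * v j + w j * conj (v j)) := rfl
    rw [e]
    ring
  have hi : ∀ v : Cn 2, Integrable fun w => G w * _root_.fderiv ℝ (fun w => (gk k w : ℂ)) w v := by
    intro v
    have h1 : PG fun w => G w * (-(k : ℂ) * (∑ j, (co true j w * v j + co false j w * conj (v j)))) := by
      refine hp.mul (PG.const_mul ?_ _)
      simp only [Fin.sum_univ_two]
      exact (((PG_co _ _).mul (PG.const _)).add ((PG_co _ _).mul (PG.const _))).add
        (((PG_co _ _).mul (PG.const _)).add ((PG_co _ _).mul (PG.const _)))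
    refine (h1.integrable hk).congr (Filter.Eventually.of_forall fun w => ?_)
    show G w * (-(k : ℂ) * (∑ j, (co true j w * v j + co false j w * conj (v j)))) * (gk k w : ℂ) =
      G w * _root_.fderiv ℝ (fun w => (gk k w : ℂ)) w v
    rw [fderiv_gk]
    have e : ∑ j, (co true j w * v j + co false j w * conj (v j)) =
        ∑ j, (conj (w j) * v j + w j * conj (v j)) := rfl
    rw [e]
    ring
  have hi' : ∀ v : Cn 2, Integrable fun w => _root_.fderiv ℝ G w v * (gk k w : ℂ) := fun v =>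
    (PG_fderiv hd v).integrable hk
  have h1 : ∫ w, G w * Wd τ j (fun w => (gk k w : ℂ)) w = -∫ w, Wd τ j G w * (gk k w : ℂ) := by
    have e1 : (fun w => G w * Wd τ j (fun w => (gk k w : ℂ)) w) = fun w =>
        (1 / 2 : ℂ) * (G w * _root_.fderiv ℝ (fun w => (gk k w : ℂ)) w (Pi.single j 1)) +
        (1 / 2 : ℂ) * cI τ *
          (G w * _root_.fderiv ℝ (fun w => (gk k w : ℂ)) w (Pi.single j Complex.I)) := by
      funext w
      unfold Wd
      ring
    have e2 : (fun w => Wd τ j G w * (gk k w : ℂ)) = fun w =>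
        (1 / 2 : ℂ) * (_root_.fderiv ℝ G w (Pi.single j 1) * (gk k w : ℂ)) +
        (1 / 2 : ℂ) * cI τ * (_root_.fderiv ℝ G w (Pi.single j Complex.I) * (gk k w : ℂ)) := by
      funext w
      unfold Wd
      ring
    rw [e1, e2, integral_add ((hi _).const_mul _) ((hi _).const_mul _),
      integral_add ((hi' _).const_mul _) ((hi' _).const_mul _), integral_const_mul,
      integral_const_mul, integral_const_mul, integral_const_mul, hdir, hdir]
    ring
  have e3 : (fun w => G w * Wd τ j (fun w => (gk k w : ℂ)) w) = fun w =>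
      -(k : ℂ) * (co (!τ) j w * G w * (gk k w : ℂ)) := by
    funext w
    rw [Wd_gk]
    ring
  rw [e3, integral_const_mul] at h1
  have hkc : (k : ℂ) ≠ 0 := by exact_mod_cast hk.ne'
  have h2 : ∫ w, co (!τ) j w * G w * (gk k w : ℂ) = (1 / k : ℝ) * ∫ w, Wd τ j G w * (gk k w : ℂ) := by
    push_cast
    field_simp
    linear_combination -h1
  unfold EE
  rw [h2]
  ring

end Pool.Agent.Y486
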