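import Pool.Agent.Y486.SecF

/-!
# The reference weights: explicit formulas and integrals
-/

set_option autoImplicit false

open scoped Manifold ContDiff Topology ComplexConjugate MatrixGroups UpperHalfPlane Matrix
open scoped ComplexOrder
open MeasureTheory Set Filter

namespace Pool.Agent.Y486

open Pool.Agent.W549.CY (Cn dz dzbar HermitianMetric chernRicci chernScalar)
open Pool.Agent.W711.KC (jj nn CG CG_far NN_pos jj_ne im_mob jj_mul nn_mul det_eq)
open Pool.Agent.TH598.KG (hf Cutoff d1)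
open Pool.Agent.TH997.KG (mob VV mob_mem mob_mul mob_one mob_inv_left mob_inv_right mob_coe
  hasDerivAt_mob isOpen_VV)
open Pool.Agent.TH997.CMan
open Complex (normSq)

/-! ### Elementary derivatives -/

theorem fderiv_coordR (k : Fin 2) (p : Cn 2) :
    HasFDerivAt (𝕜 := ℝ) (fun q : Cn 2 => q k)
      (ContinuousLinearMap.proj (R := ℝ) (φ := fun _ : Fin 2 => ℂ) k) p :=
  (ContinuousLinearMap.proj (R := ℝ) (φ := fun _ : Fin 2 => ℂ) k).hasFDerivAt

theorem dz_coord (j k : Fin 2) (p : Cn 2) : dz j (fun q : Cn 2 => q k) p = if j = k then 1 else 0 := by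
  unfold dz
  rw [(fderiv_coordR k p).fderiv]
  split_ifs with h
  · subst h
    simp
    norm_num
  · simp [Ne.symm h]

theorem dzbar_coord (j k : Fin 2) (p : Cn 2) : dzbar j (fun q : Cn 2 => q k) p = 0 :=
  dzbar_hol (hasFDerivAt_coord k p).differentiableAt j

theorem dz_cc (j k : Fin 2) (p : Cn 2) : dz j (fun q : Cn 2 => conj (q k)) p = 0 :=
  dz_conj (hasFDerivAt_coord k p).differentiableAt j

theorem dzbar_cc (j k : Fin 2) (p : Cn 2) :
    dzbar j (fun q : Cn 2 => conj (q k)) p = if j = k then 1 else 0 := by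
  rw [Pool.Agent.TH598.KG.dzbar_conj, dz_coord]
  split_ifs <;> simp

/-- `y + τ |u|²` -/
noncomputable def St (τ : ℝ) (p : Cn 2) : ℝ := (p 0).im + τ * normSq (p 1)

theorem St_coe (τ : ℝ) (p : Cn 2) : ((St τ p : ℝ) : ℂ) =
    (-Complex.I / 2) * (p 0) + (Complex.I / 2) * conj (p 0) + (τ : ℂ) * (p 1 * conj (p 1)) := by
  unfold St
  push_cast
  rw [normSq_coe]
  have h := Complex.sub_conj (p 0)
  push_cast at h
  have h2 : ((p 0).im : ℂ) = -Complex.I / 2 * (p 0 - conj (p 0)) := by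
    rw [h]
    linear_combination (((p 0).im : ℂ)) * Complex.I_mul_I
  rw [h2]
  ring

theorem difR (k : Fin 2) (p : Cn 2) : DifferentiableAt ℝ (fun q : Cn 2 => q k) p :=
  (fderiv_coordR k p).differentiableAt

theorem difC (k : Fin 2) (p : Cn 2) : DifferentiableAt ℝ (fun q : Cn 2 => conj (q k)) p :=
  dconj (hasFDerivAt_coord k p).differentiableAt

theorem dz_St (τ : ℝ) (j : Fin 2) (p : Cn 2) : dz j (fun q => ((St τ q : ℝ) : ℂ)) p =
    if j = 0 then -Complex.I / 2 else (τ : ℂ) * conj (p 1) := by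
  simp only [St_coe]
  have a1 : DifferentiableAt ℝ (fun q : Cn 2 => (-Complex.I / 2) * (q 0)) p := (difR 0 p).const_mul _
  have a2 : DifferentiableAt ℝ (fun q : Cn 2 => (Complex.I / 2) * conj (q 0)) p :=
    (difC 0 p).const_mul _
  have a3 : DifferentiableAt ℝ (fun q : Cn 2 => (τ : ℂ) * (q 1 * conj (q 1))) p :=
    ((difR 1 p).mul (difC 1 p)).const_mul _
  have e1 := dz_add (u := fun q : Cn 2 => (-Complex.I / 2) * (q 0) + (Complex.I / 2) * conj (q 0))
    (v := fun q : Cn 2 => (τ : ℂ) * (q 1 * conj (q 1))) (a1.add a2) a3 j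
  have e2 := dz_add a1 a2 j
  have hm : DifferentiableAt ℝ (fun q : Cn 2 => q 1 * conj (q 1)) p := (difR 1 p).mul (difC 1 p)
  rw [e1, e2, dz_const_mul' _ (difR 0 p), dz_const_mul' _ (difC 0 p),
    dz_const_mul' _ hm, dz_mul (difR 1 p) (difC 1 p)]
  simp only [dz_coord, dz_cc]
  fin_cases j <;> simp

theorem dzbar_add' {u v : Cn 2 → ℂ} {z : Cn 2} (hu : DifferentiableAt ℝ u z)
    (hv : DifferentiableAt ℝ v z) (j : Fin 2) :
    dzbar j (fun w => u w + v w) z = dzbar j u z + dzbar j v z := dzbar_add hu hv j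

theorem dzbar_St (τ : ℝ) (j : Fin 2) (p : Cn 2) : dzbar j (fun q => ((St τ q : ℝ) : ℂ)) p =
    if j = 0 then Complex.I / 2 else (τ : ℂ) * p 1 := by
  simp only [St_coe]
  have a1 : DifferentiableAt ℝ (fun q : Cn 2 => (-Complex.I / 2) * (q 0)) p := (difR 0 p).const_mul _
  have a2 : DifferentiableAt ℝ (fun q : Cn 2 => (Complex.I / 2) * conj (q 0)) p :=
    (difC 0 p).const_mul _
  have a3 : DifferentiableAt ℝ (fun q : Cn 2 => (τ : ℂ) * (q 1 * conj (q 1))) p :=
    ((difR 1 p).mul (difC 1 p)).const_mul _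
  have e1 := dzbar_add (u := fun q : Cn 2 => (-Complex.I / 2) * (q 0) + (Complex.I / 2) * conj (q 0))
    (v := fun q : Cn 2 => (τ : ℂ) * (q 1 * conj (q 1))) (a1.add a2) a3 j
  have e2 := dzbar_add a1 a2 j
  have hm : DifferentiableAt ℝ (fun q : Cn 2 => q 1 * conj (q 1)) p := (difR 1 p).mul (difC 1 p)
  rw [e1, e2, dzbar_const_mul' _ (difR 0 p), dzbar_const_mul' _ (difC 0 p),
    dzbar_const_mul' _ hm, dzbar_mul' (difR 1 p) (difC 1 p)]
  simp only [dzbar_coord, dzbar_cc]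
  fin_cases j <;> simp

theorem dz_const' (j : Fin 2) (c : ℂ) (z : Cn 2) : dz j (fun _ => c) z = 0 := by
  unfold dz
  simp

theorem LL_St (τ : ℝ) (p : Cn 2) : LL (St τ) p = !![0, 0; 0, (τ : ℂ)] := by
  ext j k
  show dz j (dzbar k fun q => ((St τ q : ℝ) : ℂ)) p = _
  have e : (dzbar k fun q => ((St τ q : ℝ) : ℂ)) = fun q =>
      if k = 0 then Complex.I / 2 else (τ : ℂ) * q 1 := by
    funext q
    exact dzbar_St τ k q
  rw [e]
  fin_cases k
  · simp only [Fin.zero_eta, if_true]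
    rw [dz_const']
    fin_cases j <;> rfl
  · simp only [Fin.mk_one, one_ne_zero, if_false]
    rw [dz_const_mul' _ (difR 1 p), dz_coord]
    fin_cases j <;> simp

theorem contDiff_St (τ : ℝ) {n : WithTop ℕ∞} : ContDiff ℝ n (St τ) := by
  unfold St
  have h3 : (fun q : Cn 2 => normSq (q 1)) = fun q => ‖q 1‖ ^ 2 := by
    funext q
    exact Complex.normSq_eq_norm_sq _
  exact contDiff_im.add (contDiff_const.mul (h3 ▸ (contDiff_apply ℝ ℂ (1 : Fin 2)).norm_sq ℝ))

theorem St_pos {τ : ℝ} (hτ : 0 ≤ τ) {p : Cn 2} (hp : p ∈ UU) : 0 < St τ p :=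
  add_pos_of_pos_of_nonneg hp (mul_nonneg hτ (Complex.normSq_nonneg _))

theorem LL_logSt {τ : ℝ} (hτ : 0 ≤ τ) {p : Cn 2} (hp : p ∈ UU) :
    LL (fun q => Real.log (St τ q)) p =
      !![-(1 / (4 * (St τ p : ℂ) ^ 2)), Complex.I / 2 * τ * p 1 / (St τ p : ℂ) ^ 2;
        -(Complex.I / 2 * τ * conj (p 1) / (St τ p : ℂ) ^ 2),
        τ * ((p 0).im : ℂ) / (St τ p : ℂ) ^ 2] := by
  have h0 := St_pos hτ hp
  have hne : (St τ p : ℂ) ≠ 0 := by exact_mod_cast h0.ne'
  have hS : (St τ p : ℂ) = ((p 0).im : ℂ) + τ * (p 1 * conj (p 1)) := by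
    unfold St
    push_cast
    rw [normSq_coe]
  ext j k
  rw [LL_log (contDiff_St τ).contDiffAt h0, LL_St, dz_St, dzbar_St]
  fin_cases j <;> fin_cases k
  · simp
    field_simp
    linear_combination (4 : ℂ) * Complex.I_sq
  · simp
    ring
  · simp
    ring
  · simp
    rw [eq_comm, div_eq_div_iff (pow_ne_zero 2 hne) (pow_ne_zero 2 hne)]
    rw [hS]
    ring

/-! ### Linearity of the complex Hessian -/

theorem LL_add {P Q : Cn 2 → ℝ} {p : Cn 2} (hP : ContDiffAt ℝ 2 P p) (hQ : ContDiffAt ℝ 2 Q p) :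
    LL (fun q => P q + Q q) p = LL P p + LL Q p := by
  have hPC : ContDiffAt ℝ 2 (fun q => ((P q : ℝ) : ℂ)) p :=
    Complex.ofRealCLM.contDiff.contDiffAt.comp p hP
  have hQC : ContDiffAt ℝ 2 (fun q => ((Q q : ℝ) : ℂ)) p :=
    Complex.ofRealCLM.contDiff.contDiffAt.comp p hQ
  ext j k
  show dz j (dzbar k fun q => ((P q + Q q : ℝ) : ℂ)) p = _
  simp only [Complex.ofReal_add]
  exact levi_add hPC hQC j k

theorem LL_const_mul (c : ℝ) {P : Cn 2 → ℝ} {p : Cn 2} (hP : ContDiffAt ℝ 2 P p) :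
    LL (fun q => c * P q) p = (c : ℂ) • LL P p := by
  have hPC : ContDiffAt ℝ 2 (fun q => ((P q : ℝ) : ℂ)) p :=
    Complex.ofRealCLM.contDiff.contDiffAt.comp p hP
  ext j k
  show dz j (dzbar k fun q => ((c * P q : ℝ) : ℂ)) p = _
  simp only [Complex.ofReal_mul]
  exact levi_const_mul _ hPC j k

theorem LL_sub {P Q : Cn 2 → ℝ} {p : Cn 2} (hP : ContDiffAt ℝ 2 P p) (hQ : ContDiffAt ℝ 2 Q p) :
    LL (fun q => P q - Q q) p = LL P p - LL Q p := by
  have h1 : (fun q => P q - Q q) = fun q => P q + (-1) * Q q := by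
    funext q
    ring
  rw [h1, LL_add hP (contDiffAt_const.mul hQ), LL_const_mul _ hQ]
  push_cast
  rw [neg_one_smul, ← sub_eq_add_neg]

/-! ### The family of reference weights -/

/-- `y |x 0|² + e^t |x 1|²` -/
noncomputable def NT (t : ℝ) (i : Fin 2) (p : Cn 2) : ℝ :=
  (p 0).im * normSq (ins i p 0) + Real.exp t * normSq (ins i p 1)

/-- the family of reference weights -/
noncomputable def vv (A C : ℝ) (t : ℝ) (i : Fin 2) (p : Cn 2) : ℝ :=
  A * Real.log (NT t i p) - C * Real.log (p 0).im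

theorem NT_zero (t : ℝ) (p : Cn 2) : NT t 0 p = St (Real.exp t) p := by
  simp [NT, St, ins]

theorem NT_pos (t : ℝ) (i : Fin 2) {p : Cn 2} (hp : p ∈ UU) : 0 < NT t i p := by
  have h0 := Complex.normSq_nonneg (ins i p 0)
  have h1 := Complex.normSq_nonneg (ins i p 1)
  have hy : 0 < (p 0).im := hp
  have ht := Real.exp_pos t
  unfold NT
  fin_cases i
  · have : normSq (ins 0 p 0) = 1 := by simp [ins]
    change 0 < (p 0).im * normSq (ins 0 p 0) + Real.exp t * normSq (ins 0 p 1)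
    rw [this, mul_one]
    exact add_pos_of_pos_of_nonneg hy (mul_nonneg ht.le h1)
  · have : normSq (ins 1 p 1) = 1 := by simp [ins]
    change 0 < (p 0).im * normSq (ins 1 p 0) + Real.exp t * normSq (ins 1 p 1)
    rw [this, mul_one]
    exact add_pos_of_nonneg_of_pos (mul_nonneg hy.le h0) ht

theorem NT_FF (t : ℝ) (g : SL(2, ℝ)) (i j : Fin 2) {p : Cn 2} (hp : p ∈ UU)
    (h : hom g i p j ≠ 0) : NT t j (FF g i j p) = NT t i p / normSq (hom g i p j) := by
  have hj : normSq (jj g (p 0)) ≠ 0 := (Complex.normSq_pos.2 (jj_ne g hp)).ne'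
  have hh : normSq (hom g i p j) ≠ 0 := (Complex.normSq_pos.2 h).ne'
  unfold NT
  rw [ins_FF g i j h]
  have h1 : ((FF g i j p) 0).im = (p 0).im / normSq (jj g (p 0)) := im_mob g hp
  rw [h1]
  simp only [Pi.smul_apply, smul_eq_mul, map_mul, map_inv₀]
  have h2 : normSq (hom g i p 0) = normSq (jj g (p 0)) * normSq (ins i p 0) := map_mul _ _ _
  have h3 : normSq (hom g i p 1) = normSq (ins i p 1) := rfl
  rw [h2, h3]
  field_simp

theorem wf_vv (A C : ℝ) : WF A C (vv A C) := by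
  refine ⟨fun i => ?_, fun t g hg i j p hp h0 => ?_⟩
  · have h1 : ContDiff ℝ ∞ fun x : ℝ × Cn 2 => NT x.1 i x.2 :=
      ((contDiff_im.comp contDiff_snd).mul ((contDiff_normSq_ins i 0).comp contDiff_snd)).add
        ((Real.contDiff_exp.comp contDiff_fst).mul ((contDiff_normSq_ins i 1).comp contDiff_snd))
    exact (contDiffOn_const.mul (h1.contDiffOn.log fun x hx => (NT_pos x.1 i (mem_TU.1 hx)).ne')).sub
      (contDiffOn_const.mul ((contDiff_im.comp contDiff_snd).contDiffOn.log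
        fun x hx => (show 0 < (x.2 0).im from mem_TU.1 hx).ne'))
  · have hj : normSq (jj g (p 0)) ≠ 0 := (Complex.normSq_pos.2 (jj_ne g hp)).ne'
    have hh : normSq (hom g i p j) ≠ 0 := (Complex.normSq_pos.2 h0).ne'
    have hN := (NT_pos t i hp).ne'
    have hy : (p 0).im ≠ 0 := (show 0 < (p 0).im from hp).ne'
    have h1 : ((FF g i j p) 0).im = (p 0).im / normSq (jj g (p 0)) := im_mob g hp
    unfold vv
    rw [NT_FF t g i j hp h0, h1, Real.log_div hN hh, Real.log_div hy hj]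
    ring

theorem vv_zero_eq (A C : ℝ) (i : Fin 2) : vv A C 0 i = Rw A C i := by
  funext p
  unfold vv Rw NT Nn
  rw [Real.exp_zero, one_mul]

theorem wt_Rw (A C : ℝ) : Wt A C (Rw A C) := by
  have h := (wf_vv A C).wt 0
  have e : vv A C 0 = Rw A C := by
    funext i
    exact vv_zero_eq A C i
  rwa [e] at h

theorem dt_vv (A C t : ℝ) (i : Fin 2) {p : Cn 2} (hp : p ∈ UU) :
    dt (vv A C) t i p = A * (Real.exp t * normSq (ins i p 1)) / NT t i p := by
  have h1 : HasDerivAt (fun s => NT s i p) (Real.exp t * normSq (ins i p 1)) t := by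
    unfold NT
    exact ((Real.hasDerivAt_exp t).mul_const _).const_add _
  have h2 := ((h1.log (NT_pos t i hp).ne').const_mul A).sub_const (C * Real.log (p 0).im)
  have h3 : dt (vv A C) t i p = _ := h2.deriv
  rw [h3]
  ring

/-- The complex Hessian of the reference weight in the chart number `0`. -/
theorem LL_vv (A C t : ℝ) {p : Cn 2} (hp : p ∈ UU) : LL (vv A C t 0) p =
    (A : ℂ) • LL (fun q => Real.log (St (Real.exp t) q)) p -
      (C : ℂ) • LL (fun q => Real.log (St 0 q)) p := by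
  have hd : ∀ τ : ℝ, 0 ≤ τ → ContDiffAt ℝ 2 (fun q => Real.log (St τ q)) p := fun τ hτ =>
    (contDiff_St τ).contDiffAt.log (St_pos hτ hp).ne'
  have e : vv A C t 0 = fun q => A * Real.log (St (Real.exp t) q) - C * Real.log (St 0 q) := by
    funext q
    unfold vv
    rw [NT_zero]
    have : St 0 q = (q 0).im := by simp [St]
    rw [this]
  rw [e, LL_sub (contDiffAt_const.mul (hd _ (Real.exp_pos t).le))
    (contDiffAt_const.mul (hd 0 le_rfl)), LL_const_mul _ (hd _ (Real.exp_pos t).le),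
    LL_const_mul _ (hd 0 le_rfl)]

theorem LL_vv' (A C t : ℝ) {p : Cn 2} (hp : p ∈ UU) : LL (vv A C t 0) p =
    !![-(A / (4 * (St (Real.exp t) p : ℂ) ^ 2)) + C / (4 * ((p 0).im : ℂ) ^ 2),
        A * (Complex.I / 2 * (Real.exp t : ℂ) * p 1 / (St (Real.exp t) p : ℂ) ^ 2);
        -(A * (Complex.I / 2 * (Real.exp t : ℂ) * conj (p 1) / (St (Real.exp t) p : ℂ) ^ 2)),
        A * ((Real.exp t : ℂ) * ((p 0).im : ℂ) / (St (Real.exp t) p : ℂ) ^ 2)] := by
  have h0 : St 0 p = (p 0).im := by simp [St]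
  rw [LL_vv A C t hp, LL_logSt (Real.exp_pos t).le hp, LL_logSt le_rfl hp, h0]
  ext j k
  fin_cases j <;> fin_cases k
  · simp
    ring
  · simp
  · simp
  · simp

/-- weak positivity -/
structure P2 (a : M2) : Prop where
  herm : a.IsHermitian
  d0 : 0 ≤ (a 0 0).re
  d1 : 0 ≤ (a 1 1).re
  det : 0 ≤ a.det.re

theorem P2.of_psd {a : M2} (ha : a.PosSemidef) : P2 a :=
  ⟨ha.isHermitian, (Complex.nonneg_iff.1 (ha.diag_nonneg (i := 0))).1,
    (Complex.nonneg_iff.1 (ha.diag_nonneg (i := 1))).1, det_re_nonneg ha⟩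

theorem P2.DD_nonneg {a b : M2} (ha : P2 a) (hb : P2 b) : 0 ≤ DD a b := by
  have a0 : (a 0 0).im = 0 := by
    have := ha.herm.apply 0 0
    exact Complex.conj_eq_iff_im.1 this
  have a1 : (a 1 1).im = 0 := by
    have := ha.herm.apply 1 1
    exact Complex.conj_eq_iff_im.1 this
  have b0 : (b 0 0).im = 0 := by
    have := hb.herm.apply 0 0
    exact Complex.conj_eq_iff_im.1 this
  have b1 : (b 1 1).im = 0 := by
    have := hb.herm.apply 1 1
    exact Complex.conj_eq_iff_im.1 this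
  have hda := ha.det
  have hdb := hb.det
  have ea : a 1 0 = conj (a 0 1) := (ha.herm.apply 1 0).symm
  have eb : b 1 0 = conj (b 0 1) := (hb.herm.apply 1 0).symm
  have hp := ha.d0
  have hq := ha.d1
  have hr := hb.d0
  have hs := hb.d1
  rw [Matrix.det_fin_two] at hda hdb
  rw [ea] at hda
  rw [eb] at hdb
  unfold DD
  rw [ea, eb]
  simp only [Complex.add_re, Complex.sub_re, Complex.mul_re, Complex.conj_re, Complex.conj_im] at *
  rw [a0, a1] at *
  rw [b0, b1] at *
  set p := (a 0 0).re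
  set q := (a 1 1).re
  set r := (b 0 0).re
  set s := (b 1 1).re
  set x := (a 0 1).re
  set y := (a 0 1).im
  set u := (b 0 1).re
  set v := (b 0 1).im
  have h1 : x ^ 2 + y ^ 2 ≤ p * q := by nlinarith
  have h2 : u ^ 2 + v ^ 2 ≤ r * s := by nlinarith
  have h3 : (x * u + y * v) ^ 2 ≤ (p * q) * (r * s) := by
    have : (x * u + y * v) ^ 2 ≤ (x ^ 2 + y ^ 2) * (u ^ 2 + v ^ 2) := by
      nlinarith [sq_nonneg (x * v - y * u)]
    refine this.trans (mul_le_mul h1 h2 (by positivity) (by positivity))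
  have h4 : 2 * (x * u + y * v) ≤ p * s + q * r := by
    have h5 : (2 * (x * u + y * v)) ^ 2 ≤ (p * s + q * r) ^ 2 := by
      nlinarith [sq_nonneg (p * s - q * r)]
    exact (le_abs_self _).trans (abs_le_of_sq_le_sq h5 (by positivity))
  nlinarith

theorem det_vv (A C t : ℝ) {p : Cn 2} (hp : p ∈ UU) : (LL (vv A C t 0) p).det.re =
    Real.exp t * (A * C / (4 * (p 0).im * St (Real.exp t) p ^ 2) -
      A ^ 2 / (4 * St (Real.exp t) p ^ 3)) := by
  have hy : (p 0).im ≠ 0 := (show 0 < (p 0).im from hp).ne'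
  have hyc : ((p 0).im : ℂ) ≠ 0 := by exact_mod_cast hy
  have h0 := (St_pos (Real.exp_pos t).le hp).ne'
  have hne : (St (Real.exp t) p : ℂ) ≠ 0 := by exact_mod_cast h0
  have hS : (St (Real.exp t) p : ℂ) = ((p 0).im : ℂ) + (Real.exp t : ℂ) * (p 1 * conj (p 1)) := by
    unfold St
    push_cast
    rw [normSq_coe]
  have key : (LL (vv A C t 0) p).det = ((Real.exp t * (A * C / (4 * (p 0).im *
      St (Real.exp t) p ^ 2) - A ^ 2 / (4 * St (Real.exp t) p ^ 3)) : ℝ) : ℂ) := by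
    rw [LL_vv' A C t hp, Matrix.det_fin_two_of]
    push_cast
    set S : ℂ := (St (Real.exp t) p : ℂ) with hSdef
    rw [← sub_eq_zero]
    have e : (Real.exp t : ℂ) * (p 1 * conj (p 1)) = S - ((p 0).im : ℂ) := by rw [hS]; ring
    field_simp
    push_cast at e
    linear_combination (4 * (Complex.exp (t : ℂ)) * A ^ 2 * ((p 0).im : ℂ)) *
      ((p 1 * conj (p 1) * Complex.exp (t : ℂ)) * Complex.I_sq) -
      (4 * (A : ℂ) ^ 2 * Complex.exp (t : ℂ) * ((p 0).im : ℂ)) * e
  rw [key, Complex.ofReal_re]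

end Pool.Agent.Y486
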