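import Pool.Agent.Y486.LGauss
import Pool.Agent.Y486.RefW

/-!
# The main term
-/

set_option autoImplicit false

open scoped Manifold ContDiff Topology ComplexConjugate Matrix
open MeasureTheory Set Filter

namespace Pool.Agent.Y486

open Pool.Agent.W549.CY (Cn dz dzbar)
open Pool.Agent.TH997.CMan
open Complex (normSq)

/-! ### Linearity of Wirtinger derivatives -/

theorem Wd_add {u v : Cn 2 → ℂ} {p : Cn 2} (hu : DifferentiableAt ℝ u p)
    (hv : DifferentiableAt ℝ v p) (τ : Bool) (j : Fin 2) :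
    Wd τ j (fun w => u w + v w) p = Wd τ j u p + Wd τ j v p := by
  unfold Wd
  rw [fderiv_fun_add hu hv]
  simp only [add_apply]
  ring

theorem Wd_const_mul {u : Cn 2 → ℂ} {p : Cn 2} (hu : DifferentiableAt ℝ u p) (c : ℂ) (τ : Bool)
    (j : Fin 2) : Wd τ j (fun w => c * u w) p = c * Wd τ j u p := by
  unfold Wd
  rw [fderiv_const_mul hu]
  simp only [smul_apply, smul_eq_mul]
  ring

theorem Wd_mul {u v : Cn 2 → ℂ} {p : Cn 2} (hu : DifferentiableAt ℝ u p)
    (hv : DifferentiableAt ℝ v p) (τ : Bool) (j : Fin 2) :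
    Wd τ j (fun w => u w * v w) p = Wd τ j u p * v p + u p * Wd τ j v p := by
  unfold Wd
  rw [fderiv_fun_mul hu hv]
  simp only [add_apply, smul_apply, smul_eq_mul]
  ring

theorem Wd_const (c : ℂ) (τ : Bool) (j : Fin 2) (p : Cn 2) : Wd τ j (fun _ => c) p = 0 := by
  unfold Wd
  simp

theorem Wd_congr {u v : Cn 2 → ℂ} {p : Cn 2} (h : u =ᶠ[𝓝 p] v) (τ : Bool) (j : Fin 2) :
    Wd τ j u p = Wd τ j v p := by
  unfold Wd
  rw [h.fderiv_eq]

theorem smooth_co (τ : Bool) (j : Fin 2) : ContDiff ℝ ∞ (co τ j) := by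
  cases τ
  · exact contDiff_apply ℝ ℂ j
  · exact (Complex.conjCLE : ℂ →L[ℝ] ℂ).contDiff.comp (contDiff_apply ℝ ℂ j)

theorem Wd_co (τ τ' : Bool) (j i : Fin 2) (p : Cn 2) :
    Wd τ j (co τ' i) p = if τ = τ' ∧ j = i then 1 else 0 := by
  cases τ'
  · have e : co false i = fun q : Cn 2 => q i := rfl
    rw [e]
    cases τ
    · rw [Wd_false, dz_coord]
      by_cases h : j = i <;> simp [h]
    · rw [Wd_true, dzbar_coord]
      simp
  · have e : co true i = fun q : Cn 2 => conj (q i) := rfl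
    rw [e]
    cases τ
    · rw [Wd_false, dz_cc]
      simp
    · rw [Wd_true, dzbar_cc]
      by_cases h : j = i <;> simp [h]

/-- the Laplacian -/
noncomputable def Lp (u : Cn 2 → ℂ) (w : Cn 2) : ℂ :=
  Wd false 0 (Wd true 0 u) w + Wd false 1 (Wd true 1 u) w

theorem smooth_Lp {u : Cn 2 → ℂ} (hu : ContDiff ℝ ∞ u) : ContDiff ℝ ∞ (Lp u) :=
  (smooth_Wd (smooth_Wd hu _ _) _ _).add (smooth_Wd (smooth_Wd hu _ _) _ _)

theorem Wd_comm' {u : Cn 2 → ℂ} (hu : ContDiff ℝ ∞ u) (τ τ' : Bool) (j k : Fin 2) :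
    Wd τ j (Wd τ' k u) = Wd τ' k (Wd τ j u) := by
  funext p
  exact Wd_comm (smooth_cd2 hu p) τ τ' j k

theorem Wd_Lp {u : Cn 2 → ℂ} (hu : ContDiff ℝ ∞ u) (τ : Bool) (j : Fin 2) :
    Wd τ j (Lp u) = Lp (Wd τ j u) := by
  have h : ∀ i : Fin 2, Wd τ j (Wd false i (Wd true i u)) = Wd false i (Wd true i (Wd τ j u)) := by
    intro i
    rw [Wd_comm' (smooth_Wd hu true i), Wd_comm' hu τ true j i]
  funext p
  have h1 : Wd τ j (Lp u) p = Wd τ j (Wd false 0 (Wd true 0 u)) p +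
      Wd τ j (Wd false 1 (Wd true 1 u)) p :=
    Wd_add (smooth_diff (smooth_Wd (smooth_Wd hu _ _) _ _) p)
      (smooth_diff (smooth_Wd (smooth_Wd hu _ _) _ _) p) τ j
  rw [h1, h, h]
  rfl

/-! ### Admissible functions -/

/-- smooth functions whose derivatives of order at most `6` are bounded by `M` -/
structure Adm (M : ℝ) (n : ℕ) (f : Cn 2 → ℂ) : Prop where
  smooth : ContDiff ℝ ∞ f
  bd : ∀ i ≤ n, Bd M i f

theorem Adm.Wd {M : ℝ} {n : ℕ} {f : Cn 2 → ℂ} (h : Adm M (n + 1) f) (τ : Bool) (j : Fin 2) :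
    Adm M n (Wd τ j f) :=
  ⟨smooth_Wd h.smooth τ j, fun i hi => h.bd (i + 1) (Nat.succ_le_succ hi) τ j⟩

theorem Adm.mono {M : ℝ} {n m : ℕ} {f : Cn 2 → ℂ} (h : Adm M n f) (hm : m ≤ n) : Adm M m f :=
  ⟨h.smooth, fun i hi => h.bd i (hi.trans hm)⟩

theorem Adm.pg {M : ℝ} {n : ℕ} {f : Cn 2 → ℂ} (h : Adm M n f) : PG f :=
  PG.bounded h.smooth.continuous (h.bd 0 (Nat.zero_le _))

/-- the constants -/
noncomputable def cc (j : ℕ) : ℝ := 4 ^ j * (mom j / Real.pi ^ 2)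

theorem cc_nonneg (j : ℕ) : 0 ≤ cc j := by
  have := mom_nonneg j
  unfold cc
  positivity

theorem euler {k M : ℝ} (hk : 0 < k) (hM : 0 ≤ M) {m n : ℕ} {G : Cn 2 → ℂ} (hG : Adm M n G)
    (hn : m + 1 ≤ n) (hn2 : 2 ≤ n) (hfl : Fl m G) :
    ‖(m : ℂ) * EE k G - (2 / k : ℝ) * EE k (Lp G)‖ ≤ M * cc (m + 1) / √k ^ (m + 1) := by
  have h2 : Adm M (1 + 1) G := hG.mono hn2
  have hpd : ∀ τ j, PG (Wd τ j G) := fun τ j => (h2.Wd τ j).pg
  have hpdd : ∀ τ' i τ j, PG (Wd τ' i (Wd τ j G)) := fun τ' i τ j => ((h2.Wd τ j).Wd τ' i).pg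
  -- the radial derivative
  have hR : EE k (Ro G) = (2 / k : ℝ) * EE k (Lp G) := by
    have e1 : Ro G = fun w => ((co false 0 w * Wd false 0 G w + co true 0 w * Wd true 0 G w) +
        (co false 1 w * Wd false 1 G w + co true 1 w * Wd true 1 G w)) := by
      funext w
      unfold Ro
      rw [fderiv_Wd_sum, Fin.sum_univ_two]
      ring
    have hp : ∀ τ τ' j, PG (fun w => co τ' j w * Wd τ j G w) := fun τ τ' j =>
      (PG_co τ' j).mul (hpd τ j)
    have hf : ∀ j, EE k (fun w => co false j w * Wd false j G w) =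
        (1 / k : ℝ) * EE k (Wd false j (Wd true j G)) := by
      intro j
      rw [Wd_comm' hG.smooth false true j j]
      exact ibp hk (smooth_Wd hG.smooth false j) (hpd false j) (fun τ i => hpdd τ i false j) true j
    have ht : ∀ j, EE k (fun w => co true j w * Wd true j G w) =
        (1 / k : ℝ) * EE k (Wd false j (Wd true j G)) := by
      intro j
      exact ibp hk (smooth_Wd hG.smooth true j) (hpd true j) (fun τ i => hpdd τ i true j) false j
    rw [e1, EE_add hk ((hp _ _ _).add (hp _ _ _)) ((hp _ _ _).add (hp _ _ _)),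
      EE_add hk (hp _ _ _) (hp _ _ _), EE_add hk (hp _ _ _) (hp _ _ _), hf, hf, ht, ht]
    have e2 : EE k (Lp G) = EE k (Wd false 0 (Wd true 0 G)) + EE k (Wd false 1 (Wd true 1 G)) :=
      EE_add hk (hpdd _ _ _ _) (hpdd _ _ _ _)
    rw [e2]
    push_cast
    ring
  have hPR : PG (Ro G) := by
    have e1 : Ro G = fun w => ((co false 0 w * Wd false 0 G w + co true 0 w * Wd true 0 G w) +
        (co false 1 w * Wd false 1 G w + co true 1 w * Wd true 1 G w)) := by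
      funext w
      unfold Ro
      rw [fderiv_Wd_sum, Fin.sum_univ_two]
      ring
    rw [e1]
    exact (((PG_co _ _).mul (hpd _ _)).add ((PG_co _ _).mul (hpd _ _))).add
      (((PG_co _ _).mul (hpd _ _)).add ((PG_co _ _).mul (hpd _ _)))
  rw [← hR, ← EE_const_mul, ← norm_neg, neg_sub, ← EE_sub hk hPR (hG.pg.const_mul _)]
  have h3 := EE_bound hk (G := fun w => Ro G w - m * G w) (c := 4 ^ (m + 1) * M) (by positivity)
    (m + 1) (fun w => Ro_bound hM m hG.smooth hfl (hG.bd _ hn) w)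
  refine h3.trans (le_of_eq ?_)
  unfold cc
  ring

/-- expectation of a Lipschitz function -/
theorem EE_lip {k M : ℝ} (hk : 0 < k) (hM : 0 ≤ M) {G : Cn 2 → ℂ} (hG : Adm M 1 G) :
    ‖EE k G - G 0‖ ≤ M * cc 1 / √k := by
  have h1 : ∀ w, ‖G w - G 0‖ ≤ 4 * M * ‖w‖ ^ 1 := by
    intro w
    exact mvt_aux (m := 0) hG.smooth hM (fun τ j w => by
      rw [pow_zero, mul_one]
      exact hG.bd 1 le_rfl τ j w) w
  have h2 := EE_bound hk (G := fun w => G w - G 0) (c := 4 * M) (by positivity) 1 h1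
  rw [EE_sub hk hG.pg (PG.const _), EE_const hk] at h2
  refine h2.trans (le_of_eq ?_)
  unfold cc
  ring

theorem EE_sup {k M : ℝ} (hk : 0 < k) (hM : 0 ≤ M) {G : Cn 2 → ℂ} {n : ℕ} (hG : Adm M n G) :
    ‖EE k G‖ ≤ M * cc 0 := by
  have h2 := EE_bound hk (G := G) (c := M) hM 0 (fun w => by
    rw [pow_zero, mul_one]
    exact hG.bd 0 (Nat.zero_le _) w)
  refine h2.trans (le_of_eq ?_)
  unfold cc
  ring

end Pool.Agent.Y486
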