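import Pool.Agent.Y486.LMain

/-!
# The main term: estimates
-/

set_option autoImplicit false

open scoped Manifold ContDiff Topology ComplexConjugate Matrix
open MeasureTheory Set Filter

namespace Pool.Agent.Y486

open Pool.Agent.W549.CY (Cn dz dzbar)
open Pool.Agent.TH997.CMan
open Complex (normSq)

theorem EE_Lp {k M : ℝ} (hk : 0 < k) {n : ℕ} {G : Cn 2 → ℂ} (hG : Adm M (n + 2) G) :
    EE k (Lp G) = EE k (Wd false 0 (Wd true 0 G)) + EE k (Wd false 1 (Wd true 1 G)) :=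
  EE_add hk ((hG.Wd _ _).Wd _ _).pg ((hG.Wd _ _).Wd _ _).pg

section est

variable {r k M : ℝ} {f H : Cn 2 → ℂ}

theorem flat1 (hr : 0 < r) (hk : k = r ^ 2) (hs : √k = r) (hM : 0 ≤ M) (hH : Adm M 2 H)
    (hfl : Fl 1 H) : ‖EE k H‖ ≤ M * (4 * cc 0 + cc 2) / r ^ 2 := by
  have hk0 : 0 < k := by rw [hk]; positivity
  have h1 := euler hk0 hM hH (m := 1) le_rfl le_rfl hfl
  rw [hs] at h1
  have h2 : ‖EE k (Lp H)‖ ≤ M * cc 0 + M * cc 0 := by
    rw [EE_Lp hk0 (n := 0) hH]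
    exact (norm_add_le _ _).trans (add_le_add (EE_sup hk0 hM ((hH.Wd _ _).Wd _ _))
      (EE_sup hk0 hM ((hH.Wd _ _).Wd _ _)))
  have h3 : ‖((2 / k : ℝ) : ℂ) * EE k (Lp H)‖ ≤ 4 * M * cc 0 / r ^ 2 := by
    rw [norm_mul, Complex.norm_real, Real.norm_of_nonneg (by positivity), hk]
    rw [hk] at h2
    calc 2 / r ^ 2 * ‖EE (r ^ 2) (Lp H)‖ ≤ 2 / r ^ 2 * (M * cc 0 + M * cc 0) :=
          mul_le_mul_of_nonneg_left h2 (by positivity)
      _ = _ := by ring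
  have h4 : EE k H = ((1 : ℕ) : ℂ) * EE k H - ((2 / k : ℝ) : ℂ) * EE k (Lp H) +
      ((2 / k : ℝ) : ℂ) * EE k (Lp H) := by
    push_cast
    ring
  rw [h4]
  refine (norm_add_le _ _).trans ((add_le_add h1 h3).trans (le_of_eq ?_))
  ring

theorem flat2 (hr : 0 < r) (hk : k = r ^ 2) (hs : √k = r) (hM : 0 ≤ M) (hH : Adm M 3 H)
    (hfl : Fl 2 H) : ‖(k : ℂ) * EE k H - EE k (Lp H)‖ ≤ M * cc 3 / r := by
  have hk0 : 0 < k := by rw [hk]; positivity
  have h1 := euler hk0 hM hH (m := 2) le_rfl (by norm_num) hfl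
  rw [hs] at h1
  have hkc : (k : ℂ) ≠ 0 := by exact_mod_cast hk0.ne'
  have e : (k : ℂ) * EE k H - EE k (Lp H) =
      ((k / 2 : ℝ) : ℂ) * (((2 : ℕ) : ℂ) * EE k H - ((2 / k : ℝ) : ℂ) * EE k (Lp H)) := by
    push_cast
    field_simp
  rw [e, norm_mul, Complex.norm_real, Real.norm_of_nonneg (by positivity)]
  have hc := cc_nonneg 3
  calc k / 2 * ‖((2 : ℕ) : ℂ) * EE k H - ((2 / k : ℝ) : ℂ) * EE k (Lp H)‖ ≤
        k / 2 * (M * cc (2 + 1) / r ^ (2 + 1)) := mul_le_mul_of_nonneg_left h1 (by positivity)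
    _ = M * cc 3 / r / 2 := by
        rw [hk]
        field_simp
        norm_num
        ring
    _ ≤ M * cc 3 / r := by
        have : 0 ≤ M * cc 3 / r := by positivity
        linarith

theorem flat3 (hr : 0 < r) (hk : k = r ^ 2) (hs : √k = r) (hM : 0 ≤ M) (hH : Adm M 4 H)
    (hfl : Fl 3 H) : ‖(k : ℂ) * EE k H - EE k (Lp H)‖ ≤ M * (4 * (4 * cc 0 + cc 2) + cc 4) / r ^ 2 := by
  have hk0 : 0 < k := by rw [hk]; positivity
  have hkc : (k : ℂ) ≠ 0 := by exact_mod_cast hk0.ne'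
  have h1 := euler hk0 hM hH (m := 3) le_rfl (by norm_num) hfl
  rw [hs] at h1
  set A : ℝ := 4 * cc 0 + cc 2 with hA
  have hA0 : 0 ≤ A := by
    have := cc_nonneg 0
    have := cc_nonneg 2
    positivity
  have hc4 := cc_nonneg 4
  have h2 : ‖EE k (Lp H)‖ ≤ 2 * (M * A / r ^ 2) := by
    rw [EE_Lp hk0 (n := 2) hH]
    refine (norm_add_le _ _).trans ((add_le_add
      (flat1 hr hk hs hM ((hH.Wd _ _).Wd _ _) ((hfl.2 _ _).2 _ _))
      (flat1 hr hk hs hM ((hH.Wd _ _).Wd _ _) ((hfl.2 _ _).2 _ _))).trans (le_of_eq ?_))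
    rw [hA]
    ring
  have e : (k : ℂ) * EE k H - EE k (Lp H) =
      ((k / 3 : ℝ) : ℂ) * (((3 : ℕ) : ℂ) * EE k H - ((2 / k : ℝ) : ℂ) * EE k (Lp H)) -
        ((1 / 3 : ℝ) : ℂ) * EE k (Lp H) := by
    push_cast
    field_simp
    ring
  rw [e]
  refine (norm_sub_le _ _).trans ?_
  rw [norm_mul, norm_mul, Complex.norm_real, Complex.norm_real,
    Real.norm_of_nonneg (by positivity : 0 ≤ k / 3), Real.norm_of_nonneg (by norm_num : (0:ℝ) ≤ 1 / 3)]
  calc k / 3 * ‖((3 : ℕ) : ℂ) * EE k H - ((2 / k : ℝ) : ℂ) * EE k (Lp H)‖ +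
        1 / 3 * ‖EE k (Lp H)‖ ≤ k / 3 * (M * cc (3 + 1) / r ^ (3 + 1)) +
        1 / 3 * (2 * (M * A / r ^ 2)) :=
        add_le_add (mul_le_mul_of_nonneg_left h1 (by positivity))
          (mul_le_mul_of_nonneg_left h2 (by norm_num))
    _ = (1 / 3 * (M * cc 4) + 2 / 3 * (M * A)) / r ^ 2 := by
        rw [hk]
        field_simp
        norm_num
        ring
    _ ≤ M * (4 * A + cc 4) / r ^ 2 := by
        apply div_le_div_of_nonneg_right _ (by positivity)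
        have t1 : 0 ≤ M * cc 4 := by positivity
        have t2 : 0 ≤ M * A := by positivity
        linarith

theorem Lp_Lp (hf : ContDiff ℝ ∞ f) (w : Cn 2) : Lp (Lp f) w =
    (Wd false 0 (Wd true 0 (Wd false 0 (Wd true 0 f))) w +
      Wd false 1 (Wd true 1 (Wd false 0 (Wd true 0 f))) w) +
    (Wd false 0 (Wd true 0 (Wd false 1 (Wd true 1 f))) w +
      Wd false 1 (Wd true 1 (Wd false 1 (Wd true 1 f))) w) := by
  have hs : ∀ i, ContDiff ℝ ∞ (Wd false i (Wd true i f)) := fun i => smooth_Wd (smooth_Wd hf _ _) _ _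
  have h1 : ∀ j, Wd true j (Lp f) = fun w => Wd true j (Wd false 0 (Wd true 0 f)) w +
      Wd true j (Wd false 1 (Wd true 1 f)) w := by
    intro j
    funext w
    exact Wd_add (smooth_diff (hs 0) w) (smooth_diff (hs 1) w) true j
  have h2 : ∀ j, Wd false j (Wd true j (Lp f)) w =
      Wd false j (Wd true j (Wd false 0 (Wd true 0 f))) w +
      Wd false j (Wd true j (Wd false 1 (Wd true 1 f))) w := by
    intro j
    rw [h1]
    exact Wd_add (smooth_diff (smooth_Wd (hs 0) _ _) w) (smooth_diff (smooth_Wd (hs 1) _ _) w) false j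
  show Wd false 0 (Wd true 0 (Lp f)) w + Wd false 1 (Wd true 1 (Lp f)) w = _
  rw [h2, h2]
  ring

theorem flat4 (hr : 0 < r) (hk : k = r ^ 2) (hs : √k = r) (hM : 0 ≤ M) (hf : Adm M 5 f)
    (hfl : Fl 4 f) : ‖(k : ℂ) * EE k f - EE k (Lp f) + ((1 / (2 * k) : ℝ) : ℂ) * Lp (Lp f) 0‖ ≤
      M * (cc 5 + cc 3 + 2 * cc 1) / r ^ 3 := by
  have hk0 : 0 < k := by rw [hk]; positivity
  have hkc : (k : ℂ) ≠ 0 := by exact_mod_cast hk0.ne'
  have hX := euler hk0 hM hf (m := 4) le_rfl (by norm_num) hfl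
  have hY := fun i => euler hk0 hM ((hf.Wd true i).Wd false i) (m := 2) le_rfl (by norm_num)
    ((hfl.2 true i).2 false i)
  have hZ := fun i j => EE_lip hk0 hM ((((hf.Wd true i).Wd false i).Wd true j).Wd false j)
  rw [hs] at hX
  simp only [hs] at hY hZ
  have hLf := EE_Lp hk0 (n := 3) hf
  have hLD := fun i => EE_Lp hk0 (n := 1) ((hf.Wd true i).Wd false i)
  rw [Lp_Lp hf.smooth]
  have hY0 := hY 0
  have hY1 := hY 1
  rw [hLD 0] at hY0
  rw [hLD 1] at hY1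
  rw [hLf] at hX ⊢
  have hZ00 := hZ 0 0
  have hZ01 := hZ 0 1
  have hZ10 := hZ 1 0
  have hZ11 := hZ 1 1
  -- abbreviations
  generalize EE k (Wd false 0 (Wd true 0 f)) = D0 at *
  generalize EE k (Wd false 1 (Wd true 1 f)) = D1 at *
  generalize EE k (Wd false 0 (Wd true 0 (Wd false 0 (Wd true 0 f)))) = D00 at *
  generalize EE k (Wd false 1 (Wd true 1 (Wd false 0 (Wd true 0 f)))) = D01 at *
  generalize EE k (Wd false 0 (Wd true 0 (Wd false 1 (Wd true 1 f)))) = D10 at *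
  generalize EE k (Wd false 1 (Wd true 1 (Wd false 1 (Wd true 1 f)))) = D11 at *
  generalize Wd false 0 (Wd true 0 (Wd false 0 (Wd true 0 f))) 0 = d00 at *
  generalize Wd false 1 (Wd true 1 (Wd false 0 (Wd true 0 f))) 0 = d01 at *
  generalize Wd false 0 (Wd true 0 (Wd false 1 (Wd true 1 f))) 0 = d10 at *
  generalize Wd false 1 (Wd true 1 (Wd false 1 (Wd true 1 f))) 0 = d11 at *
  generalize EE k f = E0 at *
  have e : (k : ℂ) * E0 - (D0 + D1) + ((1 / (2 * k) : ℝ) : ℂ) * ((d00 + d01) + (d10 + d11)) =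
      ((k / 4 : ℝ) : ℂ) * (((4 : ℕ) : ℂ) * E0 - ((2 / k : ℝ) : ℂ) * (D0 + D1)) -
      ((1 / 4 : ℝ) : ℂ) * ((((2 : ℕ) : ℂ) * D0 - ((2 / k : ℝ) : ℂ) * (D00 + D01)) +
        (((2 : ℕ) : ℂ) * D1 - ((2 / k : ℝ) : ℂ) * (D10 + D11))) -
      ((1 / (2 * k) : ℝ) : ℂ) * (((D00 - d00) + (D01 - d01)) + ((D10 - d10) + (D11 - d11))) := by
    push_cast
    field_simp
    ring
  rw [e]
  set X := ((4 : ℕ) : ℂ) * E0 - ((2 / k : ℝ) : ℂ) * (D0 + D1) with hXd
  set Y0 := ((2 : ℕ) : ℂ) * D0 - ((2 / k : ℝ) : ℂ) * (D00 + D01) with hY0d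
  set Y1 := ((2 : ℕ) : ℂ) * D1 - ((2 / k : ℝ) : ℂ) * (D10 + D11) with hY1d
  have hc1 := cc_nonneg 1
  have hc3 := cc_nonneg 3
  have hc5 := cc_nonneg 5
  have t1 : ‖((k / 4 : ℝ) : ℂ) * X‖ ≤ k / 4 * (M * cc (4 + 1) / r ^ (4 + 1)) := by
    rw [norm_mul, Complex.norm_real, Real.norm_of_nonneg (by positivity)]
    exact mul_le_mul_of_nonneg_left hX (by positivity)
  have t2 : ‖((1 / 4 : ℝ) : ℂ) * (Y0 + Y1)‖ ≤ 1 / 4 * (M * cc (2 + 1) / r ^ (2 + 1) +
      M * cc (2 + 1) / r ^ (2 + 1)) := by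
    rw [norm_mul, Complex.norm_real, Real.norm_of_nonneg (by norm_num)]
    exact mul_le_mul_of_nonneg_left ((norm_add_le _ _).trans (add_le_add hY0 hY1)) (by norm_num)
  have t3 : ‖((1 / (2 * k) : ℝ) : ℂ) * (((D00 - d00) + (D01 - d01)) + ((D10 - d10) + (D11 - d11)))‖ ≤
      1 / (2 * k) * ((M * cc 1 / r + M * cc 1 / r) + (M * cc 1 / r + M * cc 1 / r)) := by
    rw [norm_mul, Complex.norm_real, Real.norm_of_nonneg (by positivity)]
    refine mul_le_mul_of_nonneg_left ((norm_add_le _ _).trans (add_le_add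
      ((norm_add_le _ _).trans (add_le_add hZ00 hZ01))
      ((norm_add_le _ _).trans (add_le_add hZ10 hZ11)))) (by positivity)
  refine (norm_sub_le _ _).trans ((add_le_add ((norm_sub_le _ _).trans (add_le_add t1 t2)) t3).trans ?_)
  have e2 : k / 4 * (M * cc (4 + 1) / r ^ (4 + 1)) + 1 / 4 * (M * cc (2 + 1) / r ^ (2 + 1) +
      M * cc (2 + 1) / r ^ (2 + 1)) + 1 / (2 * k) * ((M * cc 1 / r + M * cc 1 / r) +
      (M * cc 1 / r + M * cc 1 / r)) = (M * cc 5 / 4 + M * cc 3 / 2 + 2 * (M * cc 1)) / r ^ 3 := by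
    rw [hk]
    norm_num
    field_simp
    ring
  rw [e2]
  apply div_le_div_of_nonneg_right _ (by positivity)
  have u1 : 0 ≤ M * cc 5 := by positivity
  have u2 : 0 ≤ M * cc 3 := by positivity
  linarith

end est

end Pool.Agent.Y486
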