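import Pool.Agent.Y486.LMain2

/-!
# The main term: the quadratic form
-/

set_option autoImplicit false

open scoped Manifold ContDiff Topology ComplexConjugate Matrix
open MeasureTheory Set Filter

namespace Pool.Agent.Y486

open Pool.Agent.W549.CY (Cn dz dzbar)
open Pool.Agent.TH997.CMan
open Complex (normSq)

/-- the first order part of the exponent -/
noncomputable def mm (k : ℝ) (f : Cn 2 → ℂ) (w : Cn 2) : ℂ := k * f w - Lp f w

section mm

variable {r k M : ℝ} {f : Cn 2 → ℂ}

theorem smooth_mm (k : ℝ) (hf : ContDiff ℝ ∞ f) : ContDiff ℝ ∞ (mm k f) :=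
  (contDiff_const.mul hf).sub (smooth_Lp hf)

theorem Wd_mm (k : ℝ) (hf : ContDiff ℝ ∞ f) (τ : Bool) (j : Fin 2) :
    Wd τ j (mm k f) = mm k (Wd τ j f) := by
  funext p
  have h1 : Wd τ j (mm k f) p = Wd τ j (fun w => k * f w) p - 1 * Wd τ j (Lp f) p := by
    have e : mm k f = fun w => (fun w => k * f w) w - 1 * Lp f w := by
      funext w
      unfold mm
      ring
    rw [e]
    exact Wd_sub_const_mul ((smooth_diff hf p).const_mul _) (smooth_diff (smooth_Lp hf) p) 1 τ j
  rw [h1, Wd_const_mul (smooth_diff hf p), Wd_Lp hf]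
  unfold mm
  ring

theorem Adm.pg_Lp {n : ℕ} (hf : Adm M (n + 2) f) : PG (Lp f) :=
  ((hf.Wd _ _).Wd _ _).pg.add ((hf.Wd _ _).Wd _ _).pg

theorem Adm.pg_mm {n : ℕ} (hf : Adm M (n + 2) f) (k : ℝ) : PG (mm k f) :=
  (hf.pg.const_mul _).sub hf.pg_Lp

theorem EE_mm (hk : 0 < k) {n : ℕ} (hf : Adm M (n + 2) f) :
    EE k (mm k f) = k * EE k f - EE k (Lp f) := by
  have h := EE_sub hk (hf.pg.const_mul (k : ℂ)) hf.pg_Lp
  rw [EE_const_mul] at h
  exact h

end mm

/-- the four products -/
theorem quad {k M : ℝ} (hk : 0 < k) {f : Cn 2 → ℂ} (hf : Adm M 5 f) (α : ℂ) (b : Fin 2 → ℂ) :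
    EE k (fun w => (α + k * (b 0 * co true 0 w + b 1 * co true 1 w)) *
      (conj α + k * (conj (b 0) * co false 0 w + conj (b 1) * co false 1 w)) * (1 + mm k f w)) =
    (α * conj α + k * (b 0 * conj (b 0) + b 1 * conj (b 1))) * (1 + EE k (mm k f)) +
      (conj α * (b 0 * EE k (mm k (Wd false 0 f)) + b 1 * EE k (mm k (Wd false 1 f))) +
        α * (conj (b 0) * EE k (mm k (Wd true 0 f)) + conj (b 1) * EE k (mm k (Wd true 1 f)))) +
      (b 0 * conj (b 0) * EE k (mm k (Wd true 0 (Wd false 0 f))) +
        b 0 * conj (b 1) * EE k (mm k (Wd true 1 (Wd false 0 f))) +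
        b 1 * conj (b 0) * EE k (mm k (Wd true 0 (Wd false 1 f))) +
        b 1 * conj (b 1) * EE k (mm k (Wd true 1 (Wd false 1 f)))) := by
  have hkc : (k : ℂ) ≠ 0 := by exact_mod_cast hk.ne'
  set G : Cn 2 → ℂ := fun w => 1 + mm k f w with hG
  have hGs : ContDiff ℝ ∞ G := contDiff_const.add (smooth_mm k hf.smooth)
  have hGp : PG G := (PG.const 1).add (hf.pg_mm k (n := 3))
  have hGd : ∀ τ j, Wd τ j G = mm k (Wd τ j f) := by
    intro τ j
    rw [← Wd_mm k hf.smooth]
    funext p
    have h1 : Wd τ j G p = Wd τ j (fun _ => (1 : ℂ)) p + Wd τ j (mm k f) p :=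
      Wd_add (differentiableAt_const _) (smooth_diff (smooth_mm k hf.smooth) p) τ j
    rw [h1, Wd_const, zero_add]
  have hGdp : ∀ τ j, PG (Wd τ j G) := by
    intro τ j
    rw [hGd]
    exact (hf.Wd τ j).pg_mm k (n := 2)
  have hGdd : ∀ τ' i τ j, Wd τ' i (Wd τ j G) = mm k (Wd τ' i (Wd τ j f)) := by
    intro τ' i τ j
    rw [hGd, Wd_mm k (smooth_Wd hf.smooth _ _)]
  have hGddp : ∀ τ' i τ j, PG (Wd τ' i (Wd τ j G)) := by
    intro τ' i τ j
    rw [hGdd]
    exact ((hf.Wd τ j).Wd τ' i).pg_mm k (n := 1)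
  -- first order
  have h1 : ∀ τ j, (k : ℂ) * EE k (fun w => co (!τ) j w * G w) = EE k (mm k (Wd τ j f)) := by
    intro τ j
    rw [ibp hk hGs hGp hGdp τ j, hGd]
    push_cast
    field_simp
  -- second order
  have h2 : ∀ j i, (k : ℂ) * (k * EE k (fun w => co true j w * (co false i w * G w))) =
      (if j = i then (k : ℂ) * (1 + EE k (mm k f)) else 0) +
        EE k (mm k (Wd true i (Wd false j f))) := by
    intro j i
    have hs : ContDiff ℝ ∞ fun w => co false i w * G w := (smooth_co _ _).mul hGs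
    have hd : ∀ τ l, Wd τ l (fun w => co false i w * G w) = fun w =>
        (if τ = false ∧ l = i then 1 else 0) * G w + co false i w * Wd τ l G w := by
      intro τ l
      funext w
      rw [Wd_mul (smooth_diff (smooth_co _ _) w) (smooth_diff hGs w), Wd_co]
    have hdp : ∀ τ l, PG (Wd τ l (fun w => co false i w * G w)) := by
      intro τ l
      rw [hd]
      exact (hGp.const_mul _).add ((PG_co _ _).mul (hGdp _ _))
    have h3 := ibp hk hs ((PG_co _ _).mul hGp) hdp false j
    have h4 : EE k (fun w => co true j w * (co false i w * G w)) =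
        EE k (fun w => co (!false) j w * (co false i w * G w)) := rfl
    rw [h4, h3, hd, EE_add hk (hGp.const_mul _) ((PG_co _ _).mul (hGdp _ _)), EE_const_mul]
    have h5 : (k : ℂ) * EE k (fun w => co false i w * Wd false j G w) =
        EE k (mm k (Wd true i (Wd false j f))) := by
      have h6 : EE k (fun w => co false i w * Wd false j G w) =
          EE k (fun w => co (!true) i w * Wd false j G w) := rfl
      rw [h6, ibp hk (smooth_Wd hGs false j) (hGdp false j) (fun τ l => hGddp τ l false j) true i,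
        hGdd]
      push_cast
      field_simp
    have h7 : EE k G = 1 + EE k (mm k f) := by
      have := EE_add hk (PG.const 1) (hf.pg_mm k (n := 3))
      rw [EE_one hk] at this
      exact this
    rw [h7]
    have h8 : (k : ℂ) * (k * (((1 / k : ℝ) : ℂ) *
        ((if false = false ∧ j = i then (1 : ℂ) else 0) * (1 + EE k (mm k f)) +
          EE k (fun w => co false i w * Wd false j G w)))) =
        (k : ℂ) * ((if false = false ∧ j = i then (1 : ℂ) else 0) * (1 + EE k (mm k f))) +
          (k : ℂ) * EE k (fun w => co false i w * Wd false j G w) := by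
      push_cast
      field_simp
    rw [h8, h5]
    by_cases hji : j = i <;> simp [hji]
  -- expansion
  have hp1 : ∀ τ j, PG fun w => co τ j w * G w := fun τ j => (PG_co _ _).mul hGp
  have hp2 : ∀ j i, PG fun w => co true j w * (co false i w * G w) := fun j i =>
    (PG_co _ _).mul (hp1 _ _)
  have e1 : (fun w => (α + k * (b 0 * co true 0 w + b 1 * co true 1 w)) *
      (conj α + k * (conj (b 0) * co false 0 w + conj (b 1) * co false 1 w)) * (1 + mm k f w)) =
      fun w => (α * conj α) * G w +
        (((conj α * (k * b 0)) * (co true 0 w * G w) + (conj α * (k * b 1)) * (co true 1 w * G w)) +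
        ((α * (k * conj (b 0))) * (co false 0 w * G w) +
          (α * (k * conj (b 1))) * (co false 1 w * G w))) +
        (((k * k * (b 0 * conj (b 0))) * (co true 0 w * (co false 0 w * G w)) +
          (k * k * (b 0 * conj (b 1))) * (co true 0 w * (co false 1 w * G w))) +
        ((k * k * (b 1 * conj (b 0))) * (co true 1 w * (co false 0 w * G w)) +
          (k * k * (b 1 * conj (b 1))) * (co true 1 w * (co false 1 w * G w)))) := by
    funext w
    rw [hG]
    ring
  have h7 : EE k G = 1 + EE k (mm k f) := by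
    have := EE_add hk (PG.const 1) (hf.pg_mm k (n := 3))
    rw [EE_one hk] at this
    exact this
  rw [e1, EE_add hk ((hGp.const_mul _).add ((((hp1 _ _).const_mul _).add ((hp1 _ _).const_mul _)).add
      (((hp1 _ _).const_mul _).add ((hp1 _ _).const_mul _))))
      ((((hp2 _ _).const_mul _).add ((hp2 _ _).const_mul _)).add
      (((hp2 _ _).const_mul _).add ((hp2 _ _).const_mul _))),
    EE_add hk (hGp.const_mul _) ((((hp1 _ _).const_mul _).add ((hp1 _ _).const_mul _)).add
      (((hp1 _ _).const_mul _).add ((hp1 _ _).const_mul _))),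
    EE_add hk (((hp1 _ _).const_mul _).add ((hp1 _ _).const_mul _))
      (((hp1 _ _).const_mul _).add ((hp1 _ _).const_mul _)),
    EE_add hk ((hp1 _ _).const_mul _) ((hp1 _ _).const_mul _),
    EE_add hk ((hp1 _ _).const_mul _) ((hp1 _ _).const_mul _),
    EE_add hk (((hp2 _ _).const_mul _).add ((hp2 _ _).const_mul _))
      (((hp2 _ _).const_mul _).add ((hp2 _ _).const_mul _)),
    EE_add hk ((hp2 _ _).const_mul _) ((hp2 _ _).const_mul _),
    EE_add hk ((hp2 _ _).const_mul _) ((hp2 _ _).const_mul _)]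
  simp only [EE_const_mul]
  rw [h7, ← h1 false 0, ← h1 false 1, ← h1 true 0, ← h1 true 1]
  have g00 := h2 0 0
  have g01 := h2 0 1
  have g10 := h2 1 0
  have g11 := h2 1 1
  simp only [if_true, if_false, zero_add, zero_ne_one, one_ne_zero] at g00 g01 g10 g11
  simp only [Bool.not_false, Bool.not_true]
  linear_combination (b 0 * conj (b 0)) * g00 + (b 0 * conj (b 1)) * g01 +
    (b 1 * conj (b 0)) * g10 + (b 1 * conj (b 1)) * g11

end Pool.Agent.Y486
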