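import Pool.Agent.Y486.LMain3

/-!
# The main term: the final estimate
-/

set_option autoImplicit false

open scoped Manifold ContDiff Topology ComplexConjugate Matrix
open MeasureTheory Set Filter

namespace Pool.Agent.Y486

open Pool.Agent.W549.CY (Cn dz dzbar)
open Pool.Agent.TH997.CMan
open Complex (normSq)

/-- the quadratic form in the parameters -/
noncomputable def TT (k : ℝ) (α : ℂ) (b : Fin 2 → ℂ) : ℝ :=
  normSq α + k * (normSq (b 0) + normSq (b 1))

theorem TT_nonneg {k : ℝ} (hk : 0 ≤ k) (α : ℂ) (b : Fin 2 → ℂ) : 0 ≤ TT k α b := by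
  unfold TT
  have h0 := Complex.normSq_nonneg α
  have h1 := Complex.normSq_nonneg (b 0)
  have h2 := Complex.normSq_nonneg (b 1)
  positivity

/-- the constant -/
noncomputable def cE : ℝ := (cc 5 + cc 3 + 2 * cc 1) + 2 * (4 * (4 * cc 0 + cc 2) + cc 4) + 2 * cc 3

theorem cE_nonneg : 0 ≤ cE := by
  have h0 := cc_nonneg 0
  have h1 := cc_nonneg 1
  have h2 := cc_nonneg 2
  have h3 := cc_nonneg 3
  have h4 := cc_nonneg 4
  have h5 := cc_nonneg 5
  unfold cE
  positivity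

theorem main_exp {k M : ℝ} (hk : 0 < k) (hM : 0 ≤ M) {f : Cn 2 → ℂ} (hf : Adm M 5 f)
    (hfl : Fl 4 f) (α : ℂ) (b : Fin 2 → ℂ) :
    (EE k (fun w => (α + k * (b 0 * co true 0 w + b 1 * co true 1 w)) *
      (conj α + k * (conj (b 0) * co false 0 w + conj (b 1) * co false 1 w)) *
        (1 + mm k f w))).re ≤
      TT k α b * (1 - (Lp (Lp f) 0).re / (2 * k) + M * cE / √k ^ 3) := by
  rw [quad hk hf α b]
  set r : ℝ := √k with hr
  have hr0 : 0 < r := Real.sqrt_pos.2 hk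
  have hkr : k = r ^ 2 := (Real.sq_sqrt hk.le).symm
  have hT0 := TT_nonneg hk.le α b
  set A4 : ℝ := cc 5 + cc 3 + 2 * cc 1 with hA4
  set A3 : ℝ := 4 * (4 * cc 0 + cc 2) + cc 4 with hA3
  have hA30 : 0 ≤ A3 := by
    have h0 := cc_nonneg 0
    have h2 := cc_nonneg 2
    have h4 := cc_nonneg 4
    positivity
  have hc3 := cc_nonneg 3
  -- the estimates
  have hx : ‖EE k (mm k f) + ((1 / (2 * k) : ℝ) : ℂ) * Lp (Lp f) 0‖ ≤ M * A4 / r ^ 3 := by
    rw [EE_mm hk (n := 3) hf]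
    exact flat4 hr0 hkr hr.symm hM hf hfl
  have hy : ∀ τ j, ‖EE k (mm k (Wd τ j f))‖ ≤ M * A3 / r ^ 2 := by
    intro τ j
    rw [EE_mm hk (n := 2) (hf.Wd τ j)]
    exact flat3 hr0 hkr hr.symm hM (hf.Wd τ j) (hfl.2 τ j)
  have hz : ∀ i j, ‖EE k (mm k (Wd true i (Wd false j f)))‖ ≤ M * cc 3 / r := by
    intro i j
    rw [EE_mm hk (n := 1) ((hf.Wd false j).Wd true i)]
    exact flat2 hr0 hkr hr.symm hM ((hf.Wd false j).Wd true i) ((hfl.2 false j).2 true i)
  generalize EE k (mm k f) = x at *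
  have hy0 := hy false 0
  have hy1 := hy false 1
  have hy0' := hy true 0
  have hy1' := hy true 1
  have hz00 := hz 0 0
  have hz10 := hz 1 0
  have hz01 := hz 0 1
  have hz11 := hz 1 1
  generalize EE k (mm k (Wd false 0 f)) = y0 at *
  generalize EE k (mm k (Wd false 1 f)) = y1 at *
  generalize EE k (mm k (Wd true 0 f)) = y0' at *
  generalize EE k (mm k (Wd true 1 f)) = y1' at *
  generalize EE k (mm k (Wd true 0 (Wd false 0 f))) = z00 at *
  generalize EE k (mm k (Wd true 1 (Wd false 0 f))) = z10 at *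
  generalize EE k (mm k (Wd true 0 (Wd false 1 f))) = z01 at *
  generalize EE k (mm k (Wd true 1 (Wd false 1 f))) = z11 at *
  generalize Lp (Lp f) 0 = L at *
  -- the first term
  have eT : α * conj α + k * (b 0 * conj (b 0) + b 1 * conj (b 1)) = (TT k α b : ℂ) := by
    unfold TT
    push_cast
    rw [Complex.mul_conj, Complex.mul_conj, Complex.mul_conj]
  rw [eT, Complex.add_re, Complex.add_re, Complex.re_ofReal_mul, Complex.add_re, Complex.one_re]
  have hx' : x.re ≤ -(L.re / (2 * k)) + M * A4 / r ^ 3 := by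
    have h1 := (Complex.re_le_norm _).trans hx
    rw [Complex.add_re, Complex.re_ofReal_mul] at h1
    have : 1 / (2 * k) * L.re = L.re / (2 * k) := by ring
    linarith
  -- the second term
  set a : ℝ := ‖α‖ with ha
  set s : ℝ := ‖b 0‖ + ‖b 1‖ with hs
  have ha0 : 0 ≤ a := norm_nonneg _
  have hs0 : 0 ≤ s := by positivity
  have h2 : (conj α * (b 0 * y0 + b 1 * y1) + α * (conj (b 0) * y0' + conj (b 1) * y1')).re ≤
      2 * (a * s * (M * A3 / r ^ 2)) := by
    refine (Complex.re_le_norm _).trans ((norm_add_le _ _).trans ?_)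
    have t1 : ‖conj α * (b 0 * y0 + b 1 * y1)‖ ≤ a * s * (M * A3 / r ^ 2) := by
      rw [norm_mul, RCLike.norm_conj, ← ha, mul_assoc]
      refine mul_le_mul_of_nonneg_left ?_ ha0
      refine (norm_add_le _ _).trans ?_
      rw [norm_mul, norm_mul, hs, add_mul]
      exact add_le_add (mul_le_mul_of_nonneg_left hy0 (norm_nonneg _))
        (mul_le_mul_of_nonneg_left hy1 (norm_nonneg _))
    have t2 : ‖α * (conj (b 0) * y0' + conj (b 1) * y1')‖ ≤ a * s * (M * A3 / r ^ 2) := by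
      rw [norm_mul, ← ha, mul_assoc]
      refine mul_le_mul_of_nonneg_left ?_ ha0
      refine (norm_add_le _ _).trans ?_
      rw [norm_mul, norm_mul, RCLike.norm_conj, RCLike.norm_conj, hs, add_mul]
      exact add_le_add (mul_le_mul_of_nonneg_left hy0' (norm_nonneg _))
        (mul_le_mul_of_nonneg_left hy1' (norm_nonneg _))
    linarith
  -- the third term
  have h3 : (b 0 * conj (b 0) * z00 + b 0 * conj (b 1) * z10 + b 1 * conj (b 0) * z01 +
      b 1 * conj (b 1) * z11).re ≤ s ^ 2 * (M * cc 3 / r) := by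
    refine (Complex.re_le_norm _).trans ?_
    have t : ∀ (u v z : ℂ), ‖z‖ ≤ M * cc 3 / r → ‖u * conj v * z‖ ≤ ‖u‖ * ‖v‖ * (M * cc 3 / r) := by
      intro u v z hz
      rw [norm_mul, norm_mul, RCLike.norm_conj]
      exact mul_le_mul_of_nonneg_left hz (by positivity)
    have t00 := t (b 0) (b 0) z00 hz00
    have t10 := t (b 0) (b 1) z10 hz10
    have t01 := t (b 1) (b 0) z01 hz01
    have t11 := t (b 1) (b 1) z11 hz11
    refine (norm_add_le _ _).trans ((add_le_add ((norm_add_le _ _).trans (add_le_add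
      ((norm_add_le _ _).trans (add_le_add t00 t10)) t01)) t11).trans (le_of_eq ?_))
    rw [hs]
    ring
  -- comparison with `T`
  have hTe : TT k α b = a ^ 2 + r ^ 2 * (‖b 0‖ ^ 2 + ‖b 1‖ ^ 2) := by
    unfold TT
    rw [Complex.normSq_eq_norm_sq, Complex.normSq_eq_norm_sq, Complex.normSq_eq_norm_sq, ← hkr]
  have hs2 : s ^ 2 ≤ 2 * (‖b 0‖ ^ 2 + ‖b 1‖ ^ 2) := by
    rw [hs]
    nlinarith [sq_nonneg (‖b 0‖ - ‖b 1‖)]
  have c1 : a * s * r ≤ TT k α b := by
    rw [hTe]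
    have : 0 ≤ (a - r * s) ^ 2 := sq_nonneg _
    have h5 : r ^ 2 * s ^ 2 ≤ r ^ 2 * (2 * (‖b 0‖ ^ 2 + ‖b 1‖ ^ 2)) :=
      mul_le_mul_of_nonneg_left hs2 (sq_nonneg _)
    nlinarith
  have c2 : s ^ 2 * r ^ 2 ≤ 2 * TT k α b := by
    rw [hTe]
    have h5 : r ^ 2 * s ^ 2 ≤ r ^ 2 * (2 * (‖b 0‖ ^ 2 + ‖b 1‖ ^ 2)) :=
      mul_le_mul_of_nonneg_left hs2 (sq_nonneg _)
    nlinarith [sq_nonneg a]
  have d1 : a * s * (M * A3 / r ^ 2) ≤ TT k α b * (M * A3 / r ^ 3) := by
    have : a * s * (M * A3 / r ^ 2) = (a * s * r) * (M * A3 / r ^ 3) := by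
      field_simp
    rw [this]
    exact mul_le_mul_of_nonneg_right c1 (by positivity)
  have d2 : s ^ 2 * (M * cc 3 / r) ≤ 2 * TT k α b * (M * cc 3 / r ^ 3) := by
    have : s ^ 2 * (M * cc 3 / r) = (s ^ 2 * r ^ 2) * (M * cc 3 / r ^ 3) := by
      field_simp
    rw [this]
    exact mul_le_mul_of_nonneg_right c2 (by positivity)
  have d3 : TT k α b * (1 + x.re) ≤ TT k α b * (1 + (-(L.re / (2 * k)) + M * A4 / r ^ 3)) :=
    mul_le_mul_of_nonneg_left (by linarith) hT0
  have e : TT k α b * (1 - L.re / (2 * k) + M * cE / r ^ 3) =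
      TT k α b * (1 + (-(L.re / (2 * k)) + M * A4 / r ^ 3)) + 2 * (TT k α b * (M * A3 / r ^ 3)) +
        2 * TT k α b * (M * cc 3 / r ^ 3) := by
    unfold cE
    rw [← hA4, ← hA3]
    ring
  rw [e]
  linarith

end Pool.Agent.Y486
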