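import Pool.Agent.Y486.LMain4

/-!
# The mean value property
-/

set_option autoImplicit false

open scoped Manifold ContDiff Topology ComplexConjugate Matrix
open MeasureTheory Set Filter

namespace Pool.Agent.Y486

open Pool.Agent.W549.CY (Cn dz dzbar)
open Pool.Agent.TH997.CMan
open Complex (normSq)

theorem mp_rot (c : Circle) : MeasurePreserving (fun w : Cn 2 => (c : ℂ) • w) := by
  have h1 : ∀ _ : Fin 2, MeasurePreserving (fun z : ℂ => rotation c z) := fun _ =>
    (rotation c).measurePreserving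
  exact volume_preserving_pi h1

theorem norm_rot (c : Circle) (w : Cn 2) : ‖(c : ℂ) • w‖ = ‖w‖ := by
  rw [norm_smul, Circle.norm_coe, one_mul]

theorem int_rot (c : Circle) (δ : ℝ) (h : Cn 2 → ℂ) :
    ∫ w in Metric.ball (0 : Cn 2) δ, h ((c : ℂ) • w) = ∫ w in Metric.ball (0 : Cn 2) δ, h w := by
  have hemb : MeasurableEmbedding (fun w : Cn 2 => (c : ℂ) • w) :=
    (Homeomorph.smulOfNeZero (c : ℂ) (Circle.coe_ne_zero c)).measurableEmbedding
  have h1 := (mp_rot c).setIntegral_preimage_emb hemb h (Metric.ball (0 : Cn 2) δ)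
  rw [← h1]
  congr 2
  ext w
  simp only [mem_preimage, mem_ball_zero_iff, norm_rot]

theorem rot_avg {δ : ℝ} {h : Cn 2 → ℂ} (hc : ContinuousOn h (Metric.closedBall 0 δ)) :
    ∫ w in Metric.ball (0 : Cn 2) δ, h w =
      ∫ w in Metric.ball (0 : Cn 2) δ, Real.circleAverage (fun ζ : ℂ => h (ζ • w)) 0 1 := by
  have hpi := Real.pi_pos
  have h2 : (0 : ℝ) ≤ 2 * Real.pi := by positivity
  have hcm : ∀ θ : ℝ, circleMap 0 1 θ = (Circle.exp θ : ℂ) := by
    intro θ
    simp [circleMap]
  have hI : ∀ θ : ℝ, ∫ w in Metric.ball (0 : Cn 2) δ, h (circleMap 0 1 θ • w) =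
      ∫ w in Metric.ball (0 : Cn 2) δ, h w := by
    intro θ
    rw [hcm]
    exact int_rot _ δ h
  have hint : Integrable (Function.uncurry fun (θ : ℝ) (w : Cn 2) => h (circleMap 0 1 θ • w))
      ((volume.restrict (Ioc 0 (2 * Real.pi))).prod (volume.restrict (Metric.ball (0 : Cn 2) δ))) := by
    rw [Measure.prod_restrict]
    have hK : IsCompact (Icc 0 (2 * Real.pi) ×ˢ Metric.closedBall (0 : Cn 2) δ) :=
      isCompact_Icc.prod (isCompact_closedBall _ _)
    have hcont : ContinuousOn (Function.uncurry fun (θ : ℝ) (w : Cn 2) => h (circleMap 0 1 θ • w))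
        (Icc 0 (2 * Real.pi) ×ˢ Metric.closedBall (0 : Cn 2) δ) := by
      have h3 : Continuous fun x : ℝ × Cn 2 => circleMap 0 1 x.1 • x.2 :=
        ((continuous_circleMap 0 1).comp continuous_fst).smul continuous_snd
      refine hc.comp h3.continuousOn fun x hx => ?_
      rw [mem_closedBall_zero_iff]
      show ‖circleMap 0 1 x.1 • x.2‖ ≤ δ
      rw [hcm, norm_rot]
      exact mem_closedBall_zero_iff.1 hx.2
    exact (hcont.integrableOn_compact hK).mono_set
      (prod_mono Ioc_subset_Icc_self Metric.ball_subset_closedBall)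
  have hswap := integral_integral_swap hint
  have e1 : ∫ θ in Ioc 0 (2 * Real.pi), ∫ w in Metric.ball (0 : Cn 2) δ, h (circleMap 0 1 θ • w) =
      ((2 * Real.pi : ℝ) : ℂ) * ∫ w in Metric.ball (0 : Cn 2) δ, h w := by
    simp only [hI]
    rw [integral_const]
    simp [h2]
  have e2 : ∫ w in Metric.ball (0 : Cn 2) δ, Real.circleAverage (fun ζ : ℂ => h (ζ • w)) 0 1 =
      ((2 * Real.pi : ℝ) : ℂ)⁻¹ * ∫ w in Metric.ball (0 : Cn 2) δ,
        ∫ θ in Ioc 0 (2 * Real.pi), h (circleMap 0 1 θ • w) := by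
    rw [← integral_const_mul]
    refine integral_congr_ae (Filter.Eventually.of_forall fun w => ?_)
    show Real.circleAverage (fun ζ : ℂ => h (ζ • w)) 0 1 = _
    rw [Real.circleAverage_def, intervalIntegral.integral_of_le h2, Complex.real_smul]
    push_cast
    rfl
  rw [e2, ← hswap, e1]
  have : ((2 * Real.pi : ℝ) : ℂ) ≠ 0 := by exact_mod_cast (by positivity : (2 * Real.pi : ℝ) ≠ 0)
  field_simp

section mv

variable {δ : ℝ} {f : Cn 2 → ℂ}

theorem gk_rot (k : ℝ) {ζ : ℂ} (hζ : ‖ζ‖ = 1) (w : Cn 2) : gk k (ζ • w) = gk k w := by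
  unfold gk NN2
  have h : ∀ j : Fin 2, normSq ((ζ • w) j) = normSq (w j) := by
    intro j
    show normSq (ζ * w j) = _
    rw [map_mul, Complex.normSq_eq_norm_sq, hζ]
    ring
  rw [h, h]

theorem line_diff (hf : DifferentiableOn ℂ f (Metric.ball 0 (2 * δ))) {w : Cn 2}
    (hw : w ∈ Metric.ball (0 : Cn 2) δ) :
    DifferentiableOn ℂ (fun ζ : ℂ => f (ζ • w)) (Metric.ball 0 2) := by
  refine hf.comp (differentiableOn_id.smul_const w) fun ζ hζ => ?_
  have h1 : ‖ζ‖ < 2 := mem_ball_zero_iff.1 hζ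
  have h2 : ‖w‖ < δ := mem_ball_zero_iff.1 hw
  rw [mem_ball_zero_iff]
  show ‖ζ • w‖ < 2 * δ
  rw [norm_smul]
  calc ‖ζ‖ * ‖w‖ ≤ 2 * ‖w‖ := mul_le_mul_of_nonneg_right h1.le (norm_nonneg _)
    _ < 2 * δ := by linarith

theorem cont_f (hδ : 0 < δ) (hf : DifferentiableOn ℂ f (Metric.ball 0 (2 * δ))) :
    ContinuousOn f (Metric.closedBall 0 δ) :=
  hf.continuousOn.mono (Metric.closedBall_subset_ball (by linarith))

/-- The mean value property. -/
theorem mv0 (hδ : 0 < δ) (hf : DifferentiableOn ℂ f (Metric.ball 0 (2 * δ))) (k : ℝ) :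
    ∫ w in Metric.ball (0 : Cn 2) δ, f w * (gk k w : ℂ) =
      f 0 * ∫ w in Metric.ball (0 : Cn 2) δ, (gk k w : ℂ) := by
  have hgc : Continuous fun w : Cn 2 => (gk k w : ℂ) :=
    Complex.continuous_ofReal.comp (smooth_gk k).continuous
  have hcc : ContinuousOn (fun w => f w * (gk k w : ℂ)) (Metric.closedBall 0 δ) :=
    (cont_f hδ hf).mul hgc.continuousOn
  rw [rot_avg hcc, ← integral_const_mul]
  refine setIntegral_congr_fun Metric.isOpen_ball.measurableSet fun w hw => ?_
  show Real.circleAverage (fun ζ : ℂ => f (ζ • w) * (gk k (ζ • w) : ℂ)) 0 1 = f 0 * (gk k w : ℂ)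
  have h1 : DiffContOnCl ℂ (fun ζ : ℂ => f (ζ • w) * (gk k w : ℂ)) (Metric.ball 0 |1|) := by
    refine DifferentiableOn.diffContOnCl_ball (U := Metric.ball 0 2) ?_ ?_
    · exact (line_diff hf hw).mul_const _
    · rw [abs_one]
      exact Metric.closedBall_subset_ball (by norm_num)
  have h2 := h1.circleAverage
  rw [zero_smul] at h2
  rw [← h2]
  apply Real.circleAverage_congr_sphere
  intro ζ hζ
  have hζ' : ‖ζ‖ = 1 := by simpa using hζ
  show f (ζ • w) * (gk k (ζ • w) : ℂ) = f (ζ • w) * (gk k w : ℂ)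
  rw [gk_rot k hζ']

/-- derivative of the restriction to a line -/
theorem line_deriv (hδ : 0 < δ) (hf : DifferentiableOn ℂ f (Metric.ball 0 (2 * δ))) (w : Cn 2) :
    deriv (fun ζ : ℂ => f (ζ • w)) 0 = w 0 * dz 0 f 0 + w 1 * dz 1 f 0 := by
  have h0 : DifferentiableAt ℂ f 0 :=
    hf.differentiableAt (Metric.ball_mem_nhds 0 (by positivity))
  have h1 : HasDerivAt (fun ζ : ℂ => ζ • w) w 0 := by
    simpa using (hasDerivAt_id (0 : ℂ)).smul_const w
  have h2 : HasDerivAt (fun ζ : ℂ => f (ζ • w)) (fderiv ℂ f 0 w) 0 := by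
    have h3 : HasFDerivAt f (fderiv ℂ f 0) ((0 : ℂ) • w) := by
      rw [zero_smul]
      exact h0.hasFDerivAt
    exact h3.comp_hasDerivAt (0 : ℂ) h1
  rw [h2.deriv]
  have hR : fderiv ℝ f 0 = (fderiv ℂ f 0).restrictScalars ℝ :=
    (h0.hasFDerivAt.restrictScalars ℝ).fderiv
  have h4 := fderiv_Wd_sum f 0 w
  rw [hR] at h4
  have h5 : fderiv ℂ f 0 w = _ := h4
  rw [h5, Fin.sum_univ_two, Wd_false, Wd_true, Wd_false, Wd_true, dzbar_hol h0, dzbar_hol h0]
  show dz 0 f 0 * w 0 + 0 * _ + (dz 1 f 0 * w 1 + 0 * _) = _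
  ring

theorem avg_deriv (hδ : 0 < δ) (hf : DifferentiableOn ℂ f (Metric.ball 0 (2 * δ))) {w : Cn 2}
    (hw : w ∈ Metric.ball (0 : Cn 2) δ) :
    Real.circleAverage (fun ζ : ℂ => conj ζ * f (ζ • w)) 0 1 = w 0 * dz 0 f 0 + w 1 * dz 1 f 0 := by
  rw [← line_deriv hδ hf w]
  have h1 := Complex.two_pi_I_inv_smul_circleIntegral_sub_sq_inv_smul_of_differentiable
    (Metric.isOpen_ball (x := (0 : ℂ)) (ε := 2)) (c := 0) (w₀ := 0) (R := 1)
    (Metric.closedBall_subset_ball (by norm_num)) (line_diff hf hw)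
    (Metric.mem_ball_self one_pos)
  rw [← h1, Real.circleAverage_def, circleIntegral, Complex.real_smul, smul_eq_mul]
  have e : ∀ θ : ℝ, deriv (circleMap 0 1) θ • ((circleMap 0 1 θ - 0) ^ 2)⁻¹ •
      (fun ζ : ℂ => f (ζ • w)) (circleMap 0 1 θ) =
      Complex.I * (conj (circleMap 0 1 θ) * f (circleMap 0 1 θ • w)) := by
    intro θ
    have hn : ‖circleMap 0 1 θ‖ = 1 := by simp
    have hne : circleMap 0 1 θ ≠ 0 := by
      intro h
      rw [h] at hn
      simp at hn
    have hcj : conj (circleMap 0 1 θ) = (circleMap 0 1 θ)⁻¹ := by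
      rw [Complex.inv_def, Complex.normSq_eq_norm_sq, hn]
      simp
    rw [deriv_circleMap, hcj, sub_zero, smul_eq_mul, smul_eq_mul]
    field_simp
  simp only [e]
  rw [intervalIntegral.integral_const_mul]
  have hI : Complex.I ≠ 0 := Complex.I_ne_zero
  have hpi : (Real.pi : ℂ) ≠ 0 := by exact_mod_cast Real.pi_ne_zero
  push_cast
  field_simp

/-- the second moments on a ball -/
noncomputable def c1 (k δ : ℝ) (j : Fin 2) : ℝ :=
  ∫ w in Metric.ball (0 : Cn 2) δ, normSq (w j) * gk k w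

theorem cont_co (τ : Bool) (j : Fin 2) : Continuous (co τ j) := (smooth_co τ j).continuous

/-- the flip of one coordinate -/
noncomputable def flp (j : Fin 2) (w : Cn 2) : Cn 2 := fun i => if i = j then -w i else w i

theorem mp_flp (j : Fin 2) : MeasurePreserving (flp j) := by
  have h1 : ∀ i : Fin 2, MeasurePreserving (fun z : ℂ => if i = j then -z else z) := by
    intro i
    by_cases h : i = j
    · simp only [h, if_true]
      exact Measure.measurePreserving_neg volume
    · simp only [h, if_false]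
      exact MeasurePreserving.id volume
  exact volume_preserving_pi h1

theorem flp_flp (j : Fin 2) (w : Cn 2) : flp j (flp j w) = w := by
  funext i
  unfold flp
  by_cases h : i = j <;> simp [h]

theorem norm_flp_le (j : Fin 2) (w : Cn 2) : ‖flp j w‖ ≤ ‖w‖ := by
  rw [pi_norm_le_iff_of_nonneg (norm_nonneg w)]
  intro i
  unfold flp
  by_cases h : i = j
  · simp only [h, if_true, norm_neg]
    exact norm_le_pi_norm w j
  · simp only [h, if_false]
    exact norm_le_pi_norm w i

theorem norm_flp (j : Fin 2) (w : Cn 2) : ‖flp j w‖ = ‖w‖ := by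
  refine le_antisymm (norm_flp_le j w) ?_
  have := norm_flp_le j (flp j w)
  rwa [flp_flp] at this

theorem gk_flp (k : ℝ) (j : Fin 2) (w : Cn 2) : gk k (flp j w) = gk k w := by
  unfold gk NN2 flp
  have h : ∀ i : Fin 2, normSq (if i = j then -w i else w i) = normSq (w i) := by
    intro i
    by_cases h : i = j <;> simp [h]
  rw [h, h]

theorem int_flp (j : Fin 2) (δ : ℝ) (h : Cn 2 → ℂ) :
    ∫ w in Metric.ball (0 : Cn 2) δ, h (flp j w) = ∫ w in Metric.ball (0 : Cn 2) δ, h w := by
  have hm : Measurable (flp j) := (mp_flp j).measurable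
  have hemb : MeasurableEmbedding (flp j) :=
    (MeasurableEquiv.mk ⟨flp j, flp j, flp_flp j, flp_flp j⟩ hm hm).measurableEmbedding
  have h1 := (mp_flp j).setIntegral_preimage_emb hemb h (Metric.ball (0 : Cn 2) δ)
  rw [← h1]
  congr 2
  ext w
  simp only [mem_preimage, mem_ball_zero_iff, norm_flp]

theorem off_diag {i j : Fin 2} (hij : i ≠ j) (k δ : ℝ) :
    ∫ w in Metric.ball (0 : Cn 2) δ, co true j w * co false i w * (gk k w : ℂ) = 0 := by
  have h1 := int_flp j δ (fun w => co true j w * co false i w * (gk k w : ℂ))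
  have h2 : ∀ w : Cn 2, co true j (flp j w) * co false i (flp j w) * (gk k (flp j w) : ℂ) =
      -(co true j w * co false i w * (gk k w : ℂ)) := by
    intro w
    rw [gk_flp]
    have e1 : co true j (flp j w) = -co true j w := by
      simp [co, flp]
    have e2 : co false i (flp j w) = co false i w := by
      simp [co, flp, hij]
    rw [e1, e2]
    ring
  simp only [h2] at h1
  rw [integral_neg] at h1
  have h3 : (2 : ℂ) * ∫ w in Metric.ball (0 : Cn 2) δ, co true j w * co false i w * (gk k w : ℂ) = 0 := by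
    linear_combination -h1
  exact (mul_eq_zero.1 h3).resolve_left two_ne_zero

theorem intble_ball {h : Cn 2 → ℂ} (hc : Continuous h) (δ : ℝ) :
    IntegrableOn h (Metric.ball (0 : Cn 2) δ) :=
  (hc.continuousOn.integrableOn_compact (isCompact_closedBall _ _)).mono_set
    Metric.ball_subset_closedBall

theorem mv1 (hδ : 0 < δ) (hf : DifferentiableOn ℂ f (Metric.ball 0 (2 * δ))) (k : ℝ) (j : Fin 2) :
    ∫ w in Metric.ball (0 : Cn 2) δ, co true j w * f w * (gk k w : ℂ) = dz j f 0 * (c1 k δ j : ℂ) := by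
  have hgc : Continuous fun w : Cn 2 => (gk k w : ℂ) :=
    Complex.continuous_ofReal.comp (smooth_gk k).continuous
  have hcc : ContinuousOn (fun w => co true j w * f w * (gk k w : ℂ)) (Metric.closedBall 0 δ) :=
    ((cont_co true j).continuousOn.mul (cont_f hδ hf)).mul hgc.continuousOn
  rw [rot_avg hcc]
  have h1 : ∀ w ∈ Metric.ball (0 : Cn 2) δ,
      Real.circleAverage (fun ζ : ℂ => co true j (ζ • w) * f (ζ • w) * (gk k (ζ • w) : ℂ)) 0 1 =
      dz 0 f 0 * (co true j w * co false 0 w * (gk k w : ℂ)) +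
        dz 1 f 0 * (co true j w * co false 1 w * (gk k w : ℂ)) := by
    intro w hw
    have e : Real.circleAverage (fun ζ : ℂ => co true j (ζ • w) * f (ζ • w) * (gk k (ζ • w) : ℂ)) 0 1 =
        Real.circleAverage (fun ζ : ℂ => (co true j w * (gk k w : ℂ)) * (conj ζ * f (ζ • w))) 0 1 := by
      apply Real.circleAverage_congr_sphere
      intro ζ hζ
      have hζ' : ‖ζ‖ = 1 := by simpa using hζ
      show co true j (ζ • w) * f (ζ • w) * (gk k (ζ • w) : ℂ) =
        (co true j w * (gk k w : ℂ)) * (conj ζ * f (ζ • w))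
      rw [gk_rot k hζ']
      have : co true j (ζ • w) = conj ζ * co true j w := by
        show conj (ζ * w j) = conj ζ * conj (w j)
        rw [map_mul]
      rw [this]
      ring
    rw [e]
    have e2 : Real.circleAverage (fun ζ : ℂ => (co true j w * (gk k w : ℂ)) *
        (conj ζ * f (ζ • w))) 0 1 = (co true j w * (gk k w : ℂ)) *
        Real.circleAverage (fun ζ : ℂ => conj ζ * f (ζ • w)) 0 1 := by
      rw [Real.circleAverage_def, Real.circleAverage_def, intervalIntegral.integral_const_mul,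
        Complex.real_smul, Complex.real_smul]
      ring
    rw [e2, avg_deriv hδ hf hw]
    show co true j w * (gk k w : ℂ) * (w 0 * dz 0 f 0 + w 1 * dz 1 f 0) =
      dz 0 f 0 * (co true j w * w 0 * (gk k w : ℂ)) + dz 1 f 0 * (co true j w * w 1 * (gk k w : ℂ))
    ring
  rw [setIntegral_congr_fun Metric.isOpen_ball.measurableSet h1]
  have hI : ∀ i : Fin 2, IntegrableOn (fun w : Cn 2 => co true j w * co false i w * (gk k w : ℂ))
      (Metric.ball (0 : Cn 2) δ) := fun i =>
    intble_ball (((cont_co true j).mul (cont_co false i)).mul hgc) δ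
  rw [integral_add ((hI 0).const_mul _) ((hI 1).const_mul _), integral_const_mul, integral_const_mul]
  have hd : ∫ w in Metric.ball (0 : Cn 2) δ, co true j w * co false j w * (gk k w : ℂ) =
      (c1 k δ j : ℂ) := by
    have hcast : (c1 k δ j : ℂ) = ∫ w in Metric.ball (0 : Cn 2) δ,
        ((normSq (w j) * gk k w : ℝ) : ℂ) := integral_ofReal.symm
    rw [hcast]
    refine integral_congr_ae (Filter.Eventually.of_forall fun w => ?_)
    show conj (w j) * w j * (gk k w : ℂ) = ((normSq (w j) * gk k w : ℝ) : ℂ)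
    rw [Complex.ofReal_mul, ← Complex.mul_conj]
    ring
  rcases (show j = 0 ∨ j = 1 by fin_cases j <;> simp) with rfl | rfl
  · rw [hd, off_diag (by decide : (1 : Fin 2) ≠ 0)]
    ring
  · rw [hd, off_diag (by decide : (0 : Fin 2) ≠ 1)]
    ring

/-- the zeroth moment on a ball -/
noncomputable def c0 (k δ : ℝ) : ℝ := ∫ w in Metric.ball (0 : Cn 2) δ, gk k w

/-- the mollifier identity -/
theorem mollify (hδ : 0 < δ) (hf : DifferentiableOn ℂ f (Metric.ball 0 (2 * δ))) (k : ℝ) (α : ℂ)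
    (b : Fin 2 → ℂ) :
    ∫ w in Metric.ball (0 : Cn 2) δ, (α + k * (b 0 * co true 0 w + b 1 * co true 1 w)) * f w *
      (gk k w : ℂ) = (c0 k δ : ℂ) * α * f 0 + k * ((c1 k δ 0 : ℂ) * b 0 * dz 0 f 0 +
        (c1 k δ 1 : ℂ) * b 1 * dz 1 f 0) := by
  have hgc : Continuous fun w : Cn 2 => (gk k w : ℂ) :=
    Complex.continuous_ofReal.comp (smooth_gk k).continuous
  have hI0 : IntegrableOn (fun w : Cn 2 => f w * (gk k w : ℂ)) (Metric.ball (0 : Cn 2) δ) :=
    (((cont_f hδ hf).mul hgc.continuousOn).integrableOn_compact (isCompact_closedBall _ _)).mono_set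
      Metric.ball_subset_closedBall
  have hI1 : ∀ j, IntegrableOn (fun w : Cn 2 => co true j w * f w * (gk k w : ℂ))
      (Metric.ball (0 : Cn 2) δ) := fun j =>
    ((((cont_co true j).continuousOn.mul (cont_f hδ hf)).mul hgc.continuousOn).integrableOn_compact
      (isCompact_closedBall _ _)).mono_set Metric.ball_subset_closedBall
  have e : ∀ w : Cn 2, (α + k * (b 0 * co true 0 w + b 1 * co true 1 w)) * f w * (gk k w : ℂ) =
      α * (f w * (gk k w : ℂ)) + ((k * b 0) * (co true 0 w * f w * (gk k w : ℂ)) +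
        (k * b 1) * (co true 1 w * f w * (gk k w : ℂ))) := by
    intro w
    ring
  simp only [e]
  have hI2 : IntegrableOn (fun w : Cn 2 => k * b 0 * (co true 0 w * f w * (gk k w : ℂ)) +
      k * b 1 * (co true 1 w * f w * (gk k w : ℂ))) (Metric.ball (0 : Cn 2) δ) :=
    ((hI1 0).const_mul _).add ((hI1 1).const_mul _)
  rw [integral_add (hI0.const_mul _) hI2,
    integral_add ((hI1 0).const_mul _) ((hI1 1).const_mul _), integral_const_mul,
    integral_const_mul, integral_const_mul, mv0 hδ hf, mv1 hδ hf, mv1 hδ hf]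
  have h0 : ∫ w in Metric.ball (0 : Cn 2) δ, (gk k w : ℂ) = (c0 k δ : ℂ) := integral_ofReal
  rw [h0]
  ring

end mv

end Pool.Agent.Y486
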