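import Pool.Agent.Y486.LMean

/-!
# The model: auxiliary estimates
-/

set_option autoImplicit false

open scoped Manifold ContDiff Topology ComplexConjugate Matrix
open MeasureTheory Set Filter

namespace Pool.Agent.Y486

open Pool.Agent.W549.CY (Cn dz dzbar)
open Pool.Agent.TH997.CMan
open Complex (normSq)

/-! ### Cauchy-Schwarz -/

theorem cs_int {μ : Measure (Cn 2)} {U V : Cn 2 → ℝ} (hU : Integrable (fun w => U w ^ 2) μ)
    (hV : Integrable (fun w => V w ^ 2) μ) (hUV : Integrable (fun w => U w * V w) μ) :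
    (∫ w, U w * V w ∂μ) ^ 2 ≤ (∫ w, U w ^ 2 ∂μ) * ∫ w, V w ^ 2 ∂μ := by
  set a := ∫ w, U w ^ 2 ∂μ with ha
  set x := ∫ w, U w * V w ∂μ with hx
  set b := ∫ w, V w ^ 2 ∂μ with hb
  have hb0 : 0 ≤ b := integral_nonneg fun w => sq_nonneg _
  have h : ∀ t : ℝ, 0 ≤ a - 2 * t * x + t ^ 2 * b := by
    intro t
    have h1 : 0 ≤ ∫ w, (U w - t * V w) ^ 2 ∂μ := integral_nonneg fun w => sq_nonneg _
    have h2 : ∫ w, (U w - t * V w) ^ 2 ∂μ = a - 2 * t * x + t ^ 2 * b := by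
      have e : (fun w => (U w - t * V w) ^ 2) = fun w => (U w ^ 2 - (2 * t) * (U w * V w)) +
          t ^ 2 * V w ^ 2 := by
        funext w
        ring
      have hi : Integrable (fun w => U w ^ 2 - (2 * t) * (U w * V w)) μ :=
        hU.sub (hUV.const_mul _)
      rw [e, integral_add hi (hV.const_mul _),
        integral_sub hU (hUV.const_mul _), integral_const_mul, integral_const_mul]
    rw [h2] at h1
    exact h1
  rcases hb0.lt_or_eq with hpos | hzero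
  · have h1 := h (x / b)
    have h2 : a - 2 * (x / b) * x + (x / b) ^ 2 * b = a - x ^ 2 / b := by
      field_simp
      ring
    rw [h2, sub_nonneg, div_le_iff₀ hpos] at h1
    exact h1
  · rw [← hzero] at h ⊢
    by_contra hne
    have hx0 : x ≠ 0 := by
      rintro h0
      apply hne
      rw [h0]
      simp
    have h1 := h ((a + 1) / (2 * x))
    have h2 : a - 2 * ((a + 1) / (2 * x)) * x + ((a + 1) / (2 * x)) ^ 2 * 0 = -1 := by
      field_simp
      ring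
    rw [h2] at h1
    linarith

/-! ### The quadratic weight -/

/-- the linear form -/
noncomputable def lf (k : ℝ) (α : ℂ) (b : Fin 2 → ℂ) (w : Cn 2) : ℂ :=
  α + k * (b 0 * co true 0 w + b 1 * co true 1 w)

theorem cont_lf (k : ℝ) (α : ℂ) (b : Fin 2 → ℂ) : Continuous (lf k α b) := by
  unfold lf
  exact continuous_const.add (continuous_const.mul ((continuous_const.mul (cont_co _ _)).add
    (continuous_const.mul (cont_co _ _))))

theorem normSq_lf_le (k : ℝ) (α : ℂ) (b : Fin 2 → ℂ) (w : Cn 2) : normSq (lf k α b w) ≤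
    2 * normSq α + 4 * k ^ 2 * (normSq (b 0) + normSq (b 1)) * ‖w‖ ^ 2 := by
  have h1 : ‖b 0 * co true 0 w + b 1 * co true 1 w‖ ≤ (‖b 0‖ + ‖b 1‖) * ‖w‖ := by
    refine (norm_add_le _ _).trans ?_
    rw [norm_mul, norm_mul, add_mul]
    exact add_le_add (mul_le_mul_of_nonneg_left (norm_co _ _ _) (norm_nonneg _))
      (mul_le_mul_of_nonneg_left (norm_co _ _ _) (norm_nonneg _))
  have h2 : ‖lf k α b w‖ ≤ ‖α‖ + |k| * ((‖b 0‖ + ‖b 1‖) * ‖w‖) := by
    unfold lf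
    refine (norm_add_le _ _).trans ?_
    rw [norm_mul, Complex.norm_real, Real.norm_eq_abs]
    exact add_le_add le_rfl (mul_le_mul_of_nonneg_left h1 (abs_nonneg k))
  rw [Complex.normSq_eq_norm_sq, Complex.normSq_eq_norm_sq, Complex.normSq_eq_norm_sq,
    Complex.normSq_eq_norm_sq]
  have h3 := pow_le_pow_left₀ (norm_nonneg _) h2 2
  have h4 : (‖α‖ + |k| * ((‖b 0‖ + ‖b 1‖) * ‖w‖)) ^ 2 ≤
      2 * ‖α‖ ^ 2 + 2 * (k ^ 2 * ((‖b 0‖ + ‖b 1‖) ^ 2 * ‖w‖ ^ 2)) := by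
    have : (|k| * ((‖b 0‖ + ‖b 1‖) * ‖w‖)) ^ 2 = k ^ 2 * ((‖b 0‖ + ‖b 1‖) ^ 2 * ‖w‖ ^ 2) := by
      rw [mul_pow, sq_abs]
      ring
    nlinarith [sq_nonneg (‖α‖ - |k| * ((‖b 0‖ + ‖b 1‖) * ‖w‖))]
  have h5 : (‖b 0‖ + ‖b 1‖) ^ 2 ≤ 2 * (‖b 0‖ ^ 2 + ‖b 1‖ ^ 2) := by
    nlinarith [sq_nonneg (‖b 0‖ - ‖b 1‖)]
  have h6 : k ^ 2 * ((‖b 0‖ + ‖b 1‖) ^ 2 * ‖w‖ ^ 2) ≤
      k ^ 2 * (2 * (‖b 0‖ ^ 2 + ‖b 1‖ ^ 2) * ‖w‖ ^ 2) := by gcongr
  linarith

/-- the constants -/
noncomputable def DD4 (j : ℕ) : ℝ := (2 * mom j + 4 * mom (j + 2)) / Real.pi ^ 2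

theorem DD4_nonneg (j : ℕ) : 0 ≤ DD4 j := by
  have h1 := mom_nonneg j
  have h2 := mom_nonneg (j + 2)
  unfold DD4
  positivity

theorem integrable_lf {k : ℝ} (hk : 0 < k) (α : ℂ) (b : Fin 2 → ℂ) (j : ℕ) :
    Integrable fun w : Cn 2 => normSq (lf k α b w) * (‖w‖ ^ j * gk (k / 2) w) := by
  have h1 : Integrable fun w : Cn 2 => 2 * normSq α * (‖w‖ ^ j * gk (k / 2) w) +
      4 * k ^ 2 * (normSq (b 0) + normSq (b 1)) * (‖w‖ ^ (j + 2) * gk (k / 2) w) :=
    ((integrable_pow (by positivity) j).const_mul _).add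
      ((integrable_pow (by positivity) (j + 2)).const_mul _)
  refine Integrable.mono' h1 ?_ (Filter.Eventually.of_forall fun w => ?_)
  · exact ((Complex.continuous_normSq.comp (cont_lf k α b)).mul ((continuous_norm.pow j).mul
      (smooth_gk (k / 2)).continuous)).aestronglyMeasurable
  · have hg := (gk_pos (k / 2) w).le
    have hn := Complex.normSq_nonneg (lf k α b w)
    rw [Real.norm_of_nonneg (by positivity)]
    have h2 := mul_le_mul_of_nonneg_right (normSq_lf_le k α b w)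
      (by positivity : 0 ≤ ‖w‖ ^ j * gk (k / 2) w)
    refine h2.trans (le_of_eq ?_)
    ring

theorem momP {k : ℝ} (hk : 0 < k) (α : ℂ) (b : Fin 2 → ℂ) (j : ℕ) :
    (k / Real.pi) ^ 2 * ∫ w : Cn 2, normSq (lf k α b w) * (‖w‖ ^ j * gk (k / 2) w) ≤
      DD4 j * TT k α b / √k ^ j := by
  have hs : 0 < √k := Real.sqrt_pos.2 hk
  have hs2 : √k ^ 2 = k := Real.sq_sqrt hk.le
  have hi1 := (integrable_pow (k := k / 2) (by positivity) j).const_mul (2 * normSq α)
  have hi2 := (integrable_pow (k := k / 2) (by positivity) (j + 2)).const_mul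
    (4 * k ^ 2 * (normSq (b 0) + normSq (b 1)))
  have h1 : ∫ w : Cn 2, normSq (lf k α b w) * (‖w‖ ^ j * gk (k / 2) w) ≤
      ∫ w : Cn 2, (2 * normSq α * (‖w‖ ^ j * gk (k / 2) w) +
      4 * k ^ 2 * (normSq (b 0) + normSq (b 1)) * (‖w‖ ^ (j + 2) * gk (k / 2) w)) := by
    refine integral_mono (integrable_lf hk α b j) (hi1.add hi2) fun w => ?_
    have hg := (gk_pos (k / 2) w).le
    have h2 := mul_le_mul_of_nonneg_right (normSq_lf_le k α b w)
      (by positivity : 0 ≤ ‖w‖ ^ j * gk (k / 2) w)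
    refine h2.trans (le_of_eq ?_)
    ring
  rw [integral_add hi1 hi2, integral_const_mul, integral_const_mul] at h1
  have m1 := mom_scale hk j
  have m2 := mom_scale hk (j + 2)
  calc (k / Real.pi) ^ 2 * ∫ w : Cn 2, normSq (lf k α b w) * (‖w‖ ^ j * gk (k / 2) w) ≤
        (k / Real.pi) ^ 2 * (2 * normSq α * (∫ w : Cn 2, ‖w‖ ^ j * gk (k / 2) w) +
        4 * k ^ 2 * (normSq (b 0) + normSq (b 1)) *
          ∫ w : Cn 2, ‖w‖ ^ (j + 2) * gk (k / 2) w) := mul_le_mul_of_nonneg_left h1 (sq_nonneg _)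
    _ = 2 * normSq α * ((k / Real.pi) ^ 2 * ∫ w : Cn 2, ‖w‖ ^ j * gk (k / 2) w) +
        4 * k ^ 2 * (normSq (b 0) + normSq (b 1)) *
          ((k / Real.pi) ^ 2 * ∫ w : Cn 2, ‖w‖ ^ (j + 2) * gk (k / 2) w) := by ring
    _ = 2 * normSq α * (mom j / Real.pi ^ 2 / √k ^ j) +
        4 * k * (normSq (b 0) + normSq (b 1)) * (mom (j + 2) / Real.pi ^ 2 / √k ^ j) := by
        rw [m1, m2, pow_add, hs2]
        have := Real.pi_pos
        field_simp
    _ ≤ DD4 j * TT k α b / √k ^ j := by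
        have hβ : 0 ≤ normSq (b 0) + normSq (b 1) :=
          add_nonneg (Complex.normSq_nonneg _) (Complex.normSq_nonneg _)
        have hα := Complex.normSq_nonneg α
        have hm1 := mom_nonneg j
        have hm2 := mom_nonneg (j + 2)
        have e : DD4 j * TT k α b / √k ^ j = 2 * normSq α * (mom j / Real.pi ^ 2 / √k ^ j) +
            4 * k * (normSq (b 0) + normSq (b 1)) * (mom (j + 2) / Real.pi ^ 2 / √k ^ j) +
            (4 * normSq α * mom (j + 2) + 2 * (k * (normSq (b 0) + normSq (b 1))) * mom j) /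
              Real.pi ^ 2 / √k ^ j := by
          unfold DD4 TT
          ring
        rw [e]
        have : 0 ≤ (4 * normSq α * mom (j + 2) + 2 * (k * (normSq (b 0) + normSq (b 1))) * mom j) /
              Real.pi ^ 2 / √k ^ j := by positivity
        linarith

/-! ### Tails -/

theorem int_split {h : Cn 2 → ℝ} (hh : Integrable h) (δ : ℝ) :
    ∫ w in Metric.ball (0 : Cn 2) δ, h w = (∫ w, h w) - ∫ w in (Metric.ball (0 : Cn 2) δ)ᶜ, h w := by
  have := integral_add_compl (Metric.isOpen_ball (x := (0 : Cn 2)) (ε := δ)).measurableSet hh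
  linarith

theorem tail_le {δ : ℝ} (hδ : 0 < δ) {h g : Cn 2 → ℝ} (p : ℕ)
    (hg : Integrable fun w => ‖w‖ ^ p * g w) (hg0 : ∀ w, 0 ≤ g w) (hle : ∀ w, |h w| ≤ g w) :
    |∫ w in (Metric.ball (0 : Cn 2) δ)ᶜ, h w| ≤ 1 / δ ^ p * ∫ w, ‖w‖ ^ p * g w := by
  have h1 : |∫ w in (Metric.ball (0 : Cn 2) δ)ᶜ, h w| ≤
      ∫ w in (Metric.ball (0 : Cn 2) δ)ᶜ, 1 / δ ^ p * (‖w‖ ^ p * g w) := by
    rw [← Real.norm_eq_abs]
    refine norm_integral_le_of_norm_le (hg.const_mul _).integrableOn ?_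
    filter_upwards [ae_restrict_mem (Metric.isOpen_ball.measurableSet.compl)] with w hw
    have h2 : δ ≤ ‖w‖ := by
      by_contra hlt
      exact hw (mem_ball_zero_iff.2 (not_le.1 hlt))
    have h3 : 1 ≤ 1 / δ ^ p * ‖w‖ ^ p := by
      rw [one_div, ← div_eq_inv_mul, one_le_div (by positivity)]
      exact pow_le_pow_left₀ hδ.le h2 p
    calc ‖h w‖ = 1 * |h w| := by rw [one_mul, Real.norm_eq_abs]
      _ ≤ 1 * g w := mul_le_mul_of_nonneg_left (hle w) zero_le_one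
      _ ≤ 1 / δ ^ p * ‖w‖ ^ p * g w := mul_le_mul_of_nonneg_right h3 (hg0 w)
      _ = _ := by ring
  refine h1.trans ?_
  rw [integral_const_mul]
  refine mul_le_mul_of_nonneg_left ?_ (by positivity)
  exact setIntegral_le_integral hg (Filter.Eventually.of_forall fun w =>
    mul_nonneg (by positivity) (hg0 w))

theorem gk_le {k : ℝ} (hk : 0 < k) (w : Cn 2) : gk k w ≤ gk (k / 2) w := by
  unfold gk
  apply Real.exp_le_exp.2
  have := NN2_nonneg w
  nlinarith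

theorem a0_ge {k δ : ℝ} (hk : 1 ≤ k) (hδ : 0 < δ) :
    1 - 1 / δ ^ 4 * (mom 4 / Real.pi ^ 2) / k ^ 2 ≤ (k / Real.pi) ^ 2 * c0 k δ := by
  have hk0 : 0 < k := by linarith
  have hpi := Real.pi_pos
  have h1 : c0 k δ = _ := int_split (integrable_gk hk0) δ
  have h2 := tail_le hδ (h := gk k) (g := gk (k / 2)) 4 (integrable_pow (by positivity) 4)
    (fun w => (gk_pos _ w).le) (fun w => by
      rw [abs_of_pos (gk_pos k w)]
      exact gk_le hk0 w)
  have h3 := mom_scale hk0 4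
  rw [h1, int_gk hk0]
  have h4 := (abs_le.1 h2).2
  have h5 := mul_le_mul_of_nonneg_left h4 (sq_nonneg (k / Real.pi))
  have h6 : (k / Real.pi) ^ 2 * (Real.pi / k) ^ 2 = 1 := by field_simp
  have h7 : √k ^ 4 = k ^ 2 := by
    calc √k ^ 4 = (√k ^ 2) ^ 2 := by ring
      _ = k ^ 2 := by rw [Real.sq_sqrt hk0.le]
  rw [h7] at h3
  have h8 : (k / Real.pi) ^ 2 * (1 / δ ^ 4 * ∫ w : Cn 2, ‖w‖ ^ 4 * gk (k / 2) w) =
      1 / δ ^ 4 * (mom 4 / Real.pi ^ 2) / k ^ 2 := by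
    calc _ = 1 / δ ^ 4 * ((k / Real.pi) ^ 2 * ∫ w : Cn 2, ‖w‖ ^ 4 * gk (k / 2) w) := by ring
      _ = _ := by rw [h3]; ring
  rw [mul_sub, h6]
  linarith

theorem sec_mom {k : ℝ} (hk : 0 < k) (j : Fin 2) :
    (k / Real.pi) ^ 2 * ∫ w : Cn 2, normSq (w j) * gk k w = 1 / k := by
  have h1 := ibp hk (smooth_co false j) (PG_co false j)
    (fun τ i => by
      have e : Wd τ i (co false j) = fun _ => if τ = false ∧ i = j then 1 else 0 := by
        funext p
        exact Wd_co τ false i j p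
      rw [e]
      exact PG.const _) false j
  have e : Wd false j (co false j) = fun _ => 1 := by
    funext p
    rw [Wd_co]
    simp
  rw [e, EE_one hk, mul_one] at h1
  have h2 : EE k (fun w => co (!false) j w * co false j w) =
      (((k / Real.pi) ^ 2 * ∫ w : Cn 2, normSq (w j) * gk k w : ℝ) : ℂ) := by
    unfold EE
    rw [Complex.ofReal_mul]
    congr 1
    have hcast : ((∫ w : Cn 2, normSq (w j) * gk k w : ℝ) : ℂ) = ∫ w : Cn 2,
        ((normSq (w j) * gk k w : ℝ) : ℂ) := integral_ofReal.symm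
    rw [hcast]
    refine integral_congr_ae (Filter.Eventually.of_forall fun w => ?_)
    show conj (w j) * w j * (gk k w : ℂ) = ((normSq (w j) * gk k w : ℝ) : ℂ)
    rw [Complex.ofReal_mul, ← Complex.mul_conj]
    ring
  rw [h2] at h1
  exact Complex.ofReal_injective h1

theorem a1_ge {k δ : ℝ} (hk : 1 ≤ k) (hδ : 0 < δ) (j : Fin 2) :
    1 - 1 / δ ^ 4 * (mom 6 / Real.pi ^ 2) / k ^ 2 ≤ (k / Real.pi) ^ 2 * (k * c1 k δ j) := by
  have hk0 : 0 < k := by linarith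
  have hpi := Real.pi_pos
  have hnj : ∀ w : Cn 2, normSq (w j) ≤ ‖w‖ ^ 2 := fun w => by
    rw [Complex.normSq_eq_norm_sq]
    exact pow_le_pow_left₀ (norm_nonneg _) (norm_le_pi_norm w j) 2
  have hi : Integrable fun w : Cn 2 => normSq (w j) * gk k w := by
    refine Integrable.mono' (integrable_pow hk0 2) ?_ (Filter.Eventually.of_forall fun w => ?_)
    · exact ((Complex.continuous_normSq.comp (continuous_apply j)).mul
        (smooth_gk k).continuous).aestronglyMeasurable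
    · rw [Real.norm_of_nonneg (mul_nonneg (Complex.normSq_nonneg _) (gk_pos k w).le)]
      exact mul_le_mul_of_nonneg_right (hnj w) (gk_pos k w).le
  have h1 : c1 k δ j = _ := int_split hi δ
  have hi2 : Integrable fun w : Cn 2 => ‖w‖ ^ 4 * (‖w‖ ^ 2 * gk (k / 2) w) := by
    have := integrable_pow (k := k / 2) (by positivity) 6
    refine this.congr (Filter.Eventually.of_forall fun w => ?_)
    show ‖w‖ ^ 6 * gk (k / 2) w = ‖w‖ ^ 4 * (‖w‖ ^ 2 * gk (k / 2) w)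
    ring
  have h2 := tail_le hδ (h := fun w : Cn 2 => normSq (w j) * gk k w)
    (g := fun w => ‖w‖ ^ 2 * gk (k / 2) w) 4 hi2
    (fun w => mul_nonneg (by positivity) (gk_pos _ w).le) (fun w => by
      rw [abs_of_nonneg (mul_nonneg (Complex.normSq_nonneg _) (gk_pos k w).le)]
      exact mul_le_mul (hnj w) (gk_le hk0 w) (gk_pos k w).le (by positivity))
  have h3 := mom_scale hk0 6
  have h4 := (abs_le.1 h2).2
  have e4 : ∫ w : Cn 2, ‖w‖ ^ 4 * (‖w‖ ^ 2 * gk (k / 2) w) = ∫ w : Cn 2, ‖w‖ ^ 6 * gk (k / 2) w := by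
    congr 1
    funext w
    ring
  rw [e4] at h4
  have h5 := mul_le_mul_of_nonneg_left h4 (by positivity : 0 ≤ k * (k / Real.pi) ^ 2)
  have h7 : √k ^ 6 = k ^ 3 := by
    calc √k ^ 6 = (√k ^ 2) ^ 3 := by ring
      _ = k ^ 3 := by rw [Real.sq_sqrt hk0.le]
  rw [h7] at h3
  have h8 : k * (k / Real.pi) ^ 2 * (1 / δ ^ 4 * ∫ w : Cn 2, ‖w‖ ^ 6 * gk (k / 2) w) =
      1 / δ ^ 4 * (mom 6 / Real.pi ^ 2) / k ^ 2 := by
    calc _ = k * (1 / δ ^ 4) * ((k / Real.pi) ^ 2 * ∫ w : Cn 2, ‖w‖ ^ 6 * gk (k / 2) w) := by ring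
      _ = _ := by
        rw [h3]
        field_simp
  have h9 := sec_mom hk0 j
  have h10 : k * ((k / Real.pi) ^ 2 * ∫ w : Cn 2, normSq (w j) * gk k w) = 1 := by
    rw [h9]
    field_simp
  rw [h1]
  have e : (k / Real.pi) ^ 2 * (k * ((∫ w : Cn 2, normSq (w j) * gk k w) -
      ∫ w in (Metric.ball (0 : Cn 2) δ)ᶜ, normSq (w j) * gk k w)) =
      k * ((k / Real.pi) ^ 2 * ∫ w : Cn 2, normSq (w j) * gk k w) -
      k * (k / Real.pi) ^ 2 * ∫ w in (Metric.ball (0 : Cn 2) δ)ᶜ, normSq (w j) * gk k w := by ring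
  rw [e, h10]
  linarith

end Pool.Agent.Y486
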