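import Pool.Agent.Y486.LMod1

/-!
# The model: pointwise estimates
-/

set_option autoImplicit false

open scoped Manifold ContDiff Topology ComplexConjugate Matrix
open MeasureTheory Set Filter

namespace Pool.Agent.Y486

open Pool.Agent.W549.CY (Cn dz dzbar)
open Pool.Agent.TH997.CMan
open Complex (normSq)

/-- the exponential -/
theorem exp_est (x : ℝ) : |Real.exp x - 1 - x| ≤ x ^ 2 * Real.exp |x| ∧
    |Real.exp x - 1| ≤ |x| * Real.exp |x| := by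
  have h1 : |Real.exp x - 1| ≤ |x| * Real.exp |x| := by
    rw [abs_le]
    constructor
    · have h2 := Real.add_one_le_exp x
      have h3 : 1 ≤ Real.exp |x| := Real.one_le_exp (abs_nonneg x)
      have h4 := neg_abs_le x
      nlinarith [abs_nonneg x]
    · -- `e^x - 1 ≤ |x| e^{|x|}`
      have h2 := Real.add_one_le_exp (-|x|)
      have h3 : Real.exp x ≤ Real.exp |x| := Real.exp_le_exp.2 (le_abs_self x)
      have h4 : Real.exp |x| * Real.exp (-|x|) = 1 := by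
        rw [← Real.exp_add, add_neg_cancel, Real.exp_zero]
      have h5 := mul_le_mul_of_nonneg_left h2 (Real.exp_pos |x|).le
      nlinarith
  refine ⟨?_, h1⟩
  -- second order
  have hpos : 0 ≤ Real.exp x - 1 - x := by linarith [Real.add_one_le_exp x]
  rw [abs_of_nonneg hpos]
  rcases le_or_gt 0 x with hx | hx
  · rw [abs_of_nonneg hx]
    -- `e^x - 1 - x ≤ x (e^x - 1) ≤ x^2 e^x`
    have h2 := Real.add_one_le_exp (-x)
    have h4 : Real.exp x * Real.exp (-x) = 1 := by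
      rw [← Real.exp_add, add_neg_cancel, Real.exp_zero]
    have h5 := mul_le_mul_of_nonneg_left h2 (Real.exp_pos x).le
    have h6 : Real.exp x - 1 ≤ x * Real.exp x := by nlinarith
    have h7 := mul_le_mul_of_nonneg_left h6 hx
    nlinarith
  · have h2 : |x| = -x := abs_of_neg hx
    rw [h2]
    -- `e^x - 1 - x ≤ x^2`
    have h3 := Real.add_one_le_exp (-x)
    have h4 : Real.exp x * Real.exp (-x) = 1 := by
      rw [← Real.exp_add, add_neg_cancel, Real.exp_zero]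
    have h5 : 0 < Real.exp (-x) := Real.exp_pos _
    have h6 : 1 ≤ Real.exp (-x) := by linarith
    have h7 : Real.exp x ≤ 1 + x + x ^ 2 := by
      have h8 : Real.exp x * (1 - x) ≤ 1 := by
        calc Real.exp x * (1 - x) ≤ Real.exp x * Real.exp (-x) :=
              mul_le_mul_of_nonneg_left (by linarith) (Real.exp_pos x).le
          _ = 1 := h4
      have h9 : 1 ≤ (1 + x + x ^ 2) * (1 - x) := by nlinarith [pow_pos (neg_pos.2 hx) 3]
      have h10 : Real.exp x * (1 - x) ≤ (1 + x + x ^ 2) * (1 - x) := h8.trans h9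
      exact le_of_mul_le_mul_right h10 (by linarith)
    nlinarith [sq_nonneg x]

/-- the pointwise inequality -/
theorem pw_est {x t d E : ℝ} (ht : |t| ≤ 1 / 32) (hd : |d| ≤ 1 / 32) (hE : Real.exp |x| ≤ E) :
    Real.exp x / (1 + t + d) ≤ 1 + x - t + E * (x ^ 2 + (2 * t ^ 2 + 4 * |d|) + |t| * |x|) := by
  obtain ⟨h1, h2⟩ := exp_est x
  have hρ : 1 / 2 ≤ 1 + t + d := by
    have := (abs_le.1 ht).1
    have := (abs_le.1 hd).1
    linarith
  have hρ0 : 0 < 1 + t + d := by linarith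
  have hE0 : 0 ≤ E := (Real.exp_pos _).le.trans hE
  have h3 : 1 / (1 + t + d) - (1 - t) ≤ 2 * t ^ 2 + 4 * |d| := by
    have e : 1 / (1 + t + d) - (1 - t) = (t ^ 2 - d + t * d) / (1 + t + d) := by
      field_simp
      ring
    rw [e, div_le_iff₀ hρ0]
    have h4 : t ^ 2 - d + t * d ≤ t ^ 2 + 2 * |d| := by
      have h5 := neg_abs_le d
      have h6 : t * d ≤ |t| * |d| := (le_abs_self _).trans (le_of_eq (abs_mul t d))
      have h7 : |t| * |d| ≤ 1 * |d| := mul_le_mul_of_nonneg_right (by linarith) (abs_nonneg d)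
      linarith
    have h8 : (2 * t ^ 2 + 4 * |d|) * (1 / 2) ≤ (2 * t ^ 2 + 4 * |d|) * (1 + t + d) :=
      mul_le_mul_of_nonneg_left hρ (by positivity)
    linarith
  have hex : 0 < Real.exp x := Real.exp_pos x
  have hexE : Real.exp x ≤ E := (Real.exp_le_exp.2 (le_abs_self x)).trans hE
  have h4 : Real.exp x / (1 + t + d) = (1 + x - t) + (Real.exp x - 1 - x) +
      Real.exp x * (1 / (1 + t + d) - (1 - t)) - t * (Real.exp x - 1) := by
    field_simp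
    ring
  rw [h4]
  have a1 : Real.exp x - 1 - x ≤ x ^ 2 * E := (le_abs_self _).trans (h1.trans
    (mul_le_mul_of_nonneg_left hE (sq_nonneg _)))
  have a2 : Real.exp x * (1 / (1 + t + d) - (1 - t)) ≤ E * (2 * t ^ 2 + 4 * |d|) := by
    calc Real.exp x * (1 / (1 + t + d) - (1 - t)) ≤ Real.exp x * (2 * t ^ 2 + 4 * |d|) :=
          mul_le_mul_of_nonneg_left h3 hex.le
      _ ≤ E * (2 * t ^ 2 + 4 * |d|) := mul_le_mul_of_nonneg_right hexE (by positivity)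
  have a3 : -(t * (Real.exp x - 1)) ≤ |t| * (|x| * E) := by
    calc -(t * (Real.exp x - 1)) ≤ |t * (Real.exp x - 1)| := neg_le_abs _
      _ = |t| * |Real.exp x - 1| := abs_mul _ _
      _ ≤ |t| * (|x| * E) := mul_le_mul_of_nonneg_left (h2.trans
        (mul_le_mul_of_nonneg_left hE (abs_nonneg x))) (abs_nonneg t)
  linarith

section bounds

variable {M : ℝ} {u : Cn 2 → ℝ}

/-- the determinant of the perturbed metric -/
noncomputable def rr (u : Cn 2 → ℝ) (w : Cn 2) : ℝ := ((1 : M2) + LL u w).det.re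

/-- the quadratic part of the determinant -/
noncomputable def dq (u : Cn 2 → ℝ) (w : Cn 2) : ℝ := (LL u w).det.re

theorem LL_eq_Wd (u : Cn 2 → ℝ) (w : Cn 2) (j k : Fin 2) :
    LL u w j k = Wd false j (Wd true k fun q => (u q : ℂ)) w := by
  rw [Wd_true, Wd_false]
  rfl

theorem rr_eq (u : Cn 2 → ℝ) (w : Cn 2) :
    rr u w = 1 + (Lp (fun q => (u q : ℂ)) w).re + dq u w := by
  unfold rr dq Lp
  rw [← LL_eq_Wd, ← LL_eq_Wd, Matrix.det_fin_two, Matrix.det_fin_two]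
  simp only [Matrix.add_apply, Matrix.one_apply_eq, Matrix.one_apply_ne (show (0 : Fin 2) ≠ 1 by decide),
    Matrix.one_apply_ne (show (1 : Fin 2) ≠ 0 by decide), zero_add]
  rw [← Complex.one_re, ← Complex.add_re, ← Complex.add_re]
  congr 1
  ring

variable (hM : 1 ≤ M) (hu : Adm M 5 fun w => (u w : ℂ)) (hfl : Fl 4 fun w => (u w : ℂ))
include hM hu hfl

theorem u_le (w : Cn 2) : |u w| ≤ 256 * M * ‖w‖ ^ 4 := by
  have h := flat_bound (by linarith) 4 hu.smooth hfl (hu.bd 4 (by norm_num)) w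
  rw [Complex.norm_real, Real.norm_eq_abs] at h
  norm_num at h
  exact h

theorem LL_le (w : Cn 2) (j k : Fin 2) : ‖LL u w j k‖ ≤ 16 * M * ‖w‖ ^ 2 := by
  rw [LL_eq_Wd]
  have h2 := (hu.Wd true k).Wd false j
  have h := flat_bound (by linarith) 2 h2.smooth ((hfl.2 true k).2 false j) (h2.bd 2 (by norm_num)) w
  norm_num at h
  exact h

theorem Lp_le (w : Cn 2) : |(Lp (fun q => (u q : ℂ)) w).re| ≤ 32 * M * ‖w‖ ^ 2 := by
  refine (Complex.abs_re_le_norm _).trans ?_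
  unfold Lp
  rw [← LL_eq_Wd, ← LL_eq_Wd]
  refine (norm_add_le _ _).trans ?_
  have h0 := LL_le hM hu hfl w 0 0
  have h1 := LL_le hM hu hfl w 1 1
  linarith

theorem dq_le (w : Cn 2) : |dq u w| ≤ 512 * M ^ 2 * ‖w‖ ^ 4 := by
  refine (Complex.abs_re_le_norm _).trans ?_
  rw [Matrix.det_fin_two]
  refine (norm_sub_le _ _).trans ?_
  rw [norm_mul, norm_mul]
  have h := LL_le hM hu hfl w
  have h1 : ‖LL u w 0 0‖ * ‖LL u w 1 1‖ ≤ (16 * M * ‖w‖ ^ 2) * (16 * M * ‖w‖ ^ 2) :=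
    mul_le_mul (h 0 0) (h 1 1) (norm_nonneg _) (by positivity)
  have h2 : ‖LL u w 0 1‖ * ‖LL u w 1 0‖ ≤ (16 * M * ‖w‖ ^ 2) * (16 * M * ‖w‖ ^ 2) :=
    mul_le_mul (h 0 1) (h 1 0) (norm_nonneg _) (by positivity)
  nlinarith

theorem small_est {δ : ℝ} (hδ : δ ≤ 1 / (32 * M)) {w : Cn 2} (hw : ‖w‖ ≤ δ) :
    |(Lp (fun q => (u q : ℂ)) w).re| ≤ 1 / 32 ∧ |dq u w| ≤ 1 / 32 ∧
      |u w| ≤ 1 / 2 * NN2 w := by
  have hM0 : 0 < M := by linarith
  have hw1 : ‖w‖ * (32 * M) ≤ 1 := by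
    have := hw.trans hδ
    rwa [le_div_iff₀ (by positivity)] at this
  have hn := norm_nonneg w
  have hw2 : ‖w‖ ≤ 1 / 32 := by
    rw [le_div_iff₀ (by norm_num)]
    nlinarith
  have e1 : 32 * M * ‖w‖ ^ 2 ≤ 1 / 32 := by nlinarith
  have e3 : 1024 * M ^ 2 * ‖w‖ ^ 2 ≤ 1 := by nlinarith [mul_nonneg hn hM0.le]
  have e2 : 512 * M ^ 2 * ‖w‖ ^ 4 ≤ 1 / 32 := by
    have : 512 * M ^ 2 * ‖w‖ ^ 4 = (1024 * M ^ 2 * ‖w‖ ^ 2) * (‖w‖ ^ 2 / 2) := by ring
    rw [this]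
    have h5 : ‖w‖ ^ 2 / 2 ≤ 1 / 32 := by nlinarith
    have h6 : 0 ≤ ‖w‖ ^ 2 / 2 := by positivity
    calc (1024 * M ^ 2 * ‖w‖ ^ 2) * (‖w‖ ^ 2 / 2) ≤ 1 * (‖w‖ ^ 2 / 2) :=
          mul_le_mul_of_nonneg_right e3 h6
      _ ≤ 1 / 32 := by linarith
  refine ⟨(Lp_le hM hu hfl w).trans e1, (dq_le hM hu hfl w).trans e2, (u_le hM hu hfl w).trans ?_⟩
  have h7 := norm_sq_le w
  have h8 : 256 * M * ‖w‖ ^ 4 ≤ 1 / 2 * ‖w‖ ^ 2 := by
    have : 256 * M * ‖w‖ ^ 4 = (32 * M * ‖w‖ ^ 2) * (8 * ‖w‖ ^ 2) := by ring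
    rw [this]
    calc (32 * M * ‖w‖ ^ 2) * (8 * ‖w‖ ^ 2) ≤ 1 / 32 * (8 * ‖w‖ ^ 2) :=
          mul_le_mul_of_nonneg_right e1 (by positivity)
      _ ≤ 1 / 2 * ‖w‖ ^ 2 := by nlinarith [sq_nonneg ‖w‖]
  linarith

/-- the weight of the second factor -/
theorem weight_est {δ k : ℝ} (hδ : δ ≤ 1 / (32 * M)) (hk : 1 ≤ k) {w : Cn 2} (hw : ‖w‖ ≤ δ) :
    gk k w * (Real.exp (k * u w) / rr u w) ≤
      gk k w * (1 + (k * u w - (Lp (fun q => (u q : ℂ)) w).re)) +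
      65536 * M ^ 2 * (k ^ 2 * ‖w‖ ^ 8 + ‖w‖ ^ 4 + k * ‖w‖ ^ 6) * gk (k / 2) w := by
  obtain ⟨h1, h2, h3⟩ := small_est hM hu hfl hδ hw
  have hk0 : 0 < k := by linarith
  set t := (Lp (fun q => (u q : ℂ)) w).re with ht
  set d := dq u w with hd
  have hu1 := u_le hM hu hfl w
  have ht1 : |t| ≤ 32 * M * ‖w‖ ^ 2 := Lp_le hM hu hfl w
  have hd1 : |d| ≤ 512 * M ^ 2 * ‖w‖ ^ 4 := dq_le hM hu hfl w
  have hE : Real.exp |k * u w| ≤ Real.exp (k / 2 * NN2 w) := by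
    apply Real.exp_le_exp.2
    rw [abs_mul, abs_of_pos hk0]
    have := mul_le_mul_of_nonneg_left h3 hk0.le
    linarith
  have h4 := pw_est (x := k * u w) h1 h2 hE
  rw [rr_eq]
  have h5 := mul_le_mul_of_nonneg_left h4 (gk_pos k w).le
  refine h5.trans ?_
  have hg : gk (k / 2) w = Real.exp (k / 2 * NN2 w) * gk k w := by
    unfold gk
    rw [← Real.exp_add]
    congr 1
    ring
  rw [hg]
  have hx1 : |k * u w| ≤ k * (256 * M * ‖w‖ ^ 4) := by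
    rw [abs_mul, abs_of_pos hk0]
    exact mul_le_mul_of_nonneg_left hu1 hk0.le
  have hx2 : (k * u w) ^ 2 ≤ (k * (256 * M * ‖w‖ ^ 4)) ^ 2 := by
    rw [← sq_abs]
    exact pow_le_pow_left₀ (abs_nonneg _) hx1 2
  have ht2 : t ^ 2 ≤ (32 * M * ‖w‖ ^ 2) ^ 2 := by
    rw [← sq_abs]
    exact pow_le_pow_left₀ (abs_nonneg _) ht1 2
  have htx : |t| * |k * u w| ≤ (32 * M * ‖w‖ ^ 2) * (k * (256 * M * ‖w‖ ^ 4)) :=
    mul_le_mul ht1 hx1 (abs_nonneg _) (by positivity)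
  have h6 : (k * u w) ^ 2 + (2 * t ^ 2 + 4 * |d|) + |t| * |k * u w| ≤
      65536 * M ^ 2 * (k ^ 2 * ‖w‖ ^ 8 + ‖w‖ ^ 4 + k * ‖w‖ ^ 6) := by
    have e1 : 65536 * M ^ 2 * (k ^ 2 * ‖w‖ ^ 8 + ‖w‖ ^ 4 + k * ‖w‖ ^ 6) =
        (k * (256 * M * ‖w‖ ^ 4)) ^ 2 + 65536 * (M ^ 2 * ‖w‖ ^ 4) +
        65536 * (M ^ 2 * (k * ‖w‖ ^ 6)) := by ring
    have e2 : (32 * M * ‖w‖ ^ 2) ^ 2 = 1024 * (M ^ 2 * ‖w‖ ^ 4) := by ring
    have e3 : (32 * M * ‖w‖ ^ 2) * (k * (256 * M * ‖w‖ ^ 4)) = 8192 * (M ^ 2 * (k * ‖w‖ ^ 6)) := by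
      ring
    rw [e2] at ht2
    rw [e3] at htx
    rw [e1]
    have p1 : 0 ≤ M ^ 2 * ‖w‖ ^ 4 := by positivity
    have p2 : 0 ≤ M ^ 2 * (k * ‖w‖ ^ 6) := by positivity
    have hd2 : |d| ≤ 512 * (M ^ 2 * ‖w‖ ^ 4) := by linarith
    linarith
  have h7 : 0 ≤ Real.exp (k / 2 * NN2 w) * gk k w := mul_nonneg (Real.exp_pos _).le (gk_pos k w).le
  have h8 := mul_le_mul_of_nonneg_left h6 h7
  have e : gk k w * (1 + k * u w - t + Real.exp (k / 2 * NN2 w) * ((k * u w) ^ 2 +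
      (2 * t ^ 2 + 4 * |d|) + |t| * |k * u w|)) = gk k w * (1 + (k * u w - t)) +
      (Real.exp (k / 2 * NN2 w) * gk k w) * ((k * u w) ^ 2 +
      (2 * t ^ 2 + 4 * |d|) + |t| * |k * u w|) := by ring
  rw [e]
  linarith

end bounds

end Pool.Agent.Y486
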