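import Pool.Agent.Y486.LMod2

/-!
# The model: assembly
-/

set_option autoImplicit false

open scoped Manifold ContDiff Topology ComplexConjugate Matrix
open MeasureTheory Set Filter

namespace Pool.Agent.Y486

open Pool.Agent.W549.CY (Cn dz dzbar)
open Pool.Agent.TH997.CMan
open Complex (normSq)

section second

variable {M : ℝ} {u : Cn 2 → ℝ}

/-- the constant of the second factor -/
noncomputable def cS (M δ : ℝ) : ℝ :=
  M * cE + 4 * M * (1 / δ ^ 6) * DD4 6 + 65536 * M ^ 2 * (DD4 8 + DD4 4 + DD4 6)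

theorem cS_nonneg {M δ : ℝ} (hM : 0 ≤ M) (hδ : 0 < δ) : 0 ≤ cS M δ := by
  have h1 := cE_nonneg
  have h2 := DD4_nonneg 4
  have h3 := DD4_nonneg 6
  have h4 := DD4_nonneg 8
  unfold cS
  positivity

variable (hM : 1 ≤ M) (hu : Adm M 5 fun w => (u w : ℂ)) (hfl : Fl 4 fun w => (u w : ℂ))
include hM hu hfl

theorem cont_u : Continuous u := by
  have h := Complex.continuous_re.comp hu.smooth.continuous
  exact h

theorem cont_rr : Continuous (rr u) := by
  have h1 : Continuous fun w => (Lp (fun q => (u q : ℂ)) w).re :=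
    Complex.continuous_re.comp (smooth_Lp hu.smooth).continuous
  have h2 : Continuous (dq u) := by
    unfold dq
    have h3 : ∀ j k, Continuous fun w => LL u w j k := by
      intro j k
      simp only [LL_eq_Wd]
      exact (smooth_Wd (smooth_Wd hu.smooth _ _) _ _).continuous
    simp only [Matrix.det_fin_two]
    exact Complex.continuous_re.comp (((h3 0 0).mul (h3 1 1)).sub ((h3 0 1).mul (h3 1 0)))
  have e : rr u = fun w => 1 + (Lp (fun q => (u q : ℂ)) w).re + dq u w := by
    funext w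
    exact rr_eq u w
  rw [e]
  exact (continuous_const.add h1).add h2

theorem second {δ k : ℝ} (hδ0 : 0 < δ) (hδ : δ ≤ 1 / (32 * M)) (hk : 1 ≤ k) (α : ℂ)
    (b : Fin 2 → ℂ) :
    (k / Real.pi) ^ 2 * ∫ w in Metric.ball (0 : Cn 2) δ, normSq (lf k α b w) *
      (gk k w * (Real.exp (k * u w) / rr u w)) ≤
    TT k α b * (1 - (Lp (Lp fun w => (u w : ℂ)) 0).re / (2 * k) + cS M δ / (k * √k)) := by
  have hk0 : 0 < k := by linarith
  have hM0 : 0 < M := by linarith
  have hpi := Real.pi_pos
  have hT := TT_nonneg hk0.le α b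
  set t : Cn 2 → ℝ := fun w => (Lp (fun q => (u q : ℂ)) w).re with ht
  have hcu := cont_u hM hu hfl
  have hct : Continuous t := Complex.continuous_re.comp (smooth_Lp hu.smooth).continuous
  have hcl := cont_lf k α b
  have hcg := (smooth_gk k).continuous
  -- global bounds
  have hub : ∀ w, |u w| ≤ M := fun w => by
    have := hu.bd 0 (by norm_num) w
    rwa [Complex.norm_real, Real.norm_eq_abs] at this
  have htb : ∀ w, |t w| ≤ 2 * M := fun w => by
    refine (Complex.abs_re_le_norm _).trans ?_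
    have h0 := ((hu.Wd true 0).Wd false 0).bd 0 (by norm_num) w
    have h1 := ((hu.Wd true 1).Wd false 1).bd 0 (by norm_num) w
    have := norm_add_le (Wd false 0 (Wd true 0 fun q => (u q : ℂ)) w)
      (Wd false 1 (Wd true 1 fun q => (u q : ℂ)) w)
    unfold Lp
    linarith
  have hmb : ∀ w, |1 + (k * u w - t w)| ≤ 4 * M * k := by
    intro w
    have h1 : |1 + (k * u w - t w)| ≤ 1 + (k * |u w| + |t w|) := by
      refine (abs_add_le _ _).trans ?_
      rw [abs_one]
      refine add_le_add le_rfl ((abs_sub _ _).trans ?_)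
      rw [abs_mul, abs_of_pos hk0]
    have h2 := mul_le_mul_of_nonneg_left (hub w) hk0.le
    have h3 := htb w
    nlinarith
  -- the main function
  set h : Cn 2 → ℝ := fun w => normSq (lf k α b w) * (gk k w * (1 + (k * u w - t w))) with hh
  have hhc : Continuous h := (Complex.continuous_normSq.comp hcl).mul
    (hcg.mul (continuous_const.add ((continuous_const.mul hcu).sub hct)))
  have hhb : ∀ w, |h w| ≤ 4 * M * k * (normSq (lf k α b w) * (‖w‖ ^ 0 * gk (k / 2) w)) := by
    intro w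
    have h1 := Complex.normSq_nonneg (lf k α b w)
    have h2 := gk_pos k w
    rw [hh]
    show |normSq (lf k α b w) * (gk k w * (1 + (k * u w - t w)))| ≤ _
    rw [abs_mul, abs_mul, abs_of_nonneg h1, abs_of_pos h2]
    have h3 := mul_le_mul (gk_le hk0 w) (hmb w) (abs_nonneg _) (gk_pos _ w).le
    have h4 := mul_le_mul_of_nonneg_left h3 h1
    refine h4.trans (le_of_eq ?_)
    ring
  have hhi : Integrable h := by
    refine Integrable.mono' ((integrable_lf hk0 α b 0).const_mul (4 * M * k))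
      hhc.aestronglyMeasurable (Filter.Eventually.of_forall fun w => ?_)
    rw [Real.norm_eq_abs]
    exact hhb w
  -- relation to the expectation
  have hEE : (k / Real.pi) ^ 2 * ∫ w, h w = (EE k (fun w =>
      (α + k * (b 0 * co true 0 w + b 1 * co true 1 w)) *
      (conj α + k * (conj (b 0) * co false 0 w + conj (b 1) * co false 1 w)) *
        (1 + mm k (fun q => (u q : ℂ)) w))).re := by
    unfold EE
    rw [Complex.re_ofReal_mul]
    congr 1
    have hPG : PG (fun w => (α + k * (b 0 * co true 0 w + b 1 * co true 1 w)) *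
      (conj α + k * (conj (b 0) * co false 0 w + conj (b 1) * co false 1 w)) *
        (1 + mm k (fun q => (u q : ℂ)) w)) := by
      refine PG.mul (PG.mul ((PG.const _).add (PG.const_mul (((PG_co _ _).const_mul _).add
        ((PG_co _ _).const_mul _)) _)) ((PG.const _).add (PG.const_mul (((PG_co _ _).const_mul _).add
        ((PG_co _ _).const_mul _)) _))) ((PG.const _).add (hu.pg_mm k (n := 3)))
    have hre := integral_re (hPG.integrable hk0)
    have hre' : (∫ w, (α + k * (b 0 * co true 0 w + b 1 * co true 1 w)) *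
      (conj α + k * (conj (b 0) * co false 0 w + conj (b 1) * co false 1 w)) *
        (1 + mm k (fun q => (u q : ℂ)) w) * (gk k w : ℂ)).re = ∫ w,
        ((α + k * (b 0 * co true 0 w + b 1 * co true 1 w)) *
      (conj α + k * (conj (b 0) * co false 0 w + conj (b 1) * co false 1 w)) *
        (1 + mm k (fun q => (u q : ℂ)) w) * (gk k w : ℂ)).re := hre.symm
    rw [hre']
    congr 1
    funext w
    have e1 : (conj α + k * (conj (b 0) * co false 0 w + conj (b 1) * co false 1 w)) =
        conj (lf k α b w) := by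
      unfold lf co
      simp only [cond_true, cond_false, map_add, map_mul, Complex.conj_ofReal, Complex.conj_conj]
    have e2 : (α + k * (b 0 * co true 0 w + b 1 * co true 1 w)) = lf k α b w := rfl
    rw [e1, e2, Complex.mul_conj]
    have e3 : ((normSq (lf k α b w) : ℝ) : ℂ) * (1 + mm k (fun q => (u q : ℂ)) w) * (gk k w : ℂ) =
        ((normSq (lf k α b w) * gk k w : ℝ) : ℂ) * (1 + mm k (fun q => (u q : ℂ)) w) := by
      push_cast
      ring
    rw [e3, Complex.re_ofReal_mul]
    unfold mm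
    rw [Complex.add_re, Complex.sub_re, Complex.re_ofReal_mul, Complex.ofReal_re, Complex.one_re]
    rw [hh]
    show normSq (lf k α b w) * (gk k w * (1 + (k * u w - t w))) = _
    rw [ht]
    ring
  -- the error function
  set g : Cn 2 → ℝ := fun w => 65536 * M ^ 2 * (k ^ 2 * (normSq (lf k α b w) *
      (‖w‖ ^ 8 * gk (k / 2) w)) + normSq (lf k α b w) * (‖w‖ ^ 4 * gk (k / 2) w) +
      k * (normSq (lf k α b w) * (‖w‖ ^ 6 * gk (k / 2) w))) with hg
  have hi8 := integrable_lf hk0 α b 8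
  have hi4 := integrable_lf hk0 α b 4
  have hi6 := integrable_lf hk0 α b 6
  have hgi : Integrable g := (((hi8.const_mul _).add hi4).add (hi6.const_mul _)).const_mul _
  have hg0 : ∀ w, 0 ≤ g w := fun w => by
    have h1 := Complex.normSq_nonneg (lf k α b w)
    have h2 := (gk_pos (k / 2) w).le
    rw [hg]
    positivity
  -- first inequality
  have s1 : ∫ w in Metric.ball (0 : Cn 2) δ, normSq (lf k α b w) *
      (gk k w * (Real.exp (k * u w) / rr u w)) ≤ ∫ w in Metric.ball (0 : Cn 2) δ, (h w + g w) := by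
    have hrrpos : ∀ w ∈ Metric.closedBall (0 : Cn 2) δ, 0 < rr u w := by
      intro w hw
      obtain ⟨h1, h2, _⟩ := small_est hM hu hfl hδ (mem_closedBall_zero_iff.1 hw)
      rw [rr_eq]
      have := (abs_le.1 h1).1
      have := (abs_le.1 h2).1
      linarith
    have hcc : ContinuousOn (fun w => normSq (lf k α b w) *
        (gk k w * (Real.exp (k * u w) / rr u w))) (Metric.closedBall (0 : Cn 2) δ) := by
      refine (Complex.continuous_normSq.comp hcl).continuousOn.mul (hcg.continuousOn.mul ?_)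
      exact (Real.continuous_exp.comp (continuous_const.mul hcu)).continuousOn.div
        (cont_rr hM hu hfl).continuousOn fun w hw => (hrrpos w hw).ne'
    refine setIntegral_mono_on ((hcc.integrableOn_compact (isCompact_closedBall _ _)).mono_set
      Metric.ball_subset_closedBall) (hhi.add hgi).integrableOn Metric.isOpen_ball.measurableSet
      fun w hw => ?_
    have h1 := weight_est hM hu hfl hδ hk (mem_ball_zero_iff.1 hw).le
    have h2 := mul_le_mul_of_nonneg_left h1 (Complex.normSq_nonneg (lf k α b w))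
    refine h2.trans (le_of_eq ?_)
    rw [hh, hg]
    ring
  rw [integral_add hhi.integrableOn hgi.integrableOn] at s1
  -- second term
  have s2 : (k / Real.pi) ^ 2 * ∫ w in Metric.ball (0 : Cn 2) δ, g w ≤
      65536 * M ^ 2 * (DD4 8 + DD4 4 + DD4 6) * TT k α b / k ^ 2 := by
    have h1 : ∫ w in Metric.ball (0 : Cn 2) δ, g w ≤ ∫ w, g w :=
      setIntegral_le_integral hgi (Filter.Eventually.of_forall hg0)
    have hi84 : Integrable fun w => k ^ 2 * (normSq (lf k α b w) * (‖w‖ ^ 8 * gk (k / 2) w)) +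
        normSq (lf k α b w) * (‖w‖ ^ 4 * gk (k / 2) w) := (hi8.const_mul _).add hi4
    have h2 : ∫ w, g w = 65536 * M ^ 2 * (k ^ 2 * (∫ w, normSq (lf k α b w) *
      (‖w‖ ^ 8 * gk (k / 2) w)) + (∫ w, normSq (lf k α b w) * (‖w‖ ^ 4 * gk (k / 2) w)) +
      k * ∫ w, normSq (lf k α b w) * (‖w‖ ^ 6 * gk (k / 2) w)) := by
      rw [hg, integral_const_mul, integral_add hi84 (hi6.const_mul _),
        integral_add (hi8.const_mul _) hi4, integral_const_mul, integral_const_mul]
    have m8 := momP hk0 α b 8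
    have m4 := momP hk0 α b 4
    have m6 := momP hk0 α b 6
    have r2 : √k ^ 2 = k := Real.sq_sqrt hk0.le
    have r8 : √k ^ 8 = k ^ 4 := by
      calc √k ^ 8 = (√k ^ 2) ^ 4 := by ring
        _ = k ^ 4 := by rw [r2]
    have r4 : √k ^ 4 = k ^ 2 := by
      calc √k ^ 4 = (√k ^ 2) ^ 2 := by ring
        _ = k ^ 2 := by rw [r2]
    have r6 : √k ^ 6 = k ^ 3 := by
      calc √k ^ 6 = (√k ^ 2) ^ 3 := by ring
        _ = k ^ 3 := by rw [r2]
    rw [r8] at m8
    rw [r4] at m4
    rw [r6] at m6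
    refine (mul_le_mul_of_nonneg_left h1 (sq_nonneg _)).trans ?_
    rw [h2]
    have e : (k / Real.pi) ^ 2 * (65536 * M ^ 2 * (k ^ 2 * (∫ w, normSq (lf k α b w) *
      (‖w‖ ^ 8 * gk (k / 2) w)) + (∫ w, normSq (lf k α b w) * (‖w‖ ^ 4 * gk (k / 2) w)) +
      k * ∫ w, normSq (lf k α b w) * (‖w‖ ^ 6 * gk (k / 2) w))) =
      65536 * M ^ 2 * (k ^ 2 * ((k / Real.pi) ^ 2 * ∫ w, normSq (lf k α b w) *
      (‖w‖ ^ 8 * gk (k / 2) w)) + ((k / Real.pi) ^ 2 * ∫ w, normSq (lf k α b w) *
      (‖w‖ ^ 4 * gk (k / 2) w)) + k * ((k / Real.pi) ^ 2 * ∫ w, normSq (lf k α b w) *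
      (‖w‖ ^ 6 * gk (k / 2) w))) := by ring
    rw [e]
    have e2 : 65536 * M ^ 2 * (DD4 8 + DD4 4 + DD4 6) * TT k α b / k ^ 2 =
        65536 * M ^ 2 * (k ^ 2 * (DD4 8 * TT k α b / k ^ 4) + DD4 4 * TT k α b / k ^ 2 +
          k * (DD4 6 * TT k α b / k ^ 3)) := by
      field_simp
    rw [e2]
    gcongr
  -- first term
  have s3 : (k / Real.pi) ^ 2 * ∫ w in Metric.ball (0 : Cn 2) δ, h w ≤
      TT k α b * (1 - (Lp (Lp fun w => (u w : ℂ)) 0).re / (2 * k) + M * cE / √k ^ 3) +
        4 * M * (1 / δ ^ 6) * DD4 6 * TT k α b / k ^ 2 := by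
    rw [int_split hhi δ, mul_sub, hEE]
    have h1 := main_exp hk0 hM0.le hu hfl α b
    have hgi6 : Integrable fun w : Cn 2 => ‖w‖ ^ 6 * (4 * M * k * (normSq (lf k α b w) *
        (‖w‖ ^ 0 * gk (k / 2) w))) := by
      have h2 := hi6.const_mul (4 * M * k)
      refine h2.congr (Filter.Eventually.of_forall fun w => ?_)
      show 4 * M * k * (normSq (lf k α b w) * (‖w‖ ^ 6 * gk (k / 2) w)) = _
      ring
    have h2 := tail_le hδ0 (h := h) (g := fun w => 4 * M * k * (normSq (lf k α b w) *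
        (‖w‖ ^ 0 * gk (k / 2) w))) 6 hgi6 (fun w => by
        have h1 := Complex.normSq_nonneg (lf k α b w)
        have h2 := (gk_pos (k / 2) w).le
        positivity) hhb
    have e4 : ∫ w : Cn 2, ‖w‖ ^ 6 * (4 * M * k * (normSq (lf k α b w) *
        (‖w‖ ^ 0 * gk (k / 2) w))) = 4 * M * k * ∫ w : Cn 2, normSq (lf k α b w) *
        (‖w‖ ^ 6 * gk (k / 2) w) := by
      rw [← integral_const_mul]
      congr 1
      funext w
      ring
    rw [e4] at h2
    have h3 := (abs_le.1 h2).1
    have m6 := momP hk0 α b 6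
    have r2 : √k ^ 2 = k := Real.sq_sqrt hk0.le
    have r6 : √k ^ 6 = k ^ 3 := by
      calc √k ^ 6 = (√k ^ 2) ^ 3 := by ring
        _ = k ^ 3 := by rw [r2]
    rw [r6] at m6
    have h4 : -((k / Real.pi) ^ 2 * ∫ w in (Metric.ball (0 : Cn 2) δ)ᶜ, h w) ≤
        4 * M * (1 / δ ^ 6) * DD4 6 * TT k α b / k ^ 2 := by
      have h5 : -(∫ w in (Metric.ball (0 : Cn 2) δ)ᶜ, h w) ≤ 1 / δ ^ 6 * (4 * M * k *
        ∫ w : Cn 2, normSq (lf k α b w) * (‖w‖ ^ 6 * gk (k / 2) w)) := by linarith
      have h6 := mul_le_mul_of_nonneg_left h5 (sq_nonneg (k / Real.pi))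
      have h7 : (k / Real.pi) ^ 2 * (1 / δ ^ 6 * (4 * M * k *
          ∫ w : Cn 2, normSq (lf k α b w) * (‖w‖ ^ 6 * gk (k / 2) w))) =
          1 / δ ^ 6 * (4 * M * k) * ((k / Real.pi) ^ 2 *
          ∫ w : Cn 2, normSq (lf k α b w) * (‖w‖ ^ 6 * gk (k / 2) w)) := by ring
      have h8 := mul_le_mul_of_nonneg_left m6 (by positivity : 0 ≤ 1 / δ ^ 6 * (4 * M * k))
      have h9 : 1 / δ ^ 6 * (4 * M * k) * (DD4 6 * TT k α b / k ^ 3) =
          4 * M * (1 / δ ^ 6) * DD4 6 * TT k α b / k ^ 2 := by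
        field_simp
      linarith
    linarith
  -- conclusion
  have hs1 : √k ^ 3 = k * √k := by
    have r2 : √k ^ 2 = k := Real.sq_sqrt hk0.le
    calc √k ^ 3 = √k ^ 2 * √k := by ring
      _ = k * √k := by rw [r2]
  have hsk : √k ≤ k := by
    rw [Real.sqrt_le_left hk0.le]
    nlinarith
  have hsp : 0 < √k := Real.sqrt_pos.2 hk0
  have hkk : ∀ x : ℝ, 0 ≤ x → x / k ^ 2 ≤ x / (k * √k) := by
    intro x hx
    refine div_le_div_of_nonneg_left hx (by positivity) ?_
    rw [pow_two]
    exact mul_le_mul_of_nonneg_left hsk hk0.le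
  have hD4 := DD4_nonneg 4
  have hD6 := DD4_nonneg 6
  have hD8 := DD4_nonneg 8
  have f1 := hkk (4 * M * (1 / δ ^ 6) * DD4 6 * TT k α b) (by positivity)
  have f2 := hkk (65536 * M ^ 2 * (DD4 8 + DD4 4 + DD4 6) * TT k α b) (by positivity)
  have s4 := mul_le_mul_of_nonneg_left s1 (sq_nonneg (k / Real.pi))
  rw [mul_add] at s4
  rw [hs1] at s3
  have e : TT k α b * (1 - (Lp (Lp fun w => (u w : ℂ)) 0).re / (2 * k) + cS M δ / (k * √k)) =
      TT k α b * (1 - (Lp (Lp fun w => (u w : ℂ)) 0).re / (2 * k) + M * cE / (k * √k)) +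
      4 * M * (1 / δ ^ 6) * DD4 6 * TT k α b / (k * √k) +
      65536 * M ^ 2 * (DD4 8 + DD4 4 + DD4 6) * TT k α b / (k * √k) := by
    unfold cS
    ring
  rw [e]
  linarith

end second

end Pool.Agent.Y486
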