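import Pool.Agent.Y486.LModel

/-!
# The model theorem
-/

set_option autoImplicit false

open scoped Manifold ContDiff Topology ComplexConjugate Matrix
open MeasureTheory Set Filter

namespace Pool.Agent.Y486

open Pool.Agent.W549.CY (Cn dz dzbar)
open Pool.Agent.TH997.CMan
open Complex (normSq)

/-- the duality inequality -/
theorem duality {M : ℝ} {u : Cn 2 → ℝ} (hM : 1 ≤ M) (hu : Adm M 5 fun w => (u w : ℂ))
    (hfl : Fl 4 fun w => (u w : ℂ)) {δ : ℝ} (hδ0 : 0 < δ) (hδ : δ ≤ 1 / (32 * M)) (k : ℝ)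
    {f : Cn 2 → ℂ} (hf : DifferentiableOn ℂ f (Metric.ball 0 (2 * δ))) (α : ℂ) (b : Fin 2 → ℂ) :
    normSq ((c0 k δ : ℂ) * α * f 0 + k * ((c1 k δ 0 : ℂ) * b 0 * dz 0 f 0 +
      (c1 k δ 1 : ℂ) * b 1 * dz 1 f 0)) ≤
    (∫ w in Metric.ball (0 : Cn 2) δ, normSq (f w) * (Real.exp (-(k * (NN2 w + u w))) * rr u w)) *
      ∫ w in Metric.ball (0 : Cn 2) δ, normSq (lf k α b w) *
        (gk k w * (Real.exp (k * u w) / rr u w)) := by
  have hcu := cont_u hM hu hfl
  have hcr := cont_rr hM hu hfl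
  have hcl := cont_lf k α b
  have hcg := (smooth_gk k).continuous
  have hcN : Continuous NN2 := smooth_NN2.continuous
  have hcf := cont_f hδ0 hf
  have hrrpos : ∀ w ∈ Metric.closedBall (0 : Cn 2) δ, 0 < rr u w := by
    intro w hw
    obtain ⟨h1, h2, _⟩ := small_est hM hu hfl hδ (mem_closedBall_zero_iff.1 hw)
    rw [rr_eq]
    have := (abs_le.1 h1).1
    have := (abs_le.1 h2).1
    linarith
  set E1 : Cn 2 → ℝ := fun w => Real.exp (-(k * (NN2 w + u w))) * rr u w with hE1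
  set E2 : Cn 2 → ℝ := fun w => gk k w * (Real.exp (k * u w) / rr u w) with hE2
  have hcE1 : Continuous E1 := (Real.continuous_exp.comp
    (continuous_const.mul (hcN.add hcu)).neg).mul hcr
  have hcE2 : ContinuousOn E2 (Metric.closedBall (0 : Cn 2) δ) :=
    hcg.continuousOn.mul ((Real.continuous_exp.comp (continuous_const.mul hcu)).continuousOn.div
      hcr.continuousOn fun w hw => (hrrpos w hw).ne')
  have hE1p : ∀ w ∈ Metric.closedBall (0 : Cn 2) δ, 0 < E1 w := fun w hw =>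
    mul_pos (Real.exp_pos _) (hrrpos w hw)
  have hE2p : ∀ w ∈ Metric.closedBall (0 : Cn 2) δ, 0 < E2 w := fun w hw =>
    mul_pos (gk_pos k w) (div_pos (Real.exp_pos _) (hrrpos w hw))
  set U : Cn 2 → ℝ := fun w => ‖f w‖ * √(E1 w) with hU
  set V : Cn 2 → ℝ := fun w => ‖lf k α b w‖ * √(E2 w) with hV
  have hcU : ContinuousOn U (Metric.closedBall (0 : Cn 2) δ) :=
    hcf.norm.mul (Real.continuous_sqrt.comp hcE1).continuousOn
  have hcV : ContinuousOn V (Metric.closedBall (0 : Cn 2) δ) :=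
    hcl.norm.continuousOn.mul (Real.continuous_sqrt.comp_continuousOn hcE2)
  have hint : ∀ {g : Cn 2 → ℝ}, ContinuousOn g (Metric.closedBall (0 : Cn 2) δ) →
      IntegrableOn g (Metric.ball (0 : Cn 2) δ) := fun hg =>
    (hg.integrableOn_compact (isCompact_closedBall _ _)).mono_set Metric.ball_subset_closedBall
  have hcs := cs_int (μ := volume.restrict (Metric.ball (0 : Cn 2) δ)) (U := U) (V := V)
    (hint (hcU.pow 2)) (hint (hcV.pow 2)) (hint (hcU.mul hcV))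
  -- squares
  have e1 : ∫ w in Metric.ball (0 : Cn 2) δ, U w ^ 2 =
      ∫ w in Metric.ball (0 : Cn 2) δ, normSq (f w) * E1 w := by
    refine setIntegral_congr_fun Metric.isOpen_ball.measurableSet fun w hw => ?_
    show (‖f w‖ * √(E1 w)) ^ 2 = normSq (f w) * E1 w
    rw [mul_pow, Real.sq_sqrt (hE1p w (Metric.ball_subset_closedBall hw)).le,
      Complex.normSq_eq_norm_sq]
  have e2 : ∫ w in Metric.ball (0 : Cn 2) δ, V w ^ 2 =
      ∫ w in Metric.ball (0 : Cn 2) δ, normSq (lf k α b w) * E2 w := by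
    refine setIntegral_congr_fun Metric.isOpen_ball.measurableSet fun w hw => ?_
    show (‖lf k α b w‖ * √(E2 w)) ^ 2 = normSq (lf k α b w) * E2 w
    rw [mul_pow, Real.sq_sqrt (hE2p w (Metric.ball_subset_closedBall hw)).le,
      Complex.normSq_eq_norm_sq]
  rw [e1, e2] at hcs
  refine le_trans ?_ hcs
  -- the product
  have hmol := mollify hδ0 hf k α b
  rw [← hmol, Complex.normSq_eq_norm_sq]
  refine pow_le_pow_left₀ (norm_nonneg _) ?_ 2
  refine (norm_integral_le_integral_norm _).trans (le_of_eq ?_)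
  refine setIntegral_congr_fun Metric.isOpen_ball.measurableSet fun w hw => ?_
  have hw' := Metric.ball_subset_closedBall hw
  show ‖(α + k * (b 0 * co true 0 w + b 1 * co true 1 w)) * f w * (gk k w : ℂ)‖ =
    (‖f w‖ * √(E1 w)) * (‖lf k α b w‖ * √(E2 w))
  have e3 : √(E1 w) * √(E2 w) = gk k w := by
    rw [← Real.sqrt_mul (hE1p w hw').le]
    have e4 : E1 w * E2 w = gk k w ^ 2 := by
      rw [hE1, hE2]
      show Real.exp (-(k * (NN2 w + u w))) * rr u w * (gk k w * (Real.exp (k * u w) / rr u w)) = _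
      have hr := (hrrpos w hw').ne'
      have e5 : Real.exp (-(k * (NN2 w + u w))) * Real.exp (k * u w) = gk k w := by
        unfold gk
        rw [← Real.exp_add]
        congr 1
        ring
      field_simp
      rw [← e5]
      ring
    rw [e4, Real.sqrt_sq (gk_pos k w).le]
  rw [norm_mul, norm_mul, Complex.norm_real, Real.norm_of_nonneg (gk_pos k w).le, ← e3]
  show ‖lf k α b w‖ * ‖f w‖ * (√(E1 w) * √(E2 w)) = _
  ring

/-- numerical lemma -/
theorem inv_sq_le {x A : ℝ} (hA : 0 ≤ A) (hA2 : A ≤ 1 / 2) (hx : 1 - A ≤ x) :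
    0 < x ∧ 1 / x ^ 2 ≤ 1 + 6 * A := by
  have hx0 : 1 / 2 ≤ x := by linarith
  have hxp : 0 < x := by linarith
  refine ⟨hxp, ?_⟩
  rw [div_le_iff₀ (by positivity)]
  have h1 : (1 - A) ^ 2 ≤ x ^ 2 := pow_le_pow_left₀ (by linarith) hx 2
  have h2 : 1 ≤ (1 + 6 * A) * (1 - A) ^ 2 := by
    have h4 : 0 ≤ A * ((1 - 2 * A) * (4 - 3 * A)) :=
      mul_nonneg hA (mul_nonneg (by linarith) (by linarith))
    have e : (1 + 6 * A) * (1 - A) ^ 2 = 1 + A * ((1 - 2 * A) * (4 - 3 * A)) := by ring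
    rw [e]
    linarith
  have h3 : (1 + 6 * A) * (1 - A) ^ 2 ≤ (1 + 6 * A) * x ^ 2 :=
    mul_le_mul_of_nonneg_left h1 (by linarith)
  linarith

theorem model {M : ℝ} (hM : 1 ≤ M) {δ : ℝ} (hδ0 : 0 < δ) (hδ : δ ≤ 1 / (32 * M)) :
    ∃ C k₀ : ℝ, 0 ≤ C ∧ 1 ≤ k₀ ∧ ∀ u : Cn 2 → ℝ, Adm M 5 (fun w => (u w : ℂ)) →
      Fl 4 (fun w => (u w : ℂ)) → ∀ k : ℝ, k₀ ≤ k → ∀ f : Cn 2 → ℂ,
      DifferentiableOn ℂ f (Metric.ball 0 (2 * δ)) → ∀ (α : ℂ) (b : Fin 2 → ℂ),
        normSq (α * f 0 + (b 0 * dz 0 f 0 + b 1 * dz 1 f 0)) ≤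
          (k / Real.pi) ^ 2 * (1 - (Lp (Lp fun w => (u w : ℂ)) 0).re / (2 * k) + C / (k * √k)) *
            TT k α b * ∫ w in Metric.ball (0 : Cn 2) δ,
              normSq (f w) * (Real.exp (-(k * (NN2 w + u w))) * rr u w) := by
  have hM0 : 0 < M := by linarith
  set A5 : ℝ := 1 / δ ^ 4 * (mom 4 / Real.pi ^ 2) + 1 / δ ^ 4 * (mom 6 / Real.pi ^ 2) with hA5
  have hA4n : 0 ≤ 1 / δ ^ 4 * (mom 4 / Real.pi ^ 2) := by
    have := mom_nonneg 4
    positivity
  have hA6n : 0 ≤ 1 / δ ^ 4 * (mom 6 / Real.pi ^ 2) := by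
    have := mom_nonneg 6
    positivity
  have hA50 : 0 ≤ A5 := by positivity
  set C1 := cS M δ with hC1
  have hC10 : 0 ≤ C1 := cS_nonneg hM0.le hδ0
  set C : ℝ := C1 + 6 * A5 * (1 + 2 * M + C1) with hC
  refine ⟨C, 1 + 2 * A5 + 4 * M, by positivity, by linarith, fun u hu hfl k hk f hf α b => ?_⟩
  have hk1 : 1 ≤ k := by linarith
  have hk0 : 0 < k := by linarith
  have hkM : 4 * M ≤ k := by linarith
  have hpi := Real.pi_pos
  have hsp : 0 < √k := Real.sqrt_pos.2 hk0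
  -- normalisation constants
  have hkA : A5 / k ^ 2 ≤ 1 / 2 := by
    rw [div_le_iff₀ (by positivity)]
    nlinarith
  have hkA0 : 0 ≤ A5 / k ^ 2 := by positivity
  have g0 : 1 - A5 / k ^ 2 ≤ (k / Real.pi) ^ 2 * c0 k δ := by
    refine le_trans ?_ (a0_ge hk1 hδ0)
    have : 1 / δ ^ 4 * (mom 4 / Real.pi ^ 2) / k ^ 2 ≤ A5 / k ^ 2 :=
      div_le_div_of_nonneg_right (by linarith) (by positivity)
    linarith
  have g1 : ∀ j, 1 - A5 / k ^ 2 ≤ (k / Real.pi) ^ 2 * (k * c1 k δ j) := by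
    intro j
    refine le_trans ?_ (a1_ge hk1 hδ0 j)
    have : 1 / δ ^ 4 * (mom 6 / Real.pi ^ 2) / k ^ 2 ≤ A5 / k ^ 2 :=
      div_le_div_of_nonneg_right (by linarith) (by positivity)
    linarith
  set a0 : ℝ := (k / Real.pi) ^ 2 * c0 k δ with ha0
  set a1 : Fin 2 → ℝ := fun j => (k / Real.pi) ^ 2 * (k * c1 k δ j) with ha1
  obtain ⟨p0, q0⟩ := inv_sq_le hkA0 hkA g0
  have pq1 := fun j => inv_sq_le hkA0 hkA (g1 j)
  set α' : ℂ := α / (a0 : ℂ) with hα'
  set b' : Fin 2 → ℂ := fun j => b j / (a1 j : ℂ) with hb'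
  have h0c : (a0 : ℂ) ≠ 0 := by exact_mod_cast p0.ne'
  have h1c : ∀ j, (a1 j : ℂ) ≠ 0 := fun j => by exact_mod_cast (pq1 j).1.ne'
  have hdual := duality hM hu hfl hδ0 hδ k hf α' b'
  have hsec := second hM hu hfl hδ0 hδ hk1 α' b'
  set I1 := ∫ w in Metric.ball (0 : Cn 2) δ,
    normSq (f w) * (Real.exp (-(k * (NN2 w + u w))) * rr u w) with hI1
  set S2 := ∫ w in Metric.ball (0 : Cn 2) δ, normSq (lf k α' b' w) *
        (gk k w * (Real.exp (k * u w) / rr u w)) with hS2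
  have hI10 : 0 ≤ I1 := by
    refine setIntegral_nonneg Metric.isOpen_ball.measurableSet fun w hw => ?_
    obtain ⟨h1, h2, _⟩ := small_est hM hu hfl hδ (mem_ball_zero_iff.1 hw).le
    have h3 : 0 ≤ rr u w := by
      rw [rr_eq]
      have := (abs_le.1 h1).1
      have := (abs_le.1 h2).1
      linarith
    exact mul_nonneg (Complex.normSq_nonneg _) (mul_nonneg (Real.exp_pos _).le h3)
  -- rewriting the functional
  have hX : (((k / Real.pi) ^ 2 : ℝ) : ℂ) * ((c0 k δ : ℂ) * α' * f 0 +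
      k * ((c1 k δ 0 : ℂ) * b' 0 * dz 0 f 0 + (c1 k δ 1 : ℂ) * b' 1 * dz 1 f 0)) =
      α * f 0 + (b 0 * dz 0 f 0 + b 1 * dz 1 f 0) := by
    have e0 : (((k / Real.pi) ^ 2 : ℝ) : ℂ) * (c0 k δ : ℂ) * α' = α := by
      have : (((k / Real.pi) ^ 2 : ℝ) : ℂ) * (c0 k δ : ℂ) = (a0 : ℂ) := by
        rw [ha0]
        push_cast
        ring
      rw [this, hα']
      field_simp
    have e1 : ∀ j, (((k / Real.pi) ^ 2 : ℝ) : ℂ) * (k * (c1 k δ j : ℂ)) * b' j = b j := by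
      intro j
      have : (((k / Real.pi) ^ 2 : ℝ) : ℂ) * (k * (c1 k δ j : ℂ)) = (a1 j : ℂ) := by
        rw [ha1]
        push_cast
        ring
      rw [this, hb']
      have := h1c j
      field_simp
    linear_combination (f 0) * e0 + (dz 0 f 0) * e1 0 + (dz 1 f 0) * e1 1
  have hX2 : normSq (α * f 0 + (b 0 * dz 0 f 0 + b 1 * dz 1 f 0)) =
      ((k / Real.pi) ^ 2) ^ 2 * normSq ((c0 k δ : ℂ) * α' * f 0 +
      k * ((c1 k δ 0 : ℂ) * b' 0 * dz 0 f 0 + (c1 k δ 1 : ℂ) * b' 1 * dz 1 f 0)) := by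
    rw [← hX, map_mul, Complex.normSq_ofReal]
    ring
  rw [hX2]
  have s1 := mul_le_mul_of_nonneg_left hdual (sq_nonneg ((k / Real.pi) ^ 2))
  refine s1.trans ?_
  -- the parameters
  have hTT : TT k α' b' ≤ (1 + 6 * (A5 / k ^ 2)) * TT k α b := by
    have n0 : normSq α' ≤ (1 + 6 * (A5 / k ^ 2)) * normSq α := by
      rw [hα', map_div₀, Complex.normSq_ofReal]
      calc normSq α / (a0 * a0) = 1 / a0 ^ 2 * normSq α := by ring
        _ ≤ _ := mul_le_mul_of_nonneg_right q0 (Complex.normSq_nonneg _)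
    have n1 : ∀ j, normSq (b' j) ≤ (1 + 6 * (A5 / k ^ 2)) * normSq (b j) := by
      intro j
      rw [hb']
      show normSq (b j / (a1 j : ℂ)) ≤ _
      rw [map_div₀, Complex.normSq_ofReal]
      calc normSq (b j) / (a1 j * a1 j) = 1 / (a1 j) ^ 2 * normSq (b j) := by ring
        _ ≤ _ := mul_le_mul_of_nonneg_right (pq1 j).2 (Complex.normSq_nonneg _)
    unfold TT
    have := mul_le_mul_of_nonneg_left (n1 0) hk0.le
    have := mul_le_mul_of_nonneg_left (n1 1) hk0.le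
    linarith
  have hT0 := TT_nonneg hk0.le α b
  set L : ℝ := (Lp (Lp fun w => (u w : ℂ)) 0).re with hL
  have hLb : |L| ≤ 4 * M := by
    refine (Complex.abs_re_le_norm _).trans ?_
    rw [Lp_Lp hu.smooth]
    have t := fun i j => ((((hu.Wd true i).Wd false i).Wd true j).Wd false j).bd 0 (by norm_num) 0
    have t00 := t 0 0
    have t01 := t 0 1
    have t10 := t 1 0
    have t11 := t 1 1
    refine (norm_add_le _ _).trans ((add_le_add (norm_add_le _ _) (norm_add_le _ _)).trans ?_)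
    linarith
  have hL2 : |L / (2 * k)| ≤ 1 / 2 := by
    rw [abs_div, abs_of_pos (by positivity : 0 < 2 * k), div_le_iff₀ (by positivity)]
    linarith
  have hL3 := abs_le.1 hL2
  set Z : ℝ := 1 - L / (2 * k) + C1 / (k * √k) with hZ
  have hC1k : 0 ≤ C1 / (k * √k) := by positivity
  have hZ0 : 0 ≤ Z := by linarith [hL3.2]
  have hkk1 : 1 ≤ k * √k := by
    have : 1 ≤ √k := Real.one_le_sqrt.2 hk1
    nlinarith
  have hZ1 : Z ≤ 1 + 2 * M + C1 := by
    have h2 : C1 / (k * √k) ≤ C1 := div_le_self hC10 hkk1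
    have := hL3.1
    linarith
  have hsk : √k ≤ k := by
    rw [Real.sqrt_le_left hk0.le]
    nlinarith
  have hA5k : A5 / k ^ 2 ≤ A5 / (k * √k) := by
    refine div_le_div_of_nonneg_left hA50 (by positivity) ?_
    rw [pow_two]
    exact mul_le_mul_of_nonneg_left hsk hk0.le
  have hfin : (1 + 6 * (A5 / k ^ 2)) * Z ≤ 1 - L / (2 * k) + C / (k * √k) := by
    have h1 : 6 * (A5 / k ^ 2) * Z ≤ 6 * (A5 / (k * √k)) * (1 + 2 * M + C1) :=
      mul_le_mul (by linarith) hZ1 hZ0 (by positivity)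
    have e : 1 - L / (2 * k) + C / (k * √k) = Z + 6 * (A5 / (k * √k)) * (1 + 2 * M + C1) := by
      rw [hC, hZ]
      ring
    rw [e]
    linarith
  have hsec2 : (k / Real.pi) ^ 2 * S2 ≤ (1 - L / (2 * k) + C / (k * √k)) * TT k α b := by
    refine hsec.trans ?_
    calc TT k α' b' * Z ≤ ((1 + 6 * (A5 / k ^ 2)) * TT k α b) * Z :=
          mul_le_mul_of_nonneg_right hTT hZ0
      _ = ((1 + 6 * (A5 / k ^ 2)) * Z) * TT k α b := by ring
      _ ≤ _ := mul_le_mul_of_nonneg_right hfin hT0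
  calc ((k / Real.pi) ^ 2) ^ 2 * (I1 * S2) = ((k / Real.pi) ^ 2 * I1) * ((k / Real.pi) ^ 2 * S2) := by
        ring
    _ ≤ ((k / Real.pi) ^ 2 * I1) * ((1 - L / (2 * k) + C / (k * √k)) * TT k α b) :=
        mul_le_mul_of_nonneg_left hsec2 (by positivity)
    _ = _ := by ring

end Pool.Agent.Y486
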