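import Pool.Agent.Y486.LModelB

/-!
# Normal form: flatness
-/

set_option autoImplicit false

open scoped Manifold ContDiff Topology ComplexConjugate Matrix
open MeasureTheory Set Filter

namespace Pool.Agent.Y486

open Pool.Agent.W549.CY (Cn dz dzbar)
open Pool.Agent.TH997.CMan
open Complex (normSq)

/-- conjugation -/
noncomputable def cj (f : Cn 2 → ℂ) (w : Cn 2) : ℂ := conj (f w)

theorem Wd_cj (τ : Bool) (j : Fin 2) (f : Cn 2 → ℂ) : Wd τ j (cj f) = cj (Wd (!τ) j f) := by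
  funext w
  cases τ
  · rw [Wd_false, Bool.not_false, Wd_true]
    exact Pool.Agent.TH598.KG.dz_conj j f w
  · rw [Wd_true, Bool.not_true, Wd_false]
    exact Pool.Agent.TH598.KG.dzbar_conj j f w

theorem smooth_cj {f : Cn 2 → ℂ} (hf : ContDiff ℝ ∞ f) : ContDiff ℝ ∞ (cj f) :=
  (Complex.conjCLE : ℂ →L[ℝ] ℂ).contDiff.comp hf

theorem Fl4_of {F : Cn 2 → ℂ} (hF : ContDiff ℝ ∞ F) (hr : cj F = F) (h0 : F 0 = 0)
    (h1 : ∀ a, Wd false a F 0 = 0) (h2 : ∀ a b, Wd false a (Wd false b F) 0 = 0)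
    (h2' : ∀ a b, Wd false a (Wd true b F) 0 = 0)
    (h3 : ∀ a b c, Wd false a (Wd false b (Wd false c F)) 0 = 0)
    (h3' : ∀ a b c, Wd false a (Wd false b (Wd true c F)) 0 = 0) : Fl 4 F := by
  have flip : ∀ τ a, Wd τ a F = cj (Wd (!τ) a F) := by
    intro τ a
    conv_lhs => rw [← hr]
    exact Wd_cj τ a F
  have flip2 : ∀ τ a τ' b, Wd τ a (Wd τ' b F) = cj (Wd (!τ) a (Wd (!τ') b F)) := by
    intro τ a τ' b
    rw [flip τ' b, Wd_cj]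
  have flip3 : ∀ τ a τ' b τ'' c, Wd τ a (Wd τ' b (Wd τ'' c F)) =
      cj (Wd (!τ) a (Wd (!τ') b (Wd (!τ'') c F))) := by
    intro τ a τ' b τ'' c
    rw [flip2 τ' b τ'' c, Wd_cj]
  have cj0 : ∀ {f : Cn 2 → ℂ}, f 0 = 0 → cj f 0 = 0 := by
    intro f hf
    show conj (f 0) = 0
    rw [hf, map_zero]
  have k1 : ∀ τ a, Wd τ a F 0 = 0 := by
    intro τ a
    cases τ
    · exact h1 a
    · rw [flip]
      exact cj0 (h1 a)
  have k2 : ∀ τ a τ' b, Wd τ a (Wd τ' b F) 0 = 0 := by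
    intro τ a τ' b
    cases τ <;> cases τ'
    · exact h2 a b
    · exact h2' a b
    · rw [Wd_comm' hF]
      exact h2' b a
    · rw [flip2]
      exact cj0 (h2 a b)
  have k3' : ∀ a b c, Wd false a (Wd true b (Wd false c F)) 0 = 0 := by
    intro a b c
    rw [Wd_comm' hF true false b c]
    exact h3' a c b
  have k3'' : ∀ a b c, Wd true a (Wd false b (Wd false c F)) 0 = 0 := by
    intro a b c
    rw [Wd_comm' (smooth_Wd hF _ _) true false a b]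
    exact k3' b a c
  have k3 : ∀ τ a τ' b τ'' c, Wd τ a (Wd τ' b (Wd τ'' c F)) 0 = 0 := by
    intro τ a τ' b τ'' c
    cases τ <;> cases τ' <;> cases τ''
    · exact h3 a b c
    · exact h3' a b c
    · exact k3' a b c
    · rw [flip3]
      exact cj0 (k3'' a b c)
    · exact k3'' a b c
    · rw [flip3]
      exact cj0 (k3' a b c)
    · rw [flip3]
      exact cj0 (h3' a b c)
    · rw [flip3]
      exact cj0 (h3 a b c)
  exact ⟨h0, fun τ1 j1 => ⟨k1 τ1 j1, fun τ2 j2 => ⟨k2 τ2 j2 τ1 j1, fun τ3 j3 =>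
    ⟨k3 τ3 j3 τ2 j2 τ1 j1, fun _ _ => trivial⟩⟩⟩⟩

/-! ### Holomorphic polynomials -/

/-- cubic holomorphic polynomials -/
noncomputable def hol3 (c0 : ℂ) (c1 : Fin 2 → ℂ) (c2 : Fin 2 → Fin 2 → ℂ)
    (c3 : Fin 2 → Fin 2 → Fin 2 → ℂ) (w : Cn 2) : ℂ :=
  c0 + (c1 0 * w 0 + c1 1 * w 1) +
    (1 / 2) * (c2 0 0 * w 0 ^ 2 + 2 * c2 0 1 * (w 0 * w 1) + c2 1 1 * w 1 ^ 2) +
    (1 / 6) * (c3 0 0 0 * w 0 ^ 3 + 3 * c3 0 0 1 * (w 0 ^ 2 * w 1) + 3 * c3 0 1 1 * (w 0 * w 1 ^ 2) +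
      c3 1 1 1 * w 1 ^ 3)

theorem hasFDerivAt_hol3 (c0 : ℂ) (c1 : Fin 2 → ℂ) (c2 : Fin 2 → Fin 2 → ℂ)
    (c3 : Fin 2 → Fin 2 → Fin 2 → ℂ) (w : Cn 2) :
    HasFDerivAt (hol3 c0 c1 c2 c3)
      ((c1 0 + (c2 0 0 * w 0 + c2 0 1 * w 1) + (1 / 2) * (c3 0 0 0 * w 0 ^ 2 +
        2 * c3 0 0 1 * (w 0 * w 1) + c3 0 1 1 * w 1 ^ 2)) •
          (ContinuousLinearMap.proj 0 : Cn 2 →L[ℂ] ℂ) +
      (c1 1 + (c2 0 1 * w 0 + c2 1 1 * w 1) + (1 / 2) * (c3 0 0 1 * w 0 ^ 2 +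
        2 * c3 0 1 1 * (w 0 * w 1) + c3 1 1 1 * w 1 ^ 2)) •
          (ContinuousLinearMap.proj 1 : Cn 2 →L[ℂ] ℂ)) w := by
  have h0 := hasFDerivAt_coord 0 w
  have h1 := hasFDerivAt_coord 1 w
  have e1 := ((h0.const_mul (c1 0)).add (h1.const_mul (c1 1))).const_add c0
  have e2 := ((((h0.pow 2).const_mul (c2 0 0)).add ((h0.mul h1).const_mul (2 * c2 0 1))).add
    ((h1.pow 2).const_mul (c2 1 1))).const_mul (1 / 2)
  have e3 := (((((h0.pow 3).const_mul (c3 0 0 0)).add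
    (((h0.pow 2).mul h1).const_mul (3 * c3 0 0 1))).add
    ((h0.mul (h1.pow 2)).const_mul (3 * c3 0 1 1))).add ((h1.pow 3).const_mul (c3 1 1 1))).const_mul
    (1 / 6)
  have e := (e1.add e2).add e3
  refine HasFDerivAt.congr_fderiv e ?_
  ext v
  simp only [add_apply, smul_apply, ContinuousLinearMap.proj_apply, smul_eq_mul, nsmul_eq_mul]
  push_cast
  simp only [Nat.add_one_sub_one, pow_one]
  ring

theorem holDiff_hol3 (c0 : ℂ) (c1 : Fin 2 → ℂ) (c2 : Fin 2 → Fin 2 → ℂ)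
    (c3 : Fin 2 → Fin 2 → Fin 2 → ℂ) : Differentiable ℂ (hol3 c0 c1 c2 c3) := fun w =>
  (hasFDerivAt_hol3 c0 c1 c2 c3 w).differentiableAt

theorem Wd_hol {h : Cn 2 → ℂ} {w : Cn 2} {L : Cn 2 →L[ℂ] ℂ} (hh : HasFDerivAt h L w) (j : Fin 2) :
    Wd false j h w = L (Pi.single j 1) ∧ Wd true j h w = 0 := by
  have hR : fderiv ℝ h w = L.restrictScalars ℝ := (hh.restrictScalars ℝ).fderiv
  have hI : L (Pi.single j Complex.I) = Complex.I * L (Pi.single j 1) := by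
    rw [single_I, map_smul, smul_eq_mul]
  constructor
  · unfold Wd
    rw [hR]
    show 1 / 2 * (L (Pi.single j 1) + cI false * L (Pi.single j Complex.I)) = _
    rw [hI]
    simp only [cI, cond_false]
    linear_combination (-(1 / 2) * L (Pi.single j 1)) * Complex.I_mul_I
  · unfold Wd
    rw [hR]
    show 1 / 2 * (L (Pi.single j 1) + cI true * L (Pi.single j Complex.I)) = _
    rw [hI]
    simp only [cI, cond_true]
    linear_combination ((1 / 2) * L (Pi.single j 1)) * Complex.I_mul_I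

theorem Wd_true_hol3 (c0 : ℂ) (c1 : Fin 2 → ℂ) (c2 : Fin 2 → Fin 2 → ℂ)
    (c3 : Fin 2 → Fin 2 → Fin 2 → ℂ) (j : Fin 2) : Wd true j (hol3 c0 c1 c2 c3) = fun _ => 0 := by
  funext w
  exact (Wd_hol (hasFDerivAt_hol3 c0 c1 c2 c3 w) j).2

theorem Wd_false_hol3 (c0 : ℂ) (c1 : Fin 2 → ℂ) {c2 : Fin 2 → Fin 2 → ℂ}
    {c3 : Fin 2 → Fin 2 → Fin 2 → ℂ} (s2 : c2 1 0 = c2 0 1) (s3 : c3 1 0 0 = c3 0 0 1)
    (s3' : c3 1 0 1 = c3 0 1 1) (j : Fin 2) :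
    Wd false j (hol3 c0 c1 c2 c3) = hol3 (c1 j) (c2 j) (c3 j) 0 := by
  funext w
  rw [(Wd_hol (hasFDerivAt_hol3 c0 c1 c2 c3 w) j).1]
  rcases (show j = 0 ∨ j = 1 by fin_cases j <;> simp) with rfl | rfl
  · unfold hol3
    simp
  · unfold hol3
    simp [s2, s3, s3']

theorem hol3_zero (c0 : ℂ) (c1 : Fin 2 → ℂ) (c2 : Fin 2 → Fin 2 → ℂ)
    (c3 : Fin 2 → Fin 2 → Fin 2 → ℂ) : hol3 c0 c1 c2 c3 0 = c0 := by
  unfold hol3
  simp

theorem smooth_hol3 (c0 : ℂ) (c1 : Fin 2 → ℂ) (c2 : Fin 2 → Fin 2 → ℂ)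
    (c3 : Fin 2 → Fin 2 → Fin 2 → ℂ) : ContDiff ℝ ∞ (hol3 c0 c1 c2 c3) := by
  have h0 : ContDiff ℝ ∞ fun w : Cn 2 => w 0 := contDiff_apply ℝ ℂ (0 : Fin 2)
  have h1 : ContDiff ℝ ∞ fun w : Cn 2 => w 1 := contDiff_apply ℝ ℂ (1 : Fin 2)
  unfold hol3
  fun_prop

end Pool.Agent.Y486
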