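import Pool.Agent.Y486.LNorm1

/-!
# Normal form: the quadratic change of coordinates
-/

set_option autoImplicit false

open scoped Manifold ContDiff Topology ComplexConjugate Matrix
open MeasureTheory Set Filter

namespace Pool.Agent.Y486

open Pool.Agent.W549.CY (Cn dz dzbar)
open Pool.Agent.TH997.CMan
open Complex (normSq)

/-- the quadratic map -/
noncomputable def Th (T : Fin 2 → Fin 2 → Fin 2 → ℂ) (w : Cn 2) : Cn 2 := fun c =>
  hol3 0 (Pi.single c 1) (fun a b => -T a b c) 0 w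

/-- its Jacobian matrix -/
noncomputable def Jt (T : Fin 2 → Fin 2 → Fin 2 → ℂ) (b e : Fin 2) : Cn 2 → ℂ :=
  hol3 ((Pi.single e 1 : Fin 2 → ℂ) b) (fun a => -T b a e) 0 0

theorem hasFDerivAt_Th (T : Fin 2 → Fin 2 → Fin 2 → ℂ) (w : Cn 2) :
    HasFDerivAt (Th T) (ContinuousLinearMap.pi fun c : Fin 2 =>
      fderiv ℂ (hol3 0 (Pi.single c 1) (fun a b => -T a b c) 0) w) w :=
  hasFDerivAt_pi.2 fun c => (holDiff_hol3 0 (Pi.single c 1) (fun a b => -T a b c) 0 w).hasFDerivAt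

theorem fderiv_Th {T : Fin 2 → Fin 2 → Fin 2 → ℂ} (hT : ∀ c, T 1 0 c = T 0 1 c) (w : Cn 2)
    (b e : Fin 2) : fderiv ℂ (Th T) w (Pi.single b 1) e = Jt T b e w := by
  rw [(hasFDerivAt_Th T w).fderiv]
  have h1 := (Wd_hol (holDiff_hol3 0 (Pi.single e 1) (fun a b => -T a b e) 0 w).hasFDerivAt b).1
  have h2 := congrFun (Wd_false_hol3 0 (Pi.single e 1) (c2 := fun a b => -T a b e) (c3 := 0)
    (by rw [hT]) rfl rfl b) w
  rw [h1] at h2
  exact h2

theorem cdC_hol3 (c0 : ℂ) (c1 : Fin 2 → ℂ) (c2 : Fin 2 → Fin 2 → ℂ)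
    (c3 : Fin 2 → Fin 2 → Fin 2 → ℂ) {n : WithTop ℕ∞} : ContDiff ℂ n (hol3 c0 c1 c2 c3) := by
  have h0 : ContDiff ℂ n fun w : Cn 2 => w 0 := contDiff_apply ℂ ℂ (0 : Fin 2)
  have h1 : ContDiff ℂ n fun w : Cn 2 => w 1 := contDiff_apply ℂ ℂ (1 : Fin 2)
  unfold hol3
  fun_prop

theorem cdC_Th (T : Fin 2 → Fin 2 → Fin 2 → ℂ) {n : WithTop ℕ∞} : ContDiff ℂ n (Th T) :=
  contDiff_pi.2 fun _ => cdC_hol3 _ _ _ _

theorem Th_zero (T : Fin 2 → Fin 2 → Fin 2 → ℂ) : Th T 0 = 0 := by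
  funext c
  exact hol3_zero _ _ _ _

theorem Jt_zero (T : Fin 2 → Fin 2 → Fin 2 → ℂ) (b e : Fin 2) : Jt T b e 0 = if b = e then 1 else 0 := by
  unfold Jt
  rw [hol3_zero, Pi.single_apply]

section phi

variable {G : Cn 2 → ℂ} {T : Fin 2 → Fin 2 → Fin 2 → ℂ}

theorem smooth_Ph (hG : ContDiff ℝ ∞ G) : ContDiff ℝ ∞ fun w => G (Th T w) :=
  hG.comp ((cdC_Th T).restrict_scalars ℝ)

theorem levi_Ph (hG : ContDiff ℝ ∞ G) (hT : ∀ c, T 1 0 c = T 0 1 c) (b c : Fin 2) (w : Cn 2) :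
    Wd false b (Wd true c fun w => G (Th T w)) w = ∑ e, ∑ d, Jt T b e w *
      conj (Jt T c d w) * Wd false e (Wd true d G) (Th T w) := by
  rw [Wd_true, Wd_false, levi_comp (smooth_cd2 hG _) (cdC_Th T).contDiffAt]
  simp only [fderiv_Th hT, Wd_true, Wd_false]

theorem Wd_Th (hG : ContDiff ℝ ∞ G) (hT : ∀ c, T 1 0 c = T 0 1 c) (a : Fin 2) :
    Wd false a (fun w => G (Th T w)) 0 = Wd false a G 0 := by
  rw [Wd_false, dz_comp (smooth_diff hG _) ((cdC_Th T (n := 1)).contDiffAt.differentiableAt (by simp)),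
    Fin.sum_univ_two, fderiv_Th hT, fderiv_Th hT, Jt_zero, Jt_zero, Th_zero]
  rcases (show a = 0 ∨ a = 1 by fin_cases a <;> simp) with rfl | rfl <;> simp [Wd_false]

theorem Wd_fin_sum {ι : Type} {s : Finset ι} {u : ι → Cn 2 → ℂ} {p : Cn 2}
    (hu : ∀ i ∈ s, DifferentiableAt ℝ (u i) p) (τ : Bool) (j : Fin 2) :
    Wd τ j (fun w => ∑ i ∈ s, u i w) p = ∑ i ∈ s, Wd τ j (u i) p := by
  unfold Wd
  rw [fderiv_fun_sum hu]
  simp only [sum_apply, Finset.mul_sum, ← Finset.sum_add_distrib]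

theorem third (hG : ContDiff ℝ ∞ G) (hI : ∀ a b, Wd false a (Wd true b G) 0 = if a = b then 1 else 0)
    (hTG : ∀ a b c, T a b c = Wd false a (Wd false b (Wd true c G)) 0) (a b c : Fin 2) :
    Wd false a (Wd false b (Wd true c fun w => G (Th T w))) 0 = 0 := by
  have hsym : ∀ a b c, T a b c = T b a c := by
    intro a b c
    rw [hTG, hTG, Wd_comm' (smooth_Wd hG _ _)]
  have hT : ∀ c, T 1 0 c = T 0 1 c := fun c => hsym 1 0 c
  have hfun : Wd false b (Wd true c fun w => G (Th T w)) = fun w => ∑ e, ∑ d, Jt T b e w *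
      conj (Jt T c d w) * Wd false e (Wd true d G) (Th T w) := by
    funext w
    exact levi_Ph hG hT b c w
  rw [hfun]
  have hJs : ∀ b e, ContDiff ℝ ∞ (Jt T b e) := fun b e => smooth_hol3 _ _ _ _
  have hH : ∀ e d, ContDiff ℝ ∞ (Wd false e (Wd true d G)) := fun e d =>
    smooth_Wd (smooth_Wd hG _ _) _ _
  have hHc : ∀ e d, ContDiff ℝ ∞ fun w => Wd false e (Wd true d G) (Th T w) := fun e d =>
    smooth_Ph (hH e d)
  have hterm : ∀ e d, ContDiff ℝ ∞ fun w => Jt T b e w * conj (Jt T c d w) *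
      Wd false e (Wd true d G) (Th T w) := fun e d =>
    ((hJs b e).mul (smooth_cj (hJs c d))).mul (hHc e d)
  rw [Wd_fin_sum fun e _ => smooth_diff (ContDiff.sum fun d _ => hterm e d) _]
  have h1 : ∀ e, Wd false a (fun w => ∑ d, Jt T b e w * conj (Jt T c d w) *
      Wd false e (Wd true d G) (Th T w)) 0 = ∑ d, Wd false a (fun w => Jt T b e w *
      conj (Jt T c d w) * Wd false e (Wd true d G) (Th T w)) 0 := fun e =>
    Wd_fin_sum (fun d _ => smooth_diff (hterm e d) _) _ _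
  simp only [h1]
  have hJa : ∀ b e, Wd false a (Jt T b e) 0 = -T b a e := by
    intro b e
    have h2 := congrFun (Wd_false_hol3 ((Pi.single e 1 : Fin 2 → ℂ) b) (fun a => -T b a e)
      (c2 := 0) (c3 := 0) rfl rfl rfl a) 0
    rw [hol3_zero] at h2
    exact h2
  have hJb : ∀ c d, Wd false a (fun w => conj (Jt T c d w)) 0 = 0 := by
    intro c d
    have h2 : Wd false a (cj (Jt T c d)) 0 = 0 := by
      rw [Wd_cj, Bool.not_false]
      unfold Jt
      rw [Wd_true_hol3]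
      show conj (0 : ℂ) = 0
      rw [map_zero]
    exact h2
  have hHa : ∀ e d, Wd false a (fun w => Wd false e (Wd true d G) (Th T w)) 0 =
      Wd false a (Wd false e (Wd true d G)) 0 := fun e d => Wd_Th (hH e d) hT a
  have h2 : ∀ e d, Wd false a (fun w => Jt T b e w * conj (Jt T c d w) *
      Wd false e (Wd true d G) (Th T w)) 0 =
      -T b a e * (if c = d then 1 else 0) * (if e = d then 1 else 0) +
      (if b = e then 1 else 0) * (if c = d then 1 else 0) * T a e d := by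
    intro e d
    have m1 := Wd_mul (u := fun w => Jt T b e w * conj (Jt T c d w))
      (v := fun w => Wd false e (Wd true d G) (Th T w)) (p := 0)
      (smooth_diff ((hJs b e).mul (smooth_cj (hJs c d))) 0) (smooth_diff (hHc e d) 0) false a
    have m2 := Wd_mul (u := Jt T b e) (v := fun w => conj (Jt T c d w)) (p := 0)
      (smooth_diff (hJs b e) 0) (smooth_diff (smooth_cj (hJs c d)) 0) false a
    rw [m1, m2, hJa, hJb, hHa, Jt_zero, Jt_zero, Th_zero, hI, ← hTG]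
    have e1 : conj (if c = d then (1 : ℂ) else 0) = if c = d then 1 else 0 := by
      split_ifs <;> simp
    rw [e1]
    ring
  simp only [h2, Fin.sum_univ_two]
  rcases (show b = 0 ∨ b = 1 by fin_cases b <;> simp) with rfl | rfl <;>
    rcases (show c = 0 ∨ c = 1 by fin_cases c <;> simp) with rfl | rfl <;>
    simp [hsym a 0, hsym a 1]

end phi

/-! ### The normalised function -/

/-- the holomorphic Taylor polynomial -/
noncomputable def hH (Φ : Cn 2 → ℂ) : Cn 2 → ℂ :=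
  hol3 (Φ 0 / 2) (fun a => Wd false a Φ 0) (fun a b => Wd false a (Wd false b Φ) 0)
    (fun a b c => Wd false a (Wd false b (Wd false c Φ)) 0)

/-- the normalised function -/
noncomputable def Fn4 (Φ : Cn 2 → ℂ) (w : Cn 2) : ℂ :=
  Φ w - hH Φ w - cj (hH Φ) w - (NN2 w : ℂ)

theorem smooth_hH (Φ : Cn 2 → ℂ) : ContDiff ℝ ∞ (hH Φ) := smooth_hol3 _ _ _ _

theorem smooth_NN2c : ContDiff ℝ ∞ fun w : Cn 2 => (NN2 w : ℂ) :=
  Complex.ofRealCLM.contDiff.comp smooth_NN2

theorem smooth_Fn4 {Φ : Cn 2 → ℂ} (hΦ : ContDiff ℝ ∞ Φ) : ContDiff ℝ ∞ (Fn4 Φ) :=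
  ((hΦ.sub (smooth_hH Φ)).sub (smooth_cj (smooth_hH Φ))).sub smooth_NN2c

theorem Wd_sub {u v : Cn 2 → ℂ} {p : Cn 2} (hu : DifferentiableAt ℝ u p)
    (hv : DifferentiableAt ℝ v p) (τ : Bool) (j : Fin 2) :
    Wd τ j (fun w => u w - v w) p = Wd τ j u p - Wd τ j v p := by
  have h := Wd_sub_const_mul hu hv 1 τ j
  simpa using h

theorem Wd_NN2 (τ : Bool) (j : Fin 2) : Wd τ j (fun w => (NN2 w : ℂ)) = co (!τ) j := by
  have e : (fun w : Cn 2 => (NN2 w : ℂ)) = fun w => co false 0 w * co true 0 w +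
      co false 1 w * co true 1 w := by
    funext w
    unfold NN2
    push_cast
    rw [← Complex.mul_conj, ← Complex.mul_conj]
    rfl
  rw [e]
  funext p
  have s : ∀ τ i, DifferentiableAt ℝ (co τ i) p := fun τ i => smooth_diff (smooth_co τ i) p
  have m := fun i => Wd_mul (s false i) (s true i) τ j
  have a := Wd_add (u := fun w => co false 0 w * co true 0 w) (v := fun w => co false 1 w * co true 1 w)
    ((s false 0).mul (s true 0)) ((s false 1).mul (s true 1)) τ j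
  rw [a, m, m, Wd_co, Wd_co, Wd_co, Wd_co]
  cases τ <;> rcases (show j = 0 ∨ j = 1 by fin_cases j <;> simp) with rfl | rfl <;> simp

theorem flat_Fn4 {Φ : Cn 2 → ℂ} (hΦ : ContDiff ℝ ∞ Φ) (hr : cj Φ = Φ)
    (hI : ∀ a b, Wd false a (Wd true b Φ) 0 = if a = b then 1 else 0)
    (h3 : ∀ a b c, Wd false a (Wd false b (Wd true c Φ)) 0 = 0) : Fl 4 (Fn4 Φ) := by
  set c1 : Fin 2 → ℂ := fun a => Wd false a Φ 0 with hc1
  set c2 : Fin 2 → Fin 2 → ℂ := fun a b => Wd false a (Wd false b Φ) 0 with hc2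
  set c3 : Fin 2 → Fin 2 → Fin 2 → ℂ := fun a b c => Wd false a (Wd false b (Wd false c Φ)) 0 with hc3
  have hh : hH Φ = hol3 (Φ 0 / 2) c1 c2 c3 := rfl
  have sW : ∀ τ j, ContDiff ℝ ∞ (Wd τ j Φ) := fun τ j => smooth_Wd hΦ τ j
  have s2 : ∀ a b, c2 a b = c2 b a := fun a b => by
    show Wd false a (Wd false b Φ) 0 = Wd false b (Wd false a Φ) 0
    rw [Wd_comm' hΦ]
  have s3 : ∀ a b c, c3 a b c = c3 b a c := fun a b c => by
    show Wd false a (Wd false b (Wd false c Φ)) 0 = Wd false b (Wd false a (Wd false c Φ)) 0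
    rw [Wd_comm' (sW _ _)]
  have s3' : ∀ a b c, c3 a b c = c3 a c b := fun a b c => by
    show Wd false a (Wd false b (Wd false c Φ)) 0 = Wd false a (Wd false c (Wd false b Φ)) 0
    rw [Wd_comm' hΦ false false b c]
  -- derivatives of `h`
  have d1 : ∀ j, Wd false j (hH Φ) = hol3 (c1 j) (c2 j) (c3 j) 0 := fun j => by
    rw [hh]
    exact Wd_false_hol3 _ _ (s2 1 0) ((s3 1 0 0).trans (s3' 0 1 0)) (s3 1 0 1) j
  have d2 : ∀ i j, Wd false i (Wd false j (hH Φ)) = hol3 (c2 j i) (c3 j i) 0 0 := fun i j => by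
    rw [d1]
    exact Wd_false_hol3 _ _ (s3' j 1 0) rfl rfl i
  have d3 : ∀ l i j, Wd false l (Wd false i (Wd false j (hH Φ))) = hol3 (c3 j i l) 0 0 0 :=
    fun l i j => by
    rw [d2]
    exact Wd_false_hol3 _ _ rfl rfl rfl l
  have dt : ∀ j, Wd true j (hH Φ) = fun _ => 0 := fun j => Wd_true_hol3 _ _ _ _ j
  have zc : ∀ (τ : Bool) (j : Fin 2), Wd τ j (fun _ : Cn 2 => (0 : ℂ)) = fun _ => 0 := fun τ j => by
    funext p
    exact Wd_const 0 τ j p
  -- derivatives of the conjugate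
  have e1 : ∀ j, Wd false j (cj (hH Φ)) = fun _ => 0 := fun j => by
    rw [Wd_cj, Bool.not_false, dt]
    funext w
    show conj (0 : ℂ) = 0
    rw [map_zero]
  have hsm := smooth_hH Φ
  have hcsm := smooth_cj hsm
  -- derivatives of the sum
  have gen : ∀ τ j, Wd τ j (Fn4 Φ) = fun w => Wd τ j Φ w - Wd τ j (hH Φ) w -
      Wd τ j (cj (hH Φ)) w - co (!τ) j w := by
    intro τ j
    funext w
    have t1 := Wd_sub (u := fun w => Φ w - hH Φ w - cj (hH Φ) w) (v := fun w => (NN2 w : ℂ)) (p := w)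
      (smooth_diff ((hΦ.sub hsm).sub hcsm) w) (smooth_diff smooth_NN2c w) τ j
    have t2 := Wd_sub (u := fun w => Φ w - hH Φ w) (v := cj (hH Φ)) (p := w)
      (smooth_diff (hΦ.sub hsm) w) (smooth_diff hcsm w) τ j
    have t3 := Wd_sub (u := Φ) (v := hH Φ) (p := w) (smooth_diff hΦ w) (smooth_diff hsm w) τ j
    have t0 : Wd τ j (Fn4 Φ) w = Wd τ j (fun w => Φ w - hH Φ w - cj (hH Φ) w - (NN2 w : ℂ)) w := rfl
    rw [t0, t1, t2, t3, Wd_NN2]
  have genf : ∀ j, Wd false j (Fn4 Φ) = fun w => Wd false j Φ w - Wd false j (hH Φ) w -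
      co true j w := by
    intro j
    rw [gen, e1]
    funext w
    simp
  have gent : ∀ j, Wd true j (Fn4 Φ) = fun w => Wd true j Φ w - Wd true j (cj (hH Φ)) w -
      co false j w := by
    intro j
    rw [gen, dt]
    funext w
    simp
  have gen2 : ∀ (u v : Cn 2 → ℂ) (τ' : Bool) (i : Fin 2), ContDiff ℝ ∞ u → ContDiff ℝ ∞ v →
      ∀ τ j, Wd τ j (fun w => u w - v w - co τ' i w) = fun w => Wd τ j u w - Wd τ j v w -
        (if τ = τ' ∧ j = i then 1 else 0) := by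
    intro u v τ' i hu hv τ j
    funext w
    have t1 := Wd_sub (u := fun w => u w - v w) (v := co τ' i) (p := w)
      (smooth_diff (hu.sub hv) w) (smooth_diff (smooth_co _ _) w) τ j
    have t2 := Wd_sub (u := u) (v := v) (p := w) (smooth_diff hu w) (smooth_diff hv w) τ j
    rw [t1, t2, Wd_co]
  have genff : ∀ i j, Wd false i (Wd false j (Fn4 Φ)) = fun w => Wd false i (Wd false j Φ) w -
      Wd false i (Wd false j (hH Φ)) w := by
    intro i j
    rw [genf, gen2 _ _ _ _ (sW _ _) (smooth_Wd hsm _ _)]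
    funext w
    simp
  have gent' : ∀ i j, Wd false i (Wd true j (Fn4 Φ)) = fun w => Wd false i (Wd true j Φ) w -
      (if i = j then 1 else 0) := by
    intro i j
    rw [gent, gen2 _ _ _ _ (sW _ _) (smooth_Wd hcsm _ _)]
    funext w
    have t1 : Wd false i (Wd true j (cj (hH Φ))) w = 0 := by
      rw [Wd_comm' hcsm false true i j, e1, zc]
    rw [t1]
    simp
  have gen3 : ∀ (u : Cn 2 → ℂ) (c : ℂ), ContDiff ℝ ∞ u → ∀ τ j, Wd τ j (fun w => u w - c) =
      fun w => Wd τ j u w := by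
    intro u c hu τ j
    funext w
    have t2 := Wd_sub (u := u) (v := fun _ => c) (p := w) (smooth_diff hu w)
      (differentiableAt_const _) τ j
    rw [t2, Wd_const, sub_zero]
  refine Fl4_of (smooth_Fn4 hΦ) ?_ ?_ ?_ ?_ ?_ ?_ ?_
  · funext w
    show conj (Φ w - hH Φ w - conj (hH Φ w) - (NN2 w : ℂ)) = Φ w - hH Φ w - conj (hH Φ w) - (NN2 w : ℂ)
    have h5 : conj (Φ w) = Φ w := congrFun hr w
    simp only [map_sub, Complex.conj_conj, Complex.conj_ofReal, h5]
    ring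
  · show Φ 0 - hH Φ 0 - conj (hH Φ 0) - (NN2 0 : ℂ) = 0
    have h5 : conj (Φ 0) = Φ 0 := congrFun hr 0
    have h6 : NN2 0 = 0 := by simp [NN2]
    rw [hh, hol3_zero, h6, map_div₀, h5, map_ofNat]
    simp
    ring
  · intro a
    rw [genf, d1]
    show Wd false a Φ 0 - hol3 (c1 a) (c2 a) (c3 a) 0 0 - co true a 0 = 0
    rw [hol3_zero]
    show Wd false a Φ 0 - Wd false a Φ 0 - conj ((0 : Cn 2) a) = 0
    simp
  · intro a b
    rw [genff, d2]
    show Wd false a (Wd false b Φ) 0 - hol3 (c2 b a) (c3 b a) 0 0 0 = 0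
    rw [hol3_zero, s2 b a]
    show Wd false a (Wd false b Φ) 0 - Wd false a (Wd false b Φ) 0 = 0
    ring
  · intro a b
    rw [gent']
    show Wd false a (Wd true b Φ) 0 - (if a = b then 1 else 0) = 0
    rw [hI]
    ring
  · intro a b c
    have t : Wd false a (Wd false b (Wd false c (Fn4 Φ))) = fun w =>
        Wd false a (Wd false b (Wd false c Φ)) w - Wd false a (Wd false b (Wd false c (hH Φ))) w := by
      rw [genff]
      funext w
      exact Wd_sub (smooth_diff (smooth_Wd (sW _ _) _ _) w)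
        (smooth_diff (smooth_Wd (smooth_Wd hsm _ _) _ _) w) false a
    rw [t, d3]
    show Wd false a (Wd false b (Wd false c Φ)) 0 - hol3 (c3 c b a) 0 0 0 0 = 0
    rw [hol3_zero]
    have : c3 c b a = c3 a b c := by rw [s3' c b a, s3 c a b, s3' a c b]
    rw [this]
    show Wd false a (Wd false b (Wd false c Φ)) 0 - Wd false a (Wd false b (Wd false c Φ)) 0 = 0
    ring
  · intro a b c
    rw [gent', gen3 _ _ (smooth_Wd (sW _ _) _ _)]
    exact h3 a b c

end Pool.Agent.Y486
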