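import Pool.Agent.Y486.LPar

/-!
# Normal form at one point
-/

set_option autoImplicit false

open scoped Manifold ContDiff Topology ComplexConjugate Matrix
open MeasureTheory Set Filter

namespace Pool.Agent.Y486

open Pool.Agent.W549.CY (Cn dz dzbar chernRicci chernScalar)
open Pool.Agent.TH997.CMan
open Complex (normSq)

theorem cdC_af (l : Pm) : ContDiff ℂ ∞ (af l) := by
  have h0 : ContDiff ℂ ∞ fun w : Cn 2 => w 0 := contDiff_apply ℂ ℂ (0 : Fin 2)
  have h1 : ContDiff ℂ ∞ fun w : Cn 2 => w 1 := contDiff_apply ℂ ℂ (1 : Fin 2)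
  exact contDiff_const.add ((h0.smul contDiff_const).add (h1.smul contDiff_const))

theorem hasFDerivAt_af (l : Pm) (u : Cn 2) : HasFDerivAt (af l)
    ((ContinuousLinearMap.proj 0 : Cn 2 →L[ℂ] ℂ).smulRight (l.2 0) +
      (ContinuousLinearMap.proj 1 : Cn 2 →L[ℂ] ℂ).smulRight (l.2 1)) u := by
  have h0 : HasFDerivAt (fun w : Cn 2 => w 0 • l.2 0)
      ((ContinuousLinearMap.proj 0 : Cn 2 →L[ℂ] ℂ).smulRight (l.2 0)) u :=
    ((ContinuousLinearMap.proj 0 : Cn 2 →L[ℂ] ℂ).smulRight (l.2 0)).hasFDerivAt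
  have h1 : HasFDerivAt (fun w : Cn 2 => w 1 • l.2 1)
      ((ContinuousLinearMap.proj 1 : Cn 2 →L[ℂ] ℂ).smulRight (l.2 1)) u :=
    ((ContinuousLinearMap.proj 1 : Cn 2 →L[ℂ] ℂ).smulRight (l.2 1)).hasFDerivAt
  exact (h0.add h1).const_add l.1

theorem fderiv_af (l : Pm) (u : Cn 2) (j c : Fin 2) :
    fderiv ℂ (af l) u (Pi.single j 1) c = l.2 j c := by
  rw [(hasFDerivAt_af l u).fderiv]
  rcases (show j = 0 ∨ j = 1 by fin_cases j <;> simp) with rfl | rfl <;> simp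

theorem af_zero (l : Pm) : af l 0 = l.1 := by
  unfold af
  simp

variable {P : Cn 2 → ℝ}

theorem Ps_zero (l : Pm) : Ps P l 0 = l.1 := by
  unfold Ps
  rw [Th_zero, af_zero]

theorem cdC_Ps (l : Pm) : ContDiff ℂ ∞ (Ps P l) := (cdC_af l).comp (cdC_Th _)

theorem fderiv_Ps (hP : ContDiff ℝ ∞ P) (l : Pm) (j c : Fin 2) :
    fderiv ℂ (Ps P l) 0 (Pi.single j 1) c = l.2 j c := by
  have hT : HasFDerivAt (Th (T3 P l)) (fderiv ℂ (Th (T3 P l)) 0) 0 :=
    ((cdC_Th (T3 P l) (n := 1)).contDiffAt.differentiableAt (by simp)).hasFDerivAt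
  have h := (hasFDerivAt_af l (Th (T3 P l) 0)).comp 0 hT
  have e : fderiv ℂ (Ps P l) 0 = _ := h.fderiv
  rw [e]
  have h2 : fderiv ℂ (Th (T3 P l)) 0 (Pi.single j 1) = Pi.single j 1 := by
    funext b
    rw [fderiv_Th (fun c => T3_symm hP l 1 0 c), Jt_zero, Pi.single_apply]
    by_cases hjb : j = b
    · subst hjb
      simp
    · have : ¬ b = j := fun h => hjb h.symm
      simp [hjb, this]
  rw [ContinuousLinearMap.comp_apply, h2]
  rcases (show j = 0 ∨ j = 1 by fin_cases j <;> simp) with rfl | rfl <;> simp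

theorem JJ_Ps (hP : ContDiff ℝ ∞ P) (l : Pm) : JJ (Ps P l) 0 = Matrix.of l.2 := by
  ext j c
  exact fderiv_Ps hP l j c

theorem smooth_uN (hP : ContDiff ℝ ∞ P) (l : Pm) : ContDiff ℝ ∞ (uN P l) := by
  have h := smooth_Fn4 (Φ := fun w => Ph P (l, w)) (smooth_slice (smooth_Ph' hP) l)
  exact smooth_th.mul (Complex.reCLM.contDiff.comp h)

theorem uN_near (l : Pm) {w : Cn 2} (hw : ‖w‖ ≤ 1) :
    ((uN P l w : ℝ) : ℂ) = Fn4 (fun w => Ph P (l, w)) w := by
  rw [uN_eq, th_one hw, Complex.ofReal_one, one_mul]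

theorem pot_eq (l : Pm) {w : Cn 2} (hw : ‖w‖ ≤ 1) :
    ((P (Ps P l w) : ℝ) : ℂ) = ((uN P l w : ℝ) : ℂ) + hH (fun w => Ph P (l, w)) w +
      (cj (hH (fun w => Ph P (l, w))) w + (NN2 w : ℂ)) := by
  rw [uN_near l hw]
  show Ph P (l, w) = (Ph P (l, w) - hH (fun w => Ph P (l, w)) w - cj (hH fun w => Ph P (l, w)) w -
    (NN2 w : ℂ)) + hH (fun w => Ph P (l, w)) w +
      (cj (hH (fun w => Ph P (l, w))) w + (NN2 w : ℂ))
  ring

theorem pot_re (l : Pm) {w : Cn 2} (hw : ‖w‖ ≤ 1) :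
    NN2 w + uN P l w = P (Ps P l w) - 2 * (hH (fun w => Ph P (l, w)) w).re := by
  have h := congrArg Complex.re (pot_eq (P := P) l hw)
  simp only [Complex.add_re, Complex.ofReal_re] at h
  have h2 : (cj (hH (fun w => Ph P (l, w))) w).re = (hH (fun w => Ph P (l, w)) w).re :=
    Complex.conj_re _
  rw [h2] at h
  linarith

theorem ball_ev {w : Cn 2} {r : ℝ} (hw : ‖w‖ < r) : ∀ᶠ w' in 𝓝 w, ‖w'‖ < r :=
  continuous_norm.continuousAt.eventually (gt_mem_nhds hw)

theorem LL_uN (hP : ContDiff ℝ ∞ P) (l : Pm) {w : Cn 2} (hw : ‖w‖ < 1) :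
    (1 : M2) + LL (uN P l) w = LL (fun w => P (Ps P l w)) w := by
  have ev : (fun w => ((P (Ps P l w) : ℝ) : ℂ)) =ᶠ[𝓝 w] fun w =>
      (((uN P l w : ℝ) : ℂ) + hH (fun w => Ph P (l, w)) w) +
        (cj (hH (fun w => Ph P (l, w))) w + (NN2 w : ℂ)) := by
    filter_upwards [ball_ev hw] with w' hw' using pot_eq l hw'.le
  have cU : ContDiffAt ℝ 2 (fun w => ((uN P l w : ℝ) : ℂ)) w :=
    cdC_of ((smooth_uN hP l).of_le two_le_inf).contDiffAt
  have sH := smooth_hH fun w => Ph P (l, w)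
  have cH := smooth_cd2 sH w
  have cJ := smooth_cd2 (smooth_cj sH) w
  have cN := smooth_cd2 smooth_NN2c w
  have z1 : ∀ k, Wd true k (hH fun w => Ph P (l, w)) = fun _ => 0 := fun k =>
    Wd_true_hol3 _ _ _ _ k
  have z2 : ∀ j k, Wd false j (Wd true k (hH fun w => Ph P (l, w))) w = 0 := fun j k => by
    rw [z1]
    exact Wd_const 0 false j w
  have z3 : ∀ j k, Wd false j (Wd true k (cj (hH fun w => Ph P (l, w)))) w = 0 := fun j k => by
    rw [Wd_comm' (smooth_cj sH)]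
    have : Wd false j (cj (hH fun w => Ph P (l, w))) = fun _ => 0 := by
      rw [Wd_cj, Bool.not_false, z1]
      funext w
      show conj (0 : ℂ) = 0
      rw [map_zero]
    rw [this]
    exact Wd_const 0 true k w
  have z4 : ∀ j k, Wd false j (Wd true k fun w => (NN2 w : ℂ)) w = (1 : M2) j k := fun j k => by
    have e : (Wd true k fun w => (NN2 w : ℂ)) = co false k := by
      funext w
      rw [Wd_NN2]
      rfl
    rw [e, Wd_co, Matrix.one_apply]
    simp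
  ext j k
  have y2 : dz j (dzbar k (hH fun w => Ph P (l, w))) w = 0 := by
    rw [← Wd_true, ← Wd_false]
    exact z2 j k
  have y3 : dz j (dzbar k (cj (hH fun w => Ph P (l, w)))) w = 0 := by
    rw [← Wd_true, ← Wd_false]
    exact z3 j k
  have y4 : dz j (dzbar k fun w => (NN2 w : ℂ)) w = (1 : M2) j k := by
    rw [← Wd_true, ← Wd_false]
    exact z4 j k
  have y : dz j (dzbar k fun w => ((P (Ps P l w) : ℝ) : ℂ)) w =
      dz j (dzbar k fun w => ((uN P l w : ℝ) : ℂ)) w + 0 + (0 + (1 : M2) j k) := by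
    rw [levi_congr ev, levi_add (cU.add cH) (cJ.add cN), levi_add cU cH, levi_add cJ cN, y2, y3, y4]
  have y' : (1 : M2) j k + dz j (dzbar k fun w => ((uN P l w : ℝ) : ℂ)) w =
      dz j (dzbar k fun w => ((P (Ps P l w) : ℝ) : ℂ)) w := by
    rw [y]
    ring
  exact y'

theorem Fl_congr : ∀ (m : ℕ) {f g : Cn 2 → ℂ}, f =ᶠ[𝓝 0] g → Fl m f → Fl m g
  | 0, _, _, _, _ => trivial
  | m + 1, f, g, h, hf => by
    refine ⟨?_, fun τ j => Fl_congr m ?_ (hf.2 τ j)⟩
    · rw [← h.eq_of_nhds]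
      exact hf.1
    · filter_upwards [h.eventually_nhds] with w hw using Wd_congr hw τ j

/-- the frame is orthonormal -/
def ONf (P : Cn 2 → ℝ) (l : Pm) : Prop :=
  Matrix.of l.2 * LL P l.1 * (Matrix.of l.2)ᴴ = 1

theorem ONf.hI (hP : ContDiff ℝ ∞ P) {l : Pm} (h : ONf P l) (a b : Fin 2) :
    Wd false a (Wd true b fun u => G0 P (l, u)) 0 = if a = b then 1 else 0 := by
  have h1 := LL_comp (P := P) (Ψ := af l) (w := 0) (hP.of_le two_le_inf).contDiffAt
    ((cdC_af l).of_le two_le_inf).contDiffAt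
  have h2 : JJ (af l) 0 = Matrix.of l.2 := by
    ext j c
    exact fderiv_af l 0 j c
  rw [h2, af_zero] at h1
  have h3 : LL (fun q => P (af l q)) 0 = 1 := h1.trans h
  have h4 := LL_eq_Wd (fun q => P (af l q)) 0 a b
  rw [h3, Matrix.one_apply] at h4
  exact h4.symm

theorem Fl_uN (hP : ContDiff ℝ ∞ P) {l : Pm} (h : ONf P l) :
    Fl 4 fun w => ((uN P l w : ℝ) : ℂ) := by
  have hG := smooth_slice (smooth_G0 hP) l
  have e : (fun w => Ph P (l, w)) = fun w => (fun u => G0 P (l, u)) (Th (T3 P l) w) := rfl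
  have hT : ∀ c, T3 P l 1 0 c = T3 P l 0 1 c := fun c => T3_symm hP l 1 0 c
  have hI := h.hI hP
  have h3 := third hG hI (fun a b c => rfl : ∀ a b c, T3 P l a b c =
    Wd false a (Wd false b (Wd true c fun u => G0 P (l, u))) 0)
  have hI' : ∀ a b, Wd false a (Wd true b fun w => (fun u => G0 P (l, u)) (Th (T3 P l) w)) 0 =
      if a = b then 1 else 0 := by
    intro a b
    rw [levi_Ph hG hT]
    simp only [Jt_zero, Th_zero]
    have hI2 := hI
    rcases (show a = 0 ∨ a = 1 by fin_cases a <;> simp) with rfl | rfl <;>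
      rcases (show b = 0 ∨ b = 1 by fin_cases b <;> simp) with rfl | rfl <;>
      simp [hI2]
  have h4 : Fl 4 (Fn4 fun w => Ph P (l, w)) := by
    rw [e]
    exact flat_Fn4 (smooth_Ph hG) (by rw [← e]; exact cj_Ph P l) hI' h3
  refine Fl_congr 4 ?_ h4
  have h0 : ‖(0 : Cn 2)‖ < 1 := by simp
  filter_upwards [ball_ev h0] with w hw
  exact (uN_near l hw.le).symm

theorem ONf.det_ne {l : Pm} (h : ONf P l) : (Matrix.of l.2).det ≠ 0 := by
  intro h0
  have h1 := congrArg Matrix.det (show Matrix.of l.2 * LL P l.1 * (Matrix.of l.2)ᴴ = 1 from h)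
  rw [Matrix.det_mul, Matrix.det_mul, h0] at h1
  simp at h1

/-- the scalar curvature in terms of the normalised potential -/
theorem scal_uN (hP : ContDiff ℝ ∞ P) {l : Pm} (h : ONf P l) (hpos : 0 < (LL P l.1).det.re) :
    (chernScalar (LL P) l.1).re = -(Lp (Lp fun w => ((uN P l w : ℝ) : ℂ)) 0).re := by
  rw [← scal_flat (smooth_uN hP l) (Fl_uN hP h)]
  have e : (fun w => (1 : M2) + LL (uN P l) w) =ᶠ[𝓝 0] LL fun w => P (Ps P l w) := by
    have h0 : ‖(0 : Cn 2)‖ < 1 := by simp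
    filter_upwards [ball_ev h0] with w hw using LL_uN hP l hw
  have hJ : (JJ (Ps P l) 0).det ≠ 0 := by
    rw [JJ_Ps hP]
    exact h.det_ne
  rw [chernScalar_congr e, scal_comp hP (cdC_Ps l) hJ (by rw [Ps_zero]; exact hpos), Ps_zero]

/-- the density in the new coordinates -/
theorem rr_uN (hP : ContDiff ℝ ∞ P) (l : Pm) {w : Cn 2} (hw : ‖w‖ < 1) :
    rr (uN P l) w = normSq (JJ (Ps P l) w).det * (LL P (Ps P l w)).det.re := by
  unfold rr
  rw [LL_uN hP l hw]
  exact det_LL_comp (hP.of_le two_le_inf).contDiffAt ((cdC_Ps l).of_le two_le_inf).contDiffAt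

end Pool.Agent.Y486
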