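import Pool.Agent.Y486.LSca

/-!
# Normal form: families
-/

set_option autoImplicit false

open scoped Manifold ContDiff Topology ComplexConjugate Matrix
open MeasureTheory Set Filter

namespace Pool.Agent.Y486

open Pool.Agent.W549.CY (Cn dz dzbar chernRicci chernScalar)
open Pool.Agent.TH997.CMan
open Complex (normSq)

/-- parameters: a point and a frame -/
abbrev Pm : Type := Cn 2 × (Fin 2 → Cn 2)

theorem smooth_slice {G : Pm × Cn 2 → ℂ} (hG : ContDiff ℝ ∞ G) (l : Pm) :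
    ContDiff ℝ ∞ fun w => G (l, w) := hG.comp (contDiff_prodMk_right l)

/-- Wirtinger derivatives in the second variable -/
noncomputable def pW (τ : Bool) (j : Fin 2) (G : Pm × Cn 2 → ℂ) (q : Pm × Cn 2) : ℂ :=
  Wd τ j (fun w => G (q.1, w)) q.2

theorem fderiv_slice {G : Pm × Cn 2 → ℂ} (hG : ContDiff ℝ ∞ G) (l : Pm) (w v : Cn 2) :
    fderiv ℝ (fun w => G (l, w)) w v = fderiv ℝ G (l, w) (0, v) := by
  have h1 : HasFDerivAt G (fderiv ℝ G (l, w)) (l, w) :=
    ((hG.of_le two_le_inf).contDiffAt.differentiableAt (by simp)).hasFDerivAt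
  have h2 : HasFDerivAt (fun w => G (l, w))
      ((fderiv ℝ G (l, w)).comp (ContinuousLinearMap.inr ℝ Pm (Cn 2))) w :=
    h1.comp w (hasFDerivAt_prodMk_right l w)
  rw [h2.fderiv]
  rfl

theorem smooth_pW {G : Pm × Cn 2 → ℂ} (hG : ContDiff ℝ ∞ G) (τ : Bool) (j : Fin 2) :
    ContDiff ℝ ∞ (pW τ j G) := by
  have h1 : ContDiff ℝ ∞ (fderiv ℝ G) := hG.fderiv_right (by simp)
  have e : pW τ j G = fun q => (1 / 2) * (fderiv ℝ G q (0, Pi.single j 1) +
      cI τ * fderiv ℝ G q (0, Pi.single j Complex.I)) := by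
    funext q
    unfold pW Wd
    rw [fderiv_slice hG, fderiv_slice hG]
  rw [e]
  fun_prop

theorem Bd_mono {M M' : ℝ} (h : M ≤ M') : ∀ (m : ℕ) {f : Cn 2 → ℂ}, Bd M m f → Bd M' m f
  | 0, _, hf => fun w => (hf w).trans h
  | m + 1, _, hf => fun τ j => Bd_mono h m (hf τ j)

theorem unif_Bd : ∀ (m : ℕ) {G : Pm × Cn 2 → ℂ}, ContDiff ℝ ∞ G →
    (∀ l w, 2 < ‖w‖ → G (l, w) = 0) → ∀ L : Set Pm, IsCompact L →
    ∃ M, ∀ l ∈ L, Bd M m fun w => G (l, w)
  | 0, G, hG, hs, L, hL => by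
    have hc : IsCompact (L ×ˢ Metric.closedBall (0 : Cn 2) 2) := hL.prod (isCompact_closedBall _ _)
    obtain ⟨M, hM⟩ := hc.exists_bound_of_continuousOn hG.continuous.continuousOn
    refine ⟨max M 0, fun l hl w => ?_⟩
    by_cases hw : ‖w‖ ≤ 2
    · exact (hM (l, w) ⟨hl, mem_closedBall_zero_iff.2 hw⟩).trans (le_max_left _ _)
    · show ‖G (l, w)‖ ≤ max M 0
      rw [hs l w (not_le.1 hw), norm_zero]
      exact le_max_right _ _
  | m + 1, G, hG, hs, L, hL => by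
    have hs' : ∀ τ j l w, 2 < ‖w‖ → pW τ j G (l, w) = 0 := by
      intro τ j l w hw
      have h1 : (fun w => G (l, w)) =ᶠ[𝓝 w] fun _ => 0 := by
        filter_upwards [continuous_norm.continuousAt.eventually (lt_mem_nhds hw)] with w' hw'
        exact hs l w' hw'
      show Wd τ j (fun w => G (l, w)) w = 0
      rw [Wd_congr h1, Wd_const]
    have h := fun τ j => unif_Bd m (smooth_pW hG τ j) (hs' τ j) L hL
    choose M hM using h
    refine ⟨max (max (M false 0) (M false 1)) (max (M true 0) (M true 1)), fun l hl τ j => ?_⟩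
    refine Bd_mono ?_ m (hM τ j l hl)
    rcases (show j = 0 ∨ j = 1 by fin_cases j <;> simp) with rfl | rfl <;> cases τ
    · exact (le_max_left _ _).trans (le_max_left _ _)
    · exact (le_max_left _ _).trans (le_max_right _ _)
    · exact (le_max_right _ _).trans (le_max_left _ _)
    · exact (le_max_right _ _).trans (le_max_right _ _)

theorem unif_Adm {G : Pm × Cn 2 → ℂ} (hG : ContDiff ℝ ∞ G)
    (hs : ∀ l w, 2 < ‖w‖ → G (l, w) = 0) {L : Set Pm} (hL : IsCompact L) (n : ℕ) :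
    ∃ M, 1 ≤ M ∧ ∀ l ∈ L, Adm M n fun w => G (l, w) := by
  choose M hM using fun i => unif_Bd i hG hs L hL
  have h : ∀ n : ℕ, ∃ M', 1 ≤ M' ∧ ∀ i ≤ n, M i ≤ M' := by
    intro n
    induction n with
    | zero =>
      refine ⟨max 1 (M 0), le_max_left _ _, fun i hi => ?_⟩
      rw [Nat.le_zero.1 hi]
      exact le_max_right _ _
    | succ n ih =>
      obtain ⟨M', h1, h2⟩ := ih
      refine ⟨max M' (M (n + 1)), h1.trans (le_max_left _ _), fun i hi => ?_⟩
      rcases Nat.le_succ_iff.1 hi with h | h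
      · exact (h2 i h).trans (le_max_left _ _)
      · rw [h]
        exact le_max_right _ _
  obtain ⟨M', h1, h2⟩ := h n
  exact ⟨M', h1, fun l hl => ⟨smooth_slice hG l, fun i hi => Bd_mono (h2 i hi) i (hM i l hl)⟩⟩

/-! ### The family -/

/-- the affine map -/
noncomputable def af (l : Pm) (u : Cn 2) : Cn 2 := l.1 + (u 0 • l.2 0 + u 1 • l.2 1)

theorem smooth_af : ContDiff ℝ ∞ fun q : Pm × Cn 2 => af q.1 q.2 := by
  have h0 : ContDiff ℝ ∞ fun q : Pm × Cn 2 => q.2 0 := contDiff_pi.1 contDiff_snd 0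
  have h1 : ContDiff ℝ ∞ fun q : Pm × Cn 2 => q.2 1 := contDiff_pi.1 contDiff_snd 1
  have h2 : ContDiff ℝ ∞ fun q : Pm × Cn 2 => q.1.2 :=
    contDiff_snd.comp contDiff_fst
  have h3 : ContDiff ℝ ∞ fun q : Pm × Cn 2 => q.1.1 :=
    contDiff_fst.comp contDiff_fst
  have h20 : ContDiff ℝ ∞ fun q : Pm × Cn 2 => q.1.2 0 := contDiff_pi.1 h2 0
  have h21 : ContDiff ℝ ∞ fun q : Pm × Cn 2 => q.1.2 1 := contDiff_pi.1 h2 1
  exact h3.add ((h0.smul h20).add (h1.smul h21))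

/-- the pull back under the affine map -/
noncomputable def G0 (P : Cn 2 → ℝ) (q : Pm × Cn 2) : ℂ := ((P (af q.1 q.2) : ℝ) : ℂ)

variable {P : Cn 2 → ℝ}

theorem smooth_G0 (hP : ContDiff ℝ ∞ P) : ContDiff ℝ ∞ (G0 P) :=
  Complex.ofRealCLM.contDiff.comp (hP.comp smooth_af)

/-- the third derivatives -/
noncomputable def T3 (P : Cn 2 → ℝ) (l : Pm) (a b c : Fin 2) : ℂ :=
  Wd false a (Wd false b (Wd true c fun u => G0 P (l, u))) 0

theorem at0 {H : Pm × Cn 2 → ℂ} (hH : ContDiff ℝ ∞ H) : ContDiff ℝ ∞ fun l : Pm => H (l, 0) :=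
  hH.comp (contDiff_prodMk_left (0 : Cn 2))

theorem pW_apply (τ : Bool) (j : Fin 2) (G : Pm × Cn 2 → ℂ) (l : Pm) :
    (fun w => pW τ j G (l, w)) = Wd τ j fun w => G (l, w) := rfl

theorem T3_eq (a b c : Fin 2) (l : Pm) :
    T3 P l a b c = pW false a (pW false b (pW true c (G0 P))) (l, 0) := by
  show _ = Wd false a (fun w => pW false b (pW true c (G0 P)) (l, w)) 0
  rw [pW_apply, pW_apply]
  rfl

theorem smooth_T3 (hP : ContDiff ℝ ∞ P) (a b c : Fin 2) : ContDiff ℝ ∞ fun l => T3 P l a b c := by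
  have h := at0 (smooth_pW (smooth_pW (smooth_pW (smooth_G0 hP) true c) false b) false a)
  have e : (fun l => T3 P l a b c) = fun l => pW false a (pW false b (pW true c (G0 P))) (l, 0) :=
    funext fun l => T3_eq a b c l
  rw [e]
  exact h

theorem T3_symm (hP : ContDiff ℝ ∞ P) (l : Pm) (a b c : Fin 2) : T3 P l a b c = T3 P l b a c := by
  unfold T3
  rw [Wd_comm' (smooth_Wd (smooth_slice (smooth_G0 hP) l) _ _)]

theorem smooth_hol3_fam {c0 : Pm → ℂ} {c1 : Pm → Fin 2 → ℂ} {c2 : Pm → Fin 2 → Fin 2 → ℂ}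
    {c3 : Pm → Fin 2 → Fin 2 → Fin 2 → ℂ} (h0 : ContDiff ℝ ∞ c0)
    (h1 : ∀ a, ContDiff ℝ ∞ fun l => c1 l a) (h2 : ∀ a b, ContDiff ℝ ∞ fun l => c2 l a b)
    (h3 : ∀ a b c, ContDiff ℝ ∞ fun l => c3 l a b c) :
    ContDiff ℝ ∞ fun q : Pm × Cn 2 => hol3 (c0 q.1) (c1 q.1) (c2 q.1) (c3 q.1) q.2 := by
  have w0 : ContDiff ℝ ∞ fun q : Pm × Cn 2 => q.2 0 := contDiff_pi.1 contDiff_snd 0
  have w1 : ContDiff ℝ ∞ fun q : Pm × Cn 2 => q.2 1 := contDiff_pi.1 contDiff_snd 1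
  have k0 : ContDiff ℝ ∞ fun q : Pm × Cn 2 => c0 q.1 := h0.comp contDiff_fst
  have k1 : ∀ a, ContDiff ℝ ∞ fun q : Pm × Cn 2 => c1 q.1 a := fun a => (h1 a).comp contDiff_fst
  have k2 : ∀ a b, ContDiff ℝ ∞ fun q : Pm × Cn 2 => c2 q.1 a b := fun a b =>
    (h2 a b).comp contDiff_fst
  have k3 : ∀ a b c, ContDiff ℝ ∞ fun q : Pm × Cn 2 => c3 q.1 a b c := fun a b c =>
    (h3 a b c).comp contDiff_fst
  unfold hol3
  exact ((k0.add (((k1 0).mul w0).add ((k1 1).mul w1))).add (contDiff_const.mul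
    ((((k2 0 0).mul (w0.pow 2)).add ((contDiff_const.mul (k2 0 1)).mul (w0.mul w1))).add
      ((k2 1 1).mul (w1.pow 2))))).add (contDiff_const.mul
    (((((k3 0 0 0).mul (w0.pow 3)).add ((contDiff_const.mul (k3 0 0 1)).mul
      ((w0.pow 2).mul w1))).add ((contDiff_const.mul (k3 0 1 1)).mul (w0.mul (w1.pow 2)))).add
      ((k3 1 1 1).mul (w1.pow 3))))

theorem smooth_Th_fam (hP : ContDiff ℝ ∞ P) :
    ContDiff ℝ ∞ fun q : Pm × Cn 2 => Th (T3 P q.1) q.2 := by
  refine contDiff_pi.2 fun c => ?_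
  exact smooth_hol3_fam (c0 := fun _ => 0) (c1 := fun _ => Pi.single c 1)
    (c2 := fun l a b => -T3 P l a b c) (c3 := fun _ => 0) contDiff_const (fun _ => contDiff_const)
    (fun a b => (smooth_T3 hP a b c).neg) fun _ _ _ => contDiff_const

/-- the change of coordinates -/
noncomputable def Ps (P : Cn 2 → ℝ) (l : Pm) (w : Cn 2) : Cn 2 := af l (Th (T3 P l) w)

/-- the function in the new coordinates -/
noncomputable def Ph (P : Cn 2 → ℝ) (q : Pm × Cn 2) : ℂ := G0 P (q.1, Th (T3 P q.1) q.2)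

theorem smooth_Ph' (hP : ContDiff ℝ ∞ P) : ContDiff ℝ ∞ (Ph P) :=
  (smooth_G0 hP).comp (contDiff_fst.prodMk (smooth_Th_fam hP))

theorem smooth_NN2' : ContDiff ℝ ∞ fun q : Pm × Cn 2 => (NN2 q.2 : ℂ) :=
  smooth_NN2c.comp contDiff_snd

theorem smooth_Fn4_fam {G : Pm × Cn 2 → ℂ} (hG : ContDiff ℝ ∞ G) :
    ContDiff ℝ ∞ fun q : Pm × Cn 2 => Fn4 (fun w => G (q.1, w)) q.2 := by
  have hh : ContDiff ℝ ∞ fun q : Pm × Cn 2 => hH (fun w => G (q.1, w)) q.2 := by
    have e1 : ∀ a l, Wd false a (fun w => G (l, w)) 0 = pW false a G (l, 0) := fun a l => rfl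
    have e2 : ∀ a b l, Wd false a (Wd false b (fun w => G (l, w))) 0 =
        pW false a (pW false b G) (l, 0) := fun a b l => by
      show _ = Wd false a (fun w => pW false b G (l, w)) 0
      rw [pW_apply]
    have e3 : ∀ a b c l, Wd false a (Wd false b (Wd false c (fun w => G (l, w)))) 0 =
        pW false a (pW false b (pW false c G)) (l, 0) := fun a b c l => by
      show _ = Wd false a (fun w => pW false b (pW false c G) (l, w)) 0
      rw [pW_apply, pW_apply]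
    have k := smooth_hol3_fam (c0 := fun l => G (l, 0) / 2)
      (c1 := fun l a => Wd false a (fun w => G (l, w)) 0)
      (c2 := fun l a b => Wd false a (Wd false b (fun w => G (l, w))) 0)
      (c3 := fun l a b c => Wd false a (Wd false b (Wd false c (fun w => G (l, w)))) 0)
      ((at0 hG).div_const 2)
      (fun a => by
        simp only [e1]
        exact at0 (smooth_pW hG false a))
      (fun a b => by
        simp only [e2]
        exact at0 (smooth_pW (smooth_pW hG false b) false a))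
      (fun a b c => by
        simp only [e3]
        exact at0 (smooth_pW (smooth_pW (smooth_pW hG false c) false b) false a))
    exact k
  have hc : ContDiff ℝ ∞ fun q : Pm × Cn 2 => cj (hH (fun w => G (q.1, w))) q.2 :=
    (Complex.conjCLE : ℂ →L[ℝ] ℂ).contDiff.comp hh
  exact ((hG.sub hh).sub hc).sub smooth_NN2'

/-- the cut-off function -/
noncomputable def th (w : Cn 2) : ℝ := (⟨1, 2, one_pos, one_lt_two⟩ : ContDiffBump (0 : Cn 2)) w

theorem smooth_th : ContDiff ℝ ∞ th := ContDiffBump.contDiff _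

theorem th_one {w : Cn 2} (hw : ‖w‖ ≤ 1) : th w = 1 :=
  ContDiffBump.one_of_mem_closedBall _ (mem_closedBall_zero_iff.2 hw)

theorem th_zero {w : Cn 2} (hw : 2 ≤ ‖w‖) : th w = 0 := by
  apply ContDiffBump.zero_of_le_dist
  rw [dist_zero_right]
  exact hw

/-- the normalised potential, cut off -/
noncomputable def uN (P : Cn 2 → ℝ) (l : Pm) (w : Cn 2) : ℝ :=
  th w * (Fn4 (fun w => Ph P (l, w)) w).re

theorem Fn4_real (Φ : Cn 2 → ℂ) (hr : cj Φ = Φ) (w : Cn 2) : (((Fn4 Φ w).re : ℝ) : ℂ) = Fn4 Φ w := by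
  have h5 : conj (Φ w) = Φ w := congrFun hr w
  have h : conj (Fn4 Φ w) = Fn4 Φ w := by
    show conj (Φ w - hH Φ w - conj (hH Φ w) - (NN2 w : ℂ)) = Φ w - hH Φ w - conj (hH Φ w) - (NN2 w : ℂ)
    simp only [map_sub, Complex.conj_conj, Complex.conj_ofReal, h5]
    ring
  exact Complex.conj_eq_iff_re.1 h

theorem cj_Ph (P : Cn 2 → ℝ) (l : Pm) : cj (fun w => Ph P (l, w)) = fun w => Ph P (l, w) := by
  funext w
  exact Complex.conj_ofReal _

theorem uN_eq (P : Cn 2 → ℝ) (l : Pm) (w : Cn 2) :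
    ((uN P l w : ℝ) : ℂ) = (th w : ℂ) * Fn4 (fun w => Ph P (l, w)) w := by
  unfold uN
  rw [Complex.ofReal_mul, Fn4_real _ (cj_Ph P l)]

theorem unif_uN (hP : ContDiff ℝ ∞ P) {L : Set Pm} (hL : IsCompact L) (n : ℕ) :
    ∃ M, 1 ≤ M ∧ ∀ l ∈ L, Adm M n fun w => ((uN P l w : ℝ) : ℂ) := by
  have hG : ContDiff ℝ ∞ fun q : Pm × Cn 2 => (th q.2 : ℂ) * Fn4 (fun w => Ph P (q.1, w)) q.2 :=
    ((Complex.ofRealCLM.contDiff.comp smooth_th).comp contDiff_snd).mul
      (smooth_Fn4_fam (smooth_Ph' hP))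
  obtain ⟨M, h1, h2⟩ := unif_Adm hG (fun l w hw => by
    show (th w : ℂ) * _ = 0
    rw [th_zero hw.le]
    simp) hL n
  refine ⟨M, h1, fun l hl => ?_⟩
  have e : (fun w => ((uN P l w : ℝ) : ℂ)) = fun w => (th w : ℂ) * Fn4 (fun w => Ph P (l, w)) w :=
    funext fun w => uN_eq P l w
  rw [e]
  exact h2 l hl

end Pool.Agent.Y486
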