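import Pool.Agent.Y486.LNorm2

/-!
# Normal form: the scalar curvature
-/

set_option autoImplicit false

open scoped Manifold ContDiff Topology ComplexConjugate Matrix
open MeasureTheory Set Filter

namespace Pool.Agent.Y486

open Pool.Agent.W549.CY (Cn dz dzbar chernRicci chernScalar)
open Pool.Agent.TH997.CMan
open Complex (normSq)

/-- the Jacobian matrix, `JJ Ψ w j c = ∂_j Ψ_c` -/
noncomputable def JJ (Ψ : Cn 2 → Cn 2) (w : Cn 2) : M2 :=
  Matrix.of fun j c => fderiv ℂ Ψ w (Pi.single j 1) c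

theorem cdC_of {P : Cn 2 → ℝ} {p : Cn 2} {n : WithTop ℕ∞} (hP : ContDiffAt ℝ n P p) :
    ContDiffAt ℝ n (fun q => ((P q : ℝ) : ℂ)) p :=
  Complex.ofRealCLM.contDiff.contDiffAt.comp p hP

theorem LL_comp {P : Cn 2 → ℝ} {Ψ : Cn 2 → Cn 2} {w : Cn 2} (hP : ContDiffAt ℝ 2 P (Ψ w))
    (hΨ : ContDiffAt ℂ 2 Ψ w) :
    LL (fun q => P (Ψ q)) w = JJ Ψ w * LL P (Ψ w) * (JJ Ψ w)ᴴ := by
  ext j k
  show dz j (dzbar k fun q => ((P (Ψ q) : ℝ) : ℂ)) w = _
  rw [levi_comp (u := fun q => ((P q : ℝ) : ℂ)) (cdC_of hP) hΨ]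
  simp only [Matrix.mul_apply, Fin.sum_univ_two, Matrix.conjTranspose_apply]
  show _ = (fderiv ℂ Ψ w (Pi.single j 1) 0 * dz 0 (dzbar 0 fun q => ((P q : ℝ) : ℂ)) (Ψ w) +
    fderiv ℂ Ψ w (Pi.single j 1) 1 * dz 1 (dzbar 0 fun q => ((P q : ℝ) : ℂ)) (Ψ w)) *
      conj (fderiv ℂ Ψ w (Pi.single k 1) 0) +
    (fderiv ℂ Ψ w (Pi.single j 1) 0 * dz 0 (dzbar 1 fun q => ((P q : ℝ) : ℂ)) (Ψ w) +
    fderiv ℂ Ψ w (Pi.single j 1) 1 * dz 1 (dzbar 1 fun q => ((P q : ℝ) : ℂ)) (Ψ w)) *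
      conj (fderiv ℂ Ψ w (Pi.single k 1) 1)
  ring

theorem det_sandwich (J G : M2) : (J * G * Jᴴ).det = ((normSq J.det : ℝ) : ℂ) * G.det := by
  rw [Matrix.det_mul, Matrix.det_mul, Matrix.det_conjTranspose, ← Complex.mul_conj]
  show J.det * G.det * conj J.det = _
  ring

theorem det_LL_comp {P : Cn 2 → ℝ} {Ψ : Cn 2 → Cn 2} {w : Cn 2} (hP : ContDiffAt ℝ 2 P (Ψ w))
    (hΨ : ContDiffAt ℂ 2 Ψ w) :
    (LL (fun q => P (Ψ q)) w).det.re = normSq (JJ Ψ w).det * (LL P (Ψ w)).det.re := by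
  rw [LL_comp hP hΨ, det_sandwich, Complex.re_ofReal_mul]

theorem smooth_det_LL {P : Cn 2 → ℝ} (hP : ContDiff ℝ ∞ P) :
    ContDiff ℝ ∞ fun q => (LL P q).det.re := by
  have h : ∀ j k, ContDiff ℝ ∞ fun q => LL P q j k := by
    intro j k
    have h1 : ContDiff ℝ ∞ fun q => ((P q : ℝ) : ℂ) := Complex.ofRealCLM.contDiff.comp hP
    have h2 := smooth_Wd (smooth_Wd h1 true k) false j
    have e : (fun q => LL P q j k) = Wd false j (Wd true k fun q => ((P q : ℝ) : ℂ)) :=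
      funext fun q => LL_eq_Wd P q j k
    rw [e]
    exact h2
  show ContDiff ℝ ∞ (Complex.reCLM ∘ fun q => (LL P q).det)
  refine Complex.reCLM.contDiff.comp ?_
  rw [contDiff_iff_contDiffAt]
  exact fun q => contDiffAt_det fun j k => (h j k).contDiffAt

theorem cd_JJ {Ψ : Cn 2 → Cn 2} (hΨ : ContDiff ℂ ∞ Ψ) : ContDiff ℂ ∞ fun w => (JJ Ψ w).det := by
  have h : ∀ j k, ContDiff ℂ ∞ fun q => JJ Ψ q j k := by
    intro j k
    have h1 : ContDiff ℂ ∞ (fderiv ℂ Ψ) := hΨ.fderiv_right (by simp)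
    have h2 : ContDiff ℂ ∞ fun q => fderiv ℂ Ψ q (Pi.single j 1) := h1.clm_apply contDiff_const
    exact contDiff_pi.1 h2 k
  rw [contDiff_iff_contDiffAt]
  exact fun q => contDiffAt_det fun j k => (h j k).contDiffAt

theorem ricci_comp {P : Cn 2 → ℝ} {Ψ : Cn 2 → Cn 2} (hP : ContDiff ℝ ∞ P) (hΨ : ContDiff ℂ ∞ Ψ)
    {z : Cn 2} (hJ : (JJ Ψ z).det ≠ 0) (hG : 0 < (LL P (Ψ z)).det.re) :
    chernRicci (LL fun q => P (Ψ q)) z = JJ Ψ z * chernRicci (LL P) (Ψ z) * (JJ Ψ z)ᴴ := by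
  have hP2 : ∀ q, ContDiffAt ℝ 2 P q := fun q => (hP.of_le two_le_inf).contDiffAt
  have hΨ2 : ∀ q, ContDiffAt ℂ 2 Ψ q := fun q => (hΨ.of_le two_le_inf).contDiffAt
  have hΨR : ContDiff ℝ ∞ Ψ := hΨ.restrict_scalars ℝ
  have hD := smooth_det_LL hP
  have hJc : ContDiffAt ℂ 2 (fun w => (JJ Ψ w).det) z := ((cd_JJ hΨ).of_le two_le_inf).contDiffAt
  have e1 : ∀ᶠ w in 𝓝 z, (JJ Ψ w).det ≠ 0 := hJc.continuousAt.eventually_ne hJ
  have e2 : ∀ᶠ w in 𝓝 z, 0 < (LL P (Ψ w)).det.re :=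
    ((hD.comp hΨR).continuous.continuousAt (x := z)).eventually (lt_mem_nhds hG)
  have ev : (fun w => ((Real.log (LL (fun q => P (Ψ q)) w).det.re : ℝ) : ℂ)) =ᶠ[𝓝 z] fun w =>
      ((Real.log (normSq (JJ Ψ w).det) : ℝ) : ℂ) + ((Real.log (LL P (Ψ w)).det.re : ℝ) : ℂ) := by
    filter_upwards [e1, e2] with w h1 h2
    rw [det_LL_comp (hP2 _) (hΨ2 _), Real.log_mul (Complex.normSq_pos.2 h1).ne' h2.ne']
    push_cast
    rfl
  have c2 : ContDiffAt ℝ 2 (fun w => ((Real.log (LL P w).det.re : ℝ) : ℂ)) (Ψ z) :=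
    cdC_of ((hD.of_le two_le_inf).contDiffAt.log hG.ne')
  have c2' : ContDiffAt ℝ 2 (fun w => ((Real.log (LL P (Ψ w)).det.re : ℝ) : ℂ)) z :=
    c2.comp z (hΨR.of_le two_le_inf).contDiffAt
  have c1 : ContDiffAt ℝ 2 (fun w => ((Real.log (normSq (JJ Ψ w).det) : ℝ) : ℂ)) z := by
    have hr := hJc.restrict_scalars ℝ
    have hn : ContDiffAt ℝ 2 (fun w => normSq (JJ Ψ w).det) z := by
      have e : (fun w => normSq (JJ Ψ w).det) = fun w => ‖(JJ Ψ w).det‖ ^ 2 := by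
        funext w
        rw [Complex.normSq_eq_norm_sq]
      rw [e]
      exact hr.norm_sq ℝ
    exact cdC_of (hn.log (Complex.normSq_pos.2 hJ).ne')
  ext j k
  show -dz j (dzbar k fun w => ((Real.log (LL (fun q => P (Ψ q)) w).det.re : ℝ) : ℂ)) z = _
  rw [levi_congr ev, levi_add c1 c2', levi_log hJc hJ, zero_add,
    levi_comp (u := fun w => ((Real.log (LL P w).det.re : ℝ) : ℂ)) c2 (hΨ2 z)]
  simp only [Matrix.mul_apply, Fin.sum_univ_two, Matrix.conjTranspose_apply]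
  show _ = (fderiv ℂ Ψ z (Pi.single j 1) 0 *
      -dz 0 (dzbar 0 fun q => ((Real.log (LL P q).det.re : ℝ) : ℂ)) (Ψ z) +
    fderiv ℂ Ψ z (Pi.single j 1) 1 *
      -dz 1 (dzbar 0 fun q => ((Real.log (LL P q).det.re : ℝ) : ℂ)) (Ψ z)) *
      conj (fderiv ℂ Ψ z (Pi.single k 1) 0) +
    (fderiv ℂ Ψ z (Pi.single j 1) 0 *
      -dz 0 (dzbar 1 fun q => ((Real.log (LL P q).det.re : ℝ) : ℂ)) (Ψ z) +
    fderiv ℂ Ψ z (Pi.single j 1) 1 *
      -dz 1 (dzbar 1 fun q => ((Real.log (LL P q).det.re : ℝ) : ℂ)) (Ψ z)) *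
      conj (fderiv ℂ Ψ z (Pi.single k 1) 1)
  ring

/-- the scalar curvature does not depend on the coordinates -/
theorem scal_comp {P : Cn 2 → ℝ} {Ψ : Cn 2 → Cn 2} (hP : ContDiff ℝ ∞ P) (hΨ : ContDiff ℂ ∞ Ψ)
    {z : Cn 2} (hJ : (JJ Ψ z).det ≠ 0) (hG : 0 < (LL P (Ψ z)).det.re) :
    chernScalar (LL fun q => P (Ψ q)) z = chernScalar (LL P) (Ψ z) := by
  unfold chernScalar
  rw [ricci_comp hP hΨ hJ hG, LL_comp (hP.of_le two_le_inf).contDiffAt (hΨ.of_le two_le_inf).contDiffAt]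
  refine trace_transform hJ.isUnit ?_
  rw [Matrix.det_conjTranspose]
  exact (star_ne_zero.2 hJ).isUnit

theorem chernScalar_congr {g g' : Cn 2 → M2} {z : Cn 2} (h : g =ᶠ[𝓝 z] g') :
    chernScalar g z = chernScalar g' z := by
  unfold chernScalar
  have h1 : chernRicci g z = chernRicci g' z := by
    ext j k
    show -dz j (dzbar k fun w => ((Real.log (g w).det.re : ℝ) : ℂ)) z =
      -dz j (dzbar k fun w => ((Real.log (g' w).det.re : ℝ) : ℂ)) z
    have e : (fun w => ((Real.log (g w).det.re : ℝ) : ℂ)) =ᶠ[𝓝 z]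
        fun w => ((Real.log (g' w).det.re : ℝ) : ℂ) := by
      filter_upwards [h] with w hw
      rw [hw]
    rw [levi_congr e]
  rw [h1, h.eq_of_nhds]

theorem LL_congr {P Q : Cn 2 → ℝ} {z : Cn 2} (h : P =ᶠ[𝓝 z] Q) : LL P z = LL Q z := by
  ext j k
  have e : (fun w => ((P w : ℝ) : ℂ)) =ᶠ[𝓝 z] fun w => ((Q w : ℝ) : ℂ) := by
    filter_upwards [h] with w hw
    rw [hw]
  exact levi_congr e j k

theorem LL_congr' {P Q : Cn 2 → ℝ} {z : Cn 2} (h : P =ᶠ[𝓝 z] Q) : LL P =ᶠ[𝓝 z] LL Q := by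
  filter_upwards [h.eventually_nhds] with w hw using LL_congr hw

/-- the value for a flat perturbation of the Euclidean metric -/
theorem scal_flat {u : Cn 2 → ℝ} (hu : ContDiff ℝ ∞ u) (hfl : Fl 4 fun w => (u w : ℂ)) :
    (chernScalar (fun w => (1 : M2) + LL u w) 0).re = -(Lp (Lp fun w => (u w : ℂ)) 0).re := by
  have huC : ContDiff ℝ ∞ fun w => ((u w : ℝ) : ℂ) := Complex.ofRealCLM.contDiff.comp hu
  have hL0 : LL u 0 = 0 := by
    ext j k
    rw [LL_eq_Wd]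
    exact ((hfl.2 true k).2 false j).1
  have sL : ∀ j k, ContDiff ℝ ∞ (Wd false j (Wd true k fun w => (u w : ℂ))) := fun j k =>
    smooth_Wd (smooth_Wd huC _ _) _ _
  have fL : ∀ j k, Fl 2 (Wd false j (Wd true k fun w => (u w : ℂ))) := fun j k =>
    (hfl.2 true k).2 false j
  set D : Cn 2 → ℂ := fun w => Wd false 0 (Wd true 0 fun w => (u w : ℂ)) w *
    Wd false 1 (Wd true 1 fun w => (u w : ℂ)) w - Wd false 0 (Wd true 1 fun w => (u w : ℂ)) w *
    Wd false 1 (Wd true 0 fun w => (u w : ℂ)) w with hD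
  have sLp := smooth_Lp huC
  have sD : ContDiff ℝ ∞ D := ((sL 0 0).mul (sL 1 1)).sub ((sL 0 1).mul (sL 1 0))
  -- the determinant
  have hdet : ∀ w, ((1 : M2) + LL u w).det = 1 + Lp (fun w => (u w : ℂ)) w + D w := by
    intro w
    rw [Matrix.det_fin_two]
    simp only [Matrix.add_apply, Matrix.one_apply_eq,
      Matrix.one_apply_ne (show (0 : Fin 2) ≠ 1 by decide),
      Matrix.one_apply_ne (show (1 : Fin 2) ≠ 0 by decide), zero_add, LL_eq_Wd, hD]
    unfold Lp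
    ring
  -- it is real
  have hreal : ∀ w, ((((1 : M2) + LL u w).det.re : ℝ) : ℂ) = ((1 : M2) + LL u w).det := by
    intro w
    have hh : ((1 : M2) + LL u w).IsHermitian :=
      Matrix.isHermitian_one.add (LL_herm (hu.of_le two_le_inf).contDiffAt)
    have h2 : conj ((1 : M2) + LL u w).det = ((1 : M2) + LL u w).det := by
      have h3 := Matrix.det_conjTranspose (M := (1 : M2) + LL u w)
      rw [hh.eq] at h3
      exact h3.symm
    exact Complex.conj_eq_iff_re.1 h2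
  have hrr : (fun w => ((rr u w : ℝ) : ℂ)) = fun w => (1 + Lp (fun w => (u w : ℂ)) w) + D w := by
    funext w
    show ((((1 : M2) + LL u w).det.re : ℝ) : ℂ) = _
    rw [hreal, hdet]
  have srr : ContDiff ℝ ∞ (rr u) := by
    have h1 : ContDiff ℝ ∞ fun w => (1 + Lp (fun w => (u w : ℂ)) w) + D w :=
      (contDiff_const.add sLp).add sD
    rw [← hrr] at h1
    have h2 : ContDiff ℝ ∞ fun w => (((rr u w : ℝ) : ℂ)).re := Complex.reCLM.contDiff.comp h1
    simpa only [Complex.ofReal_re] using h2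
  have hD2 : ∀ j, Wd false j (Wd true j D) 0 = 0 := by
    have key : ∀ f g : Cn 2 → ℂ, ContDiff ℝ ∞ f → ContDiff ℝ ∞ g → Fl 2 f → Fl 2 g → ∀ j,
        Wd false j (Wd true j fun w => f w * g w) 0 = 0 ∧
        ContDiff ℝ ∞ (Wd true j fun w => f w * g w) := by
      intro f g sf sg hf hg j
      have e : Wd true j (fun w => f w * g w) = fun w => Wd true j f w * g w + f w * Wd true j g w := by
        funext w
        rw [Wd_mul (smooth_diff sf w) (smooth_diff sg w)]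
      constructor
      · rw [e, Wd_add (smooth_diff ((smooth_Wd sf _ _).mul sg) 0)
          (smooth_diff (sf.mul (smooth_Wd sg _ _)) 0),
          Wd_mul (smooth_diff (smooth_Wd sf _ _) 0) (smooth_diff sg 0),
          Wd_mul (smooth_diff sf 0) (smooth_diff (smooth_Wd sg _ _) 0), hf.1, hg.1,
          (hf.2 true j).1, (hg.2 true j).1]
        ring
      · exact smooth_Wd (sf.mul sg) _ _
    intro j
    obtain ⟨a1, a2⟩ := key _ _ (sL 0 0) (sL 1 1) (fL 0 0) (fL 1 1) j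
    obtain ⟨b1, b2⟩ := key _ _ (sL 0 1) (sL 1 0) (fL 0 1) (fL 1 0) j
    have e : Wd true j D = fun w => Wd true j (fun w => Wd false 0 (Wd true 0 fun w => (u w : ℂ)) w *
        Wd false 1 (Wd true 1 fun w => (u w : ℂ)) w) w - Wd true j (fun w =>
        Wd false 0 (Wd true 1 fun w => (u w : ℂ)) w *
        Wd false 1 (Wd true 0 fun w => (u w : ℂ)) w) w := by
      funext w
      exact Wd_sub (smooth_diff ((sL 0 0).mul (sL 1 1)) w)
        (smooth_diff ((sL 0 1).mul (sL 1 0)) w) true j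
    rw [e, Wd_sub (smooth_diff a2 0) (smooth_diff b2 0), a1, b1, sub_zero]
  have hrr0 : rr u 0 = 1 := by
    show ((1 : M2) + LL u 0).det.re = 1
    rw [hL0, add_zero, Matrix.det_one, Complex.one_re]
  -- derivatives of `rr`
  have drr : ∀ j, Wd true j (fun w => ((rr u w : ℝ) : ℂ)) = fun w =>
      Wd true j (Lp fun w => (u w : ℂ)) w + Wd true j D w := by
    intro j
    funext w
    rw [hrr, Wd_add (u := fun w => 1 + Lp (fun w => (u w : ℂ)) w)
      (smooth_diff (contDiff_const.add sLp) w) (smooth_diff sD w),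
      Wd_add (u := fun _ => (1 : ℂ)) (differentiableAt_const _) (smooth_diff sLp w), Wd_const, zero_add]
  have ddrr : ∀ j, Wd false j (Wd true j fun w => ((rr u w : ℝ) : ℂ)) 0 =
      Wd false j (Wd true j (Lp fun w => (u w : ℂ))) 0 := by
    intro j
    rw [drr, Wd_add (smooth_diff (smooth_Wd sLp _ _) 0) (smooth_diff (smooth_Wd sD _ _) 0), hD2,
      add_zero]
  have drr0 : ∀ j, Wd true j (fun w => ((rr u w : ℝ) : ℂ)) 0 = 0 := by
    intro j
    rw [drr]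
    show Wd true j (Lp fun w => (u w : ℂ)) 0 + Wd true j D 0 = 0
    have h1 : Wd true j (Lp fun w => (u w : ℂ)) 0 = 0 := by
      have e1 : Wd true j (Lp fun w => (u w : ℂ)) 0 =
          Wd true j (Wd false 0 (Wd true 0 fun w => (u w : ℂ))) 0 +
          Wd true j (Wd false 1 (Wd true 1 fun w => (u w : ℂ))) 0 :=
        Wd_add (smooth_diff (sL 0 0) 0) (smooth_diff (sL 1 1) 0) true j
      rw [e1, ((fL 0 0).2 true j).1, ((fL 1 1).2 true j).1, add_zero]
    have h2 : Wd true j D 0 = 0 := by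
      have e1 : Wd true j D 0 = Wd true j (fun w => Wd false 0 (Wd true 0 fun w => (u w : ℂ)) w *
          Wd false 1 (Wd true 1 fun w => (u w : ℂ)) w) 0 - Wd true j (fun w =>
          Wd false 0 (Wd true 1 fun w => (u w : ℂ)) w *
          Wd false 1 (Wd true 0 fun w => (u w : ℂ)) w) 0 :=
        Wd_sub (smooth_diff ((sL 0 0).mul (sL 1 1)) 0)
          (smooth_diff ((sL 0 1).mul (sL 1 0)) 0) true j
      rw [e1, Wd_mul (smooth_diff (sL 0 0) 0) (smooth_diff (sL 1 1) 0),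
        Wd_mul (smooth_diff (sL 0 1) 0) (smooth_diff (sL 1 0) 0), (fL 0 0).1, (fL 1 1).1, (fL 0 1).1,
        (fL 1 0).1]
      ring
    rw [h1, h2, add_zero]
  -- the Ricci form
  have hric : ∀ j, chernRicci (fun w => (1 : M2) + LL u w) 0 j j =
      -Wd false j (Wd true j (Lp fun w => (u w : ℂ))) 0 := by
    intro j
    show -LL (fun w => Real.log (rr u w)) 0 j j = _
    have h1 := LL_log (S := rr u) (p := 0) (srr.of_le two_le_inf).contDiffAt (by rw [hrr0]; norm_num) j j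
    have h2 : dzbar j (fun q => ((rr u q : ℝ) : ℂ)) 0 = 0 := by
      rw [← Wd_true]
      exact drr0 j
    rw [h2, LL_eq_Wd (rr u), ddrr, hrr0] at h1
    rw [h1]
    simp
  show ((((1 : M2) + LL u 0)⁻¹ * chernRicci (fun w => (1 : M2) + LL u w) 0).trace).re = _
  rw [hL0, add_zero, inv_one, Matrix.one_mul, Matrix.trace_fin_two, hric, hric, ← Complex.neg_re]
  unfold Lp
  congr 1
  ring

end Pool.Agent.Y486
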