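import Pool.Agent.Y486.RefW

/-!
# Integrals of the reference weights, intersection numbers
-/

set_option autoImplicit false

open scoped Manifold ContDiff Topology ComplexConjugate MatrixGroups UpperHalfPlane Matrix
open scoped ComplexOrder
open MeasureTheory Set Filter

namespace Pool.Agent.Y486

open Pool.Agent.W549.CY (Cn dz dzbar HermitianMetric chernRicci chernScalar)
open Pool.Agent.W711.KC (jj nn CG CG_far NN_pos jj_ne im_mob jj_mul nn_mul det_eq)
open Pool.Agent.TH598.KG (hf Cutoff d1)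
open Pool.Agent.TH997.KG (mob VV mob_mem mob_mul mob_one mob_inv_left mob_inv_right mob_coe
  hasDerivAt_mob isOpen_VV)
open Pool.Agent.TH997.CMan
open Complex (normSq)

/-! ### Radial integrals -/

theorem radial (h : ℝ → ℝ) : ∫ u : ℂ, h ‖u‖ = 2 * Real.pi * ∫ r in Ioi (0 : ℝ), r * h r := by
  have h1 := integral_fun_norm_addHaar (volume : Measure ℂ) h
  rw [h1]
  have h2 : (volume : Measure ℂ).real (Metric.ball 0 1) = Real.pi := by
    rw [Measure.real, Complex.volume_ball]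
    simp
  rw [h2, Complex.finrank_real_complex]
  simp only [Nat.add_one_sub_one, pow_one, smul_eq_mul, nsmul_eq_mul]
  push_cast
  ring

theorem kn_aux {y τ : ℝ} (hy : 0 < y) (hτ : 0 < τ) (n : ℕ) :
    IntegrableOn (fun r : ℝ => τ * r / (y + τ * r ^ 2) ^ (n + 2)) (Ioi 0) ∧
      ∫ r in Ioi (0 : ℝ), τ * r / (y + τ * r ^ 2) ^ (n + 2) = 1 / (2 * (n + 1) * y ^ (n + 1)) := by
  have hS : ∀ r : ℝ, 0 < y + τ * r ^ 2 := fun r => by positivity
  have hd : ∀ r ∈ Ici (0 : ℝ), HasDerivAt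
      (fun r : ℝ => -(1 / (2 * (n + 1)) * ((y + τ * r ^ 2) ^ (n + 1))⁻¹))
      (τ * r / (y + τ * r ^ 2) ^ (n + 2)) r := by
    intro r _
    have h1 : HasDerivAt (fun r : ℝ => y + τ * r ^ 2) (τ * (2 * r)) r := by
      have := ((hasDerivAt_pow 2 r).const_mul τ).const_add y
      refine this.congr_deriv ?_
      norm_num
    have h2 := ((h1.pow (n + 1)).inv (pow_ne_zero _ (hS r).ne')).const_mul (1 / (2 * ((n : ℝ) + 1)))
    refine h2.neg.congr_deriv ?_
    have hne := (hS r).ne'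
    have hn : (n : ℝ) + 1 ≠ 0 := by positivity
    have e : ((fun r : ℝ => y + τ * r ^ 2) ^ (n + 1)) r = (y + τ * r ^ 2) ^ (n + 1) := rfl
    rw [e, Nat.add_sub_cancel]
    push_cast
    field_simp
    ring
  have ht : Tendsto (fun r : ℝ => -(1 / (2 * ((n : ℝ) + 1)) * ((y + τ * r ^ 2) ^ (n + 1))⁻¹)) atTop
      (𝓝 0) := by
    have h1 : Tendsto (fun r : ℝ => y + τ * r ^ 2) atTop atTop :=
      tendsto_atTop_add_const_left _ _ ((tendsto_pow_atTop (by norm_num)).const_mul_atTop hτ)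
    have h2 : Tendsto (fun r : ℝ => (y + τ * r ^ 2) ^ (n + 1)) atTop atTop :=
      (tendsto_pow_atTop (by omega)).comp h1
    have h3 := (h2.inv_tendsto_atTop.const_mul (1 / (2 * ((n : ℝ) + 1)))).neg
    simpa using h3
  have hn : ∀ r ∈ Ioi (0 : ℝ), 0 ≤ τ * r / (y + τ * r ^ 2) ^ (n + 2) := by
    intro r hr
    have : 0 < r := hr
    have := hS r
    positivity
  refine ⟨integrableOn_Ioi_deriv_of_nonneg' hd hn ht, ?_⟩
  rw [integral_Ioi_of_hasDerivAt_of_nonneg' hd hn ht]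
  have hn1 : (n : ℝ) + 1 ≠ 0 := by positivity
  simp only [ne_eq, OfNat.ofNat_ne_zero, not_false_eq_true, zero_pow, mul_zero, add_zero]
  field_simp
  ring

theorem fibre_int {y τ : ℝ} (hy : 0 < y) (hτ : 0 < τ) (c2 c3 c4 : ℝ) :
    ∫ u : ℂ, τ * (c2 / (y + τ * normSq u) ^ 2 + c3 / (y + τ * normSq u) ^ 3 +
      c4 / (y + τ * normSq u) ^ 4) =
      Real.pi * (c2 / y + c3 / (2 * y ^ 2) + c4 / (3 * y ^ 3)) := by
  have e : ∀ u : ℂ, τ * (c2 / (y + τ * normSq u) ^ 2 + c3 / (y + τ * normSq u) ^ 3 +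
      c4 / (y + τ * normSq u) ^ 4) = (fun r : ℝ => τ * (c2 / (y + τ * r ^ 2) ^ 2 +
      c3 / (y + τ * r ^ 2) ^ 3 + c4 / (y + τ * r ^ 2) ^ 4)) ‖u‖ := by
    intro u
    simp only [Complex.normSq_eq_norm_sq]
  simp only [e]
  rw [radial (fun r : ℝ => τ * (c2 / (y + τ * r ^ 2) ^ 2 +
      c3 / (y + τ * r ^ 2) ^ 3 + c4 / (y + τ * r ^ 2) ^ 4))]
  obtain ⟨i2, j2⟩ := kn_aux hy hτ 0
  obtain ⟨i3, j3⟩ := kn_aux hy hτ 1
  obtain ⟨i4, j4⟩ := kn_aux hy hτ 2
  have h1 : ∫ r in Ioi (0 : ℝ), r * (τ * (c2 / (y + τ * r ^ 2) ^ 2 +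
      c3 / (y + τ * r ^ 2) ^ 3 + c4 / (y + τ * r ^ 2) ^ 4)) =
      ∫ r in Ioi (0 : ℝ), (c2 * (τ * r / (y + τ * r ^ 2) ^ (0 + 2)) +
        c3 * (τ * r / (y + τ * r ^ 2) ^ (1 + 2)) + c4 * (τ * r / (y + τ * r ^ 2) ^ (2 + 2))) := by
    refine setIntegral_congr_fun measurableSet_Ioi fun r _ => ?_
    show _ = _
    norm_num
    ring
  rw [h1, integral_add, integral_add, integral_const_mul, integral_const_mul, integral_const_mul,
    j2, j3, j4]
  · push_cast
    field_simp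
    ring
  · exact i2.const_mul c2
  · exact i3.const_mul c3
  · exact (i2.const_mul c2).add (i3.const_mul c3)
  · exact i4.const_mul c4

/-! ### Fubini -/

theorem II_fub {φ : ℂ → ℝ} (hφ : Cutoff CG φ) {G : Fin 2 → Cn 2 → ℝ} (hG : Dn G) :
    II φ G = ∫ z in {z : ℂ | 0 < z.im}, φ z * ∫ u : ℂ, G 0 (cz z u) := by
  unfold II
  have h1 := hG.integrable hφ 0
  rw [← integral_indicator measurableSet_UU]
  have h2 : Integrable (UU.indicator fun p : Cn 2 => φ (p 0) * G 0 p) :=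
    (integrable_indicator_iff measurableSet_UU).2 h1
  have hV : MeasurableSet {z : ℂ | 0 < z.im} := isOpen_VV.measurableSet
  rw [fubini _ h2, ← integral_indicator hV]
  refine integral_congr_ae (Filter.Eventually.of_forall fun z => ?_)
  show ∫ u : ℂ, UU.indicator (fun p : Cn 2 => φ (p 0) * G 0 p) (cz z u) =
    VV.indicator (fun z => φ z * ∫ u : ℂ, G 0 (cz z u)) z
  by_cases hz : z ∈ VV
  · rw [Set.indicator_of_mem hz, ← integral_const_mul]
    refine integral_congr_ae (Filter.Eventually.of_forall fun u => ?_)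
    have : cz z u ∈ UU := hz
    show UU.indicator (fun p : Cn 2 => φ (p 0) * G 0 p) (cz z u) = φ z * G 0 (cz z u)
    rw [Set.indicator_of_mem this]
    rfl
  · rw [Set.indicator_of_notMem hz]
    have h3 : ∀ u, UU.indicator (fun p : Cn 2 => φ (p 0) * G 0 p) (cz z u) = 0 := fun u =>
      Set.indicator_of_notMem (show cz z u ∉ UU from hz) _
    simp only [h3, integral_zero]

theorem II_fibre {φ : ℂ → ℝ} (hφ : Cutoff CG φ) {G : Fin 2 → Cn 2 → ℝ} (hG : Dn G) {κ : ℝ}
    (h : ∀ z : ℂ, 0 < z.im → ∫ u : ℂ, G 0 (cz z u) = κ / z.im ^ 2) :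
    II φ G = 4 * Real.pi * WW φ * κ := by
  rw [II_fub hφ hG]
  have h1 : ∫ z in {z : ℂ | 0 < z.im}, φ z * ∫ u : ℂ, G 0 (cz z u) =
      ∫ z in {z : ℂ | 0 < z.im}, κ * (φ z / z.im ^ 2) := by
    refine setIntegral_congr_fun isOpen_VV.measurableSet fun z hz => ?_
    show φ z * ∫ u : ℂ, G 0 (cz z u) = κ * (φ z / z.im ^ 2)
    rw [h z hz]
    ring
  rw [h1, integral_const_mul]
  unfold WW
  have := Real.pi_pos.ne'
  field_simp

/-! ### The basic integrals -/

theorem II_det_vv {φ : ℂ → ℝ} (hφ : Cutoff CG φ) (A C t : ℝ) :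
    II φ (fun i p => (LL (vv A C t i) p).det.re) =
      Real.pi ^ 2 * WW φ * (A * C - A ^ 2 / 2) := by
  rw [II_fibre hφ (dn_det ((wf_vv A C).wt t)) (κ := Real.pi * (A * C / 4 - A ^ 2 / 8))]
  · ring
  · intro z hz
    have h1 : ∀ u : ℂ, (LL (vv A C t 0) (cz z u)).det.re =
        Real.exp t * ((A * C / (4 * z.im)) / (z.im + Real.exp t * normSq u) ^ 2 +
          (-A ^ 2 / 4) / (z.im + Real.exp t * normSq u) ^ 3 +
          0 / (z.im + Real.exp t * normSq u) ^ 4) := by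
      intro u
      have hu : cz z u ∈ UU := hz
      rw [det_vv A C t hu]
      have e1 : St (Real.exp t) (cz z u) = z.im + Real.exp t * normSq u := rfl
      have e2 : (cz z u 0).im = z.im := rfl
      have hS : 0 < z.im + Real.exp t * normSq u := by
        have := Complex.normSq_nonneg u
        positivity
      rw [e1, e2]
      field_simp
      ring
    simp only [h1]
    rw [fibre_int hz (Real.exp_pos t)]
    field_simp
    ring

theorem II_vdet_vv {φ : ℂ → ℝ} (hφ : Cutoff CG φ) (A C t : ℝ) :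
    II φ (fun i p => dt (vv A C) t i p * (LL (vv A C t i) p).det.re) =
      Real.pi ^ 2 * WW φ * (A ^ 2 * C / 2 - A ^ 3 / 6) := by
  rw [II_fibre hφ (Dn.fn_mul ((wf_vv A C).dt.wt t).fn (dn_det ((wf_vv A C).wt t)))
    (κ := Real.pi * (A ^ 2 * C / 8 - A ^ 3 / 24))]
  · ring
  · intro z hz
    have h1 : ∀ u : ℂ, dt (vv A C) t 0 (cz z u) * (LL (vv A C t 0) (cz z u)).det.re =
        Real.exp t * ((A ^ 2 * C / (4 * z.im)) / (z.im + Real.exp t * normSq u) ^ 2 +
          (-(A ^ 2 * C) / 4 - A ^ 3 / 4) / (z.im + Real.exp t * normSq u) ^ 3 +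
          (A ^ 3 * z.im / 4) / (z.im + Real.exp t * normSq u) ^ 4) := by
      intro u
      have hu : cz z u ∈ UU := hz
      rw [det_vv A C t hu, dt_vv A C t 0 hu]
      have e1 : St (Real.exp t) (cz z u) = z.im + Real.exp t * normSq u := rfl
      have e2 : (cz z u 0).im = z.im := rfl
      have e3 : NT t 0 (cz z u) = z.im + Real.exp t * normSq u := by rw [NT_zero, e1]
      have e4 : normSq (ins 0 (cz z u) 1) = normSq u := rfl
      have hS : 0 < z.im + Real.exp t * normSq u := by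
        have := Complex.normSq_nonneg u
        positivity
      rw [e1, e2, e3, e4]
      set S := z.im + Real.exp t * normSq u with hSd
      have e5 : Real.exp t * normSq u = S - z.im := by rw [hSd]; ring
      rw [e5]
      field_simp
      ring
    simp only [h1]
    rw [fibre_int hz (Real.exp_pos t)]
    field_simp
    ring

/-! ### Consequences of Stokes' theorem -/

section st

variable {φ : ℂ → ℝ} {A C A' C' : ℝ} {P P' Q : Fin 2 → Cn 2 → ℝ}

theorem DM_const (c : ℝ) (h : Cn 2 → ℝ) (p : Cn 2) : DM (fun _ => c) h p = 0 := by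
  ext j k
  show dz j (fun _ => ((c : ℝ) : ℂ)) p * _ = 0
  rw [dz_const', zero_mul]

theorem wt_const (c : ℝ) : Wt 0 0 fun _ _ => c :=
  ⟨fun _ => contDiffOn_const, fun _ _ _ _ _ _ _ => by ring⟩

/-- `∫ i∂∂̄f ∧ i∂∂̄P = 0` -/
theorem II_exact (hφ : Cutoff CG φ) {f : Fin 2 → Cn 2 → ℝ} (hf : Wt 0 0 f) (hP : Wt A C P) :
    II φ (fun i p => DD (LL (f i) p) (LL (P i) p)) = 0 := by
  have h := t_stokes φ hφ (fun _ _ => 1) f (wt_const 1) hf A C P hP
  unfold II
  rw [← h]
  refine setIntegral_congr_fun measurableSet_UU fun p _ => ?_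
  have e : (Matrix.of fun j k => dz j (fun _ : Cn 2 => (((1 : ℝ)) : ℂ)) p *
      dzbar k (fun q => ((f 0 q : ℝ) : ℂ)) p : M2) = 0 := DM_const 1 (f 0) p
  show φ (p 0) * DD (LL (f 0) p) (LL (P 0) p) = φ (p 0) * (1 * DD (LL (f 0) p) (LL (P 0) p) +
    DD (Matrix.of fun j k => dz j (fun _ : Cn 2 => (((1 : ℝ)) : ℂ)) p *
      dzbar k (fun q => ((f 0 q : ℝ) : ℂ)) p) (LL (P 0) p))
  rw [e]
  have : DD 0 (LL (P 0) p) = 0 := by simp [DD]
  rw [this]
  ring

/-- integration by parts -/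
theorem II_parts (hφ : Cutoff CG φ) {f h : Fin 2 → Cn 2 → ℝ} (hf : Wt 0 0 f) (hh : Wt 0 0 h)
    (hP : Wt A C P) :
    II φ (fun i p => f i p * DD (LL (h i) p) (LL (P i) p)) =
      - II φ (fun i p => DD (DM (f i) (h i) p) (LL (P i) p)) := by
  have h1 := t_stokes φ hφ f h hf hh A C P hP
  have h2 := II_add hφ (Dn.fn_mul hf.fn (dn_LL hh hP)) (dn_DM hf hh hP)
  have h3 : II φ (fun i p => f i p * DD (LL (h i) p) (LL (P i) p) +
      DD (DM (f i) (h i) p) (LL (P i) p)) = 0 := h1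
  linarith

theorem II_parts_symm (hφ : Cutoff CG φ) {f h : Fin 2 → Cn 2 → ℝ} (hf : Wt 0 0 f) (hh : Wt 0 0 h)
    (hP : Wt A C P) :
    II φ (fun i p => f i p * DD (LL (h i) p) (LL (P i) p)) =
      II φ (fun i p => h i p * DD (LL (f i) p) (LL (P i) p)) := by
  rw [II_parts hφ hf hh hP, II_parts hφ hh hf hP]
  congr 1
  apply II_congr
  intro p hp
  exact (DD_DM_symm _ _ (LL_herm ((hP.contDiffAt 0 hp).of_le two_le_inf))).symm

theorem Wt.sub (hP : Wt A C P) (hQ : Wt A' C' Q) : Wt (A - A') (C - C') fun i p => P i p - Q i p := by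
  refine ⟨fun i => (hP.smooth i).sub (hQ.smooth i), fun g hg i j p hp h => ?_⟩
  rw [hP.compat g hg i j p hp h, hQ.compat g hg i j p hp h]
  ring

theorem Wt.add (hP : Wt A C P) (hQ : Wt A' C' Q) : Wt (A + A') (C + C') fun i p => P i p + Q i p := by
  refine ⟨fun i => (hP.smooth i).add (hQ.smooth i), fun g hg i j p hp h => ?_⟩
  rw [hP.compat g hg i j p hp h, hQ.compat g hg i j p hp h]
  ring

theorem Wt.const_mul (hP : Wt A C P) (c : ℝ) : Wt (c * A) (c * C) fun i p => c * P i p := by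
  refine ⟨fun i => contDiffOn_const.mul (hP.smooth i), fun g hg i j p hp h => ?_⟩
  rw [hP.compat g hg i j p hp h]
  ring

theorem Wt.sub_same (hP : Wt A C P) (hQ : Wt A C Q) : Wt 0 0 fun i p => P i p - Q i p := by
  have h := hP.sub hQ
  rwa [sub_self, sub_self] at h

theorem Wt.cd2 (hP : Wt A C P) (i : Fin 2) {p : Cn 2} (hp : p ∈ UU) : ContDiffAt ℝ 2 (P i) p :=
  (hP.contDiffAt i hp).of_le two_le_inf

/-- The intersection number does not depend on the weight. -/
theorem II_indep (hφ : Cutoff CG φ) (hP : Wt A C P) (hP' : Wt A C P') (hQ : Wt A' C' Q) :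
    II φ (fun i p => DD (LL (P i) p) (LL (Q i) p)) =
      II φ (fun i p => DD (LL (P' i) p) (LL (Q i) p)) := by
  have h1 := II_exact hφ (hP.sub_same hP') hQ
  have h2 := II_sub hφ (dn_LL hP hQ) (dn_LL hP' hQ)
  have h3 : II φ (fun i p => DD (LL (fun q => P i q - P' i q) p) (LL (Q i) p)) =
      II φ (fun i p => DD (LL (P i) p) (LL (Q i) p) - DD (LL (P' i) p) (LL (Q i) p)) := by
    apply II_congr
    intro p hp
    rw [LL_sub (hP.cd2 0 hp) (hP'.cd2 0 hp), DD_sub_left]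
  linarith

theorem II_comm (P Q : Fin 2 → Cn 2 → ℝ) : II φ (fun i p => DD (LL (P i) p) (LL (Q i) p)) =
    II φ (fun i p => DD (LL (Q i) p) (LL (P i) p)) := by
  apply II_congr
  intro p _
  exact DD_comm _ _

/-- The intersection form. -/
theorem II_inter (hφ : Cutoff CG φ) (hP : Wt A C P) (hQ : Wt A' C' Q) :
    II φ (fun i p => DD (LL (P i) p) (LL (Q i) p)) =
      Real.pi ^ 2 * WW φ * (A * C' + A' * C - A * A') := by
  have hself : ∀ {A C : ℝ} {P : Fin 2 → Cn 2 → ℝ}, Wt A C P →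
      II φ (fun i p => DD (LL (P i) p) (LL (P i) p)) =
      Real.pi ^ 2 * WW φ * (2 * A * C - A ^ 2) := by
    intro A C P hP
    have hV := (wf_vv A C).wt 0
    rw [II_indep hφ hP hV hP, II_comm, II_indep hφ hP hV hV]
    have h1 : II φ (fun i p => DD (LL (vv A C 0 i) p) (LL (vv A C 0 i) p)) =
        II φ (fun i p => 2 * (LL (vv A C 0 i) p).det.re) := by
      apply II_congr
      intro p _
      exact DD_self _
    rw [h1, II_const_mul φ (fun i p => (LL (vv A C 0 i) p).det.re), II_det_vv hφ]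
    ring
  have h1 := hself (hP.add hQ)
  have h2 := hself hP
  have h3 := hself hQ
  have h4 : II φ (fun i p => DD (LL (fun q => P i q + Q i q) p) (LL (fun q => P i q + Q i q) p)) =
      II φ (fun i p => (DD (LL (P i) p) (LL (P i) p) + DD (LL (Q i) p) (LL (Q i) p)) +
        2 * DD (LL (P i) p) (LL (Q i) p)) := by
    apply II_congr
    intro p hp
    rw [LL_add (hP.cd2 0 hp) (hQ.cd2 0 hp), DD_add_left, DD_add_right, DD_add_right,
      DD_comm (LL (Q 0) p) (LL (P 0) p)]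
    ring
  have h5 := II_add hφ ((dn_LL hP hP).add (dn_LL hQ hQ)) ((dn_LL hP hQ).const_mul 2)
  have h6 := II_add hφ (dn_LL hP hP) (dn_LL hQ hQ)
  have h7 := II_const_mul φ (fun i p => DD (LL (P i) p) (LL (Q i) p)) 2
  rw [h4, h5, h6, h7, h2, h3] at h1
  linarith

/-- The volume. -/
theorem II_det (hφ : Cutoff CG φ) (hP : Wt A C P) :
    II φ (fun i p => (LL (P i) p).det.re) = Real.pi ^ 2 * WW φ * (A * C - A ^ 2 / 2) := by
  have h1 := II_inter hφ hP hP
  have h2 : II φ (fun i p => DD (LL (P i) p) (LL (P i) p)) =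
        II φ (fun i p => 2 * (LL (P i) p).det.re) := by
    apply II_congr
    intro p _
    exact DD_self _
  rw [h2, II_const_mul φ (fun i p => (LL (P i) p).det.re)] at h1
  linarith

end st

end Pool.Agent.Y486
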