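import Pool.Agent.Y486.RefI
import Pool.Agent.TH997.J259

/-!
# The scalar curvature as a function on the quotient
-/

set_option autoImplicit false

open scoped Manifold ContDiff Topology ComplexConjugate MatrixGroups UpperHalfPlane Matrix
open scoped ComplexOrder
open MeasureTheory Set Filter

namespace Pool.Agent.Y486

open Pool.Agent.W549.CY (Cn dz dzbar HermitianMetric chernRicci chernScalar)
open Pool.Agent.W711.KC (jj nn CG CG_far NN_pos jj_ne im_mob jj_mul nn_mul det_eq)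
open Pool.Agent.TH598.KG (hf Cutoff d1 posDef_iff_hf)
open Pool.Agent.TH997.KG (mob VV mob_mem mob_mul mob_one mob_inv_left mob_inv_right mob_coe
  hasDerivAt_mob isOpen_VV)
open Pool.Agent.TH997.CMan
open Complex (normSq)

/-- positivity of the metric -/
def PD (P : Fin 2 → Cn 2 → ℝ) : Prop :=
  ∀ i, ∀ p ∈ UU, ∀ v : Cn 2, v ≠ 0 → 0 < (hf (LL (P i) p) v).re

section scal

variable {a c : ℝ} {P : Fin 2 → Cn 2 → ℝ}

theorem PD.posDef (hP : Wt a c P) (hpd : PD P) (i : Fin 2) {p : Cn 2} (hp : p ∈ UU) :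
    (LL (P i) p).PosDef :=
  posDef_iff_hf.2 ⟨LL_herm (hP.cd2 i hp), hpd i p hp⟩

theorem PD.det_pos (hP : Wt a c P) (hpd : PD P) (i : Fin 2) {p : Cn 2} (hp : p ∈ UU) :
    0 < (LL (P i) p).det.re :=
  (Complex.pos_iff.1 (hpd.posDef hP i hp).det_pos).1

theorem PD.det_im (hP : Wt a c P) (hpd : PD P) (i : Fin 2) {p : Cn 2} (hp : p ∈ UU) :
    (LL (P i) p).det.im = 0 :=
  (Complex.pos_iff.1 (hpd.posDef hP i hp).det_pos).2.symm

/-- the Ricci weight `- log det g` -/
noncomputable def rho (P : Fin 2 → Cn 2 → ℝ) (i : Fin 2) (p : Cn 2) : ℝ :=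
  -Real.log (LL (P i) p).det.re

theorem wt_rho (hP : Wt a c P) (hpd : PD P) : Wt 2 (-1) (rho P) := by
  refine ⟨fun i => ?_, fun g hg i j p hp h => ?_⟩
  · have h1 := contDiffOn_DD (contDiffOn_LL (hP.smooth i)) (contDiffOn_LL (hP.smooth i))
    have h2 : ContDiffOn ℝ ∞ (fun p => (LL (P i) p).det.re) UU := by
      have e : (fun p => (LL (P i) p).det.re) = fun p => 1 / 2 * DD (LL (P i) p) (LL (P i) p) := by
        funext p
        rw [DD_self]
        ring
      rw [e]
      exact contDiffOn_const.mul h1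
    exact (h2.log fun p hp => (hpd.det_pos hP i hp).ne').neg
  · have hj : normSq (jj g (p 0)) ≠ 0 := (Complex.normSq_pos.2 (jj_ne g hp)).ne'
    have hh : normSq (hom g i p j) ≠ 0 := (Complex.normSq_pos.2 h).ne'
    have h1 := hP.det_eq hg i j hp h
    have h2 := hpd.det_pos hP j (FF_mem g i j hp)
    unfold rho
    rw [h1, Real.log_mul (JD_pos g i j hp h).ne' h2.ne']
    unfold JD
    rw [Real.log_div one_ne_zero (mul_ne_zero hj (pow_ne_zero 2 hh)), Real.log_mul hj
      (pow_ne_zero 2 hh), Real.log_pow, Real.log_one]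
    push_cast
    ring

theorem chernRicci_eq (P : Cn 2 → ℝ) {p : Cn 2} (hd : ContDiffAt ℝ 2 (fun q => -Real.log (LL P q).det.re) p) :
    chernRicci (LL P) p = LL (fun q => -Real.log (LL P q).det.re) p := by
  ext j k
  show -dz j (dzbar k fun w => ((Real.log (LL P w).det.re : ℝ) : ℂ)) p =
    dz j (dzbar k fun w => ((-Real.log (LL P w).det.re : ℝ) : ℂ)) p
  have hdC : ContDiffAt ℝ 2 (fun q => ((-Real.log (LL P q).det.re : ℝ) : ℂ)) p :=
    Complex.ofRealCLM.contDiff.contDiffAt.comp p hd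
  have h := levi_const_mul (-1) hdC j k
  have e : (fun q => (-1 : ℂ) * ((-Real.log (LL P q).det.re : ℝ) : ℂ)) =
      fun w => ((Real.log (LL P w).det.re : ℝ) : ℂ) := by
    funext q
    push_cast
    ring
  rw [e] at h
  rw [h]
  ring

/-- `s det g = DD(Ric, g)` -/
theorem trace_inv_mul {g R : M2} (hg : g.det ≠ 0) : (g⁻¹ * R).trace * g.det = DC R g := by
  rw [Matrix.inv_def, Ring.inverse_eq_inv', Matrix.smul_mul, Matrix.trace_smul, smul_eq_mul,
    Matrix.adjugate_fin_two]
  unfold DC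
  rw [Matrix.trace_fin_two, Matrix.mul_apply, Matrix.mul_apply]
  simp only [Fin.sum_univ_two, Matrix.of_apply, Matrix.cons_val', Matrix.cons_val_zero,
    Matrix.cons_val_one, Matrix.empty_val', Matrix.cons_val_fin_one]
  field_simp
  ring

/-- the scalar curvature -/
noncomputable def sc (P : Fin 2 → Cn 2 → ℝ) (i : Fin 2) (p : Cn 2) : ℝ :=
  (chernScalar (LL (P i)) p).re

theorem sc_det (hP : Wt a c P) (hpd : PD P) (i : Fin 2) {p : Cn 2} (hp : p ∈ UU) :
    sc P i p * (LL (P i) p).det.re = DD (LL (rho P i) p) (LL (P i) p) := by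
  have h0 := hpd.det_pos hP i hp
  have h1 := hpd.det_im hP i hp
  have hne : (LL (P i) p).det ≠ 0 := by
    intro h
    rw [h] at h0
    simp at h0
  have h2 : chernRicci (LL (P i)) p = LL (rho P i) p :=
    chernRicci_eq (P i) ((wt_rho hP hpd).cd2 i hp)
  have h3 := trace_inv_mul (R := chernRicci (LL (P i)) p) hne
  have h4 : (chernScalar (LL (P i)) p * (LL (P i) p).det).re = (DC (chernRicci (LL (P i)) p)
      (LL (P i) p)).re := congrArg Complex.re h3
  rw [Complex.mul_re, h1, mul_zero, sub_zero, DC_re, h2] at h4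
  exact h4

theorem fn_sc (hP : Wt a c P) (hpd : PD P) : Fn (sc P) := by
  have hform : ∀ i, ∀ p ∈ UU, sc P i p = DD (LL (rho P i) p) (LL (P i) p) /
      (LL (P i) p).det.re := by
    intro i p hp
    rw [← sc_det hP hpd i hp, mul_div_cancel_right₀ _ (hpd.det_pos hP i hp).ne']
  have hn := dn_LL (wt_rho hP hpd) hP
  have hd := dn_det hP
  refine ⟨fun i => ?_, fun g hg i j p hp h => ?_⟩
  · exact ((hn.cont i).div (hd.cont i) fun p hp => (hpd.det_pos hP i hp).ne').congr (hform i)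
  · rw [hform i p hp, hform j _ (FF_mem g i j hp), hn.compat g hg i j p hp h,
      hd.compat g hg i j p hp h, mul_div_mul_left _ _ (JD_pos g i j hp h).ne']

/-- the total scalar curvature -/
theorem II_sc {φ : ℂ → ℝ} (hφ : Cutoff CG φ) (hP : Wt a c P) (hpd : PD P) :
    II φ (fun i p => sc P i p * (LL (P i) p).det.re) =
      Real.pi ^ 2 * WW φ * (2 * c - 3 * a) := by
  have h1 : II φ (fun i p => sc P i p * (LL (P i) p).det.re) =
      II φ (fun i p => DD (LL (rho P i) p) (LL (P i) p)) :=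
    II_congr fun p hp => sc_det hP hpd 0 hp
  rw [h1, II_inter hφ (wt_rho hP hpd) hP]
  ring

end scal

/-! ### Positivity -/

/-- a non-negative density with zero integral vanishes -/
theorem Dn.eq_zero {φ : ℂ → ℝ} (hφ : Cutoff CG φ) {G : Fin 2 → Cn 2 → ℝ} (hG : Dn G)
    (h0 : ∀ i, ∀ p ∈ UU, 0 ≤ G i p) (hI : II φ G = 0) (i : Fin 2) {p : Cn 2} (hp : p ∈ UU) :
    G i p = 0 := by
  -- vanishing where `φ` is positive
  have h1 : ∀ q ∈ UU, φ (q 0) * G 0 q = 0 := by
    have hint := hG.integrable hφ 0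
    have hnn : 0 ≤ᵐ[volume.restrict UU] fun q : Cn 2 => φ (q 0) * G 0 q := by
      filter_upwards [ae_restrict_mem measurableSet_UU] with q hq
      exact mul_nonneg (hφ.nonneg _) (h0 0 q hq)
    have h2 := (setIntegral_eq_zero_iff_of_nonneg_ae hnn hint).1 hI
    have hcont : ContinuousOn (fun q : Cn 2 => φ (q 0) * G 0 q) UU :=
      (hφ.smooth.continuous.comp (continuous_apply 0)).continuousOn.mul (hG.cont 0)
    have h3 : Set.EqOn (fun q : Cn 2 => φ (q 0) * G 0 q) 0 UU :=
      Measure.eqOn_open_of_ae_eq h2 isOpen_UU hcont continuousOn_const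
    exact fun q hq => h3 hq
  -- points of the overlap
  have h2 : ∀ q ∈ UU, q 1 ≠ 0 → G i q = 0 := by
    intro q hq hq1
    have h3 : ∃ g : CG, φ (mob g (q 0)) ≠ 0 := by
      by_contra hcon
      have hcon' : ∀ g : CG, φ (mob g (q 0)) = 0 := by
        intro g
        by_contra hne
        exact hcon ⟨g, hne⟩
      have h4 := hφ.sum ⟨q 0, hq⟩
      have h5 : ∑' g : CG, φ (((g : SL(2, ℝ)) • (⟨q 0, hq⟩ : ℍ) : ℍ) : ℂ) = 0 := by
        have : ∀ g : CG, φ (((g : SL(2, ℝ)) • (⟨q 0, hq⟩ : ℍ) : ℍ) : ℂ) = 0 := by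
          intro g
          rw [mob_coe]
          exact hcon' g
        simp only [this, tsum_zero]
      rw [h5] at h4
      exact zero_ne_one h4
    obtain ⟨g, hg⟩ := h3
    have h4 : hom g i q 0 ≠ 0 := by
      have h5 : ins i q 0 ≠ 0 := by
        fin_cases i
        · show (1 : ℂ) ≠ 0
          exact one_ne_zero
        · exact hq1
      exact mul_ne_zero (jj_ne g hq) h5
    rw [hG.compat g g.2 i 0 q hq h4]
    have h5 := h1 _ (FF_mem g i 0 hq)
    have h6 : φ (FF g i 0 q 0) ≠ 0 := hg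
    rw [(mul_eq_zero.1 h5).resolve_left h6, mul_zero]
  by_cases hp1 : p 1 ≠ 0
  · exact h2 p hp hp1
  · -- continuity
    have hseq : Tendsto (fun n : ℕ => (![p 0, (1 : ℂ) / ((n : ℂ) + 1)] : Cn 2)) atTop (𝓝 p) := by
      rw [tendsto_pi_nhds]
      intro k
      fin_cases k
      · exact tendsto_const_nhds
      · have h3 : p 1 = 0 := not_not.1 hp1
        show Tendsto (fun n : ℕ => (1 : ℂ) / ((n : ℂ) + 1)) atTop (𝓝 (p 1))
        rw [h3]
        exact tendsto_one_div_add_atTop_nhds_zero_nat (𝕜 := ℂ)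
    have h3 : Tendsto (fun n : ℕ => G i (![p 0, (1 : ℂ) / ((n : ℂ) + 1)] : Cn 2)) atTop
        (𝓝 (G i p)) :=
      ((hG.cont i).continuousAt (isOpen_UU.mem_nhds hp)).tendsto.comp hseq
    have h4 : (fun n : ℕ => G i (![p 0, (1 : ℂ) / ((n : ℂ) + 1)] : Cn 2)) = fun _ => 0 := by
      funext n
      refine h2 _ hp ?_
      show (1 : ℂ) / ((n : ℂ) + 1) ≠ 0
      exact one_div_ne_zero (Nat.cast_add_one_ne_zero n)
    rw [h4] at h3
    exact tendsto_nhds_unique tendsto_const_nhds h3 |>.symm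

theorem WW_pos {φ : ℂ → ℝ} (hφ : Cutoff CG φ) : 0 < WW φ := by
  have h0 : 0 ≤ WW φ := by
    unfold WW
    refine mul_nonneg (by positivity) (setIntegral_nonneg isOpen_VV.measurableSet fun z _ => ?_)
    exact div_nonneg (hφ.nonneg z) (sq_nonneg _)
  refine lt_of_le_of_ne h0 fun h => ?_
  have h1 := II_det_vv hφ 1 2 0
  rw [← h, mul_zero, zero_mul] at h1
  have hG := dn_det ((wf_vv 1 2).wt 0)
  -- positivity of the determinant in the chart number zero
  have hpos : ∀ p ∈ UU, 0 < (LL (vv 1 2 0 0) p).det.re := by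
    intro p hp
    have hy : 0 < (p 0).im := hp
    rw [det_vv 1 2 0 hp]
    have hS := St_pos (Real.exp_pos 0).le hp
    have hyS : (p 0).im ≤ St (Real.exp 0) p := by
      unfold St
      have := Complex.normSq_nonneg (p 1)
      have := (Real.exp_pos 0).le
      nlinarith
    refine mul_pos (Real.exp_pos 0) ?_
    rw [sub_pos, div_lt_div_iff₀ (by positivity) (by positivity)]
    have : (p 0).im * St (Real.exp 0) p ^ 2 ≤ St (Real.exp 0) p * St (Real.exp 0) p ^ 2 :=
      mul_le_mul_of_nonneg_right hyS (by positivity)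
    have h3 : 0 < St (Real.exp 0) p ^ 3 := by positivity
    nlinarith
  have h2 : II φ (fun i p => (LL (vv 1 2 0 i) p).det.re) = 0 := h1
  have hnn : 0 ≤ᵐ[volume.restrict UU] fun q : Cn 2 => φ (q 0) * (LL (vv 1 2 0 0) q).det.re := by
    filter_upwards [ae_restrict_mem measurableSet_UU] with q hq
    exact mul_nonneg (hφ.nonneg _) (hpos q hq).le
  have h3 := (setIntegral_eq_zero_iff_of_nonneg_ae hnn (hG.integrable hφ 0)).1 h2
  have hcont : ContinuousOn (fun q : Cn 2 => φ (q 0) * (LL (vv 1 2 0 0) q).det.re) UU :=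
    (hφ.smooth.continuous.comp (continuous_apply 0)).continuousOn.mul (hG.cont 0)
  have h4 : Set.EqOn (fun q : Cn 2 => φ (q 0) * (LL (vv 1 2 0 0) q).det.re) 0 UU :=
    Measure.eqOn_open_of_ae_eq h3 isOpen_UU hcont continuousOn_const
  have h5 := hφ.sum UpperHalfPlane.I
  have h6 : ∀ g : CG, φ (((g : SL(2, ℝ)) • UpperHalfPlane.I : ℍ) : ℂ) = 0 := by
    intro g
    have hz : cz (((g : SL(2, ℝ)) • UpperHalfPlane.I : ℍ) : ℂ) 0 ∈ UU :=
      ((g : SL(2, ℝ)) • UpperHalfPlane.I : ℍ).im_pos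
    have h7 := h4 hz
    exact (mul_eq_zero.1 h7).resolve_right (hpos _ hz).ne'
  simp only [h6, tsum_zero] at h5
  exact zero_ne_one h5

end Pool.Agent.Y486
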