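import Pool.Agent.Y486.SqSum

/-!
# The family `u t = log ∑ e^{t v} |F|²`
-/

set_option autoImplicit false

open scoped Manifold ContDiff Topology ComplexConjugate MatrixGroups UpperHalfPlane Matrix
open scoped ComplexOrder
open MeasureTheory Set Filter

namespace Pool.Agent.Y486

open Pool.Agent.W549.CY (Cn dz dzbar HermitianMetric chernRicci chernScalar)
open Pool.Agent.W711.KC (jj nn CG CG_far NN_pos jj_ne im_mob jj_mul nn_mul det_eq)
open Pool.Agent.TH598.KG (hf Cutoff d1)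
open Pool.Agent.TH997.KG (mob VV mob_mem mob_mul mob_one mob_inv_left mob_inv_right mob_coe
  hasDerivAt_mob isOpen_VV)
open Pool.Agent.TH997.CMan
open Complex (normSq)

variable {N : ℕ}

/-- the exponential weights -/
noncomputable def wv (v : Fin N → ℕ) (t : ℝ) (ι : Fin N) : ℝ := Real.exp (t * v ι)

theorem wv_pos (v : Fin N → ℕ) (t : ℝ) (ι : Fin N) : 0 < wv v t ι := Real.exp_pos _

/-- the sections in the chart number `i` -/
noncomputable def Fs (A : ℕ) (f : Fin N → ℕ → ℂ → ℂ) (i : Fin 2) (ι : Fin N) (p : Cn 2) : ℂ :=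
  sec A (f ι) i p

/-- The family of weights. -/
noncomputable def uu (A : ℕ) (v : Fin N → ℕ) (f : Fin N → ℕ → ℂ → ℂ) (t : ℝ) (i : Fin 2)
    (p : Cn 2) : ℝ := Real.log (sq (wv v t) (Fs A f i) p)

/-- The hypotheses on a system of sections. -/
structure Sys (A C : ℕ) (v : Fin N → ℕ) (f : Fin N → ℕ → ℂ → ℂ) : Prop where
  hAC : A ≤ C
  vle : ∀ ι, v ι ≤ A
  isec : ∀ ι, IsSec A C (v ι) (f ι)
  pos : ∀ i, ∀ p ∈ UU, ∃ ι, sec A (f ι) i p ≠ 0

section sys

variable {A C : ℕ} {v : Fin N → ℕ} {f : Fin N → ℕ → ℂ → ℂ}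

theorem Sys.cdC (h : Sys A C v f) (i : Fin 2) (ι : Fin N) {n : WithTop ℕ∞} :
    ContDiffOn ℂ n (Fs A f i ι) UU :=
  contDiffOn_sec (fun l hl => ((h.isec ι).mf l hl).hol) i

theorem Sys.cdAt (h : Sys A C v f) (i : Fin 2) (ι : Fin N) {p : Cn 2} (hp : p ∈ UU)
    {n : WithTop ℕ∞} : ContDiffAt ℂ n (Fs A f i ι) p :=
  (h.cdC i ι).contDiffAt (isOpen_UU.mem_nhds hp)

theorem Sys.cdR (h : Sys A C v f) (i : Fin 2) (ι : Fin N) {n : WithTop ℕ∞} :
    ContDiffOn ℝ n (Fs A f i ι) UU := (h.cdC i ι).restrict_scalars ℝ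

theorem Sys.sq_pos (h : Sys A C v f) {w : Fin N → ℝ} (hw : ∀ ι, 0 < w ι) (i : Fin 2) {p : Cn 2}
    (hp : p ∈ UU) : 0 < sq w (Fs A f i) p := by
  obtain ⟨ι, hι⟩ := h.pos i p hp
  refine Finset.sum_pos' (fun ι _ => mul_nonneg (hw ι).le (Complex.normSq_nonneg _))
    ⟨ι, Finset.mem_univ _, mul_pos (hw ι) (Complex.normSq_pos.2 hι)⟩

theorem Sys.sq_FF (h : Sys A C v f) (w : Fin N → ℝ) {g : SL(2, ℝ)}
    (hg : g ∈ CG) (i j : Fin 2) {p : Cn 2} (hp : p ∈ UU) (h0 : hom g i p j ≠ 0) :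
    sq w (Fs A f j) (FF g i j p) = (normSq (hom g i p j))⁻¹ ^ A * normSq (jj g (p 0)) ^ C *
      sq w (Fs A f i) p := by
  unfold sq
  rw [Finset.mul_sum]
  refine Finset.sum_congr rfl fun ι _ => ?_
  show w ι * normSq (sec A (f ι) j (FF g i j p)) =
    _ * (w ι * normSq (sec A (f ι) i p))
  rw [normSq_sec_FF h.hAC (h.isec ι) hg i j hp h0]
  ring

theorem Sys.smooth_sq (h : Sys A C v f) (i : Fin 2) (c : Fin N → ℝ) :
    ContDiffOn ℝ ∞ (fun x : ℝ × Cn 2 => sq (fun ι => c ι * wv v x.1 ι) (Fs A f i) x.2) TU := by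
  unfold sq
  refine ContDiffOn.sum fun ι _ => ContDiffOn.mul ?_ ?_
  · refine contDiffOn_const.mul ?_
    unfold wv
    exact (Real.contDiff_exp.comp (contDiff_fst.mul contDiff_const)).contDiffOn
  · have h3 : (fun x : ℝ × Cn 2 => normSq (Fs A f i ι x.2)) = fun x => ‖Fs A f i ι x.2‖ ^ 2 := by
      funext q
      exact Complex.normSq_eq_norm_sq _
    rw [h3]
    exact ((h.cdR i ι).comp contDiff_snd.contDiffOn fun x hx => mem_TU.1 hx).norm_sq ℝ

theorem Sys.smooth_sq' (h : Sys A C v f) (i : Fin 2) :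
    ContDiffOn ℝ ∞ (fun x : ℝ × Cn 2 => sq (wv v x.1) (Fs A f i) x.2) TU := by
  have h1 := h.smooth_sq i (fun _ => 1)
  simpa only [one_mul] using h1

theorem Sys.wf (h : Sys A C v f) : WF A C (uu A v f) := by
  refine ⟨fun i => ?_, fun t g hg i j p hp h0 => ?_⟩
  · exact (h.smooth_sq' i).log fun x hx => (h.sq_pos (wv_pos v x.1) i (mem_TU.1 hx)).ne'
  · have hj : normSq (jj g (p 0)) ≠ 0 := (Complex.normSq_pos.2 (jj_ne g hp)).ne'
    have hh : normSq (hom g i p j) ≠ 0 := (Complex.normSq_pos.2 h0).ne'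
    have hS := (h.sq_pos (wv_pos v t) i hp).ne'
    unfold uu
    rw [h.sq_FF _ hg i j hp h0, Real.log_mul (mul_ne_zero (pow_ne_zero _ (inv_ne_zero hh))
      (pow_ne_zero _ hj)) hS, Real.log_mul (pow_ne_zero _ (inv_ne_zero hh)) (pow_ne_zero _ hj),
      Real.log_pow, Real.log_pow, Real.log_inv]
    ring

theorem hasDerivAt_sq (c : Fin N → ℝ) (F : Fin N → Cn 2 → ℂ) (t : ℝ) (p : Cn 2) :
    HasDerivAt (fun s => sq (fun ι => c ι * wv v s ι) F p)
      (sq (fun ι => (c ι * v ι) * wv v t ι) F p) t := by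
  unfold sq
  refine HasDerivAt.fun_sum fun ι _ => ?_
  have h1 : HasDerivAt (fun s => wv v s ι) (v ι * wv v t ι) t := by
    unfold wv
    have := ((hasDerivAt_id t).mul_const (v ι : ℝ)).exp
    refine this.congr_deriv ?_
    simp only [id_eq, one_mul]
    ring
  refine ((h1.const_mul (c ι)).mul_const _).congr_deriv ?_
  ring

/-- The first derivative of the family. -/
noncomputable def u1 (A : ℕ) (v : Fin N → ℕ) (f : Fin N → ℕ → ℂ → ℂ) (t : ℝ) (i : Fin 2)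
    (p : Cn 2) : ℝ :=
  sq (fun ι => v ι * wv v t ι) (Fs A f i) p / sq (wv v t) (Fs A f i) p

theorem Sys.dt_uu (h : Sys A C v f) (t : ℝ) (i : Fin 2) {p : Cn 2} (hp : p ∈ UU) :
    dt (uu A v f) t i p = u1 A v f t i p := by
  have h1 := hasDerivAt_sq (v := v) (fun _ => 1) (Fs A f i) t p
  simp only [one_mul] at h1
  have h2 := h1.log (h.sq_pos (wv_pos v t) i hp).ne'
  exact h2.deriv

theorem Sys.dt_dt_uu (h : Sys A C v f) (t : ℝ) (i : Fin 2) {p : Cn 2} (hp : p ∈ UU) :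
    dt (dt (uu A v f)) t i p = sq (fun ι => (v ι * v ι) * wv v t ι) (Fs A f i) p /
      sq (wv v t) (Fs A f i) p - u1 A v f t i p ^ 2 := by
  have h1 := hasDerivAt_sq (v := v) (fun _ => 1) (Fs A f i) t p
  have h2 := hasDerivAt_sq (v := v) (fun ι => v ι) (Fs A f i) t p
  simp only [one_mul] at h1
  have hS := (h.sq_pos (wv_pos v t) i hp).ne'
  have h3 : HasDerivAt (fun s => dt (uu A v f) s i p) _ t :=
    (h2.div h1 hS).congr_of_eventuallyEq (Filter.Eventually.of_forall fun s => h.dt_uu s i hp)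
  unfold dt at h3 ⊢
  rw [h3.deriv]
  unfold u1
  field_simp

theorem sjk_zero (c : ℝ) (w : Fin N → ℝ) (F : Fin N → Cn 2 → ℂ) (j : Fin 2) (p : Cn 2) :
    sj (fun ι => c * w ι) F j p = c * sj w F j p := by
  unfold sj
  rw [Finset.mul_sum]
  refine Finset.sum_congr rfl fun ι _ => ?_
  push_cast
  ring

theorem Sys.dz_u1 (h : Sys A C v f) (t : ℝ) (i j : Fin 2) {p : Cn 2} (hp : p ∈ UU) :
    dz j (fun q => ((dt (uu A v f) t i q : ℝ) : ℂ)) p =
      ((sq (wv v t) (Fs A f i) p : ℂ) * sj (fun ι => v ι * wv v t ι) (Fs A f i) j p -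
        (sq (fun ι => v ι * wv v t ι) (Fs A f i) p : ℂ) * sj (wv v t) (Fs A f i) j p) /
        (sq (wv v t) (Fs A f i) p : ℂ) ^ 2 := by
  have hS := h.sq_pos (wv_pos v t) i hp
  have hSc : (sq (wv v t) (Fs A f i) p : ℂ) ≠ 0 := by exact_mod_cast hS.ne'
  have hF1 : ∀ ι, DifferentiableAt ℂ (Fs A f i ι) p := fun ι =>
    (h.cdAt i ι hp (n := 2)).differentiableAt (by simp)
  have hev : (fun q => ((dt (uu A v f) t i q : ℝ) : ℂ)) =ᶠ[𝓝 p] fun q =>
      ((sq (fun ι => v ι * wv v t ι) (Fs A f i) q : ℝ) : ℂ) *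
        (((sq (wv v t) (Fs A f i) q)⁻¹ : ℝ) : ℂ) := by
    filter_upwards [isOpen_UU.mem_nhds hp] with q hq
    rw [h.dt_uu t i hq]
    unfold u1
    push_cast
    rw [div_eq_mul_inv]
  rw [dz_congr hev]
  have d1 : DifferentiableAt ℝ (sq (wv v t) (Fs A f i)) p :=
    (contDiffAt_sq (n := 2) _ fun ι => ((h.cdR i ι).contDiffAt
      (isOpen_UU.mem_nhds hp))).differentiableAt (by simp)
  have d2 : DifferentiableAt ℝ (sq (fun ι => v ι * wv v t ι) (Fs A f i)) p :=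
    (contDiffAt_sq (n := 2) _ fun ι => ((h.cdR i ι).contDiffAt
      (isOpen_UU.mem_nhds hp))).differentiableAt (by simp)
  have c1 : DifferentiableAt ℝ (fun q => ((sq (fun ι => v ι * wv v t ι) (Fs A f i) q : ℝ) : ℂ)) p :=
    Complex.ofRealCLM.differentiableAt.comp p d2
  have c2 : DifferentiableAt ℝ (fun q => (((sq (wv v t) (Fs A f i) q)⁻¹ : ℝ) : ℂ)) p :=
    Complex.ofRealCLM.differentiableAt.comp p (d1.inv hS.ne')
  rw [dz_mul c1 c2, dz_sq _ hF1, (dz_real_comp (hasDerivAt_inv hS.ne') d1 j).1, dz_sq _ hF1]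
  push_cast
  field_simp
  ring

/-- The pointwise inequality for the second derivative. -/
theorem Sys.ineq (h : Sys A C v f) (t : ℝ) (i : Fin 2) {p : Cn 2} (hp : p ∈ UU) :
    2 * DD (DM (dt (uu A v f) t i) (dt (uu A v f) t i) p) (LL (uu A v f t i) p) ≤
      dt (dt (uu A v f)) t i p * DD (LL (uu A v f t i) p) (LL (uu A v f t i) p) := by
  set w := wv v t with hw
  set F := Fs A f i with hF
  have hS := h.sq_pos (wv_pos v t) i hp
  rw [← hw, ← hF] at hS
  have hSc : (sq w F p : ℂ) ≠ 0 := by exact_mod_cast hS.ne'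
  have hcd : ∀ ι, ContDiffAt ℂ 2 (F ι) p := fun ι => h.cdAt i ι hp
  have hw0 : ∀ ι, 0 ≤ w ι := fun ι => (wv_pos v t ι).le
  have hG := gm_psd hw0 (a := fun ι => F ι p) hS
    ![fun ι => (v ι : ℂ) * F ι p, fun ι => dz 0 (F ι) p, fun ι => dz 1 (F ι) p]
  have hdet := det_re_nonneg hG
  -- entries
  have hU : ∀ j k, LL (uu A v f t i) p j k = ((sq w F p : ℂ) * sjk w F j k p -
      sj w F j p * conj (sj w F k p)) / (sq w F p : ℂ) ^ 2 := LL_log_sq hcd hS
  have hb : ∀ j, dz j (fun q => ((dt (uu A v f) t i q : ℝ) : ℂ)) p = _ := fun j =>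
    h.dz_u1 t i j hp
  have hc : ∀ j, dzbar j (fun q => ((dt (uu A v f) t i q : ℝ) : ℂ)) p =
      conj (dz j (fun q => ((dt (uu A v f) t i q : ℝ) : ℂ)) p) := by
    intro j
    rw [← Pool.Agent.TH598.KG.dzbar_conj]
    simp only [Complex.conj_ofReal]
  have hdd := h.dt_dt_uu t i hp
  rw [← hw, ← hF] at hdd
  -- the matrix
  set ü : ℝ := dt (dt (uu A v f)) t i p with hü
  set b : Fin 2 → ℂ := fun j => dz j (fun q => ((dt (uu A v f) t i q : ℝ) : ℂ)) p with hbdef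
  set U : M2 := LL (uu A v f t i) p with hUdef
  have hsum0 : ∑ ι, (w ι : ℂ) * ((v ι : ℂ) * F ι p * conj (F ι p)) =
      (sq (fun ι => v ι * w ι) F p : ℂ) := by
    rw [sq_coe]
    refine Finset.sum_congr rfl fun ι _ => ?_
    push_cast
    ring
  have hM : gm w (fun ι => F ι p)
      ![fun ι => (v ι : ℂ) * F ι p, fun ι => dz 0 (F ι) p, fun ι => dz 1 (F ι) p] =
      (sq w F p : ℂ) • !![(ü : ℂ), conj (b 0), conj (b 1); b 0, U 0 0, U 0 1; b 1, U 1 0, U 1 1] := by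
    have hsumj : ∀ j : Fin 2, ∑ ι, (w ι : ℂ) * (dz j (F ι) p * conj ((v ι : ℂ) * F ι p)) =
        sj (fun ι => v ι * w ι) F j p := by
      intro j
      unfold sj
      refine Finset.sum_congr rfl fun ι _ => ?_
      simp only [map_mul, Complex.conj_natCast]
      push_cast
      ring
    have hsumj' : ∀ j : Fin 2, ∑ ι, (w ι : ℂ) * ((v ι : ℂ) * F ι p * conj (dz j (F ι) p)) =
        conj (sj (fun ι => v ι * w ι) F j p) := by
      intro j
      rw [← hsumj j, map_sum]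
      refine Finset.sum_congr rfl fun ι _ => ?_
      simp only [map_mul, Complex.conj_natCast, Complex.conj_conj, Complex.conj_ofReal]
      ring
    have hsumv : ∑ ι, (w ι : ℂ) * ((v ι : ℂ) * F ι p * conj ((v ι : ℂ) * F ι p)) =
        (sq (fun ι => (v ι * v ι) * w ι) F p : ℂ) := by
      rw [sq_coe]
      refine Finset.sum_congr rfl fun ι _ => ?_
      simp only [map_mul, Complex.conj_natCast]
      push_cast
      ring
    have hreal : conj (sq (fun ι => (v ι : ℝ) * w ι) F p : ℂ) = (sq (fun ι => v ι * w ι) F p : ℂ) :=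
      Complex.conj_ofReal _
    have g00 : gm w (fun ι => F ι p)
        ![fun ι => (v ι : ℂ) * F ι p, fun ι => dz 0 (F ι) p, fun ι => dz 1 (F ι) p] 0 0 =
        (sq w F p : ℂ) * (ü : ℂ) := by
      show ∑ ι, (w ι : ℂ) * ((v ι : ℂ) * F ι p * conj ((v ι : ℂ) * F ι p)) -
        (∑ ι, (w ι : ℂ) * ((v ι : ℂ) * F ι p * conj (F ι p))) *
        conj (∑ ι, (w ι : ℂ) * ((v ι : ℂ) * F ι p * conj (F ι p))) / (sq w F p : ℂ) = _
      rw [hsumv, hsum0, hreal, hdd]
      unfold u1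
      rw [← hw, ← hF]
      push_cast
      field_simp
    have gj0 : ∀ j : Fin 2, ∑ ι, (w ι : ℂ) * (dz j (F ι) p * conj ((v ι : ℂ) * F ι p)) -
        (∑ ι, (w ι : ℂ) * (dz j (F ι) p * conj (F ι p))) *
        conj (∑ ι, (w ι : ℂ) * ((v ι : ℂ) * F ι p * conj (F ι p))) / (sq w F p : ℂ) =
        (sq w F p : ℂ) * b j := by
      intro j
      rw [hsumj, hsum0, hreal, hbdef]
      show _ = _ * dz j (fun q => ((dt (uu A v f) t i q : ℝ) : ℂ)) p
      rw [hb j]
      show _ - sj w F j p * _ / _ = _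
      rw [← hw, ← hF]
      field_simp
    have g0j : ∀ j : Fin 2, ∑ ι, (w ι : ℂ) * ((v ι : ℂ) * F ι p * conj (dz j (F ι) p)) -
        (∑ ι, (w ι : ℂ) * ((v ι : ℂ) * F ι p * conj (F ι p))) *
        conj (∑ ι, (w ι : ℂ) * (dz j (F ι) p * conj (F ι p))) / (sq w F p : ℂ) =
        (sq w F p : ℂ) * conj (b j) := by
      intro j
      have h1 := congrArg conj (gj0 j)
      simp only [map_sub, map_mul, map_div₀, Complex.conj_conj, Complex.conj_ofReal] at h1
      rw [← h1, hsumj', hsum0]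
      congr 1
      · rw [← hsumj j]
        simp only [map_sum, map_mul, Complex.conj_conj, Complex.conj_ofReal, Complex.conj_natCast]
      · rw [mul_comm]
    have gjk : ∀ j k : Fin 2, ∑ ι, (w ι : ℂ) * (dz j (F ι) p * conj (dz k (F ι) p)) -
        (∑ ι, (w ι : ℂ) * (dz j (F ι) p * conj (F ι p))) *
        conj (∑ ι, (w ι : ℂ) * (dz k (F ι) p * conj (F ι p))) / (sq w F p : ℂ) =
        (sq w F p : ℂ) * U j k := by
      intro j k
      rw [hU j k]
      show sjk w F j k p - sj w F j p * conj (sj w F k p) / (sq w F p : ℂ) = _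
      field_simp
    ext a c
    fin_cases a <;> fin_cases c
    · exact g00
    · exact g0j 0
    · exact g0j 1
    · exact gj0 0
    · exact gjk 0 0
    · exact gjk 0 1
    · exact gj0 1
    · exact gjk 1 0
    · exact gjk 1 1
  rw [hM, Matrix.det_smul, Fintype.card_fin] at hdet
  have h3 : ((sq w F p : ℂ) ^ 3 * (!![(ü : ℂ), conj (b 0), conj (b 1); b 0, U 0 0, U 0 1;
      b 1, U 1 0, U 1 1]).det).re = sq w F p ^ 3 * ((!![(ü : ℂ), conj (b 0), conj (b 1);
      b 0, U 0 0, U 0 1; b 1, U 1 0, U 1 1]).det).re := by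
    rw [← Complex.ofReal_pow, Complex.re_ofReal_mul]
  rw [h3] at hdet
  have h4 : 0 ≤ ((!![(ü : ℂ), conj (b 0), conj (b 1);
      b 0, U 0 0, U 0 1; b 1, U 1 0, U 1 1]).det).re :=
    nonneg_of_mul_nonneg_right hdet (pow_pos hS 3)
  rw [Matrix.det_fin_three] at h4
  have h5 : ü * DD U U - 2 * DD (DM (dt (uu A v f) t i) (dt (uu A v f) t i) p) U =
      2 * ((ü : ℂ) * U 0 0 * U 1 1 - (ü : ℂ) * U 0 1 * U 1 0 - conj (b 0) * b 0 * U 1 1 +
        conj (b 0) * U 0 1 * b 1 + conj (b 1) * b 0 * U 1 0 - conj (b 1) * U 0 0 * b 1).re := by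
    unfold DD DM
    simp only [Matrix.of_apply, hc]
    have e : ∀ j, dz j (fun q => ((dt (uu A v f) t i q : ℝ) : ℂ)) p = b j := fun _ => rfl
    simp only [e]
    rw [← Complex.re_ofReal_mul, show (2 : ℝ) * (b 0 * conj (b 0) * U 1 1 +
      b 1 * conj (b 1) * U 0 0 - b 0 * conj (b 1) * U 1 0 - b 1 * conj (b 0) * U 0 1).re =
      (((2 : ℝ) : ℂ) * (b 0 * conj (b 0) * U 1 1 +
      b 1 * conj (b 1) * U 0 0 - b 0 * conj (b 1) * U 1 0 - b 1 * conj (b 0) * U 0 1)).re from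
      (Complex.re_ofReal_mul _ _).symm, ← Complex.sub_re, show (2 : ℝ) * ((ü : ℂ) * U 0 0 * U 1 1 -
        (ü : ℂ) * U 0 1 * U 1 0 - conj (b 0) * b 0 * U 1 1 +
        conj (b 0) * U 0 1 * b 1 + conj (b 1) * b 0 * U 1 0 - conj (b 1) * U 0 0 * b 1).re =
        (((2 : ℝ) : ℂ) * ((ü : ℂ) * U 0 0 * U 1 1 -
        (ü : ℂ) * U 0 1 * U 1 0 - conj (b 0) * b 0 * U 1 1 +
        conj (b 0) * U 0 1 * b 1 + conj (b 1) * b 0 * U 1 0 - conj (b 1) * U 0 0 * b 1)).re from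
      (Complex.re_ofReal_mul _ _).symm]
    congr 1
    push_cast
    ring
  have h6 : 0 ≤ ü * DD U U - 2 * DD (DM (dt (uu A v f) t i) (dt (uu A v f) t i) p) U := by
    rw [h5]
    refine mul_nonneg zero_le_two ?_
    have h7 := h4
    simp at h7 ⊢
    linarith
  linarith

end sys

end Pool.Agent.Y486
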