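import Pool.Agent.Y486.Fam
import Pool.Agent.TH598.KG.Met

/-!
# Sums of squares of sections
-/

set_option autoImplicit false

open scoped Manifold ContDiff Topology ComplexConjugate MatrixGroups UpperHalfPlane Matrix
open scoped ComplexOrder
open MeasureTheory Set Filter

namespace Pool.Agent.Y486

open Pool.Agent.W549.CY (Cn dz dzbar HermitianMetric chernRicci chernScalar)
open Pool.Agent.W711.KC (jj nn CG CG_far NN_pos jj_ne im_mob jj_mul nn_mul det_eq)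
open Pool.Agent.TH598.KG (hf Cutoff d1)
open Pool.Agent.TH997.KG (mob VV mob_mem mob_mul mob_one mob_inv_left mob_inv_right mob_coe
  hasDerivAt_mob isOpen_VV)
open Pool.Agent.TH997.CMan
open Complex (normSq)

/-! ### Sections -/

theorem sec_FF {A C v : ℕ} (hAC : A ≤ C) {f : ℕ → ℂ → ℂ} (hf : IsSec A C v f) {g : SL(2, ℝ)}
    (hg : g ∈ CG) (i j : Fin 2) {p : Cn 2} (hp : p ∈ UU) (h : hom g i p j ≠ 0) :
    sec A f j (FF g i j p) = (hom g i p j)⁻¹ ^ A * jj g (p 0) ^ C * sec A f i p := by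
  unfold sec
  rw [Finset.mul_sum]
  refine Finset.sum_congr rfl fun l hl => ?_
  have hl' : l ≤ A := Nat.lt_succ_iff.1 (Finset.mem_range.1 hl)
  have h1 : f l (FF g i j p 0) = jj g (p 0) ^ (C - A + l) * f l (p 0) :=
    (hf.mf l hl').auto g hg (p 0) hp
  rw [h1, ins_FF g i j h]
  simp only [Pi.smul_apply, smul_eq_mul]
  have h2 : hom g i p 0 = jj g (p 0) * ins i p 0 := rfl
  have h3 : hom g i p 1 = ins i p 1 := rfl
  rw [h2, h3, mul_pow, mul_pow, mul_pow]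
  have h4 : jj g (p 0) ^ C = jj g (p 0) ^ (C - A + l) * jj g (p 0) ^ (A - l) := by
    rw [← pow_add]
    congr 1
    omega
  have h5 : (hom g i p j)⁻¹ ^ A = (hom g i p j)⁻¹ ^ (A - l) * (hom g i p j)⁻¹ ^ l := by
    rw [← pow_add]
    congr 1
    omega
  rw [h4, h5]
  ring

theorem normSq_sec_FF {A C v : ℕ} (hAC : A ≤ C) {f : ℕ → ℂ → ℂ} (hf : IsSec A C v f) {g : SL(2, ℝ)}
    (hg : g ∈ CG) (i j : Fin 2) {p : Cn 2} (hp : p ∈ UU) (h : hom g i p j ≠ 0) :
    normSq (sec A f j (FF g i j p)) = (normSq (hom g i p j))⁻¹ ^ A * normSq (jj g (p 0)) ^ C *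
      normSq (sec A f i p) := by
  rw [sec_FF hAC hf hg i j hp h]
  simp only [map_mul, map_pow, map_inv₀]

theorem contDiffOn_sec {A : ℕ} {f : ℕ → ℂ → ℂ}
    (hf : ∀ l, l ≤ A → DifferentiableOn ℂ (f l) {z : ℂ | 0 < z.im}) (i : Fin 2)
    {n : WithTop ℕ∞} : ContDiffOn ℂ n (sec A f i) UU := by
  unfold sec
  refine ContDiffOn.sum fun l hl => ?_
  have hl' : l ≤ A := Nat.lt_succ_iff.1 (Finset.mem_range.1 hl)
  have h1 : ContDiffOn ℂ n (f l) {z : ℂ | 0 < z.im} :=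
    (hf l hl').contDiffOn isOpen_VV
  have h2 : ContDiffOn ℂ n (fun p : Cn 2 => f l (p 0)) UU :=
    h1.comp (contDiff_apply ℂ ℂ (0 : Fin 2)).contDiffOn fun p hp => hp
  exact h2.mul (((contDiff_ins i 0).pow _).mul ((contDiff_ins i 1).pow _)).contDiffOn

/-! ### Sums of squares -/

section sq

variable {N : ℕ}

/-- `∑ w |F|²` -/
noncomputable def sq (w : Fin N → ℝ) (F : Fin N → Cn 2 → ℂ) (p : Cn 2) : ℝ :=
  ∑ ι, w ι * normSq (F ι p)

/-- `∑ w F_j conj F` -/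
noncomputable def sj (w : Fin N → ℝ) (F : Fin N → Cn 2 → ℂ) (j : Fin 2) (p : Cn 2) : ℂ :=
  ∑ ι, (w ι : ℂ) * (dz j (F ι) p * conj (F ι p))

/-- `∑ w F_j conj F_k` -/
noncomputable def sjk (w : Fin N → ℝ) (F : Fin N → Cn 2 → ℂ) (j k : Fin 2) (p : Cn 2) : ℂ :=
  ∑ ι, (w ι : ℂ) * (dz j (F ι) p * conj (dz k (F ι) p))

theorem normSq_coe (a : ℂ) : ((normSq a : ℝ) : ℂ) = a * conj a := (Complex.mul_conj a).symm

theorem dzbar_hol {h : Cn 2 → ℂ} {z : Cn 2} (hh : DifferentiableAt ℂ h z) (j : Fin 2) :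
    dzbar j h z = 0 := by
  have h1 := Pool.Agent.TH997.CMan.dz_conj hh j
  have h2 := Pool.Agent.TH598.KG.dz_conj j h z
  rw [h1] at h2
  have h3 := congrArg conj h2
  simpa using h3.symm

theorem cd2_diff {h : Cn 2 → ℂ} {p : Cn 2} (hh : ContDiffAt ℂ 2 h p) :
    ∀ᶠ q in 𝓝 p, DifferentiableAt ℂ h q := by
  filter_upwards [hh.eventually (by simp)] with w hw using hw.differentiableAt (by simp)

theorem cd2_conj {h : Cn 2 → ℂ} {p : Cn 2} (hh : ContDiffAt ℝ 2 h p) :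
    ContDiffAt ℝ 2 (fun q => conj (h q)) p :=
  (Complex.conjCLE : ℂ →L[ℝ] ℂ).contDiff.contDiffAt.comp p hh

theorem sq_coe (w : Fin N → ℝ) (F : Fin N → Cn 2 → ℂ) (p : Cn 2) :
    ((sq w F p : ℝ) : ℂ) = ∑ ι, (w ι : ℂ) * (F ι p * conj (F ι p)) := by
  unfold sq
  push_cast
  simp only [normSq_coe]

theorem dconj {h : Cn 2 → ℂ} {z : Cn 2} (hh : DifferentiableAt ℂ h z) :
    DifferentiableAt ℝ (fun q => conj (h q)) z :=
  (Complex.conjCLE : ℂ →L[ℝ] ℂ).differentiableAt.comp z (hh.restrictScalars ℝ)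

theorem dz_const_mul' (c : ℂ) {u : Cn 2 → ℂ} {z : Cn 2} (hu : DifferentiableAt ℝ u z) (j : Fin 2) :
    dz j (fun q => c * u q) z = c * dz j u z := by
  unfold dz
  rw [fderiv_const_mul hu]
  simp only [smul_apply, smul_eq_mul]
  ring

theorem dzbar_const_mul' (c : ℂ) {u : Cn 2 → ℂ} {z : Cn 2} (hu : DifferentiableAt ℝ u z)
    (j : Fin 2) : dzbar j (fun q => c * u q) z = c * dzbar j u z := by
  unfold dzbar
  rw [fderiv_const_mul hu]
  simp only [smul_apply, smul_eq_mul]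
  ring

theorem dzbar_sum' {ι : Type} {s : Finset ι} {u : ι → Cn 2 → ℂ} {z : Cn 2}
    (hu : ∀ i ∈ s, DifferentiableAt ℝ (u i) z) (j : Fin 2) :
    dzbar j (fun w => ∑ i ∈ s, u i w) z = ∑ i ∈ s, dzbar j (u i) z := by
  unfold dzbar
  rw [fderiv_fun_sum hu]
  simp only [sum_apply, Finset.mul_sum, ← Finset.sum_add_distrib]

theorem dzbar_mul' {u v : Cn 2 → ℂ} {z : Cn 2} (hu : DifferentiableAt ℝ u z)
    (hv : DifferentiableAt ℝ v z) (j : Fin 2) :
    dzbar j (fun w => u w * v w) z = dzbar j u z * v z + u z * dzbar j v z := by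
  unfold dzbar
  rw [fderiv_fun_mul hu hv]
  simp only [add_apply, smul_apply, smul_eq_mul]
  ring

theorem dz_sq (w : Fin N → ℝ) {F : Fin N → Cn 2 → ℂ} {p : Cn 2}
    (hF : ∀ ι, DifferentiableAt ℂ (F ι) p) (j : Fin 2) :
    dz j (fun q => ((sq w F q : ℝ) : ℂ)) p = sj w F j p := by
  simp only [sq_coe]
  have hR : ∀ ι, DifferentiableAt ℝ (F ι) p := fun ι => (hF ι).restrictScalars ℝ
  have hm : ∀ ι, DifferentiableAt ℝ (fun q => F ι q * conj (F ι q)) p := fun ι =>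
    (hR ι).mul (dconj (hF ι))
  rw [dz_sum (fun ι _ => (hm ι).const_mul _)]
  unfold sj
  refine Finset.sum_congr rfl fun ι _ => ?_
  rw [dz_const_mul' _ (hm ι), dz_mul (hR ι) (dconj (hF ι)), dz_conj (hF ι)]
  ring

theorem dzbar_sq (w : Fin N → ℝ) {F : Fin N → Cn 2 → ℂ} {p : Cn 2}
    (hF : ∀ ι, DifferentiableAt ℂ (F ι) p) (j : Fin 2) :
    dzbar j (fun q => ((sq w F q : ℝ) : ℂ)) p = ∑ ι, (w ι : ℂ) * (F ι p * conj (dz j (F ι) p)) := by
  simp only [sq_coe]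
  have hR : ∀ ι, DifferentiableAt ℝ (F ι) p := fun ι => (hF ι).restrictScalars ℝ
  have hm : ∀ ι, DifferentiableAt ℝ (fun q => F ι q * conj (F ι q)) p := fun ι =>
    (hR ι).mul (dconj (hF ι))
  rw [dzbar_sum' (fun ι _ => (hm ι).const_mul _)]
  refine Finset.sum_congr rfl fun ι _ => ?_
  rw [dzbar_const_mul' _ (hm ι), dzbar_mul' (hR ι) (dconj (hF ι)), dzbar_hol (hF ι),
    Pool.Agent.TH598.KG.dzbar_conj]
  ring

theorem conj_sj (w : Fin N → ℝ) (F : Fin N → Cn 2 → ℂ) (j : Fin 2) (p : Cn 2) :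
    conj (sj w F j p) = ∑ ι, (w ι : ℂ) * (F ι p * conj (dz j (F ι) p)) := by
  unfold sj
  rw [map_sum]
  refine Finset.sum_congr rfl fun ι _ => ?_
  simp only [map_mul, Complex.conj_ofReal, Complex.conj_conj]
  ring

theorem levi_sq (w : Fin N → ℝ) {F : Fin N → Cn 2 → ℂ} {p : Cn 2}
    (hF : ∀ ι, ContDiffAt ℂ 2 (F ι) p) (j k : Fin 2) :
    dz j (dzbar k fun q => ((sq w F q : ℝ) : ℂ)) p = sjk w F j k p := by
  have hF1 : ∀ ι, DifferentiableAt ℂ (F ι) p := fun ι => (hF ι).differentiableAt (by simp)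
  have hev : (dzbar k fun q => ((sq w F q : ℝ) : ℂ)) =ᶠ[𝓝 p]
      fun q => ∑ ι, (w ι : ℂ) * (F ι q * conj (dz k (F ι) q)) := by
    have h : ∀ᶠ q in 𝓝 p, ∀ ι, DifferentiableAt ℂ (F ι) q :=
      Filter.eventually_all.2 fun ι => cd2_diff (hF ι)
    filter_upwards [h] with q hq using dzbar_sq w hq k
  rw [dz_congr hev]
  -- `dz k F` is holomorphic
  have hdz : ∀ ι, dz k (F ι) =ᶠ[𝓝 p] fun q => fderiv ℂ (F ι) q (Pi.single k 1) := by
    intro ι
    filter_upwards [cd2_diff (hF ι)] with q hq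
    have h1 : fderiv ℝ (F ι) q = (fderiv ℂ (F ι) q).restrictScalars ℝ :=
      (hq.hasFDerivAt.restrictScalars ℝ).fderiv
    unfold dz
    rw [h1]
    have h2 : (Pi.single k Complex.I : Cn 2) = Complex.I • Pi.single k 1 := single_I k
    show (1 / 2) * (fderiv ℂ (F ι) q (Pi.single k 1) -
      Complex.I * fderiv ℂ (F ι) q (Pi.single k Complex.I)) = _
    rw [h2, map_smul, smul_eq_mul]
    linear_combination (-(1 / 2) * fderiv ℂ (F ι) q (Pi.single k 1)) * Complex.I_mul_I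
  have hdh : ∀ ι, DifferentiableAt ℂ (dz k (F ι)) p := by
    intro ι
    have hD : DifferentiableAt ℂ (fderiv ℂ (F ι)) p :=
      ((hF ι).fderiv_right (m := 1) (by norm_num)).differentiableAt (by simp)
    have h3 : DifferentiableAt ℂ (fun q => fderiv ℂ (F ι) q (Pi.single k 1)) p :=
      hD.clm_apply (differentiableAt_const _)
    exact h3.congr_of_eventuallyEq (hdz ι)
  have hR : ∀ ι, DifferentiableAt ℝ (F ι) p := fun ι => (hF1 ι).restrictScalars ℝ
  have hm : ∀ ι, DifferentiableAt ℝ (fun q => F ι q * conj (dz k (F ι) q)) p := fun ι =>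
    (hR ι).mul (dconj (hdh ι))
  rw [dz_sum (fun ι _ => (hm ι).const_mul _)]
  unfold sjk
  refine Finset.sum_congr rfl fun ι _ => ?_
  rw [dz_const_mul' _ (hm ι), dz_mul (hR ι) (dconj (hdh ι)), dz_conj (hdh ι)]
  ring

theorem contDiffAt_sq (w : Fin N → ℝ) {F : Fin N → Cn 2 → ℂ} {p : Cn 2} {n : WithTop ℕ∞}
    (hF : ∀ ι, ContDiffAt ℝ n (F ι) p) : ContDiffAt ℝ n (sq w F) p := by
  unfold sq
  refine ContDiffAt.sum fun ι _ => contDiffAt_const.mul ?_
  have h3 : (fun q => normSq (F ι q)) = fun q => ‖F ι q‖ ^ 2 := by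
    funext q
    exact Complex.normSq_eq_norm_sq _
  rw [h3]
  exact (hF ι).norm_sq ℝ

/-- the logarithm -/
theorem dz_real_comp {η : ℝ → ℝ} {η' : ℝ} {S : Cn 2 → ℝ} {p : Cn 2} (hη : HasDerivAt η η' (S p))
    (hS : DifferentiableAt ℝ S p) (j : Fin 2) :
    dz j (fun q => ((η (S q) : ℝ) : ℂ)) p = (η' : ℂ) * dz j (fun q => ((S q : ℝ) : ℂ)) p ∧
    dzbar j (fun q => ((η (S q) : ℝ) : ℂ)) p = (η' : ℂ) * dzbar j (fun q => ((S q : ℝ) : ℂ)) p := by
  have h1 : HasFDerivAt (fun q => ((S q : ℝ) : ℂ)) (Complex.ofRealCLM.comp (fderiv ℝ S p)) p :=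
    Complex.ofRealCLM.hasFDerivAt.comp p hS.hasFDerivAt
  have h2 : HasFDerivAt (fun q => η (S q)) (η' • fderiv ℝ S p) p :=
    hη.comp_hasFDerivAt p hS.hasFDerivAt
  have h3 : HasFDerivAt (fun q => ((η (S q) : ℝ) : ℂ)) (Complex.ofRealCLM.comp (η' • fderiv ℝ S p)) p :=
    Complex.ofRealCLM.hasFDerivAt.comp p h2
  constructor
  · unfold dz
    rw [h3.fderiv, h1.fderiv]
    simp only [ContinuousLinearMap.comp_apply, smul_apply, smul_eq_mul, Complex.ofRealCLM_apply]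
    push_cast
    ring
  · unfold dzbar
    rw [h3.fderiv, h1.fderiv]
    simp only [ContinuousLinearMap.comp_apply, smul_apply, smul_eq_mul, Complex.ofRealCLM_apply]
    push_cast
    ring

theorem LL_log {S : Cn 2 → ℝ} {p : Cn 2} (hS : ContDiffAt ℝ 2 S p) (h0 : 0 < S p) (j k : Fin 2) :
    LL (fun q => Real.log (S q)) p j k = ((S p : ℂ) * LL S p j k -
      dz j (fun q => ((S q : ℝ) : ℂ)) p * dzbar k (fun q => ((S q : ℝ) : ℂ)) p) / (S p : ℂ) ^ 2 := by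
  have hpos : ∀ᶠ q in 𝓝 p, 0 < S q := hS.continuousAt.eventually (lt_mem_nhds h0)
  have hdiff : ∀ᶠ q in 𝓝 p, DifferentiableAt ℝ S q := by
    filter_upwards [hS.eventually (by simp)] with w hw using hw.differentiableAt (by simp)
  have hev : (dzbar k fun q => ((Real.log (S q) : ℝ) : ℂ)) =ᶠ[𝓝 p]
      fun q => (((S q)⁻¹ : ℝ) : ℂ) * dzbar k (fun q => ((S q : ℝ) : ℂ)) q := by
    filter_upwards [hpos, hdiff] with q h1 h2
    exact (dz_real_comp (Real.hasDerivAt_log h1.ne') h2 k).2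
  show dz j (dzbar k fun q => ((Real.log (S q) : ℝ) : ℂ)) p = _
  rw [dz_congr hev]
  have hSC : ContDiffAt ℝ 2 (fun q => ((S q : ℝ) : ℂ)) p :=
    Complex.ofRealCLM.contDiff.contDiffAt.comp p hS
  have h3 : DifferentiableAt ℝ (dzbar k fun q => ((S q : ℝ) : ℂ)) p :=
    (contDiffAt_dzbar (m := 1) hSC k).differentiableAt (by simp)
  have h4 : DifferentiableAt ℝ (fun q => (((S q)⁻¹ : ℝ) : ℂ)) p :=
    Complex.ofRealCLM.differentiableAt.comp p
      ((hS.differentiableAt (by simp)).inv h0.ne')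
  rw [dz_mul h4 h3, (dz_real_comp (hasDerivAt_inv h0.ne') (hS.differentiableAt (by simp)) j).1]
  have hne : (S p : ℂ) ≠ 0 := by exact_mod_cast h0.ne'
  have hl : LL S p j k = dz j (dzbar k fun q => ((S q : ℝ) : ℂ)) p := rfl
  rw [hl]
  push_cast
  field_simp
  ring

theorem LL_herm {P : Cn 2 → ℝ} {p : Cn 2} (hP : ContDiffAt ℝ 2 P p) : (LL P p).IsHermitian := by
  have hPC : ContDiffAt ℝ 2 (fun q => ((P q : ℝ) : ℂ)) p :=
    Complex.ofRealCLM.contDiff.contDiffAt.comp p hP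
  ext j k
  show conj (dz k (dzbar j fun q => ((P q : ℝ) : ℂ)) p) = dz j (dzbar k fun q => ((P q : ℝ) : ℂ)) p
  rw [← Pool.Agent.TH598.KG.dzbar_conj]
  have e : (fun w => conj (dzbar j (fun q => ((P q : ℝ) : ℂ)) w)) = dz j fun q => ((P q : ℝ) : ℂ) := by
    funext w
    rw [← Pool.Agent.TH598.KG.dz_conj]
    simp
  rw [e, dz_dzbar hPC]

theorem DM_conj (f h : Cn 2 → ℝ) (p : Cn 2) (j k : Fin 2) : DM h f p j k = conj (DM f h p k j) := by
  show dz j (fun q => ((h q : ℝ) : ℂ)) p * dzbar k (fun q => ((f q : ℝ) : ℂ)) p =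
    conj (dz k (fun q => ((f q : ℝ) : ℂ)) p * dzbar j (fun q => ((h q : ℝ) : ℂ)) p)
  rw [map_mul, ← Pool.Agent.TH598.KG.dzbar_conj, ← Pool.Agent.TH598.KG.dz_conj]
  simp only [Complex.conj_ofReal]
  ring

theorem DD_DM_symm (f h : Cn 2 → ℝ) {p : Cn 2} {b : M2} (hb : b.IsHermitian) :
    DD (DM h f p) b = DD (DM f h p) b := by
  have e00 : conj (b 0 0) = b 0 0 := hb.apply 0 0
  have e11 : conj (b 1 1) = b 1 1 := hb.apply 1 1
  have e10 : b 1 0 = conj (b 0 1) := (hb.apply 1 0).symm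
  unfold DD
  rw [DM_conj f h p 0 0, DM_conj f h p 1 1, DM_conj f h p 0 1, DM_conj f h p 1 0, e10,
    ← Complex.conj_re]
  congr 1
  simp only [map_add, map_sub, map_mul, Complex.conj_conj, e00, e11]
  ring

theorem LL_log_sq {w : Fin N → ℝ} {F : Fin N → Cn 2 → ℂ} {p : Cn 2}
    (hF : ∀ ι, ContDiffAt ℂ 2 (F ι) p) (h0 : 0 < sq w F p) (j k : Fin 2) :
    LL (fun q => Real.log (sq w F q)) p j k = ((sq w F p : ℂ) * sjk w F j k p -
      sj w F j p * conj (sj w F k p)) / (sq w F p : ℂ) ^ 2 := by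
  have hF1 : ∀ ι, DifferentiableAt ℂ (F ι) p := fun ι => (hF ι).differentiableAt (by simp)
  rw [LL_log (contDiffAt_sq w fun ι => (hF ι).restrict_scalars ℝ) h0, dz_sq w hF1, dzbar_sq w hF1,
    conj_sj]
  have : LL (sq w F) p j k = sjk w F j k p := levi_sq w hF j k
  rw [this]

/-! ### Gram matrices -/

/-- The Gram matrix of the projections to the orthogonal complement of `a`. -/
noncomputable def gm {m : ℕ} (w : Fin N → ℝ) (a : Fin N → ℂ) (x : Fin m → Fin N → ℂ) :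
    Matrix (Fin m) (Fin m) ℂ :=
  Matrix.of fun i j => ∑ ι, (w ι : ℂ) * (x i ι * conj (x j ι)) -
    (∑ ι, (w ι : ℂ) * (x i ι * conj (a ι))) * conj (∑ ι, (w ι : ℂ) * (x j ι * conj (a ι))) /
      ((∑ ι, w ι * normSq (a ι) : ℝ) : ℂ)

theorem gm_psd {m : ℕ} {w : Fin N → ℝ} (hw : ∀ ι, 0 ≤ w ι) {a : Fin N → ℂ}
    (ha : 0 < ∑ ι, w ι * normSq (a ι)) (x : Fin m → Fin N → ℂ) : (gm w a x).PosSemidef := by
  set S : ℝ := ∑ ι, w ι * normSq (a ι) with hS
  have hSc : (S : ℂ) = ∑ ι, (w ι : ℂ) * (a ι * conj (a ι)) := by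
    rw [hS]
    push_cast
    simp only [normSq_coe]
  have hne : (S : ℂ) ≠ 0 := by exact_mod_cast ha.ne'
  let T : Fin m → ℂ := fun i => ∑ ι, (w ι : ℂ) * (x i ι * conj (a ι))
  let B : Matrix (Fin m) (Fin N) ℂ := Matrix.of fun i ι =>
    ((√(w ι) : ℝ) : ℂ) * (x i ι - T i / (S : ℂ) * a ι)
  have h : gm w a x = B * Bᴴ := by
    ext i j
    rw [Matrix.mul_apply]
    have hB : ∀ ι, B i ι * Bᴴ ι j = (w ι : ℂ) * (x i ι * conj (x j ι)) -
        (T i / (S : ℂ)) * ((w ι : ℂ) * (a ι * conj (x j ι))) -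
        (conj (T j) / (S : ℂ)) * ((w ι : ℂ) * (x i ι * conj (a ι))) +
        (T i * conj (T j) / (S : ℂ) ^ 2) * ((w ι : ℂ) * (a ι * conj (a ι))) := by
      intro ι
      have hsq : ((√(w ι) : ℝ) : ℂ) * ((√(w ι) : ℝ) : ℂ) = (w ι : ℂ) := by
        rw [← Complex.ofReal_mul, Real.mul_self_sqrt (hw ι)]
      show ((√(w ι) : ℝ) : ℂ) * (x i ι - T i / (S : ℂ) * a ι) *
        conj (((√(w ι) : ℝ) : ℂ) * (x j ι - T j / (S : ℂ) * a ι)) = _
      simp only [map_mul, map_sub, map_div₀, Complex.conj_ofReal]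
      rw [← hsq]
      field_simp
      ring
    rw [Finset.sum_congr rfl fun ι _ => hB ι, Finset.sum_add_distrib, Finset.sum_sub_distrib,
      Finset.sum_sub_distrib, ← Finset.mul_sum, ← Finset.mul_sum, ← Finset.mul_sum, ← hSc]
    have e1 : ∑ ι, (w ι : ℂ) * (a ι * conj (x j ι)) = conj (T j) := by
      show _ = conj (∑ ι, (w ι : ℂ) * (x j ι * conj (a ι)))
      rw [map_sum]
      refine Finset.sum_congr rfl fun ι _ => ?_
      simp only [map_mul, Complex.conj_ofReal, Complex.conj_conj]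
      ring
    have e2 : ∑ ι, (w ι : ℂ) * (x i ι * conj (a ι)) = T i := rfl
    rw [e1, e2]
    show ∑ ι, (w ι : ℂ) * (x i ι * conj (x j ι)) - T i * conj (T j) / (S : ℂ) = _
    field_simp
    ring
  rw [h]
  exact Matrix.posSemidef_self_mul_conjTranspose B

theorem det_re_nonneg {m : ℕ} {M : Matrix (Fin m) (Fin m) ℂ} (h : M.PosSemidef) : 0 ≤ M.det.re :=
  (Complex.nonneg_iff.1 h.det_nonneg).1

/-- positive semidefinite complex Hessian -/
theorem LL_log_psd {w : Fin N → ℝ} (hw : ∀ ι, 0 ≤ w ι) {F : Fin N → Cn 2 → ℂ} {p : Cn 2}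
    (hF : ∀ ι, ContDiffAt ℂ 2 (F ι) p) (h0 : 0 < sq w F p) :
    (LL (fun q => Real.log (sq w F q)) p).PosSemidef := by
  have h1 := gm_psd hw (a := fun ι => F ι p) h0 (fun (j : Fin 2) ι => dz j (F ι) p)
  have hne : (sq w F p : ℂ) ≠ 0 := by exact_mod_cast h0.ne'
  have h2 : LL (fun q => Real.log (sq w F q)) p =
      (sq w F p)⁻¹ • gm w (fun ι => F ι p) (fun (j : Fin 2) ι => dz j (F ι) p) := by
    ext j k
    rw [LL_log_sq hF h0, Matrix.smul_apply, Complex.real_smul]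
    show _ = ((sq w F p)⁻¹ : ℝ) * (sjk w F j k p - sj w F j p * conj (sj w F k p) / (sq w F p : ℂ))
    push_cast
    field_simp
  rw [h2]
  exact h1.smul (inv_nonneg.2 h0.le)

/-- mixed discriminants of positive semidefinite matrices are non-negative -/
theorem DD_nonneg {a b : M2} (ha : a.PosSemidef) (hb : b.PosSemidef) : 0 ≤ DD a b := by
  have ha0 := Complex.nonneg_iff.1 (ha.diag_nonneg (i := 0))
  have ha1 := Complex.nonneg_iff.1 (ha.diag_nonneg (i := 1))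
  have hb0 := Complex.nonneg_iff.1 (hb.diag_nonneg (i := 0))
  have hb1 := Complex.nonneg_iff.1 (hb.diag_nonneg (i := 1))
  have hda := det_re_nonneg ha
  have hdb := det_re_nonneg hb
  have ea : a 1 0 = conj (a 0 1) := (ha.isHermitian.apply 1 0).symm
  have eb : b 1 0 = conj (b 0 1) := (hb.isHermitian.apply 1 0).symm
  rw [Matrix.det_fin_two] at hda hdb
  rw [ea] at hda
  rw [eb] at hdb
  unfold DD
  rw [ea, eb]
  simp only [Complex.add_re, Complex.sub_re, Complex.mul_re, Complex.conj_re, Complex.conj_im] at *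
  rw [← ha0.2, ← ha1.2] at *
  rw [← hb0.2, ← hb1.2] at *
  set p := (a 0 0).re
  set q := (a 1 1).re
  set r := (b 0 0).re
  set s := (b 1 1).re
  set x := (a 0 1).re
  set y := (a 0 1).im
  set u := (b 0 1).re
  set v := (b 0 1).im
  have h1 : x ^ 2 + y ^ 2 ≤ p * q := by nlinarith
  have h2 : u ^ 2 + v ^ 2 ≤ r * s := by nlinarith
  have hp : 0 ≤ p := ha0.1
  have hq : 0 ≤ q := ha1.1
  have hr : 0 ≤ r := hb0.1
  have hs : 0 ≤ s := hb1.1
  have h3 : (x * u + y * v) ^ 2 ≤ (p * q) * (r * s) := by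
    have : (x * u + y * v) ^ 2 ≤ (x ^ 2 + y ^ 2) * (u ^ 2 + v ^ 2) := by
      nlinarith [sq_nonneg (x * v - y * u)]
    refine this.trans (mul_le_mul h1 h2 (by positivity) (by positivity))
  have h4 : 2 * (x * u + y * v) ≤ p * s + q * r := by
    have h5 : (2 * (x * u + y * v)) ^ 2 ≤ (p * s + q * r) ^ 2 := by
      nlinarith [sq_nonneg (p * s - q * r)]
    exact (le_abs_self _).trans (abs_le_of_sq_le_sq h5 (by positivity))
  nlinarith

end sq

end Pool.Agent.Y486
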